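import Mathlib
import Pool.Agent.Lib.P0fb.Prob

/-!
# One-step emergence of the giant shadow: definitions

`α` is a finite set (the faces), `v : α → E` real vectors (the boundaries), `e` an ordering of `α`,
`Y e t` the set of the first `t` elements.
-/

namespace Pool.Agent.Lib.P0fc

open Finset Pool.Agent.Lib.P0fb

section Lin

variable {α : Type} [Fintype α] [DecidableEq α] {E : Type} [AddCommGroup E] [Module ℝ E]

open Classical in
/-- closure -/
noncomputable def vcl (v : α → E) (W : Finset α) : Finset α :=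
  univ.filter (fun g => v g ∈ Submodule.span ℝ (v '' (W : Set α)))

/-- rank -/
noncomputable def dm (v : α → E) (W : Finset α) : ℕ :=
  Module.finrank ℝ (Submodule.span ℝ (v '' (W : Set α)))

/-- the elements of `W` in the closure of the others -/
noncomputable def nc (v : α → E) (W : Finset α) : Finset α :=
  W.filter (fun h => h ∈ vcl v (W.erase h))

open Classical in
/-- the elements in the closure of less than `β` other elements of `W` -/
noncomputable def sm (v : α → E) (β : ℕ) (W : Finset α) : Finset α :=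
  univ.filter (fun g => ∃ T ⊆ W.erase g, T.card < β ∧ g ∈ vcl v T)

/-- the genuine elements of the closure -/
noncomputable def nt (v : α → E) (β : ℕ) (W : Finset α) : Finset α :=
  vcl v W \ (W ∪ sm v β W)

open Classical in
/-- the elements of `W` that are used in a small circuit with at most one element outside `W` -/
noncomputable def Bs (v : α → E) (β : ℕ) (W : Finset α) : Finset α :=
  W.filter (fun x => ∃ g, g ≠ x ∧ ∃ T ⊆ W, T.card < β ∧ x ∈ T ∧ g ∈ vcl v T ∧
    g ∉ vcl v (T.erase x))

/-- no small or large accident so far -/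
def OK (v : α → E) (β σ : ℕ) (W : Finset α) : Prop :=
  (nc v W).card ≤ σ ∧ (sm v β W).card ≤ σ

/-- `T_{xy}`: the elements of the line `xy` over `W` that are parallel to neither `x` nor `y` -/
noncomputable def Tset (v : α → E) (W : Finset α) (x y : α) : Finset α :=
  (vcl v (insert x (insert y W))).filter
    (fun g => g ∉ vcl v (insert x W) ∧ g ∉ vcl v (insert y W))

/-- a flat of size at least `θ N` is spanned by at most `r` elements over `A` -/
def Dle (v : α → E) (θ : ℝ) (r : ℕ) (A : Finset α) : Prop :=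
  ∃ P : Finset α, P.card ≤ r ∧ θ * (Fintype.card α : ℝ) ≤ ((vcl v (A ∪ P)).card : ℝ)

variable {N : ℕ}

/-- the exit: the first big circuit is closed by the element at position `t` -/
def Ex (v : α → E) (β σ : ℕ) (e : Fin N ≃ α) (t : ℕ) : Prop :=
  OK v β σ (Y e t) ∧ β + σ + 1 ≤ (nc v (Y e (t + 1))).card

/-- the element at position `i` -/
def At (e : Fin N ≃ α) (i : ℕ) (x : α) : Prop := (e.symm x).val = i

/-- the assumptions on the process -/
structure Good (v : α → E) (N M M₂ β σ : ℕ) (ε ν : ℝ) : Prop where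
  card : Fintype.card α = N
  hε : 0 < ε
  hε1 : ε ≤ 1
  hν : 0 < ν
  hν1 : ν ≤ 1 / 8
  hM : (M : ℝ) + 1 / ν ≤ M₂
  hN : (M₂ : ℝ) ≤ ν * N
  hβ : 2 * ε * M₂ ≤ β
  hσ : (σ : ℝ) ≤ ν * β
  h1 : 1 ≤ ν * β
  hS : 1 - ν ≤ PP (fun e : Fin N ≃ α => (sm v β (Y e M₂)).card ≤ σ ∧ (Bs v β (Y e M₂)).card ≤ σ)
  hE : 1 - ν ≤ PP (fun e : Fin N ≃ α => ∃ t < M, Ex v β σ e t)

end Lin

end Pool.Agent.Lib.P0fc
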