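import Mathlib
import Pool.Agent.Lib.P0fc.Base

/-!
# Facts on the closure and the rank
-/

namespace Pool.Agent.Lib.P0fc

open Finset Pool.Agent.Lib.P0fb

section Lin

variable {α : Type} [Fintype α] [DecidableEq α] {E : Type} [AddCommGroup E] [Module ℝ E]
variable {v : α → E} {W W' P : Finset α} {g x y : α}

theorem mem_vcl : g ∈ vcl v W ↔ v g ∈ Submodule.span ℝ (v '' (W : Set α)) := by
  classical
  unfold vcl
  rw [mem_filter]
  exact ⟨fun h => h.2, fun h => ⟨mem_univ _, h⟩⟩

theorem subset_vcl (v : α → E) (W : Finset α) : W ⊆ vcl v W := by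
  intro x hx
  rw [mem_vcl]
  exact Submodule.subset_span ⟨x, mem_coe.2 hx, rfl⟩

theorem vcl_mono (h : W ⊆ W') : vcl v W ⊆ vcl v W' := by
  intro x hx
  rw [mem_vcl] at hx ⊢
  exact Submodule.span_mono (Set.image_mono (coe_subset.2 h)) hx

theorem vcl_subset_of_subset (h : P ⊆ vcl v W) : vcl v P ⊆ vcl v W := by
  intro x hx
  rw [mem_vcl] at hx ⊢
  refine (Submodule.span_le.2 ?_) hx
  rintro _ ⟨y, hy, rfl⟩
  exact mem_vcl.1 (h (mem_coe.1 hy))

theorem vcl_vcl (v : α → E) (W : Finset α) : vcl v (vcl v W) = vcl v W :=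
  (vcl_subset_of_subset (Subset.refl _)).antisymm (subset_vcl v _)

theorem vcl_union_of_subset (h : P ⊆ vcl v W) : vcl v (W ∪ P) = vcl v W :=
  (vcl_subset_of_subset (union_subset (subset_vcl v W) h)).antisymm (vcl_mono subset_union_left)

theorem vcl_insert_of_mem (h : x ∈ vcl v W) : vcl v (insert x W) = vcl v W :=
  (vcl_subset_of_subset (insert_subset h (subset_vcl v W))).antisymm
    (vcl_mono (subset_insert _ _))

theorem vcl_insert_vcl (v : α → E) (W : Finset α) (x : α) :
    vcl v (insert x (vcl v W)) = vcl v (insert x W) := by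
  refine (vcl_subset_of_subset (insert_subset ?_ ?_)).antisymm
    (vcl_mono (insert_subset_insert _ (subset_vcl v W)))
  · exact subset_vcl v _ (mem_insert_self _ _)
  · exact vcl_mono (subset_insert _ _)

/-- exchange -/
theorem exch (h : g ∈ vcl v (insert x W)) (h' : g ∉ vcl v W) : x ∈ vcl v (insert g W) := by
  rw [mem_vcl, coe_insert, Set.image_insert_eq] at h ⊢
  rw [mem_vcl] at h'
  obtain ⟨a, z, hz, hg⟩ := Submodule.mem_span_insert.1 h
  have ha : a ≠ 0 := by
    rintro rfl
    rw [zero_smul, zero_add] at hg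
    exact h' (hg ▸ hz)
  rw [Submodule.mem_span_insert]
  refine ⟨a⁻¹, -(a⁻¹ • z), Submodule.neg_mem _ (Submodule.smul_mem _ _ hz), ?_⟩
  rw [hg, smul_add, smul_smul, inv_mul_cancel₀ ha, one_smul]
  abel

theorem finrank_fin (v : α → E) (W : Finset α) :
    Module.Finite ℝ (Submodule.span ℝ (v '' (W : Set α))) :=
  FiniteDimensional.span_of_finite ℝ ((finite_toSet W).image v)

theorem dm_mono (h : W ⊆ W') : dm v W ≤ dm v W' := by
  have := finrank_fin v W'
  exact Submodule.finrank_mono (Submodule.span_mono (Set.image_mono (coe_subset.2 h)))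

theorem span_vcl (v : α → E) (W : Finset α) :
    Submodule.span ℝ (v '' (vcl v W : Set α)) = Submodule.span ℝ (v '' (W : Set α)) := by
  refine le_antisymm (Submodule.span_le.2 ?_)
    (Submodule.span_mono (Set.image_mono (coe_subset.2 (subset_vcl v W))))
  rintro _ ⟨y, hy, rfl⟩
  exact mem_vcl.1 (mem_coe.1 hy)

theorem dm_vcl (v : α → E) (W : Finset α) : dm v (vcl v W) = dm v W := by
  unfold dm
  rw [span_vcl]

theorem span_eq_of_vcl_subset (h : W' ⊆ vcl v W) (h' : W ⊆ W') :
    Submodule.span ℝ (v '' (W' : Set α)) = Submodule.span ℝ (v '' (W : Set α)) := by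
  refine le_antisymm (Submodule.span_le.2 ?_)
    (Submodule.span_mono (Set.image_mono (coe_subset.2 h')))
  rintro _ ⟨y, hy, rfl⟩
  exact mem_vcl.1 (h (mem_coe.1 hy))

theorem dm_insert_of_mem (h : x ∈ vcl v W) : dm v (insert x W) = dm v W := by
  unfold dm
  rw [span_eq_of_vcl_subset (insert_subset h (subset_vcl v W)) (subset_insert _ _)]

theorem dm_insert_of_notMem (h : x ∉ vcl v W) : dm v (insert x W) = dm v W + 1 := by
  have := finrank_fin v W
  rw [mem_vcl] at h
  unfold dm
  rw [coe_insert, Set.image_insert_eq, Submodule.span_insert, sup_comm]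
  have hx : v x ≠ 0 := fun h0 => h (h0 ▸ Submodule.zero_mem _)
  have h1 := Submodule.finrank_sup_add_finrank_inf_eq (Submodule.span ℝ (v '' (W : Set α)))
    (Submodule.span ℝ {v x})
  have h2 : Submodule.span ℝ (v '' (W : Set α)) ⊓ Submodule.span ℝ {v x} = ⊥ := by
    rw [eq_bot_iff]
    rintro z ⟨hz1, hz2⟩
    obtain ⟨a, rfl⟩ := Submodule.mem_span_singleton.1 hz2
    rw [Submodule.mem_bot]
    by_contra hne
    have ha : a ≠ 0 := fun h0 => hne (by rw [h0, zero_smul])
    apply h
    have := Submodule.smul_mem _ a⁻¹ hz1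
    rwa [smul_smul, inv_mul_cancel₀ ha, one_smul] at this
  rw [h2, finrank_bot, add_zero, finrank_span_singleton hx] at h1
  exact h1

theorem dm_insert_le (v : α → E) (W : Finset α) (x : α) : dm v (insert x W) ≤ dm v W + 1 := by
  by_cases h : x ∈ vcl v W
  · rw [dm_insert_of_mem h]
    omega
  · rw [dm_insert_of_notMem h]

theorem dm_union_le (v : α → E) (W P : Finset α) : dm v (W ∪ P) ≤ dm v W + P.card := by
  induction P using Finset.induction_on with
  | empty => simp
  | insert x P hx ih =>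
    rw [union_insert, card_insert_of_notMem hx]
    exact (dm_insert_le v _ x).trans (by omega)

theorem dm_le_card (v : α → E) (P : Finset α) : dm v P ≤ P.card := by
  have h := dm_union_le v ∅ P
  have h0 : dm v ∅ = 0 := by
    unfold dm
    rw [coe_empty, Set.image_empty, Submodule.span_empty, finrank_bot]
  rw [empty_union, h0, zero_add] at h
  exact h

theorem vcl_eq_of_dm (h : W ⊆ W') (h' : dm v W' ≤ dm v W) : vcl v W' = vcl v W := by
  have := finrank_fin v W'
  have h1 : Submodule.span ℝ (v '' (W : Set α)) ≤ Submodule.span ℝ (v '' (W' : Set α)) :=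
    Submodule.span_mono (Set.image_mono (coe_subset.2 h))
  have h2 := Submodule.eq_of_le_of_finrank_le h1 h'
  ext g
  rw [mem_vcl, mem_vcl, h2]

theorem eq_of_dm {G G' : Finset α} (hG : vcl v G = G) (hG' : vcl v G' = G') (h : G ⊆ G')
    (h' : dm v G' ≤ dm v G) : G' = G := by
  rw [← hG', ← hG]
  exact vcl_eq_of_dm h h'

theorem exists_over (v : α → E) {W G : Finset α} (h : W ⊆ G) :
    ∃ P ⊆ G, P.card + dm v W = dm v G ∧ vcl v (W ∪ P) = vcl v G := by
  obtain ⟨n, hn⟩ : ∃ n, dm v G = dm v W + n := ⟨dm v G - dm v W, by have := dm_mono (v := v) h; omega⟩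
  induction n generalizing W with
  | zero =>
    refine ⟨∅, empty_subset _, by rw [card_empty]; omega, ?_⟩
    rw [union_empty]
    exact (vcl_eq_of_dm h (by omega)).symm
  | succ n ih =>
    have hne : ¬ G ⊆ vcl v W := by
      intro hc
      have h1 := dm_mono (v := v) hc
      rw [dm_vcl] at h1
      omega
    rw [not_subset] at hne
    obtain ⟨x, hxG, hx⟩ := hne
    have h2 := dm_insert_of_notMem hx
    obtain ⟨P, hP, hc, hcl⟩ := ih (W := insert x W) (insert_subset hxG h) (by omega)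
    refine ⟨insert x P, insert_subset hxG hP, ?_, ?_⟩
    · by_cases hxP : x ∈ P
      · exfalso
        have h3 := dm_union_le v W P
        have h4 : insert x W ∪ P = W ∪ P := by
          rw [insert_union]
          exact insert_eq_of_mem (mem_union_right _ hxP)
        rw [h4] at hcl
        have h5 := dm_vcl v (W ∪ P)
        rw [hcl, dm_vcl] at h5
        omega
      · rw [card_insert_of_notMem hxP]
        omega
    · rw [← hcl]
      congr 1
      rw [insert_union, union_insert]

theorem vcl_inter (v : α → E) {G G' : Finset α} (hG : vcl v G = G) (hG' : vcl v G' = G') :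
    vcl v (G ∩ G') = G ∩ G' := by
  refine Subset.antisymm (subset_inter ?_ ?_) (subset_vcl v _)
  · exact (vcl_mono inter_subset_left).trans hG.subset
  · exact (vcl_mono inter_subset_right).trans hG'.subset

theorem nc_mono (h : W ⊆ W') : nc v W ⊆ nc v W' := by
  intro x hx
  unfold nc at hx ⊢
  rw [mem_filter] at hx ⊢
  exact ⟨h hx.1, vcl_mono (erase_subset_erase x h) hx.2⟩

theorem sm_mono {β : ℕ} (h : W ⊆ W') : sm v β W ⊆ sm v β W' := by
  classical
  intro x hx
  unfold sm at hx ⊢
  rw [mem_filter] at hx ⊢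
  obtain ⟨h1, T, hT, hc, hx⟩ := hx
  exact ⟨h1, T, hT.trans (erase_subset_erase x h), hc, hx⟩

theorem mem_sm {β : ℕ} : g ∈ sm v β W ↔ ∃ T ⊆ W.erase g, T.card < β ∧ g ∈ vcl v T := by
  classical
  unfold sm
  rw [mem_filter]
  exact ⟨fun h => h.2, fun h => ⟨mem_univ _, h⟩⟩

theorem sm_subset_vcl {β : ℕ} : sm v β W ⊆ vcl v W := by
  intro g hg
  obtain ⟨T, hT, _, h⟩ := mem_sm.1 hg
  exact vcl_mono (hT.trans (erase_subset _ _)) h

theorem Bs_mono {β : ℕ} (h : W ⊆ W') : Bs v β W ⊆ Bs v β W' := by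
  classical
  intro x hx
  unfold Bs at hx ⊢
  rw [mem_filter] at hx ⊢
  obtain ⟨h1, g, hg, T, hT, hr⟩ := hx
  exact ⟨h h1, g, hg, T, hT.trans h, hr⟩

theorem OK_anti {β σ : ℕ} (h : W ⊆ W') (h' : OK v β σ W') : OK v β σ W :=
  ⟨(card_le_card (nc_mono h)).trans h'.1, (card_le_card (sm_mono h)).trans h'.2⟩

theorem mem_nt {β : ℕ} : g ∈ nt v β W ↔ g ∈ vcl v W ∧ g ∉ W ∧ g ∉ sm v β W := by
  unfold nt
  rw [mem_sdiff, mem_union, not_or]

theorem mem_nc : g ∈ nc v W ↔ g ∈ W ∧ g ∈ vcl v (W.erase g) := by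
  unfold nc
  rw [mem_filter]

theorem Dle_mono {θ : ℝ} {r : ℕ} (h : W ⊆ W') (h' : Dle v θ r W) : Dle v θ r W' := by
  obtain ⟨P, hP, hc⟩ := h'
  refine ⟨P, hP, hc.trans ?_⟩
  exact_mod_cast card_le_card (vcl_mono (union_subset_union_left h))

end Lin

end Pool.Agent.Lib.P0fc
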