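import Mathlib
import Pool.Agent.Lib.P0fc.Facts

/-!
# Definitions for part (II)
-/

namespace Pool.Agent.Lib.P0fc

open Finset Pool.Agent.Lib.P0fb

/-- parameters -/
structure Pm where
  β : ℕ
  σ : ℕ
  κ : ℝ
  δ : ℝ
  ξ : ℝ

section

variable {α : Type} [Fintype α] [DecidableEq α] {E : Type} [AddCommGroup E] [Module ℝ E] {N : ℕ}

/-- sum over the times `t < M`, average over `z` -/
noncomputable def mass (M : ℕ) (Ev : ℕ → (Fin N ≃ α) → α → Prop) : ℝ :=
  ∑ t ∈ range M, (∑ z : α, PP (fun e : Fin N ≃ α => Ev t e z)) / (Fintype.card α : ℝ)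

/-- intermediate genuine mass -/
def on (v : α → E) (p : Pm) (A : Finset α) : Prop :=
  OK v p.β p.σ A ∧ p.κ * (Fintype.card α : ℝ) ≤ ((nt v p.β A).card : ℝ) ∧
    ((nt v p.β A).card : ℝ) ≤ p.δ * (Fintype.card α : ℝ)

noncomputable def fz (v : α → E) (p : Pm) (z : α) (U : Finset α) : ℝ :=
  ind (on v p U ∧ z ∈ nt v p.β U)

noncomputable def fr (v : α → E) (p : Pm) (G : Finset α) (z : α) (U : Finset α) : ℝ :=
  ind (on v p U ∧ z ∈ nt v p.β U ∧ ¬ G ⊆ vcl v U)

/-- the averaging operator -/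
noncomputable def Av (f : Finset α → ℝ) (A : Finset α) : ℝ :=
  (∑ x ∈ Aᶜ, f (insert x A)) / ((Fintype.card α : ℝ) - (A.card : ℝ))

/-- probability that `l` random elements complete `A` to a set that is on, with `z` genuine -/
noncomputable def ql (v : α → E) (p : Pm) (l : ℕ) (A : Finset α) (z : α) : ℝ :=
  (Av^[l] (fz v p z)) A

/-- the same, and the closure of the completion does not contain `G` -/
noncomputable def rl (v : α → E) (p : Pm) (l : ℕ) (G A : Finset α) (z : α) : ℝ :=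
  (Av^[l] (fr v p G z)) A

/-- the ladder -/
noncomputable def zt (ξ : ℝ) (l i : ℕ) : ℝ := ξ ^ ((l + 1) * (l + 2) / 2 + 1 - i)

/-- `G` is a robust flat of level `l` over `A` -/
def IsG (v : α → E) (p : Pm) (l : ℕ) (A : Finset α) (z : α) (G : Finset α) : Prop :=
  vcl v G = G ∧ insert z A ⊆ G ∧ rl v p l G A z ≤ zt p.ξ l l * ql v p l A z ∧
    ∀ G' : Finset α, rl v p l G' A z ≤ zt p.ξ l 0 * ql v p l A z → G' ⊆ G

open Classical in
/-- the robust flat `G_l(A, z)` -/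
noncomputable def Gf (v : α → E) (p : Pm) (l : ℕ) (A : Finset α) (z : α) : Finset α :=
  if h : ∃ G, IsG v p l A z G then h.choose else vcl v (insert z A)

/-- `e_l`: the rank of `G_l(A, z)` over `A` -/
noncomputable def er (v : α → E) (p : Pm) (l : ℕ) (A : Finset α) (z : α) : ℕ :=
  dm v (Gf v p l A z) - dm v A

/-- the event `𝕄` -/
def MMe (v : α → E) (p : Pm) (t : ℕ) (e : Fin N ≃ α) (z : α) : Prop :=
  on v p (Y e t) ∧ z ∈ nt v p.β (Y e t)

/-- the event `𝔹`: moreover the exit is at time `t + k` -/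
def BBe (v : α → E) (p : Pm) (k t : ℕ) (e : Fin N ≃ α) (z : α) : Prop :=
  Ex v p.β p.σ e (t + k) ∧ MMe v p t e z

/-- inclusion of level `l` in level `l - 1` (`1 ≤ l ≤ t`) -/
def Ie (v : α → E) (p : Pm) (l t : ℕ) (e : Fin N ≃ α) (z : α) : Prop :=
  Gf v p l (Y e (t - l)) z ⊆ Gf v p (l - 1) (Y e (t - l + 1)) z

/-- hit at level `l`: the element at position `t - l` lies in `G_l(Y (t-l), z)` -/
def He (v : α → E) (p : Pm) (l t : ℕ) (e : Fin N ≃ α) (z : α) : Prop :=
  ∃ x, At e (t - l) x ∧ x ∈ Gf v p l (Y e (t - l)) z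

/-- light hit -/
def LH (v : α → E) (p : Pm) (qq : ℕ → ℝ) (l t : ℕ) (e : Fin N ≃ α) (z : α) : Prop :=
  He v p l t e z ∧ ((Gf v p l (Y e (t - l)) z).card : ℝ) ≤ qq l * (Fintype.card α : ℝ)

/-- `h` is regular in `W` at level `l` -/
def RG (v : α → E) (p : Pm) (l : ℕ) (W : Finset α) (z : α) (h : α) : Prop :=
  h ∉ Gf v p (l + 1) (W.erase h) z ∧
    Gf v p l W z = vcl v (insert h (Gf v p (l + 1) (W.erase h) z))

/-- small support: some nonzero combination of the `v (g i)` lies in the span of few elements of `A` -/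
def ssup (v : α → E) (β k : ℕ) (A : Finset α) (g : Fin (k + 1) → α) : Prop :=
  ∃ c : Fin (k + 1) → ℝ, c ≠ 0 ∧ ∃ T ⊆ A, T.card + k < β ∧
    ∑ i, c i • v (g i) ∈ Submodule.span ℝ (v '' (T : Set α))

/-- the `g i` are dependent over `A` -/
def dep (v : α → E) (k : ℕ) (A : Finset α) (g : Fin (k + 1) → α) : Prop :=
  ∃ c : Fin (k + 1) → ℝ, c ≠ 0 ∧
    ∑ i, c i • v (g i) ∈ Submodule.span ℝ (v '' (A : Set α))

end

end Pool.Agent.Lib.P0fc
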