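import Mathlib
import Pool.Agent.Lib.P0fc.DefL

/-!
# The iterated averaging operator is the average over the supersets

Let `S f l A = ∑_{U ⊇ A, |U| = |A| + l} f U`.  For `l = 0` only `U = A`.  Induction on `l` for all `A`:
`(Av^[l+1] f) A = Av (Av^[l] f) A = (∑_{x ∉ A} (Av^[l] f) (insert x A))/(N - |A|)`
(`Function.iterate_succ_apply'`), and
`∑_{x ∉ A} S f l (insert x A) = (l+1) S f (l+1) A` (every `U ⊇ A` with `|A| + l + 1` elements is counted for
the `l + 1` elements `x ∈ U \ A`); `(N - |A|) * C(N - |A| - 1, l) = (l+1) C(N - |A|, l+1)`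
(`Nat.succ_mul_choose_eq`).
-/

namespace Pool.Agent.Lib.P0fc

open Finset Pool.Agent.Lib.P0fb

open Classical in
theorem Av_iter {α : Type} [Fintype α] [DecidableEq α] (f : Finset α → ℝ) (l : ℕ) (A : Finset α)
    (h : A.card + l ≤ Fintype.card α) :
    (Av^[l] f) A * (((Fintype.card α - A.card).choose l : ℕ) : ℝ) =
      ∑ U ∈ univ.filter (fun U : Finset α => A ⊆ U ∧ U.card = A.card + l), f U := by
  induction l generalizing A with
  | zero =>
    have h1 : univ.filter (fun U : Finset α => A ⊆ U ∧ U.card = A.card + 0) = {A} := by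
      ext U
      simp only [mem_filter, mem_univ, true_and, mem_singleton, Nat.add_zero]
      constructor
      · rintro ⟨hAU, hc⟩
        exact (Finset.eq_of_subset_of_card_le hAU hc.le).symm
      · rintro rfl
        exact ⟨Finset.Subset.refl _, rfl⟩
    rw [h1]
    simp
  | succ l ih =>
    have hN : A.card + 1 + l ≤ Fintype.card α := by omega
    obtain ⟨m, hm⟩ : ∃ m, Fintype.card α = A.card + (m + 1) := ⟨Fintype.card α - A.card - 1, by omega⟩
    have hm1 : Fintype.card α - A.card = m + 1 := by omega
    have hcast : (Fintype.card α : ℝ) - (A.card : ℝ) = (m : ℝ) + 1 := by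
      rw [hm]
      push_cast
      ring
    have hS : ∑ x ∈ Aᶜ, (Av^[l] f) (insert x A) * ((m.choose l : ℕ) : ℝ) =
        ((l : ℝ) + 1) * ∑ U ∈ univ.filter (fun U : Finset α => A ⊆ U ∧ U.card = A.card + (l + 1)),
          f U := by
      have h1 : ∀ x ∈ Aᶜ, (Av^[l] f) (insert x A) * ((m.choose l : ℕ) : ℝ) =
          ∑ U ∈ univ.filter (fun U : Finset α => insert x A ⊆ U ∧ U.card = A.card + (l + 1)),
            f U := by
        intro x hx
        have hxA : x ∉ A := by simpa using hx
        have hc : (insert x A).card = A.card + 1 := card_insert_of_notMem hxA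
        have h2 := ih (insert x A) (by omega)
        have h3 : Fintype.card α - (insert x A).card = m := by omega
        rw [h3] at h2
        rw [h2]
        refine sum_congr ?_ fun _ _ => rfl
        ext U
        simp only [mem_filter, mem_univ, true_and, hc]
        constructor
        · rintro ⟨ha, hb⟩
          exact ⟨ha, by omega⟩
        · rintro ⟨ha, hb⟩
          exact ⟨ha, by omega⟩
      rw [sum_congr rfl h1]
      rw [sum_comm' (s' := fun U => U \ A)
        (t' := univ.filter (fun U : Finset α => A ⊆ U ∧ U.card = A.card + (l + 1)))]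
      · rw [mul_sum]
        refine sum_congr rfl fun U hU => ?_
        simp only [mem_filter, mem_univ, true_and] at hU
        rw [sum_const, card_sdiff_of_subset hU.1, hU.2, nsmul_eq_mul]
        have : A.card + (l + 1) - A.card = l + 1 := by omega
        rw [this]
        push_cast
        ring
      · intro x U
        simp only [mem_compl, mem_filter, mem_univ, true_and, mem_sdiff, insert_subset_iff]
        tauto
    have hch : ((m : ℝ) + 1) * ((m.choose l : ℕ) : ℝ) =
        (((m + 1).choose (l + 1) : ℕ) : ℝ) * ((l : ℝ) + 1) := by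
      have := Nat.add_one_mul_choose_eq m l
      exact_mod_cast this
    rw [Function.iterate_succ_apply', hm1]
    show (∑ x ∈ Aᶜ, (Av^[l] f) (insert x A)) / ((Fintype.card α : ℝ) - (A.card : ℝ)) *
      (((m + 1).choose (l + 1) : ℕ) : ℝ) = _
    rw [hcast]
    rw [← sum_mul] at hS
    have hl : ((l : ℝ) + 1) ≠ 0 := by positivity
    have hmp : ((m : ℝ) + 1) ≠ 0 := by positivity
    apply mul_left_cancel₀ hl
    rw [← hS]
    field_simp
    linear_combination (-(∑ x ∈ Aᶜ, (Av^[l] f) (insert x A))) * hch

end Pool.Agent.Lib.P0fc
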