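import Mathlib
import Pool.Agent.Lib.P0fc.Facts

/-!
# Matroid facts

* `m2`: let `w ∈ span v(A)` but `w ∉ span v(T)` for all `T ⊆ A` with `|T| < b`.  Take `T ⊆ A` of minimal
  cardinality with `w ∈ span v(T)`, so `b ≤ |T|`; in `w = ∑_{x ∈ T} a_x v_x` all `a_x ≠ 0` (equivalently:
  `w ∉ span v(T \ h)` for `h ∈ T`).  If `h ∈ T` and `w ∈ span v(A \ h)`, then solving for `v_h` gives
  `v_h ∈ span v(A \ h)`, i.e. `h ∈ nc A`.
* `m2g`: `m2` for `w = v g`.
* `m3`: take `T ⊆ A` minimal with `g ∈ vcl T`; `β ≤ |T|`; `insert g T ⊆ nc (insert g A)` (exchange `exch`).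
* `m4`: `x ∈ vcl A` (otherwise `nc (insert x A) ⊆ nc A`: if `h ∈ A`, `h ∈ vcl (insert x (A \ h))`,
  `h ∉ vcl (A \ h)` then `x ∈ vcl (insert h (A \ h)) = vcl A` by `exch`, and `x ∉ vcl A`).  If `x ∈ sm A`
  with `x ∈ vcl T`, `T ⊆ A`, `|T| < β`, then `nc (insert x A) ⊆ nc A ∪ insert x T`: for `h ∈ A \ T`,
  `x ∈ vcl T ⊆ vcl (A \ h)` and so `vcl (insert x (A \ h)) = vcl (A \ h)`; hence
  `|nc (insert x A)| ≤ σ + 1 + |T| ≤ σ + β`.
* `m5`: otherwise `g ∈ nt A`, and `β + 1 ≤ |nc (insert g A)| ≤ |nc A'| ≤ σ` by `m3`.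
* the exit: `Ex e t` implies `β + σ + 1 ≤ |nc (Y (t+1))|`, so no `s > t` is `OK`.  `Y e (t+1)` is
  `insert x (Y e t)` for `x = e t` when `t < N`; for `N ≤ t` we have `Y e (t+1) = Y e t` and `Ex e t` is
  impossible.  `|nc (Y (t+1))| ≤ |Y (t+1)| ≤ t + 1`.
-/

namespace Pool.Agent.Lib.P0fc

open Finset Pool.Agent.Lib.P0fb

section

variable {α : Type} [Fintype α] [DecidableEq α] {E : Type} [AddCommGroup E] [Module ℝ E]
variable {v : α → E}

namespace MatAux

open Classical in
theorem exists_min {A : Finset α} {w : E} (hw : w ∈ Submodule.span ℝ (v '' (A : Set α))) :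
    ∃ T ⊆ A, w ∈ Submodule.span ℝ (v '' (T : Set α)) ∧
      ∀ h ∈ T, w ∉ Submodule.span ℝ (v '' ((T.erase h : Finset α) : Set α)) := by
  have hne : (A.powerset.filter
      (fun T : Finset α => w ∈ Submodule.span ℝ (v '' (T : Set α)))).Nonempty :=
    ⟨A, mem_filter.2 ⟨mem_powerset_self A, hw⟩⟩
  obtain ⟨T, hT, hmin⟩ := exists_min_image _ Finset.card hne
  rw [mem_filter, mem_powerset] at hT
  refine ⟨T, hT.1, hT.2, fun h hh hc => ?_⟩
  have h1 := hmin (T.erase h) (mem_filter.2 ⟨mem_powerset.2 ((erase_subset _ _).trans hT.1), hc⟩)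
  have h2 := card_erase_lt_of_mem hh
  omega

/-- exchange with a vector in place of an element -/
theorem solve {T A : Finset α} {w : E} {h : α} (hT : T ⊆ A) (hh : h ∈ T)
    (h1 : w ∈ Submodule.span ℝ (v '' (T : Set α)))
    (h2 : w ∉ Submodule.span ℝ (v '' ((T.erase h : Finset α) : Set α)))
    (h3 : w ∈ Submodule.span ℝ (v '' ((A.erase h : Finset α) : Set α))) :
    h ∈ vcl v (A.erase h) := by
  rw [← insert_erase hh, coe_insert, Set.image_insert_eq] at h1
  obtain ⟨a, z, hz, hg⟩ := Submodule.mem_span_insert.1 h1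
  have ha : a ≠ 0 := by
    rintro rfl
    rw [zero_smul, zero_add] at hg
    exact h2 (hg ▸ hz)
  have hz' : z ∈ Submodule.span ℝ (v '' ((A.erase h : Finset α) : Set α)) :=
    Submodule.span_mono (Set.image_mono (coe_subset.2 (erase_subset_erase h hT))) hz
  rw [mem_vcl]
  have e : v h = a⁻¹ • (w - z) := by
    rw [hg, add_sub_cancel_right, smul_smul, inv_mul_cancel₀ ha, one_smul]
  rw [e]
  exact Submodule.smul_mem _ _ (Submodule.sub_mem _ h3 hz')

theorem nc_erase {A : Finset α} {x h : α} (hx : x ∉ A) (hh : h ∈ A) :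
    (insert x A).erase h = insert x (A.erase h) := by
  rw [erase_insert_of_ne]
  rintro rfl
  exact hx hh

end MatAux

open MatAux

open Classical in
theorem m2 {A : Finset α} {w : E} {b : ℕ} (hw : w ∈ Submodule.span ℝ (v '' (A : Set α)))
    (hb : ∀ T ⊆ A, T.card < b → w ∉ Submodule.span ℝ (v '' (T : Set α))) :
    b ≤ (A.filter (fun h => w ∉ Submodule.span ℝ (v '' ((A.erase h : Finset α) : Set α)))).card
      + (nc v A).card := by
  obtain ⟨T, hTA, hTw, hmin⟩ := exists_min (v := v) hw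
  have hbT : b ≤ T.card := by
    by_contra hc
    exact hb T hTA (by omega) hTw
  refine hbT.trans ?_
  refine le_trans (card_le_card ?_) (card_union_le _ _)
  intro h hh
  rw [mem_union]
  by_cases hc : w ∈ Submodule.span ℝ (v '' ((A.erase h : Finset α) : Set α))
  · right
    rw [mem_nc]
    exact ⟨hTA hh, solve hTA hh hTw (hmin h hh) hc⟩
  · left
    rw [mem_filter]
    exact ⟨hTA hh, hc⟩

theorem m2g {A : Finset α} {g : α} {β : ℕ} (hg : g ∈ vcl v A)
    (hb : ∀ T ⊆ A, T.card < β → g ∉ vcl v T) :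
    β ≤ (A.filter (fun h => g ∉ vcl v (A.erase h))).card + (nc v A).card := by
  classical
  have h := m2 (v := v) (A := A) (w := v g) (b := β) (mem_vcl.1 hg)
    (fun T hT hc hmem => hb T hT hc (mem_vcl.2 hmem))
  refine h.trans (Nat.add_le_add_right (card_le_card ?_) _)
  intro x hx
  rw [mem_filter] at hx ⊢
  exact ⟨hx.1, fun hc => hx.2 (mem_vcl.1 hc)⟩

/-- the hypothesis of `m2g` for an element outside a small circuit -/
theorem not_sm {A A' : Finset α} {g : α} {β : ℕ} (h : A ⊆ A') (hg : g ∉ A') (hs : g ∉ sm v β A') :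
    ∀ T ⊆ A, T.card < β → g ∉ vcl v T := by
  intro T hT hc hmem
  apply hs
  rw [mem_sm]
  refine ⟨T, ?_, hc, hmem⟩
  rw [erase_eq_of_notMem hg]
  exact hT.trans h

theorem m3 {β : ℕ} {A : Finset α} {g : α} (hg : g ∈ nt v β A) :
    β + 1 ≤ (nc v (insert g A)).card := by
  rw [mem_nt] at hg
  obtain ⟨h1, h2, h3⟩ := hg
  obtain ⟨T, hTA, hTw, hmin⟩ := exists_min (v := v) (mem_vcl.1 h1)
  have hbT : β ≤ T.card := by
    by_contra hc
    exact not_sm (Subset.refl A) h2 h3 T hTA (by omega) (mem_vcl.2 hTw)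
  have hgT : g ∉ T := fun h => h2 (hTA h)
  have hsub : insert g T ⊆ nc v (insert g A) := by
    intro h hh
    rw [mem_nc]
    rw [mem_insert] at hh
    rcases hh with rfl | hh
    · refine ⟨mem_insert_self _ _, ?_⟩
      rw [erase_insert h2]
      exact h1
    · refine ⟨mem_insert_of_mem (hTA hh), ?_⟩
      rw [nc_erase h2 (hTA hh)]
      have e1 : g ∈ vcl v (insert h (T.erase h)) := by
        rw [insert_erase hh]
        exact mem_vcl.2 hTw
      have e2 : g ∉ vcl v (T.erase h) := fun hc => hmin h hh (mem_vcl.1 hc)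
      exact vcl_mono (insert_subset_insert _ (erase_subset_erase h hTA)) (exch e1 e2)
  have hc := card_le_card hsub
  rw [card_insert_of_notMem hgT] at hc
  omega

theorem m4 {β σ : ℕ} {A : Finset α} {x : α} (h1 : (nc v A).card ≤ σ)
    (hx : x ∉ A) (h2 : β + σ + 1 ≤ (nc v (insert x A)).card) : x ∈ nt v β A := by
  have hxA : x ∈ vcl v A := by
    by_contra hc
    have hsub : nc v (insert x A) ⊆ nc v A := by
      intro h hh
      rw [mem_nc, mem_insert] at hh
      obtain ⟨h3, h4⟩ := hh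
      rcases h3 with rfl | h3
      · rw [erase_insert hx] at h4
        exact absurd h4 hc
      · rw [mem_nc]
        refine ⟨h3, ?_⟩
        rw [nc_erase hx h3] at h4
        by_contra h5
        have h6 := exch h4 h5
        rw [insert_erase h3] at h6
        exact hc h6
    have := card_le_card hsub
    omega
  rw [mem_nt]
  refine ⟨hxA, hx, fun hs => ?_⟩
  obtain ⟨T, hT, hTc, hxT⟩ := mem_sm.1 hs
  have hsub : nc v (insert x A) ⊆ nc v A ∪ insert x T := by
    intro h hh
    rw [mem_nc, mem_insert] at hh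
    obtain ⟨h3, h4⟩ := hh
    rw [mem_union, mem_insert]
    rcases h3 with rfl | h3
    · exact Or.inr (Or.inl rfl)
    · by_cases hhT : h ∈ T
      · exact Or.inr (Or.inr hhT)
      · left
        rw [mem_nc]
        refine ⟨h3, ?_⟩
        rw [nc_erase hx h3] at h4
        have h5 : T ⊆ A.erase h := by
          intro y hy
          rw [mem_erase]
          refine ⟨?_, (mem_erase.1 (hT hy)).2⟩
          rintro rfl
          exact hhT hy
        rwa [vcl_insert_of_mem (vcl_mono h5 hxT)] at h4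
  have h6 := (card_le_card hsub).trans (card_union_le _ _)
  have h7 := card_insert_le x T
  omega

theorem m5 {β σ : ℕ} (hσ : σ ≤ β) {A A' : Finset α} (h : A ⊆ A') (hnc : (nc v A').card ≤ σ)
    {g : α} (hg : g ∈ vcl v A) (hg' : g ∈ A') (hgA : g ∉ A) : g ∈ sm v β A := by
  by_contra hc
  have h1 : g ∈ nt v β A := mem_nt.2 ⟨hg, hgA, hc⟩
  have h2 := m3 h1
  have h3 := card_le_card (nc_mono (v := v) (insert_subset hg' h))
  omega

theorem nt_disj {β σ : ℕ} (hσ : σ ≤ β) {A A' : Finset α} (h : A ⊆ A')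
    (hnc : (nc v A').card ≤ σ) {g : α} (hg : g ∈ nt v β A) : g ∉ A' := by
  intro hg'
  have h1 := mem_nt.1 hg
  exact h1.2.2 (m5 hσ h hnc h1.1 hg' h1.2.1)

theorem nt_empty {β : ℕ} {A : Finset α} (h : A.card < β) : nt v β A = ∅ := by
  rw [eq_empty_iff_forall_notMem]
  intro g hg
  have h1 := mem_nt.1 hg
  exact not_sm (Subset.refl A) h1.2.1 h1.2.2 A (Subset.refl A) h h1.1

variable {N β σ : ℕ} {e : Fin N ≃ α} {s t : ℕ}

theorem Ex.ok (h : Ex v β σ e t) (hs : s ≤ t) : OK v β σ (Y e s) := by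
  exact OK_anti (Y_mono e hs) h.1

theorem Ex.not_ok (h : Ex v β σ e t) (hs : t < s) : ¬ OK v β σ (Y e s) := by
  intro hc
  have h1 := card_le_card (nc_mono (v := v) (Y_mono e (Nat.succ_le_of_lt hs)))
  have h2 := h.2
  have h3 := hc.1
  rw [Nat.succ_eq_add_one] at h1
  omega

theorem Ex.unique (h : Ex v β σ e t) (h' : Ex v β σ e s) : t = s := by
  rcases lt_trichotomy t s with hl | hl | hl
  · exact absurd h'.1 (h.not_ok hl)
  · exact hl
  · exact absurd h.1 (h'.not_ok hl)

theorem Ex.ge (h : Ex v β σ e t) : β + σ ≤ t := by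
  have h1 : (nc v (Y e (t + 1))).card ≤ (Y e (t + 1)).card := card_le_card (filter_subset _ _)
  have h2 := card_Y_le e (t + 1)
  have h3 := h.2
  omega

theorem Ex.lt (h : Ex v β σ e t) : t < N := by
  by_contra hc
  have h1 : Y e (t + 1) = Y e t := by
    ext x
    rw [mem_Y, mem_Y]
    have := (e.symm x).isLt
    omega
  have h2 := h.2
  have h3 := h.1.1
  rw [h1] at h2
  omega

theorem Ex.mem_nt (h : Ex v β σ e t) {x : α} (hx : At e t x) : x ∈ nt v β (Y e t) := by
  have hx' : (e.symm x).val = t := hx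
  have hN := h.lt
  have h1 : Y e (t + 1) = insert x (Y e t) := by
    have h2 := Y_succ e (e.symm x)
    rw [hx', Equiv.apply_symm_apply] at h2
    exact h2
  have h3 : x ∉ Y e t := by
    rw [mem_Y]
    omega
  have h4 := h.2
  rw [h1] at h4
  exact m4 h.1.1 h3 h4

/-- the exit depends only on the set of the first `t` elements and on the later elements -/
theorem Ex.swap (h : Ex v β σ e t) {i j : Fin N} (hi : i.val < t) (hj : j.val < t) :
    Ex v β σ ((Equiv.swap i j).trans e) t := by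
  unfold Ex
  rw [Y_swap_fut e hi hj le_rfl, Y_swap_fut e hi hj (Nat.le_succ t)]
  exact h

end

end Pool.Agent.Lib.P0fc
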