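import Mathlib
import Pool.Agent.Lib.P0fc.Mat

/-!
# Counting of times: the genuine closure before the exit

`p1`: for every ordering the events `OK (Y t)`, `e t ∈ nt (Y t)` (`t ≤ M < N`) are disjoint for different
`t`: if `e t ∈ nt (Y t)` then `|nc (Y (t+1))| ≥ β + 1 > σ` (`m3`), so `OK (Y s)` fails for `s > t`.  Hence
`∑_t PP(OK (Y t) ∧ e t ∈ nt (Y t)) ≤ 1`, and by `forw` (all functions here depend only on the set
`Y t`: `PastM t`) `PP(OK (Y t) ∧ e t ∈ nt (Y t)) = EE(ind (OK (Y t)) |nt (Y t)| / (N - t))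
≥ EE(ind (OK (Y t)) |nt (Y t)|) / N` (`nt (Y t) ⊆ (Y t)ᶜ`, `0 < N - t ≤ N`).
`p4`: `δ N ind (OK ∧ δ N ≤ |nt|) ≤ ind OK |nt|` and `p1` (`N > M ≥ 0`).
-/

namespace Pool.Agent.Lib.P0fc

open Finset Pool.Agent.Lib.P0fb

section

variable {α : Type} [Fintype α] [DecidableEq α] {E : Type} [AddCommGroup E] [Module ℝ E]

theorem CntAux.sum_ind_le_one (s : Finset ℕ) (A : ℕ → Prop)
    (h : ∀ i ∈ s, ∀ j ∈ s, A i → A j → i = j) : ∑ i ∈ s, ind (A i) ≤ 1 := by
  classical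
  by_cases hex : ∃ i ∈ s, A i
  · obtain ⟨i, hi, hA⟩ := hex
    rw [Finset.sum_eq_single_of_mem i hi]
    · exact ind_le_one _
    · intro j hj hji
      exact ind_not_of (fun hAj => hji (h j hj i hi hAj hA))
  · push Not at hex
    rw [sum_eq_zero (fun i hi => ind_not_of (hex i hi))]
    norm_num

theorem CntAux.disj (v : α → E) {N β σ : ℕ} (hσ : σ ≤ β) (e : Fin N ≃ α) {s t : ℕ} (hst : s < t)
    (hs : s < N) (h2 : e ⟨s, hs⟩ ∈ nt v β (Y e s)) : ¬ OK v β σ (Y e t) := by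
  intro h
  have h3 := m3 h2
  have h4 : insert (e ⟨s, hs⟩) (Y e s) = Y e (s + 1) := (Y_succ e ⟨s, hs⟩).symm
  rw [h4] at h3
  have h5 := card_le_card (nc_mono (v := v) (Y_mono e (Nat.succ_le_of_lt hst)))
  have h6 := h.1
  have h7 : (nc v (Y e (s + 1))).card ≤ (nc v (Y e t)).card := h5
  omega

theorem CntAux.term (v : α → E) {N β σ t : ℕ} (ht : t < N) :
    EE (fun e : Fin N ≃ α => ind (OK v β σ (Y e t)) * ((nt v β (Y e t)).card : ℝ)) ≤
      N * PP (fun e : Fin N ≃ α => OK v β σ (Y e t) ∧ e ⟨t, ht⟩ ∈ nt v β (Y e t)) := by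
  have hNt : (0 : ℝ) < (N : ℝ) - (t : ℝ) := by
    have : (t : ℝ) < N := by exact_mod_cast ht
    linarith
  have hf := forw (N := N) (α := α) ⟨t, ht⟩
    (fun e x => ind (OK v β σ (Y e t)) * ind (x ∈ nt v β (Y e t))) (by
      intro x e i j hi hj
      have : Y ((Equiv.swap i j).trans e) t = Y e t := Y_swap_past e hi hj le_rfl
      simp only [this])
  have h1 : PP (fun e : Fin N ≃ α => OK v β σ (Y e t) ∧ e ⟨t, ht⟩ ∈ nt v β (Y e t)) =
      EE (fun e : Fin N ≃ α => (∑ x ∈ (Y e t)ᶜ, ind (OK v β σ (Y e t)) * ind (x ∈ nt v β (Y e t))) /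
        ((N : ℝ) - (t : ℝ))) := by
    rw [← hf]
    unfold PP
    exact EE_congr fun e => ind_and _ _
  rw [h1, ← EE_mul_left]
  refine EE_mono fun e => ?_
  have h2 : (∑ x ∈ (Y e t)ᶜ, ind (OK v β σ (Y e t)) * ind (x ∈ nt v β (Y e t))) =
      ind (OK v β σ (Y e t)) * ((nt v β (Y e t)).card : ℝ) := by
    rw [← mul_sum]
    congr 1
    have h3 : ∀ x ∈ (Y e t)ᶜ, ind (x ∈ nt v β (Y e t)) =
        if x ∈ nt v β (Y e t) then (1 : ℝ) else 0 := by
      intro x _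
      split_ifs with h
      · exact ind_of h
      · exact ind_not_of h
    rw [sum_congr rfl h3, Finset.sum_boole]
    congr 2
    ext x
    rw [mem_filter, mem_compl]
    exact ⟨fun h => h.2, fun h => ⟨(mem_nt.1 h).2.1, h⟩⟩
  rw [h2]
  have h4 : 0 ≤ ind (OK v β σ (Y e t)) * ((nt v β (Y e t)).card : ℝ) :=
    mul_nonneg (ind_nonneg _) (Nat.cast_nonneg _)
  rw [← mul_div_assoc, le_div_iff₀ hNt, mul_comm (N : ℝ)]
  refine mul_le_mul_of_nonneg_left ?_ h4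
  have : (0 : ℝ) ≤ t := Nat.cast_nonneg _
  linarith

theorem p1 (v : α → E) {N β σ M : ℕ} (hN : Fintype.card α = N) (hσ : σ ≤ β) (hM : M < N) :
    ∑ t ∈ range (M + 1), EE (fun e : Fin N ≃ α =>
      ind (OK v β σ (Y e t)) * ((nt v β (Y e t)).card : ℝ)) ≤ N := by
  have hN0 : (0 : ℝ) ≤ N := Nat.cast_nonneg _
  have h1 : ∀ t ∈ range (M + 1), EE (fun e : Fin N ≃ α =>
      ind (OK v β σ (Y e t)) * ((nt v β (Y e t)).card : ℝ)) ≤
      N * EE (fun e : Fin N ≃ α => ind (OK v β σ (Y e t) ∧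
        ∃ ht : t < N, e ⟨t, ht⟩ ∈ nt v β (Y e t))) := by
    intro t ht
    have htN : t < N := by
      have := mem_range.1 ht
      omega
    refine (CntAux.term v htN).trans (mul_le_mul_of_nonneg_left ?_ hN0)
    exact PP_mono fun e he => ⟨he.1, htN, he.2⟩
  refine (sum_le_sum h1).trans ?_
  rw [← mul_sum, ← EE_sum]
  have h2 : EE (fun e : Fin N ≃ α => ∑ t ∈ range (M + 1), ind (OK v β σ (Y e t) ∧
        ∃ ht : t < N, e ⟨t, ht⟩ ∈ nt v β (Y e t))) ≤ 1 := by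
    refine (EE_mono (g := fun _ => (1 : ℝ)) fun e => ?_).trans (EE_const hN 1).le
    refine CntAux.sum_ind_le_one _ _ ?_
    rintro i _ j _ ⟨h3, h4, h5⟩ ⟨h6, h7, h8⟩
    rcases lt_trichotomy i j with h | h | h
    · exact absurd h6 (CntAux.disj v hσ e h h4 h5)
    · exact h
    · exact absurd h3 (CntAux.disj v hσ e h h7 h8)
  calc (N : ℝ) * _ ≤ N * 1 := mul_le_mul_of_nonneg_left h2 hN0
    _ = N := mul_one _

theorem p4 (v : α → E) {N β σ M : ℕ} (hN : Fintype.card α = N) (hσ : σ ≤ β) (hM : M < N)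
    {δ : ℝ} (hδ : 0 < δ) :
    ∑ t ∈ range (M + 1), PP (fun e : Fin N ≃ α =>
      OK v β σ (Y e t) ∧ δ * N ≤ ((nt v β (Y e t)).card : ℝ)) ≤ 1 / δ := by
  have hN0 : (0 : ℝ) < N := by
    have : 0 < N := by omega
    exact_mod_cast this
  have h1 := p1 v hN hσ hM
  have h2 : (δ * N) * ∑ t ∈ range (M + 1), PP (fun e : Fin N ≃ α =>
      OK v β σ (Y e t) ∧ δ * N ≤ ((nt v β (Y e t)).card : ℝ)) ≤
      ∑ t ∈ range (M + 1), EE (fun e : Fin N ≃ α =>
        ind (OK v β σ (Y e t)) * ((nt v β (Y e t)).card : ℝ)) := by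
    rw [mul_sum]
    refine sum_le_sum fun t _ => ?_
    unfold PP
    rw [← EE_mul_left]
    refine EE_mono fun e => ?_
    by_cases h : OK v β σ (Y e t) ∧ δ * N ≤ ((nt v β (Y e t)).card : ℝ)
    · rw [ind_of h, ind_of h.1, mul_one, one_mul]
      exact h.2
    · rw [ind_not_of h, mul_zero]
      exact mul_nonneg (ind_nonneg _) (Nat.cast_nonneg _)
  rw [le_div_iff₀ hδ]
  have h3 := h2.trans h1
  have h4 : (N : ℝ) * ((∑ t ∈ range (M + 1), PP (fun e : Fin N ≃ α =>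
      OK v β σ (Y e t) ∧ δ * N ≤ ((nt v β (Y e t)).card : ℝ))) * δ) ≤ N * 1 := by
    calc _ = (δ * N) * ∑ t ∈ range (M + 1), PP (fun e : Fin N ≃ α =>
        OK v β σ (Y e t) ∧ δ * N ≤ ((nt v β (Y e t)).card : ℝ)) := by ring
      _ ≤ N := h3
      _ = N * 1 := (mul_one _).symm
  exact le_of_mul_le_mul_left h4 hN0

end

end Pool.Agent.Lib.P0fc
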