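import Mathlib
import Pool.Agent.Lib.P0fc.Cnt

/-!
# Counting of times: large flats of small rank over `Y t`

Let `ρ A` be the minimum of `r` and of the cardinalities of the `P` with `θ N ≤ |vcl (A ∪ P)|` (it
exists: `ρ A = r` if there is no such `P` with at most `r` elements).  `ρ` is decreasing in `A`.
(a) `OK (Y t)`, `θ N / 2 ≤ |vcl (Y t)|`: then `|nt (Y t)| ≥ θ N / 2 - t - σ ≥ θ N / 4`
(`vcl = nt ∪ (Y t ∪ sm)`, `|sm| ≤ σ`, `|Y t| ≤ t ≤ M`); by `p4` with `δ = θ/4` the sum of the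
probabilities over `t ≤ M` is at most `4/θ`.
(b) `Dle θ r (Y t)` and `|vcl (Y t)| < θ N / 2`: take `P` with `θ N ≤ |vcl (Y t ∪ P)|` and `|P|` minimal,
`1 ≤ |P| ≤ r`, `F = vcl (Y t ∪ P)`.  For `x ∈ F \ vcl (Y t)` there is `p ∈ P` with
`vcl (insert x (Y t) ∪ P.erase p) = F`: order `P = {p₁, …, p_j}` and take the first `i` with
`x ∈ vcl (Y t ∪ {p₁, …, p_i})`, exchange (or: `exists_over` for `insert x (Y t) ⊆ F` gives `P'` with
`|P'| = dm F - dm (Y t) - 1 ≤ |P| - 1` and `vcl (insert x (Y t) ∪ P') = F`).  So `ρ (Y (t+1)) ≤ ρ (Y t) - 1`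
when `e t ∈ F \ vcl (Y t)`, which has conditional probability at least
`(θ N - θ N / 2)/(N - t) ≥ θ/2` given the first `t` elements (`forw`).
So `(θ/2) PP(b at t) ≤ EE(ρ (Y t)) - EE(ρ (Y (t+1)))` (the right side is `≥` the expectation of the drop,
which is `≥ 0` always and `≥ 1` on the event); sum over `t ≤ M`: `≤ r`.  Total
`4/θ + 2 r/θ = (2 r + 4)/θ`.
-/

namespace Pool.Agent.Lib.P0fc

open Finset Pool.Agent.Lib.P0fb

section

variable {α : Type} [Fintype α] [DecidableEq α] {E : Type} [AddCommGroup E] [Module ℝ E]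

namespace DcTAux

/-- minimum of `r` and of the number of elements that span a large flat over `A` -/
noncomputable def rho (v : α → E) (θ : ℝ) (r : ℕ) (A : Finset α) : ℕ :=
  sInf {j | r ≤ j ∨ Dle v θ j A}

theorem rho_le (v : α → E) (θ : ℝ) (r : ℕ) (A : Finset α) : rho v θ r A ≤ r :=
  Nat.sInf_le (Or.inl le_rfl)

theorem rho_le_of {v : α → E} {θ : ℝ} {r j : ℕ} {A : Finset α} (h : Dle v θ j A) :
    rho v θ r A ≤ j := Nat.sInf_le (Or.inr h)

theorem Dle_mono {v : α → E} {θ : ℝ} {j : ℕ} {A A' : Finset α} (hA : A ⊆ A')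
    (h : Dle v θ j A) : Dle v θ j A' := by
  obtain ⟨P, h1, h2⟩ := h
  refine ⟨P, h1, h2.trans ?_⟩
  exact_mod_cast card_le_card (vcl_mono (union_subset_union_left hA))

theorem rho_mem (v : α → E) (θ : ℝ) (r : ℕ) (A : Finset α) :
    r ≤ rho v θ r A ∨ Dle v θ (rho v θ r A) A :=
  Nat.sInf_mem (s := {j | r ≤ j ∨ Dle v θ j A}) ⟨r, Or.inl le_rfl⟩

theorem rho_Dle {v : α → E} {θ : ℝ} {r : ℕ} {A : Finset α} (h : Dle v θ r A) :
    Dle v θ (rho v θ r A) A := by
  rcases rho_mem v θ r A with h1 | h1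
  · rwa [le_antisymm (rho_le v θ r A) h1]
  · exact h1

theorem rho_mono {v : α → E} {θ : ℝ} {r : ℕ} {A A' : Finset α} (hA : A ⊆ A') :
    rho v θ r A' ≤ rho v θ r A := by
  rcases rho_mem v θ r A with h1 | h1
  · exact (rho_le v θ r A').trans h1
  · exact rho_le_of (Dle_mono hA h1)

/-- many elements decrease `rho` -/
theorem drop {v : α → E} {θ : ℝ} {r : ℕ} {A : Finset α} (h : Dle v θ r A)
    (hA : ((vcl v A).card : ℝ) < θ * (Fintype.card α : ℝ) / 2) :
    ∃ F : Finset α, θ * (Fintype.card α : ℝ) ≤ (F.card : ℝ) ∧ ∀ x ∈ F \ vcl v A,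
      rho v θ r (insert x A) + 1 ≤ rho v θ r A := by
  obtain ⟨P, hP1, hP2⟩ := rho_Dle h
  refine ⟨vcl v (A ∪ P), hP2, ?_⟩
  intro x hx
  rw [mem_sdiff] at hx
  have hsub : insert x A ⊆ vcl v (A ∪ P) :=
    insert_subset hx.1 (subset_union_left.trans (subset_vcl v _))
  obtain ⟨P', _, h2, h3⟩ := exists_over v hsub
  rw [vcl_vcl] at h3
  rw [dm_vcl, dm_insert_of_notMem hx.2] at h2
  have h4 := dm_union_le v A P
  have h5 : P'.card + 1 ≤ rho v θ r A := by omega
  have h6 : Dle v θ (rho v θ r A - 1) (insert x A) := by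
    refine ⟨P', by omega, ?_⟩
    rw [h3]
    exact hP2
  have h7 := rho_le_of (r := r) h6
  omega

theorem step (v : α → E) {N : ℕ} (hN : Fintype.card α = N) {θ : ℝ} (hθ : 0 < θ) (r : ℕ)
    {t : ℕ} (ht : t < N) :
    θ / 2 * PP (fun e : Fin N ≃ α => Dle v θ r (Y e t) ∧
      ((vcl v (Y e t)).card : ℝ) < θ * N / 2) ≤
      EE (fun e : Fin N ≃ α => (rho v θ r (Y e t) : ℝ)) -
        EE (fun e : Fin N ≃ α => (rho v θ r (Y e (t + 1)) : ℝ)) := by
  have hNt : (0 : ℝ) < (N : ℝ) - (t : ℝ) := by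
    have : (t : ℝ) < N := by exact_mod_cast ht
    linarith
  have hf := forw (N := N) (α := α) ⟨t, ht⟩
    (fun e x => (rho v θ r (Y e t) : ℝ) - (rho v θ r (insert x (Y e t)) : ℝ)) (by
      intro x e i j hi hj
      have : Y ((Equiv.swap i j).trans e) t = Y e t := Y_swap_past e hi hj le_rfl
      simp only [this])
  have h1 : EE (fun e : Fin N ≃ α => (rho v θ r (Y e t) : ℝ)) -
        EE (fun e : Fin N ≃ α => (rho v θ r (Y e (t + 1)) : ℝ)) =
      EE (fun e : Fin N ≃ α => (∑ x ∈ (Y e t)ᶜ,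
        ((rho v θ r (Y e t) : ℝ) - (rho v θ r (insert x (Y e t)) : ℝ))) /
        ((N : ℝ) - (t : ℝ))) := by
    rw [← hf, ← EE_sub]
    refine EE_congr fun e => ?_
    have : Y e (t + 1) = insert (e ⟨t, ht⟩) (Y e t) := Y_succ e ⟨t, ht⟩
    rw [this]
  rw [h1]
  unfold PP
  rw [← EE_mul_left]
  refine EE_mono fun e => ?_
  have hnn : ∀ x ∈ (Y e t)ᶜ,
      0 ≤ (rho v θ r (Y e t) : ℝ) - (rho v θ r (insert x (Y e t)) : ℝ) := by
    intro x _
    have := rho_mono (v := v) (θ := θ) (r := r) (subset_insert x (Y e t))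
    have h2 : (rho v θ r (insert x (Y e t)) : ℝ) ≤ (rho v θ r (Y e t) : ℝ) := by exact_mod_cast this
    linarith
  by_cases hev : Dle v θ r (Y e t) ∧ ((vcl v (Y e t)).card : ℝ) < θ * N / 2
  · rw [ind_of hev, mul_one, le_div_iff₀ hNt]
    have hcard : ((vcl v (Y e t)).card : ℝ) < θ * (Fintype.card α : ℝ) / 2 := by
      rw [hN]
      exact hev.2
    obtain ⟨F, hF, hd⟩ := drop hev.1 hcard
    rw [hN] at hF
    have hsub : F \ vcl v (Y e t) ⊆ (Y e t)ᶜ := by
      intro x hx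
      rw [mem_sdiff] at hx
      rw [mem_compl]
      exact fun h => hx.2 (subset_vcl v _ h)
    have h3 : ((F \ vcl v (Y e t)).card : ℝ) ≤ ∑ x ∈ (Y e t)ᶜ,
        ((rho v θ r (Y e t) : ℝ) - (rho v θ r (insert x (Y e t)) : ℝ)) := by
      refine le_trans ?_ (sum_le_sum_of_subset_of_nonneg hsub fun x hx _ => hnn x hx)
      have h4 : ((F \ vcl v (Y e t)).card : ℝ) = ∑ _x ∈ F \ vcl v (Y e t), (1 : ℝ) := by
        rw [sum_const, nsmul_eq_mul, mul_one]
      rw [h4]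
      refine sum_le_sum fun x hx => ?_
      have h5 := hd x hx
      have h6 : (rho v θ r (insert x (Y e t)) : ℝ) + 1 ≤ (rho v θ r (Y e t) : ℝ) := by
        exact_mod_cast h5
      linarith
    have h7 : (F.card : ℝ) ≤ ((F \ vcl v (Y e t)).card : ℝ) + ((vcl v (Y e t)).card : ℝ) := by
      have h8 : F.card ≤ (F \ vcl v (Y e t)).card + (vcl v (Y e t)).card := by
        rw [← card_sdiff_add_card_inter F (vcl v (Y e t))]
        exact Nat.add_le_add_left (card_le_card inter_subset_right) _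
      exact_mod_cast h8
    have h9 : θ / 2 * ((N : ℝ) - (t : ℝ)) ≤ θ * N / 2 := by
      have : (0 : ℝ) ≤ θ / 2 * t := by positivity
      nlinarith
    have h10 := hev.2
    linarith
  · rw [ind_not_of hev, mul_zero]
    exact div_nonneg (sum_nonneg hnn) hNt.le

end DcTAux

theorem dc (v : α → E) {N β σ M : ℕ} (hN : Fintype.card α = N) (hσ : σ ≤ β) (hM : M < N)
    {θ : ℝ} (hθ : 0 < θ) (hMθ : (M : ℝ) + σ ≤ θ / 4 * N) (r : ℕ) :
    ∑ t ∈ range (M + 1), PP (fun e : Fin N ≃ α =>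
      OK v β σ (Y e t) ∧ Dle v θ r (Y e t)) ≤ (2 * r + 4) / θ := by
  have h1 := p4 v hN hσ hM (δ := θ / 4) (by positivity)
  have h2 : θ / 2 * ∑ t ∈ range (M + 1), PP (fun e : Fin N ≃ α => Dle v θ r (Y e t) ∧
      ((vcl v (Y e t)).card : ℝ) < θ * N / 2) ≤ r := by
    rw [mul_sum]
    have h3 : ∀ t ∈ range (M + 1), θ / 2 * PP (fun e : Fin N ≃ α => Dle v θ r (Y e t) ∧
        ((vcl v (Y e t)).card : ℝ) < θ * N / 2) ≤
        EE (fun e : Fin N ≃ α => (DcTAux.rho v θ r (Y e t) : ℝ)) -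
          EE (fun e : Fin N ≃ α => (DcTAux.rho v θ r (Y e (t + 1)) : ℝ)) := by
      intro t ht
      exact DcTAux.step v hN hθ r (by have := mem_range.1 ht; omega)
    refine (sum_le_sum h3).trans ?_
    rw [sum_range_sub' (fun t => EE (fun e : Fin N ≃ α => (DcTAux.rho v θ r (Y e t) : ℝ)))]
    have h4 : EE (fun e : Fin N ≃ α => (DcTAux.rho v θ r (Y e 0) : ℝ)) ≤ r := by
      refine (EE_mono (g := fun _ => (r : ℝ)) fun e => ?_).trans (EE_const hN _).le
      exact_mod_cast DcTAux.rho_le v θ r _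
    have h5 : 0 ≤ EE (fun e : Fin N ≃ α => (DcTAux.rho v θ r (Y e (M + 1)) : ℝ)) :=
      EE_nonneg fun e => Nat.cast_nonneg _
    linarith
  have h3 : ∀ t ∈ range (M + 1), PP (fun e : Fin N ≃ α =>
      OK v β σ (Y e t) ∧ Dle v θ r (Y e t)) ≤
      PP (fun e : Fin N ≃ α => OK v β σ (Y e t) ∧ θ / 4 * N ≤ ((nt v β (Y e t)).card : ℝ)) +
      PP (fun e : Fin N ≃ α => Dle v θ r (Y e t) ∧
        ((vcl v (Y e t)).card : ℝ) < θ * N / 2) := by
    intro t ht
    have htM : t ≤ M := by have := mem_range.1 ht; omega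
    refine (PP_mono fun e he => ?_).trans (PP_or_le _ _)
    by_cases hc : ((vcl v (Y e t)).card : ℝ) < θ * N / 2
    · exact Or.inr ⟨he.2, hc⟩
    · left
      refine ⟨he.1, ?_⟩
      push Not at hc
      have h4 : (vcl v (Y e t)).card ≤ (nt v β (Y e t)).card + (t + σ) := by
        have h5 : vcl v (Y e t) ⊆ nt v β (Y e t) ∪ (Y e t ∪ sm v β (Y e t)) := by
          intro x hx
          rw [mem_union]
          by_cases h : x ∈ Y e t ∪ sm v β (Y e t)
          · exact Or.inr h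
          · left
            unfold nt
            rw [mem_sdiff]
            exact ⟨hx, h⟩
        refine (card_le_card h5).trans ((card_union_le _ _).trans ?_)
        refine Nat.add_le_add_left ((card_union_le _ _).trans ?_) _
        exact Nat.add_le_add (card_Y_le e t) he.1.2
      have h6 : ((vcl v (Y e t)).card : ℝ) ≤ ((nt v β (Y e t)).card : ℝ) + ((t : ℝ) + σ) := by
        exact_mod_cast h4
      have h7 : (t : ℝ) ≤ M := by exact_mod_cast htM
      linarith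
  have h4 := sum_le_sum h3
  rw [sum_add_distrib] at h4
  refine h4.trans ?_
  rw [le_div_iff₀ hθ]
  have h5 : (1 : ℝ) / (θ / 4) = 4 / θ := by
    field_simp
  rw [h5, le_div_iff₀ hθ] at h1
  generalize (∑ t ∈ range (M + 1), PP (fun e : Fin N ≃ α =>
    OK v β σ (Y e t) ∧ θ / 4 * N ≤ ((nt v β (Y e t)).card : ℝ))) = a at h1 ⊢
  generalize (∑ t ∈ range (M + 1), PP (fun e : Fin N ≃ α => Dle v θ r (Y e t) ∧
      ((vcl v (Y e t)).card : ℝ) < θ * N / 2)) = b at h2 ⊢
  nlinarith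

end

end Pool.Agent.Lib.P0fc
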