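import Mathlib
import Pool.Agent.Lib.P0fc.DcT

/-!
# Averaging over the last `k + 1` times

For every ordering `e` there is at most one `t` with `D t e`; for it all the `k + 1` times
`s = t - i`, `i ≤ k`, satisfy `OK (Y s)` (`OK_anti`) and, if `Dle θ r (Y (t-k))`, also `Dle θ r (Y s)`
(`Dle_mono`).  So `(k+1) ∑_t ind (D t e ∧ Dle (Y (t-k))) ≤ ∑_{s ≤ M} ind (OK (Y s) ∧ Dle (Y s))`; take
expectations and use `dc`.
-/

namespace Pool.Agent.Lib.P0fc

open Finset Pool.Agent.Lib.P0fb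

section

variable {α : Type} [Fintype α] [DecidableEq α] {E : Type} [AddCommGroup E] [Module ℝ E]

theorem avg_le (v : α → E) {N β σ M : ℕ} (hN : Fintype.card α = N) (hσ : σ ≤ β) (hM : M < N)
    {θ : ℝ} (hθ : 0 < θ) (hMθ : (M : ℝ) + σ ≤ θ / 4 * N) (D : ℕ → (Fin N ≃ α) → Prop)
    (hD : ∀ t e, D t e → OK v β σ (Y e t)) (hD2 : ∀ t t' e, D t e → D t' e → t = t') (r k : ℕ) :
    ∑ t ∈ Icc k M, PP (fun e : Fin N ≃ α => D t e ∧ Dle v θ r (Y e (t - k))) ≤
      (2 * r + 4) / (θ * (k + 1)) := by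
  have hdc := dc v hN hσ hM hθ hMθ r
  have hk : (0 : ℝ) < k + 1 := by positivity
  have key : ∀ e : Fin N ≃ α, ∑ t ∈ Icc k M, ((k : ℝ) + 1) *
      ind (D t e ∧ Dle v θ r (Y e (t - k))) ≤
      ∑ s ∈ range (M + 1), ind (OK v β σ (Y e s) ∧ Dle v θ r (Y e s)) := by
    intro e
    by_cases h : ∃ t ∈ Icc k M, D t e ∧ Dle v θ r (Y e (t - k))
    · obtain ⟨t, ht, hDt, hdl⟩ := h
      rw [mem_Icc] at ht
      rw [sum_eq_single t]
      · rw [ind_of ⟨hDt, hdl⟩, mul_one]
        have hsub : Icc (t - k) t ⊆ range (M + 1) := by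
          intro s hs
          rw [mem_Icc] at hs
          rw [mem_range]
          omega
        refine le_trans ?_ (sum_le_sum_of_subset_of_nonneg hsub fun s _ _ => ind_nonneg _)
        have h1 : ∀ s ∈ Icc (t - k) t, ind (OK v β σ (Y e s) ∧ Dle v θ r (Y e s)) = 1 := by
          intro s hs
          rw [mem_Icc] at hs
          exact ind_of ⟨OK_anti (Y_mono e hs.2) (hD t e hDt), Dle_mono (Y_mono e hs.1) hdl⟩
        rw [sum_congr rfl h1, sum_const, Nat.card_Icc, nsmul_eq_mul, mul_one]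
        have h2 : t + 1 - (t - k) = k + 1 := by omega
        rw [h2]
        push_cast
        exact le_rfl
      · intro t' ht' hne
        rw [ind_not_of, mul_zero]
        exact fun h' => hne (hD2 t' t e h'.1 hDt)
      · intro h'
        exact absurd (mem_Icc.2 ht) h'
    · have h0 : ∀ t ∈ Icc k M, ((k : ℝ) + 1) * ind (D t e ∧ Dle v θ r (Y e (t - k))) = 0 := by
        intro t ht
        rw [ind_not_of, mul_zero]
        exact fun h' => h ⟨t, ht, h'⟩
      rw [sum_congr rfl h0, sum_const_zero]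
      exact sum_nonneg fun s _ => ind_nonneg _
  have h3 := EE_mono key
  rw [EE_sum, EE_sum] at h3
  have h4 : ∀ t ∈ Icc k M, EE (fun e : Fin N ≃ α => ((k : ℝ) + 1) *
      ind (D t e ∧ Dle v θ r (Y e (t - k)))) =
      ((k : ℝ) + 1) * PP (fun e : Fin N ≃ α => D t e ∧ Dle v θ r (Y e (t - k))) := by
    intro t _
    exact EE_mul_left _ _
  rw [sum_congr rfl h4, ← mul_sum] at h3
  have h5 : ((k : ℝ) + 1) * ∑ t ∈ Icc k M,
      PP (fun e : Fin N ≃ α => D t e ∧ Dle v θ r (Y e (t - k))) ≤ (2 * r + 4) / θ :=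
    h3.trans hdc
  rw [← div_div, le_div_iff₀ hk, mul_comm]
  exact h5

end

end Pool.Agent.Lib.P0fc
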