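import Mathlib

/-!
# Weighted points in the plane: definitions
-/

namespace Pool.Agent.Lib.P0fc

open Finset

section Plane

/-- the determinant of three points of the plane -/
def cr (a b c : ℝ × ℝ) : ℝ := (b.1 - a.1) * (c.2 - a.2) - (b.2 - a.2) * (c.1 - a.1)

variable {X : Type} [Fintype X]

open Classical in
/-- the line through `P a` and `P b` (everything if `P a = P b`) -/
noncomputable def Ln (P : X → ℝ × ℝ) (a b : X) : Finset X :=
  univ.filter (fun x => cr (P a) (P b) (P x) = 0)

open Classical in
/-- the points in the same position as `a` -/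
noncomputable def Ps (P : X → ℝ × ℝ) (a : X) : Finset X := univ.filter (fun x => P x = P a)

open Classical in
/-- the number of the pairs `(a,b)` that span a line with less than `D` points which strictly
separates `P p` and `P q` -/
noncomputable def sep (P : X → ℝ × ℝ) (D : ℕ) (p q : X) : ℕ :=
  ((univ : Finset (X × X)).filter (fun ab => P ab.1 ≠ P ab.2 ∧ (Ln P ab.1 ab.2).card < D ∧
    cr (P ab.1) (P ab.2) (P p) * cr (P ab.1) (P ab.2) (P q) < 0)).card

/-- `p, q` span a line with less than `D` points on which the positions of `p` and `q` carry at most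
a fraction `1/K` of the points -/
def RR (P : X → ℝ × ℝ) (K D : ℕ) (p q : X) : Prop :=
  P p ≠ P q ∧ (Ln P p q).card < D ∧ K * (Ps P p).card ≤ (Ln P p q).card ∧
    K * (Ps P q).card ≤ (Ln P p q).card

open Classical in
/-- the points `p` such that `RR` holds for at least a fraction `w` of the `x` -/
noncomputable def Xs (P : X → ℝ × ℝ) (K D : ℕ) (w : ℝ) : Finset X :=
  univ.filter (fun p => w * (Fintype.card X : ℝ) ≤ ((univ.filter (fun x => RR P K D x p)).card : ℝ))

open Classical in
/-- the lines with less than `D` points -/
noncomputable def LL (P : X → ℝ × ℝ) (D : ℕ) : Finset (Finset X) :=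
  (univ.filter (fun p : X × X => P p.1 ≠ P p.2 ∧ (Ln P p.1 p.2).card < D)).image
    (fun p => Ln P p.1 p.2)

open Classical in
/-- the points `p` of `l` whose position carries at most a fraction `1/K` of `l` -/
noncomputable def Th (P : X → ℝ × ℝ) (K : ℕ) (l : Finset X) : Finset X :=
  l.filter (fun p => K * (Ps P p).card ≤ l.card)

end Plane

end Pool.Agent.Lib.P0fc
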