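import Mathlib
import Pool.Agent.Lib.P0fc.PlDef

/-!
# Few cells on a line

For `τ ∈ ℝ` let `n τ = #{i | a i ≠ 0, - b i / a i < τ}`, a number in `{0, …, s}`, increasing in `τ`.  If
`n τ = n τ'` with `τ ≤ τ'` then the two sets of indices are equal (one contains the other), so for every `i`
with `a i ≠ 0` both `τ, τ'` are `≤` the root or both are `>` the root, and
`(a i τ + b i) (a i τ' + b i) ≥ 0`; for `a i = 0` the product is `(b i)² ≥ 0`.  So the points `p ∈ S` are in
`s + 1` classes (by `n (pos p)`), and two points of the same class are not separated.  The points in the classes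
with less than `|S| / (4 (s+1))` members are at most `(s + 1) |S| / (4 (s + 1)) = |S|/4`.
-/

namespace Pool.Agent.Lib.P0fc

open Finset

namespace CellsAux

open Classical in
noncomputable def nn {s : ℕ} (a b : Fin s → ℝ) (τ : ℝ) : Finset (Fin s) :=
  univ.filter (fun i => a i ≠ 0 ∧ - b i / a i < τ)

theorem nn_mono {s : ℕ} (a b : Fin s → ℝ) {τ τ' : ℝ} (h : τ ≤ τ') : nn a b τ ⊆ nn a b τ' := by
  classical
  intro i hi
  unfold nn at hi ⊢
  rw [mem_filter] at hi ⊢
  exact ⟨hi.1, hi.2.1, hi.2.2.trans_le h⟩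

theorem nn_eq {s : ℕ} (a b : Fin s → ℝ) {τ τ' : ℝ} (h : (nn a b τ).card = (nn a b τ').card) :
    nn a b τ = nn a b τ' := by
  rcases le_total τ τ' with h1 | h1
  · exact eq_of_subset_of_card_le (nn_mono a b h1) h.ge
  · exact (eq_of_subset_of_card_le (nn_mono a b h1) h.le).symm

theorem prod {s : ℕ} (a b : Fin s → ℝ) {τ τ' : ℝ} (h : (nn a b τ).card = (nn a b τ').card)
    (i : Fin s) : ¬ (a i * τ + b i) * (a i * τ' + b i) < 0 := by
  classical
  rw [not_lt]
  by_cases ha : a i = 0
  · rw [ha, zero_mul, zero_mul, zero_add]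
    exact mul_self_nonneg _
  have h1 := nn_eq a b h
  have h2 : - b i / a i < τ ↔ - b i / a i < τ' := by
    have h3 : i ∈ nn a b τ ↔ i ∈ nn a b τ' := by rw [h1]
    unfold nn at h3
    rw [mem_filter, mem_filter] at h3
    constructor
    · intro h4
      exact (h3.1 ⟨mem_univ _, ha, h4⟩).2.2
    · intro h4
      exact (h3.2 ⟨mem_univ _, ha, h4⟩).2.2
  have e : ∀ t : ℝ, a i * t + b i = a i * (t - (- b i / a i)) := by
    intro t
    field_simp
    ring
  rw [e, e]
  have e2 : a i * (τ - (- b i / a i)) * (a i * (τ' - (- b i / a i))) =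
      a i ^ 2 * ((τ - (- b i / a i)) * (τ' - (- b i / a i))) := by ring
  rw [e2]
  refine mul_nonneg (sq_nonneg _) ?_
  by_cases h4 : - b i / a i < τ
  · exact mul_nonneg (sub_nonneg.2 h4.le) (sub_nonneg.2 (h2.1 h4).le)
  · have h5 : ¬ - b i / a i < τ' := fun h6 => h4 (h2.2 h6)
    exact mul_nonneg_of_nonpos_of_nonpos (sub_nonpos.2 (not_lt.1 h4)) (sub_nonpos.2 (not_lt.1 h5))

theorem nn_card {s : ℕ} (a b : Fin s → ℝ) (τ : ℝ) : (nn a b τ).card < s + 1 := by
  classical
  have := card_le_univ (nn a b τ)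
  rw [Fintype.card_fin] at this
  omega

end CellsAux

open Classical in
theorem cells {ι : Type} (S : Finset ι) (pos : ι → ℝ) {s : ℕ} (a b : Fin s → ℝ) :
    4 * (S.filter (fun p => 4 * (s + 1) * (S.filter (fun q =>
      ∀ i, ¬ (a i * pos p + b i) * (a i * pos q + b i) < 0)).card < S.card)).card ≤ S.card := by
  set B := S.filter (fun p => 4 * (s + 1) * (S.filter (fun q =>
      ∀ i, ¬ (a i * pos p + b i) * (a i * pos q + b i) < 0)).card < S.card) with hB
  have hfib := card_eq_sum_card_fiberwise (s := B) (t := range (s + 1))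
    (f := fun p => (CellsAux.nn a b (pos p)).card)
    (fun p _ => mem_coe.2 (mem_range.2 (CellsAux.nn_card a b (pos p))))
  have hj : ∀ j ∈ range (s + 1), 4 * (s + 1) *
      (B.filter (fun p => (CellsAux.nn a b (pos p)).card = j)).card ≤ S.card := by
    intro j _
    rcases (B.filter (fun p => (CellsAux.nn a b (pos p)).card = j)).eq_empty_or_nonempty with
      h | ⟨p, hp⟩
    · rw [h, card_empty]
      omega
    · rw [mem_filter] at hp
      have h1 := (mem_filter.1 hp.1).2
      refine le_trans (Nat.mul_le_mul_left _ (card_le_card ?_)) h1.le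
      intro q hq
      rw [mem_filter] at hq ⊢
      exact ⟨(mem_filter.1 hq.1).1, fun i => CellsAux.prod a b (hp.2.trans hq.2.symm) i⟩
  have hsum := sum_le_sum hj
  rw [← mul_sum, ← hfib, sum_const, card_range, smul_eq_mul] at hsum
  have h3 : (s + 1) * (4 * B.card) ≤ (s + 1) * S.card := by
    calc (s + 1) * (4 * B.card) = 4 * (s + 1) * B.card := by ring
      _ ≤ _ := hsum
  exact Nat.le_of_mul_le_mul_left h3 (Nat.succ_pos s)

end Pool.Agent.Lib.P0fc
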