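import Mathlib
import Pool.Agent.Lib.P0fc.Cells

/-!
# On a line half of the points have many close points

Let `S ⊆ Ln P a b`, `P a ≠ P b`, `N = |X|`.  The points of the line are `P a + τ (P b - P a)`; let `pos x` be the
parameter of `P x`.  For fixed `c, d` the function `x ↦ cr (P c) (P d) (P x)` is affine in `pos x` on `S`.
For a sample `ω : Fin s → X × X` apply `cells` with the affine functions of the pairs `ω i` with `P c ≠ P d` and
`|Ln P c d| < D` (and `a i = b i = 0` for the other `i`): at least `3/4` of the points `p ∈ S` have at least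
`|S|/(4(s+1))` points `q ∈ S` not separated from `p` by any `ω i`.  Let `f p` be the fraction of the samples for
which this holds for `p`: `∑_{p ∈ S} f p ≥ (3/4) |S|`, so `f p ≥ 1/2` for at least half of the `p ∈ S`
(`∑ f ≤ n + (|S| - n)/2`).  For such `p` the average number of the points `q ∈ S` not separated from `p` is at
least `|S|/(8(s+1))`; it is equal to `∑_{q ∈ S} (1 - sep p q/N²)^s`, which is at most
`#{q ∈ S | sep p q ≤ η N²} + |S| (1 - η)^s` (`0 ≤ η ≤ 1`).  So
`#{q ∈ S | sep p q ≤ η N²} ≥ |S|/(8(s+1)) - |S|/(16(s+1)) = |S|/(16(s+1))`.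
-/

namespace Pool.Agent.Lib.P0fc

open Finset

namespace LineCloseAux

variable {X : Type} [Fintype X]

open Classical in
/-- the pairs that separate `p` and `q` -/
noncomputable def SP (P : X → ℝ × ℝ) (D : ℕ) (p q : X) : Finset (X × X) :=
  (univ : Finset (X × X)).filter (fun ab => P ab.1 ≠ P ab.2 ∧ (Ln P ab.1 ab.2).card < D ∧
    cr (P ab.1) (P ab.2) (P p) * cr (P ab.1) (P ab.2) (P q) < 0)

theorem sep_eq (P : X → ℝ × ℝ) (D : ℕ) (p q : X) : sep P D p q = (SP P D p q).card := rfl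

theorem mem_SP (P : X → ℝ × ℝ) (D : ℕ) (p q : X) (ab : X × X) :
    ab ∈ SP P D p q ↔ P ab.1 ≠ P ab.2 ∧ (Ln P ab.1 ab.2).card < D ∧
    cr (P ab.1) (P ab.2) (P p) * cr (P ab.1) (P ab.2) (P q) < 0 := by
  unfold SP
  rw [mem_filter]
  exact ⟨fun h => h.2, fun h => ⟨mem_univ _, h⟩⟩

open Classical in
/-- the points of `S` not separated from `p` by any pair of the sample -/
noncomputable def cl (P : X → ℝ × ℝ) (D : ℕ) (S : Finset X) {s : ℕ} (ω : Fin s → X × X) (p : X) :
    Finset X :=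
  S.filter (fun q => ∀ i, ω i ∉ SP P D p q)

theorem pos_spec {u v : ℝ × ℝ} (hv : v ≠ 0) (h : v.1 * u.2 - v.2 * u.1 = 0) :
    u = ((u.1 * v.1 + u.2 * v.2) / (v.1 ^ 2 + v.2 ^ 2)) • v := by
  have hpos : 0 < v.1 ^ 2 + v.2 ^ 2 := by
    rcases eq_or_ne v.1 0 with h1 | h1
    · have h2 : v.2 ≠ 0 := fun h2 => hv (Prod.ext h1 h2)
      positivity
    · positivity
  apply Prod.ext
  · rw [Prod.smul_fst, smul_eq_mul, div_mul_eq_mul_div, eq_div_iff hpos.ne']
    linear_combination -v.2 * h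
  · rw [Prod.smul_snd, smul_eq_mul, div_mul_eq_mul_div, eq_div_iff hpos.ne']
    linear_combination v.1 * h

open Classical in
theorem cells_omega (P : X → ℝ × ℝ) (D : ℕ) {a b : X} (hab : P a ≠ P b) {S : Finset X}
    (hS : S ⊆ Ln P a b) {s : ℕ} (ω : Fin s → X × X) :
    4 * (S.filter (fun p => 4 * (s + 1) * (cl P D S ω p).card < S.card)).card ≤ S.card := by
  obtain ⟨v, hv⟩ : ∃ v : ℝ × ℝ, v = P b - P a := ⟨_, rfl⟩
  have hv0 : v ≠ 0 := by
    rw [hv]
    exact sub_ne_zero.2 hab.symm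
  obtain ⟨pos, hpos⟩ : ∃ pos : X → ℝ, pos = fun x =>
      (((P x - P a).1 * v.1 + (P x - P a).2 * v.2) / (v.1 ^ 2 + v.2 ^ 2)) := ⟨_, rfl⟩
  have hP : ∀ x ∈ S, P x = P a + pos x • v := by
    intro x hx
    have h1 := hS hx
    unfold Ln at h1
    rw [mem_filter] at h1
    have h2 := h1.2
    unfold cr at h2
    have h3 := pos_spec (u := P x - P a) hv0 (by
      rw [hv]
      simp only [Prod.fst_sub, Prod.snd_sub]
      linarith)
    rw [hpos]
    rw [← h3]
    abel
  obtain ⟨A, hA⟩ : ∃ A : Fin s → ℝ, A = fun i =>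
      if P (ω i).1 ≠ P (ω i).2 ∧ (Ln P (ω i).1 (ω i).2).card < D then
        ((P (ω i).2).1 - (P (ω i).1).1) * v.2 - ((P (ω i).2).2 - (P (ω i).1).2) * v.1
      else 0 := ⟨_, rfl⟩
  obtain ⟨B, hB⟩ : ∃ B : Fin s → ℝ, B = fun i =>
      if P (ω i).1 ≠ P (ω i).2 ∧ (Ln P (ω i).1 (ω i).2).card < D then
        cr (P (ω i).1) (P (ω i).2) (P a) else 0 := ⟨_, rfl⟩
  have hval : ∀ i, (P (ω i).1 ≠ P (ω i).2 ∧ (Ln P (ω i).1 (ω i).2).card < D) → ∀ x ∈ S,
      A i * pos x + B i = cr (P (ω i).1) (P (ω i).2) (P x) := by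
    intro i hi x hx
    have h1 : A i = ((P (ω i).2).1 - (P (ω i).1).1) * v.2 -
        ((P (ω i).2).2 - (P (ω i).1).2) * v.1 := by
      rw [hA]
      exact if_pos hi
    have h2 : B i = cr (P (ω i).1) (P (ω i).2) (P a) := by
      rw [hB]
      exact if_pos hi
    rw [h1, h2, hP x hx]
    unfold cr
    simp only [Prod.fst_add, Prod.snd_add, Prod.smul_fst, Prod.smul_snd, smul_eq_mul]
    ring
  have hval0 : ∀ i, ¬ (P (ω i).1 ≠ P (ω i).2 ∧ (Ln P (ω i).1 (ω i).2).card < D) →
      A i = 0 ∧ B i = 0 := by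
    intro i hi
    constructor
    · rw [hA]
      exact if_neg hi
    · rw [hB]
      exact if_neg hi
  have hcl : ∀ p ∈ S, cl P D S ω p = S.filter (fun q =>
      ∀ i, ¬ (A i * pos p + B i) * (A i * pos q + B i) < 0) := by
    intro p hp
    unfold cl
    apply filter_congr
    intro q hq
    refine forall_congr' fun i => ?_
    rw [mem_SP]
    by_cases hi : P (ω i).1 ≠ P (ω i).2 ∧ (Ln P (ω i).1 (ω i).2).card < D
    · rw [hval i hi p hp, hval i hi q hq]
      exact ⟨fun h1 h2 => h1 ⟨hi.1, hi.2, h2⟩, fun h1 h2 => h1 h2.2.2⟩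
    · obtain ⟨h1, h2⟩ := hval0 i hi
      rw [h1, h2]
      constructor
      · intro _
        simp
      · intro _ h3
        exact hi ⟨h3.1, h3.2.1⟩
  have h := cells S pos A B
  have e : S.filter (fun p => 4 * (s + 1) * (cl P D S ω p).card < S.card) =
      S.filter (fun p => 4 * (s + 1) * (S.filter (fun q =>
        ∀ i, ¬ (A i * pos p + B i) * (A i * pos q + B i) < 0)).card < S.card) := by
    apply filter_congr
    intro p hp
    rw [hcl p hp]
  rw [e]
  exact h

open Classical in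
/-- the number of the samples that are good for `p` -/
noncomputable def TT (P : X → ℝ × ℝ) (D : ℕ) (S : Finset X) (s : ℕ) (p : X) : ℕ :=
  ((univ : Finset (Fin s → X × X)).filter
    (fun ω => S.card ≤ 4 * (s + 1) * (cl P D S ω p).card)).card

open Classical in
theorem sum_TT (P : X → ℝ × ℝ) (D : ℕ) {a b : X} (hab : P a ≠ P b) {S : Finset X}
    (hS : S ⊆ Ln P a b) (s : ℕ) :
    3 * (Fintype.card (Fin s → X × X) * S.card) ≤ 4 * ∑ p ∈ S, TT P D S s p := by
  have h1 : ∑ p ∈ S, TT P D S s p = ∑ ω : Fin s → X × X,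
      (S.filter (fun p => S.card ≤ 4 * (s + 1) * (cl P D S ω p).card)).card := by
    unfold TT
    simp only [card_filter]
    rw [sum_comm]
  have h2 : ∀ ω : Fin s → X × X, 3 * S.card ≤
      4 * (S.filter (fun p => S.card ≤ 4 * (s + 1) * (cl P D S ω p).card)).card := by
    intro ω
    have h3 := cells_omega P D hab hS ω
    have h4 := card_filter_add_card_filter_not (s := S)
      (fun p => 4 * (s + 1) * (cl P D S ω p).card < S.card)
    have h5 : S.filter (fun p => ¬ 4 * (s + 1) * (cl P D S ω p).card < S.card) =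
        S.filter (fun p => S.card ≤ 4 * (s + 1) * (cl P D S ω p).card) := by
      apply filter_congr
      intro p _
      exact not_lt
    rw [h5] at h4
    omega
  rw [h1, mul_sum]
  calc 3 * (Fintype.card (Fin s → X × X) * S.card) =
      ∑ _ω : Fin s → X × X, 3 * S.card := by
        rw [sum_const, card_univ, smul_eq_mul]
        ring
    _ ≤ _ := sum_le_sum fun ω _ => h2 ω

open Classical in
theorem sum_cl (P : X → ℝ × ℝ) (D : ℕ) (S : Finset X) (s : ℕ) (p : X) :
    ∑ ω : Fin s → X × X, (cl P D S ω p).card = ∑ q ∈ S, ((SP P D p q)ᶜ.card) ^ s := by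
  unfold cl
  simp only [card_filter]
  rw [sum_comm]
  refine sum_congr rfl fun q _ => ?_
  rw [← card_filter, ← Fintype.card_piFinset_const]
  congr 1
  ext ω
  rw [mem_filter, Fintype.mem_piFinset]
  simp only [mem_univ, true_and, mem_compl]

open Classical in
theorem TT_mul_le (P : X → ℝ × ℝ) (D : ℕ) (S : Finset X) (s : ℕ) (p : X) :
    TT P D S s p * S.card ≤ 4 * (s + 1) * ∑ q ∈ S, ((SP P D p q)ᶜ.card) ^ s := by
  rw [← sum_cl, mul_sum]
  unfold TT
  rw [← smul_eq_mul, ← sum_const]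
  refine (sum_le_sum fun ω hω => (mem_filter.1 hω).2).trans ?_
  exact sum_le_sum_of_subset (filter_subset _ _)

end LineCloseAux

open LineCloseAux

open Classical in
theorem lineClose {X : Type} [Fintype X] (P : X → ℝ × ℝ) (D : ℕ) {a b : X} (hab : P a ≠ P b)
    {S : Finset X} (hS : S ⊆ Ln P a b) {s : ℕ} {η : ℝ} (hη0 : 0 ≤ η) (hη1 : η ≤ 1)
    (hη : (1 - η) ^ s ≤ 1 / (16 * ((s : ℝ) + 1))) :
    (S.card : ℝ) ≤ 2 * ((S.filter (fun p => (S.card : ℝ) / (16 * ((s : ℝ) + 1)) ≤
      ((S.filter (fun q => (sep P D p q : ℝ) ≤ η * (Fintype.card X : ℝ) ^ 2)).card : ℝ))).card : ℝ) := by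
  obtain ⟨W, hW⟩ : ∃ W : ℝ, W = ((Fintype.card X : ℝ) ^ 2) ^ s := ⟨_, rfl⟩
  have hWc : (Fintype.card (Fin s → X × X) : ℝ) = W := by
    rw [hW, Fintype.card_fun, Fintype.card_prod, Fintype.card_fin]
    push_cast
    ring
  have hX : 0 < (Fintype.card X : ℝ) := by
    have : 0 < Fintype.card X := Fintype.card_pos_iff.2 ⟨a⟩
    exact_mod_cast this
  have hW0 : 0 < W := by
    rw [hW]
    positivity
  have hs : (0 : ℝ) ≤ s := Nat.cast_nonneg s
  have hη' : 0 ≤ 1 - η := by linarith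
  -- the claim
  have claim : ∀ p ∈ S, W ≤ 2 * (TT P D S s p : ℝ) → (S.card : ℝ) / (16 * ((s : ℝ) + 1)) ≤
      ((S.filter (fun q => (sep P D p q : ℝ) ≤ η * (Fintype.card X : ℝ) ^ 2)).card : ℝ) := by
    intro p _ hT
    obtain ⟨c, hc⟩ : ∃ c : ℝ, c =
      ((S.filter (fun q => (sep P D p q : ℝ) ≤ η * (Fintype.card X : ℝ) ^ 2)).card : ℝ) :=
      ⟨_, rfl⟩
    rw [← hc]
    have h1 : (TT P D S s p : ℝ) * S.card ≤
        4 * ((s : ℝ) + 1) * ∑ q ∈ S, (((SP P D p q)ᶜ.card : ℝ)) ^ s := by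
      exact_mod_cast TT_mul_le P D S s p
    have h2 : ∀ q, (((SP P D p q)ᶜ.card : ℝ)) = (Fintype.card X : ℝ) ^ 2 - sep P D p q := by
      intro q
      rw [card_compl, Nat.cast_sub (card_le_univ _), Fintype.card_prod, sep_eq]
      push_cast
      ring
    have h3 : ∑ q ∈ S, (((SP P D p q)ᶜ.card : ℝ)) ^ s ≤
        c * W + (S.card : ℝ) * ((1 - η) ^ s * W) := by
      have h4 : ∀ q ∈ S, (((SP P D p q)ᶜ.card : ℝ)) ^ s ≤
          (if (sep P D p q : ℝ) ≤ η * (Fintype.card X : ℝ) ^ 2 then W else 0) +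
            (1 - η) ^ s * W := by
        intro q _
        have h5 : (((SP P D p q)ᶜ.card : ℝ)) ≤ (Fintype.card X : ℝ) ^ 2 := by
          rw [h2]
          have : (0 : ℝ) ≤ sep P D p q := Nat.cast_nonneg _
          linarith
        have h6 : (0 : ℝ) ≤ ((SP P D p q)ᶜ.card : ℝ) := Nat.cast_nonneg _
        have h7 : 0 ≤ (1 - η) ^ s * W := by positivity
        split_ifs with h
        · have h8 := pow_le_pow_left₀ h6 h5 s
          rw [← hW] at h8
          linarith
        · have h9 : (((SP P D p q)ᶜ.card : ℝ)) ≤ (1 - η) * (Fintype.card X : ℝ) ^ 2 := by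
            rw [h2]
            push Not at h
            linarith
          have h8 := pow_le_pow_left₀ h6 h9 s
          rw [mul_pow, ← hW] at h8
          linarith
      refine (sum_le_sum h4).trans (le_of_eq ?_)
      rw [sum_add_distrib, sum_const, nsmul_eq_mul, ← sum_filter, sum_const, nsmul_eq_mul, hc]
    have h10 : (1 - η) ^ s * (16 * ((s : ℝ) + 1)) ≤ 1 := by
      rwa [le_div_iff₀ (by positivity)] at hη
    have h11 : W / 2 * S.card ≤ 4 * ((s : ℝ) + 1) * (c * W + (S.card : ℝ) * ((1 - η) ^ s * W)) := by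
      calc W / 2 * S.card ≤ (TT P D S s p : ℝ) * S.card :=
            mul_le_mul_of_nonneg_right (by linarith) (Nat.cast_nonneg _)
        _ ≤ _ := h1
        _ ≤ _ := mul_le_mul_of_nonneg_left h3 (by positivity)
    have h12 : (S.card : ℝ) * W * ((1 - η) ^ s * (16 * ((s : ℝ) + 1))) ≤ (S.card : ℝ) * W * 1 :=
      mul_le_mul_of_nonneg_left h10 (by positivity)
    have h13 : W * (S.card : ℝ) ≤ W * (c * (16 * ((s : ℝ) + 1))) := by
      have h14 : 4 * ((s : ℝ) + 1) * (c * W + (S.card : ℝ) * ((1 - η) ^ s * W)) =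
          (W * (c * (16 * ((s : ℝ) + 1)))) / 4 +
          ((S.card : ℝ) * W * ((1 - η) ^ s * (16 * ((s : ℝ) + 1)))) / 4 := by ring
      rw [h14] at h11
      linarith
    rw [div_le_iff₀ (by positivity)]
    exact le_of_mul_le_mul_left h13 hW0
  -- the counting
  have hsub : S.filter (fun p => W ≤ 2 * (TT P D S s p : ℝ)) ⊆
      S.filter (fun p => (S.card : ℝ) / (16 * ((s : ℝ) + 1)) ≤
      ((S.filter (fun q => (sep P D p q : ℝ) ≤ η * (Fintype.card X : ℝ) ^ 2)).card : ℝ)) := by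
    intro p hp
    rw [mem_filter] at hp ⊢
    exact ⟨hp.1, claim p hp.1 hp.2⟩
  have hcard : ((S.filter (fun p => W ≤ 2 * (TT P D S s p : ℝ))).card : ℝ) ≤
      ((S.filter (fun p => (S.card : ℝ) / (16 * ((s : ℝ) + 1)) ≤
      ((S.filter (fun q => (sep P D p q : ℝ) ≤ η * (Fintype.card X : ℝ) ^ 2)).card : ℝ))).card :
        ℝ) := by
    exact_mod_cast card_le_card hsub
  have hsum : 3 * (W * S.card) ≤ 4 * ∑ p ∈ S, (TT P D S s p : ℝ) := by
    have h1 := sum_TT P D hab hS s
    rw [← hWc]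
    exact_mod_cast h1
  have hTW : ∀ p, (TT P D S s p : ℝ) ≤ W := by
    intro p
    rw [← hWc]
    unfold TT
    exact_mod_cast card_le_univ _
  have hup : ∑ p ∈ S, (TT P D S s p : ℝ) ≤
      W / 2 * S.card + W / 2 * (S.filter (fun p => W ≤ 2 * (TT P D S s p : ℝ))).card := by
    have h4 : ∀ p ∈ S, (TT P D S s p : ℝ) ≤
        W / 2 + (if W ≤ 2 * (TT P D S s p : ℝ) then W / 2 else 0) := by
      intro p _
      split_ifs with h
      · have := hTW p
        linarith
      · push Not at h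
        linarith
    refine (sum_le_sum h4).trans (le_of_eq ?_)
    rw [sum_add_distrib, sum_const, nsmul_eq_mul, ← sum_filter, sum_const, nsmul_eq_mul]
    ring
  have hfin : W * (S.card : ℝ) ≤
      W * (2 * ((S.filter (fun p => W ≤ 2 * (TT P D S s p : ℝ))).card : ℝ)) := by
    linarith
  have h5 := le_of_mul_le_mul_left hfin hW0
  linarith

end Pool.Agent.Lib.P0fc
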