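import Mathlib
import Pool.Agent.Lib.P0fc.PlDef

/-!
# Lines of a weighted planar set

`Ln_eq`: for `P a ≠ P b` the points `x` with `cr (P a) (P b) (P x) = 0` are those with
`P x = P a + τ (P b - P a)`; if `P p ≠ P q` are two such points then `cr (P p) (P q) = c * cr (P a) (P b)` with
`c ≠ 0` (`c = τ_q - τ_p`).
`lineSum`: two different lines in `LL` have no pair `p, q` with `P p ≠ P q` in common, because both would be
equal to `Ln P p q` by `Ln_eq`; so the sets of pairs on the left are disjoint.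
`RR_iff`: with `l = Ln P p q`, `p, q ∈ l`.
`RR_sum`: the pairs with `RR` are distributed over the lines.
`Th_ps`: for `p ∈ Th l`, `2 ≤ K`: `|l| ≤ 2 #{q ∈ l | P q ≠ P p}`, since `|Ps p| ≤ |l|/K ≤ |l|/2`.
-/

namespace Pool.Agent.Lib.P0fc

open Finset

variable {X : Type} [Fintype X]

theorem LineFamAux_mem {P : X → ℝ × ℝ} {a b x : X} : x ∈ Ln P a b ↔ cr (P a) (P b) (P x) = 0 := by
  classical
  unfold Ln
  rw [mem_filter]
  exact ⟨fun h => h.2, fun h => ⟨mem_univ _, h⟩⟩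

theorem LineFamAux_memPs {P : X → ℝ × ℝ} {a x : X} : x ∈ Ps P a ↔ P x = P a := by
  classical
  unfold Ps
  rw [mem_filter]
  exact ⟨fun h => h.2, fun h => ⟨mem_univ _, h⟩⟩

theorem LineFamAux_sub {P : X → ℝ × ℝ} {a b p q x : X} (hab : P a ≠ P b) (hp : p ∈ Ln P a b)
    (hq : q ∈ Ln P a b) (hx : x ∈ Ln P a b) : x ∈ Ln P p q := by
  rw [LineFamAux_mem] at hp hq hx ⊢
  unfold cr at *
  set a1 := (P a).1
  set a2 := (P a).2
  set u := (P b).1 - a1 with hu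
  set w := (P b).2 - a2 with hw
  have hne : u ≠ 0 ∨ w ≠ 0 := by
    by_contra hcon
    push Not at hcon
    apply hab
    refine Prod.ext ?_ ?_
    · linarith [hcon.1]
    · linarith [hcon.2]
  rcases hne with h | h
  · have h1 : u * (((P q).1 - (P p).1) * ((P x).2 - (P p).2) -
        ((P q).2 - (P p).2) * ((P x).1 - (P p).1)) = 0 := by
      linear_combination ((P q).1 - (P p).1) * (hx - hp) - ((P x).1 - (P p).1) * (hq - hp)
    exact (mul_eq_zero.1 h1).resolve_left h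
  · have h1 : w * (((P q).1 - (P p).1) * ((P x).2 - (P p).2) -
        ((P q).2 - (P p).2) * ((P x).1 - (P p).1)) = 0 := by
      linear_combination ((P q).2 - (P p).2) * (hx - hp) - ((P x).2 - (P p).2) * (hq - hp)
    exact (mul_eq_zero.1 h1).resolve_left h

theorem left_mem_Ln (P : X → ℝ × ℝ) (a b : X) : a ∈ Ln P a b ∧ b ∈ Ln P a b := by
  rw [LineFamAux_mem, LineFamAux_mem]
  unfold cr
  constructor <;> ring

theorem Ln_eq {P : X → ℝ × ℝ} {a b p q : X} (hab : P a ≠ P b) (hp : p ∈ Ln P a b)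
    (hq : q ∈ Ln P a b) (hpq : P p ≠ P q) : Ln P p q = Ln P a b := by
  have ha : a ∈ Ln P p q := LineFamAux_sub hab hp hq (left_mem_Ln P a b).1
  have hb : b ∈ Ln P p q := LineFamAux_sub hab hp hq (left_mem_Ln P a b).2
  ext x
  exact ⟨fun hx => LineFamAux_sub hpq ha hb hx, fun hx => LineFamAux_sub hab hp hq hx⟩

theorem Ln_comm (P : X → ℝ × ℝ) (a b : X) : Ln P a b = Ln P b a := by
  ext x
  rw [LineFamAux_mem, LineFamAux_mem]
  unfold cr
  constructor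
  · intro h
    linear_combination -h
  · intro h
    linear_combination -h

theorem Ps_subset_Ln {P : X → ℝ × ℝ} {a b p : X} (hp : p ∈ Ln P a b) : Ps P p ⊆ Ln P a b := by
  intro x hx
  rw [LineFamAux_memPs] at hx
  rw [LineFamAux_mem] at hp ⊢
  rw [hx]
  exact hp

theorem LineFamAux_memLL {P : X → ℝ × ℝ} {D : ℕ} {l : Finset X} : l ∈ LL P D ↔
    ∃ a b, P a ≠ P b ∧ (Ln P a b).card < D ∧ Ln P a b = l := by
  classical
  unfold LL
  rw [mem_image]
  constructor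
  · rintro ⟨⟨a, b⟩, h, rfl⟩
    rw [mem_filter] at h
    exact ⟨a, b, h.2.1, h.2.2, rfl⟩
  · rintro ⟨a, b, h1, h2, rfl⟩
    refine ⟨(a, b), ?_, rfl⟩
    rw [mem_filter]
    exact ⟨mem_univ _, h1, h2⟩

theorem LL_eq {P : X → ℝ × ℝ} {D : ℕ} {l : Finset X} (hl : l ∈ LL P D) {p q : X} (hp : p ∈ l)
    (hq : q ∈ l) (hpq : P p ≠ P q) : Ln P p q = l := by
  obtain ⟨a, b, h1, _, rfl⟩ := LineFamAux_memLL.1 hl
  exact Ln_eq h1 hp hq hpq

theorem RR_symm {P : X → ℝ × ℝ} {K D : ℕ} {p q : X} (h : RR P K D p q) : RR P K D q p := by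
  unfold RR at h ⊢
  rw [Ln_comm P q p]
  exact ⟨h.1.symm, h.2.1, h.2.2.2, h.2.2.1⟩

theorem LineFamAux_memTh {P : X → ℝ × ℝ} {K : ℕ} {l : Finset X} {p : X} :
    p ∈ Th P K l ↔ p ∈ l ∧ K * (Ps P p).card ≤ l.card := by
  classical
  unfold Th
  rw [mem_filter]

theorem RR_iff {P : X → ℝ × ℝ} {K D : ℕ} {p q : X} :
    RR P K D p q ↔ P p ≠ P q ∧ ∃ l ∈ LL P D, p ∈ Th P K l ∧ q ∈ Th P K l := by
  constructor
  · rintro ⟨h1, h2, h3, h4⟩
    refine ⟨h1, Ln P p q, LineFamAux_memLL.2 ⟨p, q, h1, h2, rfl⟩, ?_, ?_⟩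
    · exact LineFamAux_memTh.2 ⟨(left_mem_Ln P p q).1, h3⟩
    · exact LineFamAux_memTh.2 ⟨(left_mem_Ln P p q).2, h4⟩
  · rintro ⟨h1, l, hl, hp, hq⟩
    rw [LineFamAux_memTh] at hp hq
    have h2 := LL_eq hl hp.1 hq.1 h1
    obtain ⟨a, b, _, h4, h5⟩ := LineFamAux_memLL.1 hl
    unfold RR
    rw [h2]
    exact ⟨h1, h5 ▸ h4, hp.2, hq.2⟩

open Classical in
theorem lineSum (P : X → ℝ × ℝ) (D : ℕ) (L : Finset (Finset X)) (hL : L ⊆ LL P D)
    (R : X → X → Prop) :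
    ∑ l ∈ L, ((l ×ˢ l).filter (fun p => P p.1 ≠ P p.2 ∧ R p.1 p.2)).card ≤
      (univ.filter (fun p : X × X => P p.1 ≠ P p.2 ∧ R p.1 p.2)).card := by
  rw [← card_biUnion]
  · refine card_le_card ?_
    intro p hp
    rw [mem_biUnion] at hp
    obtain ⟨l, _, hp⟩ := hp
    rw [mem_filter] at hp ⊢
    exact ⟨mem_univ _, hp.2⟩
  · intro l hl l' hl' hne
    rw [Function.onFun, disjoint_left]
    intro p hp hp'
    rw [mem_filter, mem_product] at hp hp'
    apply hne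
    rw [← LL_eq (hL hl) hp.1.1 hp.1.2 hp.2.1, ← LL_eq (hL hl') hp'.1.1 hp'.1.2 hp.2.1]

open Classical in
theorem RR_sum (P : X → ℝ × ℝ) (K D : ℕ) (R : X → X → Prop) :
    (univ.filter (fun p : X × X => RR P K D p.1 p.2 ∧ R p.1 p.2)).card ≤
      ∑ l ∈ LL P D, ((Th P K l ×ˢ Th P K l).filter (fun p => P p.1 ≠ P p.2 ∧ R p.1 p.2)).card := by
  refine (card_le_card ?_).trans card_biUnion_le
  intro p hp
  rw [mem_filter] at hp
  obtain ⟨h1, l, hl, h2, h3⟩ := RR_iff.1 hp.2.1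
  rw [mem_biUnion]
  refine ⟨l, hl, ?_⟩
  rw [mem_filter, mem_product]
  exact ⟨⟨h2, h3⟩, h1, hp.2.2⟩

open Classical in
theorem Th_ps {P : X → ℝ × ℝ} {K : ℕ} (hK : 2 ≤ K) {l : Finset X} {p : X} (hp : p ∈ Th P K l) :
    l.card ≤ 2 * (l.filter (fun q => P p ≠ P q)).card := by
  rw [LineFamAux_memTh] at hp
  have h1 : 2 * (Ps P p).card ≤ l.card := (Nat.mul_le_mul_right _ hK).trans hp.2
  have h2 := card_filter_add_card_filter_not (s := l) (fun q => P p ≠ P q)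
  have h3 : (l.filter (fun q => ¬ P p ≠ P q)).card ≤ (Ps P p).card := by
    refine card_le_card ?_
    intro q hq
    rw [mem_filter, not_not] at hq
    exact LineFamAux_memPs.2 hq.2.symm
  omega

end Pool.Agent.Lib.P0fc
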