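import Mathlib
import Pool.Agent.Lib.P0fc.LineClose
import Pool.Agent.Lib.P0fc.LineFam

/-!
# A ball with many points

`N = |X|`, `X* = Xs P K D (w/8)`, `ρ = w/16`.  For `l ∈ LL P D` let `S l = Th P K l ∩ X*`.
(1) Less than `(w/8) N²` pairs `(x, p)` with `RR x p` have `p ∉ X*`, and the same for `x ∉ X*` (`RR_symm`); so at
least `(3/4) w N²` pairs with `RR` are in `X* × X*`, and by `RR_sum` (`R p q = (p ∈ X* ∧ q ∈ X*)`)
`∑_l |S l|² ≥ (3/4) w N²`.
(2) `∑_l |l| |S l| ≤ 2 N²` by `Th_ps` (`|l| ≤ 2 #{q ∈ l | P p ≠ P q}` for `p ∈ S l`) and `lineSum` with `R = True`.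
So the lines with `|S l| < ρ |l|` contribute at most `ρ * 2 N² = (w/8) N²` to the sum in (1), and the
lines with `ρ |l| ≤ |S l|` at least `(5/8) w N² ≥ (w/2) N²`.
(3) Let `ρ |l| ≤ |S l|`.  By `lineClose` at least half of the `p ∈ S l` have at least
`|S l|/(16(s+1))` points `q ∈ S l` with `sep p q ≤ η N²`; of these at most
`|Ps p| ≤ |l|/K ≤ |S l|/(ρ K) ≤ |S l|/(32(s+1))` have `P q = P p`.  So `S l` contains at least
`|S l|²/(64(s+1))` pairs `(p, q)` with `P p ≠ P q` and `sep p q ≤ η N²`.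
(4) By `lineSum` there are at least `(w/2) N²/(64(s+1)) = w N²/(128(s+1))` pairs `(p, q) ∈ X* × X*` with
`sep p q ≤ η N²`; take `p₀` with the largest number of `q`.
-/

namespace Pool.Agent.Lib.P0fc

open Finset

theorem BallAux.card_pairs {X : Type} (S T : Finset X) (R : X → X → Prop)
    [DecidablePred (fun p : X × X => R p.1 p.2)] [∀ p, DecidablePred (fun q => R p q)] :
    ((S ×ˢ T).filter (fun p => R p.1 p.2)).card = ∑ p ∈ S, (T.filter (fun q => R p q)).card := by
  rw [card_filter, sum_product]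
  refine sum_congr rfl fun p _ => ?_
  rw [card_filter]

theorem BallAux.card_pairs' {X : Type} (S T : Finset X) (R : X → X → Prop)
    [DecidablePred (fun p : X × X => R p.1 p.2)] [∀ q, DecidablePred (fun p => R p q)] :
    ((S ×ˢ T).filter (fun p => R p.1 p.2)).card = ∑ q ∈ T, (S.filter (fun p => R p q)).card := by
  rw [card_filter, sum_product, sum_comm]
  refine sum_congr rfl fun p _ => ?_
  rw [card_filter]

open Classical in
/-- step (1) -/
theorem BallAux.one {X : Type} [Fintype X] (P : X → ℝ × ℝ) (K D : ℕ) {w : ℝ} (hw : 0 < w)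
    (hR : w * (Fintype.card X : ℝ) ^ 2 <
      ((univ.filter (fun p : X × X => RR P K D p.1 p.2)).card : ℝ)) :
    3 / 4 * w * (Fintype.card X : ℝ) ^ 2 ≤
      ∑ l ∈ LL P D, (((Th P K l).filter (fun p => p ∈ Xs P K D (w / 8))).card : ℝ) ^ 2 := by
  set N : ℝ := (Fintype.card X : ℝ) with hN
  set Y := Xs P K D (w / 8) with hY
  have hN0 : 0 ≤ N := Nat.cast_nonneg _
  -- bad second coordinate
  have hbad : ∀ q, q ∉ Y → ((univ.filter (fun p => RR P K D p q)).card : ℝ) ≤ w / 8 * N := by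
    intro q hq
    by_contra hc
    apply hq
    rw [hY, Xs, mem_filter]
    exact ⟨mem_univ _, (not_le.1 hc).le⟩
  have h2 : ((univ.filter (fun p : X × X => RR P K D p.1 p.2 ∧ p.2 ∉ Y)).card : ℝ) ≤
      w / 8 * N ^ 2 := by
    have h3 := BallAux.card_pairs' (univ : Finset X) univ (fun p q => RR P K D p q ∧ q ∉ Y)
    rw [univ_product_univ] at h3
    rw [h3]
    push_cast
    calc ∑ q : X, ((univ.filter (fun p => RR P K D p q ∧ q ∉ Y)).card : ℝ)
        ≤ ∑ _q : X, w / 8 * N := by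
          refine sum_le_sum fun q _ => ?_
          by_cases hq : q ∈ Y
          · have : univ.filter (fun p => RR P K D p q ∧ q ∉ Y) = ∅ := by
              rw [filter_eq_empty_iff]
              intro p _ hp
              exact hp.2 hq
            rw [this, card_empty]
            push_cast
            positivity
          · refine le_trans ?_ (hbad q hq)
            refine Nat.cast_le.2 (card_le_card ?_)
            intro p hp
            rw [mem_filter] at hp ⊢
            exact ⟨hp.1, hp.2.1⟩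
      _ = w / 8 * N ^ 2 := by
          rw [sum_const, card_univ, nsmul_eq_mul, ← hN]
          ring
  have h1 : ((univ.filter (fun p : X × X => RR P K D p.1 p.2 ∧ p.1 ∉ Y)).card : ℝ) ≤
      w / 8 * N ^ 2 := by
    have h3 := BallAux.card_pairs (univ : Finset X) univ (fun p q => RR P K D p q ∧ p ∉ Y)
    rw [univ_product_univ] at h3
    rw [h3]
    push_cast
    calc ∑ p : X, ((univ.filter (fun q => RR P K D p q ∧ p ∉ Y)).card : ℝ)
        ≤ ∑ _p : X, w / 8 * N := by
          refine sum_le_sum fun p _ => ?_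
          by_cases hp : p ∈ Y
          · have : univ.filter (fun q => RR P K D p q ∧ p ∉ Y) = ∅ := by
              rw [filter_eq_empty_iff]
              intro q _ hq
              exact hq.2 hp
            rw [this, card_empty]
            push_cast
            positivity
          · refine le_trans ?_ (hbad p hp)
            refine Nat.cast_le.2 (card_le_card ?_)
            intro q hq
            rw [mem_filter] at hq ⊢
            exact ⟨hq.1, RR_symm hq.2.1⟩
      _ = w / 8 * N ^ 2 := by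
          rw [sum_const, card_univ, nsmul_eq_mul, ← hN]
          ring
  obtain ⟨R, hRd⟩ : ∃ R : X → X → Prop, ∀ p q, R p q ↔ (p ∈ Y ∧ q ∈ Y) :=
    ⟨_, fun _ _ => Iff.rfl⟩
  have h3 : ((univ.filter (fun p : X × X => RR P K D p.1 p.2)).card : ℝ) ≤
      ((univ.filter (fun p : X × X => RR P K D p.1 p.2 ∧ R p.1 p.2)).card : ℝ) +
      (((univ.filter (fun p : X × X => RR P K D p.1 p.2 ∧ p.1 ∉ Y)).card : ℝ) +
      ((univ.filter (fun p : X × X => RR P K D p.1 p.2 ∧ p.2 ∉ Y)).card : ℝ)) := by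
    have h4 : univ.filter (fun p : X × X => RR P K D p.1 p.2) ⊆
        univ.filter (fun p : X × X => RR P K D p.1 p.2 ∧ R p.1 p.2) ∪
        (univ.filter (fun p : X × X => RR P K D p.1 p.2 ∧ p.1 ∉ Y) ∪
        univ.filter (fun p : X × X => RR P K D p.1 p.2 ∧ p.2 ∉ Y)) := by
      intro p hp
      rw [mem_filter] at hp
      rw [mem_union, mem_union, mem_filter, mem_filter, mem_filter]
      by_cases hp1 : p.1 ∈ Y
      · by_cases hp2 : p.2 ∈ Y
        · exact Or.inl ⟨mem_univ _, hp.2, (hRd _ _).2 ⟨hp1, hp2⟩⟩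
        · exact Or.inr (Or.inr ⟨mem_univ _, hp.2, hp2⟩)
      · exact Or.inr (Or.inl ⟨mem_univ _, hp.2, hp1⟩)
    have h5 := (card_le_card h4).trans ((card_union_le _ _).trans
      (Nat.add_le_add le_rfl (card_union_le _ _)))
    exact_mod_cast h5
  have h4 := RR_sum P K D R
  have h5 : ((univ.filter (fun p : X × X => RR P K D p.1 p.2 ∧ R p.1 p.2)).card : ℝ) ≤
      ∑ l ∈ LL P D, (((Th P K l).filter (fun p => p ∈ Y)).card : ℝ) ^ 2 := by
    have h6 : ∑ l ∈ LL P D, ((Th P K l ×ˢ Th P K l).filter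
        (fun p => P p.1 ≠ P p.2 ∧ R p.1 p.2)).card ≤
        ∑ l ∈ LL P D, ((Th P K l).filter (fun p => p ∈ Y)).card ^ 2 := by
      refine sum_le_sum fun l _ => ?_
      rw [sq, ← card_product]
      refine card_le_card ?_
      intro p hp
      rw [mem_filter, mem_product] at hp
      rw [mem_product, mem_filter, mem_filter]
      have h7 := (hRd _ _).1 hp.2.2
      exact ⟨⟨hp.1.1, h7.1⟩, ⟨hp.1.2, h7.2⟩⟩
    have h7 := (Nat.cast_le (α := ℝ)).2 (h4.trans h6)
    rw [Nat.cast_sum] at h7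
    refine h7.trans (le_of_eq (sum_congr rfl fun l _ => ?_))
    rw [Nat.cast_pow]
  linarith

open Classical in
/-- step (2) -/
theorem BallAux.two {X : Type} [Fintype X] (P : X → ℝ × ℝ) {K : ℕ} (D : ℕ) (hK : 2 ≤ K)
    (Z : X → Prop) [DecidablePred Z] :
    ∑ l ∈ LL P D, (l.card : ℝ) * (((Th P K l).filter Z).card : ℝ) ≤
      2 * (Fintype.card X : ℝ) ^ 2 := by
  obtain ⟨R, hRd⟩ : ∃ R : X → X → Prop, ∀ p q, R p q := ⟨fun _ _ => True, fun _ _ => trivial⟩
  have h1 : ∀ l ∈ LL P D, l.card * ((Th P K l).filter Z).card ≤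
      2 * ((l ×ˢ l).filter (fun p => P p.1 ≠ P p.2 ∧ R p.1 p.2)).card := by
    intro l _
    have h2 := BallAux.card_pairs l l (fun p q => P p ≠ P q ∧ R p q)
    rw [h2, mul_comm, ← smul_eq_mul, ← sum_const, mul_sum]
    have h3 : (Th P K l).filter Z ⊆ l := by
      intro p hp
      rw [mem_filter, Th, mem_filter] at hp
      exact hp.1.1
    refine le_trans ?_ (sum_le_sum_of_subset h3)
    refine sum_le_sum fun p hp => ?_
    rw [mem_filter] at hp
    have h4 := Th_ps hK hp.1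
    have h5 : (l.filter (fun q => P p ≠ P q ∧ R p q)) = l.filter (fun q => P p ≠ P q) := by
      refine filter_congr fun q _ => ?_
      exact ⟨fun h => h.1, fun h => ⟨h, hRd p q⟩⟩
    rw [h5]
    exact h4
  have h2 := lineSum P D (LL P D) (Subset.refl _) R
  have h3 : (univ.filter (fun p : X × X => P p.1 ≠ P p.2 ∧ R p.1 p.2)).card ≤ Fintype.card X ^ 2 := by
    refine (card_le_univ _).trans ?_
    rw [Fintype.card_prod, sq]
  have h4 : ∑ l ∈ LL P D, l.card * ((Th P K l).filter Z).card ≤ 2 * Fintype.card X ^ 2 := by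
    refine (sum_le_sum h1).trans ?_
    rw [← mul_sum]
    refine Nat.mul_le_mul le_rfl (le_trans (le_of_eq ?_) (h2.trans h3))
    refine sum_congr rfl fun l _ => ?_
    congr
  have h5 := (Nat.cast_le (α := ℝ)).2 h4
  push_cast at h5
  exact h5

open Classical in
/-- step (3) -/
theorem BallAux.three {X : Type} [Fintype X] (P : X → ℝ × ℝ) (K D : ℕ) {w η : ℝ} (hw : 0 < w)
    {s : ℕ} (hη0 : 0 ≤ η) (hη1 : η ≤ 1) (hη : (1 - η) ^ s ≤ 1 / (16 * ((s : ℝ) + 1)))
    (hK : 32 * ((s : ℝ) + 1) ≤ w / 16 * K) {l : Finset X} (hl : l ∈ LL P D) (Z : X → Prop)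
    [DecidablePred Z] (R : X → X → Prop)
    (hZR : ∀ p q, Z p → Z q → (sep P D p q : ℝ) ≤ η * (Fintype.card X : ℝ) ^ 2 → R p q)
    (hg : w / 16 * (l.card : ℝ) ≤ (((Th P K l).filter Z).card : ℝ)) :
    (((Th P K l).filter Z).card : ℝ) ^ 2 / (64 * ((s : ℝ) + 1)) ≤
      (((l ×ˢ l).filter (fun p => P p.1 ≠ P p.2 ∧ R p.1 p.2)).card : ℝ) := by
  set S := (Th P K l).filter Z with hSdef
  have hSl : S ⊆ l := by
    intro p hp
    rw [hSdef, mem_filter, Th, mem_filter] at hp
    exact hp.1.1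
  obtain ⟨⟨a, b⟩, hab, hlab⟩ := mem_image.1 hl
  rw [mem_filter] at hab
  have hab1 : P a ≠ P b := hab.2.1
  have hlab' : Ln P a b = l := hlab
  have hs : (0 : ℝ) < (s : ℝ) + 1 := by positivity
  have hcl := lineClose P D hab1 (S := S) (by rw [hlab']; exact hSl) hη0 hη1 hη
  set G := S.filter (fun p => (S.card : ℝ) / (16 * ((s : ℝ) + 1)) ≤
      ((S.filter (fun q => (sep P D p q : ℝ) ≤ η * (Fintype.card X : ℝ) ^ 2)).card : ℝ)) with hG
  have hmain : ∀ p ∈ G, (S.card : ℝ) / (32 * ((s : ℝ) + 1)) ≤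
      ((l.filter (fun q => P p ≠ P q ∧ R p q)).card : ℝ) := by
    intro p hp
    rw [hG, mem_filter] at hp
    have hpS := hp.1
    rw [hSdef, mem_filter, Th, mem_filter] at hpS
    have hZp : Z p := hpS.2
    have hKp : K * (Ps P p).card ≤ l.card := hpS.1.2
    have h1 : (S.filter (fun q => (sep P D p q : ℝ) ≤ η * (Fintype.card X : ℝ) ^ 2)).card ≤
        (Ps P p).card + (l.filter (fun q => P p ≠ P q ∧ R p q)).card := by
      refine le_trans (card_le_card ?_) (card_union_le _ _)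
      intro q hq
      rw [mem_filter] at hq
      rw [mem_union, Ps, mem_filter, mem_filter]
      by_cases hpq : P p = P q
      · exact Or.inl ⟨mem_univ _, hpq.symm⟩
      · right
        have hqS := hq.1
        rw [hSdef, mem_filter] at hqS
        exact ⟨hSl hq.1, hpq, hZR p q hZp hqS.2 hq.2⟩
    have h2 : ((Ps P p).card : ℝ) ≤ (S.card : ℝ) / (32 * ((s : ℝ) + 1)) := by
      rw [le_div_iff₀ (by positivity)]
      have h3 : ((K : ℝ) * ((Ps P p).card : ℝ)) ≤ (l.card : ℝ) := by exact_mod_cast hKp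
      have h4 : (0 : ℝ) ≤ ((Ps P p).card : ℝ) := Nat.cast_nonneg _
      calc ((Ps P p).card : ℝ) * (32 * ((s : ℝ) + 1)) ≤ ((Ps P p).card : ℝ) * (w / 16 * K) :=
            mul_le_mul_of_nonneg_left hK h4
        _ = w / 16 * ((K : ℝ) * ((Ps P p).card : ℝ)) := by ring
        _ ≤ w / 16 * (l.card : ℝ) := mul_le_mul_of_nonneg_left h3 (by positivity)
        _ ≤ (S.card : ℝ) := hg
    have h5 : ((S.filter (fun q => (sep P D p q : ℝ) ≤ η * (Fintype.card X : ℝ) ^ 2)).card : ℝ) ≤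
        ((Ps P p).card : ℝ) + ((l.filter (fun q => P p ≠ P q ∧ R p q)).card : ℝ) := by exact_mod_cast h1
    have h6 := hp.2
    have h7 : (S.card : ℝ) / (16 * ((s : ℝ) + 1)) = (S.card : ℝ) / (32 * ((s : ℝ) + 1)) +
        (S.card : ℝ) / (32 * ((s : ℝ) + 1)) := by
      field_simp
      ring
    linarith
  have hpairs := BallAux.card_pairs l l (fun p q => P p ≠ P q ∧ R p q)
  rw [hpairs]
  push_cast
  have hGl : G ⊆ l := (filter_subset _ _).trans hSl
  have h8 : ∑ p ∈ G, (S.card : ℝ) / (32 * ((s : ℝ) + 1)) ≤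
      ∑ p ∈ l, ((l.filter (fun q => P p ≠ P q ∧ R p q)).card : ℝ) :=
    (sum_le_sum hmain).trans (sum_le_sum_of_subset_of_nonneg hGl (fun _ _ _ => Nat.cast_nonneg _))
  refine le_trans ?_ h8
  rw [sum_const, nsmul_eq_mul]
  have h9 : (S.card : ℝ) / 2 ≤ (G.card : ℝ) := by linarith
  calc (S.card : ℝ) ^ 2 / (64 * ((s : ℝ) + 1)) =
        (S.card : ℝ) / 2 * ((S.card : ℝ) / (32 * ((s : ℝ) + 1))) := by
        field_simp
        ring
    _ ≤ (G.card : ℝ) * ((S.card : ℝ) / (32 * ((s : ℝ) + 1))) :=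
        mul_le_mul_of_nonneg_right h9 (by positivity)

open Classical in
theorem ball {X : Type} [Fintype X] (P : X → ℝ × ℝ) (K D : ℕ) {w η : ℝ} (hw : 0 < w) (hw1 : w ≤ 1)
    {s : ℕ} (hη0 : 0 ≤ η) (hη1 : η ≤ 1) (hη : (1 - η) ^ s ≤ 1 / (16 * ((s : ℝ) + 1)))
    (hK : 32 * ((s : ℝ) + 1) ≤ w / 16 * K)
    (hR : w * (Fintype.card X : ℝ) ^ 2 <
      ((univ.filter (fun p : X × X => RR P K D p.1 p.2)).card : ℝ)) :
    ∃ p₀ : X, w / (128 * ((s : ℝ) + 1)) * (Fintype.card X : ℝ) ≤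
      (((Xs P K D (w / 8)).filter (fun q => (sep P D p₀ q : ℝ) ≤
        η * (Fintype.card X : ℝ) ^ 2)).card : ℝ) := by
  have hs : (0 : ℝ) < (s : ℝ) + 1 := by positivity
  have hK2 : 2 ≤ K := by
    have h1 : (32 : ℝ) ≤ 32 * ((s : ℝ) + 1) := by nlinarith [Nat.cast_nonneg (α := ℝ) s]
    have h2 : w / 16 * (K : ℝ) ≤ 1 / 16 * K :=
      mul_le_mul_of_nonneg_right (by linarith) (Nat.cast_nonneg _)
    have h3 : (2 : ℝ) ≤ K := by linarith
    exact_mod_cast h3
  set N : ℝ := (Fintype.card X : ℝ) with hN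
  have hN0 : 0 < N := by
    rcases (Nat.cast_nonneg (α := ℝ) (Fintype.card X)).lt_or_eq with h | h
    · exact h
    · exfalso
      have h0 : Fintype.card X = 0 := by exact_mod_cast h.symm
      have h1 : (univ.filter (fun p : X × X => RR P K D p.1 p.2)).card ≤ 0 := by
        refine (card_le_univ _).trans ?_
        rw [Fintype.card_prod, h0]
      have h2 : ((univ.filter (fun p : X × X => RR P K D p.1 p.2)).card : ℝ) ≤ 0 := by
        exact_mod_cast h1
      have h3 : 0 ≤ w * N ^ 2 := by positivity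
      linarith
  set Y := Xs P K D (w / 8) with hY
  set S : Finset X → Finset X := fun l => (Th P K l).filter (fun p => p ∈ Y) with hS
  have h1 := BallAux.one P K D hw hR
  have h2 := BallAux.two P (K := K) D hK2 (fun p => p ∈ Y)
  have h1' : 3 / 4 * w * N ^ 2 ≤ ∑ l ∈ LL P D, ((S l).card : ℝ) ^ 2 := h1
  have h2' : ∑ l ∈ LL P D, (l.card : ℝ) * ((S l).card : ℝ) ≤ 2 * N ^ 2 := h2
  set G := (LL P D).filter (fun l => w / 16 * (l.card : ℝ) ≤ ((S l).card : ℝ)) with hG
  have hbad : ∑ l ∈ (LL P D).filter (fun l => ¬ w / 16 * (l.card : ℝ) ≤ ((S l).card : ℝ)),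
      ((S l).card : ℝ) ^ 2 ≤ w / 8 * N ^ 2 := by
    calc ∑ l ∈ (LL P D).filter (fun l => ¬ w / 16 * (l.card : ℝ) ≤ ((S l).card : ℝ)),
          ((S l).card : ℝ) ^ 2
        ≤ ∑ l ∈ (LL P D).filter (fun l => ¬ w / 16 * (l.card : ℝ) ≤ ((S l).card : ℝ)),
          w / 16 * ((l.card : ℝ) * ((S l).card : ℝ)) := by
          refine sum_le_sum fun l hl => ?_
          rw [mem_filter, not_le] at hl
          have h3 : (0 : ℝ) ≤ ((S l).card : ℝ) := Nat.cast_nonneg _
          nlinarith [hl.2]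
      _ ≤ ∑ l ∈ LL P D, w / 16 * ((l.card : ℝ) * ((S l).card : ℝ)) :=
          sum_le_sum_of_subset_of_nonneg (filter_subset _ _) (fun _ _ _ => by positivity)
      _ = w / 16 * ∑ l ∈ LL P D, ((l.card : ℝ) * ((S l).card : ℝ)) := by rw [mul_sum]
      _ ≤ w / 16 * (2 * N ^ 2) := mul_le_mul_of_nonneg_left h2' (by positivity)
      _ = w / 8 * N ^ 2 := by ring
  have hsplit := sum_filter_add_sum_filter_not (LL P D)
    (fun l => w / 16 * (l.card : ℝ) ≤ ((S l).card : ℝ)) (fun l => ((S l).card : ℝ) ^ 2)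
  have hgood : w / 2 * N ^ 2 ≤ ∑ l ∈ G, ((S l).card : ℝ) ^ 2 := by
    have h3 : 0 ≤ w * N ^ 2 := by positivity
    rw [← hG] at hsplit
    linarith
  -- pairs
  obtain ⟨R, hRdef⟩ : ∃ R : X → X → Prop, ∀ p q, R p q ↔
      (p ∈ Y ∧ q ∈ Y ∧ (sep P D p q : ℝ) ≤ η * N ^ 2) := ⟨_, fun _ _ => Iff.rfl⟩
  have h4 : ∑ l ∈ G, ((S l).card : ℝ) ^ 2 / (64 * ((s : ℝ) + 1)) ≤
      ∑ l ∈ G, (((l ×ˢ l).filter (fun p => P p.1 ≠ P p.2 ∧ R p.1 p.2)).card : ℝ) := by
    refine sum_le_sum fun l hl => ?_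
    rw [hG, mem_filter] at hl
    exact BallAux.three P K D hw hη0 hη1 hη hK hl.1 (fun p => p ∈ Y) R
      (fun p q hp hq hpq => (hRdef p q).2 ⟨hp, hq, hpq⟩) hl.2
  have h5 := lineSum P D G (filter_subset _ _) R
  have h6 : (univ.filter (fun p : X × X => P p.1 ≠ P p.2 ∧ R p.1 p.2)).card ≤
      ∑ p : X, (Y.filter (fun q => (sep P D p q : ℝ) ≤ η * N ^ 2)).card := by
    have h7 := BallAux.card_pairs (univ : Finset X) univ (fun p q => P p ≠ P q ∧ R p q)
    rw [univ_product_univ] at h7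
    rw [h7]
    refine sum_le_sum fun p _ => card_le_card ?_
    intro q hq
    rw [mem_filter] at hq ⊢
    have h9 := (hRdef p q).1 hq.2.2
    exact ⟨h9.2.1, h9.2.2⟩
  have h7 : w / (128 * ((s : ℝ) + 1)) * N ^ 2 ≤
      ∑ p : X, ((Y.filter (fun q => (sep P D p q : ℝ) ≤ η * N ^ 2)).card : ℝ) := by
    have h8 : ∑ l ∈ G, (((l ×ˢ l).filter (fun p => P p.1 ≠ P p.2 ∧ R p.1 p.2)).card : ℝ) ≤
        ∑ p : X, ((Y.filter (fun q => (sep P D p q : ℝ) ≤ η * N ^ 2)).card : ℝ) := by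
      have h10 := (Nat.cast_le (α := ℝ)).2 (h5.trans h6)
      rw [Nat.cast_sum, Nat.cast_sum] at h10
      exact h10
    refine le_trans ?_ (h4.trans h8)
    rw [← sum_div, le_div_iff₀ (by positivity)]
    refine le_trans (le_of_eq ?_) hgood
    field_simp
    norm_num
  by_contra hc
  push Not at hc
  have hne : (univ : Finset X).Nonempty := by
    rw [← card_pos, card_univ]
    have h10 : (0 : ℝ) < (Fintype.card X : ℝ) := hN0
    exact_mod_cast h10
  have h8 := sum_lt_sum_of_nonempty hne (fun p _ => hc p)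
  rw [sum_const, card_univ, nsmul_eq_mul, ← hN] at h8
  have h9 : N * (w / (128 * ((s : ℝ) + 1)) * N) = w / (128 * ((s : ℝ) + 1)) * N ^ 2 := by ring
  linarith

end Pool.Agent.Lib.P0fc
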