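import Mathlib

/-!
# Constants for the barrier (pure analysis)

Let `lam ∈ (0, 1/8]` and `a = ε/(16 lam)`, with `lam` so small (i.e. `a` so large) that `a ≥ 1`,
`2 exp (-2 a) ≤ 1` and `48 exp (-a) ≤ lam/128` (possible: `a exp (-a) → 0` and `lam = ε/(16 a)`).
`δ = lam/128`.  For `L₀` with `lam L₀ ≥ 2` put
`f l = ⌈lam * sqrt (L₀ * max l L₀)⌉₊` (monotone), `qq l = 2 δ` for `l ≤ L₀` and
`qq l = 2 exp (- ε l / (4 (f l + 1)))` for `l > L₀`.
For `l > L₀`: `f l + 1 ≤ lam sqrt (L₀ l) + 2 ≤ 2 lam sqrt (L₀ l)`, so the exponent is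
`≥ 2 a sqrt (l/L₀)`, `qq l ≤ 2 exp (- 2 a sqrt (l/L₀)) ≤ 2 exp (-2a) ≤ 1`.
* With `s = sqrt (l/L₀) ≥ 1`: `exp (-2 a s) ≤ exp (-a) exp (-a s) ≤ exp (-a) * 24/(a s)^4`, so
  `∑_{l > L₀} qq l ≤ 48 exp (-a) L₀² ∑_{l > L₀} 1/l² ≤ 48 exp (-a) L₀ ≤ lam L₀/128`; and
  `∑_{l ≤ L₀} qq l ≤ 2 δ L₀ = lam L₀/64`.  So `32 ∑_{i ≤ l} qq i ≤ lam L₀` for every `l`.
* first sum: `(1/16)^(f l + 1) exp (lam L₀) ≤ (e/16)^(lam sqrt (L₀ max l L₀)) ≤ exp (- lam sqrt (L₀ max l L₀))`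
  (`e² < 16`, `L₀ ≤ sqrt (L₀ max l L₀)`).  The terms with `l ≤ L₀` contribute at most
  `(L₀ + 1)(2 L₀ + 4) exp (- lam L₀)`, the others, by `exp (-x) ≤ 8!/x^8`, at most
  `∑ (2 l + 4) 8!/(lam^8 L₀^4 l^4) ≤ C/(lam^8 L₀^4)`: both tend to `0` as `L₀ → ∞`.
* second sum: for `l > L₀`, `(2/qq l)^(f l + 1) = exp (ε l/4)` and `(1 - ε/2)^l ≤ exp (- ε l/2)`, so the
  sum is at most `∑_{l > L₀} 2 exp (- ε l/4) → 0` as `L₀ → ∞`.
* third sum: `2 qq l (2 l + 4) ≤ C_{L₀} (2 l + 4)/l^4` is summable; choose `l₀` large after `L₀`.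
First choose `L₀` for the given `τ`, then `l₀`.
-/

namespace Pool.Agent.Lib.P0fc

open Finset

namespace BarConstAux

theorem exp_neg_le {x : ℝ} (hx : 0 < x) (n : ℕ) :
    Real.exp (-x) ≤ (n.factorial : ℝ) / x ^ n := by
  have h1 := Real.pow_div_factorial_le_exp x hx.le n
  have h2 : (0 : ℝ) < n.factorial := by exact_mod_cast n.factorial_pos
  rw [Real.exp_neg, le_div_iff₀ (by positivity), inv_mul_le_iff₀ (Real.exp_pos x)]
  rwa [div_le_iff₀ h2] at h1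

theorem sum_inv_sq_le {M : ℕ} (hM : 1 ≤ M) (L : ℕ) :
    ∑ l ∈ Ioc M L, 1 / (l : ℝ) ^ 2 ≤ 1 / (M : ℝ) := by
  rcases le_total M L with h | h
  · have h1 := sum_Ioc_inv_sq_le_sub (α := ℝ) (k := M) (n := L) (by omega) h
    have h2 : (0 : ℝ) ≤ (L : ℝ)⁻¹ := by positivity
    simp only [one_div]
    linarith
  · rw [Ioc_eq_empty (by omega), sum_empty]
    positivity

theorem sum_range_le (L : ℕ) : ∑ l ∈ range L, 1 / ((l : ℝ) + 1) ^ 2 ≤ 2 := by
  have key : ∀ L : ℕ, ∑ l ∈ range (L + 1), 1 / ((l : ℝ) + 1) ^ 2 ≤ 2 - 1 / ((L : ℝ) + 1) := by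
    intro L
    induction L with
    | zero => norm_num
    | succ L ih =>
      rw [sum_range_succ]
      have hL : (0 : ℝ) ≤ L := Nat.cast_nonneg L
      have h1 : 1 / (((L + 1 : ℕ) : ℝ) + 1) ^ 2 ≤
          1 / ((L : ℝ) + 1) - 1 / (((L + 1 : ℕ) : ℝ) + 1) := by
        push_cast
        rw [div_sub_div _ _ (by positivity) (by positivity), div_le_div_iff₀ (by positivity)
          (by positivity)]
        nlinarith
      linarith
  rcases L with _ | L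
  · simp
  · have h := key L
    have h1 : (0 : ℝ) ≤ 1 / ((L : ℝ) + 1) := by positivity
    linarith

theorem exp_two_le : Real.exp 2 ≤ 16 := by
  have h1 := Real.exp_one_lt_d9
  have h2 : Real.exp 2 = Real.exp 1 ^ 2 := by
    rw [← Real.exp_nat_mul]
    norm_num
  rw [h2]
  have h3 := Real.exp_pos 1
  nlinarith

theorem sixteen (n : ℕ) : (1 / 16 : ℝ) ^ n ≤ Real.exp (-(2 * (n : ℝ))) := by
  have h1 : (1 / 16 : ℝ) ≤ Real.exp (-2) := by
    rw [Real.exp_neg, one_div]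
    exact inv_anti₀ (Real.exp_pos 2) exp_two_le
  have h2 : Real.exp (-(2 * (n : ℝ))) = Real.exp (-2) ^ n := by
    rw [← Real.exp_nat_mul]
    congr 1
    ring
  rw [h2]
  exact pow_le_pow_left₀ (by norm_num) h1 n

end BarConstAux

open BarConstAux

theorem bar_const (ε : ℝ) (hε : 0 < ε) (hε1 : ε ≤ 1) : ∃ δ : ℝ, 0 < δ ∧ δ ≤ 1 / 8 ∧
    ∀ τ : ℝ, 0 < τ → ∃ (L₀ l₀ : ℕ) (f : ℕ → ℕ) (qq : ℕ → ℝ), 1 ≤ L₀ ∧ L₀ ≤ l₀ ∧ Monotone f ∧
      (∀ l, 0 < qq l ∧ qq l ≤ 1) ∧ (∀ l, l ≤ L₀ → 2 * δ ≤ qq l) ∧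
      (∀ L : ℕ, ∑ l ∈ range L, (1 / 16 : ℝ) ^ (f l + 1) *
        Real.exp (32 * ∑ i ∈ Icc 1 l, qq i) * (2 * (l : ℝ) + 4) ≤ τ) ∧
      (∀ L : ℕ, ∑ l ∈ Ioc L₀ L, (2 / qq l) ^ (f l + 1) * (2 * (1 - ε / 2) ^ l) ≤ τ) ∧
      (∀ L : ℕ, ∑ l ∈ Ioc l₀ L, 2 * qq l * (2 * (l : ℝ) + 4) ≤ τ) := by
  obtain ⟨a, ha⟩ : ∃ a : ℝ, a = 196608 / ε := ⟨_, rfl⟩
  have haε : ε * a = 196608 := by
    rw [ha]
    field_simp
  have ha1 : 1 ≤ a := by
    rw [ha, le_div_iff₀ hε]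
    linarith
  have ha0 : 0 < a := by linarith
  obtain ⟨lam, hlam⟩ : ∃ lam : ℝ, lam = ε / (16 * a) := ⟨_, rfl⟩
  have hl0 : 0 < lam := by
    rw [hlam]
    positivity
  have hεl : ε = 16 * a * lam := by
    rw [hlam]
    field_simp
  have hl1 : lam ≤ 1 / 16 := by
    rw [hlam, div_le_iff₀ (by positivity)]
    linarith
  have hsmall : 48 * Real.exp (-a) ≤ lam / 128 := by
    have h1 := exp_neg_le ha0 2
    have h2 : ((2 : ℕ).factorial : ℝ) = 2 := by norm_num [Nat.factorial]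
    rw [h2] at h1
    have h3 : lam / 128 = 48 * (2 / a ^ 2) := by
      rw [hlam]
      field_simp
      linarith
    rw [h3]
    linarith
  refine ⟨lam / 128, by positivity, by linarith, ?_⟩
  intro τ hτ
  -- the choice of `L₀`
  obtain ⟨L₀, hL₀⟩ := exists_nat_ge (2 / lam + 64 * 40320 / (lam ^ 8 * τ) +
    64 / (ε ^ 2 * τ) + 1)
  have p1 : 0 < 2 / lam := by positivity
  have p2 : 0 < 64 * 40320 / (lam ^ 8 * τ) := by positivity
  have p3 : 0 < 64 / (ε ^ 2 * τ) := by positivity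
  have hL1 : (1 : ℝ) ≤ L₀ := by linarith
  have hL1' : 1 ≤ L₀ := by exact_mod_cast hL1
  have hL0 : (0 : ℝ) < L₀ := by linarith
  have hLa : 2 ≤ lam * L₀ := by
    have h1 : 2 / lam ≤ L₀ := by linarith
    rw [div_le_iff₀ hl0] at h1
    linarith
  have hLb : 64 * 40320 ≤ L₀ * (lam ^ 8 * τ) := by
    have h1 : 64 * 40320 / (lam ^ 8 * τ) ≤ L₀ := by linarith
    rwa [div_le_iff₀ (by positivity)] at h1
  have hLc : 64 ≤ L₀ * (ε ^ 2 * τ) := by
    have h1 : 64 / (ε ^ 2 * τ) ≤ L₀ := by linarith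
    rwa [div_le_iff₀ (by positivity)] at h1
  obtain ⟨l₀, hl₀⟩ := exists_nat_ge (17280 * (L₀ : ℝ) ^ 3 / τ + L₀)
  have p4 : 0 < 17280 * (L₀ : ℝ) ^ 3 / τ := by positivity
  have hLl : L₀ ≤ l₀ := by
    have h1 : (L₀ : ℝ) ≤ l₀ := by linarith
    exact_mod_cast h1
  have hl₀1 : 1 ≤ l₀ := hL1'.trans hLl
  have hld : 17280 * (L₀ : ℝ) ^ 3 ≤ l₀ * τ := by
    have h1 : 17280 * (L₀ : ℝ) ^ 3 / τ ≤ l₀ := by linarith
    rwa [div_le_iff₀ hτ] at h1
  -- the functions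
  obtain ⟨R, hR⟩ : ∃ R : ℕ → ℝ, R = fun l : ℕ => Real.sqrt ((L₀ : ℝ) * max (l : ℝ) L₀) :=
    ⟨_, rfl⟩
  have hmx : ∀ l : ℕ, (L₀ : ℝ) ≤ max (l : ℝ) L₀ := fun l => le_max_right _ _
  have hRsq : ∀ l, R l ^ 2 = L₀ * max (l : ℝ) L₀ := by
    intro l
    rw [hR]
    refine Real.sq_sqrt ?_
    have := hmx l
    have h2 : 0 ≤ max (l : ℝ) L₀ := by linarith
    positivity
  have hR0 : ∀ l, 0 ≤ R l := by
    intro l
    rw [hR]
    exact Real.sqrt_nonneg _
  have hRL : ∀ l, (L₀ : ℝ) ≤ R l := by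
    intro l
    refine le_of_sq_le_sq ?_ (hR0 l)
    rw [hRsq, sq]
    exact mul_le_mul_of_nonneg_left (hmx l) hL0.le
  obtain ⟨f, hf⟩ : ∃ f : ℕ → ℕ, f = fun l : ℕ => ⌈lam * R l⌉₊ := ⟨_, rfl⟩
  have hf1 : ∀ l, lam * R l ≤ f l := by
    intro l
    rw [hf]
    exact Nat.le_ceil _
  have hf2 : ∀ l, (f l : ℝ) < lam * R l + 1 := by
    intro l
    rw [hf]
    exact Nat.ceil_lt_add_one (mul_nonneg hl0.le (hR0 l))
  have hmono : Monotone f := by
    intro l l' hll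
    rw [hf]
    refine Nat.ceil_mono (mul_le_mul_of_nonneg_left ?_ hl0.le)
    rw [hR]
    refine Real.sqrt_le_sqrt (mul_le_mul_of_nonneg_left (max_le_max ?_ le_rfl) hL0.le)
    exact_mod_cast hll
  obtain ⟨qq, hqq⟩ : ∃ qq : ℕ → ℝ, qq = fun l : ℕ => if l ≤ L₀ then 2 * (lam / 128) else
      2 * Real.exp (-(ε * l / (4 * ((f l : ℝ) + 1)))) := ⟨_, rfl⟩
  have hq1 : ∀ l, l ≤ L₀ → qq l = 2 * (lam / 128) := by
    intro l hl
    rw [hqq]
    exact if_pos hl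
  have hq2 : ∀ l, L₀ < l → qq l = 2 * Real.exp (-(ε * l / (4 * ((f l : ℝ) + 1)))) := by
    intro l hl
    rw [hqq]
    exact if_neg (by omega)
  -- the key estimate
  have key : ∀ l : ℕ, L₀ < l → ∃ s : ℝ, 1 ≤ s ∧ s ^ 2 * L₀ = l ∧
      qq l ≤ 2 * Real.exp (-(2 * a * s)) := by
    intro l hl
    have hlL : (L₀ : ℝ) < l := by exact_mod_cast hl
    have hmax : max (l : ℝ) L₀ = l := max_eq_left hlL.le
    have hRl := hRsq l
    rw [hmax] at hRl
    have hRp : 0 < R l := lt_of_lt_of_le hL0 (hRL l)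
    have hs2 : ((l : ℝ) / R l) ^ 2 * L₀ = l := by
      rw [div_pow, hRl]
      field_simp
    have hs1 : 1 ≤ (l : ℝ) / R l := by
      rw [le_div_iff₀ hRp, one_mul]
      refine le_of_sq_le_sq ?_ (by positivity)
      rw [hRl, sq]
      exact mul_le_mul_of_nonneg_right hlL.le (by positivity)
    refine ⟨l / R l, hs1, hs2, ?_⟩
    rw [hq2 l hl]
    refine mul_le_mul_of_nonneg_left (Real.exp_le_exp.2 (neg_le_neg ?_)) (by norm_num)
    have h1 : (f l : ℝ) + 1 ≤ 2 * lam * R l := by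
      have h2 := hf2 l
      have h3 : lam * L₀ ≤ lam * R l := mul_le_mul_of_nonneg_left (hRL l) hl0.le
      linarith
    have hfp : (0 : ℝ) < (f l : ℝ) + 1 := by positivity
    rw [le_div_iff₀ (by positivity)]
    calc 2 * a * ((l : ℝ) / R l) * (4 * ((f l : ℝ) + 1)) ≤
        2 * a * ((l : ℝ) / R l) * (4 * (2 * lam * R l)) :=
          mul_le_mul_of_nonneg_left (by linarith) (by positivity)
      _ = 16 * a * lam * l := by
          field_simp
          ring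
      _ = ε * l := by rw [← hεl]
  have hqpos : ∀ l, 0 < qq l := by
    intro l
    rcases le_or_gt l L₀ with h | h
    · rw [hq1 l h]
      positivity
    · rw [hq2 l h]
      positivity
  have hqle : ∀ l, qq l ≤ 1 := by
    intro l
    rcases le_or_gt l L₀ with h | h
    · rw [hq1 l h]
      linarith
    · obtain ⟨s, hs1, -, hs⟩ := key l h
      refine hs.trans ?_
      have has : 1 ≤ a * s := by nlinarith
      have h1 := Real.add_one_le_exp (2 * a * s)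
      rw [Real.exp_neg, ← div_eq_mul_inv, div_le_one (Real.exp_pos _)]
      linarith
  have hqA : ∀ l : ℕ, L₀ < l → qq l ≤ (lam / 128 * (L₀ : ℝ) ^ 2) * (1 / (l : ℝ) ^ 2) := by
    intro l hl
    obtain ⟨s, hs1, hs2, hs⟩ := key l hl
    have hlp : (0 : ℝ) < l := by
      have : (0 : ℕ) < l := by omega
      exact_mod_cast this
    have hs0 : 0 < s := by linarith
    have h1 : Real.exp (-(2 * a * s)) = Real.exp (-(a * s)) * Real.exp (-(a * s)) := by
      rw [← Real.exp_add]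
      congr 1
      ring
    have h2 : Real.exp (-(a * s)) ≤ Real.exp (-a) := by
      refine Real.exp_le_exp.2 (neg_le_neg ?_)
      nlinarith
    have h3 : Real.exp (-(a * s)) ≤ 24 / s ^ 4 := by
      have h4 := exp_neg_le (mul_pos ha0 hs0) 4
      have h5 : ((4 : ℕ).factorial : ℝ) = 24 := by norm_num [Nat.factorial]
      rw [h5] at h4
      refine h4.trans ?_
      refine div_le_div_of_nonneg_left (by norm_num) (by positivity) ?_
      refine pow_le_pow_left₀ hs0.le ?_ 4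
      nlinarith
    have h6 : 24 / s ^ 4 = 24 * (L₀ : ℝ) ^ 2 * (1 / (l : ℝ) ^ 2) := by
      rw [← hs2]
      field_simp
    calc qq l ≤ 2 * Real.exp (-(2 * a * s)) := hs
      _ = 2 * (Real.exp (-(a * s)) * Real.exp (-(a * s))) := by rw [h1]
      _ ≤ 2 * (Real.exp (-a) * (24 / s ^ 4)) := by
          refine mul_le_mul_of_nonneg_left ?_ (by norm_num)
          exact mul_le_mul h2 h3 (Real.exp_pos _).le (Real.exp_pos _).le
      _ = 48 * Real.exp (-a) * ((L₀ : ℝ) ^ 2 * (1 / (l : ℝ) ^ 2)) := by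
          rw [h6]
          ring
      _ ≤ lam / 128 * ((L₀ : ℝ) ^ 2 * (1 / (l : ℝ) ^ 2)) :=
          mul_le_mul_of_nonneg_right hsmall (by positivity)
      _ = _ := by ring
  have hqB : ∀ l : ℕ, L₀ < l → qq l * (l : ℝ) ^ 3 ≤ 1440 * (L₀ : ℝ) ^ 3 := by
    intro l hl
    obtain ⟨s, hs1, hs2, hs⟩ := key l hl
    have hlp : (0 : ℝ) < l := by
      have : (0 : ℕ) < l := by omega
      exact_mod_cast this
    have hs0 : 0 < s := by linarith
    have h3 : Real.exp (-(2 * a * s)) ≤ 720 / s ^ 6 := by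
      have h4 := exp_neg_le (x := 2 * a * s) (by positivity) 6
      have h5 : ((6 : ℕ).factorial : ℝ) = 720 := by norm_num [Nat.factorial]
      rw [h5] at h4
      refine h4.trans ?_
      refine div_le_div_of_nonneg_left (by norm_num) (by positivity) ?_
      refine pow_le_pow_left₀ hs0.le ?_ 6
      nlinarith
    have h6 : 720 / s ^ 6 * (l : ℝ) ^ 3 = 720 * (L₀ : ℝ) ^ 3 := by
      rw [← hs2]
      field_simp
    calc qq l * (l : ℝ) ^ 3 ≤ 2 * (720 / s ^ 6) * (l : ℝ) ^ 3 := by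
          refine mul_le_mul_of_nonneg_right ?_ (by positivity)
          linarith
      _ = 2 * (720 / s ^ 6 * (l : ℝ) ^ 3) := by ring
      _ = 1440 * (L₀ : ℝ) ^ 3 := by
          rw [h6]
          ring
  -- the sum of the `qq i`
  have hsum : ∀ l : ℕ, 32 * ∑ i ∈ Icc 1 l, qq i ≤ lam * L₀ := by
    intro l
    have hsub : Icc 1 l ⊆ Icc 1 L₀ ∪ Ioc L₀ l := by
      intro i hi
      rw [mem_Icc] at hi
      rw [mem_union, mem_Icc, mem_Ioc]
      omega
    have hdis : Disjoint (Icc 1 L₀) (Ioc L₀ l) := by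
      rw [disjoint_left]
      intro i h1 h2
      rw [mem_Icc] at h1
      rw [mem_Ioc] at h2
      omega
    have h1 : ∑ i ∈ Icc 1 l, qq i ≤ ∑ i ∈ Icc 1 L₀, qq i + ∑ i ∈ Ioc L₀ l, qq i := by
      rw [← sum_union hdis]
      exact sum_le_sum_of_subset_of_nonneg hsub fun i _ _ => (hqpos i).le
    have h2 : ∑ i ∈ Icc 1 L₀, qq i = L₀ * (2 * (lam / 128)) := by
      rw [sum_congr rfl fun i hi => hq1 i (mem_Icc.1 hi).2, sum_const, Nat.card_Icc,
        nsmul_eq_mul]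
      congr 1
    have h3 : ∑ i ∈ Ioc L₀ l, qq i ≤ lam / 128 * L₀ := by
      calc ∑ i ∈ Ioc L₀ l, qq i ≤
          ∑ i ∈ Ioc L₀ l, (lam / 128 * (L₀ : ℝ) ^ 2) * (1 / (i : ℝ) ^ 2) :=
            sum_le_sum fun i hi => hqA i (mem_Ioc.1 hi).1
        _ = (lam / 128 * (L₀ : ℝ) ^ 2) * ∑ i ∈ Ioc L₀ l, 1 / (i : ℝ) ^ 2 := by
            rw [mul_sum]
        _ ≤ (lam / 128 * (L₀ : ℝ) ^ 2) * (1 / L₀) :=
            mul_le_mul_of_nonneg_left (sum_inv_sq_le hL1' l) (by positivity)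
        _ = lam / 128 * L₀ := by field_simp
    have h4 : 0 ≤ lam * L₀ := by positivity
    rw [h2] at h1
    linarith
  refine ⟨L₀, l₀, f, qq, hL1', hLl, hmono, fun l => ⟨hqpos l, hqle l⟩,
    fun l hl => (hq1 l hl).ge, ?_, ?_, ?_⟩
  · -- first sum
    intro L
    have hterm : ∀ l ∈ range L, (1 / 16 : ℝ) ^ (f l + 1) *
        Real.exp (32 * ∑ i ∈ Icc 1 l, qq i) * (2 * (l : ℝ) + 4) ≤
        32 * 40320 / (lam ^ 8 * L₀) * (1 / ((l : ℝ) + 1) ^ 2) := by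
      intro l _
      obtain ⟨M, hM⟩ : ∃ M : ℝ, M = max (l : ℝ) L₀ := ⟨_, rfl⟩
      have hM1 : (l : ℝ) ≤ M := by rw [hM]; exact le_max_left _ _
      have hM2 : (L₀ : ℝ) ≤ M := by rw [hM]; exact le_max_right _ _
      have hM3 : 1 ≤ M := hL1.trans hM2
      have hl' : (0 : ℝ) ≤ l := Nat.cast_nonneg l
      have hRl := hRsq l
      rw [← hM] at hRl
      have hRp : 0 < R l := lt_of_lt_of_le hL0 (hRL l)
      have h1 := sixteen (f l + 1)
      have h2 : Real.exp (-(2 * ((f l + 1 : ℕ) : ℝ))) ≤ Real.exp (-(2 * (lam * R l))) := by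
        refine Real.exp_le_exp.2 ?_
        have := hf1 l
        push_cast
        linarith
      have h3 : Real.exp (32 * ∑ i ∈ Icc 1 l, qq i) ≤ Real.exp (lam * R l) := by
        refine Real.exp_le_exp.2 ((hsum l).trans ?_)
        exact mul_le_mul_of_nonneg_left (hRL l) hl0.le
      have h4 : (1 / 16 : ℝ) ^ (f l + 1) * Real.exp (32 * ∑ i ∈ Icc 1 l, qq i) ≤
          Real.exp (-(lam * R l)) := by
        calc (1 / 16 : ℝ) ^ (f l + 1) * Real.exp (32 * ∑ i ∈ Icc 1 l, qq i) ≤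
            Real.exp (-(2 * (lam * R l))) * Real.exp (lam * R l) :=
              mul_le_mul (h1.trans h2) h3 (Real.exp_pos _).le (Real.exp_pos _).le
          _ = Real.exp (-(lam * R l)) := by
              rw [← Real.exp_add]
              congr 1
              ring
      have h5 : Real.exp (-(lam * R l)) ≤ 40320 / (lam ^ 8 * ((L₀ : ℝ) ^ 4 * M ^ 4)) := by
        have h6 := exp_neg_le (mul_pos hl0 hRp) 8
        have h7 : ((8 : ℕ).factorial : ℝ) = 40320 := by norm_num [Nat.factorial]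
        have h8 : (lam * R l) ^ 8 = lam ^ 8 * ((L₀ : ℝ) ^ 4 * M ^ 4) := by
          have h9 : (lam * R l) ^ 8 = lam ^ 8 * (R l ^ 2) ^ 4 := by ring
          rw [h9, hRl]
          ring
        rwa [h7, h8] at h6
      have h10 : (2 * (l : ℝ) + 4) * ((l : ℝ) + 1) ^ 2 * L₀ ≤ 32 * ((L₀ : ℝ) ^ 4 * M ^ 4) := by
        have a1 : 2 * (l : ℝ) + 4 ≤ 8 * M := by linarith
        have a2 : ((l : ℝ) + 1) ^ 2 ≤ 4 * M ^ 2 := by
          have a3 : (l : ℝ) + 1 ≤ 2 * M := by linarith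
          have a4 := pow_le_pow_left₀ (by positivity) a3 2
          linarith
        have a5 : (L₀ : ℝ) ≤ (L₀ : ℝ) ^ 4 := le_self_pow₀ hL1 (by norm_num)
        have a6 : M ^ 3 ≤ M ^ 4 := pow_le_pow_right₀ hM3 (by norm_num)
        calc (2 * (l : ℝ) + 4) * ((l : ℝ) + 1) ^ 2 * L₀ ≤ 8 * M * (4 * M ^ 2) * (L₀ : ℝ) ^ 4 := by
              gcongr
          _ = 32 * ((L₀ : ℝ) ^ 4 * M ^ 3) := by ring
          _ ≤ 32 * ((L₀ : ℝ) ^ 4 * M ^ 4) := by gcongr
      calc (1 / 16 : ℝ) ^ (f l + 1) * Real.exp (32 * ∑ i ∈ Icc 1 l, qq i) * (2 * (l : ℝ) + 4) ≤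
          40320 / (lam ^ 8 * ((L₀ : ℝ) ^ 4 * M ^ 4)) * (2 * (l : ℝ) + 4) :=
            mul_le_mul_of_nonneg_right (h4.trans h5) (by positivity)
        _ ≤ 32 * 40320 / (lam ^ 8 * L₀) * (1 / ((l : ℝ) + 1) ^ 2) := by
            rw [div_mul_eq_mul_div, div_mul_div_comm, div_le_div_iff₀ (by positivity)
              (by positivity)]
            calc 40320 * (2 * (l : ℝ) + 4) * (lam ^ 8 * L₀ * ((l : ℝ) + 1) ^ 2) =
                40320 * lam ^ 8 * ((2 * (l : ℝ) + 4) * ((l : ℝ) + 1) ^ 2 * L₀) := by ring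
              _ ≤ 40320 * lam ^ 8 * (32 * ((L₀ : ℝ) ^ 4 * M ^ 4)) :=
                  mul_le_mul_of_nonneg_left h10 (by positivity)
              _ = 32 * 40320 * 1 * (lam ^ 8 * ((L₀ : ℝ) ^ 4 * M ^ 4)) := by ring
    calc ∑ l ∈ range L, (1 / 16 : ℝ) ^ (f l + 1) *
        Real.exp (32 * ∑ i ∈ Icc 1 l, qq i) * (2 * (l : ℝ) + 4) ≤
        ∑ l ∈ range L, 32 * 40320 / (lam ^ 8 * L₀) * (1 / ((l : ℝ) + 1) ^ 2) :=
          sum_le_sum hterm
      _ = 32 * 40320 / (lam ^ 8 * L₀) * ∑ l ∈ range L, 1 / ((l : ℝ) + 1) ^ 2 := by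
          rw [mul_sum]
      _ ≤ 32 * 40320 / (lam ^ 8 * L₀) * 2 :=
          mul_le_mul_of_nonneg_left (sum_range_le L) (by positivity)
      _ ≤ τ := by
          rw [div_mul_eq_mul_div, div_le_iff₀ (by positivity)]
          linarith
  · -- second sum
    intro L
    have hterm : ∀ l ∈ Ioc L₀ L, (2 / qq l) ^ (f l + 1) * (2 * (1 - ε / 2) ^ l) ≤
        64 / ε ^ 2 * (1 / (l : ℝ) ^ 2) := by
      intro l hl
      have hl' := (mem_Ioc.1 hl).1
      have hlp : (0 : ℝ) < l := by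
        have : (0 : ℕ) < l := by omega
        exact_mod_cast this
      have hfp : (0 : ℝ) < (f l : ℝ) + 1 := by positivity
      have h1 : (2 / qq l) ^ (f l + 1) = Real.exp (ε * l / 4) := by
        rw [hq2 l hl', Real.exp_neg]
        have e1 : 2 / (2 * (Real.exp (ε * l / (4 * ((f l : ℝ) + 1))))⁻¹) =
            Real.exp (ε * l / (4 * ((f l : ℝ) + 1))) := by
          have := Real.exp_pos (ε * l / (4 * ((f l : ℝ) + 1)))
          field_simp
        rw [e1, ← Real.exp_nat_mul]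
        congr 1
        push_cast
        field_simp
      have h2 : (1 - ε / 2) ^ l ≤ Real.exp (-(ε * l / 2)) := by
        have h3 : 1 - ε / 2 ≤ Real.exp (-(ε / 2)) := by
          have := Real.add_one_le_exp (-(ε / 2))
          linarith
        have h4 : Real.exp (-(ε * l / 2)) = Real.exp (-(ε / 2)) ^ l := by
          rw [← Real.exp_nat_mul]
          congr 1
          ring
        rw [h4]
        exact pow_le_pow_left₀ (by linarith) h3 l
      have h5 : Real.exp (-(ε * l / 4)) ≤ 2 / (ε * l / 4) ^ 2 := by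
        have h6 := exp_neg_le (x := ε * l / 4) (by positivity) 2
        have h7 : ((2 : ℕ).factorial : ℝ) = 2 := by norm_num [Nat.factorial]
        rwa [h7] at h6
      rw [h1]
      calc Real.exp (ε * l / 4) * (2 * (1 - ε / 2) ^ l) ≤
          Real.exp (ε * l / 4) * (2 * Real.exp (-(ε * l / 2))) :=
            mul_le_mul_of_nonneg_left (by linarith) (Real.exp_pos _).le
        _ = 2 * Real.exp (-(ε * l / 4)) := by
            have e2 : Real.exp (-(ε * l / 4)) =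
                Real.exp (ε * l / 4) * Real.exp (-(ε * l / 2)) := by
              rw [← Real.exp_add]
              congr 1
              ring
            rw [e2]
            ring
        _ ≤ 2 * (2 / (ε * l / 4) ^ 2) := by linarith
        _ = 64 / ε ^ 2 * (1 / (l : ℝ) ^ 2) := by
            field_simp
            norm_num
    calc ∑ l ∈ Ioc L₀ L, (2 / qq l) ^ (f l + 1) * (2 * (1 - ε / 2) ^ l) ≤
        ∑ l ∈ Ioc L₀ L, 64 / ε ^ 2 * (1 / (l : ℝ) ^ 2) := sum_le_sum hterm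
      _ = 64 / ε ^ 2 * ∑ l ∈ Ioc L₀ L, 1 / (l : ℝ) ^ 2 := by rw [mul_sum]
      _ ≤ 64 / ε ^ 2 * (1 / L₀) :=
          mul_le_mul_of_nonneg_left (sum_inv_sq_le hL1' L) (by positivity)
      _ ≤ τ := by
          rw [div_mul_div_comm, div_le_iff₀ (by positivity)]
          linarith
  · -- third sum
    intro L
    have hterm : ∀ l ∈ Ioc l₀ L, 2 * qq l * (2 * (l : ℝ) + 4) ≤
        17280 * (L₀ : ℝ) ^ 3 * (1 / (l : ℝ) ^ 2) := by
      intro l hl
      have hl' : L₀ < l := lt_of_le_of_lt hLl (mem_Ioc.1 hl).1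
      have hl1 : (1 : ℝ) ≤ l := by
        have : (1 : ℕ) ≤ l := by omega
        exact_mod_cast this
      have hlp : (0 : ℝ) < l := by linarith
      have h1 := hqB l hl'
      have h2 := (hqpos l).le
      rw [mul_one_div, le_div_iff₀ (by positivity)]
      calc 2 * qq l * (2 * (l : ℝ) + 4) * (l : ℝ) ^ 2 ≤ 2 * qq l * (6 * l) * (l : ℝ) ^ 2 := by
            refine mul_le_mul_of_nonneg_right ?_ (by positivity)
            exact mul_le_mul_of_nonneg_left (by linarith) (by positivity)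
        _ = 12 * (qq l * (l : ℝ) ^ 3) := by ring
        _ ≤ 12 * (1440 * (L₀ : ℝ) ^ 3) := mul_le_mul_of_nonneg_left h1 (by norm_num)
        _ = 17280 * (L₀ : ℝ) ^ 3 := by ring
    have hl₀p : (0 : ℝ) < l₀ := by
      have : (0 : ℕ) < l₀ := by omega
      exact_mod_cast this
    calc ∑ l ∈ Ioc l₀ L, 2 * qq l * (2 * (l : ℝ) + 4) ≤
        ∑ l ∈ Ioc l₀ L, 17280 * (L₀ : ℝ) ^ 3 * (1 / (l : ℝ) ^ 2) := sum_le_sum hterm
      _ = 17280 * (L₀ : ℝ) ^ 3 * ∑ l ∈ Ioc l₀ L, 1 / (l : ℝ) ^ 2 := by rw [mul_sum]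
      _ ≤ 17280 * (L₀ : ℝ) ^ 3 * (1 / l₀) :=
          mul_le_mul_of_nonneg_left (sum_inv_sq_le hl₀1 L) (by positivity)
      _ ≤ τ := by
          rw [mul_one_div, div_le_iff₀ hl₀p]
          linarith

end Pool.Agent.Lib.P0fc
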