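import Mathlib

/-!
# The barrier argument for one sequence

Show by strong induction for `l ≤ lm`: `er l ≤ f l` if `1 ≤ l` (`er 0 = 0`) and `sz i ≤ qq i` for all
`1 ≤ i ≤ l`.  Step: `er l ≤ er (l-1) + 1 ≤ f (l-1) + 1 ≤ f l + 1` (or `er 0 + 1 = 1` if `l = 1`), so
`sz l ≤ qq l` by `hMB`; then every `i ≤ l` with `H i` is light, and `er l ≤ #{i ∈ Icc 1 l | H i}`
(telescoping `hstep`) `= #{i ∈ Icc 1 l | H i ∧ sz i ≤ qq i} ≤ f l`.
For `l > l₀`: `H l` would be light, excluded by `hno`; so `er l ≤ er (l-1) ≤ ... ≤ er l₀ ≤ f l₀`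
(if `l₀ = 0` then `er 0 = 0`).
-/

namespace Pool.Agent.Lib.P0fc

open Finset

open Classical in
theorem bar_det (er : ℕ → ℕ) (H : ℕ → Prop) (sz qq : ℕ → ℝ) (f : ℕ → ℕ) (l₀ lm : ℕ)
    (hf : Monotone f) (h0 : er 0 = 0)
    (hstep : ∀ l, 1 ≤ l → l ≤ lm → er l ≤ er (l - 1) + (if H l then 1 else 0))
    (hMB : ∀ l, 1 ≤ l → l ≤ lm → er l ≤ f l + 1 → sz l ≤ qq l)
    (hcnt : ∀ l, 1 ≤ l → l ≤ lm → ((Icc 1 l).filter (fun i => H i ∧ sz i ≤ qq i)).card ≤ f l)
    (hno : ∀ l, l₀ < l → l ≤ lm → ¬ (H l ∧ sz l ≤ qq l)) :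
    ∀ l, l₀ ≤ l → l ≤ lm → er l ≤ f l₀ := by
  have key : ∀ l, l ≤ lm → (1 ≤ l → er l ≤ f l) ∧ (∀ i, 1 ≤ i → i ≤ l → sz i ≤ qq i) ∧
      er l ≤ ((Icc 1 l).filter H).card := by
    intro l
    induction l with
    | zero =>
      intro _
      refine ⟨fun h => absurd h (by norm_num), fun i h1 h2 => absurd h2 (by omega), ?_⟩
      rw [h0]
      exact Nat.zero_le _
    | succ l ih =>
      intro hl
      obtain ⟨ih1, ih2, ih3⟩ := ih (by omega)
      have hs := hstep (l + 1) (by omega) hl
      rw [Nat.add_sub_cancel] at hs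
      have hle1 : er (l + 1) ≤ er l + 1 := by
        refine hs.trans ?_
        split_ifs <;> omega
      have hle2 : er l ≤ f (l + 1) := by
        rcases Nat.eq_zero_or_pos l with h | h
        · subst h
          rw [h0]
          exact Nat.zero_le _
        · exact (ih1 h).trans (hf (Nat.le_succ l))
      have hsz := hMB (l + 1) (by omega) hl (by omega)
      have hall : ∀ i, 1 ≤ i → i ≤ l + 1 → sz i ≤ qq i := by
        intro i h1 h2
        rcases Nat.lt_or_ge i (l + 1) with h | h
        · exact ih2 i h1 (by omega)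
        · have : i = l + 1 := by omega
          rw [this]
          exact hsz
      have hcard : er (l + 1) ≤ ((Icc 1 (l + 1)).filter H).card := by
        have hI : Icc 1 (l + 1) = insert (l + 1) (Icc 1 l) := by
          ext x
          simp only [mem_insert, mem_Icc]
          omega
        rw [hI, filter_insert]
        by_cases hH : H (l + 1)
        · rw [if_pos hH, card_insert_of_notMem]
          · rw [if_pos hH] at hs
            omega
          · simp
        · rw [if_neg hH]
          rw [if_neg hH] at hs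
          omega
      have heq : (Icc 1 (l + 1)).filter H = (Icc 1 (l + 1)).filter (fun i => H i ∧ sz i ≤ qq i) := by
        apply filter_congr
        intro i hi
        rw [mem_Icc] at hi
        exact ⟨fun h => ⟨h, hall i hi.1 hi.2⟩, fun h => h.1⟩
      refine ⟨fun _ => ?_, hall, hcard⟩
      refine hcard.trans ?_
      rw [heq]
      exact hcnt (l + 1) (by omega) hl
  intro l hl
  induction l, hl using Nat.le_induction with
  | base =>
    intro hlm
    rcases Nat.eq_zero_or_pos l₀ with h | h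
    · rw [h, h0]
      exact Nat.zero_le _
    · exact (key l₀ hlm).1 h
  | succ l hl ih =>
    intro hlm
    have hs := hstep (l + 1) (by omega) hlm
    rw [Nat.add_sub_cancel] at hs
    have hsz := (key (l + 1) hlm).2.1 (l + 1) (by omega) le_rfl
    have hH : ¬ H (l + 1) := fun h => hno (l + 1) (by omega) hlm ⟨h, hsz⟩
    rw [if_neg hH, add_zero] at hs
    exact hs.trans (ih (by omega))

end Pool.Agent.Lib.P0fc
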