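import Mathlib
import Pool.Agent.Lib.P0fc.Mat

/-!
# Consequences of the assumptions

`PP (∃ t < M, Ex) ≥ 1 - ν ≥ 7/8 > 0`, so there are `e` and `t < M` with `Ex e t`, hence `β + σ ≤ t < M`
(`Ex.ge`).  `8 ≤ 1/ν ≤ β` (from `1 ≤ ν β`, `ν ≤ 1/8`), `M ≤ M₂ ≤ ν N`, so `8 M ≤ N` and `M < N` (`0 < M`).
`σ ≤ ν β ≤ ν M ≤ ν * (ν N) ≤ ν N`, `(σ : ℝ) ≤ β/8`.  For `t ≤ M`: `2 ε t ≤ 2 ε M₂ ≤ β`, so
`ε t + σ + 1 ≤ β/2 + β/8 + β/8 ≤ β`.
`sumEx`: `∑_{t < M} PP (Ex e t ∧ A t e) ≤ PP (∃ t < M, ...) ≤ 1`, by the uniqueness of the exit.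
`Bs_le`: `|Bs (Y t)| ≤ |Bs (Y M₂)|` for `t ≤ M₂` and `PP (σ < |Bs (Y M₂)|) ≤ ν` (`PP_add_not`).
-/

namespace Pool.Agent.Lib.P0fc

open Finset Pool.Agent.Lib.P0fb

section

variable {α : Type} [Fintype α] [DecidableEq α] {E : Type} [AddCommGroup E] [Module ℝ E]
variable {v : α → E} {N M M₂ β σ : ℕ} {ε ν : ℝ}

theorem GoodFAux.lt (h : Good v N M M₂ β σ ε ν) : β + σ < M := by
  by_contra hcon
  have h0 : PP (fun e : Fin N ≃ α => ∃ t < M, Ex v β σ e t) = 0 := by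
    unfold PP
    rw [← EE_const (α := α) h.card (0 : ℝ)]
    refine EE_congr fun e => ind_not_of ?_
    rintro ⟨t, ht, hE⟩
    have := hE.ge
    omega
  have h1 := h.hE
  rw [h0] at h1
  have := h.hν1
  linarith

theorem Good.lt (h : Good v N M M₂ β σ ε ν) : β + σ < M := GoodFAux.lt h

theorem GoodFAux.invpos (h : Good v N M M₂ β σ ε ν) : 0 < 1 / ν := one_div_pos.2 h.hν

theorem Good.M8 (h : Good v N M M₂ β σ ε ν) : 8 * M ≤ N ∧ M < N := by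
  have h1 := h.lt
  have h2 := h.hM
  have h3 := h.hN
  have h4 := GoodFAux.invpos h
  have h5 : ν * (N : ℝ) ≤ 1 / 8 * N := mul_le_mul_of_nonneg_right h.hν1 (Nat.cast_nonneg _)
  have h6 : 8 * (M : ℝ) ≤ N := by linarith
  have h7 : 8 * M ≤ N := by exact_mod_cast h6
  exact ⟨h7, by omega⟩

theorem Good.Mle (h : Good v N M M₂ β σ ε ν) : M ≤ M₂ := by
  have h2 := h.hM
  have h4 := GoodFAux.invpos h
  have : (M : ℝ) ≤ M₂ := by linarith
  exact_mod_cast this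

theorem Good.inv (h : Good v N M M₂ β σ ε ν) {k : ℕ} (hk : (k : ℝ) * ν ≤ 1) : k ≤ β := by
  have h1 := h.h1
  have h2 : (k : ℝ) * ν ≤ β * ν := by linarith
  have h3 : (k : ℝ) ≤ β := le_of_mul_le_mul_right h2 h.hν
  exact_mod_cast h3

theorem GoodFAux.nub (h : Good v N M M₂ β σ ε ν) : ν * (β : ℝ) ≤ β / 8 := by
  have := mul_le_mul_of_nonneg_right h.hν1 (Nat.cast_nonneg (α := ℝ) β)
  linarith

theorem Good.σβ (h : Good v N M M₂ β σ ε ν) : σ ≤ β := by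
  have h1 := h.hσ
  have h2 := GoodFAux.nub h
  have h3 : (0 : ℝ) ≤ β := Nat.cast_nonneg _
  have : (σ : ℝ) ≤ β := by linarith
  exact_mod_cast this

theorem GoodFAux.MN (h : Good v N M M₂ β σ ε ν) : (M : ℝ) ≤ ν * N := by
  have h2 := h.hM
  have h3 := h.hN
  have h4 := GoodFAux.invpos h
  linarith

theorem GoodFAux.βN (h : Good v N M M₂ β σ ε ν) : (β : ℝ) ≤ ν * N := by
  have h1 := h.lt
  have h2 : (β : ℝ) ≤ M := by exact_mod_cast (by omega : β ≤ M)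
  exact h2.trans (GoodFAux.MN h)

theorem Good.σN (h : Good v N M M₂ β σ ε ν) : (M : ℝ) + σ ≤ 2 * ν * N ∧ (σ : ℝ) ≤ ν * N := by
  have h1 := GoodFAux.MN h
  have h2 := GoodFAux.βN h
  have h3 : (σ : ℝ) ≤ β := by exact_mod_cast h.σβ
  exact ⟨by linarith, by linarith⟩

theorem Good.Mθ (h : Good v N M M₂ β σ ε ν) {θ : ℝ} (hθ : ν ≤ θ / 8) :
    (M : ℝ) + σ ≤ θ / 4 * N := by
  have h1 := h.σN.1
  have h2 : 2 * ν * (N : ℝ) ≤ θ / 4 * N :=
    mul_le_mul_of_nonneg_right (by linarith) (Nat.cast_nonneg _)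
  linarith

theorem Good.εt (h : Good v N M M₂ β σ ε ν) {t : ℕ} (ht : t ≤ M) : ε * t + σ + 1 ≤ β := by
  have h1 : (t : ℝ) ≤ M₂ := by exact_mod_cast ht.trans h.Mle
  have h2 := mul_le_mul_of_nonneg_left h1 h.hε.le
  have h3 := h.hβ
  have h4 := GoodFAux.nub h
  have h5 := h.hσ
  have h6 := h.h1
  have h7 : (0 : ℝ) ≤ β := Nat.cast_nonneg _
  linarith

theorem Good.νN (h : Good v N M M₂ β σ ε ν) : 1 ≤ ν ^ 2 * N := by
  have h1 := h.h1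
  have h2 := mul_le_mul_of_nonneg_left (GoodFAux.βN h) h.hν.le
  nlinarith

theorem sumEx (v : α → E) {N β σ : ℕ} (hN : Fintype.card α = N) (M : ℕ)
    (A : ℕ → (Fin N ≃ α) → Prop) :
    ∑ t ∈ range M, PP (fun e : Fin N ≃ α => Ex v β σ e t ∧ A t e) ≤
      PP (fun e : Fin N ≃ α => ∃ t < M, Ex v β σ e t ∧ A t e) := by
  unfold PP
  rw [← EE_sum]
  refine EE_mono fun e => ?_
  by_cases h : ∃ t < M, Ex v β σ e t ∧ A t e
  · obtain ⟨t, ht, hE⟩ := h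
    rw [ind_of ⟨t, ht, hE⟩, sum_eq_single t]
    · exact ind_le_one _
    · intro s _ hs
      refine ind_not_of fun hs2 => hs ?_
      exact hs2.1.unique hE.1
    · intro hs
      exact absurd (mem_range.2 ht) hs
  · rw [ind_not_of h]
    refine le_of_eq (sum_eq_zero fun t ht => ind_not_of fun h2 => h ⟨t, mem_range.1 ht, h2⟩)

theorem Good.Bs (h : Good v N M M₂ β σ ε ν) :
    PP (fun e : Fin N ≃ α => σ < (Bs v β (Y e M₂)).card) ≤ ν := by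
  have h1 := h.hS
  have h2 := PP_add_not h.card
    (fun e : Fin N ≃ α => (sm v β (Y e M₂)).card ≤ σ ∧ (Pool.Agent.Lib.P0fc.Bs v β (Y e M₂)).card ≤ σ)
  have h3 : PP (fun e : Fin N ≃ α => σ < (Pool.Agent.Lib.P0fc.Bs v β (Y e M₂)).card) ≤
      PP (fun e : Fin N ≃ α => ¬ ((sm v β (Y e M₂)).card ≤ σ ∧
        (Pool.Agent.Lib.P0fc.Bs v β (Y e M₂)).card ≤ σ)) :=
    PP_mono fun e he h4 => absurd h4.2 (not_le.2 he)
  linarith

end

end Pool.Agent.Lib.P0fc
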