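import Mathlib
import Pool.Agent.Lib.P0fc.DefL

/-!
# The averaging operator and the forward lemma (4.1)

`Av f A` is the average of `f (insert x A)` over `x ∉ A`; `Av^[l] f` is the iterate.
-/

namespace Pool.Agent.Lib.P0fc

open Finset Pool.Agent.Lib.P0fb

section

variable {α : Type} [Fintype α] [DecidableEq α] {N : ℕ}

private theorem den_nonneg (A : Finset α) : (0 : ℝ) ≤ (Fintype.card α : ℝ) - (A.card : ℝ) := by
  have h : (A.card : ℝ) ≤ (Fintype.card α : ℝ) := by exact_mod_cast card_le_univ A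
  linarith

theorem Av_mono {f g : Finset α → ℝ} (h : ∀ U, f U ≤ g U) (A : Finset α) : Av f A ≤ Av g A :=
  div_le_div_of_nonneg_right (sum_le_sum fun x _ => h (insert x A)) (den_nonneg A)

theorem Av_nonneg {f : Finset α → ℝ} (h : ∀ U, 0 ≤ f U) (A : Finset α) : 0 ≤ Av f A :=
  div_nonneg (sum_nonneg fun x _ => h (insert x A)) (den_nonneg A)

theorem Av_add (f g : Finset α → ℝ) (A : Finset α) :
    Av (fun U => f U + g U) A = Av f A + Av g A := by
  unfold Av
  rw [sum_add_distrib, add_div]

theorem Av_mul (c : ℝ) (f : Finset α → ℝ) (A : Finset α) :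
    Av (fun U => c * f U) A = c * Av f A := by
  unfold Av
  rw [← mul_sum, mul_div_assoc]

theorem Av_iter_mono (l : ℕ) {f g : Finset α → ℝ} (h : ∀ U, f U ≤ g U) (A : Finset α) :
    (Av^[l] f) A ≤ (Av^[l] g) A := by
  induction l generalizing A with
  | zero => exact h A
  | succ l ih =>
    rw [Function.iterate_succ_apply', Function.iterate_succ_apply']
    exact Av_mono ih A

theorem Av_iter_nonneg (l : ℕ) {f : Finset α → ℝ} (h : ∀ U, 0 ≤ f U) (A : Finset α) :
    0 ≤ (Av^[l] f) A := by
  induction l generalizing A with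
  | zero => exact h A
  | succ l ih =>
    rw [Function.iterate_succ_apply']
    exact Av_nonneg ih A

theorem Av_iter_add (l : ℕ) (f g : Finset α → ℝ) (A : Finset α) :
    (Av^[l] (fun U => f U + g U)) A = (Av^[l] f) A + (Av^[l] g) A := by
  induction l generalizing A with
  | zero => rfl
  | succ l ih =>
    rw [Function.iterate_succ_apply', Function.iterate_succ_apply',
      Function.iterate_succ_apply', ← Av_add]
    congr 1
    funext U
    exact ih U

theorem Av_iter_mul (l : ℕ) (c : ℝ) (f : Finset α → ℝ) (A : Finset α) :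
    (Av^[l] (fun U => c * f U)) A = c * (Av^[l] f) A := by
  induction l generalizing A with
  | zero => rfl
  | succ l ih =>
    rw [Function.iterate_succ_apply', Function.iterate_succ_apply', ← Av_mul]
    congr 1
    funext U
    exact ih U

theorem Av_iter_le_one (l : ℕ) {f : Finset α → ℝ} (h : ∀ U, f U ≤ 1) (A : Finset α) :
    (Av^[l] f) A ≤ 1 := by
  induction l generalizing A with
  | zero => exact h A
  | succ l ih =>
    rw [Function.iterate_succ_apply']
    unfold Av
    refine div_le_one_of_le₀ ?_ (den_nonneg A)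
    have h1 : ∑ x ∈ Aᶜ, (Av^[l] f) (insert x A) ≤ ∑ _x ∈ Aᶜ, (1 : ℝ) :=
      sum_le_sum fun x _ => ih (insert x A)
    refine h1.trans (le_of_eq ?_)
    rw [sum_const, nsmul_eq_mul, mul_one, card_compl, Nat.cast_sub (card_le_univ A)]

theorem Av_iter_mono' (l : ℕ) (A : Finset α) {f g : Finset α → ℝ}
    (h : ∀ U, A ⊆ U → U.card = A.card + l → f U ≤ g U) : (Av^[l] f) A ≤ (Av^[l] g) A := by
  induction l generalizing A with
  | zero => exact h A (Subset.refl A) rfl
  | succ l ih =>
    rw [Function.iterate_succ_apply', Function.iterate_succ_apply']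
    refine div_le_div_of_nonneg_right (sum_le_sum fun x hx => ?_) (den_nonneg A)
    refine ih (insert x A) fun U hU hc => h U ((subset_insert x A).trans hU) ?_
    rw [hc, card_insert_of_notMem (mem_compl.1 hx)]
    omega

theorem Av_iter_congr (l : ℕ) (A : Finset α) {f g : Finset α → ℝ}
    (h : ∀ U, A ⊆ U → U.card = A.card + l → f U = g U) : (Av^[l] f) A = (Av^[l] g) A :=
  le_antisymm (Av_iter_mono' l A fun U h1 h2 => (h U h1 h2).le)
    (Av_iter_mono' l A fun U h1 h2 => (h U h1 h2).ge)

theorem Av_iter_pos (l : ℕ) (A : Finset α) {f : Finset α → ℝ} (h : 0 < (Av^[l] f) A) :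
    ∃ U, A ⊆ U ∧ U.card = A.card + l ∧ 0 < f U := by
  by_contra hcon
  push Not at hcon
  have h1 : (Av^[l] f) A ≤ (Av^[l] (fun U => 0 * f U)) A :=
    Av_iter_mono' l A fun U hU hc => by
      rw [zero_mul]
      exact hcon U hU hc
  rw [Av_iter_mul, zero_mul] at h1
  linarith

theorem fw1 {s : ℕ} (hs : s < N) (hN : Fintype.card α = N) {Φ : (Fin N ≃ α) → ℝ}
    (hΦ : PastM s Φ) (F : Finset α → ℝ) :
    EE (fun e : Fin N ≃ α => Φ e * F (Y e (s + 1))) =
      EE (fun e : Fin N ≃ α => Φ e * Av F (Y e s)) := by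
  have h1 := forw (⟨s, hs⟩ : Fin N) (fun e x => Φ e * F (insert x (Y e s))) (fun x => by
    intro e i j hi hj
    show Φ ((Equiv.swap i j).trans e) * F (insert x (Y ((Equiv.swap i j).trans e) s)) =
      Φ e * F (insert x (Y e s))
    rw [hΦ e i j hi hj, Y_swap_past e hi hj le_rfl])
  have h2 : (fun e : Fin N ≃ α => Φ e * F (Y e (s + 1))) =
      fun e => Φ e * F (insert (e ⟨s, hs⟩) (Y e s)) := by
    funext e
    have h3 := Y_succ e (⟨s, hs⟩ : Fin N)
    rw [show Y e (s + 1) = insert (e ⟨s, hs⟩) (Y e s) from h3]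
  rw [h2]
  refine h1.trans ?_
  congr 1
  funext e
  unfold Av
  rw [card_Y e hs.le, hN, ← mul_sum, mul_div_assoc]

/-- the forward lemma -/
theorem fw {s l : ℕ} (hs : s + l ≤ N) (hN : Fintype.card α = N) {Φ : (Fin N ≃ α) → ℝ}
    (hΦ : PastM s Φ) (F : Finset α → ℝ) :
    EE (fun e : Fin N ≃ α => Φ e * F (Y e (s + l))) =
      EE (fun e : Fin N ≃ α => Φ e * (Av^[l] F) (Y e s)) := by
  induction l generalizing F with
  | zero => rfl
  | succ l ih =>
    have h1 := fw1 (s := s + l) (by omega) hN (hΦ.mono (Nat.le_add_right s l)) F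
    have h2 := ih (by omega) (Av F)
    rw [Function.iterate_succ_apply]
    rw [← add_assoc]
    exact h1.trans h2

end

end Pool.Agent.Lib.P0fc
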