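import Mathlib
import Pool.Agent.Lib.P0fc.LOp

/-!
# The ladder: existence of the robust flat `G_l(A, z)` (4.2)

Proofs.  Write `q = ql v p l A z`, `r G = rl v p l G A z`, `ζ i = zt p.ξ l i`.

* `fr G z U ≤ fz z U` pointwise (`ind_mono`), so `r G ≤ q` (`Av_iter_mono`): `rl_le_ql`.
  `fr (vcl (G ∪ G')) ≤ fr G + fr G'` pointwise: if `vcl (G ∪ G') ⊄ vcl U` then `G ⊄ vcl U` or
  `G' ⊄ vcl U` (`vcl_subset_of_subset`): `rl_union`.  `fr (vcl (insert z A)) z U = 0` for
  `A ⊆ U`, because `z ∈ nt U` gives `z ∈ vcl U`: `rl_base` (`Av_iter_congr` with `0`; the iterate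
  of the zero function is `0`, e.g. by `Av_iter_mul` with `c = 0`).
* `ql_pos`: `Av_iter_pos` gives `U ⊇ A` with `card U = card A + l`, `on U`, so `OK U`, hence `OK A`
  (`OK_anti`); and `P = U \ A` has `l` elements, `A ∪ P = U`,
  `κ * card α ≤ card (nt U) ≤ card (vcl U)`.
* `rl_rank`: `r G < q` gives a `U ⊇ A`, `card U = card A + l`, `fr U < fz U` (`Av_iter_pos` for the
  difference `fz - fr`, with `Av_iter_add` / `Av_iter_mul`), so `G ⊆ vcl U` and
  `dm G ≤ dm (vcl U) = dm U ≤ dm A + l` (`dm_mono`, `dm_vcl`, `dm_union_le`).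
* `exists_IsG`: let `R i` be the maximal rank `dm G` of a flat `G ⊇ insert z A` with
  `r G ≤ ζ i * q` (`0 ≤ i ≤ l + 1`); the set of these `G` contains `vcl (insert z A)`, and
  `dm A ≤ R i ≤ dm A + l` by `rl_rank` (as `ζ i * q ≤ ζ (l+1) * q < q`, `zt_lt_one`).  `R` is
  nondecreasing (`zt_step`), so `R i = R (i+1)` for some `i ≤ l` (otherwise
  `R (l+1) ≥ R 0 + l + 1 > dm A + l`).  Take `G` of maximal rank at this `i`.  Then `r G ≤ ζ i * q
  ≤ ζ l * q`.  If `r G' ≤ ζ 0 * q`, put `G'' = vcl (G ∪ G')`: `r G'' ≤ ζ i * q + ζ 0 * q ≤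
  2 ζ i * q ≤ ζ (i+1) * q`, so `dm G'' ≤ R (i+1) = R i = dm G`, hence `G'' = G` (`eq_of_dm`) and
  `G' ⊆ G`.  (Possible formalization: `Finset.exists_max_image`, or `Nat.findGreatest`, or
  induction on `l + dm A - dm G` : start with `G = vcl (insert z A)`, `i = 0`; as long as some
  flat `G'' ⊋ G` has `r G'' ≤ ζ (i+1) * q`, replace `(G, i)` by `(G'', i + 1)`; the invariant is
  `dm A + i ≤ dm G`, `r G ≤ ζ i * q`; it stops at some `i ≤ l`.)
* `Gf_spec`: `Classical.choose_spec`.  `Gf_flat`, `Gf_sub`: in both cases of the definition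
  (`vcl_vcl`, `subset_vcl`).
* `Gf_zero`: for `l = 0`, `q = fz z (Y e t) = 1` on `MMe`, and `r G = ind (MMe ∧ ¬ G ⊆ vcl (Y e t))`
  for every `G`; by `Gf_spec`, `r G ≤ ζ * 1 < 1` for `G = Gf`, so `G ⊆ vcl (Y e t)`; and `G` is a
  flat containing `Y e t`, so `vcl (Y e t) ⊆ G`.
* `zt`: the exponent is `(l+1)*(l+2)/2 + 1 - i`, with `(l+1)*(l+2)/2 ≥ l + 1 - 1`; so for
  `i ≤ l` the exponents of `zt l i` and `zt l (i+1)` differ by one; `zt_ll`: the exponent
  `(l+2)*(l+3)/2 + 1 - (l+1)` is `(l+1)*(l+2)/2 + 1 + 1` (write `(l+2)*(l+3) = (l+1)*(l+2) + 2*(l+2)`).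
-/

namespace Pool.Agent.Lib.P0fc

open Finset Pool.Agent.Lib.P0fb

theorem zt_pos {ξ : ℝ} (hξ : 0 < ξ) (l i : ℕ) : 0 < zt ξ l i := by
  unfold zt
  exact pow_pos hξ _

private theorem tri (l : ℕ) : l + 1 ≤ (l + 1) * (l + 2) / 2 := by
  rw [Nat.le_div_iff_mul_le (by norm_num)]
  exact Nat.mul_le_mul_left _ (by omega)

theorem zt_step {ξ : ℝ} (hξ : 0 < ξ) (hξ2 : ξ ≤ 1 / 2) {l i : ℕ} (hi : i ≤ l) :
    2 * zt ξ l i ≤ zt ξ l (i + 1) := by
  unfold zt
  have h := tri l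
  have h1 : (l + 1) * (l + 2) / 2 + 1 - i = ((l + 1) * (l + 2) / 2 + 1 - (i + 1)) + 1 := by omega
  rw [h1, pow_succ]
  have h2 : 0 < ξ ^ ((l + 1) * (l + 2) / 2 + 1 - (i + 1)) := pow_pos hξ _
  nlinarith

theorem zt_lt_one {ξ : ℝ} (hξ : 0 < ξ) (hξ2 : ξ ≤ 1 / 2) {l i : ℕ} (hi : i ≤ l + 1) :
    zt ξ l i < 1 := by
  unfold zt
  have h := tri l
  exact pow_lt_one₀ hξ.le (by linarith) (by omega)

theorem zt_ll (ξ : ℝ) (l : ℕ) : zt ξ (l + 1) (l + 1) = ξ * zt ξ l 0 := by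
  unfold zt
  rw [← pow_succ']
  congr 1
  have h1 : (l + 1 + 1) * (l + 1 + 2) = (l + 1) * (l + 2) + (l + 2) * 2 := by ring
  rw [h1, Nat.add_mul_div_right _ _ (by norm_num)]
  omega

private theorem zt_mono {ξ : ℝ} (hξ : 0 < ξ) (hξ2 : ξ ≤ 1 / 2) (l : ℕ) {i j : ℕ} (hij : i ≤ j) :
    zt ξ l i ≤ zt ξ l j := by
  unfold zt
  exact pow_le_pow_of_le_one hξ.le (by linarith) (by omega)

section

variable {α : Type} [Fintype α] [DecidableEq α] {E : Type} [AddCommGroup E] [Module ℝ E] {N : ℕ}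
variable (v : α → E) (p : Pm)

theorem ql_nonneg (l : ℕ) (A : Finset α) (z : α) : 0 ≤ ql v p l A z :=
  Av_iter_nonneg l (fun _ => ind_nonneg _) A

theorem rl_nonneg (l : ℕ) (G A : Finset α) (z : α) : 0 ≤ rl v p l G A z :=
  Av_iter_nonneg l (fun _ => ind_nonneg _) A

theorem rl_le_ql (l : ℕ) (G A : Finset α) (z : α) : rl v p l G A z ≤ ql v p l A z :=
  Av_iter_mono l (fun _ => ind_mono fun h => ⟨h.1, h.2.1⟩) A

theorem rl_union (l : ℕ) (G G' A : Finset α) (z : α) :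
    rl v p l (vcl v (G ∪ G')) A z ≤ rl v p l G A z + rl v p l G' A z := by
  unfold rl
  rw [← Av_iter_add]
  refine Av_iter_mono l (fun U => ?_) A
  unfold fr
  refine (ind_mono ?_).trans (ind_or_le _ _)
  rintro ⟨h1, h2, h3⟩
  by_cases hG : G ⊆ vcl v U
  · right
    refine ⟨h1, h2, fun hG' => h3 ?_⟩
    exact vcl_subset_of_subset (union_subset hG hG')
  · exact Or.inl ⟨h1, h2, hG⟩

theorem rl_base (l : ℕ) (A : Finset α) (z : α) : rl v p l (vcl v (insert z A)) A z = 0 := by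
  unfold rl
  have h := Av_iter_congr l A (f := fr v p (vcl v (insert z A)) z)
    (g := fun U => 0 * fr v p (vcl v (insert z A)) z U) ?_
  · rw [h, Av_iter_mul, zero_mul]
  · intro U hAU _
    rw [zero_mul]
    unfold fr
    apply ind_not_of
    rintro ⟨_, h2, h3⟩
    apply h3
    apply vcl_subset_of_subset
    exact insert_subset (mem_nt.1 h2).1 (hAU.trans (subset_vcl v U))

theorem ql_pos {l : ℕ} {A : Finset α} {z : α} (h : 0 < ql v p l A z) :
    OK v p.β p.σ A ∧ Dle v p.κ l A := by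
  obtain ⟨U, hAU, hc, hU⟩ := Av_iter_pos l A h
  have hon : on v p U ∧ z ∈ nt v p.β U := by
    by_contra hn
    unfold fz at hU
    rw [ind_not_of hn] at hU
    exact lt_irrefl _ hU
  obtain ⟨⟨h1, h2, _⟩, _⟩ := hon
  refine ⟨OK_anti hAU h1, U \ A, ?_, ?_⟩
  · rw [card_sdiff_of_subset hAU]
    omega
  · rw [union_sdiff_of_subset hAU]
    refine h2.trans ?_
    have : nt v p.β U ⊆ vcl v U := fun g hg => (mem_nt.1 hg).1
    exact_mod_cast card_le_card this

theorem rl_rank {l : ℕ} {G A : Finset α} {z : α} (h : rl v p l G A z < ql v p l A z) :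
    dm v G ≤ dm v A + l := by
  have h1 : 0 < (Av^[l] (fun U => fz v p z U + (fun U => (-1 : ℝ) * fr v p G z U) U)) A := by
    rw [Av_iter_add, Av_iter_mul]
    unfold rl ql at h
    linarith
  obtain ⟨U, hAU, hc, hU⟩ := Av_iter_pos l A h1
  have hG : G ⊆ vcl v U := by
    by_contra hn
    have h2 : fz v p z U ≤ fr v p G z U := by
      unfold fz fr
      exact ind_mono fun hh => ⟨hh.1, hh.2, hn⟩
    simp only at hU
    linarith
  have h3 := dm_mono (v := v) hG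
  rw [dm_vcl] at h3
  have h4 := dm_union_le v A (U \ A)
  rw [union_sdiff_of_subset hAU, card_sdiff_of_subset hAU, hc] at h4
  omega

theorem exists_IsG (hξ : 0 < p.ξ) (hξ2 : p.ξ ≤ 1 / 2) {l : ℕ} {A : Finset α} {z : α}
    (h : 0 < ql v p l A z) : ∃ G, IsG v p l A z G := by
  by_contra hno
  have key : ∀ i ≤ l + 1, ∃ G, vcl v G = G ∧ insert z A ⊆ G ∧ dm v A + i ≤ dm v G ∧
      rl v p l G A z ≤ zt p.ξ l i * ql v p l A z := by
    intro i
    induction i with
    | zero =>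
      intro _
      refine ⟨vcl v (insert z A), vcl_vcl v _, subset_vcl v _, ?_, ?_⟩
      · rw [dm_vcl]
        exact dm_mono (subset_insert _ _)
      · rw [rl_base]
        exact mul_nonneg (zt_pos hξ l 0).le h.le
    | succ i ih =>
      intro hi
      obtain ⟨G, hG1, hG2, hG3, hG4⟩ := ih (by omega)
      by_cases hex : ∃ G'', vcl v G'' = G'' ∧ G ⊆ G'' ∧ G'' ≠ G ∧
          rl v p l G'' A z ≤ zt p.ξ l (i + 1) * ql v p l A z
      · obtain ⟨G'', h1, h2, h3, h4⟩ := hex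
        refine ⟨G'', h1, hG2.trans h2, ?_, h4⟩
        by_contra hlt
        exact h3 (eq_of_dm hG1 h1 h2 (by omega))
      · exfalso
        apply hno
        refine ⟨G, hG1, hG2, hG4.trans (mul_le_mul_of_nonneg_right
          (zt_mono hξ hξ2 l (by omega)) h.le), ?_⟩
        intro G' hG'
        have h1 : rl v p l (vcl v (G ∪ G')) A z ≤ zt p.ξ l (i + 1) * ql v p l A z := by
          have h2 := rl_union v p l G G' A z
          have h3 := zt_mono hξ hξ2 l (Nat.zero_le i)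
          have h4 := zt_step hξ hξ2 (l := l) (i := i) (by omega)
          nlinarith
        have h2 : vcl v (G ∪ G') = G := by
          by_contra hne
          exact hex ⟨vcl v (G ∪ G'), vcl_vcl v _, subset_union_left.trans (subset_vcl v _), hne, h1⟩
        exact (subset_union_right.trans (subset_vcl v _)).trans h2.subset
  obtain ⟨G, _, _, h3, h4⟩ := key (l + 1) le_rfl
  have h5 : rl v p l G A z < ql v p l A z := by
    have h6 := zt_lt_one hξ hξ2 (l := l) (i := l + 1) le_rfl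
    nlinarith
  have h6 := rl_rank v p h5
  omega

theorem Gf_spec (hξ : 0 < p.ξ) (hξ2 : p.ξ ≤ 1 / 2) {l : ℕ} {A : Finset α} {z : α}
    (h : 0 < ql v p l A z) : IsG v p l A z (Gf v p l A z) := by
  have h1 := exists_IsG v p hξ hξ2 h
  unfold Gf
  rw [dif_pos h1]
  exact h1.choose_spec

theorem Gf_flat (l : ℕ) (A : Finset α) (z : α) : vcl v (Gf v p l A z) = Gf v p l A z := by
  unfold Gf
  split_ifs with h
  · exact h.choose_spec.1
  · exact vcl_vcl v _

theorem Gf_sub (l : ℕ) (A : Finset α) (z : α) : insert z A ⊆ Gf v p l A z := by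
  unfold Gf
  split_ifs with h
  · exact h.choose_spec.2.1
  · exact subset_vcl v _

theorem Gf_zero (hξ : 0 < p.ξ) (hξ2 : p.ξ ≤ 1 / 2) {t : ℕ} {e : Fin N ≃ α} {z : α}
    (h : MMe v p t e z) : Gf v p 0 (Y e t) z = vcl v (Y e t) := by
  have hq : ql v p 0 (Y e t) z = 1 := by
    show fz v p z (Y e t) = 1
    exact ind_of h
  have hG := Gf_spec v p hξ hξ2 (l := 0) (A := Y e t) (z := z) (by rw [hq]; exact one_pos)
  obtain ⟨h1, h2, h3, _⟩ := hG
  refine Subset.antisymm ?_ ?_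
  · by_contra hn
    have h4 : rl v p 0 (Gf v p 0 (Y e t) z) (Y e t) z = 1 := by
      show fr v p (Gf v p 0 (Y e t) z) z (Y e t) = 1
      exact ind_of ⟨h.1, h.2, hn⟩
    rw [h4, hq, mul_one] at h3
    exact absurd (zt_lt_one hξ hξ2 (l := 0) (i := 0) (by omega)) (not_lt.2 h3)
  · have h5 := vcl_mono (v := v) ((subset_insert z (Y e t)).trans h2)
    rw [h1] at h5
    exact h5

end

end Pool.Agent.Lib.P0fc
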