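import Mathlib
import Pool.Agent.Lib.P0fc.DefL

/-!
# Basic facts on `mass`
-/

namespace Pool.Agent.Lib.P0fc

open Finset Pool.Agent.Lib.P0fb

section

variable {α : Type} [Fintype α] [DecidableEq α] {N M : ℕ}

theorem mass_nonneg (Ev : ℕ → (Fin N ≃ α) → α → Prop) : 0 ≤ mass M Ev := by
  unfold mass
  exact sum_nonneg fun t _ => div_nonneg (sum_nonneg fun z _ => PP_nonneg _) (Nat.cast_nonneg _)

theorem mass_mono {Ev Ev' : ℕ → (Fin N ≃ α) → α → Prop}
    (h : ∀ t < M, ∀ e z, Ev t e z → Ev' t e z) : mass M Ev ≤ mass M Ev' := by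
  unfold mass
  refine sum_le_sum fun t ht => ?_
  refine div_le_div_of_nonneg_right (sum_le_sum fun z _ => ?_) (Nat.cast_nonneg _)
  exact PP_mono fun e he => h t (mem_range.1 ht) e z he

theorem mass_or_le (Ev Ev' : ℕ → (Fin N ≃ α) → α → Prop) :
    mass M (fun t e z => Ev t e z ∨ Ev' t e z) ≤ mass M Ev + mass M Ev' := by
  unfold mass
  rw [← sum_add_distrib]
  refine sum_le_sum fun t _ => ?_
  rw [← add_div, ← sum_add_distrib]
  refine div_le_div_of_nonneg_right (sum_le_sum fun z _ => ?_) (Nat.cast_nonneg _)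
  exact PP_or_le _ _

theorem mass_exists_le {ι : Type} (s : Finset ι) (Ev : ι → ℕ → (Fin N ≃ α) → α → Prop) :
    mass M (fun t e z => ∃ i ∈ s, Ev i t e z) ≤ ∑ i ∈ s, mass M (Ev i) := by
  unfold mass
  rw [sum_comm]
  refine sum_le_sum fun t _ => ?_
  rw [← sum_div]
  refine div_le_div_of_nonneg_right ?_ (Nat.cast_nonneg _)
  rw [sum_comm]
  exact sum_le_sum fun z _ => PP_exists_le s _

/-- splitting: `mass Ev ≤ mass (Ev ∧ A) + mass (Ev ∧ ¬ A)` -/
theorem mass_split (Ev A : ℕ → (Fin N ≃ α) → α → Prop) :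
    mass M Ev ≤ mass M (fun t e z => Ev t e z ∧ A t e z) +
      mass M (fun t e z => Ev t e z ∧ ¬ A t e z) := by
  refine (mass_mono ?_).trans (mass_or_le _ _)
  intro t _ e z h
  by_cases hA : A t e z
  · exact Or.inl ⟨h, hA⟩
  · exact Or.inr ⟨h, hA⟩

/-- for every fixed `z` a bound for the sum over the times gives a bound for the mass -/
theorem mass_le_of_forall [Nonempty α] {Ev : ℕ → (Fin N ≃ α) → α → Prop} {c : ℝ}
    (h : ∀ z, ∑ t ∈ range M, PP (fun e : Fin N ≃ α => Ev t e z) ≤ c) : mass M Ev ≤ c := by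
  unfold mass
  rw [← sum_div, sum_comm, div_le_iff₀ (by exact_mod_cast Fintype.card_pos)]
  refine (sum_le_sum fun z _ => h z).trans ?_
  rw [sum_const, card_univ, nsmul_eq_mul, mul_comm]

end

end Pool.Agent.Lib.P0fc
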