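import Mathlib
import Pool.Agent.Lib.P0fc.Mass

/-!
# The measure `mass` and the event `MMe`

Proofs.
* `beta_le_of_MMe`: `z ∈ nt (Y e t)` means `z ∈ vcl (Y e t)`, `z ∉ Y e t`, `z ∉ sm (Y e t)`; if
  `card (Y e t) < β` then `T = Y e t` shows `z ∈ sm (Y e t)`; so `β ≤ card (Y e t) ≤ t`.
* `OK_Dle_of_MMe`: `OK_anti`; `P = Y e t \ Y e (t - l)` has at most `l` elements (`card_Y`,
  `t ≤ N`, `card_sdiff_of_subset`), `Y e (t-l) ∪ P = Y e t`, and
  `κ N ≤ card (nt (Y e t)) ≤ card (vcl (Y e t))`.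
* `mass_MM_le_one`: for every `t < M`, `(∑ z, PP (MMe t e z)) / N ≤
  EE (ind (OK (Y e t)) * card (nt (Y e t)) / N) ≤ PP (OK (Y e t) ∧ e ⟨t, _⟩ ∈ nt (Y e t))` by `forw`
  (the denominator `N - t` is at most `N`; `nt (Y e t)` is contained in the complement of `Y e t`).
  If `OK (Y e t)` and `x = e ⟨t, _⟩ ∈ nt (Y e t)`, then `OK (Y e (t+1))` fails: a minimal `T ⊆ Y e t`
  with `x ∈ vcl T` has at least `β` elements (as `x ∉ sm`) and all elements of `T ∪ {x}` are in
  `nc (Y e (t + 1))` (for `h ∈ T`: `x ∈ vcl T`, `x ∉ vcl (T.erase h)`, so `h ∈ vcl (insert x (T.erase h))`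
  by `exch`), so `card (nc (Y e (t+1))) ≥ β + 1 > σ` (`σ ≤ ν β ≤ β / 8` in `Good`).  Since `OK` is
  decreasing (`OK_anti`), the events `OK (Y e t) ∧ e_t ∈ nt (Y e t)` are pairwise disjoint and
  the sum over `t` of their probabilities is at most `1`.
* `Good_M_le`: `hM`, `hN`: `2 * M ≤ N` since `M ≤ M₂ ≤ ν N ≤ N / 8`.
-/

namespace Pool.Agent.Lib.P0fc

open Finset Pool.Agent.Lib.P0fb

section

variable {α : Type} [Fintype α] [DecidableEq α] {E : Type} [AddCommGroup E] [Module ℝ E] {N : ℕ}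
variable {v : α → E} {p : Pm} {M M₂ : ℕ} {ε ν : ℝ}

namespace LMassAux

theorem exists_min {α : Type} [Fintype α] [DecidableEq α] {E : Type} [AddCommGroup E]
    [Module ℝ E] {v : α → E} {W : Finset α} {x : α} (h : x ∈ vcl v W) :
    ∃ T ⊆ W, x ∈ vcl v T ∧ ∀ y ∈ T, x ∉ vcl v (T.erase y) := by
  classical
  have hne : (W.powerset.filter (fun T => x ∈ vcl v T)).Nonempty :=
    ⟨W, by rw [mem_filter, mem_powerset]; exact ⟨Subset.refl _, h⟩⟩
  obtain ⟨T, hT, hmin⟩ := exists_min_image _ Finset.card hne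
  rw [mem_filter, mem_powerset] at hT
  refine ⟨T, hT.1, hT.2, ?_⟩
  intro y hy hx
  have h1 := hmin (T.erase y) (by
    rw [mem_filter, mem_powerset]
    exact ⟨(erase_subset _ _).trans hT.1, hx⟩)
  have h2 := card_erase_lt_of_mem hy
  omega

/-- a genuine element closes a big circuit -/
theorem not_OK {α : Type} [Fintype α] [DecidableEq α] {E : Type} [AddCommGroup E]
    [Module ℝ E] {v : α → E} {W : Finset α} {x : α} {β σ : ℕ} (hσ : σ ≤ β)
    (h : x ∈ nt v β W) : ¬ OK v β σ (insert x W) := by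
  rw [mem_nt] at h
  obtain ⟨h1, h2, h3⟩ := h
  obtain ⟨T, hTW, hxT, hmin⟩ := exists_min h1
  have hT : β ≤ T.card := by
    by_contra hc
    apply h3
    rw [mem_sm]
    refine ⟨T, ?_, by omega, hxT⟩
    rw [erase_eq_of_notMem h2]
    exact hTW
  have hxT' : x ∉ T := fun hx => h2 (hTW hx)
  have hsub : insert x T ⊆ nc v (insert x W) := by
    intro y hy
    rw [mem_nc]
    rw [mem_insert] at hy
    rcases hy with rfl | hy
    · refine ⟨mem_insert_self _ _, ?_⟩
      rw [erase_insert h2]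
      exact vcl_mono hTW hxT
    · have hyx : x ≠ y := fun h5 => hxT' (h5 ▸ hy)
      refine ⟨mem_insert_of_mem (hTW hy), ?_⟩
      have h6 : x ∈ vcl v (insert y (T.erase y)) := by
        rw [insert_erase hy]
        exact hxT
      have h7 := exch h6 (hmin y hy)
      refine vcl_mono ?_ h7
      intro w hw
      rw [mem_erase]
      rw [mem_insert, mem_erase] at hw
      rcases hw with rfl | ⟨hw1, hw2⟩
      · exact ⟨hyx, mem_insert_self _ _⟩
      · exact ⟨hw1, mem_insert_of_mem (hTW hw2)⟩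
  intro hOK
  have h8 := card_le_card hsub
  rw [card_insert_of_notMem hxT'] at h8
  have h9 := hOK.1
  omega

end LMassAux

open LMassAux

theorem beta_le_of_MMe {t : ℕ} {e : Fin N ≃ α} {z : α} (h : MMe v p t e z) : p.β ≤ t := by
  obtain ⟨_, hz⟩ := h
  rw [mem_nt] at hz
  obtain ⟨h1, h2, h3⟩ := hz
  by_contra hc
  apply h3
  rw [mem_sm]
  refine ⟨Y e t, ?_, ?_, h1⟩
  · rw [erase_eq_of_notMem h2]
  · have := card_Y_le e t
    omega

theorem OK_Dle_of_MMe {t : ℕ} {e : Fin N ≃ α} {z : α} (ht : t ≤ N) (h : MMe v p t e z) (l : ℕ) :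
    OK v p.β p.σ (Y e (t - l)) ∧ Dle v p.κ l (Y e (t - l)) := by
  obtain ⟨⟨h1, h2, h3⟩, hz⟩ := h
  have hsub : Y e (t - l) ⊆ Y e t := Y_mono e (Nat.sub_le _ _)
  refine ⟨OK_anti hsub h1, Y e t \ Y e (t - l), ?_, ?_⟩
  · rw [card_sdiff_of_subset hsub, card_Y e ht, card_Y e ((Nat.sub_le _ _).trans ht)]
    omega
  · rw [union_sdiff_of_subset hsub]
    refine h2.trans ?_
    have : nt v p.β (Y e t) ⊆ vcl v (Y e t) := fun x hx => (mem_nt.1 hx).1
    exact_mod_cast card_le_card this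

theorem Good_M_le {β σ : ℕ} (hG : Good v N M M₂ β σ ε ν) : 2 * M ≤ N := by
  have h1 := hG.hM
  have h2 := hG.hN
  have h3 := hG.hν
  have h4 := hG.hν1
  have h5 : (0 : ℝ) < 1 / ν := by positivity
  have h6 : (0 : ℝ) ≤ (N : ℝ) := Nat.cast_nonneg _
  have h7 : ν * (N : ℝ) ≤ 1 / 8 * (N : ℝ) := mul_le_mul_of_nonneg_right h4 h6
  have h8 : ((2 * M : ℕ) : ℝ) ≤ (N : ℝ) := by
    push_cast
    linarith
  exact_mod_cast h8

theorem mass_MM_le_one (hG : Good v N M M₂ p.β p.σ ε ν) :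
    mass M (fun t (e : Fin N ≃ α) z => MMe v p t e z) ≤ 1 := by
  classical
  have hMN := Good_M_le hG
  have hσβ : p.σ ≤ p.β := by
    have h1 := hG.hσ
    have h2 := hG.hν1
    have h3 : (0 : ℝ) ≤ (p.β : ℝ) := Nat.cast_nonneg _
    have h4 : ν * (p.β : ℝ) ≤ 1 / 8 * (p.β : ℝ) := mul_le_mul_of_nonneg_right h2 h3
    have h5 : (p.σ : ℝ) ≤ (p.β : ℝ) := by linarith
    exact_mod_cast h5
  set B : ℕ → (Fin N ≃ α) → Prop := fun t e =>
    ∃ ht : t < N, OK v p.β p.σ (Y e t) ∧ e ⟨t, ht⟩ ∈ nt v p.β (Y e t) with hB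
  have key : ∀ t ∈ range M, (∑ z : α, PP (fun e : Fin N ≃ α => MMe v p t e z)) /
      (Fintype.card α : ℝ) ≤ PP (B t) := by
    intro t ht
    rw [mem_range] at ht
    have htN : t < N := by omega
    set f : (Fin N ≃ α) → α → ℝ := fun e x => ind (OK v p.β p.σ (Y e t) ∧ x ∈ nt v p.β (Y e t))
      with hf
    have e1 : PP (B t) = EE (fun e => f e (e ⟨t, htN⟩)) := by
      unfold PP
      refine EE_congr fun e => ?_
      rw [hf]
      dsimp only
      congr 1
      apply propext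
      constructor
      · rintro ⟨_, h⟩
        exact h
      · intro h
        exact ⟨htN, h⟩
    have e2 := forw ⟨t, htN⟩ f (by
      intro x e i j hi hj
      rw [hf]
      dsimp only
      rw [Y_swap_past e hi hj le_rfl])
    rw [e1, e2]
    have e3 : (∑ z : α, PP (fun e : Fin N ≃ α => MMe v p t e z)) / (Fintype.card α : ℝ) =
        EE (fun e : Fin N ≃ α => (1 / (N : ℝ)) * ∑ z : α, ind (MMe v p t e z)) := by
      rw [EE_mul_left, EE_sum, hG.card]
      unfold PP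
      ring
    rw [e3]
    refine EE_mono fun e => ?_
    dsimp only
    have hpos : (0 : ℝ) < (N : ℝ) - (t : ℝ) := by
      have : (t : ℝ) < (N : ℝ) := by exact_mod_cast htN
      linarith
    have hNpos : (0 : ℝ) < (N : ℝ) := by
      have : (0 : ℝ) ≤ (t : ℝ) := Nat.cast_nonneg _
      linarith
    have hs0 : 0 ≤ ∑ x ∈ (Y e t)ᶜ, f e x := sum_nonneg fun x _ => ind_nonneg _
    have e4 : ∑ z : α, ind (MMe v p t e z) ≤ ∑ x ∈ (Y e t)ᶜ, f e x := by
      rw [← sum_compl_add_sum (Y e t)]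
      have e5 : ∑ z ∈ Y e t, ind (MMe v p t e z) = 0 := by
        apply sum_eq_zero
        intro z hz
        apply ind_not_of
        rintro ⟨_, h⟩
        exact (mem_nt.1 h).2.1 hz
      rw [e5, add_zero]
      refine sum_le_sum fun z _ => ?_
      apply ind_mono
      rintro ⟨h1, h2⟩
      exact ⟨h1.1, h2⟩
    calc (1 / (N : ℝ)) * ∑ z : α, ind (MMe v p t e z)
        ≤ (1 / (N : ℝ)) * ∑ x ∈ (Y e t)ᶜ, f e x :=
          mul_le_mul_of_nonneg_left e4 (by positivity)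
      _ = (∑ x ∈ (Y e t)ᶜ, f e x) / (N : ℝ) := by ring
      _ ≤ (∑ x ∈ (Y e t)ᶜ, f e x) / ((N : ℝ) - (t : ℝ)) := by
          apply div_le_div_of_nonneg_left hs0 hpos
          have : (0 : ℝ) ≤ (t : ℝ) := Nat.cast_nonneg _
          linarith
  unfold mass
  refine (sum_le_sum key).trans ?_
  have e6 : ∑ t ∈ range M, PP (B t) = EE (fun e => ∑ t ∈ range M, ind (B t e)) := by
    rw [EE_sum]
    rfl
  rw [e6, ← EE_const (α := α) hG.card 1]
  refine EE_mono fun e => ?_
  by_cases hex : ∃ t ∈ range M, B t e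
  · obtain ⟨t, ht, hBt⟩ := hex
    rw [sum_eq_single t, ind_of hBt]
    · intro s hs hne
      apply ind_not_of
      intro hBs
      have aux : ∀ a b : ℕ, a < b → B a e → B b e → False := by
        rintro a b hab ⟨ha, ha1, ha2⟩ ⟨hb, hb1, hb2⟩
        have h1 := not_OK hσβ ha2
        rw [← Y_succ e ⟨a, ha⟩] at h1
        exact h1 (OK_anti (Y_mono e (by simpa using hab)) hb1)
      rcases lt_or_gt_of_ne hne with h | h
      · exact aux s t h hBs hBt
      · exact aux t s h hBt hBs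
    · intro h
      exact absurd ht h
  · push Not at hex
    rw [sum_eq_zero]
    · norm_num
    · intro t ht
      exact ind_not_of (hex t ht)

end

end Pool.Agent.Lib.P0fc
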