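import Mathlib
import Pool.Agent.Lib.P0fc.LLad
import Pool.Agent.Lib.P0fc.LMass

/-!
# Light hits are rare (4.5)

Proofs.
* `PP_hit`: let `i ≥ 1`, `i ≤ t ≤ M`, `2 M ≤ N`, and let `Φ ≥ 0` be `PastM (t - i)`.  Then for every
  `c ≥ 1`: `EE (Φ e * (if LH qq i t e z then c else 1)) ≤ (1 + 2 (c - 1) qq i) * EE Φ`.  Indeed with
  `s = t - i`, `A = Y e s`, `x = e ⟨s, _⟩`, `G = Gf i A z`, the event `LH` is
  `x ∈ G ∧ card G ≤ qq i * card α`; by `forw` with
  `h e x = Φ e * (if x ∈ G ∧ card G ≤ qq i * N then c else 1)` the left side is `EE` of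
  `Φ e * (∑ x ∉ A, (..)) / (N - s)`, and the sum is at most
  `(N - s) + (c - 1) * (card G if light) ≤ (N - s) + (c - 1) * qq i * N
  ≤ (N - s) * (1 + 2 (c - 1) qq i)` as `N ≤ 2 (N - s)`.
* `mass_hits`: fix `z` and `t < M` with `l ≤ t` (for `t < l` the event is empty, `beta_le_of_MMe`).  Put
  `Z j e = ind (OK (Y e (t-l)) ∧ Dle κ l (Y e (t-l))) * ∏ i ∈ Ioc j l, (if LH i then 16 else 1)`, which is
  `PastM (t - j)` (`LH i` depends on `Y e (t - i)` and on the element at position `t - i`, and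
  `t - i < t - j` for `i > j`; `Y_swap_past`, and `At` for a position `< t - j` is not changed by the
  swap).  On the event `1 ≤ 16^(#LH - r)`, so (`OK_Dle_of_MMe`) the indicator of the event is at most
  `(1/16)^r * Z 0 e`.  By `PP_hit` with `c = 16`, `EE (Z (j-1)) ≤ (1 + 30 qq j) * EE (Z j)` and
  `1 + 30 y ≤ exp (32 y)` (`Real.add_one_le_exp`), so
  `EE (Z 0) ≤ exp (32 ∑ qq) * PP (OK (Y e (t-l)) ∧ Dle κ l (Y e (t-l)))`.  Sum over `z` (average) and over
  `t`: the substitution `s = t - l` and the hypothesis `hC` finish the proof.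
* `mass_hit_one`: the same with `Φ = ind (OK ∧ Dle)` and the expectation of `ind LH` (from `PP_hit`
  with `c = 2` minus `EE Φ`, or directly): at most `2 qq l * PP (OK ∧ Dle)`.
-/

namespace Pool.Agent.Lib.P0fc

open Finset Pool.Agent.Lib.P0fb

section

variable {α : Type} [Fintype α] [DecidableEq α] {E : Type} [AddCommGroup E] [Module ℝ E] {N : ℕ}
variable (v : α → E) (p : Pm)

namespace LHitAux

theorem sum_shift (f : ℕ → ℝ) (l M : ℕ) :
    ∑ t ∈ range M, (if l ≤ t then f (t - l) else 0) = ∑ s ∈ range (M - l), f s := by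
  induction M with
  | zero => simp
  | succ M ih =>
    rw [sum_range_succ, ih]
    by_cases h : l ≤ M
    · rw [if_pos h]
      have h1 : M + 1 - l = (M - l) + 1 := by omega
      rw [h1, sum_range_succ]
    · rw [if_neg h]
      have h1 : M + 1 - l = M - l := by omega
      rw [h1, add_zero]

theorem sum_part {M l : ℕ} {K C : ℝ} (hK : 0 ≤ K) (Ev : ℕ → (Fin N ≃ α) → α → Prop) (f : ℕ → ℝ)
    (hf : ∀ s, 0 ≤ f s) (hC : ∑ s ∈ range M, f s ≤ C)
    (h : ∀ t < M, ∀ z, PP (fun e : Fin N ≃ α => Ev t e z) ≤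
      K * (if l ≤ t then f (t - l) else 0)) : mass M Ev ≤ K * C := by
  have h1 : mass M Ev ≤ ∑ t ∈ range M, K * (if l ≤ t then f (t - l) else 0) := by
    unfold mass
    refine sum_le_sum fun t ht => ?_
    have h0 : 0 ≤ K * (if l ≤ t then f (t - l) else 0) := by
      refine mul_nonneg hK ?_
      split_ifs
      · exact hf _
      · exact le_rfl
    have h2 : ∑ z : α, PP (fun e : Fin N ≃ α => Ev t e z) ≤
        (Fintype.card α : ℝ) * (K * (if l ≤ t then f (t - l) else 0)) := by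
      calc ∑ z : α, PP (fun e : Fin N ≃ α => Ev t e z) ≤
          ∑ _z : α, K * (if l ≤ t then f (t - l) else 0) :=
            sum_le_sum fun z _ => h t (mem_range.1 ht) z
        _ = _ := by rw [sum_const, card_univ, nsmul_eq_mul]
    by_cases hc : (Fintype.card α : ℝ) = 0
    · rw [hc, div_zero]
      exact h0
    · have hc' : (0 : ℝ) < (Fintype.card α : ℝ) :=
        lt_of_le_of_ne (Nat.cast_nonneg _) (Ne.symm hc)
      rw [div_le_iff₀ hc', mul_comm]
      exact h2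
  refine h1.trans ?_
  rw [← mul_sum, sum_shift]
  refine mul_le_mul_of_nonneg_left (le_trans ?_ hC) hK
  exact sum_le_sum_of_subset_of_nonneg (range_mono (Nat.sub_le _ _)) fun s _ _ => hf s

theorem at_iff {e : Fin N ≃ α} {s : ℕ} (hs : s < N) {x : α} : At e s x ↔ x = e ⟨s, hs⟩ := by
  unfold At
  constructor
  · intro h
    have : e.symm x = ⟨s, hs⟩ := Fin.ext h
    rw [← this, Equiv.apply_symm_apply]
  · rintro rfl
    rw [Equiv.symm_apply_apply]

theorem at_swap {e : Fin N ≃ α} {i j : Fin N} {m m' : ℕ} (hi : m ≤ i.val) (hj : m ≤ j.val)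
    (h : m' < m) (x : α) : At ((Equiv.swap i j).trans e) m' x ↔ At e m' x := by
  unfold At
  rw [Equiv.symm_trans_apply, Equiv.symm_swap]
  by_cases h1 : e.symm x = i
  · rw [h1, Equiv.swap_apply_left]
    omega
  · by_cases h2 : e.symm x = j
    · rw [h2, Equiv.swap_apply_right]
      omega
    · rw [Equiv.swap_apply_of_ne_of_ne h1 h2]

theorem LH_iff (v : α → E) (p : Pm) (qq : ℕ → ℝ) {i t : ℕ} (hs : t - i < N) {e : Fin N ≃ α} {z : α} :
    LH v p qq i t e z ↔ e ⟨t - i, hs⟩ ∈ Gf v p i (Y e (t - i)) z ∧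
      ((Gf v p i (Y e (t - i)) z).card : ℝ) ≤ qq i * (Fintype.card α : ℝ) := by
  unfold LH He
  constructor
  · rintro ⟨⟨x, hx, hxG⟩, h2⟩
    rw [at_iff hs] at hx
    rw [← hx]
    exact ⟨hxG, h2⟩
  · rintro ⟨h1, h2⟩
    exact ⟨⟨_, (at_iff hs).2 rfl, h1⟩, h2⟩

theorem LH_swap (v : α → E) (p : Pm) (qq : ℕ → ℝ) {i j t : ℕ} (hij : j < i) (hit : i ≤ t)
    {e : Fin N ≃ α} {z : α} {a b : Fin N} (ha : t - j ≤ a.val) (hb : t - j ≤ b.val) :
    LH v p qq i t ((Equiv.swap a b).trans e) z ↔ LH v p qq i t e z := by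
  unfold LH He
  rw [Y_swap_past e ha hb (by omega : t - i ≤ t - j)]
  simp only [at_swap ha hb (by omega : t - i < t - j)]

open Classical in
theorem hit_sum (G A : Finset α) (s : ℕ) (q c : ℝ) (hq : 0 ≤ q) (hc : 1 ≤ c) (hA : A.card = s)
    (hs : 2 * s ≤ Fintype.card α) :
    ∑ x ∈ Aᶜ, (if x ∈ G ∧ (G.card : ℝ) ≤ q * (Fintype.card α : ℝ) then c else 1) ≤
      (1 + 2 * (c - 1) * q) * ((Fintype.card α : ℝ) - (s : ℝ)) := by
  have hs' : 2 * (s : ℝ) ≤ (Fintype.card α : ℝ) := by exact_mod_cast hs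
  have hcard : ((Aᶜ).card : ℝ) = (Fintype.card α : ℝ) - (s : ℝ) := by
    rw [card_compl, Nat.cast_sub (card_le_univ A), hA]
  have h1 : ∑ x ∈ Aᶜ, (if x ∈ G ∧ (G.card : ℝ) ≤ q * (Fintype.card α : ℝ) then c else 1) ≤
      ∑ x ∈ Aᶜ, (1 : ℝ) + (c - 1) * (q * (Fintype.card α : ℝ)) := by
    by_cases hl : (G.card : ℝ) ≤ q * (Fintype.card α : ℝ)
    · have h2 : ∀ x ∈ Aᶜ, (if x ∈ G ∧ (G.card : ℝ) ≤ q * (Fintype.card α : ℝ) then c else 1) =
          1 + (if x ∈ G then c - 1 else 0) := by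
        intro x _
        by_cases hx : x ∈ G
        · rw [if_pos ⟨hx, hl⟩, if_pos hx]
          ring
        · rw [if_neg (fun h => hx h.1), if_neg hx]
          ring
      rw [sum_congr rfl h2, sum_add_distrib]
      refine add_le_add le_rfl ?_
      rw [← sum_filter, sum_const, nsmul_eq_mul, mul_comm]
      refine mul_le_mul_of_nonneg_left (le_trans ?_ hl) (by linarith)
      have : (Aᶜ.filter (fun x => x ∈ G)).card ≤ G.card :=
        card_le_card fun x hx => (mem_filter.1 hx).2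
      exact_mod_cast this
    · have h2 : ∀ x ∈ Aᶜ, (if x ∈ G ∧ (G.card : ℝ) ≤ q * (Fintype.card α : ℝ) then c else 1) = 1 := by
        intro x _
        rw [if_neg (fun h => hl h.2)]
      rw [sum_congr rfl h2]
      have : 0 ≤ (c - 1) * (q * (Fintype.card α : ℝ)) :=
        mul_nonneg (by linarith) (mul_nonneg hq (Nat.cast_nonneg _))
      linarith
  refine h1.trans ?_
  rw [sum_const, nsmul_eq_mul, mul_one, hcard]
  have h3 : (c - 1) * (q * (Fintype.card α : ℝ)) ≤
      (c - 1) * (q * (2 * ((Fintype.card α : ℝ) - (s : ℝ)))) := by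
    refine mul_le_mul_of_nonneg_left (mul_le_mul_of_nonneg_left ?_ hq) (by linarith)
    linarith
  linarith

end LHitAux

open LHitAux

open Classical in
theorem PP_hit {M : ℕ} (hN : Fintype.card α = N) (hM : 2 * M ≤ N) (qq : ℕ → ℝ)
    (hqq : ∀ i, 0 ≤ qq i) {i t : ℕ} (hi : 1 ≤ i) (hit : i ≤ t) (ht : t ≤ M) (z : α)
    {Φ : (Fin N ≃ α) → ℝ} (hΦ : PastM (t - i) Φ) (hΦ0 : ∀ e, 0 ≤ Φ e) {c : ℝ} (hc : 1 ≤ c) :
    EE (fun e : Fin N ≃ α => Φ e * (if LH v p qq i t e z then c else 1)) ≤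
      (1 + 2 * (c - 1) * qq i) * EE Φ := by
  have hs : t - i < N := by omega
  have hcalc : ∀ e : Fin N ≃ α, (∑ x ∈ (Y e (t - i))ᶜ, Φ e * (if x ∈ Gf v p i (Y e (t - i)) z ∧
      ((Gf v p i (Y e (t - i)) z).card : ℝ) ≤ qq i * (Fintype.card α : ℝ) then c else 1)) /
        ((N : ℝ) - ((t - i : ℕ) : ℝ)) ≤ (1 + 2 * (c - 1) * qq i) * Φ e := by
    intro e
    have hs2 : 2 * (t - i) ≤ N := by omega
    have hpos : (0 : ℝ) < (N : ℝ) - ((t - i : ℕ) : ℝ) := by
      have : ((t - i : ℕ) : ℝ) < (N : ℝ) := by exact_mod_cast hs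
      linarith
    rw [div_le_iff₀ hpos, ← mul_sum]
    have h1 := hit_sum (Gf v p i (Y e (t - i)) z) (Y e (t - i)) (t - i) (qq i) c (hqq i) hc
      (card_Y e hs.le) (by rw [hN]; exact hs2)
    rw [hN] at h1
    rw [hN]
    have h2 := mul_le_mul_of_nonneg_left h1 (hΦ0 e)
    refine h2.trans (le_of_eq ?_)
    ring
  have h1 := forw (⟨t - i, hs⟩ : Fin N) (fun e x => Φ e * (if x ∈ Gf v p i (Y e (t - i)) z ∧
      ((Gf v p i (Y e (t - i)) z).card : ℝ) ≤ qq i * (Fintype.card α : ℝ) then c else 1))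
      (fun x => by
        intro e a b ha hb
        show Φ ((Equiv.swap a b).trans e) * _ = Φ e * _
        rw [hΦ e a b ha hb, Y_swap_past e ha hb le_rfl])
  have h2 : EE (fun e : Fin N ≃ α => Φ e * (if LH v p qq i t e z then c else 1)) =
      EE (fun e : Fin N ≃ α => Φ e * (if e ⟨t - i, hs⟩ ∈ Gf v p i (Y e (t - i)) z ∧
      ((Gf v p i (Y e (t - i)) z).card : ℝ) ≤ qq i * (Fintype.card α : ℝ) then c else 1)) := by
    refine EE_congr fun e => ?_
    simp only [LH_iff v p qq hs]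
  rw [h2]
  refine (le_of_eq h1).trans ?_
  rw [← EE_mul_left]
  exact EE_mono hcalc

open Classical in
theorem mass_hits {M : ℕ} (hN : Fintype.card α = N) (hM : 2 * M ≤ N) (qq : ℕ → ℝ)
    (hqq : ∀ i, 0 ≤ qq i) {l : ℕ} (hlβ : l ≤ p.β) (r : ℕ) {C : ℝ}
    (hC : ∑ s ∈ range M, PP (fun e : Fin N ≃ α => OK v p.β p.σ (Y e s) ∧ Dle v p.κ l (Y e s)) ≤ C) :
    mass M (fun t (e : Fin N ≃ α) z => MMe v p t e z ∧
        r ≤ ((Icc 1 l).filter (fun i => LH v p qq i t e z)).card) ≤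
      (1 / 16) ^ r * Real.exp (32 * ∑ i ∈ Icc 1 l, qq i) * C := by
  have hK : 0 ≤ (1 / 16 : ℝ) ^ r * Real.exp (32 * ∑ i ∈ Icc 1 l, qq i) := by positivity
  refine sum_part (l := l) hK _ (fun s => PP (fun e : Fin N ≃ α => OK v p.β p.σ (Y e s) ∧
    Dle v p.κ l (Y e s))) (fun s => PP_nonneg _) hC ?_
  intro t htM z
  by_cases hlt : l ≤ t
  swap
  · rw [if_neg hlt, mul_zero]
    refine le_of_eq ?_
    unfold PP
    rw [← EE_const (α := α) hN 0]
    refine EE_congr fun e => ind_not_of ?_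
    rintro ⟨h, _⟩
    have := beta_le_of_MMe h
    omega
  rw [if_pos hlt]
  set Z : ℕ → (Fin N ≃ α) → ℝ := fun j e => ind (OK v p.β p.σ (Y e (t - l)) ∧
    Dle v p.κ l (Y e (t - l))) * ∏ i ∈ Ioc j l, (if LH v p qq i t e z then (16 : ℝ) else 1) with hZ
  have hZ0 : ∀ j e, 0 ≤ Z j e := by
    intro j e
    refine mul_nonneg (ind_nonneg _) (prod_nonneg fun i _ => ?_)
    split_ifs <;> norm_num
  have hZp : ∀ j, j ≤ l → PastM (t - j) (Z j) := by
    intro j hj e a b ha hb
    show ind _ * _ = ind _ * _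
    rw [Y_swap_past e ha hb (by omega : t - l ≤ t - j)]
    congr 1
    refine prod_congr rfl fun i hi => ?_
    rw [mem_Ioc] at hi
    have := LH_swap v p qq (e := e) (z := z) hi.1 (hi.2.trans hlt) ha hb
    simp only [this]
  have hstep : ∀ j, 1 ≤ j → j ≤ l → EE (Z (j - 1)) ≤ Real.exp (32 * qq j) * EE (Z j) := by
    intro j hj1 hjl
    have h1 := PP_hit v p hN hM qq hqq hj1 (hjl.trans hlt) htM.le z (hZp j hjl) (hZ0 j)
      (c := 16) (by norm_num)
    have h2 : (fun e : Fin N ≃ α => Z j e * (if LH v p qq j t e z then (16 : ℝ) else 1)) =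
        Z (j - 1) := by
      funext e
      have h3 : Ioc (j - 1) l = insert j (Ioc j l) := by
        ext x
        rw [mem_insert, mem_Ioc, mem_Ioc]
        omega
      show ind _ * _ * _ = ind _ * _
      rw [h3, prod_insert (by simp)]
      ring
    rw [h2] at h1
    refine h1.trans (mul_le_mul_of_nonneg_right ?_ (EE_nonneg (hZ0 j)))
    have h4 := Real.add_one_le_exp (32 * qq j)
    have h5 := hqq j
    linarith
  have hind : ∀ m, m ≤ l → EE (Z (l - m)) ≤
      Real.exp (32 * ∑ i ∈ Ioc (l - m) l, qq i) * EE (Z l) := by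
    intro m
    induction m with
    | zero =>
      intro _
      rw [Nat.sub_zero, Ioc_self, sum_empty, mul_zero, Real.exp_zero, one_mul]
    | succ m ih =>
      intro hm
      have h1 := ih (by omega)
      have h2 := hstep (l - m) (by omega) (by omega)
      have h3 : l - m - 1 = l - (m + 1) := by omega
      rw [h3] at h2
      have h4 : Ioc (l - (m + 1)) l = insert (l - m) (Ioc (l - m) l) := by
        ext x
        rw [mem_insert, mem_Ioc, mem_Ioc]
        omega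
      rw [h4, sum_insert (by simp), mul_add, Real.exp_add, mul_assoc]
      exact h2.trans (mul_le_mul_of_nonneg_left h1 (Real.exp_pos _).le)
  have h0 := hind l le_rfl
  rw [Nat.sub_self] at h0
  have hIcc : Ioc 0 l = Icc 1 l := by
    ext x
    rw [mem_Ioc, mem_Icc]
    omega
  rw [hIcc] at h0
  have hZl : EE (Z l) = PP (fun e : Fin N ≃ α => OK v p.β p.σ (Y e (t - l)) ∧
      Dle v p.κ l (Y e (t - l))) := by
    unfold PP
    refine EE_congr fun e => ?_
    show ind _ * _ = ind _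
    rw [Ioc_self, prod_empty, mul_one]
  rw [hZl] at h0
  have hpt : PP (fun e : Fin N ≃ α => MMe v p t e z ∧
      r ≤ ((Icc 1 l).filter (fun i => LH v p qq i t e z)).card) ≤ (1 / 16) ^ r * EE (Z 0) := by
    rw [← EE_mul_left]
    unfold PP
    refine EE_mono fun e => ?_
    by_cases h : MMe v p t e z ∧ r ≤ ((Icc 1 l).filter (fun i => LH v p qq i t e z)).card
    · rw [ind_of h]
      show 1 ≤ (1 / 16) ^ r * (ind _ * _)
      rw [ind_of (OK_Dle_of_MMe (by omega : t ≤ N) h.1 l), one_mul, hIcc, prod_ite, prod_const,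
        prod_const_one, mul_one]
      have h6 : (16 : ℝ) ^ r ≤ 16 ^ ((Icc 1 l).filter (fun i => LH v p qq i t e z)).card :=
        pow_le_pow_right₀ (by norm_num) h.2
      have h7 : (1 : ℝ) = (1 / 16) ^ r * 16 ^ r := by
        rw [← mul_pow]
        norm_num
      calc (1 : ℝ) = (1 / 16) ^ r * 16 ^ r := h7
        _ ≤ _ := mul_le_mul_of_nonneg_left h6 (by positivity)
    · rw [ind_not_of h]
      exact mul_nonneg (by positivity) (hZ0 0 e)
  refine hpt.trans ?_
  rw [mul_assoc]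
  exact mul_le_mul_of_nonneg_left h0 (by positivity)

theorem mass_hit_one {M : ℕ} (hN : Fintype.card α = N) (hM : 2 * M ≤ N) (qq : ℕ → ℝ)
    (hqq : ∀ i, 0 ≤ qq i) {l : ℕ} (hl : 1 ≤ l) (hlβ : l ≤ p.β) {C : ℝ}
    (hC : ∑ s ∈ range M, PP (fun e : Fin N ≃ α => OK v p.β p.σ (Y e s) ∧ Dle v p.κ l (Y e s)) ≤ C) :
    mass M (fun t (e : Fin N ≃ α) z => MMe v p t e z ∧ LH v p qq l t e z) ≤ 2 * qq l * C := by
  classical
  have hK : 0 ≤ 2 * qq l := by
    have := hqq l
    linarith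
  refine sum_part (l := l) hK _ (fun s => PP (fun e : Fin N ≃ α => OK v p.β p.σ (Y e s) ∧
    Dle v p.κ l (Y e s))) (fun s => PP_nonneg _) hC ?_
  intro t htM z
  by_cases hlt : l ≤ t
  swap
  · rw [if_neg hlt, mul_zero]
    refine le_of_eq ?_
    unfold PP
    rw [← EE_const (α := α) hN 0]
    refine EE_congr fun e => ind_not_of ?_
    rintro ⟨h, _⟩
    have := beta_le_of_MMe h
    omega
  rw [if_pos hlt]
  set Φ : (Fin N ≃ α) → ℝ := fun e => ind (OK v p.β p.σ (Y e (t - l)) ∧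
    Dle v p.κ l (Y e (t - l))) with hΦ
  have hΦp : PastM (t - l) Φ := by
    intro e a b ha hb
    show ind _ = ind _
    rw [Y_swap_past e ha hb le_rfl]
  have h1 := PP_hit v p hN hM qq hqq hl hlt htM.le z hΦp (fun e => ind_nonneg _)
    (c := 2) (by norm_num)
  have h2 : EE (fun e : Fin N ≃ α => Φ e * (if LH v p qq l t e z then (2 : ℝ) else 1)) =
      EE Φ + EE (fun e : Fin N ≃ α => Φ e * ind (LH v p qq l t e z)) := by
    rw [← EE_add]
    refine EE_congr fun e => ?_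
    by_cases h : LH v p qq l t e z
    · rw [if_pos h, ind_of h]
      ring
    · rw [if_neg h, ind_not_of h]
      ring
  rw [h2] at h1
  have h3 : PP (fun e : Fin N ≃ α => MMe v p t e z ∧ LH v p qq l t e z) ≤
      EE (fun e : Fin N ≃ α => Φ e * ind (LH v p qq l t e z)) := by
    unfold PP
    refine EE_mono fun e => ?_
    rw [ind_and]
    refine mul_le_mul_of_nonneg_right ?_ (ind_nonneg _)
    exact ind_mono fun h => OK_Dle_of_MMe (by omega : t ≤ N) h l
  refine h3.trans ?_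
  show _ ≤ 2 * qq l * EE Φ
  linarith

end

end Pool.Agent.Lib.P0fc
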