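import Mathlib
import Pool.Agent.Lib.P0fc.LLad
import Pool.Agent.Lib.P0fc.LMass

/-!
# Inclusion of the robust flats (4.3)

Proof of `PP_not_I`.  Write `l = m + 1`, `s = t - l`, so that `t - l + 1 = s + 1`, `t = (s+1) + m`,
`A = Y e s`, `x = e ⟨s, _⟩`, `Ax = Y e (s + 1) = insert x A`.
Let `Φ e = ind (¬ Gf l A z ⊆ Gf m Ax z)`.  It is `PastM (s + 1)` (`Y_swap_past`), and
`ind (MMe t e z ∧ ¬ Ie) = Φ e * fz z (Y e ((s+1) + m))`.  By `fw`,
`PP (MMe ∧ ¬ Ie) = EE (Φ e * ql m Ax z)`.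
Pointwise `Φ e * ql m Ax z ≤ rl m (Gf l A z) Ax z / zt ξ m 0`: if `ql m Ax z = 0` or `Φ e = 0` the left
side is `0` (and the right side is nonnegative, `rl_nonneg`); otherwise `Gf m Ax z` satisfies the
maximality of `IsG` (`Gf_spec`), so `¬ (rl m (Gf l A z) Ax z ≤ zt ξ m 0 * ql m Ax z)`.
Next, by `forw` at position `s`, `EE (rl m (Gf l A z) (insert x A) z) =
EE (Av (fun U => rl m (Gf l A z) U z) A) = EE (rl l (Gf l A z) A z)`
(`rl l G A z = (Av^[m+1] (fr ..)) A = Av (Av^[m] (fr ..)) A`, `Function.iterate_succ_apply'`; the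
denominator is `N - s` in both).  (Alternatively `fw1` does not apply directly because `Gf l A z`
depends on `e`; use `forw` with `h e x = rl m (Gf l (Y e s) z) (insert x (Y e s)) z`.)
Finally `rl l (Gf l A z) A z ≤ zt ξ l l * ql l A z`: by `Gf_spec` if `ql l A z > 0`, and by
`rl_le_ql` (both are `0`) otherwise; `zt ξ (m+1) (m+1) = ξ * zt ξ m 0` (`zt_ll`), and
`EE (ql l (Y e s) z) = EE (fz z (Y e t)) = PP (MMe t e z)` by `fw` with `Φ = 1`.  Hence the bound
`zt ξ l l / zt ξ m 0 = ξ`.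
`mass_not_I`: sum over `z` and `t < M`; for `t < l` the event `MMe` is empty (`beta_le_of_MMe`,
`l ≤ β`), and `t < M ≤ N`.
-/

namespace Pool.Agent.Lib.P0fc

open Finset Pool.Agent.Lib.P0fb

section

variable {α : Type} [Fintype α] [DecidableEq α] {E : Type} [AddCommGroup E] [Module ℝ E] {N : ℕ}
variable (v : α → E) (p : Pm)

namespace LIncAux

theorem EE_const_mul_div (c : ℝ) (f : (Fin N ≃ α) → ℝ) :
    EE (fun e => f e / c) = EE f / c := by
  rw [div_eq_inv_mul, ← EE_mul_left]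
  exact EE_congr fun e => by rw [div_eq_inv_mul]

theorem step (hN : Fintype.card α = N) {m s : ℕ} (hs : s < N) (z : α) :
    EE (fun e : Fin N ≃ α => rl v p m (Gf v p (m + 1) (Y e s) z) (Y e (s + 1)) z) =
      EE (fun e : Fin N ≃ α => rl v p (m + 1) (Gf v p (m + 1) (Y e s) z) (Y e s) z) := by
  have h1 : ∀ e : Fin N ≃ α, Y e (s + 1) = insert (e ⟨s, hs⟩) (Y e s) :=
    fun e => Y_succ e ⟨s, hs⟩
  have h2 := forw (N := N) (α := α) ⟨s, hs⟩
    (fun e x => rl v p m (Gf v p (m + 1) (Y e s) z) (insert x (Y e s)) z) ?_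
  · have h3 : EE (fun e : Fin N ≃ α =>
        rl v p m (Gf v p (m + 1) (Y e s) z) (Y e (s + 1)) z) =
        EE (fun e : Fin N ≃ α =>
          rl v p m (Gf v p (m + 1) (Y e s) z) (insert (e ⟨s, hs⟩) (Y e s)) z) :=
      EE_congr fun e => by rw [h1 e]
    rw [h3, h2]
    refine EE_congr fun e => ?_
    unfold rl
    rw [Function.iterate_succ_apply']
    unfold Av
    rw [card_Y e hs.le, hN]
  · intro x e i j hi hj
    have : Y ((Equiv.swap i j).trans e) s = Y e s := Y_swap_past e hi hj le_rfl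
    simp only [this]

theorem main (hN : Fintype.card α = N) (hξ : 0 < p.ξ) (hξ2 : p.ξ ≤ 1 / 2) {m s : ℕ}
    (hs : s + (m + 1) ≤ N) (z : α) :
    PP (fun e : Fin N ≃ α => MMe v p (s + (m + 1)) e z ∧
        ¬ Gf v p (m + 1) (Y e s) z ⊆ Gf v p m (Y e (s + 1)) z) ≤
      p.ξ * PP (fun e : Fin N ≃ α => MMe v p (s + (m + 1)) e z) := by
  have hζ : 0 < zt p.ξ m 0 := zt_pos hξ m 0
  have hsN : s < N := by omega
  have e1 : PP (fun e : Fin N ≃ α => MMe v p (s + (m + 1)) e z ∧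
        ¬ Gf v p (m + 1) (Y e s) z ⊆ Gf v p m (Y e (s + 1)) z) =
      EE (fun e : Fin N ≃ α => ind (¬ Gf v p (m + 1) (Y e s) z ⊆ Gf v p m (Y e (s + 1)) z) *
        fz v p z (Y e ((s + 1) + m))) := by
    unfold PP
    refine EE_congr fun e => ?_
    rw [ind_and, mul_comm]
    have : (s + 1) + m = s + (m + 1) := by omega
    rw [this]
    rfl
  have hpast : PastM (s + 1) (fun e : Fin N ≃ α =>
      ind (¬ Gf v p (m + 1) (Y e s) z ⊆ Gf v p m (Y e (s + 1)) z)) := by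
    intro e i j hi hj
    have h1 : Y ((Equiv.swap i j).trans e) s = Y e s := Y_swap_past e hi hj (Nat.le_succ s)
    have h2 : Y ((Equiv.swap i j).trans e) (s + 1) = Y e (s + 1) := Y_swap_past e hi hj le_rfl
    simp only [h1, h2]
  have e2 := fw (N := N) (s := s + 1) (l := m) (by omega) hN hpast (fz v p z)
  have e3 : EE (fun e : Fin N ≃ α => ind (¬ Gf v p (m + 1) (Y e s) z ⊆ Gf v p m (Y e (s + 1)) z) *
        (Av^[m] (fz v p z)) (Y e (s + 1))) ≤
      EE (fun e : Fin N ≃ α =>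
        rl v p m (Gf v p (m + 1) (Y e s) z) (Y e (s + 1)) z / zt p.ξ m 0) := by
    refine EE_mono fun e => ?_
    change _ * ql v p m (Y e (s + 1)) z ≤ _
    have hr := rl_nonneg v p m (Gf v p (m + 1) (Y e s) z) (Y e (s + 1)) z
    have hq := ql_nonneg v p m (Y e (s + 1)) z
    by_cases hsub : Gf v p (m + 1) (Y e s) z ⊆ Gf v p m (Y e (s + 1)) z
    · rw [ind_not_of (not_not.2 hsub), zero_mul]
      exact div_nonneg hr hζ.le
    · rw [ind_of hsub, one_mul]
      rcases hq.eq_or_lt with h0 | h0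
      · rw [← h0]
        exact div_nonneg hr hζ.le
      · have hspec := Gf_spec v p hξ hξ2 h0
        rw [le_div_iff₀ hζ]
        by_contra hcon
        rw [not_le] at hcon
        exact hsub (hspec.2.2.2 _ (by rw [mul_comm]; exact hcon.le))
  have e4 : EE (fun e : Fin N ≃ α =>
        rl v p (m + 1) (Gf v p (m + 1) (Y e s) z) (Y e s) z) ≤
      EE (fun e : Fin N ≃ α => zt p.ξ (m + 1) (m + 1) * ql v p (m + 1) (Y e s) z) := by
    refine EE_mono fun e => ?_
    have hq := ql_nonneg v p (m + 1) (Y e s) z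
    rcases hq.eq_or_lt with h0 | h0
    · rw [← h0, mul_zero]
      have := rl_le_ql v p (m + 1) (Gf v p (m + 1) (Y e s) z) (Y e s) z
      rwa [← h0] at this
    · exact (Gf_spec v p hξ hξ2 h0).2.2.1
  have e5 : EE (fun e : Fin N ≃ α => ql v p (m + 1) (Y e s) z) =
      PP (fun e : Fin N ≃ α => MMe v p (s + (m + 1)) e z) := by
    have h := fw (N := N) (s := s) (l := m + 1) hs hN (Φ := fun _ => 1)
      (fun _ _ _ _ _ => rfl) (fz v p z)
    simp only [one_mul] at h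
    unfold ql
    rw [← h]
    rfl
  rw [e1, e2]
  refine e3.trans ?_
  rw [EE_const_mul_div, step v p hN hsN, div_le_iff₀ hζ]
  refine e4.trans ?_
  rw [EE_mul_left, e5, zt_ll]
  exact le_of_eq (by ring)

end LIncAux

theorem PP_not_I (hN : Fintype.card α = N) (hξ : 0 < p.ξ) (hξ2 : p.ξ ≤ 1 / 2) {l t : ℕ}
    (hl : 1 ≤ l) (hlt : l ≤ t) (ht : t ≤ N) (z : α) :
    PP (fun e : Fin N ≃ α => MMe v p t e z ∧ ¬ Ie v p l t e z) ≤
      p.ξ * PP (fun e : Fin N ≃ α => MMe v p t e z) := by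
  obtain ⟨m, rfl⟩ : ∃ m, l = m + 1 := ⟨l - 1, by omega⟩
  obtain ⟨s, rfl⟩ : ∃ s, t = s + (m + 1) := ⟨t - (m + 1), by omega⟩
  have h := LIncAux.main v p hN hξ hξ2 ht z
  unfold Ie
  rw [Nat.add_sub_cancel, Nat.add_sub_cancel]
  exact h

theorem mass_not_I {M : ℕ} (hN : Fintype.card α = N) (hM : M ≤ N) (hξ : 0 < p.ξ)
    (hξ2 : p.ξ ≤ 1 / 2) {l : ℕ} (hl : 1 ≤ l) (hlβ : l ≤ p.β) :
    mass M (fun t (e : Fin N ≃ α) z => MMe v p t e z ∧ ¬ Ie v p l t e z) ≤
      p.ξ * mass M (fun t (e : Fin N ≃ α) z => MMe v p t e z) := by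
  unfold mass
  rw [mul_sum]
  refine sum_le_sum fun t ht => ?_
  rw [mul_div_assoc', mul_sum]
  refine div_le_div_of_nonneg_right (sum_le_sum fun z _ => ?_) (Nat.cast_nonneg _)
  by_cases hlt : l ≤ t
  · exact PP_not_I v p hN hξ hξ2 hl hlt ((mem_range.1 ht).le.trans hM) z
  · have h0 : PP (fun e : Fin N ≃ α => MMe v p t e z ∧ ¬ Ie v p l t e z) = 0 := by
      unfold PP
      rw [← EE_const hN (0 : ℝ)]
      refine EE_congr fun e => ind_not_of fun h => ?_
      have := beta_le_of_MMe h.1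
      omega
    rw [h0]
    exact mul_nonneg hξ.le (PP_nonneg _)

end

end Pool.Agent.Lib.P0fc
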