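import Mathlib
import Pool.Agent.Lib.P0fc.LOp

/-!
# Random tuples have no small relations over `Y_t` (4.6, Ga)

`Good` gives: `M + 1/ν ≤ M₂ ≤ ν N`, `β ≤ M` (from `hE`, as `1 - ν > 0` some `e` has `Ex` at some `t < M`,
so `β + σ + 1 ≤ card (nc (Y e (t+1))) ≤ t + 1 ≤ M`), `σ ≤ ν β`, hence `σ ≤ ν N`.

Proofs.
* `ssup_cases`: `c i ≠ 0` for some `i`; then `v (g i) ∈ span (v '' (T ∪ {g j : j ≠ i}))` (solve), and
  `T' = T ∪ {g j : j ≠ i}` has at most `T.card + k < β` elements; if `g i ∉ A ∪ {g j : j ≠ i}` then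
  `T' ⊆ (A ∪ {g j : j ≠ i}).erase (g i)`, so `g i ∈ sm (A ∪ {g j : j ≠ i})`.
* `sum_tuple_le`: prove first the version where monotonicity is only assumed for sets of at most
  `A.card + k` elements: for all `k`, `A`, `F` with `0 ≤ F`, `F U ≤ F U'` for `U ⊆ U'`,
  `U'.card ≤ A.card + k`, and `A.card + k ≤ N`: `∑ g : Fin k → α, F (A ∪ image g) ≤ N^k * (Av^[k] F) A`.
  Induction on `k` (`F` general).  Step `k → k + 1` (`A.card + k + 1 ≤ N`): write `g = (g', x)`
  (`Fin.snocEquiv` / `Fin.consEquiv`, `Fintype.sum_equiv`, `Fintype.sum_prod_type`), `B = A ∪ image g'`, so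
  `B.card ≤ A.card + k < N`.  Then `∑ x, F (insert x B) ≤ N * Av F B`: for `x ∈ B` the term is `F B`, which
  is at most every `F (insert y B)`, `y ∉ B`, hence at most `Av F B`, and the terms `x ∉ B` sum up to
  `(N - B.card) * Av F B`.  `Av F` is nonnegative, and monotone for sets of at most `A.card + k`
  elements: it suffices to compare `U` and `U' = insert y U`, `y ∉ U`, `U'.card ≤ A.card + k < N`; with
  `m = N - U.card ≥ 2`, `S = ∑_{x ∉ U, x ≠ y} F (insert x U)`, `h = F (insert y U)`: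
  `Av F U' ≥ S / (m-1)` and `Av F U' ≥ h` termwise, so `Av F U' ≥ (S + h) / m = Av F U`.  Apply the
  induction hypothesis to `Av F` and `Function.iterate_succ_apply` (`Av^[k+1] F = Av^[k] (Av F)`).
* `Ga`: by `ssup_cases` the indicator of `ssup (Y e t) g` is at most the sum over `i : Fin (k+1)` of
  `ind (g i ∈ B_i) + ind (g i ∉ B_i ∧ g i ∈ sm B_i)`, `B_i = Y e t ∪ {g j : j ≠ i}`.  For fixed `i` sum over `g i`
  first (the other coordinates `g' : Fin k → α`; `Fin.insertNthEquiv` or `Fin.succAbove`):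
  the first sum is at most `card B_i ≤ t + k ≤ M₂ ≤ ν N`, the second at most
  `card (sm B_i) ≤ σ + N * ind (σ < card (sm B_i))`.  So the left side of `Ga` is at most
  `(k+1) * (ν + σ/N) * ∑_t PP (OK ∧ κ N ≤ nt) + (k+1) * ∑_t EE (ind (OK (Y e t)) * N^(-k) ∑_{g'} ind (σ < card (sm (Y e t ∪ image g'))))`.
  By `sum_tuple_le` and `fw` (with `Φ = ind (OK (Y e t))`) the last sum is at most
  `∑_{t < M} PP (card (sm (Y e t)) ≤ σ ∧ σ < card (sm (Y e (t+k))))`; for every `e` at most `k` of the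
  `t < M` satisfy this (the function `t ↦ card (sm (Y e t))` is nondecreasing), and none if
  `card (sm (Y e M₂)) ≤ σ` (as `t + k ≤ M + k ≤ M₂`), an event of probability at least `1 - ν`;
  so it is at most `k ν`.  Altogether
  `(k+1) * (2 ν / κ + k ν) ≤ 4 (k+1)^2 ν / κ` (`κ ≤ 1`).
-/

namespace Pool.Agent.Lib.P0fc

open Finset Pool.Agent.Lib.P0fb

namespace LGaAux

section Gen

variable {α : Type} [Fintype α] [DecidableEq α]

omit [Fintype α] in
theorem image_insertNth (k : ℕ) (i : Fin (k + 1)) (x : α) (g' : Fin k → α) :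
    ((univ.erase i).image (Fin.insertNth (α := fun _ => α) i x g') : Finset α) =
      univ.image g' := by
  ext y
  simp only [mem_image, mem_erase, mem_univ, and_true, true_and]
  constructor
  · rintro ⟨j, hj, rfl⟩
    obtain ⟨l, rfl⟩ := Fin.exists_succAbove_eq hj
    exact ⟨l, by rw [Fin.insertNth_apply_succAbove]⟩
  · rintro ⟨l, rfl⟩
    exact ⟨i.succAbove l, Fin.succAbove_ne i l, by rw [Fin.insertNth_apply_succAbove]⟩

omit [Fintype α] in
theorem image_univ_insertNth (k : ℕ) (i : Fin (k + 1)) (x : α) (g' : Fin k → α) :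
    (univ.image (Fin.insertNth (α := fun _ => α) i x g') : Finset α) =
      insert x (univ.image g') := by
  ext y
  simp only [mem_image, mem_insert, mem_univ, true_and]
  constructor
  · rintro ⟨j, rfl⟩
    by_cases hj : j = i
    · subst hj
      left
      rw [Fin.insertNth_apply_same]
    · obtain ⟨l, rfl⟩ := Fin.exists_succAbove_eq hj
      exact Or.inr ⟨l, by rw [Fin.insertNth_apply_succAbove]⟩
  · rintro (rfl | ⟨l, rfl⟩)
    · exact ⟨i, by rw [Fin.insertNth_apply_same]⟩
    · exact ⟨i.succAbove l, by rw [Fin.insertNth_apply_succAbove]⟩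

omit [DecidableEq α] in
theorem sum_split (k : ℕ) (i : Fin (k + 1)) (f : (Fin (k + 1) → α) → ℝ) :
    ∑ g : Fin (k + 1) → α, f g =
      ∑ g' : Fin k → α, ∑ x : α, f (Fin.insertNth (α := fun _ => α) i x g') := by
  rw [← (Fin.insertNthEquiv (fun _ : Fin (k + 1) => α) i).sum_comp, Fintype.sum_prod_type,
    Finset.sum_comm]
  rfl

variable {N : ℕ}

theorem sum_insert_le (hN : Fintype.card α = N) {F : Finset α → ℝ} {B : Finset α}
    (hB : B.card < N) (hF : ∀ y, y ∉ B → F B ≤ F (insert y B)) :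
    ∑ x, F (insert x B) ≤ (N : ℝ) * Av F B := by
  have hD : (0 : ℝ) < (N : ℝ) - (B.card : ℝ) := by
    have : (B.card : ℝ) < (N : ℝ) := by exact_mod_cast hB
    linarith
  have hcc : ((Bᶜ).card : ℝ) = (N : ℝ) - (B.card : ℝ) := by
    rw [card_compl, hN, Nat.cast_sub hB.le]
  have h1 : ∑ x, F (insert x B) = ∑ x ∈ B, F (insert x B) + ∑ x ∈ Bᶜ, F (insert x B) :=
    (sum_add_sum_compl B _).symm
  have h2 : ∑ x ∈ B, F (insert x B) = (B.card : ℝ) * F B := by
    rw [← nsmul_eq_mul, ← sum_const]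
    exact sum_congr rfl fun x hx => by rw [insert_eq_of_mem hx]
  have h3 : ((N : ℝ) - (B.card : ℝ)) * F B ≤ ∑ x ∈ Bᶜ, F (insert x B) := by
    rw [← hcc, ← nsmul_eq_mul, ← sum_const]
    exact sum_le_sum fun x hx => hF x (mem_compl.1 hx)
  have h4 : Av F B = (∑ x ∈ Bᶜ, F (insert x B)) / ((N : ℝ) - (B.card : ℝ)) := by
    unfold Av
    rw [hN]
  set S := ∑ x ∈ Bᶜ, F (insert x B) with hS
  have h5 : F B ≤ Av F B := by
    rw [h4, le_div_iff₀ hD, mul_comm]
    exact h3
  have h6 : S = ((N : ℝ) - (B.card : ℝ)) * Av F B := by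
    rw [h4, mul_div_cancel₀ _ hD.ne']
  rw [h1, h2, h6]
  have h7 : (B.card : ℝ) * F B ≤ (B.card : ℝ) * Av F B :=
    mul_le_mul_of_nonneg_left h5 (Nat.cast_nonneg _)
  linarith

theorem Av_step (hN : Fintype.card α = N) {F : Finset α → ℝ} {U : Finset α} {y : α}
    (hy : y ∉ U) (hU : U.card + 1 < N)
    (hF : ∀ x, x ∉ insert y U → F (insert x U) ≤ F (insert x (insert y U)) ∧
      F (insert y U) ≤ F (insert x (insert y U))) :
    Av F U ≤ Av F (insert y U) := by
  have hc1 : ((insert y U).card : ℝ) = (U.card : ℝ) + 1 := by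
    rw [card_insert_of_notMem hy]
    push_cast
    ring
  have hm : (0 : ℝ) < (N : ℝ) - (U.card : ℝ) - 1 := by
    have : ((U.card : ℝ) + 1) < (N : ℝ) := by exact_mod_cast hU
    linarith
  have hcc : (((insert y U)ᶜ).card : ℝ) = (N : ℝ) - (U.card : ℝ) - 1 := by
    rw [card_compl, hN, card_insert_of_notMem hy, Nat.cast_sub (by omega)]
    push_cast
    ring
  have h1 : Uᶜ = insert y (insert y U)ᶜ := by
    ext x
    simp only [mem_compl, mem_insert, not_or]
    by_cases hx : x = y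
    · subst hx
      simp [hy]
    · simp [hx]
  have h2 : ∑ x ∈ Uᶜ, F (insert x U) = F (insert y U) + ∑ x ∈ (insert y U)ᶜ, F (insert x U) := by
    rw [h1, sum_insert]
    simp
  set S' := ∑ x ∈ (insert y U)ᶜ, F (insert x (insert y U)) with hS'
  have h3 : ∑ x ∈ (insert y U)ᶜ, F (insert x U) ≤ S' :=
    sum_le_sum fun x hx => (hF x (mem_compl.1 hx)).1
  have h4 : ((N : ℝ) - (U.card : ℝ) - 1) * F (insert y U) ≤ S' := by
    rw [← hcc, ← nsmul_eq_mul, ← sum_const]
    exact sum_le_sum fun x hx => (hF x (mem_compl.1 hx)).2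
  have h5 : Av F U = (∑ x ∈ Uᶜ, F (insert x U)) / ((N : ℝ) - (U.card : ℝ)) := by
    unfold Av
    rw [hN]
  have h6 : Av F (insert y U) = S' / ((N : ℝ) - (U.card : ℝ) - 1) := by
    unfold Av
    rw [hN, hc1]
    congr 1
    ring
  rw [h5, h6, h2, div_le_div_iff₀ (by linarith) hm]
  nlinarith

theorem Av_mono_set (hN : Fintype.card α = N) {F : Finset α → ℝ} {b : ℕ} (hb : b + 1 ≤ N)
    (hF : ∀ U U' : Finset α, U ⊆ U' → U'.card ≤ b + 1 → F U ≤ F U') :
    ∀ U U' : Finset α, U ⊆ U' → U'.card ≤ b → Av F U ≤ Av F U' := by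
  have key : ∀ (D U : Finset α), (U ∪ D).card ≤ b → Av F U ≤ Av F (U ∪ D) := by
    intro D
    induction D using Finset.induction_on with
    | empty =>
      intro U _
      rw [union_empty]
    | insert y D hy ih =>
      intro U hU
      rw [union_insert] at hU ⊢
      have h1 : (U ∪ D).card ≤ b := (card_le_card (subset_insert _ _)).trans hU
      by_cases hyU : y ∈ U ∪ D
      · rw [insert_eq_of_mem hyU]
        exact ih U h1
      · refine (ih U h1).trans (Av_step hN hyU ?_ fun x hx => ⟨?_, ?_⟩)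
        · rw [card_insert_of_notMem hyU] at hU
          omega
        · refine hF _ _ (insert_subset_insert _ (subset_insert _ _)) ?_
          exact (card_insert_le _ _).trans (by omega)
        · refine hF _ _ (subset_insert _ _) ?_
          exact (card_insert_le _ _).trans (by omega)
  intro U U' hUU hU'
  have h1 : U ∪ U' = U' := union_eq_right.2 hUU
  have h2 := key U' U (by rw [h1]; exact hU')
  rwa [h1] at h2

theorem stl (hN : Fintype.card α = N) (k : ℕ) : ∀ (A : Finset α) (F : Finset α → ℝ),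
    (∀ U, 0 ≤ F U) → (∀ U U' : Finset α, U ⊆ U' → U'.card ≤ A.card + k → F U ≤ F U') →
    A.card + k ≤ N → ∑ g : Fin k → α, F (A ∪ univ.image g) ≤ (N : ℝ) ^ k * (Av^[k] F) A := by
  induction k with
  | zero =>
    intro A F _ _ _
    simp
  | succ k ih =>
    intro A F hF0 hF hA
    rw [sum_split k 0]
    have h1 : ∀ g' : Fin k → α, ∑ x : α, F (A ∪ univ.image
        (Fin.insertNth (α := fun _ => α) 0 x g')) ≤ (N : ℝ) * Av F (A ∪ univ.image g') := by
      intro g'
      have hc : (A ∪ univ.image g').card ≤ A.card + k := by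
        refine (card_union_le _ _).trans ?_
        have := card_image_le (s := (univ : Finset (Fin k))) (f := g')
        rw [card_univ, Fintype.card_fin] at this
        omega
      have h2 := sum_insert_le hN (F := F) (B := A ∪ univ.image g') (by omega) (fun y hy => by
        refine hF _ _ (subset_insert _ _) ?_
        exact (card_insert_le _ _).trans (by omega))
      refine le_trans (le_of_eq ?_) h2
      refine sum_congr rfl fun x _ => ?_
      rw [image_univ_insertNth, union_insert]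
    have h3 := ih A (Av F) (fun U => Av_nonneg hF0 U) (Av_mono_set hN (by omega) hF) (by omega)
    calc ∑ g' : Fin k → α, ∑ x : α, F (A ∪ univ.image
        (Fin.insertNth (α := fun _ => α) 0 x g')) ≤
        ∑ g' : Fin k → α, (N : ℝ) * Av F (A ∪ univ.image g') := sum_le_sum fun g' _ => h1 g'
      _ = (N : ℝ) * ∑ g' : Fin k → α, Av F (A ∪ univ.image g') := by rw [mul_sum]
      _ ≤ (N : ℝ) * ((N : ℝ) ^ k * (Av^[k] (Av F)) A) :=
        mul_le_mul_of_nonneg_left h3 (Nat.cast_nonneg _)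
      _ = (N : ℝ) ^ (k + 1) * (Av^[k + 1] F) A := by
        rw [Function.iterate_succ_apply, pow_succ]
        ring

/-- at most `k` times `t < M` with `a t ≤ σ < a (t + k)` -/
theorem count_le (a : ℕ → ℕ) (ha : Monotone a) (σ k M : ℕ) :
    ∑ t ∈ range M, ind (a t ≤ σ ∧ σ < a (t + k)) ≤ (k : ℝ) := by
  classical
  have h1 : ∑ t ∈ range M, ind (a t ≤ σ ∧ σ < a (t + k)) =
      (((range M).filter fun t => a t ≤ σ ∧ σ < a (t + k)).card : ℝ) := by
    rw [card_filter]
    push_cast
    refine sum_congr rfl fun t _ => ?_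
    by_cases h : a t ≤ σ ∧ σ < a (t + k)
    · rw [ind_of h, if_pos h]
    · rw [ind_not_of h, if_neg h]
  rw [h1]
  norm_cast
  set S := (range M).filter fun t => a t ≤ σ ∧ σ < a (t + k) with hS
  rcases S.eq_empty_or_nonempty with h | h
  · rw [h]
    simp
  · set t₀ := S.min' h with ht₀
    have h2 : S ⊆ Ico t₀ (t₀ + k) := by
      intro t ht
      rw [mem_Ico]
      refine ⟨min'_le _ _ ht, ?_⟩
      by_contra hc
      push Not at hc
      have h3 := (mem_filter.1 ht).2.1
      have h4 := (mem_filter.1 (min'_mem S h)).2.2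
      rw [← ht₀] at h4
      have := ha hc
      omega
    have h3 := card_le_card h2
    rw [Nat.card_Ico] at h3
    omega

end Gen

section Good

variable {α : Type} [Fintype α] [DecidableEq α] {E : Type} [AddCommGroup E] [Module ℝ E] {N : ℕ}
variable (v : α → E)

theorem beta_le {M M₂ β σ : ℕ} {ε ν : ℝ} (hG : Good v N M M₂ β σ ε ν) : β ≤ M := by
  by_contra hc
  push Not at hc
  have h1 : PP (fun e : Fin N ≃ α => ∃ t < M, Ex v β σ e t) ≤ 0 := by
    unfold PP
    rw [← EE_const (α := α) hG.card 0]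
    refine EE_mono fun e => ?_
    rw [ind_not_of]
    rintro ⟨t, ht, hx⟩
    have h2 := hx.2
    have h3 : (nc v (Y e (t + 1))).card ≤ (Y e (t + 1)).card := by
      refine card_le_card ?_
      unfold nc
      exact filter_subset _ _
    have h4 := card_Y_le e (t + 1)
    omega
  have h2 := hG.hE
  have h3 := hG.hν1
  linarith

theorem facts {M M₂ β σ : ℕ} {ε ν : ℝ} (hG : Good v N M M₂ β σ ε ν) {k : ℕ}
    (hk : (k : ℝ) ≤ 1 / ν) : M + k ≤ M₂ ∧ M₂ ≤ N ∧ (0 : ℝ) < N ∧ (σ : ℝ) ≤ ν * N := by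
  have hν := hG.hν
  have hν1 := hG.hν1
  have h1 : ((M + k : ℕ) : ℝ) ≤ (M₂ : ℝ) := by
    push_cast
    have := hG.hM
    linarith
  have h2 : M + k ≤ M₂ := by exact_mod_cast h1
  have h3 : (0 : ℝ) < 1 / ν := by positivity
  have h4 : (0 : ℝ) < M₂ := by
    have := hG.hM
    have h5 : (0 : ℝ) ≤ M := Nat.cast_nonneg _
    linarith
  have h5 : (0 : ℝ) < N := by
    by_contra hc
    push Not at hc
    have := hG.hN
    nlinarith
  have h6 : (M₂ : ℝ) ≤ N := by
    have := hG.hN
    nlinarith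
  have h7 : M₂ ≤ N := by exact_mod_cast h6
  refine ⟨h2, h7, h5, ?_⟩
  have h8 := beta_le v hG
  have h9 : (β : ℝ) ≤ N := by exact_mod_cast (h8.trans (by omega : M ≤ N))
  calc (σ : ℝ) ≤ ν * β := hG.hσ
    _ ≤ ν * N := mul_le_mul_of_nonneg_left h9 hν.le

theorem sum_ind_mem (B : Finset α) : ∑ x : α, ind (x ∈ B) = (B.card : ℝ) := by
  have h : ∀ x : α, ind (x ∈ B) = if x ∈ B then 1 else 0 := by
    intro x
    by_cases hx : x ∈ B
    · rw [ind_of hx, if_pos hx]
    · rw [ind_not_of hx, if_neg hx]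
  simp_rw [h]
  rw [sum_boole, filter_mem_eq_inter, univ_inter]

theorem card_sm_le (hN : Fintype.card α = N) (β σ : ℕ) (B : Finset α) :
    ((sm v β B).card : ℝ) ≤ σ + N * ind (σ < (sm v β B).card) := by
  by_cases h : σ < (sm v β B).card
  · rw [ind_of h, mul_one]
    have h1 : (sm v β B).card ≤ N := by
      rw [← hN]
      exact card_le_univ _
    have h2 : ((sm v β B).card : ℝ) ≤ N := by exact_mod_cast h1
    have h3 : (0 : ℝ) ≤ σ := Nat.cast_nonneg _
    linarith
  · rw [ind_not_of h, mul_zero, add_zero]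
    push Not at h
    exact_mod_cast h

end Good

end LGaAux

open LGaAux

section

variable {α : Type} [Fintype α] [DecidableEq α] {E : Type} [AddCommGroup E] [Module ℝ E] {N : ℕ}
variable (v : α → E)

theorem ssup_cases {β k : ℕ} {A : Finset α} {g : Fin (k + 1) → α} (h : ssup v β k A g) :
    ∃ i : Fin (k + 1), g i ∈ A ∪ (univ.erase i).image g ∨
      (g i ∉ A ∪ (univ.erase i).image g ∧ g i ∈ sm v β (A ∪ (univ.erase i).image g)) := by
  obtain ⟨c, hc, T, hT, hTk, hs⟩ := h
  obtain ⟨i, hi⟩ := Function.ne_iff.1 hc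
  have hi : c i ≠ 0 := hi
  refine ⟨i, ?_⟩
  by_cases hg : g i ∈ A ∪ (univ.erase i).image g
  · exact Or.inl hg
  · refine Or.inr ⟨hg, ?_⟩
    rw [mem_sm]
    refine ⟨T ∪ (univ.erase i).image g, ?_, ?_, ?_⟩
    · rw [erase_eq_of_notMem hg]
      exact union_subset_union_left hT
    · refine lt_of_le_of_lt (card_union_le _ _) ?_
      have := card_image_le (s := (univ.erase i : Finset (Fin (k + 1)))) (f := g)
      rw [card_erase_of_mem (mem_univ i), card_univ, Fintype.card_fin, Nat.add_sub_cancel] at this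
      omega
    · rw [mem_vcl]
      have h1 : c i • v (g i) ∈ Submodule.span ℝ (v '' ((T ∪ (univ.erase i).image g :
          Finset α) : Set α)) := by
        have h2 : c i • v (g i) = ∑ j, c j • v (g j) - ∑ j ∈ univ.erase i, c j • v (g j) := by
          rw [← add_sum_erase _ _ (mem_univ i)]
          abel
        rw [h2]
        refine Submodule.sub_mem _ ?_ (Submodule.sum_mem _ fun j hj => ?_)
        · refine (Submodule.span_mono (Set.image_mono (coe_subset.2 ?_))) hs
          exact subset_union_left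
        · refine Submodule.smul_mem _ _ (Submodule.subset_span ⟨g j, ?_, rfl⟩)
          rw [mem_coe]
          exact mem_union_right _ (mem_image_of_mem _ hj)
      exact (Submodule.smul_mem_iff _ hi).1 h1

theorem sum_tuple_le (hN : Fintype.card α = N) {F : Finset α → ℝ} (hF0 : ∀ U, 0 ≤ F U)
    (hF : ∀ U U', U ⊆ U' → F U ≤ F U') (k : ℕ) (A : Finset α) (hA : A.card + k ≤ N) :
    ∑ g : Fin k → α, F (A ∪ univ.image g) ≤ (N : ℝ) ^ k * (Av^[k] F) A := stl hN k A F hF0 (fun U U' h _ => hF U U' h) hA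

theorem Ga {M M₂ β σ : ℕ} {ε ν κ : ℝ} (hG : Good v N M M₂ β σ ε ν) (hκ : 0 < κ) (hκ1 : κ ≤ 1)
    {k : ℕ} (hk : (k : ℝ) ≤ 1 / ν)
    (hP : ∑ t ∈ range M, PP (fun e : Fin N ≃ α => OK v β σ (Y e t) ∧
        κ * (Fintype.card α : ℝ) ≤ ((nt v β (Y e t)).card : ℝ)) ≤ 1 / κ) :
    (∑ g : Fin (k + 1) → α, ∑ t ∈ range M, PP (fun e : Fin N ≃ α => OK v β σ (Y e t) ∧
        κ * (Fintype.card α : ℝ) ≤ ((nt v β (Y e t)).card : ℝ) ∧ ssup v β k (Y e t) g)) /
        (Fintype.card α : ℝ) ^ (k + 1) ≤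
      4 * ((k : ℝ) + 1) ^ 2 * ν / κ := by
  classical
  obtain ⟨hMk, hM₂N, hN0, hσN⟩ := facts v hG hk
  have hcard := hG.card
  have hν := hG.hν
  rw [hcard] at hP ⊢
  set PE : ℕ → (Fin N ≃ α) → Prop := fun t e => OK v β σ (Y e t) ∧
    κ * (N : ℝ) ≤ ((nt v β (Y e t)).card : ℝ) with hPE
  have hk0 : (0 : ℝ) ≤ k := Nat.cast_nonneg _
  have hNk : (0 : ℝ) < (N : ℝ) ^ k := by positivity
  have hNk1 : (0 : ℝ) < (N : ℝ) ^ (k + 1) := by positivity
  -- the function `F`
  set F : Finset α → ℝ := fun U => ind (σ < (sm v β U).card) with hF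
  have hF0 : ∀ U, 0 ≤ F U := fun U => ind_nonneg _
  have hFm : ∀ U U', U ⊆ U' → F U ≤ F U' := fun U U' h =>
    ind_mono fun h1 => h1.trans_le (card_le_card (sm_mono h))
  -- pointwise bound for one coordinate
  have hpt : ∀ (e : Fin N ≃ α) (t : ℕ), t < M → ∀ i : Fin (k + 1),
      ∑ g : Fin (k + 1) → α, ind (PE t e ∧ (g i ∈ Y e t ∪ (univ.erase i).image g ∨
        (g i ∉ Y e t ∪ (univ.erase i).image g ∧
          g i ∈ sm v β (Y e t ∪ (univ.erase i).image g)))) ≤
      (N : ℝ) ^ (k + 1) * (2 * ν) * ind (PE t e) +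
        (N : ℝ) ^ (k + 1) * (ind (OK v β σ (Y e t)) * (Av^[k] F) (Y e t)) := by
    intro e t ht i
    rw [sum_split k i]
    have h1 : ∀ g' : Fin k → α, ∑ x : α, ind (PE t e ∧
        ((Fin.insertNth (α := fun _ => α) i x g') i ∈ Y e t ∪
          (univ.erase i).image (Fin.insertNth (α := fun _ => α) i x g') ∨
        ((Fin.insertNth (α := fun _ => α) i x g') i ∉ Y e t ∪
          (univ.erase i).image (Fin.insertNth (α := fun _ => α) i x g') ∧
          (Fin.insertNth (α := fun _ => α) i x g') i ∈ sm v β (Y e t ∪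
          (univ.erase i).image (Fin.insertNth (α := fun _ => α) i x g'))))) ≤
        ind (PE t e) * (2 * ν * N) + ind (OK v β σ (Y e t)) *
          (N * F (Y e t ∪ univ.image g')) := by
      intro g'
      have h2 : ∀ x : α, ind (PE t e ∧
        ((Fin.insertNth (α := fun _ => α) i x g') i ∈ Y e t ∪
          (univ.erase i).image (Fin.insertNth (α := fun _ => α) i x g') ∨
        ((Fin.insertNth (α := fun _ => α) i x g') i ∉ Y e t ∪
          (univ.erase i).image (Fin.insertNth (α := fun _ => α) i x g') ∧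
          (Fin.insertNth (α := fun _ => α) i x g') i ∈ sm v β (Y e t ∪
          (univ.erase i).image (Fin.insertNth (α := fun _ => α) i x g'))))) ≤
          ind (PE t e) * (ind (x ∈ Y e t ∪ univ.image g') +
            ind (x ∈ sm v β (Y e t ∪ univ.image g'))) := by
        intro x
        rw [image_insertNth, Fin.insertNth_apply_same, ind_and]
        refine mul_le_mul_of_nonneg_left ((ind_or_le _ _).trans ?_) (ind_nonneg _)
        exact add_le_add le_rfl (ind_mono fun h => h.2)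
      refine (sum_le_sum fun x _ => h2 x).trans ?_
      rw [← mul_sum, sum_add_distrib, sum_ind_mem, sum_ind_mem]
      have h3 : ((Y e t ∪ univ.image g').card : ℝ) ≤ ν * N := by
        have h4 : (Y e t ∪ univ.image g').card ≤ M₂ := by
          refine (card_union_le _ _).trans ?_
          have h5 := card_image_le (s := (univ : Finset (Fin k))) (f := g')
          rw [card_univ, Fintype.card_fin] at h5
          have h6 := card_Y_le e t
          omega
        have h7 : ((Y e t ∪ univ.image g').card : ℝ) ≤ (M₂ : ℝ) := by exact_mod_cast h4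
        exact h7.trans hG.hN
      have h4 := card_sm_le v hcard β σ (Y e t ∪ univ.image g')
      have h5 : ind (σ < (sm v β (Y e t ∪ univ.image g')).card) = F (Y e t ∪ univ.image g') := rfl
      rw [h5] at h4
      by_cases hpe : PE t e
      · rw [ind_of hpe, ind_of hpe.1]
        linarith
      · rw [ind_not_of hpe, zero_mul, zero_mul, zero_add]
        exact mul_nonneg (ind_nonneg _) (mul_nonneg hN0.le (hF0 _))
    refine (sum_le_sum fun g' _ => h1 g').trans ?_
    rw [sum_add_distrib, sum_const, card_univ, Fintype.card_fun, hcard, Fintype.card_fin,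
      nsmul_eq_mul, ← mul_sum, ← mul_sum]
    push_cast
    have h6 := sum_tuple_le (α := α) hcard hF0 hFm k (Y e t) (by
      have := card_Y_le e t
      omega)
    have h7 : ind (OK v β σ (Y e t)) * (N * ∑ g' : Fin k → α, F (Y e t ∪ univ.image g')) ≤
        ind (OK v β σ (Y e t)) * (N * ((N : ℝ) ^ k * (Av^[k] F) (Y e t))) :=
      mul_le_mul_of_nonneg_left (mul_le_mul_of_nonneg_left h6 hN0.le) (ind_nonneg _)
    have h8 : (N : ℝ) ^ (k + 1) = (N : ℝ) ^ k * N := pow_succ _ _
    rw [h8]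
    nlinarith
  -- the whole sum, pointwise in `e`
  have hsum : ∀ (e : Fin N ≃ α) (t : ℕ), t < M →
      ∑ g : Fin (k + 1) → α, ind (OK v β σ (Y e t) ∧
        κ * (N : ℝ) ≤ ((nt v β (Y e t)).card : ℝ) ∧ ssup v β k (Y e t) g) ≤
      ((k : ℝ) + 1) * ((N : ℝ) ^ (k + 1) * (2 * ν) * ind (PE t e) +
        (N : ℝ) ^ (k + 1) * (ind (OK v β σ (Y e t)) * (Av^[k] F) (Y e t))) := by
    intro e t ht
    have h1 : ∀ g : Fin (k + 1) → α, ind (OK v β σ (Y e t) ∧
        κ * (N : ℝ) ≤ ((nt v β (Y e t)).card : ℝ) ∧ ssup v β k (Y e t) g) ≤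
        ∑ i : Fin (k + 1), ind (PE t e ∧ (g i ∈ Y e t ∪ (univ.erase i).image g ∨
        (g i ∉ Y e t ∪ (univ.erase i).image g ∧
          g i ∈ sm v β (Y e t ∪ (univ.erase i).image g)))) := by
      intro g
      by_cases h : OK v β σ (Y e t) ∧
        κ * (N : ℝ) ≤ ((nt v β (Y e t)).card : ℝ) ∧ ssup v β k (Y e t) g
      · obtain ⟨i, hi⟩ := ssup_cases v h.2.2
        rw [ind_of h]
        have h3 : PE t e ∧ (g i ∈ Y e t ∪ (univ.erase i).image g ∨
          (g i ∉ Y e t ∪ (univ.erase i).image g ∧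
          g i ∈ sm v β (Y e t ∪ (univ.erase i).image g))) := ⟨⟨h.1, h.2.1⟩, hi⟩
        rw [← ind_of h3]
        exact single_le_sum (f := fun i => ind (PE t e ∧
          (g i ∈ Y e t ∪ (univ.erase i).image g ∨
          (g i ∉ Y e t ∪ (univ.erase i).image g ∧
          g i ∈ sm v β (Y e t ∪ (univ.erase i).image g))))) (fun _ _ => ind_nonneg _)
          (mem_univ i)
      · rw [ind_not_of h]
        exact sum_nonneg fun _ _ => ind_nonneg _
    refine (sum_le_sum fun g _ => h1 g).trans ?_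
    rw [sum_comm]
    refine (sum_le_sum fun i _ => hpt e t ht i).trans ?_
    rw [sum_const, card_univ, Fintype.card_fin, nsmul_eq_mul]
    push_cast
    exact le_rfl
  -- expectations
  have hEt : ∀ t, t < M → EE (fun e : Fin N ≃ α => ind (OK v β σ (Y e t)) * (Av^[k] F) (Y e t)) ≤
      EE (fun e : Fin N ≃ α => ind ((sm v β (Y e t)).card ≤ σ ∧
        σ < (sm v β (Y e (t + k))).card)) := by
    intro t ht
    have hpast : PastM t (fun e : Fin N ≃ α => ind (OK v β σ (Y e t))) := by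
      intro e i j hi hj
      change ind (OK v β σ (Y ((Equiv.swap i j).trans e) t)) = ind (OK v β σ (Y e t))
      rw [Y_swap_past e hi hj le_rfl]
    rw [← fw (s := t) (l := k) (by omega) hcard hpast F]
    refine EE_mono fun e => ?_
    have h1 : F (Y e (t + k)) = ind (σ < (sm v β (Y e (t + k))).card) := rfl
    rw [h1, ← ind_and]
    exact ind_mono fun h => ⟨h.1.2, h.2⟩
  have hcount : ∑ t ∈ range M, EE (fun e : Fin N ≃ α => ind ((sm v β (Y e t)).card ≤ σ ∧
        σ < (sm v β (Y e (t + k))).card)) ≤ k * ν := by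
    rw [← EE_sum]
    have h1 : ∀ e : Fin N ≃ α, ∑ t ∈ range M, ind ((sm v β (Y e t)).card ≤ σ ∧
        σ < (sm v β (Y e (t + k))).card) ≤
        k * ind (¬ ((sm v β (Y e M₂)).card ≤ σ ∧ (Bs v β (Y e M₂)).card ≤ σ)) := by
      intro e
      by_cases h : (sm v β (Y e M₂)).card ≤ σ ∧ (Bs v β (Y e M₂)).card ≤ σ
      · rw [ind_not_of (fun hc => hc h), mul_zero]
        refine le_of_eq (sum_eq_zero fun t ht => ind_not_of ?_)
        rintro ⟨_, h3⟩
        have h4 : (sm v β (Y e (t + k))).card ≤ (sm v β (Y e M₂)).card :=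
          card_le_card (sm_mono (Y_mono e (by
            have := mem_range.1 ht
            omega)))
        have := h.1
        omega
      · rw [ind_of h, mul_one]
        exact count_le (fun t => (sm v β (Y e t)).card)
          (fun t t' htt => card_le_card (sm_mono (Y_mono e htt))) σ k M
    refine (EE_mono h1).trans ?_
    rw [EE_mul_left]
    refine mul_le_mul_of_nonneg_left ?_ hk0
    have h2 := PP_add_not hcard (fun e : Fin N ≃ α => (sm v β (Y e M₂)).card ≤ σ ∧
      (Bs v β (Y e M₂)).card ≤ σ)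
    have h3 := hG.hS
    have h4 : PP (fun e : Fin N ≃ α => ¬ ((sm v β (Y e M₂)).card ≤ σ ∧
      (Bs v β (Y e M₂)).card ≤ σ)) = EE (fun e : Fin N ≃ α =>
        ind (¬ ((sm v β (Y e M₂)).card ≤ σ ∧ (Bs v β (Y e M₂)).card ≤ σ))) := rfl
    rw [← h4]
    linarith
  have hmain : ∑ g : Fin (k + 1) → α, ∑ t ∈ range M, PP (fun e : Fin N ≃ α => OK v β σ (Y e t) ∧
        κ * (N : ℝ) ≤ ((nt v β (Y e t)).card : ℝ) ∧ ssup v β k (Y e t) g) ≤
      ((k : ℝ) + 1) * ((N : ℝ) ^ (k + 1) * (2 * ν) * (1 / κ) + (N : ℝ) ^ (k + 1) * (k * ν)) := by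
    rw [sum_comm]
    have h1 : ∀ t ∈ range M, ∑ g : Fin (k + 1) → α, PP (fun e : Fin N ≃ α => OK v β σ (Y e t) ∧
        κ * (N : ℝ) ≤ ((nt v β (Y e t)).card : ℝ) ∧ ssup v β k (Y e t) g) ≤
        ((k : ℝ) + 1) * ((N : ℝ) ^ (k + 1) * (2 * ν) * PP (PE t) + (N : ℝ) ^ (k + 1) *
          EE (fun e : Fin N ≃ α => ind ((sm v β (Y e t)).card ≤ σ ∧
            σ < (sm v β (Y e (t + k))).card))) := by
      intro t ht
      have ht' := mem_range.1 ht
      unfold PP
      rw [← EE_sum]
      refine (EE_mono fun e => hsum e t ht').trans ?_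
      rw [EE_mul_left, EE_add, EE_mul_left, EE_mul_left]
      refine mul_le_mul_of_nonneg_left ?_ (by positivity)
      exact add_le_add le_rfl (mul_le_mul_of_nonneg_left (hEt t ht') hNk1.le)
    refine (sum_le_sum h1).trans ?_
    rw [← mul_sum, sum_add_distrib, ← mul_sum, ← mul_sum]
    refine mul_le_mul_of_nonneg_left ?_ (by positivity)
    exact add_le_add (mul_le_mul_of_nonneg_left hP (by positivity))
      (mul_le_mul_of_nonneg_left hcount hNk1.le)
  rw [div_le_iff₀ hNk1]
  refine hmain.trans ?_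
  have h9 : ((k : ℝ) + 1) * ((N : ℝ) ^ (k + 1) * (2 * ν) * (1 / κ) +
      (N : ℝ) ^ (k + 1) * (k * ν)) =
      (((k : ℝ) + 1) * (2 + k * κ) * ν / κ) * (N : ℝ) ^ (k + 1) := by
    field_simp
  rw [h9]
  refine mul_le_mul_of_nonneg_right ?_ hNk1.le
  refine div_le_div_of_nonneg_right ?_ hκ.le
  refine mul_le_mul_of_nonneg_right ?_ hν.le
  have h10 : k * κ ≤ k * 1 := mul_le_mul_of_nonneg_left hκ1 hk0
  nlinarith

end

end Pool.Agent.Lib.P0fc
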