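import Mathlib
import Pool.Agent.Lib.P0fc.DefL

/-!
# Random elements become independent when we go back (4.6, Gb)

Fix `g : Fin (k+1) → α`.  For a finite set `A` let `Vg A` be the subspace of all `c : Fin (k+1) → ℝ` with
`∑ c i • v (g i) ∈ span (v '' A)`; it is monotone in `A`, and `dep v k A g ↔ Vg A ≠ ⊥`.
* `Gb_M2` (matroid fact): if `w ∈ span (v '' A)` and `w ∉ span (v '' T)` for all `T ⊆ A` with
  `T.card < β'`, then `β' ≤ card {h ∈ A : w ∉ span (v '' (A.erase h))} + card (nc A)`: take a `T ⊆ A`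
  of minimal cardinality with `w ∈ span (v '' T)`, so `β' ≤ T.card`; every `h ∈ T` lies in one of the two
  sets: if `w ∈ span (v '' (A.erase h))`, write `w = ∑_{T} a_y v y` with `a_h ≠ 0` (otherwise
  `T.erase h` would do; e.g. by `Submodule.mem_span_insert` for `T = insert h (T.erase h)`), and solve
  for `v h`: `v h ∈ span (v '' (A.erase h))`.
* `step_dim`: let `OK A`, `¬ ssup v β k A g`, `card A ≤ M`.  Then
  `∑ x ∈ A, (2^(dim Vg (A.erase x)) - 1) ≤ card A * (1 - ε/2) * (2^(dim Vg A) - 1)`.  If `Vg A = ⊥` both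
  sides are `0`.  Otherwise take `0 ≠ c ∈ Vg A`, `w = ∑ c i v (g i)`; `¬ ssup` says `w ∉ span (v '' T)`
  for `T ⊆ A`, `T.card + k < β`; by `Gb_M2` with `β' = β - k` at least `β - k - σ` elements `x ∈ A` have
  `w ∉ span (v '' (A.erase x))`, so `c ∉ Vg (A.erase x)`, `dim Vg (A.erase x) ≤ dim Vg A - 1` and
  `2^(d-1) - 1 ≤ (2^d - 1)/2`.  And `β - k - σ ≥ β (1 - ν - k ν) ≥ β/2 ≥ ε M₂ ≥ ε card A`
  (`1 ≤ ν β` gives `k ≤ k ν β`; `σ ≤ ν β`; `(k+1) ν ≤ 1/2`; `2 ε M₂ ≤ β`).  Sum up: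
  `card A * (2^d - 1) - (β-k-σ) * (2^d - 1)/2`.
* `Gb`: let `D j = EE (Φ e * (2^(dim Vg (Y e (t-j))) - 1))`.  `D (j+1) ≤ (1 - ε/2) D j` for
  `j + 1 ≤ t`: by `back` at the position `t-j-1` with
  `h e x = Φ e * (2^(dim Vg ((Y e (t-j)).erase x)) - 1)`, which is `FutM (t-j)` (`Φ` is `FutM t`, so
  `FutM.mono`; `Y_swap_fut`), and `Y_erase`; then `step_dim` for `A = Y e (t-j)` when `Φ e ≠ 0` (`OK` and
  `¬ ssup` pass from `Y e t` to the subset `Y e (t-j)`).  `D 0 ≤ 2^(k+1) EE Φ` as `dim ≤ k+1`.  Finally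
  `ind (dep (Y e (t-l)) g) ≤ 2^(dim Vg (Y e (t-l))) - 1`.
-/

namespace Pool.Agent.Lib.P0fc

open Finset Pool.Agent.Lib.P0fb

section

variable {α : Type} [Fintype α] [DecidableEq α] {E : Type} [AddCommGroup E] [Module ℝ E] {N : ℕ}
variable (v : α → E)

/-- the relations among the `v (g i)` modulo the span of `A` -/
def Vg {k : ℕ} (g : Fin (k + 1) → α) (A : Finset α) : Submodule ℝ (Fin (k + 1) → ℝ) where
  carrier := {c | ∑ i, c i • v (g i) ∈ Submodule.span ℝ (v '' (A : Set α))}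
  add_mem' := by
    intro a b ha hb
    simp only [Set.mem_ofPred_eq, Pi.add_apply, add_smul, sum_add_distrib] at ha hb ⊢
    exact Submodule.add_mem _ ha hb
  zero_mem' := by
    simp
  smul_mem' := by
    intro c a ha
    simp only [Set.mem_ofPred_eq, Pi.smul_apply, smul_eq_mul, mul_smul] at ha ⊢
    rw [← smul_sum]
    exact Submodule.smul_mem _ _ ha

open Classical in
theorem Gb_M2 {A : Finset α} {w : E} {β' : ℕ} (hw : w ∈ Submodule.span ℝ (v '' (A : Set α)))
    (hT : ∀ T ⊆ A, T.card < β' → w ∉ Submodule.span ℝ (v '' (T : Set α))) :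
    β' ≤ (A.filter (fun h => w ∉ Submodule.span ℝ (v '' ((A.erase h : Finset α) : Set α)))).card +
      (nc v A).card := by
  obtain ⟨T, hTm, hmin⟩ := Finset.exists_min_image
    (A.powerset.filter (fun T : Finset α => w ∈ Submodule.span ℝ (v '' (T : Set α)))) Finset.card
    ⟨A, by simp [hw]⟩
  rw [mem_filter, mem_powerset] at hTm
  obtain ⟨hTA, hwT⟩ := hTm
  have h1 : β' ≤ T.card := by
    by_contra hlt
    exact hT T hTA (not_le.1 hlt) hwT
  have h2 : T ⊆ (A.filter (fun h => w ∉ Submodule.span ℝ (v '' ((A.erase h : Finset α) : Set α)))) ∪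
      nc v A := by
    intro h hh
    rw [mem_union, mem_filter]
    by_cases hc : w ∈ Submodule.span ℝ (v '' ((A.erase h : Finset α) : Set α))
    · right
      rw [mem_nc, mem_vcl]
      refine ⟨hTA hh, ?_⟩
      have h3 : w ∈ Submodule.span ℝ (v '' ((insert h (T.erase h) : Finset α) : Set α)) := by
        rw [insert_erase hh]
        exact hwT
      rw [coe_insert, Set.image_insert_eq, Submodule.mem_span_insert] at h3
      obtain ⟨a, z, hz, hwz⟩ := h3
      have ha : a ≠ 0 := by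
        rintro rfl
        rw [zero_smul, zero_add] at hwz
        have h4 := hmin (T.erase h) (by
          rw [mem_filter, mem_powerset, hwz]
          exact ⟨(erase_subset _ _).trans hTA, hz⟩)
        have h5 := card_erase_lt_of_mem hh
        omega
      have hz' : z ∈ Submodule.span ℝ (v '' ((A.erase h : Finset α) : Set α)) :=
        Submodule.span_mono (Set.image_mono (coe_subset.2 (erase_subset_erase h hTA))) hz
      have h6 : v h = a⁻¹ • (w - z) := by
        rw [hwz, add_sub_cancel_right, smul_smul, inv_mul_cancel₀ ha, one_smul]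
      rw [h6]
      exact Submodule.smul_mem _ _ (Submodule.sub_mem _ hc hz')
    · exact Or.inl ⟨hTA hh, hc⟩
  exact h1.trans ((card_le_card h2).trans (card_union_le _ _))

namespace LGbAux

variable {v}

theorem mem_Vg {k : ℕ} {g : Fin (k + 1) → α} {A : Finset α} {c : Fin (k + 1) → ℝ} :
    c ∈ Vg v g A ↔ ∑ i, c i • v (g i) ∈ Submodule.span ℝ (v '' (A : Set α)) := Iff.rfl

theorem Vg_mono {k : ℕ} (g : Fin (k + 1) → α) {A B : Finset α} (h : A ⊆ B) :
    Vg v g A ≤ Vg v g B := by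
  intro c hc
  rw [mem_Vg] at hc ⊢
  exact Submodule.span_mono (Set.image_mono (coe_subset.2 h)) hc

theorem pw {a b : ℕ} (h : a ≤ b) : (2 : ℝ) ^ a - 1 ≤ 2 ^ b - 1 := by
  have := pow_le_pow_right₀ (by norm_num : (1 : ℝ) ≤ 2) h
  linarith

theorem pw2 {a b : ℕ} (h : a < b) : (2 : ℝ) ^ a - 1 ≤ (2 ^ b - 1) / 2 := by
  have := pow_le_pow_right₀ (by norm_num : (1 : ℝ) ≤ 2) (Nat.succ_le_of_lt h)
  rw [pow_succ] at this
  linarith

theorem pw0 (a : ℕ) : (0 : ℝ) ≤ 2 ^ a - 1 := by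
  have := one_le_pow₀ (by norm_num : (1 : ℝ) ≤ 2) (n := a)
  linarith

end LGbAux

open LGbAux in
theorem step_dim {M M₂ β σ : ℕ} {ε ν : ℝ} (hG : Good v N M M₂ β σ ε ν) {k : ℕ}
    (hk : ((k : ℝ) + 1) * ν ≤ 1 / 2) {g : Fin (k + 1) → α} {A : Finset α} (hA : A.card ≤ M)
    (hOK : OK v β σ A) (hs : ¬ ssup v β k A g) :
    ∑ x ∈ A, ((2 : ℝ) ^ (Module.finrank ℝ (Vg v g (A.erase x))) - 1) ≤
      (A.card : ℝ) * (1 - ε / 2) * ((2 : ℝ) ^ (Module.finrank ℝ (Vg v g A)) - 1) := by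
  classical
  have hmono : ∀ x, Module.finrank ℝ (Vg v g (A.erase x)) ≤ Module.finrank ℝ (Vg v g A) :=
    fun x => Submodule.finrank_mono (Vg_mono g (erase_subset _ _))
  by_cases hbot : Vg v g A = ⊥
  · have h0 : Module.finrank ℝ (Vg v g A) = 0 := by rw [hbot, finrank_bot]
    have h1 : ∀ x, Module.finrank ℝ (Vg v g (A.erase x)) = 0 := fun x =>
      Nat.le_zero.1 (h0 ▸ hmono x)
    simp only [h1, h0, pow_zero, sub_self, sum_const_zero, mul_zero, le_refl]
  obtain ⟨c, hc, hc0⟩ := Submodule.exists_mem_ne_zero_of_ne_bot hbot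
  rw [mem_Vg] at hc
  have hM := Gb_M2 v (A := A) (w := ∑ i, c i • v (g i)) (β' := β - k) hc (by
    intro T hT hlt hmem
    exact hs ⟨c, hc0, T, hT, by omega, hmem⟩)
  set F := A.filter (fun h => ∑ i, c i • v (g i) ∉
    Submodule.span ℝ (v '' ((A.erase h : Finset α) : Set α))) with hF
  have hFA : F ⊆ A := filter_subset _ _
  have hnc : (nc v A).card ≤ σ := hOK.1
  -- the number of good elements
  have hcard : (β : ℝ) - k - σ ≤ F.card := by
    have : β ≤ F.card + σ + k := by omega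
    have : (β : ℝ) ≤ F.card + σ + k := by exact_mod_cast this
    linarith
  have hε := hG.hε
  have hMM : (M : ℝ) ≤ M₂ := by
    have := hG.hM
    have h2 : 0 < 1 / ν := by
      have := hG.hν
      positivity
    linarith
  have hF2 : ε * A.card ≤ F.card := by
    have h1 : (k : ℝ) ≤ k * (ν * β) := by
      have := mul_le_mul_of_nonneg_left hG.h1 (Nat.cast_nonneg (α := ℝ) k)
      linarith
    have h2 : (((k : ℝ) + 1) * ν) * β ≤ 1 / 2 * β :=
      mul_le_mul_of_nonneg_right hk (Nat.cast_nonneg _)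
    have h3 := hG.hσ
    have h4 := hG.hβ
    have h5 : ε * A.card ≤ ε * M₂ := by
      refine mul_le_mul_of_nonneg_left ?_ hε.le
      have : (A.card : ℝ) ≤ M := by exact_mod_cast hA
      linarith
    nlinarith
  obtain ⟨D, hD⟩ : ∃ D, D = (2 : ℝ) ^ (Module.finrank ℝ (Vg v g A)) - 1 := ⟨_, rfl⟩
  have hD0 : 0 ≤ D := by
    rw [hD]
    exact pw0 _
  rw [← hD]
  have hFx : ∀ x ∈ F, (2 : ℝ) ^ (Module.finrank ℝ (Vg v g (A.erase x))) - 1 ≤ D / 2 := by
    intro x hx
    rw [hD]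
    refine pw2 (Submodule.finrank_lt_finrank_of_lt (lt_of_le_of_ne (Vg_mono g (erase_subset _ _)) ?_))
    intro heq
    rw [hF, mem_filter] at hx
    apply hx.2
    rw [← mem_Vg, heq, mem_Vg]
    exact hc
  have hAx : ∀ x ∈ A \ F, (2 : ℝ) ^ (Module.finrank ℝ (Vg v g (A.erase x))) - 1 ≤ D := by
    intro x _
    rw [hD]
    exact pw (hmono x)
  rw [← sum_sdiff hFA]
  have e1 : ∑ x ∈ A \ F, ((2 : ℝ) ^ (Module.finrank ℝ (Vg v g (A.erase x))) - 1) ≤
      ((A \ F).card : ℝ) * D := by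
    have := sum_le_card_nsmul (A \ F) _ D hAx
    rwa [nsmul_eq_mul] at this
  have e2 : ∑ x ∈ F, ((2 : ℝ) ^ (Module.finrank ℝ (Vg v g (A.erase x))) - 1) ≤
      (F.card : ℝ) * (D / 2) := by
    have := sum_le_card_nsmul F _ (D / 2) hFx
    rwa [nsmul_eq_mul] at this
  have e3 : ((A \ F).card : ℝ) = A.card - F.card := by
    rw [card_sdiff_of_subset hFA, Nat.cast_sub (card_le_card hFA)]
  rw [e3] at e1
  have e4 : (ε * A.card) * D ≤ F.card * D := mul_le_mul_of_nonneg_right hF2 hD0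
  nlinarith

open LGbAux in
theorem Gb {M M₂ β σ : ℕ} {ε ν : ℝ} (hG : Good v N M M₂ β σ ε ν) {k : ℕ}
    (hk : ((k : ℝ) + 1) * ν ≤ 1 / 2) (g : Fin (k + 1) → α) {t l : ℕ} (hlt : l ≤ t) (ht : t ≤ M)
    {Φ : (Fin N ≃ α) → ℝ} (hΦ : FutM t Φ) (hΦ0 : ∀ e, 0 ≤ Φ e)
    (hΦs : ∀ e, Φ e ≠ 0 → OK v β σ (Y e t) ∧ ¬ ssup v β k (Y e t) g) :
    EE (fun e : Fin N ≃ α => Φ e * ind (dep v k (Y e (t - l)) g)) ≤
      (2 : ℝ) ^ (k + 1) * (1 - ε / 2) ^ l * EE Φ := by
  have hε := hG.hε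
  have hε1 := hG.hε1
  have hMN : M ≤ N := by
    have h1 := hG.hM
    have h2 : 0 < 1 / ν := by
      have := hG.hν
      positivity
    have h3 := hG.hN
    have h4 : ν * N ≤ 1 / 8 * N := mul_le_mul_of_nonneg_right hG.hν1 (Nat.cast_nonneg _)
    have h5 : (0 : ℝ) ≤ N := Nat.cast_nonneg _
    have : (M : ℝ) ≤ N := by linarith
    exact_mod_cast this
  let D : ℕ → ℝ := fun j => EE (fun e : Fin N ≃ α =>
    Φ e * ((2 : ℝ) ^ (Module.finrank ℝ (Vg v g (Y e (t - j)))) - 1))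
  have hstep : ∀ j, j + 1 ≤ t → D (j + 1) ≤ (1 - ε / 2) * D j := by
    intro j hj
    obtain ⟨s, hs⟩ : ∃ s, s = t - (j + 1) := ⟨_, rfl⟩
    have hs1 : t - j = s + 1 := by omega
    have hsN : s < N := by omega
    have hb := back (⟨s, hsN⟩ : Fin N) (fun (e : Fin N ≃ α) (x : α) =>
      Φ e * ((2 : ℝ) ^ (Module.finrank ℝ (Vg v g ((Y e (s + 1)).erase x))) - 1)) (by
        intro x e i i' hi hi'
        simp only at hi hi' ⊢
        rw [Y_swap_fut e hi hi' le_rfl, (FutM.mono (by omega : s + 1 ≤ t) hΦ) e i i' hi hi'])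
    have e1 : D (j + 1) = EE (fun e : Fin N ≃ α => Φ e *
        ((2 : ℝ) ^ (Module.finrank ℝ (Vg v g ((Y e (s + 1)).erase (e ⟨s, hsN⟩)))) - 1)) := by
      refine EE_congr fun e => ?_
      have := Y_erase e ⟨s, hsN⟩
      simp only at this
      rw [this, ← hs]
    rw [e1, hb]
    change _ ≤ (1 - ε / 2) * EE (fun e : Fin N ≃ α =>
      Φ e * ((2 : ℝ) ^ (Module.finrank ℝ (Vg v g (Y e (t - j)))) - 1))
    rw [← EE_mul_left]
    refine EE_mono fun e => ?_
    simp only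
    have hpos : (0 : ℝ) < (s : ℝ) + 1 := by positivity
    rw [div_le_iff₀ hpos, ← mul_sum, hs1]
    by_cases h0 : Φ e = 0
    · rw [h0]
      simp
    · obtain ⟨hOK, hns⟩ := hΦs e h0
      have hsub : Y e (s + 1) ⊆ Y e t := Y_mono e (by omega)
      have hc : (Y e (s + 1)).card = s + 1 := card_Y e (by omega)
      have h1 := step_dim v hG hk (g := g) (A := Y e (s + 1)) (by omega)
        (OK_anti hsub hOK) (by
          rintro ⟨c, hc0, T, hT, hTc, hmem⟩
          exact hns ⟨c, hc0, T, hT.trans hsub, hTc, hmem⟩)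
      rw [hc] at h1
      push_cast at h1
      have h2 := mul_le_mul_of_nonneg_left h1 (hΦ0 e)
      refine h2.trans (le_of_eq ?_)
      ring
  have hD : ∀ j, j ≤ t → D j ≤ (1 - ε / 2) ^ j * D 0 := by
    intro j
    induction j with
    | zero => intro _; simp
    | succ j ih =>
      intro hj
      have h1 := hstep j hj
      have h2 := mul_le_mul_of_nonneg_left (ih (by omega)) (by linarith : 0 ≤ 1 - ε / 2)
      calc D (j + 1) ≤ (1 - ε / 2) * D j := h1
        _ ≤ (1 - ε / 2) * ((1 - ε / 2) ^ j * D 0) := h2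
        _ = (1 - ε / 2) ^ (j + 1) * D 0 := by ring
  have hD0 : D 0 ≤ (2 : ℝ) ^ (k + 1) * EE Φ := by
    rw [← EE_mul_left]
    refine EE_mono fun e => ?_
    rw [mul_comm]
    refine mul_le_mul_of_nonneg_right ?_ (hΦ0 e)
    have h1 : Module.finrank ℝ (Vg v g (Y e (t - 0))) ≤ k + 1 := by
      have := Submodule.finrank_le (Vg v g (Y e (t - 0)))
      rwa [Module.finrank_fin_fun] at this
    have := pow_le_pow_right₀ (by norm_num : (1 : ℝ) ≤ 2) h1
    linarith
  have hfin : EE (fun e : Fin N ≃ α => Φ e * ind (dep v k (Y e (t - l)) g)) ≤ D l := by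
    refine EE_mono fun e => mul_le_mul_of_nonneg_left ?_ (hΦ0 e)
    by_cases hd : dep v k (Y e (t - l)) g
    · rw [ind_of hd]
      obtain ⟨c, hc0, hc⟩ := hd
      have hne : Vg v g (Y e (t - l)) ≠ ⊥ := by
        intro hbot
        have : c ∈ Vg v g (Y e (t - l)) := hc
        rw [hbot, Submodule.mem_bot] at this
        exact hc0 this
      have h1 : 1 ≤ Module.finrank ℝ (Vg v g (Y e (t - l))) :=
        Submodule.one_le_finrank_iff.2 hne
      have := pow_le_pow_right₀ (by norm_num : (1 : ℝ) ≤ 2) h1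
      linarith
    · rw [ind_not_of hd]
      exact pw0 _
  calc _ ≤ D l := hfin
    _ ≤ (1 - ε / 2) ^ l * D 0 := hD l hlt
    _ ≤ (1 - ε / 2) ^ l * ((2 : ℝ) ^ (k + 1) * EE Φ) :=
        mul_le_mul_of_nonneg_left hD0 (pow_nonneg (by linarith) _)
    _ = _ := by ring

end

end Pool.Agent.Lib.P0fc
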