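import Mathlib
import Pool.Agent.Lib.P0fc.LLad
import Pool.Agent.Lib.P0fc.LMass
import Pool.Agent.Lib.P0fc.LGa
import Pool.Agent.Lib.P0fc.LGb

/-!
# A robust flat of small rank has small mass (4.6, MB)

Proofs.
* `dep_of_rank`: the quotient of `span (v '' G)` by `span (v '' A)` has dimension `dm G - dm A ≤ k`, so
  the `k + 1` vectors `v (g i)`, `g i ∈ G`, are dependent in it: there is `c ≠ 0` with
  `∑ c i v (g i) ∈ span (v '' A)`.  (For example: the linear map
  `(Fin (k+1) → ℝ) → span (v '' G) / (span (v '' A) as a submodule of it)` has a nontrivial kernel by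
  `LinearMap.exists_ne_zero_of_finrank_lt`-type lemmas / `LinearMap.ker_ne_bot_of_finrank_lt`.)
* `MB`: fix `t < M` and `z`, `t ≥ β ≥ l` (otherwise `MMe` is empty), and write `n = card α`,
  `G = Gf l (Y e (t-l)) z`.  On the event `MMe ∧ q n ≤ card G ∧ er ≤ k`:
  `1 ≤ q^(-k) n^(-k) * card {g' : Fin k → α | ∀ i, g' i ∈ G}` (the number is `(card G)^k`,
  `Fintype.card_piFinset` or `Fintype.piFinset`), and each such `g'` gives, by `dep_of_rank`,
  `dep v k (Y e (t-l)) (Fin.cons z g')` (`z ∈ G` by `Gf_sub`).  So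
  `mass ≤ q^(-k) * n^(-(k+1)) * ∑_t ∑_z ∑_{g'} PP (MMe t e z ∧ dep v k (Y e (t-l)) (Fin.cons z g'))`, and
  `∑_z ∑_{g'}` is the sum over `g : Fin (k+1) → α`, `g 0 = z` (`Fin.consEquiv`).  Split by
  `ssup v β k (Y e t) g`: the first part is at most the left side of `Ga`.  For the second part, `Gb` with
  `Φ e = ind (MMe t e (g 0) ∧ ¬ ssup v β k (Y e t) g)` (`FutM t` by `Y_swap_fut`) gives
  `2^(k+1) (1-ε/2)^l PP (OK ∧ κ n ≤ card (nt (Y e t)))` for each `g`; the average over `g` and the sum over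
  `t` (`hP`) give `2^(k+1) (1-ε/2)^l / κ`.
-/

namespace Pool.Agent.Lib.P0fc

open Finset Pool.Agent.Lib.P0fb

section

variable {α : Type} [Fintype α] [DecidableEq α] {E : Type} [AddCommGroup E] [Module ℝ E] {N : ℕ}
variable (v : α → E)

theorem dep_of_rank {k : ℕ} {A G : Finset α} (hA : A ⊆ G) (hr : dm v G - dm v A ≤ k)
    {g : Fin (k + 1) → α} (hg : ∀ i, g i ∈ G) : dep v k A g := by
  have hT := finrank_fin v G
  set S : Submodule ℝ E := Submodule.span ℝ (v '' (A : Set α)) with hS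
  set T : Submodule ℝ E := Submodule.span ℝ (v '' (G : Set α)) with hTd
  have hST : S ≤ T := Submodule.span_mono (Set.image_mono (coe_subset.2 hA))
  have hgT : ∀ i, v (g i) ∈ T := fun i => Submodule.subset_span ⟨g i, mem_coe.2 (hg i), rfl⟩
  set S' : Submodule ℝ T := Submodule.comap T.subtype S with hS'
  have hfS : Module.finrank ℝ S' = Module.finrank ℝ S :=
    (Submodule.comapSubtypeEquivOfLe hST).finrank_eq
  have hq := Submodule.finrank_quotient_add_finrank S'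
  have hlt : Module.finrank ℝ (T ⧸ S') < Module.finrank ℝ (Fin (k + 1) → ℝ) := by
    rw [Module.finrank_fin_fun]
    have h1 : dm v G = Module.finrank ℝ T := rfl
    have h2 : dm v A = Module.finrank ℝ S := rfl
    omega
  let f : (Fin (k + 1) → ℝ) →ₗ[ℝ] T ⧸ S' :=
    S'.mkQ ∘ₗ (Fintype.linearCombination ℝ (fun i => (⟨v (g i), hgT i⟩ : T)))
  have hker := LinearMap.ker_ne_bot_of_finrank_lt (f := f) hlt
  obtain ⟨c, hc, hc0⟩ := (Submodule.ne_bot_iff _).1 hker
  refine ⟨c, hc0, ?_⟩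
  have h3 : f c = 0 := hc
  have h4 : Fintype.linearCombination ℝ (fun i => (⟨v (g i), hgT i⟩ : T)) c ∈ S' := by
    rw [← Submodule.Quotient.mk_eq_zero]
    exact h3
  rw [Fintype.linearCombination_apply, hS', Submodule.mem_comap] at h4
  simpa using h4

omit [DecidableEq α] in
theorem LMBAux.sum_cons {k : ℕ} (F : (Fin (k + 1) → α) → ℝ) :
    ∑ z : α, ∑ g' : Fin k → α, F (Fin.cons z g') = ∑ g, F g := by
  rw [← Fintype.sum_prod_type' (fun (z : α) (g' : Fin k → α) => F (Fin.cons z g'))]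
  exact Fintype.sum_equiv (Fin.consEquiv (fun _ => α)) _ _ (fun _ => rfl)

theorem LMBAux.pt (p : Pm) {k l t : ℕ} {q : ℝ} (hq : 0 < q) (e : Fin N ≃ α) (z : α) :
    (q * (Fintype.card α : ℝ)) ^ k * ind (MMe v p t e z ∧
        q * (Fintype.card α : ℝ) ≤ ((Gf v p l (Y e (t - l)) z).card : ℝ) ∧
        er v p l (Y e (t - l)) z ≤ k) ≤
      ∑ g' : Fin k → α, ind (MMe v p t e z ∧ dep v k (Y e (t - l)) (Fin.cons z g')) := by
  classical
  by_cases h : MMe v p t e z ∧
        q * (Fintype.card α : ℝ) ≤ ((Gf v p l (Y e (t - l)) z).card : ℝ) ∧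
        er v p l (Y e (t - l)) z ≤ k
  · rw [ind_of h, mul_one]
    obtain ⟨h1, h2, h3⟩ := h
    set G := Gf v p l (Y e (t - l)) z with hG
    have hsub : insert z (Y e (t - l)) ⊆ G := Gf_sub v p l (Y e (t - l)) z
    have hcount : (∑ g' : Fin k → α, if (∀ i, g' i ∈ G) then (1 : ℝ) else 0) =
        (G.card : ℝ) ^ k := by
      rw [Finset.sum_boole]
      have : (univ.filter fun g' : Fin k → α => ∀ i, g' i ∈ G) = Fintype.piFinset (fun _ => G) := by
        ext g'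
        simp [Fintype.mem_piFinset]
      rw [this, Fintype.card_piFinset_const]
      push_cast
      rfl
    calc (q * (Fintype.card α : ℝ)) ^ k ≤ (G.card : ℝ) ^ k :=
          pow_le_pow_left₀ (mul_nonneg hq.le (Nat.cast_nonneg _)) h2 k
      _ = ∑ g' : Fin k → α, if (∀ i, g' i ∈ G) then (1 : ℝ) else 0 := hcount.symm
      _ ≤ _ := by
        refine sum_le_sum fun g' _ => ?_
        split_ifs with h4
        · rw [ind_of]
          refine ⟨h1, dep_of_rank v ((subset_insert _ _).trans hsub) h3 ?_⟩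
          intro i
          refine Fin.cases ?_ ?_ i
          · exact hsub (mem_insert_self _ _)
          · intro j
            exact h4 j
        · exact ind_nonneg _
  · rw [ind_not_of h, mul_zero]
    exact sum_nonneg fun _ _ => ind_nonneg _

theorem LMBAux.second (p : Pm) {M M₂ : ℕ} {ε ν : ℝ} (hG : Good v N M M₂ p.β p.σ ε ν)
    {k l t : ℕ} (hk : ((k : ℝ) + 1) * ν ≤ 1 / 2) (hlβ : l ≤ p.β) (ht : t ≤ M)
    (g : Fin (k + 1) → α) :
    PP (fun e : Fin N ≃ α => (MMe v p t e (g 0) ∧ ¬ ssup v p.β k (Y e t) g) ∧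
        dep v k (Y e (t - l)) g) ≤
      (2 : ℝ) ^ (k + 1) * (1 - ε / 2) ^ l * PP (fun e : Fin N ≃ α => OK v p.β p.σ (Y e t) ∧
        p.κ * (Fintype.card α : ℝ) ≤ ((nt v p.β (Y e t)).card : ℝ)) := by
  have hε : 0 ≤ 1 - ε / 2 := by
    have := hG.hε1
    linarith
  have hc : 0 ≤ (2 : ℝ) ^ (k + 1) * (1 - ε / 2) ^ l := by positivity
  by_cases hlt : l ≤ t
  · have hb := Gb v hG hk g hlt ht
      (Φ := fun e => ind (MMe v p t e (g 0) ∧ ¬ ssup v p.β k (Y e t) g)) (by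
        intro e i j hi hj
        have hY : Y ((Equiv.swap i j).trans e) t = Y e t := Y_swap_fut e hi hj le_rfl
        simp only [MMe, hY]) (fun e => ind_nonneg _) (by
        intro e he
        by_cases h : MMe v p t e (g 0) ∧ ¬ ssup v p.β k (Y e t) g
        · exact ⟨h.1.1.1, h.2⟩
        · exact absurd (ind_not_of h) he)
    have h1 : PP (fun e : Fin N ≃ α => (MMe v p t e (g 0) ∧ ¬ ssup v p.β k (Y e t) g) ∧
        dep v k (Y e (t - l)) g) =
        EE (fun e : Fin N ≃ α => ind (MMe v p t e (g 0) ∧ ¬ ssup v p.β k (Y e t) g) *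
          ind (dep v k (Y e (t - l)) g)) := EE_congr fun e => ind_and _ _
    rw [h1]
    refine hb.trans (mul_le_mul_of_nonneg_left ?_ hc)
    exact PP_mono fun e he => ⟨he.1.1.1, he.1.1.2.1⟩
  · have h1 : PP (fun e : Fin N ≃ α => (MMe v p t e (g 0) ∧ ¬ ssup v p.β k (Y e t) g) ∧
        dep v k (Y e (t - l)) g) = EE (fun _ : Fin N ≃ α => (0 : ℝ)) := by
      refine EE_congr fun e => ind_not_of ?_
      rintro ⟨⟨h2, _⟩, _⟩
      have := beta_le_of_MMe h2
      omega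
    rw [h1, EE_const hG.card]
    exact mul_nonneg hc (PP_nonneg _)

theorem MB (p : Pm) {M M₂ : ℕ} {ε ν : ℝ} (hG : Good v N M M₂ p.β p.σ ε ν) (hκ : 0 < p.κ)
    (hκ1 : p.κ ≤ 1) {k l : ℕ} (hk : ((k : ℝ) + 1) * ν ≤ 1 / 2) (hlβ : l ≤ p.β) {q : ℝ} (hq : 0 < q)
    (hP : ∑ t ∈ range M, PP (fun e : Fin N ≃ α => OK v p.β p.σ (Y e t) ∧
        p.κ * (Fintype.card α : ℝ) ≤ ((nt v p.β (Y e t)).card : ℝ)) ≤ 1 / p.κ) :
    mass M (fun t (e : Fin N ≃ α) z => MMe v p t e z ∧
        q * (Fintype.card α : ℝ) ≤ ((Gf v p l (Y e (t - l)) z).card : ℝ) ∧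
        er v p l (Y e (t - l)) z ≤ k) ≤
      (1 / q) ^ k * ((2 : ℝ) ^ (k + 1) * (1 - ε / 2) ^ l / p.κ +
        4 * ((k : ℝ) + 1) ^ 2 * ν / p.κ) := by
  have hν := hG.hν
  have hn : (0 : ℝ) < (Fintype.card α : ℝ) := by
    rcases Nat.eq_zero_or_pos (Fintype.card α) with h0 | h0
    · exfalso
      have h1 := hG.hM
      have h2 := hG.hN
      have h3 := hG.card
      have h4 : (N : ℝ) = 0 := by
        rw [← h3, h0]
        exact Nat.cast_zero
      rw [h4, mul_zero] at h2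
      have h5 : 0 < 1 / ν := by positivity
      have h6 : (0 : ℝ) ≤ M := Nat.cast_nonneg _
      linarith
    · exact_mod_cast h0
  set n : ℝ := (Fintype.card α : ℝ) with hnd
  have hε : 0 ≤ 1 - ε / 2 := by
    have := hG.hε1
    linarith
  have hkν : (k : ℝ) ≤ 1 / ν := by
    rw [le_div_iff₀ hν]
    nlinarith
  have hqn : 0 < (q * n) ^ k := by positivity
  -- pointwise bound
  have h1 : ∀ t ∈ range M, (∑ z : α, PP (fun e : Fin N ≃ α => MMe v p t e z ∧
        q * n ≤ ((Gf v p l (Y e (t - l)) z).card : ℝ) ∧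
        er v p l (Y e (t - l)) z ≤ k)) / n ≤
      (1 / q) ^ k * ((∑ g : Fin (k + 1) → α,
        (PP (fun e : Fin N ≃ α => OK v p.β p.σ (Y e t) ∧
          p.κ * n ≤ ((nt v p.β (Y e t)).card : ℝ) ∧ ssup v p.β k (Y e t) g) +
        PP (fun e : Fin N ≃ α => (MMe v p t e (g 0) ∧ ¬ ssup v p.β k (Y e t) g) ∧
          dep v k (Y e (t - l)) g))) / n ^ (k + 1)) := by
    intro t ht
    have h2 : ∀ z : α, (q * n) ^ k * PP (fun e : Fin N ≃ α => MMe v p t e z ∧
        q * n ≤ ((Gf v p l (Y e (t - l)) z).card : ℝ) ∧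
        er v p l (Y e (t - l)) z ≤ k) ≤ ∑ g' : Fin k → α,
        (PP (fun e : Fin N ≃ α => OK v p.β p.σ (Y e t) ∧
          p.κ * n ≤ ((nt v p.β (Y e t)).card : ℝ) ∧ ssup v p.β k (Y e t) (Fin.cons z g')) +
        PP (fun e : Fin N ≃ α => (MMe v p t e z ∧ ¬ ssup v p.β k (Y e t) (Fin.cons z g')) ∧
          dep v k (Y e (t - l)) (Fin.cons z g'))) := by
      intro z
      unfold PP
      rw [← EE_mul_left]
      refine (EE_mono fun e => LMBAux.pt v p hq e z).trans ?_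
      rw [EE_sum]
      refine sum_le_sum fun g' _ => ?_
      rw [← EE_add]
      refine EE_mono fun e => ?_
      refine le_trans (ind_mono ?_) (ind_or_le _ _)
      rintro ⟨h3, h4⟩
      by_cases h5 : ssup v p.β k (Y e t) (Fin.cons z g')
      · exact Or.inl ⟨h3.1.1, h3.1.2.1, h5⟩
      · exact Or.inr ⟨⟨h3, h5⟩, h4⟩
    have h3 : (q * n) ^ k * ∑ z : α, PP (fun e : Fin N ≃ α => MMe v p t e z ∧
        q * n ≤ ((Gf v p l (Y e (t - l)) z).card : ℝ) ∧
        er v p l (Y e (t - l)) z ≤ k) ≤ ∑ g : Fin (k + 1) → α,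
        (PP (fun e : Fin N ≃ α => OK v p.β p.σ (Y e t) ∧
          p.κ * n ≤ ((nt v p.β (Y e t)).card : ℝ) ∧ ssup v p.β k (Y e t) g) +
        PP (fun e : Fin N ≃ α => (MMe v p t e (g 0) ∧ ¬ ssup v p.β k (Y e t) g) ∧
          dep v k (Y e (t - l)) g)) := by
      rw [mul_sum]
      refine (sum_le_sum fun z _ => h2 z).trans (le_of_eq ?_)
      exact LMBAux.sum_cons (fun g => (PP (fun e : Fin N ≃ α => OK v p.β p.σ (Y e t) ∧
          p.κ * n ≤ ((nt v p.β (Y e t)).card : ℝ) ∧ ssup v p.β k (Y e t) g) +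
        PP (fun e : Fin N ≃ α => (MMe v p t e (g 0) ∧ ¬ ssup v p.β k (Y e t) g) ∧
          dep v k (Y e (t - l)) g)))
    rw [div_le_iff₀ hn]
    set X := ∑ z : α, PP (fun e : Fin N ≃ α => MMe v p t e z ∧
        q * n ≤ ((Gf v p l (Y e (t - l)) z).card : ℝ) ∧
        er v p l (Y e (t - l)) z ≤ k)
    set Z := ∑ g : Fin (k + 1) → α,
        (PP (fun e : Fin N ≃ α => OK v p.β p.σ (Y e t) ∧
          p.κ * n ≤ ((nt v p.β (Y e t)).card : ℝ) ∧ ssup v p.β k (Y e t) g) +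
        PP (fun e : Fin N ≃ α => (MMe v p t e (g 0) ∧ ¬ ssup v p.β k (Y e t) g) ∧
          dep v k (Y e (t - l)) g))
    have h4 : (1 / q) ^ k * (Z / n ^ (k + 1)) * n = Z / (q * n) ^ k := by
      rw [one_div, inv_pow, mul_pow, pow_succ]
      field_simp
    rw [h4, le_div_iff₀ hqn, mul_comm]
    exact h3
  unfold mass
  refine (sum_le_sum h1).trans ?_
  rw [← mul_sum, ← sum_div]
  refine mul_le_mul_of_nonneg_left ?_ (by positivity)
  have h5 := Ga v hG hκ hκ1 hkν hP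
  rw [sum_comm]
  have h6 : (∑ g : Fin (k + 1) → α, ∑ t ∈ range M,
      (PP (fun e : Fin N ≃ α => OK v p.β p.σ (Y e t) ∧
          p.κ * n ≤ ((nt v p.β (Y e t)).card : ℝ) ∧ ssup v p.β k (Y e t) g) +
        PP (fun e : Fin N ≃ α => (MMe v p t e (g 0) ∧ ¬ ssup v p.β k (Y e t) g) ∧
          dep v k (Y e (t - l)) g))) / n ^ (k + 1) =
      (∑ g : Fin (k + 1) → α, ∑ t ∈ range M,
      PP (fun e : Fin N ≃ α => OK v p.β p.σ (Y e t) ∧
          p.κ * n ≤ ((nt v p.β (Y e t)).card : ℝ) ∧ ssup v p.β k (Y e t) g)) / n ^ (k + 1) +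
      (∑ g : Fin (k + 1) → α, ∑ t ∈ range M,
        PP (fun e : Fin N ≃ α => (MMe v p t e (g 0) ∧ ¬ ssup v p.β k (Y e t) g) ∧
          dep v k (Y e (t - l)) g)) / n ^ (k + 1) := by
    rw [← add_div, ← sum_add_distrib]
    congr 1
    refine sum_congr rfl fun g _ => ?_
    rw [sum_add_distrib]
  rw [h6, add_comm]
  refine add_le_add ?_ h5
  have hc : 0 ≤ (2 : ℝ) ^ (k + 1) * (1 - ε / 2) ^ l := by positivity
  rw [div_le_iff₀ (by positivity)]
  have h7 : ∀ g : Fin (k + 1) → α, ∑ t ∈ range M,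
        PP (fun e : Fin N ≃ α => (MMe v p t e (g 0) ∧ ¬ ssup v p.β k (Y e t) g) ∧
          dep v k (Y e (t - l)) g) ≤ (2 : ℝ) ^ (k + 1) * (1 - ε / 2) ^ l / p.κ := by
    intro g
    refine (sum_le_sum fun t ht => LMBAux.second v p hG hk hlβ (mem_range.1 ht).le g).trans ?_
    rw [← mul_sum, div_eq_mul_one_div _ p.κ]
    exact mul_le_mul_of_nonneg_left hP hc
  refine (sum_le_sum fun g _ => h7 g).trans ?_
  rw [sum_const, card_univ, nsmul_eq_mul, Fintype.card_fun, Fintype.card_fin]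
  push_cast
  rw [← hnd, mul_comm]

end

end Pool.Agent.Lib.P0fc
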