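import Mathlib
import Pool.Agent.Lib.P0fc.LLad

/-!
# The ranks of the robust flats (4.4), deterministic

Proofs.  Let `1 ≤ l ≤ t ≤ N`, `A = Y e (t-l)`, `x = e ⟨t-l, _⟩` (the unique `x` with
`At e (t-l) x`), `Ax = Y e (t-l+1) = insert x A` (`Y_succ`), `x ∉ A` (`app_notMem_Y`),
`G = Gf l A z`, `G' = Gf (l-1) Ax z`; both are flats, `A ⊆ G`, `Ax ⊆ G'` (`Gf_flat`, `Gf_sub`), and
`G ⊆ G'` is `Ie`.
* `rk_step` (abstract form for two flats): `dm G ≤ dm G'` and `dm (insert x A) ≤ dm A + 1`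
  (`dm_insert_le`) give `dm G - dm A ≤ dm G' - dm (insert x A) + 1`.
* `rk_step_not`: if `x ∉ G`, then `x ∉ vcl A`, `dm (insert x A) = dm A + 1`, and
  `insert x G ⊆ G'` has rank `dm G + 1` (`dm_insert_of_notMem`; `x ∉ vcl G = G`), so
  `dm G + 1 ≤ dm G'`.
* `rk_step_eq`: if moreover `dm G' - dm (insert x A) ≤ dm G - dm A`, then `dm G' ≤ dm G + 1 =
  dm (insert x G)`, and `G' = vcl (insert x G)` (`vcl_eq_of_dm` for `insert x G ⊆ G'`; `vcl G' = G'`;
  `dm A ≤ dm G`, `dm (insert x A) ≤ dm G'` by `dm_mono`).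
* `er_step`, `er_step_not`, `RG_of_step`: apply these (`RG_of_step` with `l + 1` in place of `l`:
  `W = Y e (t-l)`, `W.erase h = Y e (t-l-1)` by `Y_erase`).
* `Gf_sub_vcl`: induction on `l` from `Gf_zero`; at the step `Ie v p (l+1) t e z` is
  `Gf (l+1) (Y e (t-(l+1))) z ⊆ Gf l (Y e (t-(l+1)+1)) z` and `t-(l+1)+1 = t-l`.
* `er_le_hits`: induction on `l`: `er 0 (Y e t) z = 0` by `Gf_zero` and `dm_vcl`; step: `er_step` if
  `He v p (l+1) t e z` (the filter gains `l+1`), `er_step_not` otherwise.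
-/

namespace Pool.Agent.Lib.P0fc

open Finset Pool.Agent.Lib.P0fb

section

variable {α : Type} [Fintype α] [DecidableEq α] {E : Type} [AddCommGroup E] [Module ℝ E] {N : ℕ}
variable {v : α → E} {p : Pm}

theorem rk_step {A G G' : Finset α} {x : α} (hG : vcl v G = G) (hG' : vcl v G' = G')
    (hA : A ⊆ G) (hA' : insert x A ⊆ G') (h : G ⊆ G') :
    dm v G - dm v A ≤ dm v G' - dm v (insert x A) + 1 := by
  have h1 := dm_mono (v := v) h
  have h2 := dm_insert_le v A x
  omega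

theorem rk_step_not {A G G' : Finset α} {x : α} (hG : vcl v G = G) (hG' : vcl v G' = G')
    (hA : A ⊆ G) (hA' : insert x A ⊆ G') (h : G ⊆ G') (hx : x ∉ G) :
    dm v G - dm v A ≤ dm v G' - dm v (insert x A) := by
  have hxA : x ∉ vcl v A := fun hc => hx (hG ▸ vcl_mono hA hc)
  have hxG : x ∉ vcl v G := fun hc => hx (hG ▸ hc)
  have h1 := dm_insert_of_notMem hxA
  have h2 := dm_insert_of_notMem hxG
  have h3 : insert x G ⊆ G' := insert_subset (hA' (mem_insert_self _ _)) h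
  have h4 := dm_mono (v := v) h3
  omega

theorem rk_step_eq {A G G' : Finset α} {x : α} (hG : vcl v G = G) (hG' : vcl v G' = G')
    (hA : A ⊆ G) (hA' : insert x A ⊆ G') (h : G ⊆ G') (hx : x ∉ G)
    (hr : dm v G' - dm v (insert x A) ≤ dm v G - dm v A) : G' = vcl v (insert x G) := by
  have hxA : x ∉ vcl v A := fun hc => hx (hG ▸ vcl_mono hA hc)
  have hxG : x ∉ vcl v G := fun hc => hx (hG ▸ hc)
  have h1 := dm_insert_of_notMem hxA
  have h2 := dm_insert_of_notMem hxG
  have h3 : insert x G ⊆ G' := insert_subset (hA' (mem_insert_self _ _)) h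
  have h5 := dm_mono (v := v) hA
  have h6 := dm_mono (v := v) hA'
  have h7 := vcl_eq_of_dm (v := v) h3 (by omega)
  rw [← h7, hG']

theorem er_step {l t : ℕ} {e : Fin N ≃ α} {z : α} (hl : 1 ≤ l) (hlt : l ≤ t) (ht : t ≤ N)
    (hI : Ie v p l t e z) :
    er v p l (Y e (t - l)) z ≤ er v p (l - 1) (Y e (t - l + 1)) z + 1 := by
  have hY : Y e (t - l + 1) = insert (e ⟨t - l, by omega⟩) (Y e (t - l)) :=
    Y_succ e ⟨t - l, by omega⟩
  unfold Ie at hI
  unfold er
  rw [hY] at hI ⊢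
  exact rk_step (Gf_flat v p _ _ _) (Gf_flat v p _ _ _)
    ((subset_insert _ _).trans (Gf_sub v p _ _ _)) ((subset_insert _ _).trans (Gf_sub v p _ _ _)) hI

theorem er_step_not {l t : ℕ} {e : Fin N ≃ α} {z : α} (hl : 1 ≤ l) (hlt : l ≤ t) (ht : t ≤ N)
    (hI : Ie v p l t e z) (hH : ¬ He v p l t e z) :
    er v p l (Y e (t - l)) z ≤ er v p (l - 1) (Y e (t - l + 1)) z := by
  have hY : Y e (t - l + 1) = insert (e ⟨t - l, by omega⟩) (Y e (t - l)) :=
    Y_succ e ⟨t - l, by omega⟩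
  have hx : e ⟨t - l, by omega⟩ ∉ Gf v p l (Y e (t - l)) z := by
    intro hc
    refine hH ⟨_, ?_, hc⟩
    unfold At
    rw [Equiv.symm_apply_apply]
  unfold Ie at hI
  unfold er
  rw [hY] at hI ⊢
  exact rk_step_not (Gf_flat v p _ _ _) (Gf_flat v p _ _ _)
    ((subset_insert _ _).trans (Gf_sub v p _ _ _)) ((subset_insert _ _).trans (Gf_sub v p _ _ _))
    hI hx

theorem RG_of_step {l t : ℕ} {e : Fin N ≃ α} {z : α} (hlt : l + 1 ≤ t) (ht : t ≤ N)
    (hI : Ie v p (l + 1) t e z) (hH : ¬ He v p (l + 1) t e z)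
    (hr : er v p l (Y e (t - l)) z ≤ er v p (l + 1) (Y e (t - (l + 1))) z)
    {h : α} (hh : At e (t - (l + 1)) h) : RG v p l (Y e (t - l)) z h := by
  have hidx : (e.symm h).val + 1 = t - l := by
    unfold At at hh
    omega
  have hidx' : (e.symm h).val = t - (l + 1) := hh
  have hY : Y e (t - l) = insert h (Y e (t - (l + 1))) := by
    have := Y_succ e (e.symm h)
    rw [hidx, hidx', Equiv.apply_symm_apply] at this
    exact this
  have hE : (Y e (t - l)).erase h = Y e (t - (l + 1)) := by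
    have := Y_erase e (e.symm h)
    rw [hidx, hidx', Equiv.apply_symm_apply] at this
    exact this
  have hx : h ∉ Gf v p (l + 1) (Y e (t - (l + 1))) z := fun hc => hH ⟨h, hh, hc⟩
  have h1 : t - (l + 1) + 1 = t - l := by omega
  unfold Ie at hI
  rw [h1, Nat.add_sub_cancel] at hI
  unfold RG
  rw [hE]
  refine ⟨hx, ?_⟩
  refine rk_step_eq (A := Y e (t - (l + 1))) (Gf_flat v p _ _ _) (Gf_flat v p _ _ _)
    ((subset_insert _ _).trans (Gf_sub v p _ _ _)) ?_ hI hx ?_
  · rw [← hY]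
    exact (subset_insert _ _).trans (Gf_sub v p _ _ _)
  · rw [← hY]
    exact hr

theorem Gf_sub_vcl (hξ : 0 < p.ξ) (hξ2 : p.ξ ≤ 1 / 2) {l t : ℕ} {e : Fin N ≃ α} {z : α}
    (hlt : l ≤ t) (h : MMe v p t e z) (hI : ∀ i, 1 ≤ i → i ≤ l → Ie v p i t e z) :
    Gf v p l (Y e (t - l)) z ⊆ vcl v (Y e t) := by
  induction l with
  | zero =>
    rw [Nat.sub_zero, Gf_zero v p hξ hξ2 h]
  | succ l ih =>
    have h1 := hI (l + 1) (by omega) le_rfl
    unfold Ie at h1
    have h2 : t - (l + 1) + 1 = t - l := by omega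
    rw [h2, Nat.add_sub_cancel] at h1
    exact h1.trans (ih (by omega) (fun i hi hi' => hI i hi (by omega)))

open Classical in
theorem er_le_hits (hξ : 0 < p.ξ) (hξ2 : p.ξ ≤ 1 / 2) {l t : ℕ} {e : Fin N ≃ α} {z : α}
    (hlt : l ≤ t) (ht : t ≤ N) (h : MMe v p t e z) (hI : ∀ i, 1 ≤ i → i ≤ l → Ie v p i t e z) :
    er v p l (Y e (t - l)) z ≤ ((Icc 1 l).filter (fun i => He v p i t e z)).card := by
  induction l with
  | zero =>
    unfold er
    rw [Nat.sub_zero, Gf_zero v p hξ hξ2 h, dm_vcl, Nat.sub_self]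
    exact Nat.zero_le _
  | succ l ih =>
    have h1 := ih (by omega) (fun i hi hi' => hI i hi (by omega))
    have h2 : t - (l + 1) + 1 = t - l := by omega
    have h3 : Icc 1 (l + 1) = insert (l + 1) (Icc 1 l) := by
      ext i
      simp only [mem_Icc, mem_insert]
      omega
    have h4 : l + 1 ∉ (Icc 1 l).filter (fun i => He v p i t e z) := by
      simp
    rw [h3, filter_insert]
    by_cases hH : He v p (l + 1) t e z
    · rw [if_pos hH, card_insert_of_notMem h4]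
      have h5 := er_step (l := l + 1) (by omega) hlt ht (hI (l + 1) (by omega) le_rfl)
      rw [h2, Nat.add_sub_cancel] at h5
      omega
    · rw [if_neg hH]
      have h5 := er_step_not (l := l + 1) (by omega) hlt ht (hI (l + 1) (by omega) le_rfl) hH
      rw [h2, Nat.add_sub_cancel] at h5
      omega

end

end Pool.Agent.Lib.P0fc
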