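import Mathlib
import Pool.Agent.Lib.P0fc.Mass
import Pool.Agent.Lib.P0fc.BarConst
import Pool.Agent.Lib.P0fc.BarDet
import Pool.Agent.Lib.P0fc.LInc
import Pool.Agent.Lib.P0fc.LHit
import Pool.Agent.Lib.P0fc.LMB
import Pool.Agent.Lib.P0fc.LRk
import Pool.Agent.Lib.P0fc.DcT
import Pool.Agent.Lib.P0fc.GoodF

/-!
# The barrier: the ranks `e_l` are bounded

`δ` from `bar_const ε`.  Given `κ, ρ` apply it with `τ = κ ρ/8` and get `L₀, l₀, f, qq`; `es = f l₀`.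
Given `lm` choose `ξ₀ ≤ 1/2` with `lm ξ₀ ≤ ρ/8` and `ν₀` small (below).  On `MMe` at time `t`: `β ≤ t`,
so `lm < t` (`ν₀ ≤ 1/(lm+1)`, `1 ≤ ν β`), and `|vcl (Y e t)| ≤ δ N + M + σ ≤ 2 δ N` (`2 ν₀ ≤ δ`).
Exceptional events (`1 ≤ i ≤ lm`), all with `MMe`:
(a) `¬ Ie i`: mass `≤ ξ` each (`mass_not_I`, `mass_MM_le_one`).
(b) for `L₀ < i`: `qq i N ≤ |G_i|`, `e_i ≤ f i + 1`: mass
`≤ (qq i)^-(f i + 1) (2^(f i + 2) (1 - ε/2)^i/κ + 4 (f i + 2)² ν/κ)` by `MB` with `k = f i + 1` (`hP` from `p4`).  The sum of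
the first parts is `≤ τ/κ = ρ/8` (second sum of `bar_const`: `qq^-(f+1) 2^(f+2) = (2/qq)^(f+1) 2`), the sum of the
second parts is `≤ ρ/8` for `ν ≤ ν₀`.
(c) `f i + 1 ≤ #{1 ≤ j ≤ i | LH j}`: mass `≤ 16^-(f i + 1) exp (32 ∑_{j ≤ i} qq j) (2i+4)/κ`, sum `≤ ρ/8` (`mass_hits`, `hC` from `dc` with `θ = κ`).
(d) for `l₀ < i`: `LH i`: mass `≤ 2 qq i (2i+4)/κ`, sum `≤ ρ/8`.
(`mass_hit_one`)
Outside of these events `bar_det` applies to `er i = er v p i (Y e (t-i)) z`, `H i = He i`,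
`sz i = |G_i|/N`: `er 0 = 0` because `G_0(Y_t, z) = vcl (Y e t)` (`Gf_zero`); `hstep` from `Ie i` (`er_step`, `er_step_not`); `hMB`: for `i ≤ L₀`,
`G_i ⊆ vcl (Y e t)` (`Gf_sub_vcl`) has at most `2 δ N ≤ qq i N` elements, for `i > L₀` by (b)
(`qq i N ≤ |G_i|` excluded); `hcnt` by (c); `hno` by (d).  So `e_l ≤ f l₀ = es` for `l₀ ≤ l ≤ lm`.
-/

namespace Pool.Agent.Lib.P0fc

open Finset Pool.Agent.Lib.P0fb

namespace BarrierAux

theorem range_sub {M : ℕ} {f : ℕ → ℝ} (hf : ∀ s, 0 ≤ f s) {C : ℝ}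
    (h : ∑ s ∈ range (M + 1), f s ≤ C) : ∑ s ∈ range M, f s ≤ C :=
  (sum_le_sum_of_subset_of_nonneg (range_mono (Nat.le_succ M)) fun s _ _ => hf s).trans h

theorem vcl_card {α : Type} [Fintype α] [DecidableEq α] {E : Type} [AddCommGroup E] [Module ℝ E]
    {v : α → E} {p : Pm} {N M M₂ : ℕ} {ε ν : ℝ} (hG : Good v N M M₂ p.β p.σ ε ν)
    (hν : 2 * ν ≤ p.δ) {t : ℕ} (ht : t < M) {e : Fin N ≃ α} {z : α} (h : MMe v p t e z) :
    ((vcl v (Y e t)).card : ℝ) ≤ 2 * p.δ * (Fintype.card α : ℝ) := by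
  have h1 : vcl v (Y e t) ⊆ nt v p.β (Y e t) ∪ (Y e t ∪ sm v p.β (Y e t)) := by
    intro x hx
    by_cases h2 : x ∈ Y e t
    · exact mem_union_right _ (mem_union_left _ h2)
    · by_cases h3 : x ∈ sm v p.β (Y e t)
      · exact mem_union_right _ (mem_union_right _ h3)
      · exact mem_union_left _ (mem_nt.2 ⟨hx, h2, h3⟩)
  have h2 : (vcl v (Y e t)).card ≤ (nt v p.β (Y e t)).card + ((Y e t).card +
      (sm v p.β (Y e t)).card) :=
    (card_le_card h1).trans ((card_union_le _ _).trans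
      (Nat.add_le_add_left (card_union_le _ _) _))
  have h3 : (Y e t).card ≤ M := (card_Y_le e t).trans ht.le
  have h4 : (sm v p.β (Y e t)).card ≤ p.σ := h.1.1.2
  have h5 : ((vcl v (Y e t)).card : ℝ) ≤ (nt v p.β (Y e t)).card + ((M : ℝ) + p.σ) := by
    exact_mod_cast h2.trans (Nat.add_le_add_left (Nat.add_le_add h3 h4) _)
  have h6 := hG.σN.1
  have h7 := h.1.2.2
  have h8 : (N : ℝ) = (Fintype.card α : ℝ) := by rw [hG.card]
  rw [h8] at h6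
  have h9 : 2 * ν * (Fintype.card α : ℝ) ≤ p.δ * (Fintype.card α : ℝ) :=
    mul_le_mul_of_nonneg_right hν (Nat.cast_nonneg _)
  linarith

theorem det {α : Type} [Fintype α] [DecidableEq α] {E : Type} [AddCommGroup E] [Module ℝ E]
    {v : α → E} {p : Pm} {N M M₂ : ℕ} {ε ν : ℝ} (hG : Good v N M M₂ p.β p.σ ε ν)
    (hν : 2 * ν ≤ p.δ) (hξ : 0 < p.ξ) (hξ2 : p.ξ ≤ 1 / 2) {f : ℕ → ℕ} (hf : Monotone f)
    {qq : ℕ → ℝ} {L₀ l₀ lm : ℕ} (hq : ∀ l, l ≤ L₀ → 2 * p.δ ≤ qq l) (hlβ : lm ≤ p.β)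
    {t : ℕ} (ht : t < M) {e : Fin N ≃ α} {z : α} (h : MMe v p t e z)
    (ha : ∀ i ∈ Icc 1 lm, Ie v p i t e z)
    (hb : ∀ i ∈ Ioc L₀ lm, ¬ (qq i * (Fintype.card α : ℝ) ≤
      ((Gf v p i (Y e (t - i)) z).card : ℝ) ∧ er v p i (Y e (t - i)) z ≤ f i + 1))
    (hc : ∀ i ∈ Icc 1 lm, ¬ (f i + 1 ≤ (by
      classical exact ((Icc 1 i).filter (fun j => LH v p qq j t e z)).card)))
    (hd : ∀ i ∈ Ioc l₀ lm, ¬ LH v p qq i t e z) {l : ℕ} (hl : l₀ ≤ l) (hlm : l ≤ lm) :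
    er v p l (Y e (t - l)) z ≤ f l₀ := by
  classical
  have htN : t ≤ N := by
    have := hG.M8.2
    omega
  have hβt : p.β ≤ t := beta_le_of_MMe h
  have hstep : ∀ l, 1 ≤ l → l ≤ lm → er v p l (Y e (t - l)) z ≤
      er v p (l - 1) (Y e (t - (l - 1))) z + (if He v p l t e z then 1 else 0) := by
    intro l h1 h2
    have h3 : t - (l - 1) = t - l + 1 := by omega
    have hI := ha l (mem_Icc.2 ⟨h1, h2⟩)
    rw [h3]
    by_cases hH : He v p l t e z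
    · rw [if_pos hH]
      exact er_step h1 (by omega) htN hI
    · rw [if_neg hH, add_zero]
      exact er_step_not h1 (by omega) htN hI hH
  refine bar_det (fun i => er v p i (Y e (t - i)) z) (fun i => He v p i t e z)
    (fun i => ((Gf v p i (Y e (t - i)) z).card : ℝ))
    (fun i => qq i * (Fintype.card α : ℝ)) f l₀ lm hf ?_ ?_ ?_ ?_ ?_ l hl hlm
  · change er v p 0 (Y e (t - 0)) z = 0
    unfold er
    rw [Nat.sub_zero, Gf_zero v p hξ hξ2 h, dm_vcl, Nat.sub_self]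
  · intro l h1 h2
    convert hstep l h1 h2 using 2
  · intro l h1 h2 h3
    change ((Gf v p l (Y e (t - l)) z).card : ℝ) ≤ qq l * (Fintype.card α : ℝ)
    rcases le_or_gt l L₀ with h4 | h4
    · have h5 := Gf_sub_vcl hξ hξ2 (l := l) (by omega) h
        (fun i hi1 hi2 => ha i (mem_Icc.2 ⟨hi1, by omega⟩))
      have h6 : ((Gf v p l (Y e (t - l)) z).card : ℝ) ≤ ((vcl v (Y e t)).card : ℝ) := by
        exact_mod_cast card_le_card h5
      have h7 := vcl_card hG hν ht h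
      have h8 : 2 * p.δ * (Fintype.card α : ℝ) ≤ qq l * (Fintype.card α : ℝ) :=
        mul_le_mul_of_nonneg_right (hq l h4) (Nat.cast_nonneg _)
      linarith
    · have h5 := hb l (mem_Ioc.2 ⟨h4, h2⟩)
      by_contra h6
      rw [not_le] at h6
      exact h5 ⟨h6.le, h3⟩
  · intro l h1 h2
    have h3 := hc l (mem_Icc.2 ⟨h1, h2⟩)
    rw [not_le, Nat.lt_succ_iff] at h3
    refine (card_le_card ?_).trans h3
    intro j hj
    rw [mem_filter] at hj ⊢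
    exact hj
  · intro l h1 h2 h3
    exact hd l (mem_Ioc.2 ⟨h1, h2⟩) h3

end BarrierAux

theorem barrier (ε : ℝ) (hε : 0 < ε) (hε1 : ε ≤ 1) : ∃ δ : ℝ, 0 < δ ∧ δ ≤ 1 / 8 ∧
    ∀ κ ρ : ℝ, 0 < κ → κ ≤ 1 → 0 < ρ → ∃ l₀ es : ℕ, ∀ lm : ℕ, ∃ ξ₀ ν₀ : ℝ, 0 < ξ₀ ∧ 0 < ν₀ ∧
    ∀ (α : Type) [Fintype α] [DecidableEq α] (E : Type) [AddCommGroup E] [Module ℝ E]
      (v : α → E) (p : Pm) (N M M₂ : ℕ) (ν : ℝ), p.κ = κ → p.δ = δ → 0 < p.ξ → p.ξ ≤ ξ₀ →
      ν ≤ ν₀ → Good v N M M₂ p.β p.σ ε ν → ∀ l, l₀ ≤ l → l ≤ lm →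
      mass M (fun t (e : Fin N ≃ α) z => MMe v p t e z ∧ es < er v p l (Y e (t - l)) z) ≤ ρ := by
  classical
  obtain ⟨δ, hδ, hδ8, H⟩ := bar_const ε hε hε1
  refine ⟨δ, hδ, hδ8, ?_⟩
  intro κ ρ hκ hκ1 hρ
  have hτ : 0 < κ * ρ / 8 := by positivity
  obtain ⟨L₀, l₀, f, qq, hL1, hL₀, hf, hqq, hqqL, s1, s2, s3⟩ := H (κ * ρ / 8) hτ
  refine ⟨l₀, f l₀, fun lm => ?_⟩
  set S : ℝ := ∑ i ∈ Ioc L₀ lm, (1 / qq i) ^ (f i + 1) *
    (4 * (((f i + 1 : ℕ) : ℝ) + 1) ^ 2 / κ) with hS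
  have hS0 : 0 ≤ S := by
    rw [hS]
    refine sum_nonneg fun i _ => ?_
    have := (hqq i).1
    positivity
  obtain ⟨ν₀, hν₀⟩ : ∃ ν₀ : ℝ, ν₀ = min (min (δ / 2) (κ / 8))
    (min (min (1 / ((lm : ℝ) + 1)) (1 / (2 * ((f lm : ℝ) + 2)))) (ρ / (8 * (S + 1)))) := ⟨_, rfl⟩
  have hν₀p : 0 < ν₀ := by
    rw [hν₀]
    refine lt_min (lt_min ?_ ?_) (lt_min (lt_min ?_ ?_) ?_) <;> positivity
  have n1 : ν₀ ≤ δ / 2 := by
    rw [hν₀]
    exact (min_le_left _ _).trans (min_le_left _ _)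
  have n2 : ν₀ ≤ κ / 8 := by
    rw [hν₀]
    exact (min_le_left _ _).trans (min_le_right _ _)
  have n3 : ν₀ ≤ 1 / ((lm : ℝ) + 1) := by
    rw [hν₀]
    exact (min_le_right _ _).trans ((min_le_left _ _).trans (min_le_left _ _))
  have n4 : ν₀ ≤ 1 / (2 * ((f lm : ℝ) + 2)) := by
    rw [hν₀]
    exact (min_le_right _ _).trans ((min_le_left _ _).trans (min_le_right _ _))
  have n5 : ν₀ ≤ ρ / (8 * (S + 1)) := by
    rw [hν₀]
    exact (min_le_right _ _).trans (min_le_right _ _)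
  clear_value S
  clear hν₀
  refine ⟨min (1 / 2) (ρ / (8 * ((lm : ℝ) + 1))), ν₀, lt_min (by norm_num) (by positivity), hν₀p, ?_⟩
  intro α _ _ E _ _ v p N M M₂ ν hpκ hpδ hξ hξ1 hν hG l hl hlm
  have hξ2 : p.ξ ≤ 1 / 2 := hξ1.trans (min_le_left _ _)
  have hξ3 : p.ξ ≤ ρ / (8 * ((lm : ℝ) + 1)) := hξ1.trans (min_le_right _ _)
  have hνp := hG.hν
  have hlβ : lm ≤ p.β := by
    refine hG.inv ?_
    have h1 : ν ≤ 1 / ((lm : ℝ) + 1) := hν.trans n3
    rw [le_div_iff₀ (by positivity)] at h1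
    nlinarith
  have hM8 := hG.M8
  have hM2 : 2 * M ≤ N := by omega
  have hC : ∀ i : ℕ, ∑ s ∈ range M, PP (fun e : Fin N ≃ α => OK v p.β p.σ (Y e s) ∧
      Dle v p.κ i (Y e s)) ≤ (2 * (i : ℝ) + 4) / κ := by
    intro i
    refine BarrierAux.range_sub (fun s => PP_nonneg _) ?_
    rw [hpκ]
    exact dc v hG.card hG.σβ hM8.2 hκ (hG.Mθ (by linarith)) i
  have hP : ∑ t ∈ range M, PP (fun e : Fin N ≃ α => OK v p.β p.σ (Y e t) ∧
        p.κ * (Fintype.card α : ℝ) ≤ ((nt v p.β (Y e t)).card : ℝ)) ≤ 1 / p.κ := by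
    refine BarrierAux.range_sub (fun s => PP_nonneg _) ?_
    have h1 := p4 v hG.card hG.σβ hM8.2 (δ := p.κ) (by rw [hpκ]; exact hκ)
    rw [hG.card]
    exact h1
  have hq0 : ∀ i, 0 ≤ qq i := fun i => (hqq i).1.le
  -- the four exceptional events
  have ba : mass M (fun t (e : Fin N ≃ α) z => ∃ i ∈ Icc 1 lm, MMe v p t e z ∧
      ¬ Ie v p i t e z) ≤ ρ / 8 := by
    refine (mass_exists_le _ _).trans ?_
    have h1 : ∀ i ∈ Icc 1 lm, mass M (fun t (e : Fin N ≃ α) z => MMe v p t e z ∧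
        ¬ Ie v p i t e z) ≤ p.ξ := by
      intro i hi
      rw [mem_Icc] at hi
      have h2 := mass_not_I v p (M := M) hG.card hM8.2.le hξ hξ2 hi.1 (by omega)
      have h3 := mass_MM_le_one hG
      have h4 := mul_le_mul_of_nonneg_left h3 hξ.le
      linarith
    refine (sum_le_sum h1).trans ?_
    rw [sum_const, Nat.card_Icc, nsmul_eq_mul, Nat.add_sub_cancel]
    rw [le_div_iff₀ (by positivity)] at hξ3
    nlinarith
  have bb : mass M (fun t (e : Fin N ≃ α) z => ∃ i ∈ Ioc L₀ lm, MMe v p t e z ∧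
      qq i * (Fintype.card α : ℝ) ≤ ((Gf v p i (Y e (t - i)) z).card : ℝ) ∧
      er v p i (Y e (t - i)) z ≤ f i + 1) ≤ ρ / 8 + ρ / 8 := by
    refine (mass_exists_le _ _).trans ?_
    have h1 : ∀ i ∈ Ioc L₀ lm, mass M (fun t (e : Fin N ≃ α) z => MMe v p t e z ∧
        qq i * (Fintype.card α : ℝ) ≤ ((Gf v p i (Y e (t - i)) z).card : ℝ) ∧
        er v p i (Y e (t - i)) z ≤ f i + 1) ≤
        (2 / qq i) ^ (f i + 1) * (2 * (1 - ε / 2) ^ i) * (1 / κ) +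
          (1 / qq i) ^ (f i + 1) * (4 * (((f i + 1 : ℕ) : ℝ) + 1) ^ 2 / κ) * ν := by
      intro i hi
      rw [mem_Ioc] at hi
      have h2 : (((f i + 1 : ℕ) : ℝ) + 1) * ν ≤ 1 / 2 := by
        have h3 : ν ≤ 1 / (2 * ((f lm : ℝ) + 2)) := hν.trans n4
        rw [le_div_iff₀ (by positivity)] at h3
        have h4 : (f i : ℝ) ≤ f lm := by exact_mod_cast hf hi.2
        have h5 := mul_le_mul_of_nonneg_right h4 hνp.le
        push_cast
        linarith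
      have h3 := MB v p hG (by rw [hpκ]; exact hκ) (by rw [hpκ]; exact hκ1) (k := f i + 1)
        (l := i) h2 (by omega) (hqq i).1 hP
      refine h3.trans (le_of_eq ?_)
      rw [hpκ, mul_add]
      have h4 : (2 / qq i) ^ (f i + 1) = (1 / qq i) ^ (f i + 1) * 2 ^ (f i + 1) := by
        rw [← mul_pow]
        congr 1
        ring
      rw [h4, pow_succ (2 : ℝ) (f i + 1)]
      ring
    refine (sum_le_sum h1).trans ?_
    rw [sum_add_distrib, ← sum_mul, ← sum_mul, ← hS]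
    refine add_le_add ?_ ?_
    · have h2 := mul_le_mul_of_nonneg_right (s2 lm) (by positivity : (0 : ℝ) ≤ 1 / κ)
      refine h2.trans (le_of_eq ?_)
      field_simp
    · have h3 : ν ≤ ρ / (8 * (S + 1)) := hν.trans n5
      rw [le_div_iff₀ (by positivity)] at h3
      nlinarith
  have bc : mass M (fun t (e : Fin N ≃ α) z => ∃ i ∈ Icc 1 lm, MMe v p t e z ∧
      f i + 1 ≤ ((Icc 1 i).filter (fun j => LH v p qq j t e z)).card) ≤ ρ / 8 := by
    refine (mass_exists_le _ _).trans ?_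
    have h1 : ∀ i ∈ Icc 1 lm, mass M (fun t (e : Fin N ≃ α) z => MMe v p t e z ∧
        f i + 1 ≤ ((Icc 1 i).filter (fun j => LH v p qq j t e z)).card) ≤
        (1 / 16) ^ (f i + 1) * Real.exp (32 * ∑ j ∈ Icc 1 i, qq j) * (2 * (i : ℝ) + 4) *
          (1 / κ) := by
      intro i hi
      rw [mem_Icc] at hi
      have h2 := mass_hits v p (M := M) hG.card hM2 qq hq0 (l := i) (by omega) (f i + 1) (hC i)
      refine le_of_eq_of_le ?_ (h2.trans (le_of_eq ?_))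
      · congr!
      · ring
    refine (sum_le_sum h1).trans ?_
    rw [← sum_mul]
    have h2 : ∑ i ∈ Icc 1 lm, (1 / 16 : ℝ) ^ (f i + 1) * Real.exp (32 * ∑ j ∈ Icc 1 i, qq j) *
        (2 * (i : ℝ) + 4) ≤ κ * ρ / 8 := by
      refine le_trans (sum_le_sum_of_subset_of_nonneg ?_ ?_) (s1 (lm + 1))
      · intro i hi
        rw [mem_Icc] at hi
        rw [mem_range]
        omega
      · intro i _ _
        have := Real.exp_pos (32 * ∑ j ∈ Icc 1 i, qq j)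
        positivity
    have h3 := mul_le_mul_of_nonneg_right h2 (by positivity : (0 : ℝ) ≤ 1 / κ)
    refine h3.trans (le_of_eq ?_)
    field_simp
  have bd : mass M (fun t (e : Fin N ≃ α) z => ∃ i ∈ Ioc l₀ lm, MMe v p t e z ∧
      LH v p qq i t e z) ≤ ρ / 8 := by
    refine (mass_exists_le _ _).trans ?_
    have h1 : ∀ i ∈ Ioc l₀ lm, mass M (fun t (e : Fin N ≃ α) z => MMe v p t e z ∧
        LH v p qq i t e z) ≤ 2 * qq i * (2 * (i : ℝ) + 4) * (1 / κ) := by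
      intro i hi
      rw [mem_Ioc] at hi
      have h2 := mass_hit_one v p (M := M) hG.card hM2 qq hq0 (l := i) (by omega) (by omega)
        (hC i)
      refine h2.trans (le_of_eq ?_)
      ring
    refine (sum_le_sum h1).trans ?_
    rw [← sum_mul]
    have h3 := mul_le_mul_of_nonneg_right (s3 lm) (by positivity : (0 : ℝ) ≤ 1 / κ)
    refine h3.trans (le_of_eq ?_)
    field_simp
  -- the union
  have hun : mass M (fun t (e : Fin N ≃ α) z => MMe v p t e z ∧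
      f l₀ < er v p l (Y e (t - l)) z) ≤
      mass M (fun t (e : Fin N ≃ α) z =>
        ((∃ i ∈ Icc 1 lm, MMe v p t e z ∧ ¬ Ie v p i t e z) ∨
        (∃ i ∈ Ioc L₀ lm, MMe v p t e z ∧
          qq i * (Fintype.card α : ℝ) ≤ ((Gf v p i (Y e (t - i)) z).card : ℝ) ∧
          er v p i (Y e (t - i)) z ≤ f i + 1)) ∨
        ((∃ i ∈ Icc 1 lm, MMe v p t e z ∧
          f i + 1 ≤ ((Icc 1 i).filter (fun j => LH v p qq j t e z)).card) ∨
        (∃ i ∈ Ioc l₀ lm, MMe v p t e z ∧ LH v p qq i t e z))) := by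
    refine mass_mono ?_
    rintro t ht e z ⟨hM, her⟩
    by_contra hcon
    push Not at hcon
    obtain ⟨⟨ha, hb⟩, hc, hd⟩ := hcon
    refine absurd (BarrierAux.det hG (by rw [hpδ]; linarith) hξ hξ2 hf (qq := qq) (L₀ := L₀) (l₀ := l₀)
      (lm := lm) (fun l hl => by rw [hpδ]; exact hqqL l hl) hlβ ht hM
      (fun i hi => ha i hi hM) ?_ ?_ ?_ hl hlm) (not_le.2 her)
    · rintro i hi ⟨h1, h2⟩
      exact absurd h2 (not_le.2 (hb i hi hM h1))
    · intro i hi h1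
      refine absurd (hc i hi hM) ?_
      rw [not_lt]
      convert h1
    · intro i hi h1
      exact hd i hi hM h1
  refine hun.trans ((mass_or_le _ _).trans ?_)
  refine (add_le_add (mass_or_le _ _) (mass_or_le _ _)).trans ?_
  linarith

end Pool.Agent.Lib.P0fc
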