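import Mathlib
import Pool.Agent.Lib.P0fc.Facts

/-!
# Exchangeability of two positions

`perm2`: first substitute `e ↦ (swap i i').trans e` (a bijection of the orderings, see `ProbAux_exch` in
`P0fb.Prob`): `((swap i i').trans e) i = e i'` and `((swap i i').trans e) j = e j₁` with
`j₁ = swap i i' j ∈ S`, `j₁ ≠ i'` (because `j ≠ i`).  So `EE (F e (e i) (e j)) = EE (F e (e i') (e j₁))`.  Then
substitute with `swap j₁ j'`, which fixes `i'`.
`pairBack`: sum `perm2` (with `S` the positions `< s`) over all ordered pairs `(i, j)` of distinct positions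
`< s`: there are `s (s - 1)` of them, and `(e i, e j)` runs through the ordered pairs of distinct
elements of `Y e s`.
`pairMv`: `perm2` with `S` the positions in `[s, t)` and `F e x y = ind (A e ∧ (x, y) ∈ B (Y e s))`:
a swap of two positions in `[s, t)` does not change `Y e s` (`Y_swap_past`) and does not change `A`.
`pairU`: `forw` at the position `p + 1` with `h e y = ind (A e ∧ (e p, y) ∈ B (Y e s))` (`PastM (p+1)`),
then `forw` at `p` with `h e x = ind (A e) * #{y | (x, y) ∈ B (Y e s)}`.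
-/

namespace Pool.Agent.Lib.P0fc

open Finset Pool.Agent.Lib.P0fb

section

variable {α : Type} [Fintype α] [DecidableEq α] {N : ℕ}

namespace Perm2Aux

theorem EE_swap (a b : Fin N) (f : (Fin N ≃ α) → ℝ) :
    EE (fun e => f ((Equiv.swap a b).trans e)) = EE f := by
  have h1 : ∀ e : Fin N ≃ α, (Equiv.swap a b).trans ((Equiv.swap a b).trans e) = e := by
    intro e
    rw [← Equiv.trans_assoc]
    ext x
    simp
  unfold EE
  congr 1
  exact Equiv.sum_comp (⟨fun e => (Equiv.swap a b).trans e, fun e => (Equiv.swap a b).trans e,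
    h1, h1⟩ : (Fin N ≃ α) ≃ (Fin N ≃ α)) f

theorem sumY_erase (e : Fin N ≃ α) (s : ℕ) (i : Fin N) (f : α → ℝ) :
    ∑ y ∈ (Y e s).erase (e i), f y =
      ∑ j ∈ (univ.filter (fun j : Fin N => j.val < s)).erase i, f (e j) := by
  have h : (Y e s).erase (e i) =
      ((univ.filter (fun j : Fin N => j.val < s)).erase i).image e := by
    unfold Y
    rw [Finset.image_erase e.injective]
  rw [h]
  exact Finset.sum_image fun i _ j _ hij => e.injective hij

theorem at_iff {e : Fin N ≃ α} {p : ℕ} (hp : p < N) {x : α} : At e p x ↔ x = e ⟨p, hp⟩ := by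
  unfold At
  constructor
  · intro h
    have h2 : e.symm x = ⟨p, hp⟩ := Fin.ext h
    rw [← h2, Equiv.apply_symm_apply]
  · rintro rfl
    rw [Equiv.symm_apply_apply]

theorem ind_congr {P Q : Prop} (h : P ↔ Q) : ind P = ind Q := by
  rw [propext h]

theorem at_ex {e : Fin N ≃ α} {p q : ℕ} (hp : p < N) (hq : q < N) (A : Prop)
    (B : Finset (α × α)) :
    (A ∧ ∃ x y, At e p x ∧ At e q y ∧ (x, y) ∈ B) ↔ (A ∧ (e ⟨p, hp⟩, e ⟨q, hq⟩) ∈ B) := by
  constructor
  · rintro ⟨hA, x, y, hx, hy, hB⟩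
    rw [at_iff hp] at hx
    rw [at_iff hq] at hy
    subst hx hy
    exact ⟨hA, hB⟩
  · rintro ⟨hA, hB⟩
    exact ⟨hA, _, _, (at_iff hp).2 rfl, (at_iff hq).2 rfl, hB⟩

theorem sum_ind_mem (B : Finset (α × α)) (x : α) :
    ∑ y, ind ((x, y) ∈ B) = ((B.filter (fun z => z.1 = x)).card : ℝ) := by
  classical
  have h1 : ∀ y, ind ((x, y) ∈ B) = if (x, y) ∈ B then (1 : ℝ) else 0 := by
    intro y
    by_cases h : (x, y) ∈ B
    · rw [ind_of h, if_pos h]
    · rw [ind_not_of h, if_neg h]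
  rw [Finset.sum_congr rfl fun y _ => h1 y, Finset.sum_boole]
  congr 1
  refine Finset.card_bij (fun y _ => (x, y)) ?_ ?_ ?_
  · intro y hy
    rw [Finset.mem_filter] at hy ⊢
    exact ⟨hy.2, rfl⟩
  · intro y _ y' _ h
    exact (Prod.mk.inj h).2
  · rintro ⟨a, b⟩ h
    rw [Finset.mem_filter] at h
    obtain ⟨h2, rfl⟩ := h
    exact ⟨b, Finset.mem_filter.2 ⟨mem_univ _, h2⟩, rfl⟩

theorem sum_sum_ind (B : Finset (α × α)) :
    ∑ x, ∑ y, ind ((x, y) ∈ B) = (B.card : ℝ) := by
  rw [Finset.sum_congr rfl fun x _ => sum_ind_mem B x, ← Nat.cast_sum]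
  congr 1
  exact (Finset.card_eq_sum_card_fiberwise (fun z _ => mem_univ z.1)).symm

end Perm2Aux

open Perm2Aux

theorem perm2 (S : Finset (Fin N)) (F : (Fin N ≃ α) → α → α → ℝ)
    (hF : ∀ x y e, ∀ i ∈ S, ∀ j ∈ S, F ((Equiv.swap i j).trans e) x y = F e x y)
    {i j i' j' : Fin N} (hi : i ∈ S) (hj : j ∈ S) (hij : i ≠ j) (hi' : i' ∈ S) (hj' : j' ∈ S)
    (hij' : i' ≠ j') :
    EE (fun e => F e (e i) (e j)) = EE (fun e => F e (e i') (e j')) := by
  have hj1 : Equiv.swap i i' j ∈ S := by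
    rw [Equiv.swap_apply_def]
    split_ifs
    · exact hi'
    · exact hi
    · exact hj
  have hne : Equiv.swap i i' j ≠ i' := by
    intro h
    apply hij
    have := congrArg (Equiv.swap i i') h
    rw [Equiv.swap_apply_self, Equiv.swap_apply_right] at this
    exact this.symm
  rw [← EE_swap i i' (fun e => F e (e i) (e j))]
  have h1 : EE (fun e => F ((Equiv.swap i i').trans e) (((Equiv.swap i i').trans e) i)
      (((Equiv.swap i i').trans e) j)) = EE (fun e => F e (e i') (e (Equiv.swap i i' j))) := by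
    refine EE_congr fun e => ?_
    rw [hF _ _ e i hi i' hi', Equiv.trans_apply, Equiv.trans_apply, Equiv.swap_apply_left]
  rw [h1]
  generalize Equiv.swap i i' j = j₁ at hj1 hne
  rw [← EE_swap j₁ j' (fun e => F e (e i') (e j₁))]
  refine EE_congr fun e => ?_
  show F ((Equiv.swap j₁ j').trans e) (((Equiv.swap j₁ j').trans e) i')
      (((Equiv.swap j₁ j').trans e) j₁) = _
  rw [hF _ _ e j₁ hj1 j' hj', Equiv.trans_apply, Equiv.trans_apply, Equiv.swap_apply_left,
    Equiv.swap_apply_of_ne_of_ne hne.symm hij']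

theorem pairBack {s : ℕ} (hs : 2 ≤ s) (hsN : s ≤ N) (F : (Fin N ≃ α) → α → α → ℝ)
    (hF : ∀ x y, FutM s (fun e => F e x y)) :
    (s : ℝ) * ((s : ℝ) - 1) *
      EE (fun e => F e (e ⟨s - 2, by omega⟩) (e ⟨s - 1, by omega⟩)) =
      EE (fun e => ∑ x ∈ Y e s, ∑ y ∈ (Y e s).erase x, F e x y) := by
  set S : Finset (Fin N) := univ.filter (fun j : Fin N => j.val < s) with hS
  have hmem : ∀ {i : Fin N}, i ∈ S ↔ i.val < s := by
    intro i
    rw [hS, Finset.mem_filter]
    exact ⟨fun h => h.2, fun h => ⟨mem_univ _, h⟩⟩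
  have hF' : ∀ x y e, ∀ i ∈ S, ∀ j ∈ S, F ((Equiv.swap i j).trans e) x y = F e x y :=
    fun x y e i hi j hj => hF x y e i j (hmem.1 hi) (hmem.1 hj)
  set c : ℝ := EE (fun e => F e (e ⟨s - 2, by omega⟩) (e ⟨s - 1, by omega⟩)) with hc
  have h1 : ∀ i ∈ S, ∀ j ∈ S.erase i, EE (fun e => F e (e i) (e j)) = c := by
    intro i hi j hj
    rw [Finset.mem_erase] at hj
    refine perm2 S F hF' hi hj.2 (Ne.symm hj.1) (hmem.2 ?_) (hmem.2 ?_) ?_
    · show s - 2 < s
      omega
    · show s - 1 < s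
      omega
    · intro h
      have := congrArg Fin.val h
      simp only at this
      omega
  have h2 : EE (fun e => ∑ x ∈ Y e s, ∑ y ∈ (Y e s).erase x, F e x y) =
      ∑ i ∈ S, ∑ j ∈ S.erase i, EE (fun e => F e (e i) (e j)) := by
    have h3 : ∀ e : Fin N ≃ α, ∑ x ∈ Y e s, ∑ y ∈ (Y e s).erase x, F e x y =
        ∑ i ∈ S, ∑ j ∈ S.erase i, F e (e i) (e j) := by
      intro e
      rw [ProbAux_sumY e s]
      refine Finset.sum_congr rfl fun i _ => ?_
      exact sumY_erase e s i _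
    rw [EE_congr h3, EE_sum]
    refine Finset.sum_congr rfl fun i _ => ?_
    rw [EE_sum]
  rw [h2, Finset.sum_congr rfl fun i hi => Finset.sum_congr rfl (h1 i hi)]
  have hcard : S.card = s := ProbAux_card_lt hsN
  have h4 : ∀ i ∈ S, ∑ _j ∈ S.erase i, c = ((s : ℝ) - 1) * c := by
    intro i hi
    rw [Finset.sum_const, nsmul_eq_mul, Finset.card_erase_of_mem hi, hcard,
      Nat.cast_sub (by omega), Nat.cast_one]
  rw [Finset.sum_congr rfl h4, Finset.sum_const, nsmul_eq_mul, hcard, mul_assoc]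

theorem pairMv {s t : ℕ} (hst : s + 2 ≤ t) (htN : t ≤ N) (A : (Fin N ≃ α) → Prop)
    (hA : FutM t (fun e => ind (A e))) (B : Finset α → Finset (α × α)) :
    PP (fun e => A e ∧ ∃ x y, At e s x ∧ At e (s + 1) y ∧ (x, y) ∈ B (Y e s)) =
      PP (fun e => A e ∧ ∃ x y, At e (t - 2) x ∧ At e (t - 1) y ∧ (x, y) ∈ B (Y e s)) := by
  set S : Finset (Fin N) := univ.filter (fun j : Fin N => s ≤ j.val ∧ j.val < t) with hS
  have hmem : ∀ {i : Fin N}, i ∈ S ↔ s ≤ i.val ∧ i.val < t := by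
    intro i
    rw [hS, Finset.mem_filter]
    exact ⟨fun h => h.2, fun h => ⟨mem_univ _, h⟩⟩
  have hF : ∀ (x y : α) (e : Fin N ≃ α), ∀ i ∈ S, ∀ j ∈ S,
      (fun (e : Fin N ≃ α) (x y : α) => ind (A e ∧ (x, y) ∈ B (Y e s)))
        ((Equiv.swap i j).trans e) x y =
      (fun (e : Fin N ≃ α) (x y : α) => ind (A e ∧ (x, y) ∈ B (Y e s))) e x y := by
    intro x y e i hi j hj
    have hi' := hmem.1 hi
    have hj' := hmem.1 hj
    simp only
    rw [ind_and, ind_and, Y_swap_past e hi'.1 hj'.1 le_rfl]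
    congr 1
    exact hA e i j hi'.2 hj'.2
  have h1 := perm2 (i := ⟨s, by omega⟩) (j := ⟨s + 1, by omega⟩) (i' := ⟨t - 2, by omega⟩)
    (j' := ⟨t - 1, by omega⟩) S
    (fun (e : Fin N ≃ α) (x y : α) => ind (A e ∧ (x, y) ∈ B (Y e s))) hF
    (hmem.2 ⟨le_rfl, by show s < t; omega⟩)
    (hmem.2 ⟨by show s ≤ s + 1; omega, by show s + 1 < t; omega⟩)
    (by
      intro h
      have := congrArg Fin.val h
      simp only at this
      omega)
    (hmem.2 ⟨by show s ≤ t - 2; omega, by show t - 2 < t; omega⟩)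
    (hmem.2 ⟨by show s ≤ t - 1; omega, by show t - 1 < t; omega⟩)
    (by
      intro h
      have := congrArg Fin.val h
      simp only at this
      omega)
  unfold PP
  rw [EE_congr fun e => ind_congr (at_ex (e := e) (p := s) (q := s + 1) (by omega) (by omega)
      (A e) (B (Y e s))),
    EE_congr fun e => ind_congr (at_ex (e := e) (p := t - 2) (q := t - 1) (by omega) (by omega)
      (A e) (B (Y e s)))]
  exact h1

theorem pairU {s p : ℕ} (hs : s ≤ p) (hp : p + 1 < N) (A : (Fin N ≃ α) → Prop)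
    (hA : PastM p (fun e => ind (A e))) (B : Finset α → Finset (α × α)) {c : ℝ}
    (hB : ∀ W, ((B W).card : ℝ) ≤ c) :
    ((N : ℝ) - p) * ((N : ℝ) - p - 1) *
      PP (fun e => A e ∧ ∃ x y, At e p x ∧ At e (p + 1) y ∧ (x, y) ∈ B (Y e s)) ≤ c * PP A := by
  have hN1 : (0 : ℝ) < (N : ℝ) - p - 1 := by
    have : ((p + 1 : ℕ) : ℝ) < (N : ℝ) := by exact_mod_cast hp
    push_cast at this
    linarith
  have hN0 : (0 : ℝ) < (N : ℝ) - p := by linarith
  set P : Fin N := ⟨p, by omega⟩ with hP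
  set Q : Fin N := ⟨p + 1, hp⟩ with hQ
  have e1 : PP (fun e => A e ∧ ∃ x y, At e p x ∧ At e (p + 1) y ∧ (x, y) ∈ B (Y e s)) =
      EE (fun e => ind (A e) * ind ((e P, e Q) ∈ B (Y e s))) := by
    unfold PP
    refine EE_congr fun e => ?_
    rw [ind_congr (at_ex (e := e) (p := p) (q := p + 1) (by omega) (by omega)
      (A e) (B (Y e s))), ind_and]
  have h1 := forw Q (fun (e : Fin N ≃ α) y => ind (A e) * ind ((e P, y) ∈ B (Y e s))) (by
    intro y e i j hi hj
    have hi' : p + 1 ≤ i.val := hi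
    have hj' : p + 1 ≤ j.val := hj
    simp only
    rw [Y_swap_past e hi' hj' (by omega : s ≤ p + 1),
      app_swap_past e hi' hj' (show P.val < p + 1 by show p < p + 1; omega)]
    congr 1
    exact hA e i j (by omega) (by omega))
  have h2 := forw P (fun (e : Fin N ≃ α) x => ind (A e) * ∑ y, ind ((x, y) ∈ B (Y e s))) (by
    intro y e i j hi hj
    have hi' : p ≤ i.val := hi
    have hj' : p ≤ j.val := hj
    simp only
    rw [Y_swap_past e hi' hj' hs]
    congr 1
    exact hA e i j hi' hj')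
  have hQv : (Q.val : ℝ) = (p : ℝ) + 1 := by
    show (((p + 1 : ℕ)) : ℝ) = _
    push_cast
    ring
  have hPv : (P.val : ℝ) = (p : ℝ) := rfl
  have h3 : EE (fun e => ind (A e) * ind ((e P, e Q) ∈ B (Y e s))) ≤
      EE (fun e => ind (A e) * ∑ y, ind ((e P, y) ∈ B (Y e s))) / ((N : ℝ) - p - 1) := by
    rw [h1, div_eq_inv_mul, ← EE_mul_left]
    refine EE_mono fun e => ?_
    rw [hQv, ← div_eq_inv_mul, show (N : ℝ) - (p + 1) = (N : ℝ) - p - 1 by ring]
    refine div_le_div_of_nonneg_right ?_ hN1.le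
    rw [Finset.mul_sum]
    exact Finset.sum_le_sum_of_subset_of_nonneg (subset_univ _) fun y _ _ =>
      mul_nonneg (ind_nonneg _) (ind_nonneg _)
  have h4 : EE (fun e => ind (A e) * ∑ y, ind ((e P, y) ∈ B (Y e s))) ≤
      c * PP A / ((N : ℝ) - p) := by
    rw [h2]
    have : c * PP A / ((N : ℝ) - p) = EE (fun e => c / ((N : ℝ) - p) * ind (A e)) := by
      rw [EE_mul_left]
      unfold PP
      ring
    rw [this]
    refine EE_mono fun e => ?_
    rw [hPv, div_mul_eq_mul_div]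
    refine div_le_div_of_nonneg_right ?_ hN0.le
    calc ∑ x ∈ (Y e P.val)ᶜ, ind (A e) * ∑ y, ind ((x, y) ∈ B (Y e s))
        ≤ ∑ x, ind (A e) * ∑ y, ind ((x, y) ∈ B (Y e s)) :=
          Finset.sum_le_sum_of_subset_of_nonneg (subset_univ _) fun x _ _ =>
            mul_nonneg (ind_nonneg _) (Finset.sum_nonneg fun y _ => ind_nonneg _)
      _ = ind (A e) * ((B (Y e s)).card : ℝ) := by
          rw [← Finset.mul_sum, sum_sum_ind]
      _ ≤ ind (A e) * c := mul_le_mul_of_nonneg_left (hB _) (ind_nonneg _)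
      _ = c * ind (A e) := mul_comm _ _
  rw [e1]
  calc ((N : ℝ) - p) * ((N : ℝ) - p - 1) *
        EE (fun e => ind (A e) * ind ((e P, e Q) ∈ B (Y e s)))
      ≤ ((N : ℝ) - p) * ((N : ℝ) - p - 1) *
        (c * PP A / ((N : ℝ) - p) / ((N : ℝ) - p - 1)) := by
        refine mul_le_mul_of_nonneg_left (h3.trans ?_) (mul_pos hN0 hN1).le
        exact div_le_div_of_nonneg_right h4 hN1.le
    _ = c * PP A := by
        field_simp

end

end Pool.Agent.Lib.P0fc
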