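import Mathlib
import Pool.Agent.Lib.P0fc.DcT
import Pool.Agent.Lib.P0fc.Perm2

/-!
# Pairs in a small set of pairs

Fix `t`, `s = t - k - 2`.  The event `A = (OK (Y t) ∧ θ N ≤ |vcl (Y t)|)` is `FutM t` (`Y_swap_fut`), so by
`pairMv` the probability is that of `A ∧ (e (t-2), e (t-1)) ∈ B (Y s)`; `A` implies the `PastM (t-2)` event
`A' = (OK (Y (t-2)) ∧ Dle θ 2 (Y (t-2)))` (`OK_anti`; `Y t = Y (t-2) ∪ {x, y}`), so by `pairU` it is at most
`η N²/((N - t + 2)(N - t + 1)) PP(A') ≤ 2 η PP(A')` (`t ≤ M ≤ N/8`, `t ≥ 2` so `N ≥ 16`; `0 ≤ η` because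
`0 ≤ |B W| ≤ η N²`).  The sum over `t` of `PP(A')` is at most `(2*2+4)/θ = 8/θ` by `dc`; total `16 η/θ`.
-/

namespace Pool.Agent.Lib.P0fc

open Finset Pool.Agent.Lib.P0fb

section

variable {α : Type} [Fintype α] [DecidableEq α] {E : Type} [AddCommGroup E] [Module ℝ E]

theorem px_le (v : α → E) {N β σ M : ℕ} (hN : Fintype.card α = N) (hσ : σ ≤ β) (hM : M < N)
    (hM8 : 8 * M ≤ N) {θ : ℝ} (hθ : 0 < θ) (hMθ : (M : ℝ) + σ ≤ θ / 4 * N) {η : ℝ} (hη : 0 ≤ η)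
    (B : Finset α → Finset (α × α)) (hB : ∀ W, ((B W).card : ℝ) ≤ η * (N : ℝ) ^ 2) (k : ℕ) :
    ∑ t ∈ Icc (k + 2) M, PP (fun e : Fin N ≃ α => OK v β σ (Y e t) ∧
      θ * N ≤ ((vcl v (Y e t)).card : ℝ) ∧
      ∃ x y, At e (t - k - 2) x ∧ At e (t - k - 1) y ∧ (x, y) ∈ B (Y e (t - k - 2))) ≤
      16 * η / θ := by
  have hNc : (Fintype.card α : ℝ) = N := by exact_mod_cast congrArg (fun n : ℕ => (n : ℝ)) hN
  have hN0 : (0 : ℝ) < N := by
    have : 0 < N := by omega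
    exact_mod_cast this
  have hM8' : 8 * (M : ℝ) ≤ N := by exact_mod_cast hM8
  -- one time
  have key : ∀ t ∈ Icc (k + 2) M, PP (fun e : Fin N ≃ α => OK v β σ (Y e t) ∧
      θ * N ≤ ((vcl v (Y e t)).card : ℝ) ∧
      ∃ x y, At e (t - k - 2) x ∧ At e (t - k - 1) y ∧ (x, y) ∈ B (Y e (t - k - 2))) ≤
      2 * η * PP (fun e : Fin N ≃ α => OK v β σ (Y e (t - 2)) ∧ Dle v θ 2 (Y e (t - 2))) := by
    intro t ht
    rw [mem_Icc] at ht
    obtain ⟨ht1, ht2⟩ := ht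
    obtain ⟨s, rfl⟩ : ∃ s, t = s + (k + 2) := ⟨t - (k + 2), by omega⟩
    have e1 : s + (k + 2) - k - 2 = s := by omega
    have e2 : s + (k + 2) - k - 1 = s + 1 := by omega
    rw [e1, e2]
    have h1 : PP (fun e : Fin N ≃ α => OK v β σ (Y e (s + (k + 2))) ∧
        θ * N ≤ ((vcl v (Y e (s + (k + 2)))).card : ℝ) ∧
        ∃ x y, At e s x ∧ At e (s + 1) y ∧ (x, y) ∈ B (Y e s)) =
        PP (fun e : Fin N ≃ α => (OK v β σ (Y e (s + (k + 2))) ∧
        θ * N ≤ ((vcl v (Y e (s + (k + 2)))).card : ℝ)) ∧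
        ∃ x y, At e s x ∧ At e (s + 1) y ∧ (x, y) ∈ B (Y e s)) := by
      congr 1
      funext e
      rw [and_assoc]
    have h2 := pairMv (α := α) (N := N) (s := s) (t := s + (k + 2)) (by omega) (by omega)
      (fun e => OK v β σ (Y e (s + (k + 2))) ∧ θ * N ≤ ((vcl v (Y e (s + (k + 2)))).card : ℝ))
      (fun e i j hi hj => by
        dsimp only
        rw [Y_swap_fut e hi hj le_rfl]) B
    rw [h1, h2]
    have h3 : PP (fun e : Fin N ≃ α => (OK v β σ (Y e (s + (k + 2))) ∧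
        θ * N ≤ ((vcl v (Y e (s + (k + 2)))).card : ℝ)) ∧
        ∃ x y, At e (s + (k + 2) - 2) x ∧ At e (s + (k + 2) - 1) y ∧ (x, y) ∈ B (Y e s)) ≤
        PP (fun e : Fin N ≃ α => (OK v β σ (Y e (s + k)) ∧ Dle v θ 2 (Y e (s + k))) ∧
        ∃ x y, At e (s + k) x ∧ At e (s + k + 1) y ∧ (x, y) ∈ B (Y e s)) := by
      refine PP_mono fun e he => ?_
      obtain ⟨⟨ha, hb⟩, hc⟩ := he
      have hsub : Y e (s + k) ⊆ Y e (s + (k + 2)) := Y_mono e (by omega)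
      refine ⟨⟨OK_anti hsub ha, Y e (s + (k + 2)) \ Y e (s + k), ?_, ?_⟩, ?_⟩
      · rw [card_sdiff_of_subset hsub, card_Y e (by omega), card_Y e (by omega)]
        omega
      · rw [union_sdiff_of_subset hsub, hNc]
        exact hb
      · have e3 : s + (k + 2) - 2 = s + k := by omega
        have e4 : s + (k + 2) - 1 = s + k + 1 := by omega
        rw [e3, e4] at hc
        exact hc
    refine h3.trans ?_
    have e5 : s + (k + 2) - 2 = s + k := by omega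
    rw [e5]
    have h4 := pairU (α := α) (N := N) (s := s) (p := s + k) (by omega) (by omega)
      (fun e => OK v β σ (Y e (s + k)) ∧ Dle v θ 2 (Y e (s + k)))
      (fun e i j hi hj => by
        dsimp only
        rw [Y_swap_past e hi hj le_rfl]) B hB
    have h5 : ((s + k : ℕ) : ℝ) + 1 + 1 ≤ M := by exact_mod_cast (by omega : s + k + 1 + 1 ≤ M)
    set Q := PP (fun e : Fin N ≃ α => (OK v β σ (Y e (s + k)) ∧ Dle v θ 2 (Y e (s + k))) ∧
        ∃ x y, At e (s + k) x ∧ At e (s + k + 1) y ∧ (x, y) ∈ B (Y e s)) with hQ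
    set R := PP (fun e : Fin N ≃ α => OK v β σ (Y e (s + k)) ∧ Dle v θ 2 (Y e (s + k))) with hR
    have hQ0 : 0 ≤ Q := PP_nonneg _
    have hR0 : 0 ≤ R := PP_nonneg _
    have h6 : (N : ℝ) ^ 2 / 2 ≤ ((N : ℝ) - (s + k : ℕ)) * ((N : ℝ) - (s + k : ℕ) - 1) := by
      have a1 : 7 / 8 * (N : ℝ) ≤ (N : ℝ) - (s + k : ℕ) - 1 := by linarith
      have a2 : 7 / 8 * (N : ℝ) ≤ (N : ℝ) - (s + k : ℕ) := by linarith
      nlinarith [mul_le_mul a2 a1 (by positivity) (by linarith)]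
    have h7 : (N : ℝ) ^ 2 / 2 * Q ≤ η * (N : ℝ) ^ 2 * R := (mul_le_mul_of_nonneg_right h6 hQ0).trans h4
    have h8 : (N : ℝ) ^ 2 / 2 * Q ≤ (N : ℝ) ^ 2 / 2 * (2 * η * R) := by
      calc (N : ℝ) ^ 2 / 2 * Q ≤ η * (N : ℝ) ^ 2 * R := h7
        _ = (N : ℝ) ^ 2 / 2 * (2 * η * R) := by ring
    exact le_of_mul_le_mul_left h8 (by positivity)
  refine (sum_le_sum key).trans ?_
  rw [← mul_sum]
  have hdc := dc v hN hσ hM hθ hMθ 2
  have h9 : ∑ t ∈ Icc (k + 2) M, PP (fun e : Fin N ≃ α =>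
      OK v β σ (Y e (t - 2)) ∧ Dle v θ 2 (Y e (t - 2))) ≤
      ∑ t ∈ range (M + 1), PP (fun e : Fin N ≃ α => OK v β σ (Y e t) ∧ Dle v θ 2 (Y e t)) := by
    have hinj : Set.InjOn (fun t : ℕ => t - 2) (Icc (k + 2) M : Finset ℕ) := by
      intro a ha b hb hab
      rw [mem_coe, mem_Icc] at ha hb
      dsimp only at hab
      omega
    rw [← sum_image (f := fun t => PP (fun e : Fin N ≃ α => OK v β σ (Y e t) ∧ Dle v θ 2 (Y e t)))
      hinj]
    refine sum_le_sum_of_subset_of_nonneg ?_ (fun _ _ _ => PP_nonneg _)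
    intro t ht
    rw [mem_image] at ht
    obtain ⟨a, ha, rfl⟩ := ht
    rw [mem_Icc] at ha
    rw [mem_range]
    omega
  calc 2 * η * ∑ t ∈ Icc (k + 2) M, PP (fun e : Fin N ≃ α =>
      OK v β σ (Y e (t - 2)) ∧ Dle v θ 2 (Y e (t - 2)))
      ≤ 2 * η * ((2 * (2 : ℕ) + 4) / θ) :=
        mul_le_mul_of_nonneg_left (h9.trans hdc) (by positivity)
    _ = 16 * η / θ := by
        push_cast
        ring

end

end Pool.Agent.Lib.P0fc
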