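import Mathlib
import Pool.Agent.Lib.P0fc.Perm2

/-!
# The last two elements are used by a positive proportion of the genuine elements

For `g ∈ G e` let `H g = {h ∈ Y e s | g ∉ vcl ((Y e s).erase h)}`, `|H g| ≥ ε s + 1` if `A e`.  Let
`c e x y = #{g ∈ G e | g ∉ vcl ((Y s).erase x), g ∉ vcl ((Y s).erase y)}`.  For `A e`:
`∑_{x ∈ Y s} ∑_{y ∈ (Y s).erase x} c e x y ≥ ∑_{g ∈ G e} |H g| (|H g| - 1) ≥ |G e| ε² s² ≥ ε² s (s-1) |G e|`
(count the pairs `x ≠ y` in `H g`).  As `c ≤ |G e|`, the number `n` of the pairs with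
`(ε²/2) |G e| ≤ c e x y` satisfies `n |G e| + s (s-1) (ε²/2) |G e| ≥ ε² s (s-1) |G e|`, so
`n ≥ (ε²/2) s (s-1)` (`|G e| > 0`).  Apply `pairBack` to
`F e x y = ind (A e ∧ (ε²/2) |G e| ≤ c e x y)`: it is `FutM s` in `e` by the assumptions on `A`, `G` and
because a swap of two positions `< s` does not change `Y e s`.
-/

namespace Pool.Agent.Lib.P0fc

open Finset Pool.Agent.Lib.P0fb

namespace S33Aux

/-- double counting of pairs -/
theorem pairs_sum {α : Type} [DecidableEq α] (Y G : Finset α) (R : α → α → Prop)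
    [∀ g x, Decidable (R g x)] :
    ∑ x ∈ Y, ∑ y ∈ Y.erase x, (((G.filter (fun g => R g x ∧ R g y)).card : ℕ) : ℝ) =
      ∑ g ∈ G, ((Y.filter (fun x => R g x)).card : ℝ) *
        (((Y.filter (fun x => R g x)).card : ℝ) - 1) := by
  have h1 : ∀ x y, (((G.filter (fun g => R g x ∧ R g y)).card : ℕ) : ℝ) =
      ∑ g ∈ G, (if R g x ∧ R g y then (1 : ℝ) else 0) := by
    intro x y
    rw [card_filter]
    push_cast
    rfl
  simp_rw [h1]
  have h2 : ∀ x ∈ Y, ∑ y ∈ Y.erase x, ∑ g ∈ G, (if R g x ∧ R g y then (1 : ℝ) else 0) =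
      ∑ g ∈ G, ∑ y ∈ Y.erase x, (if R g x ∧ R g y then (1 : ℝ) else 0) := fun x _ => sum_comm
  rw [sum_congr rfl h2, sum_comm]
  refine sum_congr rfl fun g _ => ?_
  have h3 : ∀ x ∈ Y, ∑ y ∈ Y.erase x, (if R g x ∧ R g y then (1 : ℝ) else 0) =
      if R g x then (((Y.filter (fun x => R g x)).card : ℝ) - 1) else 0 := by
    intro x hx
    by_cases hgx : R g x
    · rw [if_pos hgx]
      have h4 : ∀ y ∈ Y.erase x, (if R g x ∧ R g y then (1 : ℝ) else 0) =
          if R g y then 1 else 0 := by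
        intro y _
        by_cases hgy : R g y
        · rw [if_pos ⟨hgx, hgy⟩, if_pos hgy]
        · rw [if_neg (fun h => hgy h.2), if_neg hgy]
      rw [sum_congr rfl h4]
      have h5 := sum_erase_add Y (fun y => if R g y then (1 : ℝ) else 0) hx
      rw [if_pos hgx] at h5
      have h6 : ((Y.filter (fun x => R g x)).card : ℝ) =
          ∑ y ∈ Y, (if R g y then (1 : ℝ) else 0) := by
        rw [card_filter]
        push_cast
        rfl
      rw [h6, ← h5]
      ring
    · rw [if_neg hgx]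
      refine sum_eq_zero fun y _ => ?_
      rw [if_neg (fun h => hgx h.1)]
  rw [sum_congr rfl h3, ← sum_filter, sum_const, nsmul_eq_mul]

end S33Aux

section

variable {α : Type} [Fintype α] [DecidableEq α] {E : Type} [AddCommGroup E] [Module ℝ E]

theorem s33 (v : α → E) {N s : ℕ} (hs : 2 ≤ s) (hsN : s ≤ N) {ε : ℝ} (hε : 0 < ε)
    (A : (Fin N ≃ α) → Prop) (hA : FutM s (fun e => ind (A e)))
    (G : (Fin N ≃ α) → Finset α)
    (hG : ∀ (e : Fin N ≃ α) (i j : Fin N), i.val < s → j.val < s →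
      G ((Equiv.swap i j).trans e) = G e)
    (h1 : ∀ e, A e → (G e).Nonempty)
    (h2 : ∀ e, A e → ∀ g ∈ G e,
      ε * s + 1 ≤ (((Y e s).filter (fun h => g ∉ vcl v ((Y e s).erase h))).card : ℝ)) :
    ε ^ 2 / 2 * PP A ≤ PP (fun e => A e ∧ ∃ x y, At e (s - 2) x ∧ At e (s - 1) y ∧
      ε ^ 2 / 2 * ((G e).card : ℝ) ≤ (((G e).filter (fun g =>
        g ∉ vcl v ((Y e s).erase x) ∧ g ∉ vcl v ((Y e s).erase y))).card : ℝ)) := by
  classical
  set c : (Fin N ≃ α) → α → α → ℝ := fun e x y => (((G e).filter (fun g =>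
        g ∉ vcl v ((Y e s).erase x) ∧ g ∉ vcl v ((Y e s).erase y))).card : ℝ) with hc
  set F : (Fin N ≃ α) → α → α → ℝ := fun e x y =>
    ind (A e ∧ ε ^ 2 / 2 * ((G e).card : ℝ) ≤ c e x y) with hFd
  have hsR : (2 : ℝ) ≤ s := by exact_mod_cast hs
  have hss : (0 : ℝ) < (s : ℝ) * ((s : ℝ) - 1) := by nlinarith
  have hF : ∀ x y, FutM s (fun e => F e x y) := by
    intro x y e i j hi hj
    show F ((Equiv.swap i j).trans e) x y = F e x y
    simp only [hFd, hc]
    rw [ind_and, ind_and, hG e i j hi hj, Y_swap_fut e hi hj le_rfl]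
    have h3 : ind (A ((Equiv.swap i j).trans e)) = ind (A e) := hA e i j hi hj
    rw [h3]
  have hpb := pairBack hs hsN F hF
  -- upper bound for the left side
  have hle : EE (fun e => F e (e ⟨s - 2, by omega⟩) (e ⟨s - 1, by omega⟩)) ≤
      PP (fun e => A e ∧ ∃ x y, At e (s - 2) x ∧ At e (s - 1) y ∧
      ε ^ 2 / 2 * ((G e).card : ℝ) ≤ (((G e).filter (fun g =>
        g ∉ vcl v ((Y e s).erase x) ∧ g ∉ vcl v ((Y e s).erase y))).card : ℝ)) := by
    refine EE_mono fun e => ind_mono fun h => ⟨h.1, e ⟨s - 2, by omega⟩, e ⟨s - 1, by omega⟩, ?_, ?_, h.2⟩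
    · simp [At]
    · simp [At]
  -- lower bound for the right side
  have hge : (ε ^ 2 / 2) * ((s : ℝ) * ((s : ℝ) - 1)) * PP A ≤
      EE (fun e => ∑ x ∈ Y e s, ∑ y ∈ (Y e s).erase x, F e x y) := by
    unfold PP
    rw [← EE_mul_left]
    refine EE_mono fun e => ?_
    by_cases hAe : A e
    · rw [ind_of hAe, mul_one]
      have hgpos : (0 : ℝ) < ((G e).card : ℝ) := by exact_mod_cast (h1 e hAe).card_pos
      have hcs : ((Y e s).card : ℝ) = s := by rw [card_Y e hsN]
      -- total count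
      have htot : ((G e).card : ℝ) * (ε ^ 2 * ((s : ℝ) * ((s : ℝ) - 1))) ≤
          ∑ x ∈ Y e s, ∑ y ∈ (Y e s).erase x, c e x y := by
        simp only [hc]
        rw [S33Aux.pairs_sum (Y e s) (G e) (fun g x => g ∉ vcl v ((Y e s).erase x))]
        rw [← nsmul_eq_mul, ← sum_const]
        refine sum_le_sum fun g hg => ?_
        have h3 := h2 e hAe g hg
        set k := (((Y e s).filter (fun h => g ∉ vcl v ((Y e s).erase h))).card : ℝ) with hk
        have h4 : (0 : ℝ) < ε * s := by positivity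
        have h5 : ε ^ 2 * ((s : ℝ) * ((s : ℝ) - 1)) ≤ (ε * s) * (ε * s) := by nlinarith
        have h6 : (ε * s) * (ε * s) ≤ k * (k - 1) :=
          mul_le_mul (by linarith) (by linarith) h4.le (by linarith)
        exact h5.trans h6
      have hbd : ∑ x ∈ Y e s, ∑ y ∈ (Y e s).erase x, c e x y ≤
          ((G e).card : ℝ) * (∑ x ∈ Y e s, ∑ y ∈ (Y e s).erase x, F e x y) +
          ((s : ℝ) * ((s : ℝ) - 1)) * (ε ^ 2 / 2 * ((G e).card : ℝ)) := by
        have h7 : ∀ x ∈ Y e s, ∀ y ∈ (Y e s).erase x, c e x y ≤ ((G e).card : ℝ) * F e x y +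
            ε ^ 2 / 2 * ((G e).card : ℝ) := by
          intro x _ y _
          by_cases h8 : ε ^ 2 / 2 * ((G e).card : ℝ) ≤ c e x y
          · have h9 : F e x y = 1 := ind_of ⟨hAe, h8⟩
            rw [h9]
            have h10 : c e x y ≤ ((G e).card : ℝ) := by
              simp only [hc]
              exact_mod_cast card_filter_le _ _
            have : 0 ≤ ε ^ 2 / 2 * ((G e).card : ℝ) := by positivity
            linarith
          · push Not at h8
            have h9 : F e x y = 0 := ind_not_of (fun h => absurd h.2 (not_le.2 h8))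
            rw [h9]
            linarith
        refine (sum_le_sum fun x hx => sum_le_sum fun y hy => h7 x hx y hy).trans ?_
        have h11 : ∀ x ∈ Y e s, ∑ y ∈ (Y e s).erase x, (((G e).card : ℝ) * F e x y +
            ε ^ 2 / 2 * ((G e).card : ℝ)) =
            ((G e).card : ℝ) * (∑ y ∈ (Y e s).erase x, F e x y) +
              ((s : ℝ) - 1) * (ε ^ 2 / 2 * ((G e).card : ℝ)) := by
          intro x hx
          rw [sum_add_distrib, ← mul_sum, sum_const, card_erase_of_mem hx, nsmul_eq_mul,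
            card_Y e hsN, Nat.cast_sub (by omega)]
          push_cast
          ring
        rw [sum_congr rfl h11, sum_add_distrib, ← mul_sum, sum_const, nsmul_eq_mul, card_Y e hsN]
        exact le_of_eq (by ring)
      have h12 := htot.trans hbd
      have h13 : ((G e).card : ℝ) * (ε ^ 2 / 2 * ((s : ℝ) * ((s : ℝ) - 1))) ≤
          ((G e).card : ℝ) * (∑ x ∈ Y e s, ∑ y ∈ (Y e s).erase x, F e x y) := by
        linarith
      exact le_of_mul_le_mul_left h13 hgpos
    · rw [ind_not_of hAe, mul_zero]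
      exact sum_nonneg fun x _ => sum_nonneg fun y _ => ind_nonneg _
  rw [← hpb] at hge
  have h14 : (s : ℝ) * ((s : ℝ) - 1) * (ε ^ 2 / 2 * PP A) ≤ (s : ℝ) * ((s : ℝ) - 1) *
      EE (fun e => F e (e ⟨s - 2, by omega⟩) (e ⟨s - 1, by omega⟩)) := by
    linarith
  exact (le_of_mul_le_mul_left h14 hss).trans hle

end

end Pool.Agent.Lib.P0fc
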