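import Mathlib
import Pool.Agent.Lib.P0fc.Facts

/-!
# The determinant of `M(t) = ∑_x e^(t x) p_x p_xᵀ`

* `det_upd`: the matrix determinant lemma, in Mathlib for example
  `Matrix.det_add_replicateCol_mul_replicateRow` (search; `vecMulVec u u` is the product of the column
  and the row).
* `det_mono`: for `M` positive definite, `det M ≤ det (M + ∑_{x ∈ S} c x • vecMulVec (p x) (p x))` if
  `c x ≥ 0`: induction on `S` with `det_upd`; `M + P` stays positive definite and
  `u ⬝ᵥ M⁻¹ *ᵥ u ≥ 0` (`Matrix.PosDef.inv`).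
* `det_low`: let `I` have `k` elements with independent vectors; choose `Fin k ≃ I` and the square
  matrix `P` whose rows are the `p x`, `x ∈ I`; `P` has `det P ≠ 0` (rows independent) and
  `∑_{x ∈ I} e^(t x) • vecMulVec (p x) (p x) = Pᵀ D P`, `D` diagonal with entries `e^(t x) > 0`: it is
  positive definite and has determinant `exp (∑_{x ∈ I} t x) * det P ^ 2`.  Add the other `x` by
  `det_mono`.  So `c = det P ^ 2` works.
* `posDef`: the same decomposition.
-/

namespace Pool.Agent.Lib.P0fc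

open Finset Pool.Agent.Lib.P0fb Matrix

/-- `∑_x e^(t x) p_x p_xᵀ` -/
noncomputable def MM {α : Type} [Fintype α] {k : ℕ} (p : α → (Fin k → ℝ)) (t : α → ℝ) :
    Matrix (Fin k) (Fin k) ℝ := ∑ x, Real.exp (t x) • Matrix.vecMulVec (p x) (p x)

theorem det_upd {k : ℕ} {M : Matrix (Fin k) (Fin k) ℝ} (hM : M.PosDef) (s : ℝ) (u : Fin k → ℝ) :
    (M + s • Matrix.vecMulVec u u).det = M.det * (1 + s * (u ⬝ᵥ (M⁻¹ *ᵥ u))) := by
  have h1 : s • Matrix.vecMulVec u u = Matrix.vecMulVec (s • u) u := by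
    rw [Matrix.smul_vecMulVec]
  have h2 : IsUnit M.det := (Matrix.isUnit_iff_isUnit_det M).1 hM.isUnit
  rw [h1, Matrix.vecMulVec_eq Unit, Matrix.det_add_replicateCol_mul_replicateRow h2]
  congr 1
  rw [Matrix.det_unique, Matrix.add_apply, Matrix.one_apply_eq, Matrix.mul_assoc]
  congr 1
  rw [← Matrix.replicateCol_mulVec, Matrix.replicateRow_mul_replicateCol_apply,
    Matrix.mulVec_smul, dotProduct_smul, smul_eq_mul]

namespace DetLowAux

theorem psd {k : ℕ} (u : Fin k → ℝ) {c : ℝ} (hc : 0 ≤ c) :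
    (c • Matrix.vecMulVec u u).PosSemidef := by
  have h := Matrix.posSemidef_vecMulVec_self_star (R := ℝ) u
  rw [star_trivial] at h
  exact h.smul hc

theorem det_mono {α : Type} [DecidableEq α] {k : ℕ} (p : α → (Fin k → ℝ))
    {M : Matrix (Fin k) (Fin k) ℝ} (hM : M.PosDef) (c : α → ℝ) (hc : ∀ x, 0 ≤ c x)
    (S : Finset α) :
    (M + ∑ x ∈ S, c x • Matrix.vecMulVec (p x) (p x)).PosDef ∧
    M.det ≤ (M + ∑ x ∈ S, c x • Matrix.vecMulVec (p x) (p x)).det := by
  induction S using Finset.induction_on with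
  | empty => rw [sum_empty, add_zero]; exact ⟨hM, le_rfl⟩
  | insert x S hx ih =>
    have h1 : M + ∑ y ∈ insert x S, c y • Matrix.vecMulVec (p y) (p y)
        = (M + ∑ y ∈ S, c y • Matrix.vecMulVec (p y) (p y))
          + c x • Matrix.vecMulVec (p x) (p x) := by
      rw [sum_insert hx]
      abel
    rw [h1]
    refine ⟨ih.1.add_posSemidef (psd _ (hc x)), ?_⟩
    rw [det_upd ih.1]
    have h2 := ih.1.inv.posSemidef.dotProduct_mulVec_nonneg (p x)
    rw [star_trivial] at h2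
    have h3 := ih.1.det_pos
    have h4 : 0 ≤ c x * (p x ⬝ᵥ ((M + ∑ y ∈ S, c y • Matrix.vecMulVec (p y) (p y))⁻¹ *ᵥ p x)) :=
      mul_nonneg (hc x) h2
    nlinarith [ih.2, mul_nonneg h3.le h4]

theorem core {α : Type} [Fintype α] [DecidableEq α] {k : ℕ} (p : α → (Fin k → ℝ))
    (I : Finset α) (hI : I.card = k ∧ dm p I = k) :
    ∃ c : ℝ, 0 < c ∧ ∀ t : α → ℝ,
      (∑ x ∈ I, Real.exp (t x) • Matrix.vecMulVec (p x) (p x)).PosDef ∧
      (∑ x ∈ I, Real.exp (t x) • Matrix.vecMulVec (p x) (p x)).det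
        = c * Real.exp (∑ x ∈ I, t x) := by
  classical
  obtain ⟨e⟩ : Nonempty (Fin k ≃ I) := ⟨(I.equivFinOfCardEq hI.1).symm⟩
  set P : Matrix (Fin k) (Fin k) ℝ := Matrix.of (fun i => p (e i)) with hP
  have hrange : Set.range (fun i => p (e i)) = p '' (I : Set α) := by
    ext y
    simp only [Set.mem_range, Set.mem_image, mem_coe]
    constructor
    · rintro ⟨i, rfl⟩
      exact ⟨_, (e i).2, rfl⟩
    · rintro ⟨x, hx, rfl⟩
      exact ⟨e.symm ⟨x, hx⟩, by rw [Equiv.apply_symm_apply]⟩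
  have hli : LinearIndependent ℝ (fun i => p (e i)) := by
    rw [linearIndependent_iff_card_eq_finrank_span, Fintype.card_fin, Set.finrank, hrange]
    exact hI.2.symm
  have hu : IsUnit P := by
    rw [← Matrix.linearIndependent_rows_iff_isUnit]
    exact hli
  have hdet : P.det ≠ 0 := ((Matrix.isUnit_iff_isUnit_det P).1 hu).ne_zero
  refine ⟨P.det ^ 2, by positivity, fun t => ?_⟩
  have hdec : (∑ x ∈ I, Real.exp (t x) • Matrix.vecMulVec (p x) (p x))
      = Pᴴ * Matrix.diagonal (fun i => Real.exp (t (e i))) * P := by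
    ext a b
    rw [Matrix.mul_apply, Matrix.sum_apply]
    simp only [Matrix.mul_diagonal, Matrix.conjTranspose_apply, star_trivial, hP,
      Matrix.of_apply, Matrix.smul_apply, Matrix.vecMulVec_apply, smul_eq_mul]
    rw [← sum_coe_sort I, ← e.sum_comp]
    refine sum_congr rfl fun i _ => ?_
    ring
  rw [hdec]
  refine ⟨?_, ?_⟩
  · refine Matrix.PosDef.conjTranspose_mul_mul_same ?_ ?_
    · exact Matrix.PosDef.diagonal (fun i => Real.exp_pos _)
    · exact Matrix.mulVec_injective_of_isUnit hu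
  · rw [Matrix.det_mul, Matrix.det_mul, Matrix.det_conjTranspose, star_trivial,
      Matrix.det_diagonal, ← Real.exp_sum]
    have h1 : ∑ i, t (e i) = ∑ x ∈ I, t x := by
      rw [← sum_coe_sort I, ← e.sum_comp]
    rw [h1]
    ring

theorem split {α : Type} [Fintype α] [DecidableEq α] {k : ℕ} (p : α → (Fin k → ℝ))
    (I : Finset α) (t : α → ℝ) :
    MM p t = (∑ x ∈ I, Real.exp (t x) • Matrix.vecMulVec (p x) (p x))
      + ∑ x ∈ Iᶜ, Real.exp (t x) • Matrix.vecMulVec (p x) (p x) := by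
  rw [sum_add_sum_compl]
  rfl

end DetLowAux

theorem posDef_MM {α : Type} [Fintype α] [DecidableEq α] {k : ℕ} (p : α → (Fin k → ℝ))
    (I : Finset α) (hI : I.card = k ∧ dm p I = k) (t : α → ℝ) : (MM p t).PosDef := by
  obtain ⟨c, _, h⟩ := DetLowAux.core p I hI
  rw [DetLowAux.split p I t]
  exact (DetLowAux.det_mono p (h t).1 _ (fun x => (Real.exp_pos _).le) _).1

theorem det_low {α : Type} [Fintype α] [DecidableEq α] {k : ℕ} (p : α → (Fin k → ℝ))
    (I : Finset α) (hI : I.card = k ∧ dm p I = k) :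
    ∃ c : ℝ, 0 < c ∧ ∀ t : α → ℝ, c * Real.exp (∑ x ∈ I, t x) ≤ (MM p t).det := by
  obtain ⟨c, hc, h⟩ := DetLowAux.core p I hI
  refine ⟨c, hc, fun t => ?_⟩
  rw [DetLowAux.split p I t, ← (h t).2]
  exact (DetLowAux.det_mono p (h t).1 _ (fun x => (Real.exp_pos _).le) _).2

end Pool.Agent.Lib.P0fc
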