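import Mathlib
import Pool.Agent.Lib.P0fc.DetLow

/-!
# The kernel

`K x y = exp (t x / 2) * exp (t y / 2) * (p x ⬝ᵥ (M⁻¹ *ᵥ p y))`, `M = MM p t`.  With `f x = exp (t x / 2) • p x`:
`M = ∑ f x f xᵀ`, `K x y = f x ⬝ᵥ (M⁻¹ *ᵥ f y)`.
* symmetry: `M` and `M⁻¹` are symmetric; `K x x > 0` if `p x ≠ 0` (`M⁻¹` positive definite).
* `∑_{x,y} K x y ^ 2 = ∑_{x,y} (f xᵀ M⁻¹ f y)(f yᵀ M⁻¹ f x) = ∑_x f xᵀ M⁻¹ M M⁻¹ f x = ∑_x f xᵀ M⁻¹ f x =
  trace (M⁻¹ ∑ f x f xᵀ) = trace 1 = k`.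
* three vectors: if `g ∈ vcl p {x, y}` then `f g = a • f x + b • f y`.  With the inner product
  `⟨u, w⟩ = u ⬝ᵥ (M⁻¹ *ᵥ w)` the Gram determinant of `f x, f y, f g` is zero (polynomial identity:
  `K g x = a K x x + b K y x`, `K g y = a K x y + b K y y`, `K g g = a K g x + b K g y`):
  `K x x K y y K g g + 2 K x y K y g K g x = K x x K y g ^ 2 + K y y K g x ^ 2 + K g g K x y ^ 2`.  Divide by
  `K x x K y y K g g > 0`; let `A², B², C²` be the three quotients `κ`; then `1 + 2 w = A² + B² + C²` with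
  `w² = A² B² C²`, and `A², B², C² ≤ 1` (Cauchy-Schwarz for the positive definite form).  If
  `S = A² + B² + C² < 1/2` then `2 |w| ≤ 2 |B C| ≤ B² + C² ≤ S` and `1 ≤ S + 2 |w| ≤ 2 S < 1`, a
  contradiction.
-/

namespace Pool.Agent.Lib.P0fc

open Finset Pool.Agent.Lib.P0fb Matrix

/-- the kernel -/
noncomputable def KK {α : Type} [Fintype α] {k : ℕ} (p : α → (Fin k → ℝ)) (t : α → ℝ) (x y : α) : ℝ :=
  Real.exp (t x / 2) * Real.exp (t y / 2) * (p x ⬝ᵥ ((MM p t)⁻¹ *ᵥ p y))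

namespace KernAux

theorem exp_half (a : ℝ) : Real.exp (a / 2) * Real.exp (a / 2) = Real.exp a := by
  rw [← Real.exp_add]
  congr 1
  ring

theorem bil_symm {k : ℕ} {A : Matrix (Fin k) (Fin k) ℝ} (hA : Aᵀ = A) (u w : Fin k → ℝ) :
    u ⬝ᵥ (A *ᵥ w) = w ⬝ᵥ (A *ᵥ u) := by
  rw [dotProduct_mulVec, ← mulVec_transpose, hA, dotProduct_comm]

theorem inv_symm {k : ℕ} {M : Matrix (Fin k) (Fin k) ℝ} (hM : M.PosDef) : (M⁻¹)ᵀ = M⁻¹ := by
  have h := hM.inv.isHermitian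
  rw [Matrix.IsHermitian, Matrix.conjTranspose_eq_transpose_of_trivial] at h
  exact h

theorem pos_inv {k : ℕ} {M : Matrix (Fin k) (Fin k) ℝ} (hM : M.PosDef) {u : Fin k → ℝ}
    (hu : u ≠ 0) : 0 < u ⬝ᵥ (M⁻¹ *ᵥ u) := by
  have h := hM.inv.dotProduct_mulVec_pos hu
  simpa using h

theorem nonneg_inv {k : ℕ} {M : Matrix (Fin k) (Fin k) ℝ} (hM : M.PosDef) (u : Fin k → ℝ) :
    0 ≤ u ⬝ᵥ (M⁻¹ *ᵥ u) := by
  by_cases hu : u = 0
  · rw [hu]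
    simp
  · exact (pos_inv hM hu).le

theorem MM_mulVec {α : Type} [Fintype α] {k : ℕ} (p : α → (Fin k → ℝ)) (t : α → ℝ)
    (u w : Fin k → ℝ) :
    u ⬝ᵥ (MM p t *ᵥ w) = ∑ y, Real.exp (t y) * ((u ⬝ᵥ p y) * (p y ⬝ᵥ w)) := by
  unfold MM
  rw [Matrix.sum_mulVec, dotProduct_sum]
  refine sum_congr rfl fun y _ => ?_
  rw [Matrix.smul_mulVec, Matrix.vecMulVec_mulVec, dotProduct_smul]
  simp [mul_comm, mul_left_comm]

theorem trace_mul_MM {α : Type} [Fintype α] {k : ℕ} (p : α → (Fin k → ℝ)) (t : α → ℝ)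
    (A : Matrix (Fin k) (Fin k) ℝ) :
    (A * MM p t).trace = ∑ y, Real.exp (t y) * (p y ⬝ᵥ (A *ᵥ p y)) := by
  unfold MM
  rw [Matrix.mul_sum, Matrix.trace_sum]
  refine sum_congr rfl fun y _ => ?_
  rw [Matrix.mul_smul, Matrix.trace_smul, Matrix.mul_vecMulVec, Matrix.trace_vecMulVec,
    smul_eq_mul, dotProduct_comm]

/-- the inequality for three vectors of a plane -/
theorem three {X Y c a b G yg gx : ℝ} (hX : 0 < X) (hY : 0 < Y) (hG : 0 < G) (hc : c ^ 2 ≤ X * Y)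
    (h1 : G = a ^ 2 * X + 2 * a * b * c + b ^ 2 * Y) (h2 : yg = a * c + b * Y)
    (h3 : gx = a * X + b * c) :
    1 / 2 ≤ c ^ 2 / (X * Y) + yg ^ 2 / (Y * G) + gx ^ 2 / (G * X) := by
  have e : c ^ 2 / (X * Y) + yg ^ 2 / (Y * G) + gx ^ 2 / (G * X) =
      (c ^ 2 * G + yg ^ 2 * X + gx ^ 2 * Y) / (X * Y * G) := by
    field_simp
  rw [e, div_le_div_iff₀ (by norm_num) (by positivity)]
  have hP : 0 < 2 * c ^ 2 * X + X ^ 2 * Y / 2 := by positivity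
  have key : 0 ≤ 4 * (2 * c ^ 2 * X + X ^ 2 * Y / 2) *
      (2 * (c ^ 2 * G + yg ^ 2 * X + gx ^ 2 * Y) - X * Y * G) := by
    have e2 : 4 * (2 * c ^ 2 * X + X ^ 2 * Y / 2) *
        (2 * (c ^ 2 * G + yg ^ 2 * X + gx ^ 2 * Y) - X * Y * G) =
        2 * ((2 * (2 * c ^ 2 * X + X ^ 2 * Y / 2) * a + (3 * c * X * Y + 2 * c ^ 3) * b) ^ 2 +
          (X * Y - c ^ 2) * ((X * Y) ^ 2 + 4 * c ^ 4) * b ^ 2) := by
      rw [h1, h2, h3]
      ring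
    rw [e2]
    have h4 : 0 ≤ X * Y - c ^ 2 := by linarith
    positivity
  have h5 := (mul_nonneg_iff_of_pos_left (by positivity :
    0 < 4 * (2 * c ^ 2 * X + X ^ 2 * Y / 2))).1 key
  linarith

end KernAux

open KernAux

theorem KK_self {α : Type} [Fintype α] {k : ℕ} (p : α → (Fin k → ℝ)) (t : α → ℝ) (x : α) :
    KK p t x x = Real.exp (t x) * (p x ⬝ᵥ ((MM p t)⁻¹ *ᵥ p x)) := by
  unfold KK
  rw [exp_half]

theorem KK_symm {α : Type} [Fintype α] {k : ℕ} (p : α → (Fin k → ℝ)) (t : α → ℝ)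
    (hM : (MM p t).PosDef) (x y : α) : KK p t x y = KK p t y x := by
  unfold KK
  rw [bil_symm (inv_symm hM) (p x) (p y), mul_comm (Real.exp (t x / 2))]

theorem KK_pos {α : Type} [Fintype α] {k : ℕ} (p : α → (Fin k → ℝ)) (t : α → ℝ)
    (hM : (MM p t).PosDef) (x : α) (hx : p x ≠ 0) : 0 < KK p t x x := by
  rw [KK_self]
  exact mul_pos (Real.exp_pos _) (pos_inv hM hx)

theorem KK_sum {α : Type} [Fintype α] {k : ℕ} (p : α → (Fin k → ℝ)) (t : α → ℝ)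
    (hM : (MM p t).PosDef) : ∑ x, ∑ y, KK p t x y ^ 2 = k := by
  have hs := inv_symm hM
  have hdet : IsUnit (MM p t).det := isUnit_iff_ne_zero.2 hM.det_pos.ne'
  have h1 : ∀ x, ∑ y, KK p t x y ^ 2 =
      Real.exp (t x) * (p x ⬝ᵥ ((MM p t)⁻¹ *ᵥ p x)) := by
    intro x
    have h2 := MM_mulVec p t ((MM p t)⁻¹ *ᵥ p x) ((MM p t)⁻¹ *ᵥ p x)
    rw [Matrix.mulVec_mulVec, Matrix.mul_nonsing_inv _ hdet, Matrix.one_mulVec] at h2
    rw [dotProduct_comm (p x), h2, mul_sum]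
    refine sum_congr rfl fun y _ => ?_
    unfold KK
    have h3 : ((MM p t)⁻¹ *ᵥ p x) ⬝ᵥ p y = p x ⬝ᵥ ((MM p t)⁻¹ *ᵥ p y) := by
      rw [dotProduct_comm, bil_symm hs]
    have h4 : p y ⬝ᵥ ((MM p t)⁻¹ *ᵥ p x) = p x ⬝ᵥ ((MM p t)⁻¹ *ᵥ p y) := bil_symm hs _ _
    rw [h3, h4, mul_pow, mul_pow, ← exp_half (t x), ← exp_half (t y)]
    ring
  rw [sum_congr rfl fun x _ => h1 x, ← trace_mul_MM, Matrix.nonsing_inv_mul _ hdet,
    Matrix.trace_one, Fintype.card_fin]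

theorem KK_three {α : Type} [Fintype α] [DecidableEq α] {k : ℕ} (p : α → (Fin k → ℝ)) (t : α → ℝ)
    (hM : (MM p t).PosDef) (x y g : α) (hx : p x ≠ 0) (hy : p y ≠ 0) (hg : p g ≠ 0)
    (h : g ∈ vcl p {x, y}) :
    1 / 2 ≤ KK p t x y ^ 2 / (KK p t x x * KK p t y y) + KK p t y g ^ 2 / (KK p t y y * KK p t g g) +
      KK p t g x ^ 2 / (KK p t g g * KK p t x x) := by
  have hs := inv_symm hM
  set A := (MM p t)⁻¹ with hA
  have hred : ∀ u w : α, KK p t u w ^ 2 / (KK p t u u * KK p t w w) =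
      (p u ⬝ᵥ (A *ᵥ p w)) ^ 2 / ((p u ⬝ᵥ (A *ᵥ p u)) * (p w ⬝ᵥ (A *ᵥ p w))) := by
    intro u w
    rw [KK_self, KK_self]
    unfold KK
    rw [← hA, ← exp_half (t u), ← exp_half (t w)]
    have h1 := (Real.exp_pos (t u / 2)).ne'
    have h2 := (Real.exp_pos (t w / 2)).ne'
    rw [mul_pow, mul_pow]
    rw [show Real.exp (t u / 2) * Real.exp (t u / 2) * (p u ⬝ᵥ A *ᵥ p u) *
      (Real.exp (t w / 2) * Real.exp (t w / 2) * (p w ⬝ᵥ A *ᵥ p w)) =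
      (Real.exp (t u / 2) ^ 2 * Real.exp (t w / 2) ^ 2) *
        ((p u ⬝ᵥ A *ᵥ p u) * (p w ⬝ᵥ A *ᵥ p w)) by ring]
    exact mul_div_mul_left _ _ (by positivity)
  rw [hred, hred, hred]
  rw [mem_vcl, coe_insert, coe_singleton, Set.image_pair, Submodule.mem_span_pair] at h
  obtain ⟨a, b, hab⟩ := h
  have hxy : p y ⬝ᵥ (A *ᵥ p x) = p x ⬝ᵥ (A *ᵥ p y) := bil_symm hs _ _
  refine three (a := a) (b := b) (pos_inv hM hx) (pos_inv hM hy) (pos_inv hM hg) ?_ ?_ ?_ ?_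
  · have h1 := nonneg_inv hM ((p y ⬝ᵥ (A *ᵥ p y)) • p x - (p x ⬝ᵥ (A *ᵥ p y)) • p y)
    rw [← hA] at h1
    simp only [Matrix.mulVec_sub, Matrix.mulVec_smul, dotProduct_sub, sub_dotProduct,
      smul_dotProduct, dotProduct_smul, smul_eq_mul, hxy] at h1
    have hY := pos_inv hM hy
    rw [← hA] at hY
    have h2 : 0 ≤ (p y ⬝ᵥ (A *ᵥ p y)) *
        ((p x ⬝ᵥ (A *ᵥ p x)) * (p y ⬝ᵥ (A *ᵥ p y)) - (p x ⬝ᵥ (A *ᵥ p y)) ^ 2) := by
      nlinarith [h1]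
    have h3 := (mul_nonneg_iff_of_pos_left hY).1 h2
    linarith
  · rw [← hab]
    simp only [Matrix.mulVec_add, Matrix.mulVec_smul, dotProduct_add, add_dotProduct,
      smul_dotProduct, dotProduct_smul, smul_eq_mul, hxy]
    ring
  · rw [← hab]
    simp only [Matrix.mulVec_add, Matrix.mulVec_smul, dotProduct_add,
      dotProduct_smul, smul_eq_mul, hxy]
  · rw [← hab]
    simp only [add_dotProduct, smul_dotProduct, smul_eq_mul, hxy]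

end Pool.Agent.Lib.P0fc
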