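import Mathlib
import Pool.Agent.Lib.P0fc.DetLow

/-!
# Robust isotropic position

Let `a x = #{ω | x ∈ I ω} / |Ω|`.  For `h > 0` put
`F t = log det (MM p t) - ∑ a x * t x + h * ∑ (t x)^2`, continuous on `α → ℝ` (`det > 0` by `posDef_MM`).
Lower bound: `log det (MM p t) ≥ log (c_ω) + ∑_{x ∈ I ω} t x` for every `ω` (`det_low`); averaging over
`ω` gives `log det (MM p t) ≥ - D + ∑ a x * t x` with a constant `D` (`∑_ω ∑_{x ∈ I ω} t x =
∑_x #{ω | x ∈ I ω} * t x`).  So `F t ≥ h * ∑ (t x)^2 - D` tends to infinity, and `F` has a minimum at some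
`t` (`Continuous.exists_forall_le` with `cocompact`, or a compact ball); `F t ≤ F 0`, so
`h * ∑ (t x)^2 ≤ F 0 + D` where `F 0 = log det (MM p 0)` does not depend on `h`.  Hence
`|2 h t x| ≤ 2 * sqrt (h * (F 0 + D))`, at most `τ` if `h` is chosen small (`F 0 + D ≥ 0`).
At the minimum vary one coordinate: `t' = Function.update t x (t x + s)`,
`MM p t' = MM p t + (exp (t x + s) - exp (t x)) • vecMulVec (p x) (p x)`, so by `det_upd`
`log det (MM p t') = log det (MM p t) + log (1 + (exp s - 1) * m)`, `m = exp (t x) * (p x ⬝ᵥ (M⁻¹ *ᵥ p x))`;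
the function `φ s = log (1 + (exp s - 1) * m) - a x * s + h * (2 * t x * s + s^2)` is `≥ 0 = φ 0` for all
`s` (the argument of the logarithm is positive because both determinants are), so its derivative at
`0`, `m - a x + 2 * h * t x`, vanishes (`IsLocalMin.hasDerivAt_eq_zero`).
-/

namespace Pool.Agent.Lib.P0fc

open Finset Pool.Agent.Lib.P0fb Matrix

namespace MinimAux

variable {α : Type} [Fintype α] [DecidableEq α] {k : ℕ}

theorem continuous_MM (p : α → (Fin k → ℝ)) : Continuous (fun t : α → ℝ => MM p t) := by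
  unfold MM
  refine continuous_finset_sum _ fun x _ => ?_
  exact (Real.continuous_exp.comp (continuous_apply x)).smul continuous_const

theorem MM_update (p : α → (Fin k → ℝ)) (t : α → ℝ) (x : α) (s : ℝ) :
    MM p (Function.update t x (t x + s)) =
      MM p t + (Real.exp (t x + s) - Real.exp (t x)) • Matrix.vecMulVec (p x) (p x) := by
  rw [← sub_eq_iff_eq_add']
  unfold MM
  rw [← Finset.sum_sub_distrib, Finset.sum_eq_single x]
  · rw [Function.update_self, sub_smul]
  · intro y _ hy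
    rw [Function.update_of_ne hy, sub_self]
  · intro h
    exact absurd (mem_univ x) h

theorem sum_update (a t : α → ℝ) (x : α) (s : ℝ) :
    ∑ y, a y * Function.update t x (t x + s) y = ∑ y, a y * t y + a x * s := by
  rw [← sub_eq_iff_eq_add', ← Finset.sum_sub_distrib, Finset.sum_eq_single x]
  · rw [Function.update_self]
    ring
  · intro y _ hy
    rw [Function.update_of_ne hy, sub_self]
  · intro h
    exact absurd (mem_univ x) h

theorem sum_sq_update (t : α → ℝ) (x : α) (s : ℝ) :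
    ∑ y, Function.update t x (t x + s) y ^ 2 = ∑ y, t y ^ 2 + (2 * t x * s + s ^ 2) := by
  rw [← sub_eq_iff_eq_add', ← Finset.sum_sub_distrib, Finset.sum_eq_single x]
  · rw [Function.update_self]
    ring
  · intro y _ hy
    rw [Function.update_of_ne hy, sub_self]
  · intro h
    exact absurd (mem_univ x) h

theorem norm_sq_le (t : α → ℝ) : ‖t‖ ^ 2 ≤ ∑ x, t x ^ 2 := by
  have h0 : 0 ≤ ∑ x, t x ^ 2 := Finset.sum_nonneg fun x _ => sq_nonneg _
  have h1 : ‖t‖ ≤ Real.sqrt (∑ x, t x ^ 2) := by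
    rw [pi_norm_le_iff_of_nonneg (Real.sqrt_nonneg _)]
    intro x
    rw [Real.norm_eq_abs]
    refine Real.abs_le_sqrt ?_
    exact Finset.single_le_sum (f := fun x => t x ^ 2) (fun y _ => sq_nonneg _) (mem_univ x)
  calc ‖t‖ ^ 2 ≤ Real.sqrt (∑ x, t x ^ 2) ^ 2 := pow_le_pow_left₀ (norm_nonneg _) h1 2
    _ = ∑ x, t x ^ 2 := Real.sq_sqrt h0

/-- a coercive continuous function has a minimum -/
theorem exists_min (F : (α → ℝ) → ℝ) (hF : Continuous F) {h D : ℝ} (hh : 0 < h)
    (hb : ∀ t, h * ∑ x, t x ^ 2 - D ≤ F t) : ∃ t, ∀ t', F t ≤ F t' := by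
  refine hF.exists_forall_le ?_
  have h1 : Filter.Tendsto (fun r : ℝ => h * r ^ 2 - D) Filter.atTop Filter.atTop :=
    Filter.tendsto_atTop_add_const_right _ (-D)
      (Filter.Tendsto.const_mul_atTop hh (Filter.tendsto_pow_atTop two_ne_zero))
  have h2 : Filter.Tendsto (fun t : α → ℝ => h * ‖t‖ ^ 2 - D) (Filter.cocompact _) Filter.atTop :=
    h1.comp tendsto_norm_cocompact_atTop
  refine Filter.tendsto_atTop_mono (fun t => ?_) h2
  have h3 := mul_le_mul_of_nonneg_left (norm_sq_le t) hh.le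
  have h4 := hb t
  linarith

/-- the derivative at the minimum -/
theorem deriv_zero {m a h T : ℝ}
    (hpos : ∀ s : ℝ, 0 < 1 + (Real.exp s - 1) * m)
    (hmin : ∀ s : ℝ, 0 ≤ Real.log (1 + (Real.exp s - 1) * m) - a * s + h * (2 * T * s + s ^ 2)) :
    m - a = -(2 * h * T) := by
  set φ : ℝ → ℝ := fun s => Real.log (1 + (Real.exp s - 1) * m) - a * s +
    h * (2 * T * s + s ^ 2) with hφ
  have h0 : φ 0 = 0 := by
    simp only [hφ]
    simp
  have hloc : IsLocalMin φ 0 := by
    refine Filter.Eventually.of_forall fun s => ?_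
    rw [h0]
    exact hmin s
  have d1 : HasDerivAt (fun s : ℝ => 1 + (Real.exp s - 1) * m) (Real.exp 0 * m) 0 :=
    (((Real.hasDerivAt_exp 0).sub_const 1).mul_const m).const_add 1
  have d2 : HasDerivAt (fun s : ℝ => Real.log (1 + (Real.exp s - 1) * m))
      (Real.exp 0 * m / (1 + (Real.exp 0 - 1) * m)) 0 := d1.log (hpos 0).ne'
  have d3 : HasDerivAt (fun s : ℝ => a * s) a 0 := by
    have := (hasDerivAt_id (0:ℝ)).const_mul a
    simpa using this
  have d4 : HasDerivAt (fun s : ℝ => h * (2 * T * s + s ^ 2)) (h * (2 * T)) 0 := by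
    have e1 : HasDerivAt (fun s : ℝ => 2 * T * s) (2 * T) 0 := by
      have := (hasDerivAt_id (0:ℝ)).const_mul (2 * T)
      simpa using this
    have e2 : HasDerivAt (fun s : ℝ => s ^ 2) 0 0 := by
      have := hasDerivAt_pow 2 (0:ℝ)
      simpa using this
    have e3 := (e1.add e2).const_mul h
    rw [add_zero] at e3
    exact e3
  have d5 : HasDerivAt φ (Real.exp 0 * m / (1 + (Real.exp 0 - 1) * m) - a + h * (2 * T)) 0 :=
    (d2.sub d3).add d4
  have h5 := hloc.hasDerivAt_eq_zero d5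
  rw [Real.exp_zero] at h5
  have h6 : (1:ℝ) * m / (1 + (1 - 1) * m) = m := by
    rw [sub_self, zero_mul, add_zero, div_one, one_mul]
  rw [h6] at h5
  linarith

end MinimAux

open MinimAux

open Classical in
theorem exists_pos {α : Type} [Fintype α] [DecidableEq α] {k : ℕ} (p : α → (Fin k → ℝ))
    {Ω : Type} [Fintype Ω] [Nonempty Ω] (I : Ω → Finset α)
    (hI : ∀ ω, (I ω).card = k ∧ dm p (I ω) = k) (τ : ℝ) (hτ : 0 < τ) :
    ∃ t : α → ℝ, (MM p t).PosDef ∧ ∀ x, |Real.exp (t x) * (p x ⬝ᵥ ((MM p t)⁻¹ *ᵥ p x)) -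
      ((univ.filter (fun ω : Ω => x ∈ I ω)).card : ℝ) / (Fintype.card Ω : ℝ)| ≤ τ := by
  obtain ⟨ω0⟩ := (inferInstance : Nonempty Ω)
  set W : ℝ := (Fintype.card Ω : ℝ) with hW
  have hW0 : 0 < W := by
    rw [hW]
    exact_mod_cast Fintype.card_pos
  set a : α → ℝ := fun x => ((univ.filter (fun ω : Ω => x ∈ I ω)).card : ℝ) / W with ha
  have hPD : ∀ t : α → ℝ, (MM p t).PosDef := fun t => posDef_MM p (I ω0) (hI ω0) t
  have hdet : ∀ t : α → ℝ, 0 < (MM p t).det := fun t => (hPD t).det_pos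
  choose c hc0 hc using fun ω => det_low p (I ω) (hI ω)
  -- the lower bound
  set D : ℝ := -((∑ ω, Real.log (c ω)) / W) with hD
  have hlow : ∀ t : α → ℝ, ∑ x, a x * t x - D ≤ Real.log (MM p t).det := by
    intro t
    have h1 : ∀ ω, Real.log (c ω) + ∑ x ∈ I ω, t x ≤ Real.log (MM p t).det := by
      intro ω
      have h2 := Real.log_le_log (mul_pos (hc0 ω) (Real.exp_pos _)) (hc ω t)
      rwa [Real.log_mul (hc0 ω).ne' (Real.exp_pos _).ne', Real.log_exp] at h2
    have h2 : ∑ ω, (Real.log (c ω) + ∑ x ∈ I ω, t x) ≤ ∑ _ω : Ω, Real.log (MM p t).det :=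
      Finset.sum_le_sum fun ω _ => h1 ω
    rw [Finset.sum_add_distrib, Finset.sum_const, Finset.card_univ, nsmul_eq_mul] at h2
    have h3 : ∑ ω, ∑ x ∈ I ω, t x = W * ∑ x, a x * t x := by
      have h4 : ∀ ω, ∑ x ∈ I ω, t x = ∑ x, if x ∈ I ω then t x else 0 := by
        intro ω
        rw [Finset.sum_ite_mem, Finset.univ_inter]
      rw [Finset.sum_congr rfl fun ω _ => h4 ω, Finset.sum_comm, Finset.mul_sum]
      refine Finset.sum_congr rfl fun x _ => ?_
      rw [← Finset.sum_filter, Finset.sum_const, nsmul_eq_mul]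
      simp only [ha]
      rw [← mul_assoc, mul_div_cancel₀ _ hW0.ne']
    rw [h3] at h2
    have h5 : ∑ ω, Real.log (c ω) = -(W * D) := by
      rw [hD, mul_neg, neg_neg, mul_div_cancel₀ _ hW0.ne']
    rw [h5] at h2
    have h6 : W * (∑ x, a x * t x - D) ≤ W * Real.log (MM p t).det := by
      rw [mul_sub]
      linarith
    exact le_of_mul_le_mul_left h6 hW0
  -- the parameter
  set B : ℝ := Real.log (MM p 0).det + D with hB
  have hB0 : 0 ≤ B := by
    have h1 := hlow 0
    simp only [Pi.zero_apply, mul_zero, Finset.sum_const_zero, zero_sub] at h1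
    linarith
  set h : ℝ := τ ^ 2 / (4 * (B + 1)) with hh
  have hh0 : 0 < h := by positivity
  set F : (α → ℝ) → ℝ := fun t => Real.log (MM p t).det - ∑ x, a x * t x + h * ∑ x, t x ^ 2
    with hF
  have hFc : Continuous F := by
    have h1 : Continuous fun t : α → ℝ => Real.log (MM p t).det :=
      Continuous.log (continuous_MM p).matrix_det fun t => (hdet t).ne'
    have h2 : Continuous fun t : α → ℝ => ∑ x, a x * t x :=
      continuous_finset_sum _ fun x _ => continuous_const.mul (continuous_apply x)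
    have h3 : Continuous fun t : α → ℝ => ∑ x, t x ^ 2 :=
      continuous_finset_sum _ fun x _ => (continuous_apply x).pow 2
    exact (h1.sub h2).add (continuous_const.mul h3)
  have hFl : ∀ t, h * ∑ x, t x ^ 2 - D ≤ F t := by
    intro t
    have h1 := hlow t
    simp only [hF]
    linarith
  obtain ⟨t, ht⟩ := exists_min F hFc hh0 hFl
  refine ⟨t, hPD t, fun x => ?_⟩
  -- the size of `t x`
  have hF0 : F 0 = Real.log (MM p 0).det := by
    simp only [hF, Pi.zero_apply, mul_zero, Finset.sum_const_zero, sub_zero]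
    simp
  have ht1 : h * ∑ x, t x ^ 2 ≤ B := by
    have h1 := hFl t
    have h2 := ht 0
    rw [hF0] at h2
    linarith
  have ht2 : h * t x ^ 2 ≤ B := by
    refine le_trans ?_ ht1
    refine mul_le_mul_of_nonneg_left ?_ hh0.le
    exact Finset.single_le_sum (f := fun x => t x ^ 2) (fun y _ => sq_nonneg _) (mem_univ x)
  have ht3 : |2 * h * t x| ≤ τ := by
    refine abs_le_of_sq_le_sq ?_ hτ.le
    have h1 : 4 * h * B ≤ τ ^ 2 := by
      rw [hh]
      rw [show 4 * (τ ^ 2 / (4 * (B + 1))) * B = τ ^ 2 * (B / (B + 1)) by field_simp]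
      have h2 : B / (B + 1) ≤ 1 := by
        rw [div_le_one (by linarith)]
        linarith
      calc τ ^ 2 * (B / (B + 1)) ≤ τ ^ 2 * 1 := mul_le_mul_of_nonneg_left h2 (sq_nonneg τ)
        _ = τ ^ 2 := mul_one _
    calc (2 * h * t x) ^ 2 = 4 * h * (h * t x ^ 2) := by ring
      _ ≤ 4 * h * B := mul_le_mul_of_nonneg_left ht2 (by positivity)
      _ ≤ τ ^ 2 := h1
  -- the variation
  set m : ℝ := Real.exp (t x) * (p x ⬝ᵥ ((MM p t)⁻¹ *ᵥ p x)) with hm
  have hdet' : ∀ s : ℝ, (MM p (Function.update t x (t x + s))).det =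
      (MM p t).det * (1 + (Real.exp s - 1) * m) := by
    intro s
    rw [MM_update, det_upd (hPD t), Real.exp_add, hm]
    ring
  have hpos : ∀ s : ℝ, 0 < 1 + (Real.exp s - 1) * m := by
    intro s
    have h1 := hdet (Function.update t x (t x + s))
    rw [hdet' s] at h1
    exact (mul_pos_iff_of_pos_left (hdet t)).1 h1
  have hmin : ∀ s : ℝ, 0 ≤ Real.log (1 + (Real.exp s - 1) * m) - a x * s +
      h * (2 * t x * s + s ^ 2) := by
    intro s
    have h1 := ht (Function.update t x (t x + s))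
    simp only [hF] at h1
    rw [hdet' s, Real.log_mul (hdet t).ne' (hpos s).ne', sum_update a t x s,
      sum_sq_update t x s] at h1
    linarith
  have hd := deriv_zero hpos hmin
  have hgoal : m - ((univ.filter (fun ω : Ω => x ∈ I ω)).card : ℝ) / W = m - a x := rfl
  rw [hgoal, hd, abs_neg]
  exact ht3

end Pool.Agent.Lib.P0fc
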