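import Mathlib
import Pool.Agent.Lib.P0fc.Facts

/-!
# Reduction to the case `W = ∅`

Take `Q = E ⧸ span v(W)` and `u x` the class of `v x`.  `g ∈ vcl u P` iff `mk (v g)` lies in the span
of `mk (v x)`, `x ∈ P`, i.e. in `map mk (span v(P))`, iff `v g ∈ span v(P) ⊔ span v(W) = span v(W ∪ P)`
(`Submodule.map_span`, `Submodule.comap_map_mkQ` or a direct argument; `g ∈ comap`).
-/

namespace Pool.Agent.Lib.P0fc

open Finset Pool.Agent.Lib.P0fb

theorem exists_quot {α : Type} [Fintype α] [DecidableEq α] {E : Type} [AddCommGroup E] [Module ℝ E]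
    (v : α → E) (W : Finset α) :
    ∃ (Q : Type) (_ : AddCommGroup Q) (_ : Module ℝ Q) (u : α → Q),
      ∀ P : Finset α, vcl u P = vcl v (W ∪ P) := by
  refine ⟨E ⧸ Submodule.span ℝ (v '' (W : Set α)), inferInstance, inferInstance,
    fun x => (Submodule.span ℝ (v '' (W : Set α))).mkQ (v x), ?_⟩
  intro P
  ext g
  rw [mem_vcl, mem_vcl]
  have h1 : (fun x => (Submodule.span ℝ (v '' (W : Set α))).mkQ (v x)) '' (P : Set α)
      = (Submodule.span ℝ (v '' (W : Set α))).mkQ '' (v '' (P : Set α)) := by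
    rw [Set.image_image]
  rw [h1, ← Submodule.map_span, ← Submodule.mem_comap, Submodule.comap_map_mkQ, coe_union,
    Set.image_union, Submodule.span_union]

end Pool.Agent.Lib.P0fc
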