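import Mathlib
import Pool.Agent.Lib.P0fc.Facts

/-!
# Double counting for the robust Sylvester-Gallai lemma

Write `L x y = vcl u {x, y} \ vcl u ∅` and `T x y = Tset u ∅ x y` (`⊆ L x y`).  If `T x y` is nonempty
then `x, y ∉ vcl u ∅`, `x ∉ vcl u {y}`, `y ∉ vcl u {x}` (exchange), and for `z ∈ T x y` any two of
`x, y, z` span the same line: `L x y = L y z = L x z`.
(1) Sum the inequality `1/2 ≤ κ x y + κ y z + κ z x` with weight `1/|L x y|` over `x, y ∈ G`,
`T x y ≠ ∅`, `z ∈ T x y ∩ G`: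
`(1/2) ∑ |T x y ∩ G|/|L x y| ≤ 3 S`: the first term gives `∑ κ x y |T ∩ G|/|L| ≤ S`; for the second
fix `(y, z)`: the `x` lie in `L y z = L x y`, so the sum over `x` of `1/|L x y|` is at most `1`; the
third in the same way with `(z, x)` fixed.  Hence `∑_{x,y ∈ G, T ≠ ∅} |T x y ∩ G|/|L x y| ≤ 6 S`.
(2) `∑_{(x,y), T ≠ ∅} |L x y \ G|/|L x y| ≤ 2 N |Gᶜ|`: fix `z ∉ G`, `z ∈ L x y`; `z` is not parallel to
`x` or not parallel to `y` (i.e. `x ∉ vcl u {z}` or `y ∉ vcl u {z}`; otherwise `x, y` are parallel).  If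
`x ∉ vcl u {z}` then `L x y = L x z`, and `∑_x ∑_{y ∈ L x z} 1/|L x z| ≤ N`; symmetrically for `y`.
(3) If `(x, y)` is counted on the left then `θ ≤ |T x y|/|L x y| ≤ |T ∩ G|/|L| + |L \ G|/|L|` and
`|T x y|/|L x y| ≤ 1` (`|L| > 0`); the pairs with `x ∉ G` or `y ∉ G` are at most `2 N |Gᶜ|`.  Sum.
-/

namespace Pool.Agent.Lib.P0fc

open Finset Pool.Agent.Lib.P0fb

namespace SGCountAux

open Classical

variable {α : Type} [Fintype α] [DecidableEq α] {E : Type} [AddCommGroup E] [Module ℝ E] (u : α → E)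

/-- the line without the loops -/
noncomputable def L (x y : α) : Finset α := vcl u {x, y} \ vcl u ∅

theorem L_comm (x y : α) : L u x y = L u y x := by
  unfold L
  rw [pair_comm]

theorem mem_L {x y z : α} : z ∈ L u x y ↔ z ∈ vcl u {x, y} ∧ z ∉ vcl u ∅ := by
  unfold L
  rw [mem_sdiff]

theorem mem_T {x y z : α} :
    z ∈ Tset u ∅ x y ↔ z ∈ vcl u {x, y} ∧ z ∉ vcl u {x} ∧ z ∉ vcl u {y} := by
  unfold Tset
  rw [mem_filter, insert_empty_eq, insert_empty_eq]

theorem self_mem {x : α} {W : Finset α} (h : x ∈ W) : x ∈ vcl u W := subset_vcl u W h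

theorem T_facts {x y z : α} (h : z ∈ Tset u ∅ x y) :
    x ∉ vcl u ∅ ∧ y ∉ vcl u ∅ ∧ z ∉ vcl u ∅ ∧ L u x y = L u y z ∧ L u x y = L u z x ∧
      x ∈ L u y z ∧ y ∈ L u z x ∧ z ∈ L u x y := by
  obtain ⟨h1, h2, h3⟩ := (mem_T u).1 h
  have hz : z ∉ vcl u ∅ := fun hc => h2 (vcl_mono (empty_subset _) hc)
  have hx : x ∈ vcl u {z, y} := exch h1 h3
  have hy : y ∈ vcl u {z, x} := by
    rw [pair_comm] at h1
    exact exch h1 h2
  have hx0 : x ∉ vcl u ∅ := by
    intro hc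
    have : x ∈ vcl u {y} := vcl_mono (empty_subset _) hc
    have h4 := vcl_insert_of_mem this
    rw [h4] at h1
    exact h3 h1
  have hy0 : y ∉ vcl u ∅ := by
    intro hc
    have : y ∈ vcl u {x} := vcl_mono (empty_subset _) hc
    have h4 := vcl_insert_of_mem this
    rw [pair_comm, h4] at h1
    exact h2 h1
  have e1 : vcl u {x, y} = vcl u {y, z} := by
    apply Subset.antisymm
    · apply vcl_subset_of_subset
      intro t ht
      rw [mem_insert, mem_singleton] at ht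
      rcases ht with rfl | rfl
      · rw [pair_comm]; exact hx
      · exact self_mem u (by simp)
    · apply vcl_subset_of_subset
      intro t ht
      rw [mem_insert, mem_singleton] at ht
      rcases ht with rfl | rfl
      · exact self_mem u (by simp)
      · exact h1
  have e2 : vcl u {x, y} = vcl u {z, x} := by
    apply Subset.antisymm
    · apply vcl_subset_of_subset
      intro t ht
      rw [mem_insert, mem_singleton] at ht
      rcases ht with rfl | rfl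
      · exact self_mem u (by simp)
      · exact hy
    · apply vcl_subset_of_subset
      intro t ht
      rw [mem_insert, mem_singleton] at ht
      rcases ht with rfl | rfl
      · exact h1
      · exact self_mem u (by simp)
  refine ⟨hx0, hy0, hz, ?_, ?_, ?_, ?_, ?_⟩
  · unfold L; rw [e1]
  · unfold L; rw [e2]
  · rw [mem_L, pair_comm]; exact ⟨hx, hx0⟩
  · rw [mem_L]; exact ⟨hy, hy0⟩
  · rw [mem_L]; exact ⟨h1, hz⟩

theorem T_subset_L (x y : α) : Tset u ∅ x y ⊆ L u x y := fun _ h => (T_facts u h).2.2.2.2.2.2.2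

theorem sum_le_one (X : Finset α) (a b : α) (h : X ⊆ L u a b) :
    ∑ _x ∈ X, (1 : ℝ) / ((L u a b).card : ℝ) ≤ 1 := by
  rw [sum_const, nsmul_eq_mul, mul_one_div]
  exact div_le_one_of_le₀ (by exact_mod_cast card_le_card h) (by positivity)

/-- weight of a triple -/
noncomputable def t (x y z : α) : ℝ := if z ∈ Tset u ∅ x y then 1 / ((L u x y).card : ℝ) else 0

theorem t_nonneg (x y z : α) : 0 ≤ t u x y z := by
  unfold t
  split_ifs
  · positivity
  · exact le_rfl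

theorem sum_t_z (G : Finset α) (x y : α) : ∑ z ∈ G, t u x y z ≤ 1 := by
  unfold t
  rw [← sum_filter]
  apply sum_le_one
  intro z hz
  rw [mem_filter] at hz
  exact T_subset_L u x y hz.2

theorem sum_t_x (G : Finset α) (y z : α) : ∑ x ∈ G, t u x y z ≤ 1 := by
  unfold t
  rw [← sum_filter]
  have h : ∑ x ∈ G.filter (fun x => z ∈ Tset u ∅ x y), (1 : ℝ) / ((L u x y).card : ℝ) =
      ∑ x ∈ G.filter (fun x => z ∈ Tset u ∅ x y), (1 : ℝ) / ((L u y z).card : ℝ) := by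
    apply sum_congr rfl
    intro x hx
    rw [mem_filter] at hx
    rw [(T_facts u hx.2).2.2.2.1]
  rw [h]
  apply sum_le_one
  intro x hx
  rw [mem_filter] at hx
  exact (T_facts u hx.2).2.2.2.2.2.1

theorem sum_t_y (G : Finset α) (x z : α) : ∑ y ∈ G, t u x y z ≤ 1 := by
  unfold t
  rw [← sum_filter]
  have h : ∑ y ∈ G.filter (fun y => z ∈ Tset u ∅ x y), (1 : ℝ) / ((L u x y).card : ℝ) =
      ∑ y ∈ G.filter (fun y => z ∈ Tset u ∅ x y), (1 : ℝ) / ((L u z x).card : ℝ) := by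
    apply sum_congr rfl
    intro y hy
    rw [mem_filter] at hy
    rw [(T_facts u hy.2).2.2.2.2.1]
  rw [h]
  apply sum_le_one
  intro y hy
  rw [mem_filter] at hy
  exact (T_facts u hy.2).2.2.2.2.2.2.1

theorem card_eq_sum_t (G : Finset α) (x y : α) :
    ((Tset u ∅ x y ∩ G).card : ℝ) / ((L u x y).card : ℝ) = ∑ z ∈ G, t u x y z := by
  unfold t
  rw [← sum_filter, sum_const, nsmul_eq_mul, mul_one_div]
  congr 2
  rw [inter_comm, ← filter_mem_eq_inter]

theorem part1 (G : Finset α) (κ : α → α → ℝ) (S : ℝ) (hκ0 : ∀ x y, 0 ≤ κ x y)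
    (hS : ∑ x ∈ G, ∑ y ∈ G, κ x y ≤ S)
    (h3 : ∀ x ∈ G, ∀ y ∈ G, ∀ z ∈ G, x ∉ vcl u ∅ → y ∉ vcl u ∅ → z ∉ vcl u ∅ →
      z ∈ vcl u {x, y} → 1 / 2 ≤ κ x y + κ y z + κ z x) :
    ∑ x ∈ G, ∑ y ∈ G, ((Tset u ∅ x y ∩ G).card : ℝ) / ((L u x y).card : ℝ) ≤ 6 * S := by
  have hpt : ∀ x ∈ G, ∀ y ∈ G, ∀ z ∈ G,
      t u x y z ≤ 2 * (κ x y * t u x y z + κ y z * t u x y z + κ z x * t u x y z) := by
    intro x hx y hy z hz
    by_cases hT : z ∈ Tset u ∅ x y
    · obtain ⟨f1, f2, f3, -, -, -, -, f4⟩ := T_facts u hT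
      have h := h3 x hx y hy z hz f1 f2 f3 ((mem_L u).1 f4).1
      have h0 := t_nonneg u x y z
      nlinarith
    · have : t u x y z = 0 := by unfold t; rw [if_neg hT]
      rw [this]
      simp
  have hA : ∑ x ∈ G, ∑ y ∈ G, ∑ z ∈ G, κ x y * t u x y z ≤ S := by
    refine le_trans (sum_le_sum fun x _ => sum_le_sum fun y _ => ?_) hS
    rw [← mul_sum]
    have := sum_t_z u G x y
    nlinarith [hκ0 x y]
  have hB : ∑ x ∈ G, ∑ y ∈ G, ∑ z ∈ G, κ y z * t u x y z ≤ S := by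
    rw [sum_comm]
    refine le_trans (sum_le_sum fun y _ => ?_) hS
    rw [sum_comm]
    refine sum_le_sum fun z _ => ?_
    rw [← mul_sum]
    have := sum_t_x u G y z
    nlinarith [hκ0 y z]
  have hC : ∑ x ∈ G, ∑ y ∈ G, ∑ z ∈ G, κ z x * t u x y z ≤ S := by
    have e : ∑ x ∈ G, ∑ y ∈ G, ∑ z ∈ G, κ z x * t u x y z =
        ∑ z ∈ G, ∑ x ∈ G, ∑ y ∈ G, κ z x * t u x y z := by
      rw [sum_comm' (s' := fun _ => G) (t' := G) (by simp)]
      rw [sum_comm]
      have : ∀ x ∈ G, ∑ y ∈ G, ∑ z ∈ G, κ z x * t u x y z = ∑ z ∈ G, ∑ y ∈ G, κ z x * t u x y z := by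
        intro x _
        exact sum_comm
      rw [sum_congr rfl this, sum_comm]
    rw [e]
    refine le_trans (sum_le_sum fun z _ => sum_le_sum fun x _ => ?_) hS
    rw [← mul_sum]
    have := sum_t_y u G x z
    nlinarith [hκ0 z x]
  calc ∑ x ∈ G, ∑ y ∈ G, ((Tset u ∅ x y ∩ G).card : ℝ) / ((L u x y).card : ℝ)
      = ∑ x ∈ G, ∑ y ∈ G, ∑ z ∈ G, t u x y z :=
        sum_congr rfl fun x _ => sum_congr rfl fun y _ => card_eq_sum_t u G x y
    _ ≤ ∑ x ∈ G, ∑ y ∈ G, ∑ z ∈ G,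
          2 * (κ x y * t u x y z + κ y z * t u x y z + κ z x * t u x y z) :=
        sum_le_sum fun x hx => sum_le_sum fun y hy => sum_le_sum fun z hz => hpt x hx y hy z hz
    _ = 2 * (∑ x ∈ G, ∑ y ∈ G, ∑ z ∈ G, κ x y * t u x y z +
          ∑ x ∈ G, ∑ y ∈ G, ∑ z ∈ G, κ y z * t u x y z +
          ∑ x ∈ G, ∑ y ∈ G, ∑ z ∈ G, κ z x * t u x y z) := by
        simp only [← mul_sum, sum_add_distrib]
    _ ≤ 6 * S := by linarith

/-- the line through a third point -/
theorem L_third {x y z : α} (hx : x ∉ vcl u {z}) (hz : z ∈ L u x y) (hy : y ∉ vcl u ∅) :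
    L u x y = L u x z ∧ y ∈ L u x z := by
  obtain ⟨h1, h2⟩ := (mem_L u).1 hz
  have h3 : z ∉ vcl u {x} := by
    intro hc
    have h4 : z ∈ vcl u (insert x ∅) := by rw [insert_empty_eq]; exact hc
    have h5 := exch h4 h2
    rw [insert_empty_eq] at h5
    exact hx h5
  have h6 : y ∈ vcl u {z, x} := by
    rw [pair_comm] at h1
    exact exch h1 h3
  have e : vcl u {x, y} = vcl u {x, z} := by
    apply Subset.antisymm
    · apply vcl_subset_of_subset
      intro s hs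
      rw [mem_insert, mem_singleton] at hs
      rcases hs with rfl | rfl
      · exact self_mem u (by simp)
      · rw [pair_comm]; exact h6
    · apply vcl_subset_of_subset
      intro s hs
      rw [mem_insert, mem_singleton] at hs
      rcases hs with rfl | rfl
      · exact self_mem u (by simp)
      · exact h1
  refine ⟨by unfold L; rw [e], ?_⟩
  rw [mem_L, pair_comm]
  exact ⟨h6, hy⟩

theorem not_both {x y z : α} (hT : (Tset u ∅ x y).Nonempty) (_hz : z ∈ L u x y) :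
    x ∉ vcl u {z} ∨ y ∉ vcl u {z} := by
  by_contra hc
  push Not at hc
  obtain ⟨hx, hy⟩ := hc
  obtain ⟨s, hs⟩ := hT
  obtain ⟨hx0, hy0, -⟩ := T_facts u hs
  obtain ⟨h1, h2, h3⟩ := (mem_T u).1 hs
  have h4 : x ∈ vcl u (insert z ∅) := by rw [insert_empty_eq]; exact hx
  have h5 := exch h4 hx0
  rw [insert_empty_eq] at h5
  have h6 : vcl u {z} ⊆ vcl u {x} := by
    apply vcl_subset_of_subset
    rw [singleton_subset_iff]
    exact h5
  have h7 : y ∈ vcl u {x} := h6 hy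
  have h8 := vcl_insert_of_mem h7
  rw [pair_comm, h8] at h1
  exact h2 h1

theorem part2 (G : Finset α) :
    ∑ x : α, ∑ y : α, (if (Tset u ∅ x y).Nonempty then
      ((L u x y \ G).card : ℝ) / ((L u x y).card : ℝ) else 0) ≤
      2 * (Fintype.card α : ℝ) * ((Gᶜ).card : ℝ) := by
  have e1 : ∀ x y : α, (if (Tset u ∅ x y).Nonempty then
      ((L u x y \ G).card : ℝ) / ((L u x y).card : ℝ) else 0) =
      ∑ z ∈ Gᶜ, (if (Tset u ∅ x y).Nonempty ∧ z ∈ L u x y then 1 / ((L u x y).card : ℝ) else 0) := by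
    intro x y
    by_cases hT : (Tset u ∅ x y).Nonempty
    · simp only [hT, true_and, if_true]
      rw [← sum_filter, sum_const, nsmul_eq_mul, mul_one_div]
      congr 2
      congr 1
      ext z
      simp only [mem_sdiff, mem_filter, mem_compl]
      tauto
    · simp [hT]
  have e2 : ∑ x : α, ∑ y : α, (if (Tset u ∅ x y).Nonempty then
      ((L u x y \ G).card : ℝ) / ((L u x y).card : ℝ) else 0) =
      ∑ z ∈ Gᶜ, ∑ x : α, ∑ y : α,
        (if (Tset u ∅ x y).Nonempty ∧ z ∈ L u x y then 1 / ((L u x y).card : ℝ) else 0) := by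
    simp only [e1]
    have : ∀ x ∈ (univ : Finset α), ∑ y : α, ∑ z ∈ Gᶜ,
        (if (Tset u ∅ x y).Nonempty ∧ z ∈ L u x y then 1 / ((L u x y).card : ℝ) else 0) =
        ∑ z ∈ Gᶜ, ∑ y : α,
        (if (Tset u ∅ x y).Nonempty ∧ z ∈ L u x y then 1 / ((L u x y).card : ℝ) else 0) := by
      intro x _
      exact sum_comm
    rw [sum_congr rfl this, sum_comm]
  rw [e2]
  have hz : ∀ z ∈ Gᶜ, ∑ x : α, ∑ y : α,
      (if (Tset u ∅ x y).Nonempty ∧ z ∈ L u x y then 1 / ((L u x y).card : ℝ) else 0) ≤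
      2 * (Fintype.card α : ℝ) := by
    intro z _
    have hA : ∀ x : α, ∑ y : α, (if x ∉ vcl u {z} ∧ y ∈ L u x z then
        1 / ((L u x z).card : ℝ) else 0) ≤ 1 := by
      intro x
      rw [← sum_filter]
      apply sum_le_one
      intro y hy
      rw [mem_filter] at hy
      exact hy.2.2
    have hB : ∀ y : α, ∑ x : α, (if y ∉ vcl u {z} ∧ x ∈ L u y z then
        1 / ((L u y z).card : ℝ) else 0) ≤ 1 := by
      intro y
      rw [← sum_filter]
      apply sum_le_one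
      intro x hx
      rw [mem_filter] at hx
      exact hx.2.2
    have hpt : ∀ x y : α,
        (if (Tset u ∅ x y).Nonempty ∧ z ∈ L u x y then 1 / ((L u x y).card : ℝ) else 0) ≤
        (if x ∉ vcl u {z} ∧ y ∈ L u x z then 1 / ((L u x z).card : ℝ) else 0) +
        (if y ∉ vcl u {z} ∧ x ∈ L u y z then 1 / ((L u y z).card : ℝ) else 0) := by
      intro x y
      have n1 : (0 : ℝ) ≤ (if x ∉ vcl u {z} ∧ y ∈ L u x z then 1 / ((L u x z).card : ℝ) else 0) := by
        split_ifs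
        · positivity
        · exact le_rfl
      have n2 : (0 : ℝ) ≤ (if y ∉ vcl u {z} ∧ x ∈ L u y z then 1 / ((L u y z).card : ℝ) else 0) := by
        split_ifs
        · positivity
        · exact le_rfl
      by_cases hc : (Tset u ∅ x y).Nonempty ∧ z ∈ L u x y
      · rw [if_pos hc]
        obtain ⟨s, hs⟩ := hc.1
        obtain ⟨hx0, hy0, -⟩ := T_facts u hs
        rcases not_both u hc.1 hc.2 with h | h
        · obtain ⟨f1, f2⟩ := L_third u h hc.2 hy0
          rw [if_pos ⟨h, f2⟩, f1]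
          linarith
        · have hz2 : z ∈ L u y x := by rw [L_comm]; exact hc.2
          obtain ⟨f1, f2⟩ := L_third u h hz2 hx0
          rw [if_pos (c := y ∉ vcl u {z} ∧ x ∈ L u y z) ⟨h, f2⟩, L_comm, f1]
          linarith
      · rw [if_neg hc]
        linarith
    calc ∑ x : α, ∑ y : α,
        (if (Tset u ∅ x y).Nonempty ∧ z ∈ L u x y then 1 / ((L u x y).card : ℝ) else 0)
        ≤ ∑ x : α, ∑ y : α,
          ((if x ∉ vcl u {z} ∧ y ∈ L u x z then 1 / ((L u x z).card : ℝ) else 0) +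
          (if y ∉ vcl u {z} ∧ x ∈ L u y z then 1 / ((L u y z).card : ℝ) else 0)) :=
          sum_le_sum fun x _ => sum_le_sum fun y _ => hpt x y
      _ = ∑ x : α, ∑ y : α, (if x ∉ vcl u {z} ∧ y ∈ L u x z then 1 / ((L u x z).card : ℝ) else 0) +
          ∑ y : α, ∑ x : α,
            (if y ∉ vcl u {z} ∧ x ∈ L u y z then 1 / ((L u y z).card : ℝ) else 0) := by
          simp only [sum_add_distrib]
          congr 1
          exact sum_comm
      _ ≤ ∑ _x : α, (1 : ℝ) + ∑ _y : α, (1 : ℝ) :=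
          add_le_add (sum_le_sum fun x _ => hA x) (sum_le_sum fun y _ => hB y)
      _ = 2 * (Fintype.card α : ℝ) := by
          rw [sum_const, nsmul_eq_mul, card_univ]
          ring
  calc _ ≤ ∑ _z ∈ Gᶜ, 2 * (Fintype.card α : ℝ) := sum_le_sum hz
    _ = 2 * (Fintype.card α : ℝ) * ((Gᶜ).card : ℝ) := by
      rw [sum_const, nsmul_eq_mul]
      ring

theorem part3 (G : Finset α) :
    ∑ x : α, ∑ y : α, (if x ∈ G ∧ y ∈ G then (0 : ℝ) else 1) ≤
      2 * (Fintype.card α : ℝ) * ((Gᶜ).card : ℝ) := by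
  have hpt : ∀ x y : α, (if x ∈ G ∧ y ∈ G then (0 : ℝ) else 1) ≤
      (if x ∈ Gᶜ then 1 else 0) + (if y ∈ Gᶜ then 1 else 0) := by
    intro x y
    by_cases hx : x ∈ G <;> by_cases hy : y ∈ G <;> simp [hx, hy]
  calc ∑ x : α, ∑ y : α, (if x ∈ G ∧ y ∈ G then (0 : ℝ) else 1)
      ≤ ∑ x : α, ∑ y : α, ((if x ∈ Gᶜ then (1 : ℝ) else 0) + (if y ∈ Gᶜ then 1 else 0)) :=
        sum_le_sum fun x _ => sum_le_sum fun y _ => hpt x y
    _ = 2 * (Fintype.card α : ℝ) * ((Gᶜ).card : ℝ) := by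
      simp only [sum_add_distrib, sum_const, nsmul_eq_mul, card_univ, ← sum_filter, ← mul_sum,
        filter_mem_eq_inter, univ_inter, mul_one]
      ring

end SGCountAux

open Classical in
theorem sg_count {α : Type} [Fintype α] [DecidableEq α] {E : Type} [AddCommGroup E] [Module ℝ E]
    (u : α → E) (G : Finset α) (κ : α → α → ℝ) (S θ : ℝ) (hκ0 : ∀ x y, 0 ≤ κ x y)
    (hS : ∑ x ∈ G, ∑ y ∈ G, κ x y ≤ S)
    (h3 : ∀ x ∈ G, ∀ y ∈ G, ∀ z ∈ G, x ∉ vcl u ∅ → y ∉ vcl u ∅ → z ∉ vcl u ∅ →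
      z ∈ vcl u {x, y} → 1 / 2 ≤ κ x y + κ y z + κ z x) :
    θ * ((univ.filter (fun q : α × α => (Tset u ∅ q.1 q.2).Nonempty ∧
      θ * ((vcl u {q.1, q.2} \ vcl u ∅).card : ℝ) ≤ ((Tset u ∅ q.1 q.2).card : ℝ))).card : ℝ) ≤
      6 * S + 4 * (Fintype.card α : ℝ) * ((Gᶜ).card : ℝ) := by
  set P := univ.filter (fun q : α × α => (Tset u ∅ q.1 q.2).Nonempty ∧
      θ * ((vcl u {q.1, q.2} \ vcl u ∅).card : ℝ) ≤ ((Tset u ∅ q.1 q.2).card : ℝ)) with hP
  -- the three terms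
  let A : α → α → ℝ := fun x y => if x ∈ G ∧ y ∈ G then
    ((Tset u ∅ x y ∩ G).card : ℝ) / ((SGCountAux.L u x y).card : ℝ) else 0
  let B : α → α → ℝ := fun x y => if (Tset u ∅ x y).Nonempty then
    ((SGCountAux.L u x y \ G).card : ℝ) / ((SGCountAux.L u x y).card : ℝ) else 0
  let C : α → α → ℝ := fun x y => if x ∈ G ∧ y ∈ G then (0 : ℝ) else 1
  have hA0 : ∀ x y, 0 ≤ A x y := by
    intro x y
    simp only [A]
    split_ifs
    · positivity
    · exact le_rfl
  have hB0 : ∀ x y, 0 ≤ B x y := by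
    intro x y
    simp only [B]
    split_ifs
    · positivity
    · exact le_rfl
  have hC0 : ∀ x y, 0 ≤ C x y := by
    intro x y
    simp only [C]
    split_ifs
    · exact le_rfl
    · exact zero_le_one
  have hpt : ∀ q ∈ P, θ ≤ A q.1 q.2 + B q.1 q.2 + C q.1 q.2 := by
    intro q hq
    rw [hP, mem_filter] at hq
    obtain ⟨-, hT, hθ⟩ := hq
    have hLT : Tset u ∅ q.1 q.2 ⊆ SGCountAux.L u q.1 q.2 := SGCountAux.T_subset_L u q.1 q.2
    have hLpos : (0 : ℝ) < ((SGCountAux.L u q.1 q.2).card : ℝ) := by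
      exact_mod_cast card_pos.2 (hT.mono hLT)
    have hθ2 : θ ≤ ((Tset u ∅ q.1 q.2).card : ℝ) / ((SGCountAux.L u q.1 q.2).card : ℝ) := by
      rw [le_div_iff₀ hLpos]
      exact hθ
    by_cases hG : q.1 ∈ G ∧ q.2 ∈ G
    · have eA : A q.1 q.2 = ((Tset u ∅ q.1 q.2 ∩ G).card : ℝ) /
          ((SGCountAux.L u q.1 q.2).card : ℝ) := by
        simp only [A]
        rw [if_pos hG]
      have eB : B q.1 q.2 = ((SGCountAux.L u q.1 q.2 \ G).card : ℝ) /
          ((SGCountAux.L u q.1 q.2).card : ℝ) := by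
        simp only [B]
        rw [if_pos hT]
      rw [eA, eB]
      have hcard : (Tset u ∅ q.1 q.2).card ≤ (Tset u ∅ q.1 q.2 ∩ G).card +
          (SGCountAux.L u q.1 q.2 \ G).card := by
        have h1 := card_inter_add_card_sdiff (Tset u ∅ q.1 q.2) G
        have h2 := card_le_card (sdiff_subset_sdiff hLT (Subset.refl G))
        omega
      have hcard' : ((Tset u ∅ q.1 q.2).card : ℝ) ≤ ((Tset u ∅ q.1 q.2 ∩ G).card : ℝ) +
          ((SGCountAux.L u q.1 q.2 \ G).card : ℝ) := by exact_mod_cast hcard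
      calc θ ≤ ((Tset u ∅ q.1 q.2).card : ℝ) / ((SGCountAux.L u q.1 q.2).card : ℝ) := hθ2
        _ ≤ (((Tset u ∅ q.1 q.2 ∩ G).card : ℝ) + ((SGCountAux.L u q.1 q.2 \ G).card : ℝ)) /
            ((SGCountAux.L u q.1 q.2).card : ℝ) := div_le_div_of_nonneg_right hcard' hLpos.le
        _ = ((Tset u ∅ q.1 q.2 ∩ G).card : ℝ) / ((SGCountAux.L u q.1 q.2).card : ℝ) +
            ((SGCountAux.L u q.1 q.2 \ G).card : ℝ) / ((SGCountAux.L u q.1 q.2).card : ℝ) :=
            add_div _ _ _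
        _ ≤ _ := le_add_of_nonneg_right (hC0 _ _)
    · have eC : C q.1 q.2 = 1 := by
        simp only [C]
        rw [if_neg hG]
      have h1 : ((Tset u ∅ q.1 q.2).card : ℝ) / ((SGCountAux.L u q.1 q.2).card : ℝ) ≤ 1 := by
        rw [div_le_one hLpos]
        exact_mod_cast card_le_card hLT
      have := hA0 q.1 q.2
      have := hB0 q.1 q.2
      rw [eC]
      linarith
  have hsum : θ * (P.card : ℝ) ≤ ∑ x : α, ∑ y : α, (A x y + B x y + C x y) := by
    calc θ * (P.card : ℝ) = ∑ _q ∈ P, θ := by rw [sum_const, nsmul_eq_mul, mul_comm]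
      _ ≤ ∑ q ∈ P, (A q.1 q.2 + B q.1 q.2 + C q.1 q.2) := sum_le_sum hpt
      _ ≤ ∑ q : α × α, (A q.1 q.2 + B q.1 q.2 + C q.1 q.2) := by
        apply sum_le_sum_of_subset_of_nonneg (subset_univ _)
        intro q _ _
        have := hA0 q.1 q.2
        have := hB0 q.1 q.2
        have := hC0 q.1 q.2
        linarith
      _ = ∑ x : α, ∑ y : α, (A x y + B x y + C x y) :=
        Fintype.sum_prod_type' (fun x y => A x y + B x y + C x y)
  have eA : ∑ x : α, ∑ y : α, A x y =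
      ∑ x ∈ G, ∑ y ∈ G, ((Tset u ∅ x y ∩ G).card : ℝ) / ((SGCountAux.L u x y).card : ℝ) := by
    have e1 : ∀ x : α, ∑ y : α, A x y = if x ∈ G then
        ∑ y ∈ G, ((Tset u ∅ x y ∩ G).card : ℝ) / ((SGCountAux.L u x y).card : ℝ) else 0 := by
      intro x
      by_cases hx : x ∈ G
      · simp only [A, hx, true_and, if_true]
        rw [← sum_filter, filter_mem_eq_inter, univ_inter]
      · simp [A, hx]
    simp only [e1]
    rw [← sum_filter, filter_mem_eq_inter, univ_inter]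
  have h1 := SGCountAux.part1 u G κ S hκ0 hS h3
  have h2 := SGCountAux.part2 u G
  have h3' := SGCountAux.part3 G
  have hsplit : ∑ x : α, ∑ y : α, (A x y + B x y + C x y) =
      ∑ x : α, ∑ y : α, A x y + ∑ x : α, ∑ y : α, B x y + ∑ x : α, ∑ y : α, C x y := by
    simp only [sum_add_distrib]
  rw [hsplit, eA] at hsum
  have h2' : ∑ x : α, ∑ y : α, B x y ≤ 2 * (Fintype.card α : ℝ) * ((Gᶜ).card : ℝ) := h2
  have h3'' : ∑ x : α, ∑ y : α, C x y ≤ 2 * (Fintype.card α : ℝ) * ((Gᶜ).card : ℝ) := h3'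
  linarith

end Pool.Agent.Lib.P0fc
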