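import Mathlib
import Pool.Agent.Lib.P0fc.Facts

/-!
# Generic projections

`dm u S = S.card` says that the `u x`, `x ∈ S`, are linearly independent.  WLOG replace `E` by the
finite dimensional space `F = span (range u)` (a linear map on a subspace extends to `E`:
`LinearMap.exists_extend`).  Induction on `dim F - k`.  If `dim F = k` take a linear equivalence
`F ≃ (Fin k → ℝ)`.  If `dim F > k`: for every `S` with `S.card ≤ k` the subspace `span u(S)` is not
`F`, and a vector space over the infinite field `ℝ` is not a finite union of proper subspaces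
(`Subspace.biUnion_ne_univ_of_top_notMem` in `Mathlib/GroupTheory/CosetCover.lean`; search for the
exact name), so there is `w ∈ F` outside all these subspaces; `w ≠ 0` (`S = ∅`).  In the quotient
`F ⧸ span {w}` (dimension `dim F - 1`) the classes of the `u x`, `x ∈ S`, are still independent when
`S.card ≤ k` and `dm u S = S.card`, because `span u(S) ⊓ span {w} = ⊥`; the classes of all `u x`
still span.  Use the induction hypothesis for the quotient.
A convenient form for the induction: for every `m` and every `u : α → E` with `dm u univ = k + m`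
there is `π` with the property.
-/

namespace Pool.Agent.Lib.P0fc

open Finset Pool.Agent.Lib.P0fb

namespace GenProjAux

variable {α : Type} [Fintype α] [DecidableEq α]

theorem span_comp {E E' : Type} [AddCommGroup E] [Module ℝ E] [AddCommGroup E'] [Module ℝ E']
    (f : E →ₗ[ℝ] E') (u : α → E) (S : Finset α) :
    Submodule.span ℝ ((fun x => f (u x)) '' (S : Set α)) =
      (Submodule.span ℝ (u '' (S : Set α))).map f := by
  rw [Submodule.map_span, ← Set.image_comp]
  rfl

theorem dm_comp {E E' : Type} [AddCommGroup E] [Module ℝ E] [AddCommGroup E'] [Module ℝ E']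
    (f : E →ₗ[ℝ] E') (u : α → E) (S : Finset α)
    (h : Disjoint (Submodule.span ℝ (u '' (S : Set α))) (LinearMap.ker f)) :
    dm (fun x => f (u x)) S = dm u S := by
  have := finrank_fin u S
  unfold dm
  rw [span_comp, ← LinearMap.range_domRestrict]
  exact LinearMap.finrank_range_of_inj (LinearMap.injective_domRestrict_iff.mpr h)

theorem aux (k m : ℕ) : ∀ (E : Type) [AddCommGroup E] [Module ℝ E] (u : α → E),
    dm u univ = k + m →
    ∃ π : E →ₗ[ℝ] (Fin k → ℝ), ∀ S : Finset α, S.card ≤ k → dm u S = S.card →
      dm (fun x => π (u x)) S = S.card := by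
  induction m with
  | zero =>
    intro E _ _ u h
    have hfin := finrank_fin u univ
    have hF : Module.finrank ℝ (Submodule.span ℝ (u '' ((univ : Finset α) : Set α))) =
        Module.finrank ℝ (Fin k → ℝ) := by
      rw [Module.finrank_fin_fun]
      exact h
    let e := LinearEquiv.ofFinrankEq _ _ hF
    obtain ⟨π, hπ⟩ := LinearMap.exists_extend e.toLinearMap
    refine ⟨π, fun S _ hS => ?_⟩
    rw [dm_comp π u S ?_, hS]
    rw [Submodule.disjoint_def]
    intro z hz hk
    have hzF : z ∈ Submodule.span ℝ (u '' ((univ : Finset α) : Set α)) :=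
      Submodule.span_mono (Set.image_mono (coe_subset.2 (subset_univ S))) hz
    have h1 : π z = e ⟨z, hzF⟩ := by
      have := LinearMap.congr_fun hπ ⟨z, hzF⟩
      simpa using! this
    rw [LinearMap.mem_ker, h1] at hk
    have h2 := (LinearEquiv.map_eq_zero_iff e).1 hk
    simpa using congrArg Subtype.val h2
  | succ m ih =>
    intro E _ _ u h
    classical
    have hfin := finrank_fin u univ
    set F := Submodule.span ℝ (u '' ((univ : Finset α) : Set α)) with hFdef
    have hfF : Module.finrank ℝ F = k + (m + 1) := h
    let T : Finset (Subspace ℝ F) := ((univ : Finset α).powerset.filter (fun S => S.card ≤ k)).image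
      (fun S : Finset α => (Submodule.span ℝ (u '' (S : Set α))).comap F.subtype)
    have hT : ⊤ ∉ T := by
      intro hT
      rw [mem_image] at hT
      obtain ⟨S, hS, hS2⟩ := hT
      rw [mem_filter] at hS
      have h1 : F ≤ Submodule.span ℝ (u '' (S : Set α)) := by
        intro z hz
        have : (⟨z, hz⟩ : F) ∈ (Submodule.span ℝ (u '' (S : Set α))).comap F.subtype := by
          rw [hS2]
          exact Submodule.mem_top
        simpa using this
      have := finrank_fin u S
      have h2 := Submodule.finrank_mono h1
      have h3 := dm_le_card u S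
      unfold dm at h3
      omega
    have hne := Subspace.biUnion_ne_univ_of_top_notMem hT
    obtain ⟨w, hw⟩ := (Set.ne_univ_iff_exists_notMem _).1 hne
    have hw' : ∀ S : Finset α, S.card ≤ k → (w : E) ∉ Submodule.span ℝ (u '' (S : Set α)) := by
      intro S hS hc
      apply hw
      rw [Set.mem_iUnion₂]
      refine ⟨(Submodule.span ℝ (u '' (S : Set α))).comap F.subtype, ?_, ?_⟩
      · exact mem_image.2 ⟨S, mem_filter.2 ⟨mem_powerset.2 (subset_univ S), hS⟩, rfl⟩
      · exact hc
    have hw0 : (w : E) ≠ 0 := by
      intro h0
      apply hw' ∅ (by simp)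
      rw [h0]
      exact Submodule.zero_mem _
    let q : E →ₗ[ℝ] (E ⧸ Submodule.span ℝ {(w : E)}) := (Submodule.span ℝ {(w : E)}).mkQ
    have hq : LinearMap.ker q = Submodule.span ℝ {(w : E)} := Submodule.ker_mkQ _
    have hwF : Submodule.span ℝ {(w : E)} ≤ F := by
      rw [Submodule.span_le, Set.singleton_subset_iff]
      exact w.2
    have hdim : dm (fun x => q (u x)) univ = k + m := by
      unfold dm
      rw [span_comp, ← LinearMap.range_domRestrict]
      have h1 := LinearMap.finrank_range_add_finrank_ker (q.domRestrict F)
      have h2 : LinearMap.ker (q.domRestrict F) = (Submodule.span ℝ {(w : E)}).comap F.subtype := by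
        ext z
        rw [LinearMap.mem_ker, LinearMap.domRestrict_apply, ← LinearMap.mem_ker, hq]
        rfl
      have h3 : Module.finrank ℝ ((Submodule.span ℝ {(w : E)}).comap F.subtype) = 1 := by
        rw [(Submodule.comapSubtypeEquivOfLe hwF).finrank_eq, finrank_span_singleton hw0]
      rw [h2, h3, hfF] at h1
      have h4 : Module.finrank ℝ (LinearMap.range (q.domRestrict F)) = k + m := by omega
      exact h4
    obtain ⟨π, hπ⟩ := ih (E ⧸ Submodule.span ℝ {(w : E)}) (fun x => q (u x)) hdim
    refine ⟨π ∘ₗ q, fun S hS hS2 => ?_⟩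
    have h1 : dm (fun x => q (u x)) S = S.card := by
      rw [dm_comp q u S ?_, hS2]
      rw [hq, Submodule.disjoint_def]
      intro z hz hz2
      obtain ⟨a, rfl⟩ := Submodule.mem_span_singleton.1 hz2
      by_contra hne
      have ha : a ≠ 0 := fun h0 => hne (by rw [h0, zero_smul])
      apply hw' S hS
      have := Submodule.smul_mem _ a⁻¹ hz
      rwa [smul_smul, inv_mul_cancel₀ ha, one_smul] at this
    exact hπ S hS h1

end GenProjAux

theorem exists_proj {α : Type} [Fintype α] [DecidableEq α] {E : Type} [AddCommGroup E] [Module ℝ E]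
    (u : α → E) (k : ℕ) (hk : k ≤ dm u univ) :
    ∃ π : E →ₗ[ℝ] (Fin k → ℝ), ∀ S : Finset α, S.card ≤ k → dm u S = S.card →
      dm (fun x => π (u x)) S = S.card :=
  GenProjAux.aux k (dm u univ - k) E u (by omega)

end Pool.Agent.Lib.P0fc
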