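import Mathlib
import Pool.Agent.Lib.P0fc.GenProj

/-!
# Projection to `ℝ^k` and a family of bases

Put `k = min j (dm u univ)`, `π` from `exists_proj`, `p x = π (u x)`.
* For `ω : Fin j → α` let `I₀ ω` be the set of the `ω i` with `ω i ∉ vcl u {ω m | m < i}`.  Its elements
  are linearly independent: adding the `ω i` one by one (`dm_insert_of_notMem`), so
  `dm u (I₀ ω) = (I₀ ω).card`; hence `(I₀ ω).card ≤ dm u univ`, and `(I₀ ω).card ≤ j`, so
  `(I₀ ω).card ≤ k` and `dm p (I₀ ω) = (I₀ ω).card`.  Note `vcl u (I₀ ω) = vcl u (univ.image ω)`, not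
  needed.
* `dm p univ = k`: by `exists_over` (with `W = ∅`, `G = univ`) there is `P` with
  `P.card = dm u univ`, `dm u P = P.card`; a subset `S ⊆ P` with `S.card = k` has `dm u S = S.card`
  (subsets of independent sets), so `dm p S = k`.  (`dm p univ ≤ k` because `p` has values in
  `Fin k → ℝ`.)  Extend `I₀ ω` to `I ω` with `dm p (I ω) = (I ω).card = k` (`exists_over` for `p` with
  `W = I₀ ω`, `G = univ`: `P.card = k - |I₀ ω|` and `vcl p (I₀ ω ∪ P) = vcl p univ`, so
  `dm p (I₀ ω ∪ P) = k`; `|I₀ ω ∪ P| ≤ k` and `dm ≤ card` give `card = k`).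
* `p x ≠ 0` if `x ∉ vcl u ∅` and `1 ≤ j`: then `dm u {x} = 1`, so `1 ≤ k` and `dm p {x} = 1`.
* `g ∈ vcl u {x, y}` implies `g ∈ vcl p {x, y}` (linear map).
* The last property: `#{ω | x ∈ I ω} ≥ #{ω | x ∈ I₀ ω} = ∑_i #{ω | ω i = x ∧ x ∉ vcl u {ω m | m < i}}`
  (the events for different `i` are disjoint: if `i < i'`, `ω i = x` then `x = ω i' ∈ vcl u {ω m | m < i'}`).
  For fixed `i` the second condition does not depend on `ω i`, so
  `N * #{ω | ω i = x ∧ x ∉ vcl u {ω m | m < i}} = #{ω | x ∉ vcl u {ω m | m < i}} ≥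
  #{ω | x ∉ vcl u (univ.image ω)}` (bijection `ω ↦ (Function.update ω i x, ω i)`; `N = |α|`).
-/

namespace Pool.Agent.Lib.P0fc

open Finset Pool.Agent.Lib.P0fb

namespace WeightsAux

section

variable {α : Type} [Fintype α] [DecidableEq α] {E : Type} [AddCommGroup E] [Module ℝ E]

/-- the elements before time `t` -/
noncomputable def Af {j : ℕ} (ω : Fin j → α) (t : ℕ) : Finset α :=
  (univ.filter (fun m : Fin j => m.val < t)).image ω

/-- the greedy independent set before time `t` -/
noncomputable def Jf (u : α → E) {j : ℕ} (ω : Fin j → α) (t : ℕ) : Finset α :=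
  (univ.filter (fun i : Fin j => i.val < t ∧ ω i ∉ vcl u (Af ω i.val))).image ω

theorem dm_empty (u : α → E) : dm u (∅ : Finset α) = 0 :=
  Nat.le_zero.1 ((dm_le_card u ∅).trans (by simp))

theorem Jf_spec (u : α → E) {j : ℕ} (ω : Fin j → α) :
    ∀ t ≤ j, dm u (Jf u ω t) = (Jf u ω t).card ∧ vcl u (Jf u ω t) = vcl u (Af ω t) := by
  intro t
  induction t with
  | zero =>
    intro _
    have h1 : Jf u ω 0 = ∅ := by
      unfold Jf
      simp
    have h2 : Af ω 0 = ∅ := by
      unfold Af
      simp
    rw [h1, h2, dm_empty]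
    simp
  | succ t ih =>
    intro ht
    obtain ⟨ih1, ih2⟩ := ih (by omega)
    set i₀ : Fin j := ⟨t, by omega⟩ with hi₀
    have hA : Af ω (t + 1) = insert (ω i₀) (Af ω t) := by
      unfold Af
      rw [← image_insert]
      congr 1
      ext m
      simp only [mem_filter, mem_univ, true_and, mem_insert]
      constructor
      · intro h
        rcases Nat.lt_succ_iff_lt_or_eq.1 h with h | h
        · exact Or.inr h
        · exact Or.inl (Fin.ext h)
      · rintro (h | h)
        · rw [h]
          exact Nat.lt_succ_self _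
        · omega
    by_cases hx : ω i₀ ∈ vcl u (Af ω t)
    · have hJ : Jf u ω (t + 1) = Jf u ω t := by
        unfold Jf
        congr 1
        ext m
        simp only [mem_filter, mem_univ, true_and]
        constructor
        · rintro ⟨h, h'⟩
          refine ⟨?_, h'⟩
          rcases Nat.lt_succ_iff_lt_or_eq.1 h with h | h
          · exact h
          · exfalso
            have hm : m = i₀ := Fin.ext h
            subst hm
            exact h' hx
        · rintro ⟨h, h'⟩
          exact ⟨by omega, h'⟩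
      rw [hJ, hA, vcl_insert_of_mem hx]
      exact ⟨ih1, ih2⟩
    · have hJ : Jf u ω (t + 1) = insert (ω i₀) (Jf u ω t) := by
        unfold Jf
        rw [← image_insert]
        congr 1
        ext m
        simp only [mem_filter, mem_univ, true_and, mem_insert]
        constructor
        · rintro ⟨h, h'⟩
          rcases Nat.lt_succ_iff_lt_or_eq.1 h with h | h
          · exact Or.inr ⟨h, h'⟩
          · exact Or.inl (Fin.ext h)
        · rintro (h | ⟨h, h'⟩)
          · rw [h]
            exact ⟨Nat.lt_succ_self _, hx⟩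
          · exact ⟨by omega, h'⟩
      have hx' : ω i₀ ∉ vcl u (Jf u ω t) := by
        rw [ih2]
        exact hx
      have hx'' : ω i₀ ∉ Jf u ω t := fun h => hx' (subset_vcl u _ h)
      rw [hJ, hA, dm_insert_of_notMem hx', card_insert_of_notMem hx'', ih1]
      refine ⟨rfl, ?_⟩
      rw [← vcl_insert_vcl u (Jf u ω t), ih2, vcl_insert_vcl]

theorem dm_sub {u : α → E} {P S : Finset α} (h : S ⊆ P) (hP : dm u P = P.card) :
    dm u S = S.card := by
  have h1 := dm_union_le u S (P \ S)
  rw [union_sdiff_of_subset h, hP, card_sdiff_of_subset h] at h1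
  have h2 := dm_le_card u S
  have h3 := card_le_card h
  omega

theorem card_ineq (u : α → E) {j : ℕ} (x : α) (i : Fin j) :
    (univ.filter (fun ω : Fin j → α => x ∉ vcl u (univ.image ω))).card ≤
      (univ.filter (fun ω : Fin j → α => ω i = x ∧ x ∉ vcl u (Af ω i.val))).card *
        Fintype.card α := by
  classical
  rw [← Finset.card_univ (α := α), ← card_product]
  refine card_le_card_of_injOn (fun ω => (Function.update ω i x, ω i)) ?_ ?_
  · intro ω hω
    rw [mem_coe, mem_filter] at hω
    rw [mem_coe, mem_product, mem_filter]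
    refine ⟨⟨mem_univ _, Function.update_self _ _ _, ?_⟩, mem_univ _⟩
    have h1 : Af (Function.update ω i x) i.val = Af ω i.val := by
      unfold Af
      refine image_congr ?_
      intro m hm
      rw [mem_coe, mem_filter] at hm
      have hne : m ≠ i := by
        rintro rfl
        exact lt_irrefl _ hm.2
      exact Function.update_of_ne hne _ _
    rw [h1]
    refine fun hc => hω.2 (vcl_mono ?_ hc)
    unfold Af
    exact image_subset_image (filter_subset _ _)
  · intro ω _ ω' _ h
    simp only [Prod.mk.injEq] at h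
    obtain ⟨h1, h2⟩ := h
    funext m
    by_cases hm : m = i
    · rw [hm]
      exact h2
    · have := congrFun h1 m
      rwa [Function.update_of_ne hm, Function.update_of_ne hm] at this

theorem sum_ineq (u : α → E) {j : ℕ} (x : α) :
    ∑ i : Fin j, (univ.filter (fun ω : Fin j → α => ω i = x ∧ x ∉ vcl u (Af ω i.val))).card ≤
      (univ.filter (fun ω : Fin j → α => x ∈ Jf u ω j)).card := by
  classical
  rw [← card_biUnion]
  · refine card_le_card ?_
    intro ω hω
    rw [mem_biUnion] at hω
    obtain ⟨i, _, hi⟩ := hω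
    rw [mem_filter] at hi ⊢
    refine ⟨mem_univ _, ?_⟩
    unfold Jf
    rw [mem_image]
    refine ⟨i, ?_, hi.2.1⟩
    rw [mem_filter]
    refine ⟨mem_univ _, i.isLt, ?_⟩
    rw [hi.2.1]
    exact hi.2.2
  · intro i _ i' _ hne
    rw [Function.onFun, disjoint_left]
    intro ω h h'
    rw [mem_filter] at h h'
    rcases lt_or_gt_of_ne hne with hlt | hlt
    · apply h'.2.2
      refine subset_vcl u _ ?_
      unfold Af
      rw [mem_image]
      exact ⟨i, by rw [mem_filter]; exact ⟨mem_univ _, hlt⟩, h.2.1⟩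
    · apply h.2.2
      refine subset_vcl u _ ?_
      unfold Af
      rw [mem_image]
      exact ⟨i', by rw [mem_filter]; exact ⟨mem_univ _, hlt⟩, h'.2.1⟩

end

end WeightsAux

open WeightsAux

open Classical in
theorem exists_weights {α : Type} [Fintype α] [DecidableEq α] {E : Type} [AddCommGroup E]
    [Module ℝ E] (u : α → E) (j : ℕ) :
    ∃ (k : ℕ) (p : α → (Fin k → ℝ)) (I : (Fin j → α) → Finset α), k ≤ j ∧
      (∀ ω, (I ω).card = k ∧ dm p (I ω) = k) ∧
      (∀ x, x ∉ vcl u ∅ → 1 ≤ j → p x ≠ 0) ∧
      (∀ x y g, g ∈ vcl u {x, y} → g ∈ vcl p {x, y}) ∧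
      (∀ x, (j : ℝ) * ((univ.filter (fun ω : Fin j → α => x ∉ vcl u (univ.image ω))).card : ℝ) ≤
        (Fintype.card α : ℝ) * ((univ.filter (fun ω : Fin j → α => x ∈ I ω)).card : ℝ)) := by
  classical
  obtain ⟨k, hk⟩ : ∃ k, k = min j (dm u univ) := ⟨_, rfl⟩
  have hkj : k ≤ j := hk.le.trans (min_le_left _ _)
  have hkd : k ≤ dm u univ := hk.le.trans (min_le_right _ _)
  have hkmin : ∀ m, m ≤ j → m ≤ dm u univ → m ≤ k := fun m h1 h2 => (le_min h1 h2).trans hk.ge
  clear hk
  obtain ⟨π, hπ0⟩ := exists_proj u k hkd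
  obtain ⟨p, hp⟩ : ∃ p : α → (Fin k → ℝ), p = fun x => π (u x) := ⟨_, rfl⟩
  have hπ : ∀ S : Finset α, S.card ≤ k → dm u S = S.card → dm p S = S.card := by
    rw [hp]
    exact hπ0
  clear hπ0
  have hup : dm p univ ≤ k := by
    unfold dm
    refine (Submodule.finrank_le _).trans ?_
    rw [Module.finrank_fin_fun]
  have hlow : k ≤ dm p univ := by
    obtain ⟨P, _, hPc, hPv⟩ := exists_over u (W := ∅) (G := univ) (empty_subset _)
    rw [dm_empty, add_zero] at hPc
    rw [empty_union] at hPv
    have hPd : dm u P = P.card := by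
      rw [← dm_vcl u P, hPv, dm_vcl, hPc]
    obtain ⟨S, hSP, hSc⟩ := exists_subset_card_eq (s := P) (n := k) (by rw [hPc]; exact hkd)
    have hS := hπ S hSc.le (dm_sub hSP hPd)
    exact (hSc.symm.le.trans hS.symm.le).trans (dm_mono (subset_univ _))
  have hdp : dm p univ = k := le_antisymm hup hlow
  have hJ : ∀ ω : Fin j → α, dm u (Jf u ω j) = (Jf u ω j).card := fun ω => (Jf_spec u ω j le_rfl).1
  have hJk : ∀ ω : Fin j → α, (Jf u ω j).card ≤ k := by
    intro ω
    refine hkmin _ ?_ ?_
    · unfold Jf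
      refine card_image_le.trans ?_
      refine (card_le_univ _).trans ?_
      rw [Fintype.card_fin]
    · rw [← hJ]
      exact dm_mono (subset_univ _)
  have hJp : ∀ ω : Fin j → α, dm p (Jf u ω j) = (Jf u ω j).card := fun ω => hπ _ (hJk ω) (hJ ω)
  have hex : ∀ ω : Fin j → α, ∃ I : Finset α, Jf u ω j ⊆ I ∧ I.card = k ∧ dm p I = k := by
    intro ω
    obtain ⟨P, _, hPc, hPv⟩ := exists_over p (W := Jf u ω j) (G := univ) (subset_univ _)
    have h1 : dm p (Jf u ω j ∪ P) = k := by
      rw [← dm_vcl, hPv, dm_vcl, hdp]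
    have h2 := dm_le_card p (Jf u ω j ∪ P)
    have h3 := card_union_le (Jf u ω j) P
    have h4 := hJp ω
    exact ⟨Jf u ω j ∪ P, subset_union_left, by omega, h1⟩
  choose I hI1 hI2 hI3 using hex
  refine ⟨k, p, I, hkj, fun ω => ⟨hI2 ω, hI3 ω⟩, ?_, ?_, ?_⟩
  · intro x hx hj h0
    have h1 : dm u {x} = 1 := by
      have := dm_insert_of_notMem hx
      rw [dm_empty, zero_add] at this
      simpa using this
    have h2 : 1 ≤ dm u univ := by
      rw [← h1]
      exact dm_mono (subset_univ _)
    have h3 : 1 ≤ k := hkmin 1 hj h2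
    have h4 : dm p {x} = 1 := by
      have := hπ {x} (by rw [card_singleton]; exact h3) (by rw [card_singleton]; exact h1)
      rw [card_singleton] at this
      exact this
    unfold dm at h4
    rw [coe_singleton, Set.image_singleton, h0, Submodule.span_zero_singleton, finrank_bot] at h4
    exact absurd h4 (by norm_num)
  · intro x y g hg
    rw [mem_vcl] at hg ⊢
    have h1 : π (u g) ∈ Submodule.map π (Submodule.span ℝ (u '' (({x, y} : Finset α) : Set α))) :=
      Submodule.mem_map_of_mem hg
    rw [Submodule.map_span, ← Set.image_comp] at h1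
    rw [hp]
    exact h1
  · intro x
    have h1 : (univ.filter (fun ω : Fin j → α => x ∈ Jf u ω j)).card ≤
        (univ.filter (fun ω : Fin j → α => x ∈ I ω)).card := by
      refine card_le_card ?_
      intro ω hω
      rw [mem_filter] at hω ⊢
      exact ⟨mem_univ _, hI1 ω hω.2⟩
    have h2 : j * (univ.filter (fun ω : Fin j → α => x ∉ vcl u (univ.image ω))).card ≤
        Fintype.card α * (univ.filter (fun ω : Fin j → α => x ∈ I ω)).card := by
      calc j * (univ.filter (fun ω : Fin j → α => x ∉ vcl u (univ.image ω))).card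
          = ∑ _i : Fin j, (univ.filter (fun ω : Fin j → α => x ∉ vcl u (univ.image ω))).card := by
            rw [sum_const, card_univ, Fintype.card_fin, smul_eq_mul]
        _ ≤ ∑ i : Fin j, (univ.filter (fun ω : Fin j → α => ω i = x ∧
              x ∉ vcl u (Af ω i.val))).card * Fintype.card α :=
            sum_le_sum (fun i _ => card_ineq u x i)
        _ = Fintype.card α * ∑ i : Fin j, (univ.filter (fun ω : Fin j → α => ω i = x ∧
              x ∉ vcl u (Af ω i.val))).card := by
            rw [← sum_mul, mul_comm]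
        _ ≤ _ := Nat.mul_le_mul_left _ ((sum_ineq u x).trans h1)
    exact_mod_cast h2

end Pool.Agent.Lib.P0fc
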