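import Mathlib
import Pool.Agent.Lib.P0fc.Quot
import Pool.Agent.Lib.P0fc.Weights
import Pool.Agent.Lib.P0fc.Minim
import Pool.Agent.Lib.P0fc.Kern
import Pool.Agent.Lib.P0fc.SGCount

/-!
# The robust Sylvester-Gallai lemma

By `exists_quot` it is enough to treat `W = ∅` (`insert x (insert y W) = W ∪ {x, y}` etc.; `Tset` and
the line transfer because they are defined by `vcl`).  `N = |α|`.  WLOG `N > 0`.
Choose `j ≥ 1` with `96/j ≤ η θ/2` and `θ' = η θ/16`.
Let `k, p, I` be from `exists_weights u j`, `a x = #{ω | x ∈ I ω}/N^j`, `π x = #{ω | x ∉ vcl u (image ω)}/N^j`,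
so `a x ≥ (j/N) π x`.  `G = {x | 1/2 ≤ π x}`.  By double counting
`∑_x (1 - π x) = N^(-j) ∑_ω |vcl u (image ω)| ≤ θ' N` (`(univ.image ω).card ≤ j`), so `|Gᶜ| ≤ 2 θ' N`.
For `x ∈ G`: `x ∉ vcl u ∅` (some `ω` with `x ∉ vcl u (image ω)`), `p x ≠ 0`, `a x ≥ j/(2N)`.  Take `t` from
`exists_pos` with `Ω = Fin j → α` (nonempty), `τ = j/(4N)`: `KK p t x x ≥ j/(4N)` for `x ∈ G` (`KK_self`).
`κ x y = KK p t x y ^ 2/(KK p t x x * KK p t y y)`; `∑_{x,y ∈ G} κ x y ≤ (16 N²/j²) ∑ KK² = 16 N² k/j² ≤ 16 N²/j =: S`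
(`KK_sum`, `k ≤ j`).  `h3` of `sg_count` is `KK_three` (the `p x ≠ 0` by `exists_weights`, `g ∈ vcl u {x,y} →
g ∈ vcl p {x,y}`).  So `θ * # ≤ 96 N²/j + 8 θ' N² ≤ η θ N²`.
-/

namespace Pool.Agent.Lib.P0fc

open Finset Pool.Agent.Lib.P0fb

open Classical in
/-- the rich pairs over `W` -/
noncomputable def rich {α : Type} [Fintype α] [DecidableEq α] {E : Type} [AddCommGroup E]
    [Module ℝ E] (v : α → E) (θ : ℝ) (W : Finset α) : Finset (α × α) :=
  univ.filter (fun q : α × α => (Tset v W q.1 q.2).Nonempty ∧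
    θ * ((vcl v (insert q.1 (insert q.2 W)) \ vcl v W).card : ℝ) ≤ ((Tset v W q.1 q.2).card : ℝ))

namespace SGAux

section

variable {α : Type} [Fintype α] [DecidableEq α] {E : Type} [AddCommGroup E] [Module ℝ E]

theorem Tset_eq {Q : Type} [AddCommGroup Q] [Module ℝ Q] {v : α → E} {W : Finset α} {u : α → Q}
    (h : ∀ P : Finset α, vcl u P = vcl v (W ∪ P)) (x y : α) :
    Tset u ∅ x y = Tset v W x y := by
  unfold Tset
  rw [h, h, h]
  have h1 : W ∪ insert x (insert y ∅) = insert x (insert y W) := by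
    ext z
    simp only [mem_union, mem_insert, notMem_empty, or_false]
    tauto
  have h2 : ∀ x : α, W ∪ insert x ∅ = insert x W := by
    intro x
    ext z
    simp only [mem_union, mem_insert, notMem_empty, or_false]
    tauto
  rw [h1, h2, h2]

theorem line_eq {Q : Type} [AddCommGroup Q] [Module ℝ Q] {v : α → E} {W : Finset α} {u : α → Q}
    (h : ∀ P : Finset α, vcl u P = vcl v (W ∪ P)) (x y : α) :
    vcl u {x, y} \ vcl u ∅ = vcl v (insert x (insert y W)) \ vcl v W := by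
  rw [h, h]
  have h1 : W ∪ {x, y} = insert x (insert y W) := by
    ext z
    simp only [mem_union, mem_insert, mem_singleton]
    tauto
  rw [h1, union_empty]

/-- double counting: few elements lie in many of the sets `C ω` -/
theorem few {Ω : Type} [Fintype Ω] (C : Ω → Finset α) (G : Finset α)
    (A : α → ℝ) (b : ℝ) (hb : ∀ ω, ((C ω).card : ℝ) ≤ b)
    (hA : ∀ x, A x = ((univ.filter (fun ω => x ∉ C ω)).card : ℝ))
    (hG : ∀ x ∉ G, A x < (Fintype.card Ω : ℝ) / 2) (hΩ : 0 < (Fintype.card Ω : ℝ)) :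
    ((Gᶜ).card : ℝ) ≤ 2 * b := by
  have h1 : ∀ x, ((univ.filter (fun ω => x ∈ C ω)).card : ℝ) = (Fintype.card Ω : ℝ) - A x := by
    intro x
    rw [hA]
    have h := card_filter_add_card_filter_not (s := (univ : Finset Ω)) (fun ω => x ∈ C ω)
    rw [card_univ] at h
    have h' : ((univ.filter (fun ω => x ∈ C ω)).card : ℝ) +
        ((univ.filter (fun ω => ¬ x ∈ C ω)).card : ℝ) = (Fintype.card Ω : ℝ) := by
      exact_mod_cast h
    linarith
  have h2 : ∑ x : α, ((univ.filter (fun ω => x ∈ C ω)).card : ℝ) = ∑ ω : Ω, ((C ω).card : ℝ) := by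
    have := sum_card_bipartiteAbove_eq_sum_card_bipartiteBelow (s := (univ : Finset α))
      (t := (univ : Finset Ω)) (fun x ω => x ∈ C ω)
    unfold bipartiteAbove bipartiteBelow at this
    have h3 : ∀ ω : Ω, univ.filter (fun x => x ∈ C ω) = C ω := by
      intro ω
      ext x
      simp
    simp only [h3] at this
    exact_mod_cast this
  have h3 : ∑ ω : Ω, ((C ω).card : ℝ) ≤ (Fintype.card Ω : ℝ) * b := by
    calc ∑ ω : Ω, ((C ω).card : ℝ) ≤ ∑ _ω : Ω, b := sum_le_sum (fun ω _ => hb ω)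
      _ = _ := by rw [sum_const, card_univ, nsmul_eq_mul]
  have h4 : ((Gᶜ).card : ℝ) * ((Fintype.card Ω : ℝ) / 2) ≤
      ∑ x : α, ((univ.filter (fun ω => x ∈ C ω)).card : ℝ) := by
    calc ((Gᶜ).card : ℝ) * ((Fintype.card Ω : ℝ) / 2)
        = ∑ _x ∈ Gᶜ, (Fintype.card Ω : ℝ) / 2 := by rw [sum_const, nsmul_eq_mul]
      _ ≤ ∑ x ∈ Gᶜ, ((univ.filter (fun ω => x ∈ C ω)).card : ℝ) := by
          refine sum_le_sum (fun x hx => ?_)
          rw [h1]
          have := hG x (mem_compl.1 hx)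
          linarith
      _ ≤ _ := sum_le_sum_of_subset_of_nonneg (subset_univ _) (fun x _ _ => by positivity)
  rw [h2] at h4
  have h5 : ((Gᶜ).card : ℝ) * ((Fintype.card Ω : ℝ) / 2) ≤ (2 * b) * ((Fintype.card Ω : ℝ) / 2) := by
    linarith
  exact le_of_mul_le_mul_right h5 (by positivity)

end

end SGAux

open SGAux

theorem sg (η θ : ℝ) (hη : 0 < η) (hθ : 0 < θ) : ∃ (j : ℕ) (θ' : ℝ), 0 < θ' ∧
    ∀ (α : Type) [Fintype α] [DecidableEq α] (E : Type) [AddCommGroup E] [Module ℝ E]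
      (v : α → E) (W : Finset α),
      (∀ P : Finset α, P.card ≤ j → ((vcl v (W ∪ P)).card : ℝ) ≤ θ' * (Fintype.card α : ℝ)) →
      ((rich v θ W).card : ℝ) ≤ η * (Fintype.card α : ℝ) ^ 2 := by
  classical
  obtain ⟨j₀, hj₀⟩ := exists_nat_gt (192 / (η * θ))
  have hηθ : 0 < η * θ := mul_pos hη hθ
  obtain ⟨j, hj1, hj2⟩ : ∃ j : ℕ, 1 ≤ j ∧ 192 / (η * θ) ≤ (j : ℝ) :=
    ⟨j₀ + 1, by omega, by push_cast; linarith⟩
  have hj0 : (0 : ℝ) < (j : ℝ) := by
    have : (1 : ℝ) ≤ (j : ℝ) := by exact_mod_cast hj1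
    linarith
  refine ⟨j, η * θ / 16, by positivity, ?_⟩
  intro α _ _ E _ _ v W hP
  obtain ⟨Q, _, _, u, hu⟩ := exists_quot v W
  obtain ⟨N, hN⟩ : ∃ N : ℝ, N = (Fintype.card α : ℝ) := ⟨_, rfl⟩
  rw [← hN]
  by_cases hα : Nonempty α
  swap
  · have h1 : (rich v θ W) = ∅ := by
      rw [eq_empty_iff_forall_notMem]
      intro q
      exact absurd ⟨q.1⟩ hα
    rw [h1, card_empty, Nat.cast_zero]
    positivity
  have hN0 : 0 < N := by
    rw [hN]
    exact_mod_cast Fintype.card_pos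
  obtain ⟨k, p, I, hkj, hI, hp0, hp2, hcount⟩ := exists_weights u j
  have hΩ0 : (0 : ℝ) < (Fintype.card (Fin j → α) : ℝ) := by
    exact_mod_cast Fintype.card_pos
  obtain ⟨Z, hZ⟩ : ∃ Z : ℝ, Z = (Fintype.card (Fin j → α) : ℝ) := ⟨_, rfl⟩
  obtain ⟨t, hM, ht⟩ := exists_pos p I hI ((j : ℝ) / (4 * N)) (by positivity)
  obtain ⟨A, hA⟩ : ∃ A : α → ℝ, A = fun x =>
      ((univ.filter (fun ω : Fin j → α => x ∉ vcl u (univ.image ω))).card : ℝ) := ⟨_, rfl⟩
  obtain ⟨G, hG⟩ : ∃ G : Finset α, G = univ.filter (fun x => Z / 2 ≤ A x) := ⟨_, rfl⟩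
  have hGm : ∀ x, x ∈ G ↔ Z / 2 ≤ A x := by
    intro x
    rw [hG, mem_filter]
    exact ⟨fun h => h.2, fun h => ⟨mem_univ _, h⟩⟩
  -- the complement of `G` is small
  have hGc : ((Gᶜ).card : ℝ) ≤ 2 * (η * θ / 16 * N) := by
    refine few (fun ω : Fin j → α => vcl u (univ.image ω)) G A (η * θ / 16 * N) ?_ ?_ ?_ hΩ0
    · intro ω
      have h1 : (univ.image ω).card ≤ j := by
        refine card_image_le.trans ?_
        rw [card_univ, Fintype.card_fin]
      have h2 := hP (univ.image ω) h1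
      rw [← hu, ← hN] at h2
      exact h2
    · intro x
      rw [hA]
    · intro x hx
      rw [hGm, not_le, hZ] at hx
      exact hx
  -- the diagonal of the kernel
  have hdiag : ∀ x ∈ G, (j : ℝ) / (4 * N) ≤ KK p t x x := by
    intro x hx
    rw [hGm] at hx
    have h1 := hcount x
    rw [← hN] at h1
    have h2 := (abs_le.1 (ht x)).1
    rw [KK_self]
    rw [← hZ] at h2
    have hZ0 : 0 < Z := by rw [hZ]; exact hΩ0
    have h3 : (j : ℝ) * (Z / 2) ≤ N * ((univ.filter (fun ω : Fin j → α => x ∈ I ω)).card : ℝ) := by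
      refine le_trans ?_ h1
      refine mul_le_mul_of_nonneg_left ?_ hj0.le
      have := hx
      rw [hA] at this
      exact this
    have h4 : (j : ℝ) / (2 * N) ≤ ((univ.filter (fun ω : Fin j → α => x ∈ I ω)).card : ℝ) / Z := by
      rw [div_le_div_iff₀ (by positivity) hZ0]
      nlinarith
    have h5 : (j : ℝ) / (2 * N) = 2 * ((j : ℝ) / (4 * N)) := by
      field_simp
      norm_num
    linarith
  have hKK0 : ∀ x, 0 ≤ KK p t x x := by
    intro x
    by_cases hx : p x = 0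
    · rw [KK_self, hx]
      simp
    · exact (KK_pos p t hM x hx).le
  obtain ⟨κ, hκ⟩ : ∃ κ : α → α → ℝ, κ = fun x y => KK p t x y ^ 2 / (KK p t x x * KK p t y y) :=
    ⟨_, rfl⟩
  have hκ0 : ∀ x y, 0 ≤ κ x y := by
    intro x y
    rw [hκ]
    exact div_nonneg (sq_nonneg _) (mul_nonneg (hKK0 x) (hKK0 y))
  have hnz : ∀ x ∈ G, x ∉ vcl u ∅ := by
    intro x hx hx'
    rw [hGm] at hx
    have h1 : A x = 0 := by
      rw [hA]
      have : (univ.filter (fun ω : Fin j → α => x ∉ vcl u (univ.image ω))) = ∅ := by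
        rw [filter_eq_empty_iff]
        intro ω _ h
        exact h (vcl_mono (empty_subset _) hx')
      simp only [this, card_empty, Nat.cast_zero]
    rw [h1, hZ] at hx
    linarith
  have hS : ∑ x ∈ G, ∑ y ∈ G, κ x y ≤ 16 * N ^ 2 / j := by
    have h1 : ∀ x ∈ G, ∀ y ∈ G, κ x y ≤ (16 * N ^ 2 / (j : ℝ) ^ 2) * KK p t x y ^ 2 := by
      intro x hx y hy
      rw [hκ]
      have hx1 := hdiag x hx
      have hy1 := hdiag y hy
      have hq : 0 < (j : ℝ) / (4 * N) := by positivity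
      have h2 : ((j : ℝ) / (4 * N)) * ((j : ℝ) / (4 * N)) ≤ KK p t x x * KK p t y y :=
        mul_le_mul hx1 hy1 hq.le (hq.le.trans hx1)
      have h3 : KK p t x y ^ 2 / (KK p t x x * KK p t y y) ≤
          KK p t x y ^ 2 / (((j : ℝ) / (4 * N)) * ((j : ℝ) / (4 * N))) :=
        div_le_div_of_nonneg_left (sq_nonneg _) (by positivity) h2
      refine h3.trans (le_of_eq ?_)
      field_simp
      norm_num
    have h2 : ∑ x ∈ G, ∑ y ∈ G, KK p t x y ^ 2 ≤ (j : ℝ) := by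
      calc ∑ x ∈ G, ∑ y ∈ G, KK p t x y ^ 2
          ≤ ∑ x ∈ G, ∑ y, KK p t x y ^ 2 := by
            refine sum_le_sum (fun x _ => ?_)
            exact sum_le_sum_of_subset_of_nonneg (subset_univ _) (fun y _ _ => sq_nonneg _)
        _ ≤ ∑ x, ∑ y, KK p t x y ^ 2 :=
            sum_le_sum_of_subset_of_nonneg (subset_univ _)
              (fun x _ _ => sum_nonneg (fun y _ => sq_nonneg _))
        _ = (k : ℝ) := KK_sum p t hM
        _ ≤ (j : ℝ) := by exact_mod_cast hkj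
    calc ∑ x ∈ G, ∑ y ∈ G, κ x y
        ≤ ∑ x ∈ G, ∑ y ∈ G, (16 * N ^ 2 / (j : ℝ) ^ 2) * KK p t x y ^ 2 :=
          sum_le_sum (fun x hx => sum_le_sum (fun y hy => h1 x hx y hy))
      _ = (16 * N ^ 2 / (j : ℝ) ^ 2) * ∑ x ∈ G, ∑ y ∈ G, KK p t x y ^ 2 := by
          rw [mul_sum]
          refine sum_congr rfl (fun x _ => ?_)
          rw [mul_sum]
      _ ≤ (16 * N ^ 2 / (j : ℝ) ^ 2) * j := mul_le_mul_of_nonneg_left h2 (by positivity)
      _ = 16 * N ^ 2 / j := by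
          field_simp
  have h3 : ∀ x ∈ G, ∀ y ∈ G, ∀ z ∈ G, x ∉ vcl u ∅ → y ∉ vcl u ∅ → z ∉ vcl u ∅ →
      z ∈ vcl u {x, y} → 1 / 2 ≤ κ x y + κ y z + κ z x := by
    intro x _ y _ z _ hx hy hz hxyz
    rw [hκ]
    exact KK_three p t hM x y z (hp0 x hx hj1) (hp0 y hy hj1) (hp0 z hz hj1) (hp2 x y z hxyz)
  have hmain := sg_count u G κ (16 * N ^ 2 / j) θ hκ0 hS h3
  rw [← hN] at hmain
  have hsub : ((rich v θ W).card : ℝ) ≤ ((univ.filter (fun q : α × α =>
      (Tset u ∅ q.1 q.2).Nonempty ∧ θ * ((vcl u {q.1, q.2} \ vcl u ∅).card : ℝ) ≤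
        ((Tset u ∅ q.1 q.2).card : ℝ))).card : ℝ) := by
    have : (rich v θ W).card ≤ (univ.filter (fun q : α × α =>
      (Tset u ∅ q.1 q.2).Nonempty ∧ θ * ((vcl u {q.1, q.2} \ vcl u ∅).card : ℝ) ≤
        ((Tset u ∅ q.1 q.2).card : ℝ))).card := by
      refine card_le_card ?_
      intro q hq
      unfold rich at hq
      rw [mem_filter] at hq ⊢
      rw [Tset_eq hu, line_eq hu]
      exact hq
    exact_mod_cast this
  have h4 : θ * ((rich v θ W).card : ℝ) ≤ 6 * (16 * N ^ 2 / j) + 4 * N * ((Gᶜ).card : ℝ) :=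
    (mul_le_mul_of_nonneg_left hsub hθ.le).trans hmain
  have h5 : 4 * N * ((Gᶜ).card : ℝ) ≤ 4 * N * (2 * (η * θ / 16 * N)) :=
    mul_le_mul_of_nonneg_left hGc (by positivity)
  have h6 : 6 * (16 * N ^ 2 / j) ≤ (η * θ / 2) * N ^ 2 := by
    have h7 : 192 ≤ (j : ℝ) * (η * θ) := by
      rw [div_le_iff₀ hηθ] at hj2
      exact hj2
    have h8 : 6 * (16 * N ^ 2 / (j : ℝ)) = 96 * N ^ 2 / j := by ring
    rw [h8, div_le_iff₀ hj0]
    nlinarith [sq_nonneg N, mul_le_mul_of_nonneg_right h7 (sq_nonneg N)]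
  have h7 : θ * ((rich v θ W).card : ℝ) ≤ θ * (η * N ^ 2) := by
    calc θ * ((rich v θ W).card : ℝ) ≤ (η * θ / 2) * N ^ 2 + 4 * N * (2 * (η * θ / 16 * N)) := by
          linarith
      _ = θ * (η * N ^ 2) := by ring
  exact le_of_mul_le_mul_left h7 hθ

end Pool.Agent.Lib.P0fc
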