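import Mathlib
import Pool.Agent.Lib.P0fc.GoodF

/-!
# Stability: the last elements are not used in small circuits

`Es U A = vcl A \ (U ∪ sm U)`.
`stab_sm`: `sm U = sm W₀`: let `g ∈ sm U`; take `T ⊆ U.erase g` with `|T| < β`, `g ∈ vcl T` and `|T|` minimal.
Every `x ∈ T` has `g ∉ vcl (T.erase x)` and `g ≠ x`, so `x ∈ Bs U` and therefore `x ∈ W₀`.  So
`T ⊆ W₀.erase g`.
`stab_nt`: `nt A = vcl A \ (A ∪ sm A)`, `sm A = sm U` (squeezed), and an element of `vcl A` in `U \ A` is in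
`sm A` by `m5`.
`stab_diff`: let `g ∈ vcl A \ vcl A''`.  If `g ∈ A` then `g ∈ A \ A''`.  If `g ∈ U \ A` then `g ∈ sm A` (`m5`),
`sm A = sm W₀ ⊆ vcl W₀ ⊆ vcl A''`, a contradiction.  If `g ∉ U` and `g ∈ sm U = sm W₀`: the same
contradiction.
`stabP`: split off `σ < |Bs (Y t)|`: since `Bs (Y t) ⊆ Bs (Y M₂)` (`t < M ≤ M₂`) these terms sum to at most
`PP(σ < |Bs (Y M₂)|) ≤ ν` (`sumEx`, `Good.Bs`).  The rest: `x ∈ Bs (Y t) \ Y (t - J)` is the element at a position
`i`, `t - J ≤ i < t` (`Bs (Y t) ⊆ Y t`); for each such `i` the event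
`Ex e t ∧ |Bs (Y t)| ≤ σ ∧ e i ∈ Bs (Y t)` has probability
`EE(ind (Ex e t ∧ |Bs (Y t)| ≤ σ) |Bs (Y t)|)/t ≤ (σ/t) PP(Ex e t) ≤ ν PP(Ex e t)`: all positions `i < t` have
the same probability (swap of `i` and `t - 1`, then `back` at `t - 1`), and `Ex e t` implies `t ≥ β ≥ σ/ν`.
There are at most `J` positions, and `∑_t PP(Ex e t) ≤ 1`.
-/

namespace Pool.Agent.Lib.P0fc

open Finset Pool.Agent.Lib.P0fb

section

variable {α : Type} [Fintype α] [DecidableEq α] {E : Type} [AddCommGroup E] [Module ℝ E]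

/-- the elements of `vcl A` outside `U` and outside the small circuits of `U` -/
noncomputable def Es (v : α → E) (β : ℕ) (U A : Finset α) : Finset α :=
  vcl v A \ (U ∪ sm v β U)

theorem Es_mono {v : α → E} {β : ℕ} {U A A' : Finset α} (h : A ⊆ A') :
    Es v β U A ⊆ Es v β U A' := by
  intro x hx
  unfold Es at hx ⊢
  rw [mem_sdiff] at hx ⊢
  exact ⟨vcl_mono h hx.1, hx.2⟩

theorem Es_self (v : α → E) (β : ℕ) (U : Finset α) : Es v β U U = nt v β U := rfl

theorem stab_sm {v : α → E} {β : ℕ} {W₀ U : Finset α} (h0 : W₀ ⊆ U)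
    (hB : ∀ x ∈ Bs v β U, x ∈ W₀) : sm v β U = sm v β W₀ := by
  classical
  refine Subset.antisymm ?_ (sm_mono h0)
  intro g hg
  rw [mem_sm] at hg
  have hne : ((U.erase g).powerset.filter (fun T => T.card < β ∧ g ∈ vcl v T)).Nonempty := by
    obtain ⟨T, hT, hc, hgT⟩ := hg
    exact ⟨T, mem_filter.2 ⟨mem_powerset.2 hT, hc, hgT⟩⟩
  obtain ⟨T, hT, hmin⟩ := exists_min_image _ Finset.card hne
  rw [mem_filter, mem_powerset] at hT
  obtain ⟨hTU, hTc, hTg⟩ := hT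
  rw [mem_sm]
  refine ⟨T, ?_, hTc, hTg⟩
  intro x hx
  have hx1 := mem_erase.1 (hTU hx)
  have hx2 : g ∉ vcl v (T.erase x) := by
    intro hc
    have h1 := card_erase_lt_of_mem hx
    have h2 := hmin (T.erase x) (mem_filter.2 ⟨mem_powerset.2 ((erase_subset _ _).trans hTU),
      h1.trans hTc, hc⟩)
    omega
  refine mem_erase.2 ⟨hx1.1, hB x ?_⟩
  unfold Bs
  rw [mem_filter]
  exact ⟨hx1.2, g, fun h => hx1.1 h.symm, T, hTU.trans (erase_subset _ _), hTc, hx, hTg, hx2⟩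

theorem stab_nt {v : α → E} {β σ : ℕ} (hσ : σ ≤ β) {W₀ A U : Finset α} (h0 : W₀ ⊆ A)
    (h1 : A ⊆ U) (hnc : (nc v U).card ≤ σ) (hB : ∀ x ∈ Bs v β U, x ∈ W₀) :
    nt v β A = Es v β U A := by
  have hU := stab_sm (h0.trans h1) hB
  have hA : sm v β U ⊆ sm v β A := by
    rw [hU]
    exact sm_mono h0
  ext g
  rw [mem_nt]
  unfold Es
  rw [mem_sdiff, mem_union, not_or]
  constructor
  · rintro ⟨hg, hgA, hgs⟩
    exact ⟨hg, fun hgU => hgs (m5 hσ h1 hnc hg hgU hgA), fun hgU => hgs (hA hgU)⟩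
  · rintro ⟨hg, hgU, hgs⟩
    exact ⟨hg, fun hgA => hgU (h1 hgA), fun hgA => hgs (sm_mono h1 hgA)⟩

theorem stab_diff {v : α → E} {β σ : ℕ} (hσ : σ ≤ β) {W₀ A'' A U : Finset α} (h0 : W₀ ⊆ A'')
    (h1 : A'' ⊆ A) (h2 : A ⊆ U) (hnc : (nc v U).card ≤ σ) (hB : ∀ x ∈ Bs v β U, x ∈ W₀) :
    vcl v A \ vcl v A'' ⊆ Es v β U A ∪ (A \ A'') := by
  have hU := stab_sm ((h0.trans h1).trans h2) hB
  have key : ∀ g, g ∈ sm v β U → g ∈ vcl v A'' := by
    intro g hg
    rw [hU] at hg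
    exact vcl_mono h0 (sm_subset_vcl hg)
  intro g hg
  rw [mem_sdiff] at hg
  rw [mem_union, mem_sdiff]
  by_cases hgA : g ∈ A
  · exact Or.inr ⟨hgA, fun hc => hg.2 (subset_vcl v A'' hc)⟩
  · left
    unfold Es
    rw [mem_sdiff, mem_union, not_or]
    refine ⟨hg.1, fun hgU => ?_, fun hgs => hg.2 (key g hgs)⟩
    exact hg.2 (key g (sm_mono h2 (m5 hσ h2 hnc hg.1 hgU hgA)))

namespace StabAux

theorem ex_swap_iff {v : α → E} {N β σ t : ℕ} (e : Fin N ≃ α) {i j : Fin N} (hi : i.val < t)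
    (hj : j.val < t) : Ex v β σ ((Equiv.swap i j).trans e) t ↔ Ex v β σ e t := by
  constructor
  · intro h
    have h1 := h.swap hi hj
    have h2 : (Equiv.swap i j).trans ((Equiv.swap i j).trans e) = e := by
      rw [← Equiv.trans_assoc]
      ext x
      simp
    rwa [h2] at h1
  · intro h
    exact h.swap hi hj

theorem pos {v : α → E} {N M M₂ β σ : ℕ} {ε ν : ℝ} (h : Good v N M M₂ β σ ε ν) {t : ℕ}
    (ht : t < M) (i0 : Fin N) (hi : i0.val < t) :
    PP (fun e : Fin N ≃ α => Ex v β σ e t ∧ (Bs v β (Y e t)).card ≤ σ ∧ e i0 ∈ Bs v β (Y e t)) ≤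
      ν * PP (fun e : Fin N ≃ α => Ex v β σ e t) := by
  have hPP := PP_nonneg (fun e : Fin N ≃ α => Ex v β σ e t)
  by_cases hβt : β + σ ≤ t
  · have htN : t ≤ N := by
      have := h.M8
      omega
    have ht0 : (0 : ℝ) < t := by
      have : 0 < t := by omega
      exact_mod_cast this
    have hex := ProbAux_exch (univ.filter (fun i : Fin N => i.val < t)) i0
      (fun e x => ind (Ex v β σ e t ∧ (Bs v β (Y e t)).card ≤ σ ∧ x ∈ Bs v β (Y e t)))
      (by
        intro i hi' e x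
        have hi'' : i.val < t := (mem_filter.1 hi').2
        simp only [Y_swap_fut e hi'' hi le_rfl, ex_swap_iff e hi'' hi])
    rw [ProbAux_card_lt htN] at hex
    have hex2 : (t : ℝ) * ∑ e : Fin N ≃ α,
        ind (Ex v β σ e t ∧ (Bs v β (Y e t)).card ≤ σ ∧ e i0 ∈ Bs v β (Y e t)) =
        ∑ e : Fin N ≃ α, ∑ x ∈ Y e t,
          ind (Ex v β σ e t ∧ (Bs v β (Y e t)).card ≤ σ ∧ x ∈ Bs v β (Y e t)) := by
      refine hex.trans (sum_congr rfl fun e _ => ?_)
      rw [ProbAux_sumY]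
    have hpt : ∀ e : Fin N ≃ α, ∑ x ∈ Y e t,
        ind (Ex v β σ e t ∧ (Bs v β (Y e t)).card ≤ σ ∧ x ∈ Bs v β (Y e t)) ≤
        (σ : ℝ) * ind (Ex v β σ e t) := by
      intro e
      by_cases h1 : Ex v β σ e t
      · by_cases h2 : (Bs v β (Y e t)).card ≤ σ
        · rw [ind_of h1, mul_one]
          have h3 : ∀ x ∈ Y e t, x ∉ Bs v β (Y e t) →
              ind (Ex v β σ e t ∧ (Bs v β (Y e t)).card ≤ σ ∧ x ∈ Bs v β (Y e t)) = 0 :=
            fun x _ hx => ind_not_of fun hc => hx hc.2.2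
          have hsub : Bs v β (Y e t) ⊆ Y e t := by
            unfold Bs
            exact filter_subset _ _
          rw [← sum_subset hsub h3]
          calc ∑ x ∈ Bs v β (Y e t),
                ind (Ex v β σ e t ∧ (Bs v β (Y e t)).card ≤ σ ∧ x ∈ Bs v β (Y e t))
              ≤ ∑ _x ∈ Bs v β (Y e t), (1 : ℝ) := sum_le_sum fun x _ => ind_le_one _
            _ = ((Bs v β (Y e t)).card : ℝ) := by rw [sum_const, nsmul_eq_mul, mul_one]
            _ ≤ (σ : ℝ) := by exact_mod_cast h2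
        · rw [sum_eq_zero fun x _ => ind_not_of fun hc => h2 hc.2.1]
          exact mul_nonneg (Nat.cast_nonneg _) (ind_nonneg _)
      · rw [sum_eq_zero fun x _ => ind_not_of fun hc => h1 hc.1]
        exact mul_nonneg (Nat.cast_nonneg _) (ind_nonneg _)
    have h3 : (t : ℝ) * PP (fun e : Fin N ≃ α =>
        Ex v β σ e t ∧ (Bs v β (Y e t)).card ≤ σ ∧ e i0 ∈ Bs v β (Y e t)) ≤
        (σ : ℝ) * PP (fun e : Fin N ≃ α => Ex v β σ e t) := by
      have h4 : (t : ℝ) * PP (fun e : Fin N ≃ α =>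
          Ex v β σ e t ∧ (Bs v β (Y e t)).card ≤ σ ∧ e i0 ∈ Bs v β (Y e t)) =
          EE (fun e : Fin N ≃ α => ∑ x ∈ Y e t,
            ind (Ex v β σ e t ∧ (Bs v β (Y e t)).card ≤ σ ∧ x ∈ Bs v β (Y e t))) := by
        unfold PP EE
        rw [← mul_div_assoc, hex2]
      rw [h4]
      unfold PP
      rw [← EE_mul_left]
      exact EE_mono hpt
    have h5 : (σ : ℝ) ≤ ν * t := by
      refine h.hσ.trans (mul_le_mul_of_nonneg_left ?_ h.hν.le)
      have : β ≤ t := by omega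
      exact_mod_cast this
    have h6 : (t : ℝ) * PP (fun e : Fin N ≃ α =>
        Ex v β σ e t ∧ (Bs v β (Y e t)).card ≤ σ ∧ e i0 ∈ Bs v β (Y e t)) ≤
        (t : ℝ) * (ν * PP (fun e : Fin N ≃ α => Ex v β σ e t)) := by
      refine h3.trans ((mul_le_mul_of_nonneg_right h5 hPP).trans (le_of_eq ?_))
      ring
    exact le_of_mul_le_mul_left h6 ht0
  · have h0 : PP (fun e : Fin N ≃ α =>
        Ex v β σ e t ∧ (Bs v β (Y e t)).card ≤ σ ∧ e i0 ∈ Bs v β (Y e t)) = 0 := by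
      unfold PP EE
      rw [sum_eq_zero fun e _ => ind_not_of fun hc => hβt hc.1.ge, zero_div]
    rw [h0]
    exact mul_nonneg h.hν.le hPP

theorem card_pos' {N : ℕ} (t J : ℕ) :
    (univ.filter (fun i : Fin N => t - J ≤ i.val ∧ i.val < t)).card ≤ J := by
  have h : ((univ.filter (fun i : Fin N => t - J ≤ i.val ∧ i.val < t)).image Fin.val) ⊆
      Finset.Ico (t - J) t := by
    intro x hx
    rw [mem_image] at hx
    obtain ⟨i, hi, rfl⟩ := hx
    rw [mem_filter] at hi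
    exact mem_Ico.2 hi.2
  have h1 := card_le_card h
  rw [card_image_of_injective _ Fin.val_injective, Nat.card_Ico] at h1
  omega

end StabAux

theorem stabP {v : α → E} {N M M₂ β σ : ℕ} {ε ν : ℝ} (h : Good v N M M₂ β σ ε ν) (J : ℕ) :
    ∑ t ∈ range M, PP (fun e : Fin N ≃ α =>
      Ex v β σ e t ∧ ¬ ∀ x ∈ Bs v β (Y e t), x ∈ Y e (t - J)) ≤ (J + 1) * ν := by
  have hM := h.Mle
  have key : ∀ t ∈ range M, PP (fun e : Fin N ≃ α =>
      Ex v β σ e t ∧ ¬ ∀ x ∈ Bs v β (Y e t), x ∈ Y e (t - J)) ≤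
      PP (fun e : Fin N ≃ α => Ex v β σ e t ∧ σ < (Bs v β (Y e M₂)).card) +
        J * ν * PP (fun e : Fin N ≃ α => Ex v β σ e t ∧ True) := by
    intro t ht
    rw [mem_range] at ht
    have h1 : PP (fun e : Fin N ≃ α =>
        Ex v β σ e t ∧ ¬ ∀ x ∈ Bs v β (Y e t), x ∈ Y e (t - J)) ≤
        PP (fun e : Fin N ≃ α => (Ex v β σ e t ∧ σ < (Bs v β (Y e M₂)).card) ∨
          ∃ i ∈ univ.filter (fun i : Fin N => t - J ≤ i.val ∧ i.val < t),
            Ex v β σ e t ∧ (Bs v β (Y e t)).card ≤ σ ∧ e i ∈ Bs v β (Y e t)) := by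
      refine PP_mono fun e he => ?_
      obtain ⟨he1, he2⟩ := he
      push Not at he2
      obtain ⟨x, hx, hxJ⟩ := he2
      by_cases hc : (Bs v β (Y e t)).card ≤ σ
      · right
        refine ⟨e.symm x, ?_, he1, hc, ?_⟩
        · rw [mem_filter]
          refine ⟨mem_univ _, ?_, ?_⟩
          · rw [mem_Y] at hxJ
            omega
          · have hsub : Bs v β (Y e t) ⊆ Y e t := by
              unfold Bs
              exact filter_subset _ _
            exact mem_Y.1 (hsub hx)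
        · rw [Equiv.apply_symm_apply]
          exact hx
      · left
        refine ⟨he1, lt_of_lt_of_le (not_le.1 hc) (card_le_card (Bs_mono (Y_mono e ?_)))⟩
        omega
    refine h1.trans ((PP_or_le _ _).trans (add_le_add le_rfl ?_))
    refine (PP_exists_le _ _).trans ?_
    have h2 : ∀ i ∈ univ.filter (fun i : Fin N => t - J ≤ i.val ∧ i.val < t),
        PP (fun e : Fin N ≃ α =>
          Ex v β σ e t ∧ (Bs v β (Y e t)).card ≤ σ ∧ e i ∈ Bs v β (Y e t)) ≤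
        ν * PP (fun e : Fin N ≃ α => Ex v β σ e t) := fun i hi =>
      StabAux.pos h ht i (mem_filter.1 hi).2.2
    refine (sum_le_card_nsmul _ _ _ h2).trans ?_
    rw [nsmul_eq_mul]
    have h3 : ((univ.filter (fun i : Fin N => t - J ≤ i.val ∧ i.val < t)).card : ℝ) ≤ J := by
      exact_mod_cast StabAux.card_pos' t J
    have h4 : PP (fun e : Fin N ≃ α => Ex v β σ e t) =
        PP (fun e : Fin N ≃ α => Ex v β σ e t ∧ True) := by
      simp only [and_true]
    have h5 : 0 ≤ ν * PP (fun e : Fin N ≃ α => Ex v β σ e t) :=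
      mul_nonneg h.hν.le (PP_nonneg _)
    calc _ ≤ (J : ℝ) * (ν * PP (fun e : Fin N ≃ α => Ex v β σ e t)) :=
          mul_le_mul_of_nonneg_right h3 h5
      _ = _ := by rw [← h4]; ring
  refine (sum_le_sum key).trans ?_
  rw [sum_add_distrib, ← mul_sum]
  have h1 : ∑ t ∈ range M, PP (fun e : Fin N ≃ α =>
      Ex v β σ e t ∧ σ < (Bs v β (Y e M₂)).card) ≤ ν := by
    refine (sumEx v h.card M (fun _ e => σ < (Bs v β (Y e M₂)).card)).trans
      (le_trans (PP_mono fun e he => ?_) h.Bs)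
    obtain ⟨t, _, _, he⟩ := he
    exact he
  have h2 : ∑ t ∈ range M, PP (fun e : Fin N ≃ α => Ex v β σ e t ∧ True) ≤ 1 :=
    (sumEx v h.card M (fun _ _ => True)).trans (PP_le_one _)
  have h3 : (0 : ℝ) ≤ J * ν := mul_nonneg (Nat.cast_nonneg _) h.hν.le
  have h4 := mul_le_mul_of_nonneg_left h2 h3
  linarith

end

end Pool.Agent.Lib.P0fc
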