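import Mathlib
import Pool.Agent.Lib.P0fc.AvT
import Pool.Agent.Lib.P0fc.PxT
import Pool.Agent.Lib.P0fc.Stab
import Pool.Agent.Lib.P0fc.S33
import Pool.Agent.Lib.P0fc.SG

/-!
# Claim I: no genuine element `k` steps before the exit, if `k` is large

For `t < M` with `k + 2 ≤ t` let `s = t - k`, `U = Y t`, `A = Y s`, `A'' = Y (s-2)`, `G e = Es U A` and
`D t e = (Ex e t ∧ d₀ N ≤ |nt (Y t)| ∧ (Es (Y t) (Y (t-k))).Nonempty)`; all are unchanged by swaps of two
positions `< s` (`Y_swap_fut`, `Ex.swap`).  (For `t < k + 2` there is no exit: `k + 2 ≤ β`, `Good.inv`, `Ex.ge`.)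
For `g ∈ G e`: `g ∈ vcl A`, `g ∉ U`, `g ∉ sm U`, so by `m2g`, `not_sm` at least
`β - |nc A| ≥ β - σ ≥ ε s + 1` elements `h ∈ A` have `g ∉ vcl (A.erase h)` (`Good.εt`).  By `s33`
`(ε²/2) PP(D t) ≤ PP(D t ∧ Q)`, `Q` the event there, `x, y` the elements at the positions `s-2`, `s-1`:
`A = insert x (insert y A'')`, `A.erase x = insert y A''`, `A.erase y = insert x A''`.
Sum over `t < M`.  The events with some `x' ∈ Bs (Y t)` outside `Y (t - (k+2))`: at most `(k + 3) ν`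
(`stabP`, `J = k + 2`).  Otherwise, by `stab_diff` (`W₀ = A''`):
`|vcl A \ vcl A''| ≤ |G e| + 2 ≤ 3 |G e|`, and `Tset A'' x y ⊇ {g ∈ G e | g ∉ vcl (A.erase x), g ∉ vcl (A.erase y)}`
has at least `(ε²/2) |G e| ≥ (ε²/6) |vcl A \ vcl A''|` elements (`> 0`): `(x, y) ∈ rich v (ε²/6) A''`.
If `Dle θ' j (Y (t - (k+2)))`: at most `(2j+4)/(θ'(k+3))` in total by `avg_le` for the exit events.
Otherwise `(x, y) ∈ B A''` for `B W = (if Dle v θ' j W then ∅ else rich v (ε²/6) W)`, `|B W| ≤ η N²` by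
`hSG` (`¬ Dle` gives `|vcl (W ∪ P)| < θ' N` for all `|P| ≤ j`), and `d₀ N ≤ |nt (Y t)| ≤ |vcl (Y t)|`: at most
`16 η/d₀` by `px_le`.
-/

namespace Pool.Agent.Lib.P0fc

open Finset Pool.Agent.Lib.P0fb

section

variable {α : Type} [Fintype α] [DecidableEq α] {E : Type} [AddCommGroup E] [Module ℝ E]

namespace ClaimIAux

/-- the event of a genuine element `k` steps before the exit -/
def D (v : α → E) (N β σ k : ℕ) (d₀ : ℝ) (t : ℕ) (e : Fin N ≃ α) : Prop :=
  Ex v β σ e t ∧ d₀ * N ≤ ((nt v β (Y e t)).card : ℝ) ∧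
    (Es v β (Y e t) (Y e (t - k))).Nonempty

open Classical in
/-- the set of the rich pairs if there is no dense line -/
noncomputable def B (v : α → E) (ε θ' : ℝ) (j : ℕ) (W : Finset α) : Finset (α × α) :=
  if Dle v θ' j W then ∅ else rich v (ε ^ 2 / 6) W

theorem card_B {v : α → E} {ε θ' η : ℝ} {j N : ℕ} (hN : Fintype.card α = N) (hη : 0 ≤ η)
    (hSG : ∀ W : Finset α,
      (∀ P : Finset α, P.card ≤ j → ((vcl v (W ∪ P)).card : ℝ) ≤ θ' * (Fintype.card α : ℝ)) →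
      ((rich v (ε ^ 2 / 6) W).card : ℝ) ≤ η * (Fintype.card α : ℝ) ^ 2) (W : Finset α) :
    ((B v ε θ' j W).card : ℝ) ≤ η * (N : ℝ) ^ 2 := by
  unfold B
  split_ifs with hD
  · rw [card_empty, Nat.cast_zero]
    positivity
  · rw [← hN]
    refine hSG W fun P hP => ?_
    by_contra hc
    exact hD ⟨P, hP, (not_le.1 hc).le⟩

/-- two consecutive elements -/
theorem Y_two {N : ℕ} (e : Fin N ≃ α) {s : ℕ} (hs : 2 ≤ s) {x y : α} (hx : At e (s - 2) x)
    (hy : At e (s - 1) y) : Y e s = insert x (insert y (Y e (s - 2))) ∧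
      (Y e s).erase x = insert y (Y e (s - 2)) ∧ (Y e s).erase y = insert x (Y e (s - 2)) := by
  unfold At at hx hy
  have h1 : Y e s = insert x (insert y (Y e (s - 2))) := by
    ext z
    rw [mem_insert, mem_insert, mem_Y, mem_Y]
    constructor
    · intro hz
      by_cases h1 : (e.symm z).val < s - 2
      · exact Or.inr (Or.inr h1)
      · by_cases h2 : (e.symm z).val = s - 2
        · left
          exact e.symm.injective (Fin.ext (h2.trans hx.symm))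
        · right
          left
          exact e.symm.injective (Fin.ext ((show (e.symm z).val = s - 1 by omega).trans hy.symm))
    · rintro (rfl | rfl | hz) <;> omega
  have hxy : x ≠ y := by
    rintro rfl
    omega
  have hx' : x ∉ Y e (s - 2) := by
    rw [mem_Y]
    omega
  have hy' : y ∉ Y e (s - 2) := by
    rw [mem_Y]
    omega
  refine ⟨h1, ?_, ?_⟩
  · rw [h1, erase_insert]
    rw [mem_insert, not_or]
    exact ⟨hxy, hx'⟩
  · rw [h1, insert_comm, erase_insert]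
    rw [mem_insert, not_or]
    exact ⟨hxy.symm, hy'⟩

/-- the event of `s33` -/
def Q (v : α → E) (N β k : ℕ) (ε : ℝ) (t : ℕ) (e : Fin N ≃ α) : Prop :=
  ∃ x y, At e (t - k - 2) x ∧ At e (t - k - 1) y ∧
      ε ^ 2 / 2 * ((Es v β (Y e t) (Y e (t - k))).card : ℝ) ≤
        (((Es v β (Y e t) (Y e (t - k))).filter (fun g =>
        g ∉ vcl v ((Y e (t - k)).erase x) ∧ g ∉ vcl v ((Y e (t - k)).erase y))).card : ℝ)

theorem D_ge {v : α → E} {N M M₂ β σ : ℕ} {ε ν : ℝ} (h : Good v N M M₂ β σ ε ν) {d₀ : ℝ} {k : ℕ}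
    (hk : ((k + 2 : ℕ) : ℝ) * ν ≤ 1) {t : ℕ} {e : Fin N ≃ α} (hD : D v N β σ k d₀ t e) :
    k + 2 ≤ t := by
  have h1 := h.inv hk
  have h2 := hD.1.ge
  omega

theorem step {v : α → E} {N M M₂ β σ : ℕ} {ε ν : ℝ} (h : Good v N M M₂ β σ ε ν) {d₀ : ℝ} {k : ℕ}
    (hk : ((k + 2 : ℕ) : ℝ) * ν ≤ 1) {t : ℕ} (ht : t < M) :
    ε ^ 2 / 2 * PP (D v N β σ k d₀ t) ≤
      PP (fun e => D v N β σ k d₀ t e ∧ Q v N β k ε t e) := by
  by_cases hkt : k + 2 ≤ t
  · have hM := h.M8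
    refine s33 v (s := t - k) (by omega) (by omega) h.hε (D v N β σ k d₀ t) ?_
      (fun e => Es v β (Y e t) (Y e (t - k))) ?_ (fun e he => he.2.2) ?_
    · intro e i j hi hj
      have e1 : Y ((Equiv.swap i j).trans e) t = Y e t := Y_swap_fut e hi hj (by omega)
      have e2 : Y ((Equiv.swap i j).trans e) (t - k) = Y e (t - k) := Y_swap_fut e hi hj le_rfl
      have e3 : Y ((Equiv.swap i j).trans e) (t + 1) = Y e (t + 1) :=
        Y_swap_fut e hi hj (by omega)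
      have e4 : D v N β σ k d₀ t ((Equiv.swap i j).trans e) = D v N β σ k d₀ t e := by
        unfold D Ex
        rw [e1, e2, e3]
      change ind (D v N β σ k d₀ t ((Equiv.swap i j).trans e)) = ind (D v N β σ k d₀ t e)
      rw [e4]
    · intro e i j hi hj
      have e1 : Y ((Equiv.swap i j).trans e) t = Y e t := Y_swap_fut e hi hj (by omega)
      have e2 : Y ((Equiv.swap i j).trans e) (t - k) = Y e (t - k) := Y_swap_fut e hi hj le_rfl
      change Es v β (Y ((Equiv.swap i j).trans e) t) (Y ((Equiv.swap i j).trans e) (t - k)) =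
        Es v β (Y e t) (Y e (t - k))
      rw [e1, e2]
    · intro e he g hg
      have hg' : g ∈ vcl v (Y e (t - k)) \ (Y e t ∪ sm v β (Y e t)) := hg
      rw [mem_sdiff, mem_union, not_or] at hg'
      obtain ⟨hg1, hg2, hg3⟩ := hg'
      have h1 := m2g hg1 (not_sm (Y_mono e (show t - k ≤ t by omega)) hg2 hg3)
      have h2 : (nc v (Y e (t - k))).card ≤ σ := (he.1.ok (show t - k ≤ t by omega)).1
      have h3 := h.εt (t := t - k) (by omega)
      have h4 : (β : ℝ) ≤ ((((Y e (t - k)).filter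
          (fun h => g ∉ vcl v ((Y e (t - k)).erase h))).card : ℕ) : ℝ) + (σ : ℝ) := by
        exact_mod_cast h1.trans (Nat.add_le_add_left h2 _)
      linarith
  · have h0 : PP (D v N β σ k d₀ t) ≤ 0 := by
      have h1 : PP (D v N β σ k d₀ t) ≤ PP (fun _ : Fin N ≃ α => False) :=
        PP_mono fun e he => hkt (D_ge h hk he)
      refine h1.trans ?_
      unfold PP EE
      rw [sum_eq_zero (fun e _ => ind_not_of (fun h => h)), zero_div]
    have h1 : ε ^ 2 / 2 * PP (D v N β σ k d₀ t) ≤ 0 :=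
      mul_nonpos_of_nonneg_of_nonpos (by positivity) h0
    exact h1.trans (PP_nonneg _)

theorem rich_of {v : α → E} {N M M₂ β σ : ℕ} {ε ν : ℝ} (h : Good v N M M₂ β σ ε ν) {d₀ : ℝ}
    {k : ℕ} (hk : ((k + 2 : ℕ) : ℝ) * ν ≤ 1) {t : ℕ} {e : Fin N ≃ α}
    (hD : D v N β σ k d₀ t e) (hQ : Q v N β k ε t e)
    (hB : ∀ x ∈ Bs v β (Y e t), x ∈ Y e (t - (k + 2))) :
    ∃ x y, At e (t - k - 2) x ∧ At e (t - k - 1) y ∧
      (x, y) ∈ rich v (ε ^ 2 / 6) (Y e (t - k - 2)) := by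
  have hkt := D_ge h hk hD
  obtain ⟨x, y, hx, hy, hc⟩ := hQ
  refine ⟨x, y, hx, hy, ?_⟩
  have hs : t - (k + 2) = t - k - 2 := by omega
  rw [hs] at hB
  obtain ⟨hY, hYx, hYy⟩ := Y_two e (s := t - k) (by omega) hx hy
  have hdiff := stab_diff h.σβ (Subset.refl (Y e (t - k - 2)))
    (Y_mono e (show t - k - 2 ≤ t - k by omega)) (Y_mono e (show t - k ≤ t by omega))
    (hD.1.1).1 hB
  set G := Es v β (Y e t) (Y e (t - k)) with hG
  have hGpos : 1 ≤ G.card := card_pos.2 hD.2.2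
  have hcard : (vcl v (Y e (t - k)) \ vcl v (Y e (t - k - 2))).card ≤ 3 * G.card := by
    have h1 := card_le_card hdiff
    have h2 : (Y e (t - k) \ Y e (t - k - 2)).card ≤ 2 := by
      have h3 : Y e (t - k) \ Y e (t - k - 2) ⊆ {x, y} := by
        intro z hz
        rw [mem_sdiff, hY, mem_insert, mem_insert] at hz
        rw [mem_insert, mem_singleton]
        rcases hz.1 with h4 | h4 | h4
        · exact Or.inl h4
        · exact Or.inr h4
        · exact absurd h4 hz.2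
      exact (card_le_card h3).trans card_le_two
    have h3 := card_union_le G (Y e (t - k) \ Y e (t - k - 2))
    omega
  have hsub : G.filter (fun g => g ∉ vcl v ((Y e (t - k)).erase x) ∧
      g ∉ vcl v ((Y e (t - k)).erase y)) ⊆ Tset v (Y e (t - k - 2)) x y := by
    intro g hg
    rw [mem_filter, hYx, hYy] at hg
    unfold Tset
    rw [mem_filter, ← hY]
    refine ⟨?_, hg.2.2, hg.2.1⟩
    have h1 : g ∈ vcl v (Y e (t - k)) \ (Y e t ∪ sm v β (Y e t)) := hg.1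
    exact (mem_sdiff.1 h1).1
  have hGR : (1 : ℝ) ≤ (G.card : ℝ) := by exact_mod_cast hGpos
  have hε2 : 0 < ε ^ 2 := pow_pos h.hε 2
  have hle : ε ^ 2 / 2 * (G.card : ℝ) ≤ ((Tset v (Y e (t - k - 2)) x y).card : ℝ) :=
    hc.trans (by exact_mod_cast card_le_card hsub)
  have hpos : 0 < ((Tset v (Y e (t - k - 2)) x y).card : ℝ) := by
    refine lt_of_lt_of_le ?_ hle
    have : 0 < ε ^ 2 / 2 := by positivity
    exact mul_pos this (by linarith)
  unfold rich
  rw [mem_filter]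
  refine ⟨mem_univ _, card_pos.1 (by exact_mod_cast hpos), ?_⟩
  change ε ^ 2 / 6 * ((vcl v (insert x (insert y (Y e (t - k - 2)))) \
    vcl v (Y e (t - k - 2))).card : ℝ) ≤ ((Tset v (Y e (t - k - 2)) x y).card : ℝ)
  rw [← hY]
  refine le_trans ?_ hle
  have h1 : ((vcl v (Y e (t - k)) \ vcl v (Y e (t - k - 2))).card : ℝ) ≤ 3 * (G.card : ℝ) := by
    exact_mod_cast hcard
  calc ε ^ 2 / 6 * ((vcl v (Y e (t - k)) \ vcl v (Y e (t - k - 2))).card : ℝ)
      ≤ ε ^ 2 / 6 * (3 * (G.card : ℝ)) := mul_le_mul_of_nonneg_left h1 (by positivity)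
    _ = ε ^ 2 / 2 * (G.card : ℝ) := by ring

theorem split {v : α → E} {N M M₂ β σ : ℕ} {ε ν : ℝ} (h : Good v N M M₂ β σ ε ν) {d₀ θ' : ℝ}
    {j k : ℕ} (hk : ((k + 2 : ℕ) : ℝ) * ν ≤ 1) (t : ℕ) :
    PP (fun e => D v N β σ k d₀ t e ∧ Q v N β k ε t e) ≤
      PP (fun e : Fin N ≃ α =>
        Ex v β σ e t ∧ ¬ ∀ x ∈ Bs v β (Y e t), x ∈ Y e (t - (k + 2))) +
      (PP (fun e : Fin N ≃ α => Ex v β σ e t ∧ Dle v θ' j (Y e (t - (k + 2)))) +
        PP (fun e : Fin N ≃ α => OK v β σ (Y e t) ∧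
          d₀ * N ≤ ((vcl v (Y e t)).card : ℝ) ∧
          ∃ x y, At e (t - k - 2) x ∧ At e (t - k - 1) y ∧
            (x, y) ∈ B v ε θ' j (Y e (t - k - 2)))) := by
  refine le_trans (PP_mono ?_) ((PP_or_le _ _).trans
    (add_le_add le_rfl (PP_or_le _ _)))
  rintro e ⟨hD, hQ⟩
  by_cases hB : ∀ x ∈ Bs v β (Y e t), x ∈ Y e (t - (k + 2))
  · right
    by_cases hl : Dle v θ' j (Y e (t - (k + 2)))
    · exact Or.inl ⟨hD.1, hl⟩
    · right
      refine ⟨hD.1.1, hD.2.1.trans ?_, ?_⟩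
      · have h1 : nt v β (Y e t) ⊆ vcl v (Y e t) := fun z hz => (mem_nt.1 hz).1
        exact_mod_cast card_le_card h1
      · obtain ⟨x, y, hx, hy, hxy⟩ := rich_of h hk hD hQ hB
        refine ⟨x, y, hx, hy, ?_⟩
        unfold B
        have hs : t - (k + 2) = t - k - 2 := by omega
        rw [hs] at hl
        rw [if_neg hl]
        exact hxy
  · exact Or.inl ⟨hD.1, hB⟩

end ClaimIAux

theorem claimI {v : α → E} {N M M₂ β σ : ℕ} {ε ν : ℝ} (h : Good v N M M₂ β σ ε ν)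
    {η d₀ θ' : ℝ} {j k : ℕ} (hη : 0 ≤ η) (hd : 0 < d₀) (hθ : 0 < θ') (hνd : ν ≤ d₀ / 8)
    (hνθ : ν ≤ θ' / 8) (hk : ((k + 2 : ℕ) : ℝ) * ν ≤ 1)
    (hSG : ∀ W : Finset α,
      (∀ P : Finset α, P.card ≤ j → ((vcl v (W ∪ P)).card : ℝ) ≤ θ' * (Fintype.card α : ℝ)) →
      ((rich v (ε ^ 2 / 6) W).card : ℝ) ≤ η * (Fintype.card α : ℝ) ^ 2) :
    ε ^ 2 / 2 * ∑ t ∈ range M, PP (fun e : Fin N ≃ α => Ex v β σ e t ∧
      d₀ * N ≤ ((nt v β (Y e t)).card : ℝ) ∧ (Es v β (Y e t) (Y e (t - k))).Nonempty) ≤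
      (k + 3) * ν + 16 * η / d₀ + (2 * j + 4) / (θ' * (k + 3)) := by
  have hM := h.M8
  have ha := stabP h (k + 2)
  have hb := avg_le v h.card h.σβ hM.2 hθ (h.Mθ hνθ) (fun t e => Ex v β σ e t)
    (fun t e he => he.1) (fun t t' e he he' => he.unique he') j (k + 2)
  have hc := px_le v h.card h.σβ hM.2 hM.1 hd (h.Mθ hνd) hη (ClaimIAux.B v ε θ' j)
    (ClaimIAux.card_B h.card hη hSG) k
  have h1 : ε ^ 2 / 2 * ∑ t ∈ range M, PP (fun e : Fin N ≃ α => Ex v β σ e t ∧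
      d₀ * N ≤ ((nt v β (Y e t)).card : ℝ) ∧ (Es v β (Y e t) (Y e (t - k))).Nonempty) ≤
      ∑ t ∈ range M, PP (fun e => ClaimIAux.D v N β σ k d₀ t e ∧
        ClaimIAux.Q v N β k ε t e) := by
    rw [mul_sum]
    exact sum_le_sum fun t ht => ClaimIAux.step h hk (mem_range.1 ht)
  refine h1.trans ?_
  have h2 : ∀ t ∈ range M, PP (fun e => ClaimIAux.D v N β σ k d₀ t e ∧
      ClaimIAux.Q v N β k ε t e) ≤
      PP (fun e : Fin N ≃ α =>
        Ex v β σ e t ∧ ¬ ∀ x ∈ Bs v β (Y e t), x ∈ Y e (t - (k + 2))) +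
      (if k + 2 ≤ t then
        (PP (fun e : Fin N ≃ α => Ex v β σ e t ∧ Dle v θ' j (Y e (t - (k + 2)))) +
        PP (fun e : Fin N ≃ α => OK v β σ (Y e t) ∧
          d₀ * N ≤ ((vcl v (Y e t)).card : ℝ) ∧
          ∃ x y, At e (t - k - 2) x ∧ At e (t - k - 1) y ∧
            (x, y) ∈ ClaimIAux.B v ε θ' j (Y e (t - k - 2)))) else 0) := by
    intro t _
    split_ifs with hkt
    · exact ClaimIAux.split h hk t
    · rw [add_zero]
      refine le_trans (PP_mono (B := fun _ : Fin N ≃ α => False) ?_) ?_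
      · rintro e ⟨hD, _⟩
        exact hkt (ClaimIAux.D_ge h hk hD)
      · refine le_trans (le_of_eq ?_) (PP_nonneg _)
        unfold PP EE
        rw [sum_eq_zero (fun e _ => ind_not_of (fun h => h)), zero_div]
  refine (sum_le_sum h2).trans ?_
  rw [sum_add_distrib, ← sum_filter]
  have h3 : ∑ t ∈ (range M).filter (fun t => k + 2 ≤ t),
      (PP (fun e : Fin N ≃ α => Ex v β σ e t ∧ Dle v θ' j (Y e (t - (k + 2)))) +
        PP (fun e : Fin N ≃ α => OK v β σ (Y e t) ∧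
          d₀ * N ≤ ((vcl v (Y e t)).card : ℝ) ∧
          ∃ x y, At e (t - k - 2) x ∧ At e (t - k - 1) y ∧
            (x, y) ∈ ClaimIAux.B v ε θ' j (Y e (t - k - 2)))) ≤
      ∑ t ∈ Icc (k + 2) M,
      (PP (fun e : Fin N ≃ α => Ex v β σ e t ∧ Dle v θ' j (Y e (t - (k + 2)))) +
        PP (fun e : Fin N ≃ α => OK v β σ (Y e t) ∧
          d₀ * N ≤ ((vcl v (Y e t)).card : ℝ) ∧
          ∃ x y, At e (t - k - 2) x ∧ At e (t - k - 1) y ∧
            (x, y) ∈ ClaimIAux.B v ε θ' j (Y e (t - k - 2)))) := by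
    refine sum_le_sum_of_subset_of_nonneg ?_ ?_
    · intro t ht
      rw [mem_filter, mem_range] at ht
      rw [mem_Icc]
      omega
    · intro t _ _
      exact add_nonneg (PP_nonneg _) (PP_nonneg _)
  have h4 := h3
  rw [sum_add_distrib (s := Icc (k + 2) M)] at h4
  push_cast at ha hb
  have e1 : ((k : ℝ) + 2 + 1) = (k : ℝ) + 3 := by ring
  rw [e1] at ha hb
  linarith

end

end Pool.Agent.Lib.P0fc
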