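import Mathlib
import Pool.Agent.Lib.P0fc.PxT
import Pool.Agent.Lib.P0fc.Stab

/-!
# Claim II: the step

`FF t k`: the exit is at `t`, `X k < e_k < κ N` and `e_i ≤ X i` for `k < i ≤ J`, where
`e_i = |Es (Y t) (Y (t - i))|`.

Let `t < M`, `s = t - k`, `U = Y t`, `A = Y s`, `A'' = Y (s - 2)`, `x, y` the elements at the positions `s - 2`,
`s - 1` (`t ≥ β ≥ J ≥ k + 2` at the exit), so `A = insert x (insert y A'')`, `Y (s - 1) = insert x A''`.
(1) `X (k+1) < |Es U (insert y A'')|`: the ordering `e' = (swap (s-2) (s-1)).trans e` has `Y e' t = Y e t`,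
`Y e' (t+1) = Y e (t+1)`, `Y e' (s-1) = insert y A''` and `Y e' i = Y e i` for `i ≠ s - 1`; it satisfies
`FF t (k+1)`: `|Es U (insert y A'')| ≤ |Es U A| < κ N` (`Es_mono`).  As `e ↦ e'` is a bijection this part
has probability at most `PP (FF t (k+1))`.
(2) some element of `Bs (Y t)` is outside `Y (t - J)`: `stabP`.
(3) otherwise `stab_diff` with `W₀ = Y (t - J) ⊆ A''` gives `|vcl (insert x A'') \ vcl A''| ≤ X (k+1) + 1
≤ 2 X (k+1)`, the same for `y`, `|vcl A \ vcl A''| ≤ e_k + 2 ≤ κ N + 2 ≤ κ₀ N`, and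
`|vcl A \ vcl A''| ≥ |Es U A \ Es U A''| ≥ e_k - e_(k+2) > X k - X (k+2) ≥ 2 K₁ X (k+1)`
(an element of `Es U A` in `vcl A''` is in `Es U A''`).
So `(x, y) ∈ B A''` with `B W` the set of pairs in `hP` for `X = 2 X (k+1)`; use `px_le` with `θ = d₀`
(`d₀ N ≤ |nt (Y t)| ≤ |vcl (Y t)|`).
-/

namespace Pool.Agent.Lib.P0fc

open Finset Pool.Agent.Lib.P0fb

section

variable {α : Type} [Fintype α] [DecidableEq α] {E : Type} [AddCommGroup E] [Module ℝ E]

open Classical in
/-- the pairs `x, y` with at most `X` elements parallel to `x`, at most `X` elements parallel to `y`,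
such that the line `xy` over `W` has more than `K₁ X` and at most `κ₀ N` elements -/
noncomputable def lpairs (v : α → E) (K₁ : ℕ) (κ₀ : ℝ) (X : ℕ) (W : Finset α) :
    Finset (α × α) :=
  univ.filter (fun q : α × α => (vcl v (insert q.1 W) \ vcl v W).card ≤ X ∧
    (vcl v (insert q.2 W) \ vcl v W).card ≤ X ∧
    K₁ * X < (vcl v (insert q.1 (insert q.2 W)) \ vcl v W).card ∧
    ((vcl v (insert q.1 (insert q.2 W)) \ vcl v W).card : ℝ) ≤ κ₀ * (Fintype.card α : ℝ))

/-- the event `F_k` -/
def FF {N : ℕ} (v : α → E) (β σ : ℕ) (X : ℕ → ℕ) (J : ℕ) (d₀ κ : ℝ) (t k : ℕ)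
    (e : Fin N ≃ α) : Prop :=
  Ex v β σ e t ∧ d₀ * N ≤ ((nt v β (Y e t)).card : ℝ) ∧
    X k < (Es v β (Y e t) (Y e (t - k))).card ∧
    ((Es v β (Y e t) (Y e (t - k))).card : ℝ) < κ * N ∧
    ∀ i, k < i → i ≤ J → (Es v β (Y e t) (Y e (t - i))).card ≤ X i

theorem ClaimIIAux.PP_bij {N : ℕ} {α : Type} [Fintype α] [DecidableEq α] (i j : Fin N)
    (A : (Fin N ≃ α) → Prop) : PP (fun e => A ((Equiv.swap i j).trans e)) = PP A := by
  unfold PP EE
  congr 1
  have h1 : ∀ e : Fin N ≃ α, (Equiv.swap i j).trans ((Equiv.swap i j).trans e) = e := by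
    intro e
    rw [← Equiv.trans_assoc]
    ext x
    simp
  exact Equiv.sum_comp (⟨fun e => (Equiv.swap i j).trans e, fun e => (Equiv.swap i j).trans e,
    h1, h1⟩ : (Fin N ≃ α) ≃ (Fin N ≃ α)) (fun e => ind (A e))

theorem ClaimIIAux.Y_swap_ne {N : ℕ} {α : Type} [Fintype α] [DecidableEq α] (e : Fin N ≃ α)
    {i j : Fin N} (hij : j.val = i.val + 1) {m : ℕ} (hm : m ≠ j.val) :
    Y ((Equiv.swap i j).trans e) m = Y e m := by
  rcases lt_or_gt_of_ne hm with h | h
  · exact Y_swap_past e (m := i.val) le_rfl (by omega) (by omega)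
  · exact Y_swap_fut e (m := m) (by omega) (by omega) le_rfl

theorem ClaimIIAux.Y_swap_eq {N : ℕ} {α : Type} [Fintype α] [DecidableEq α] (e : Fin N ≃ α)
    {i j : Fin N} (hij : j.val = i.val + 1) :
    Y ((Equiv.swap i j).trans e) j.val = insert (e j) (Y e i.val) := by
  rw [hij, Y_succ, Equiv.trans_apply, Equiv.swap_apply_left,
    ClaimIIAux.Y_swap_ne e hij (by omega)]

theorem ClaimIIAux.point {v : α → E} {N β σ J k K₁ : ℕ} (hσ : σ ≤ β) (hJβ : J ≤ β)
    {X : ℕ → ℕ} {d₀ κ κ₀ : ℝ} (hN : Fintype.card α = N) (hk : k + 2 ≤ J) (hX1 : 1 ≤ X (k + 1))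
    (hX : X (k + 2) + K₁ * (2 * X (k + 1)) ≤ X k) (hκ : κ * N + 2 ≤ κ₀ * N)
    {t : ℕ} (ht : t < N) (hkt : k + 2 ≤ t)
    (e : Fin N ≃ α) (hF : FF (N := N) v β σ X J d₀ κ t k e) :
    FF (N := N) v β σ X J d₀ κ t (k + 1)
      ((Equiv.swap (⟨t - k - 2, by omega⟩ : Fin N) ⟨t - k - 1, by omega⟩).trans e) ∨
    (Ex v β σ e t ∧ ¬ ∀ x ∈ Bs v β (Y e t), x ∈ Y e (t - J)) ∨
    (OK v β σ (Y e t) ∧ d₀ * N ≤ ((vcl v (Y e t)).card : ℝ) ∧
      ∃ x y, At e (t - k - 2) x ∧ At e (t - k - 1) y ∧
        (x, y) ∈ lpairs v K₁ κ₀ (2 * X (k + 1)) (Y e (t - k - 2))) := by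
  classical
  obtain ⟨hEx, hd, h1, h2, h3⟩ := hF
  have htJ : J ≤ t := by
    have := hEx.ge
    omega
  have hi : t - k - 2 < N := by omega
  have hj : t - k - 1 < N := by omega
  have hij : (⟨t - k - 1, hj⟩ : Fin N).val = (⟨t - k - 2, hi⟩ : Fin N).val + 1 := by
    change t - k - 1 = t - k - 2 + 1
    omega
  set i : Fin N := ⟨t - k - 2, hi⟩ with hidef
  set j : Fin N := ⟨t - k - 1, hj⟩ with hjdef
  have hiv : i.val = t - k - 2 := rfl
  have hjv : j.val = t - k - 1 := rfl
  -- the sets
  have hY1 : Y e j.val = insert (e i) (Y e i.val) := by rw [hij, Y_succ]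
  have hY2 : Y e (t - k) = insert (e j) (insert (e i) (Y e i.val)) := by
    have : t - k = j.val + 1 := by omega
    rw [this, Y_succ, hY1]
  have hsub2 : Y e (t - k) ⊆ Y e t := Y_mono e (by omega)
  by_cases hc1 : X (k + 1) < (Es v β (Y e t) (insert (e j) (Y e i.val))).card
  · left
    refine ⟨?_, ?_, ?_, ?_, ?_⟩
    · unfold Ex at hEx ⊢
      rw [ClaimIIAux.Y_swap_ne e hij (by omega), ClaimIIAux.Y_swap_ne e hij (by omega)]
      exact hEx
    · rw [ClaimIIAux.Y_swap_ne e hij (by omega)]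
      exact hd
    · have : t - (k + 1) = j.val := by omega
      rw [this, ClaimIIAux.Y_swap_eq e hij, ClaimIIAux.Y_swap_ne e hij (by omega)]
      exact hc1
    · have : t - (k + 1) = j.val := by omega
      rw [this, ClaimIIAux.Y_swap_eq e hij, ClaimIIAux.Y_swap_ne e hij (by omega)]
      refine lt_of_le_of_lt ?_ h2
      have h4 : Es v β (Y e t) (insert (e j) (Y e i.val)) ⊆ Es v β (Y e t) (Y e (t - k)) := by
        refine Es_mono ?_
        rw [hY2]
        exact insert_subset_insert _ (subset_insert _ _)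
      exact_mod_cast card_le_card h4
    · intro l hl hlJ
      rw [ClaimIIAux.Y_swap_ne e hij (by omega), ClaimIIAux.Y_swap_ne e hij (by omega)]
      exact h3 l (by omega) hlJ
  · by_cases hc2 : ∀ x ∈ Bs v β (Y e t), x ∈ Y e (t - J)
    · right; right
      refine ⟨hEx.1, hd.trans ?_, e i, e j, ?_, ?_, ?_⟩
      · have : nt v β (Y e t) ⊆ vcl v (Y e t) := by
          unfold nt
          exact sdiff_subset
        exact_mod_cast card_le_card this
      · unfold At
        rw [Equiv.symm_apply_apply]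
      · unfold At
        rw [Equiv.symm_apply_apply]
      · have hW0 : Y e (t - J) ⊆ Y e i.val := Y_mono e (by omega)
        have hnc := hEx.1.1
        have hx : vcl v (insert (e i) (Y e i.val)) \ vcl v (Y e i.val) ⊆
            Es v β (Y e t) (insert (e i) (Y e i.val)) ∪ (insert (e i) (Y e i.val) \ Y e i.val) := by
          refine stab_diff hσ hW0 (subset_insert _ _) ?_ hnc hc2
          rw [← hY1]
          exact Y_mono e (by omega)
        have hy : vcl v (insert (e j) (Y e i.val)) \ vcl v (Y e i.val) ⊆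
            Es v β (Y e t) (insert (e j) (Y e i.val)) ∪ (insert (e j) (Y e i.val) \ Y e i.val) := by
          refine stab_diff hσ hW0 (subset_insert _ _) ?_ hnc hc2
          refine Subset.trans ?_ hsub2
          rw [hY2]
          exact insert_subset_insert _ (subset_insert _ _)
        have hA : vcl v (Y e (t - k)) \ vcl v (Y e i.val) ⊆
            Es v β (Y e t) (Y e (t - k)) ∪ (Y e (t - k) \ Y e i.val) :=
          stab_diff hσ hW0 (Y_mono e (by omega)) hsub2 hnc hc2
        have hone : ∀ z, (insert z (Y e i.val) \ Y e i.val).card ≤ 1 := by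
          intro z
          have : insert z (Y e i.val) \ Y e i.val ⊆ {z} := by
            intro w hw
            rw [mem_sdiff, mem_insert] at hw
            rw [mem_singleton]
            exact hw.1.resolve_right hw.2
          exact (card_le_card this).trans (by simp)
        have htwo : (Y e (t - k) \ Y e i.val).card ≤ 2 := by
          have : Y e (t - k) \ Y e i.val ⊆ {e j, e i} := by
            intro w hw
            rw [mem_sdiff, hY2, mem_insert, mem_insert] at hw
            rw [mem_insert, mem_singleton]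
            rcases hw.1 with h | h | h
            · exact Or.inl h
            · exact Or.inr h
            · exact absurd h hw.2
          exact (card_le_card this).trans card_le_two
        have hxc : (vcl v (insert (e i) (Y e i.val)) \ vcl v (Y e i.val)).card ≤ X (k + 1) + 1 := by
          refine (card_le_card hx).trans ((card_union_le _ _).trans (Nat.add_le_add ?_ (hone _)))
          have h5 := h3 (k + 1) (by omega) (by omega)
          have : t - (k + 1) = j.val := by omega
          rw [this, hY1] at h5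
          exact h5
        have hyc : (vcl v (insert (e j) (Y e i.val)) \ vcl v (Y e i.val)).card ≤ X (k + 1) + 1 :=
          (card_le_card hy).trans ((card_union_le _ _).trans (Nat.add_le_add (not_lt.1 hc1) (hone _)))
        have hAc : (vcl v (Y e (t - k)) \ vcl v (Y e i.val)).card ≤
            (Es v β (Y e t) (Y e (t - k))).card + 2 :=
          (card_le_card hA).trans ((card_union_le _ _).trans (Nat.add_le_add le_rfl htwo))
        have hlow : (Es v β (Y e t) (Y e (t - k))).card ≤
            (Es v β (Y e t) (Y e i.val)).card +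
              (vcl v (Y e (t - k)) \ vcl v (Y e i.val)).card := by
          have h6 : Es v β (Y e t) (Y e (t - k)) ⊆
              Es v β (Y e t) (Y e i.val) ∪ (vcl v (Y e (t - k)) \ vcl v (Y e i.val)) := by
            intro g hg
            unfold Es at hg ⊢
            rw [mem_sdiff] at hg
            rw [mem_union, mem_sdiff, mem_sdiff]
            by_cases hg' : g ∈ vcl v (Y e i.val)
            · exact Or.inl ⟨hg', hg.2⟩
            · exact Or.inr ⟨hg.1, hg'⟩
          exact (card_le_card h6).trans (card_union_le _ _)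
        have hk2 : (Es v β (Y e t) (Y e i.val)).card ≤ X (k + 2) := by
          have h5 := h3 (k + 2) (by omega) (by omega)
          have : t - (k + 2) = i.val := by omega
          rw [this] at h5
          exact h5
        have hY3 : insert (e i) (insert (e j) (Y e i.val)) = Y e (t - k) := by
          rw [hY2, insert_comm]
        change (e i, e j) ∈ lpairs v K₁ κ₀ (2 * X (k + 1)) (Y e i.val)
        unfold lpairs
        rw [mem_filter]
        refine ⟨mem_univ _, ?_, ?_, ?_, ?_⟩
        · change (vcl v (insert (e i) (Y e i.val)) \ vcl v (Y e i.val)).card ≤ 2 * X (k + 1)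
          omega
        · change (vcl v (insert (e j) (Y e i.val)) \ vcl v (Y e i.val)).card ≤ 2 * X (k + 1)
          omega
        · change K₁ * (2 * X (k + 1)) <
            (vcl v (insert (e i) (insert (e j) (Y e i.val))) \ vcl v (Y e i.val)).card
          rw [hY3]
          omega
        · change ((vcl v (insert (e i) (insert (e j) (Y e i.val))) \ vcl v (Y e i.val)).card : ℝ) ≤
            κ₀ * (Fintype.card α : ℝ)
          rw [hY3, hN]
          have h7 : ((vcl v (Y e (t - k)) \ vcl v (Y e i.val)).card : ℝ) ≤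
            ((Es v β (Y e t) (Y e (t - k))).card : ℝ) + 2 := by exact_mod_cast hAc
          linarith
    · right; left
      exact ⟨hEx, hc2⟩

theorem claimII {v : α → E} {N M M₂ β σ : ℕ} {ε ν : ℝ} (h : Good v N M M₂ β σ ε ν)
    {X : ℕ → ℕ} {J k K₁ : ℕ} {d₀ κ κ₀ η : ℝ} (hη : 0 ≤ η) (hd : 0 < d₀) (hνd : ν ≤ d₀ / 8)
    (hJ : (J : ℝ) * ν ≤ 1) (hk : k + 2 ≤ J) (hX1 : 1 ≤ X (k + 1))
    (hX : X (k + 2) + K₁ * (2 * X (k + 1)) ≤ X k) (hκ : κ * N + 2 ≤ κ₀ * N)
    (hP : ∀ (X' : ℕ) (W : Finset α), 1 ≤ X' →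
      ((lpairs v K₁ κ₀ X' W).card : ℝ) ≤ η * (Fintype.card α : ℝ) ^ 2) :
    ∑ t ∈ range M, PP (FF (N := N) v β σ X J d₀ κ t k) ≤
      ∑ t ∈ range M, PP (FF (N := N) v β σ X J d₀ κ t (k + 1)) + 16 * η / d₀ + (J + 1) * ν := by
  have hσβ := h.σβ
  have hJβ : J ≤ β := h.inv hJ
  have hM8 := h.M8
  have hpx := px_le v h.card hσβ hM8.2 hM8.1 hd (h.Mθ hνd) hη
    (fun W => lpairs v K₁ κ₀ (2 * X (k + 1)) W)
    (fun W => by
      have := hP (2 * X (k + 1)) W (by omega)
      rw [h.card] at this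
      exact this) k
  have hst := stabP h J
  -- the third event as a function of `t`
  set T3 : ℕ → ℝ := fun t => PP (fun e : Fin N ≃ α => OK v β σ (Y e t) ∧
      d₀ * N ≤ ((vcl v (Y e t)).card : ℝ) ∧
      ∃ x y, At e (t - k - 2) x ∧ At e (t - k - 1) y ∧
        (x, y) ∈ lpairs v K₁ κ₀ (2 * X (k + 1)) (Y e (t - k - 2))) with hT3
  have hstep : ∀ t ∈ range M, PP (FF (N := N) v β σ X J d₀ κ t k) ≤
      PP (FF (N := N) v β σ X J d₀ κ t (k + 1)) +
      PP (fun e : Fin N ≃ α => Ex v β σ e t ∧ ¬ ∀ x ∈ Bs v β (Y e t), x ∈ Y e (t - J)) +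
      (if k + 2 ≤ t then T3 t else 0) := by
    intro t ht
    rw [mem_range] at ht
    by_cases hkt : k + 2 ≤ t
    · rw [if_pos hkt]
      have htN : t < N := by omega
      refine (PP_mono (B := fun e => _ ∨ _ ∨ _) (fun e he =>
        ClaimIIAux.point hσβ hJβ h.card hk hX1 hX hκ htN hkt e he)).trans ?_
      refine (PP_or_le _ _).trans ?_
      have h1 := ClaimIIAux.PP_bij (N := N) (α := α) (⟨t - k - 2, by omega⟩ : Fin N)
        ⟨t - k - 1, by omega⟩ (FF (N := N) v β σ X J d₀ κ t (k + 1))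
      rw [h1, add_assoc]
      exact add_le_add le_rfl (PP_or_le _ _)
    · rw [if_neg hkt]
      have h0 : PP (FF (N := N) v β σ X J d₀ κ t k) ≤ 0 := by
        have h1 : PP (FF (N := N) v β σ X J d₀ κ t k) ≤
            PP (fun _ : Fin N ≃ α => False) := by
          refine PP_mono fun e he => ?_
          have := he.1.ge
          omega
        refine h1.trans (le_of_eq ?_)
        unfold PP EE
        simp [ind_not_of]
      have h1 := PP_nonneg (FF (N := N) v β σ X J d₀ κ t (k + 1))
      have h2 := PP_nonneg (fun e : Fin N ≃ α => Ex v β σ e t ∧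
        ¬ ∀ x ∈ Bs v β (Y e t), x ∈ Y e (t - J))
      linarith
  have hsum := sum_le_sum hstep
  rw [sum_add_distrib, sum_add_distrib] at hsum
  have hT : ∑ t ∈ range M, (if k + 2 ≤ t then T3 t else 0) ≤ ∑ t ∈ Icc (k + 2) M, T3 t := by
    rw [← sum_filter]
    refine sum_le_sum_of_subset_of_nonneg ?_ (fun t _ _ => PP_nonneg _)
    intro t ht
    rw [mem_filter, mem_range] at ht
    rw [mem_Icc]
    omega
  have hT' : ∑ t ∈ Icc (k + 2) M, T3 t ≤ 16 * η / d₀ := hpx
  linarith

end

end Pool.Agent.Lib.P0fc
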