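import Mathlib
import Pool.Agent.Lib.P0fb.SmallSh
import Pool.Agent.Lib.P0fb.Params

/-!
# With high probability only `O(n)` faces of `Y` lie in a small core with at most one other face missing

`Bsc d n b W`: the faces `x ∈ W` that lie in a core `K`, `|K| < b`, all members of which except at most
one are in `W`.  The proof is that of `small_shadow` (`P0fb/SmallSh.lean`; the lemmas of its namespace
`SmallShAux` can be used: `fam`, `exists_min`).  Let `b = ⌈ε n^d⌉₊`, `ε` from `sumK` for `2 c` (`= c'`).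
Let `x ∈ Bsc`, `K` as above with missing member `g`; take a minimal core `K' ⊆ K` at `x` (`exists_min`);
`K'.erase g ⊆ W`.
(1) `K' = (insert w x).powersetCard (d+1)`: `w ∉ x`; if `g ∈ K'` then `(insert w x, g) ∈ Zs`, otherwise
`(insert w x, x) ∈ Zs`; in both cases `x` is one of the `d + 2` faces of the first component of an
element of `Zs`: at most `(d+2) |Zs|` faces `x` (`Zs` from `P0fb/Simp.lean`; `simp_tail` bounds `|Zs|`).
(2) otherwise `K' ∈ fam d n ε x` and for some `g ∈ K'` (if `g ∉ K'` take `g = x`) the set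
`AB g K' = {y | y.val ∈ K'.erase g}` (as faces, `|K'| - 1` elements, because all members of `K'` have
`d + 1` elements) is contained in `W`.  The expected number of the triples `(x, K', g)` is at most
`∑_x ∑_{K'} |K'| p^(|K'|-1) ≤ ∑_x ∑_{K'} 2 (2p)^(|K'|-1)` (`|K'| ≤ 2^|K'|`), `p = M/N`, by `pp_incl_le`, and
`2 p n ≤ 2 c`, so by `sumK` it is at most `2 C n^(d+1)/n^(d+1)`, a constant.  Markov: it is `≥ n` with
probability `≤ 2C/n`.
So `|Bsc| ≤ ((d+2) C₂ + 1) n` with probability tending to `1`.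
-/

namespace Pool.Agent.Lib.P0fc

open Finset Pool.Agent.Lib.P0fb Filter

open Classical in
/-- faces of `W` in a core with less than `b` members, at most one of them outside `W` -/
noncomputable def Bsc (d n b : ℕ) (W : Finset (Fc n d)) : Finset (Fc n d) :=
  W.filter (fun x => ∃ (K : Finset (Finset (Fin n))) (g : Finset (Fin n)), Core d K ∧ x.val ∈ K ∧
    K.erase g ⊆ W.image Subtype.val ∧ K.card < b)

namespace SmallBAux

open SmallShAux

open Classical in
/-- the members of `K` other than `g`, as faces -/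
noncomputable def AB (d n : ℕ) (g : Finset (Fin n)) (K : Finset (Finset (Fin n))) :
    Finset (Fc n d) :=
  univ.filter (fun x => x.val ∈ K.erase g)

theorem card_AB {d n : ℕ} (g : Finset (Fin n)) {K : Finset (Finset (Fin n))}
    (hg : g ∈ K) (hK : ∀ σ ∈ K, σ.card = d + 1) : (AB d n g K).card = K.card - 1 := by
  classical
  rw [← Finset.card_erase_of_mem hg]
  rw [← Finset.card_map ⟨Subtype.val, Subtype.val_injective⟩]
  congr 1
  ext σ
  rw [Finset.mem_map]
  constructor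
  · rintro ⟨x, hx, rfl⟩
    rw [AB, Finset.mem_filter] at hx
    exact hx.2
  · intro hσ
    refine ⟨⟨σ, hK σ (Finset.mem_of_mem_erase hσ)⟩, ?_, rfl⟩
    rw [AB, Finset.mem_filter]
    exact ⟨Finset.mem_univ _, hσ⟩

theorem card_Bsc_le {d n : ℕ} (ε : ℝ) (W : Finset (Fc n d)) :
    ((Bsc d n ⌈ε * (n : ℝ) ^ d⌉₊ W).card : ℝ) ≤ ((d : ℝ) + 2) * (Zs d n W).card +
      ∑ x : Fc n d, ∑ K ∈ fam d n ε x.val, ∑ g ∈ K, ind (AB d n g K ⊆ W) := by
  classical
  have hsplit : Bsc d n ⌈ε * (n : ℝ) ^ d⌉₊ W ⊆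
      (Zs d n W).biUnion (fun q => SimpAux.FF d q.1) ∪
      univ.filter (fun x : Fc n d => ∃ K ∈ fam d n ε x.val, ∃ g ∈ K, AB d n g K ⊆ W) := by
    intro x hx
    rw [Bsc, Finset.mem_filter] at hx
    obtain ⟨hxW, K, g, hK, hxK, hKW, hcard⟩ := hx
    obtain ⟨K', hK'K, hmin⟩ := exists_min K hxK hK
    have hK'W : K'.erase g ⊆ W.image Subtype.val := (Finset.erase_subset_erase _ hK'K).trans hKW
    have hc' : (K'.card : ℝ) < ε * (n : ℝ) ^ d := by
      have h1 : K'.card ≤ K.card := Finset.card_le_card hK'K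
      have h2 : K'.card < ⌈ε * (n : ℝ) ^ d⌉₊ := lt_of_le_of_lt h1 hcard
      exact Nat.lt_ceil.1 h2
    have back : ∀ σ : Fc n d, σ.val ∈ K' → σ.val ≠ g → σ ∈ W := by
      intro σ hσ hne
      have h2 := hK'W (Finset.mem_erase.2 ⟨hne, hσ⟩)
      rw [Finset.mem_image] at h2
      obtain ⟨y, hy, hyσ⟩ := h2
      rwa [← Subtype.ext hyσ]
    by_cases hw : ∃ w : Fin n, K' = (insert w x.val).powersetCard (d + 1)
    · obtain ⟨w, hw⟩ := hw
      rw [Finset.mem_union]
      left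
      rw [Finset.mem_biUnion]
      have hwx : w ∉ x.val := by
        intro hwx
        have h1 : K' = {x.val} := by
          rw [hw, Finset.insert_eq_of_mem hwx]
          have h2 := Finset.powersetCard_self x.val
          rwa [x.2] at h2
        have hne : x.val.Nonempty := by
          rw [← Finset.card_pos, x.2]; omega
        obtain ⟨u, hu⟩ := hne
        obtain ⟨σ', hσ', hne', -⟩ := hmin.2.1.2 x.val hmin.1 u hu
        rw [h1, Finset.mem_singleton] at hσ'
        exact hne' hσ'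
      have hD : (insert w x.val).card = d + 2 := by
        rw [Finset.card_insert_of_notMem hwx, x.2]
      have hmem : ∀ σ : Fc n d, σ.val ⊆ insert w x.val → σ.val ∈ K' := by
        intro σ hσ
        rw [hw, Finset.mem_powersetCard]
        exact ⟨hσ, σ.2⟩
      have hxF : ∀ y : Fc n d, x ∈ SimpAux.FF d ((insert w x.val, y) : Finset (Fin n) × Fc n d).1 := by
        intro y
        rw [SimpAux.mem_FF]
        exact Finset.subset_insert _ _
      by_cases hgK : g ∈ K'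
      · have hgc : g.card = d + 1 := hmin.2.1.1 g hgK
        refine ⟨(insert w x.val, ⟨g, hgc⟩), ?_, hxF _⟩
        rw [Zs, Finset.mem_filter]
        refine ⟨Finset.mem_univ _, hD, ?_, ?_⟩
        · show g ⊆ insert w x.val
          rw [hw, Finset.mem_powersetCard] at hgK
          exact hgK.1
        · intro σ hσ hne
          exact back σ (hmem σ hσ) (fun h => hne (Subtype.ext h))
      · refine ⟨(insert w x.val, x), ?_, hxF _⟩
        rw [Zs, Finset.mem_filter]
        refine ⟨Finset.mem_univ _, hD, Finset.subset_insert _ _, ?_⟩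
        intro σ hσ hne
        exact back σ (hmem σ hσ) (fun h => hgK (h ▸ hmem σ hσ))
    · rw [Finset.mem_union]
      right
      rw [Finset.mem_filter]
      refine ⟨Finset.mem_univ _, K', ?_, ?_⟩
      · rw [fam, Finset.mem_filter]
        exact ⟨Finset.mem_univ _, hmin, hc', fun w h => hw ⟨w, h⟩⟩
      · by_cases hgK : g ∈ K'
        · refine ⟨g, hgK, ?_⟩
          intro y hy
          rw [AB, Finset.mem_filter, Finset.mem_erase] at hy
          exact back y hy.2.2 hy.2.1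
        · refine ⟨x.val, hmin.1, ?_⟩
          intro y hy
          rw [AB, Finset.mem_filter, Finset.mem_erase] at hy
          exact back y hy.2.2 (fun h => hgK (h ▸ hy.2.2))
  have h1 := (Finset.card_le_card hsplit).trans (Finset.card_union_le _ _)
  have h2 : ((Zs d n W).biUnion (fun q => SimpAux.FF d q.1)).card ≤ (Zs d n W).card * (d + 2) := by
    refine Finset.card_biUnion_le_card_mul _ _ _ fun q hq => ?_
    rw [Zs, Finset.mem_filter] at hq
    rw [SimpAux.card_FF, hq.2.1]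
    have h5 : (d + 2).choose (d + 1) = d + 2 := by
      have := Nat.choose_symm_of_eq_add (show d + 2 = (d + 1) + 1 by omega)
      rw [this, Nat.choose_one_right]
    rw [h5]
  have h3 : ((univ.filter (fun x : Fc n d => ∃ K ∈ fam d n ε x.val, ∃ g ∈ K,
      AB d n g K ⊆ W)).card : ℝ) ≤
      ∑ x : Fc n d, ∑ K ∈ fam d n ε x.val, ∑ g ∈ K, ind (AB d n g K ⊆ W) := by
    rw [Finset.card_filter]
    push_cast
    apply Finset.sum_le_sum
    intro x _
    by_cases hx : ∃ K ∈ fam d n ε x.val, ∃ g ∈ K, AB d n g K ⊆ W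
    · rw [if_pos hx]
      obtain ⟨K, hK, g, hg, hKW⟩ := hx
      calc (1 : ℝ) = ind (AB d n g K ⊆ W) := (ind_of hKW).symm
        _ ≤ ∑ g ∈ K, ind (AB d n g K ⊆ W) := Finset.single_le_sum (f := fun g => ind (AB d n g K ⊆ W))
            (fun g _ => ind_nonneg _) hg
        _ ≤ _ := Finset.single_le_sum (f := fun K => ∑ g ∈ K, ind (AB d n g K ⊆ W))
            (fun K _ => Finset.sum_nonneg fun g _ => ind_nonneg _) hK
    · rw [if_neg hx]
      exact Finset.sum_nonneg (fun K _ => Finset.sum_nonneg fun g _ => ind_nonneg _)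
  calc ((Bsc d n ⌈ε * (n : ℝ) ^ d⌉₊ W).card : ℝ)
      ≤ (((Zs d n W).biUnion (fun q => SimpAux.FF d q.1)).card +
        (univ.filter (fun x : Fc n d => ∃ K ∈ fam d n ε x.val, ∃ g ∈ K,
          AB d n g K ⊆ W)).card : ℕ) := by
        exact_mod_cast h1
    _ ≤ _ := by
        push_cast
        have h2' : (((Zs d n W).biUnion (fun q => SimpAux.FF d q.1)).card : ℝ) ≤
            (Zs d n W).card * ((d : ℝ) + 2) := by exact_mod_cast h2
        linarith

theorem pow_card_le {k : ℕ} (hk : 1 ≤ k) {p : ℝ} (hp : 0 ≤ p) :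
    (k : ℝ) * p ^ (k - 1) ≤ 2 * (2 * p) ^ (k - 1) := by
  obtain ⟨m, rfl⟩ := Nat.exists_eq_add_of_le hk
  have h1 : 1 + m - 1 = m := by omega
  rw [h1, mul_pow, ← mul_assoc]
  refine mul_le_mul_of_nonneg_right ?_ (by positivity)
  have h2 : 1 + m < 2 ^ (1 + m) := Nat.lt_two_pow_self
  have h3 : ((1 + m : ℕ) : ℝ) ≤ (2 : ℝ) ^ (1 + m) := by exact_mod_cast h2.le
  rw [pow_add, pow_one] at h3
  exact h3

theorem EE_B_le {d n : ℕ} {ε C p : ℝ} {M : ℕ} (hM : M ≤ n.choose (d + 1)) (hn : 0 < n)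
    (hp : p = (M : ℝ) / (n.choose (d + 1) : ℝ))
    (hs : ∀ g : Finset (Fin n), g.card = d + 1 →
      ∑ K ∈ fam d n ε g, (2 * p) ^ (K.card - 1) ≤ C / (n : ℝ) ^ (d + 1)) (hC : 0 < C) :
    EE (fun e : Fin (n.choose (d + 1)) ≃ Fc n d =>
      ∑ x : Fc n d, ∑ K ∈ fam d n ε x.val, ∑ g ∈ K, ind (AB d n g K ⊆ Y e M)) ≤ 2 * C := by
  classical
  have hp0 : 0 ≤ p := by
    rw [hp]
    positivity
  have hcardFc : Fintype.card (Fc n d) = n.choose (d + 1) := by
    rw [Fintype.card_finset_len, Fintype.card_fin]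
  rw [EE_sum]
  have h1 : ∀ x : Fc n d, EE (fun e : Fin (n.choose (d + 1)) ≃ Fc n d =>
      ∑ K ∈ fam d n ε x.val, ∑ g ∈ K, ind (AB d n g K ⊆ Y e M)) ≤
        2 * (C / (n : ℝ) ^ (d + 1)) := by
    intro x
    rw [EE_sum]
    refine le_trans ?_ (mul_le_mul_of_nonneg_left (hs x.val x.2) (by norm_num : (0 : ℝ) ≤ 2))
    rw [Finset.mul_sum]
    apply Finset.sum_le_sum
    intro K hK
    rw [fam, Finset.mem_filter] at hK
    have hpos : 1 ≤ K.card := Finset.card_pos.2 ⟨_, hK.2.1.1⟩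
    refine le_trans ?_ (pow_card_le hpos hp0)
    rw [EE_sum, ← nsmul_eq_mul]
    refine Finset.sum_le_card_nsmul _ _ _ fun g hg => ?_
    have h2 := pp_incl_le (N := n.choose (d + 1)) hcardFc hM (AB d n g K)
    rw [card_AB g hg hK.2.1.2.1.1, ← hp] at h2
    exact h2
  refine (Finset.sum_le_sum (fun x _ => h1 x)).trans ?_
  rw [Finset.sum_const, nsmul_eq_mul, Finset.card_univ, hcardFc]
  have h3 : (n.choose (d + 1) : ℝ) ≤ (n : ℝ) ^ (d + 1) := by
    exact_mod_cast Nat.choose_le_pow n (d + 1)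
  have h4 : (0 : ℝ) < (n : ℝ) ^ (d + 1) := by positivity
  have h5 : (n.choose (d + 1) : ℝ) * (C / (n : ℝ) ^ (d + 1)) ≤ C := by
    rw [mul_div_assoc', div_le_iff₀ h4]
    nlinarith
  linarith

end SmallBAux

open SmallShAux SmallBAux

theorem small_B (d : ℕ) (hd : 2 ≤ d) (c : ℝ) (hc : 0 < c) : ∃ ε C : ℝ, 0 < ε ∧ 0 < C ∧
    ∀ M : ℕ → ℕ, (∀ᶠ n : ℕ in atTop, (M n : ℝ) * n ≤ c * (n.choose (d + 1) : ℝ)) →
      Tendsto (fun n : ℕ => PP (fun e : Fin (n.choose (d + 1)) ≃ Fc n d =>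
        ((Bsc d n ⌈ε * (n : ℝ) ^ d⌉₊ (Y e (M n))).card : ℝ) ≤ C * n)) atTop (nhds 1) := by
  classical
  obtain ⟨ε, C₁, hε, hC₁, hsum⟩ := sumK d hd (2 * c) (by positivity)
  obtain ⟨C₂, hC₂, hsimp⟩ := simp_tail d hd c hc
  refine ⟨ε, ((d : ℝ) + 2) * C₂ + 1, hε, by positivity, fun M hM => ?_⟩
  have hcardFc : ∀ n : ℕ, Fintype.card (Fc n d) = n.choose (d + 1) := by
    intro n
    rw [Fintype.card_finset_len, Fintype.card_fin]
  have hlow : Tendsto (fun n : ℕ => PP (fun e : Fin (n.choose (d + 1)) ≃ Fc n d =>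
        ((Zs d n (Y e (M n))).card : ℝ) ≤ C₂ * n) - (2 * C₁) / (n : ℝ)) atTop (nhds 1) := by
    have h1 := (hsimp M hM).sub (tendsto_const_div_atTop_nhds_zero_nat (2 * C₁))
    simpa using h1
  refine tendsto_of_tendsto_of_tendsto_of_le_of_le' hlow tendsto_const_nhds ?_
    (Eventually.of_forall (fun n => PP_le_one _))
  filter_upwards [hM, hsum, eventually_gt_atTop 0, eventually_ge_atTop ⌈c⌉₊,
    eventually_ge_atTop (d + 1)] with n hMn hsn hn0 hnc hnd
  have hn0' : (0 : ℝ) < n := by exact_mod_cast hn0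
  have hnc' : c ≤ n := (Nat.le_ceil c).trans (by exact_mod_cast hnc)
  have hNpos : 0 < n.choose (d + 1) := Nat.choose_pos hnd
  have hNpos' : (0 : ℝ) < (n.choose (d + 1) : ℝ) := by exact_mod_cast hNpos
  have hMN : M n ≤ n.choose (d + 1) := by
    have h1 : (M n : ℝ) * n ≤ (n.choose (d + 1) : ℝ) * n := by
      calc (M n : ℝ) * n ≤ c * (n.choose (d + 1) : ℝ) := hMn
        _ ≤ n * (n.choose (d + 1) : ℝ) := by gcongr
        _ = _ := mul_comm _ _
    have h2 := le_of_mul_le_mul_right h1 hn0'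
    exact_mod_cast h2
  have hs : ∀ g : Finset (Fin n), g.card = d + 1 →
      ∑ K ∈ fam d n ε g, (2 * ((M n : ℝ) / (n.choose (d + 1) : ℝ))) ^ (K.card - 1) ≤
        C₁ / (n : ℝ) ^ (d + 1) := by
    intro g hg
    refine hsn g hg _ (by positivity) ?_
    rw [mul_assoc, div_mul_eq_mul_div]
    refine mul_le_mul_of_nonneg_left ?_ (by norm_num)
    rw [div_le_iff₀ hNpos']
    exact hMn
  have hT := EE_B_le (ε := ε) (C := C₁) (M := M n) hMN hn0 rfl hs hC₁
  have hmar := markov (f := fun e : Fin (n.choose (d + 1)) ≃ Fc n d =>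
      ∑ x : Fc n d, ∑ K ∈ fam d n ε x.val, ∑ g ∈ K, ind (AB d n g K ⊆ Y e (M n)))
      (fun e => Finset.sum_nonneg (fun x _ => Finset.sum_nonneg (fun K _ =>
        Finset.sum_nonneg fun g _ => ind_nonneg _))) hn0'
  have hmar2 : PP (fun e : Fin (n.choose (d + 1)) ≃ Fc n d => (n : ℝ) ≤
      ∑ x : Fc n d, ∑ K ∈ fam d n ε x.val, ∑ g ∈ K, ind (AB d n g K ⊆ Y e (M n))) ≤
        (2 * C₁) / n :=
    hmar.trans (by gcongr)
  have h1 := PP_add_not (hcardFc n) (fun e : Fin (n.choose (d + 1)) ≃ Fc n d =>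
        ((Bsc d n ⌈ε * (n : ℝ) ^ d⌉₊ (Y e (M n))).card : ℝ) ≤ (((d : ℝ) + 2) * C₂ + 1) * n)
  have h2 := PP_add_not (hcardFc n) (fun e : Fin (n.choose (d + 1)) ≃ Fc n d =>
        ((Zs d n (Y e (M n))).card : ℝ) ≤ C₂ * n)
  have h3 : PP (fun e : Fin (n.choose (d + 1)) ≃ Fc n d =>
        ¬ ((Bsc d n ⌈ε * (n : ℝ) ^ d⌉₊ (Y e (M n))).card : ℝ) ≤ (((d : ℝ) + 2) * C₂ + 1) * n) ≤
      PP (fun e : Fin (n.choose (d + 1)) ≃ Fc n d => ¬ ((Zs d n (Y e (M n))).card : ℝ) ≤ C₂ * n) +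
      PP (fun e : Fin (n.choose (d + 1)) ≃ Fc n d => (n : ℝ) ≤
        ∑ x : Fc n d, ∑ K ∈ fam d n ε x.val, ∑ g ∈ K, ind (AB d n g K ⊆ Y e (M n))) := by
    refine le_trans (PP_mono ?_) (PP_or_le _ _)
    intro e he
    by_contra hcon
    push Not at hcon
    apply he
    have h4 := card_Bsc_le ε (Y e (M n))
    have h5 := hcon.1
    have h6 := hcon.2
    have h7 : ((d : ℝ) + 2) * ((Zs d n (Y e (M n))).card : ℝ) ≤ ((d : ℝ) + 2) * (C₂ * n) :=
      mul_le_mul_of_nonneg_left h5 (by positivity)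
    linarith
  linarith

end Pool.Agent.Lib.P0fc
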