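import Mathlib
import Pool.Agent.Lib.P0fb.LinAlg
import Pool.Agent.Lib.P0fb.LinRk
import Pool.Agent.Lib.P0fc.Mat
import Pool.Agent.Lib.P0fc.SmallB

/-!
# The concrete matroid

`vb n d x = bd ℝ n x.val`, so `vcl (vb n d) W = clF ℝ n d W` (definitions).
* `circuit_core`: if `g ∈ vcl T`, `g ∉ vcl (T.erase x)` for all `x ∈ T` (and `g ∉ T`), then in
  `bd g = ∑_{t ∈ T} c t • bd t` all `c t ≠ 0`, and `insert g T` is a core (`(insert g T).image Subtype.val`):
  see `core_insert`, `core_of_rel` in `P0fb/LinAlg.lean` (private there: copy the short proofs).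
* `sm_sub`: if `g ∈ vcl T`, `T ⊆ W.erase g`, `|T| < β`, take such a `T` with `|T|` minimal; the core
  `insert g T` has at most `β < b` members.
* `Bs_sub`: let `x ∈ W`, `g ≠ x`, `T ⊆ W`, `|T| < β`, `x ∈ T`, `g ∈ vcl T`, `g ∉ vcl (T.erase x)`.  Take a
  minimal `T' ⊆ T` with `g ∈ vcl T'`; then `x ∈ T'` (otherwise `T' ⊆ T.erase x`), `g ∉ T'` (if `g ∈ T'`
  then `T' = {g}` by minimality, `x = g`), `g ∉ vcl (T'.erase y)` for `y ∈ T'`; the core `insert g T'` has at
  most `β < b` members, and all of them except `g` are in `W`.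
* `exit_exists`: let `|sm_β (Y M)| ≤ |Smc_b (Y M)| ≤ σ`, `2 C(n,d) ≤ M`; `t` = the largest `t ≤ 2 C(n,d)` with
  `|nc (Y t)| ≤ σ` (`t = 0` is such: `nc ∅ = ∅`).  `t < 2 C(n,d)` because
  `|nc (Y (2C(n,d)))| ≥ C(n,d) ≥ b > σ` (`rank_bound`, `card_Y`; `2 C(n,d) ≤ N`).  `|nc (Y (t+1))| > σ`; every
  element of `nc (Y (t+1))` lies in a circuit inside `Y (t+1)`; if all these circuits (minimal ones) had less
  than `b` members then `nc (Y (t+1)) ⊆ Smc_b (Y (t+1)) ⊆ Smc_b (Y M)`, too small; so there is a circuit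
  with at least `b` members, all of them in `nc (Y (t+1))` (this is `d2` in `exists_sys` of
  `P0fb/LinAlg.lean`).  `OK (Y t)`: `|nc| ≤ σ` and `sm_β (Y t) ⊆ Smc_b (Y t) ⊆ Smc_b (Y M)`.
-/

namespace Pool.Agent.Lib.P0fc

open Finset Pool.Agent.Lib.P0fb Filter

/-- the boundary vectors -/
noncomputable def vb (n d : ℕ) : Fc n d → (Finset (Fin n) → ℝ) := fun x => bd ℝ n x.val

namespace ConcAux

theorem bd_apply_ne {n : ℕ} {σ τ : Finset (Fin n)} (h : ¬ τ ⊆ σ) :
    bd ℝ n σ τ = 0 := by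
  unfold bd
  rw [Finset.sum_apply]
  refine Finset.sum_eq_zero fun v _ => ?_
  rw [Pi.smul_apply, Pi.single_apply, if_neg, smul_zero]
  rintro rfl
  exact h (Finset.erase_subset _ _)

theorem bd_apply_self {n : ℕ} {σ : Finset (Fin n)} {u : Fin n}
    (hu : u ∈ σ) : bd ℝ n σ (σ.erase u) ≠ 0 := by
  unfold bd
  rw [Finset.sum_apply, Finset.sum_eq_single u]
  · rw [Pi.smul_apply, Pi.single_eq_same, smul_eq_mul, mul_one]
    exact pow_ne_zero _ (neg_ne_zero.2 one_ne_zero)
  · intro v _ hvu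
    rw [Pi.smul_apply, Pi.single_apply, if_neg, smul_zero]
    intro h
    have h1 : u ∈ σ.erase v := Finset.mem_erase.2 ⟨hvu.symm, hu⟩
    rw [← h] at h1
    exact (Finset.notMem_erase _ _) h1
  · intro h
    exact absurd hu h

theorem core_of_rel {n d : ℕ} (K : Finset (Fc n d)) (c : Fc n d → ℝ)
    (hc : ∀ x ∈ K, c x ≠ 0) (h : ∑ x ∈ K, c x • bd ℝ n x.val = 0) :
    Core d (K.image Subtype.val) := by
  classical
  refine ⟨fun σ hσ => ?_, fun σ hσ u hu => ?_⟩
  · obtain ⟨x, _, rfl⟩ := Finset.mem_image.1 hσ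
    exact x.2
  · obtain ⟨x, hx, rfl⟩ := Finset.mem_image.1 hσ
    by_contra hcon
    push Not at hcon
    have h1 := congrFun h (x.val.erase u)
    rw [Finset.sum_apply, Finset.sum_eq_single x] at h1
    · rw [Pi.smul_apply, smul_eq_mul] at h1
      exact mul_ne_zero (hc x hx) (bd_apply_self hu) h1
    · intro y hy hyx
      rw [Pi.smul_apply, bd_apply_ne (hcon y.val (Finset.mem_image_of_mem _ hy)
        (fun e => hyx (Subtype.ext e))), smul_zero]
    · intro h
      exact absurd hx h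

theorem exists_rel {n d : ℕ} {W : Finset (Fc n d)} {g : Fc n d}
    (hg : g ∈ clF ℝ n d W) : ∃ (T : Finset (Fc n d)) (c : Fc n d → ℝ), T ⊆ W ∧
      (∀ t ∈ T, c t ≠ 0) ∧ bd ℝ n g.val = ∑ t ∈ T, c t • bd ℝ n t.val := by
  classical
  have h := (Finset.mem_filter.1 hg).2
  obtain ⟨c, hc⟩ : ∃ c : Fc n d → ℝ, ∑ x ∈ W, c x • bd ℝ n x.val = bd ℝ n g.val := by
    obtain ⟨c, hc⟩ := (Submodule.mem_span_image_finset_iff_exists_fun ℝ).1 h
    refine ⟨fun x => if hx : x ∈ W then c ⟨x, hx⟩ else 0, ?_⟩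
    rw [← hc, ← Finset.sum_coe_sort W]
    refine Finset.sum_congr rfl fun x _ => ?_
    simp only [dif_pos x.2]
  refine ⟨W.filter (fun t => c t ≠ 0), c, Finset.filter_subset _ _,
    fun t ht => (Finset.mem_filter.1 ht).2, ?_⟩
  rw [← hc, Finset.sum_filter_of_ne]
  intro x _ hx h0
  rw [h0, zero_smul] at hx
  exact hx rfl

theorem core_insert {n d : ℕ} {T : Finset (Fc n d)} {c : Fc n d → ℝ}
    {g : Fc n d} (hg : g ∉ T) (hc : ∀ t ∈ T, c t ≠ 0)
    (h : bd ℝ n g.val = ∑ t ∈ T, c t • bd ℝ n t.val) :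
    Core d ((insert g T).image Subtype.val) := by
  classical
  refine core_of_rel (insert g T) (fun x => if x = g then -1 else c x) ?_ ?_
  · intro x hx
    rcases Finset.mem_insert.1 hx with rfl | hx
    · simp
    · have hne : x ≠ g := fun e => hg (e ▸ hx)
      simp only [if_neg hne]
      exact hc x hx
  · rw [Finset.sum_insert hg]
    have e : ∑ x ∈ T, (if x = g then (-1 : ℝ) else c x) • bd ℝ n x.val =
        ∑ x ∈ T, c x • bd ℝ n x.val :=
      Finset.sum_congr rfl fun x hx => by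
        have hne : x ≠ g := by
          rintro rfl
          exact hg hx
        rw [if_neg hne]
    rw [e, ← h]
    simp

theorem clF_mono {n d : ℕ} {W W' : Finset (Fc n d)} (h : W ⊆ W') :
    clF ℝ n d W ⊆ clF ℝ n d W' := by
  classical
  intro x hx
  have h1 := (Finset.mem_filter.1 hx).2
  exact Finset.mem_filter.2 ⟨Finset.mem_univ _,
    Submodule.span_mono (Set.image_mono (Finset.coe_subset.2 h)) h1⟩

theorem clF_sub {n d : ℕ} (W : Finset (Fc n d)) :
    W ⊆ clF ℝ n d W := by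
  classical
  intro x hx
  exact Finset.mem_filter.2 ⟨Finset.mem_univ _, Submodule.subset_span ⟨x, Finset.mem_coe.2 hx, rfl⟩⟩

theorem Smc_mono {n d b : ℕ} {W W' : Finset (Fc n d)} (h : W ⊆ W') :
    Smc d n b W ⊆ Smc d n b W' := by
  classical
  intro g hg
  obtain ⟨K, h1, h2, h3, h4⟩ := (Finset.mem_filter.1 hg).2
  exact Finset.mem_filter.2 ⟨Finset.mem_univ _, K, h1, h2,
    h3.trans (Finset.image_subset_image h), h4⟩

end ConcAux

open ConcAux

theorem vcl_vb (n d : ℕ) (W : Finset (Fc n d)) : vcl (vb n d) W = clF ℝ n d W := by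
  rfl

theorem sm_sub {n d β b : ℕ} (hb : β < b) (W : Finset (Fc n d)) :
    sm (vb n d) β W ⊆ Smc d n b W := by
  classical
  intro g hg
  rw [mem_sm] at hg
  obtain ⟨T, hT, hTc, hgT⟩ := hg
  rw [vcl_vb] at hgT
  obtain ⟨T', c, hT', hc, hrel⟩ := exists_rel hgT
  have hgT' : g ∉ T' := fun h => Finset.notMem_erase g W (hT (hT' h))
  refine Finset.mem_filter.2 ⟨Finset.mem_univ _, (insert g T').image Subtype.val,
    core_insert hgT' hc hrel, Finset.mem_image_of_mem _ (Finset.mem_insert_self _ _), ?_, ?_⟩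
  · intro σ hσ
    obtain ⟨h1, h2⟩ := Finset.mem_erase.1 hσ
    obtain ⟨x, hx, rfl⟩ := Finset.mem_image.1 h2
    rcases Finset.mem_insert.1 hx with rfl | hx
    · exact absurd rfl h1
    · exact Finset.mem_image_of_mem _ (Finset.mem_of_mem_erase (hT (hT' hx)))
  · refine lt_of_le_of_lt Finset.card_image_le ?_
    rw [Finset.card_insert_of_notMem hgT']
    have := Finset.card_le_card hT'
    omega

theorem Bs_sub {n d β b : ℕ} (hb : β < b) (W : Finset (Fc n d)) :
    Bs (vb n d) β W ⊆ Bsc d n b W := by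
  classical
  intro x hx
  obtain ⟨hxW, g, hgx, T, hTW, hTc, hxT, hgT, hgTx⟩ := (Finset.mem_filter.1 hx)
  obtain ⟨T', hT'T, hT'g, hmin⟩ := MatAux.exists_min (mem_vcl.1 hgT)
  have hxT' : x ∈ T' := by
    by_contra hxn
    apply hgTx
    rw [mem_vcl]
    refine Submodule.span_mono (Set.image_mono (Finset.coe_subset.2 ?_)) hT'g
    exact fun y hy => Finset.mem_erase.2 ⟨fun e => hxn (e ▸ hy), hT'T hy⟩
  have hgT' : g ∉ T' := by
    intro h
    apply hmin x hxT'
    exact Submodule.subset_span ⟨g, Finset.mem_coe.2 (Finset.mem_erase.2 ⟨hgx, h⟩), rfl⟩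
  have hg1 : g ∈ clF ℝ n d T' := by
    rw [← vcl_vb, mem_vcl]
    exact hT'g
  obtain ⟨T₂, c, hT₂, hc, hrel⟩ := exists_rel hg1
  have heq : T₂ = T' := by
    refine Finset.Subset.antisymm hT₂ ?_
    intro y hy
    by_contra hyn
    apply hmin y hy
    have hg2 : g ∈ clF ℝ n d (T'.erase y) := by
      refine clF_mono (W := T₂) ?_ ?_
      · exact fun z hz => Finset.mem_erase.2 ⟨fun e => hyn (e ▸ hz), hT₂ hz⟩
      · refine Finset.mem_filter.2 ⟨Finset.mem_univ _, ?_⟩
        rw [hrel]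
        exact Submodule.sum_mem _ fun z hz => Submodule.smul_mem _ _
          (Submodule.subset_span ⟨z, Finset.mem_coe.2 hz, rfl⟩)
    rw [← vcl_vb, mem_vcl] at hg2
    exact hg2
  rw [heq] at hc hrel
  refine Finset.mem_filter.2 ⟨hxW, (insert g T').image Subtype.val, g.val,
    core_insert hgT' hc hrel, Finset.mem_image_of_mem _ (Finset.mem_insert_of_mem hxT'), ?_, ?_⟩
  · intro σ hσ
    obtain ⟨h1, h2⟩ := Finset.mem_erase.1 hσ
    obtain ⟨y, hy, rfl⟩ := Finset.mem_image.1 h2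
    rcases Finset.mem_insert.1 hy with rfl | hy
    · exact absurd rfl h1
    · exact Finset.mem_image_of_mem _ (hTW (hT'T hy))
  · refine lt_of_le_of_lt Finset.card_image_le ?_
    rw [Finset.card_insert_of_notMem hgT']
    have := Finset.card_le_card hT'T
    omega

theorem exit_exists {n d β σ b M : ℕ} (hb : b = β + σ + 1) (hbn : b ≤ n.choose d)
    (hM : 2 * n.choose d ≤ M) (hMN : M ≤ n.choose (d + 1))
    (e : Fin (n.choose (d + 1)) ≃ Fc n d) (h : (Smc d n b (Y e M)).card ≤ σ) :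
    ∃ t < 2 * n.choose d, Ex (vb n d) β σ e t := by
  classical
  have hrb : ∀ m : ℕ, m ≤ n.choose (d + 1) → m ≤ (nc (vb n d) (Y e m)).card + n.choose d := by
    intro m hm
    have h1 := rank_bound ℝ n d (Y e m)
    rw [card_Y e hm] at h1
    exact h1
  have hex : ∃ m, σ < (nc (vb n d) (Y e m)).card := by
    refine ⟨2 * n.choose d, ?_⟩
    have := hrb (2 * n.choose d) (hM.trans hMN)
    omega
  have hmin : ∀ m, m < Nat.find hex → ¬ σ < (nc (vb n d) (Y e m)).card :=
    fun m hm => Nat.find_min hex hm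
  have hspec := Nat.find_spec hex
  have hle : Nat.find hex ≤ 2 * n.choose d := by
    apply Nat.find_min' hex
    have := hrb (2 * n.choose d) (hM.trans hMN)
    omega
  have hpos : 0 < Nat.find hex := by
    rcases Nat.eq_zero_or_pos (Nat.find hex) with h0 | h0
    · exfalso
      rw [h0, Y_zero] at hspec
      have : nc (vb n d) (∅ : Finset (Fc n d)) = ∅ := by
        unfold nc
        exact Finset.filter_empty _
      rw [this] at hspec
      simp at hspec
    · exact h0
  obtain ⟨t, ht⟩ : ∃ t, Nat.find hex = t + 1 := ⟨Nat.find hex - 1, by omega⟩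
  rw [ht] at hspec hle
  have htlt : t < 2 * n.choose d := by omega
  have hnct : (nc (vb n d) (Y e t)).card ≤ σ := by
    have := hmin t (by omega)
    omega
  refine ⟨t, htlt, ⟨hnct, ?_⟩, ?_⟩
  · refine le_trans (Finset.card_le_card ?_) h
    exact (sm_sub (by omega) _).trans (Smc_mono (Y_mono e (by omega)))
  · obtain ⟨S, hS1, hS2⟩ := exists_sys ℝ n d b
    have h2 := S.d2 (Y e (t + 1))
    rw [hS1, hS2] at h2
    rcases h2 with h2 | h2
    · rw [← hb]
      exact h2
    · exfalso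
      have h3 : (nc (vb n d) (Y e (t + 1))).card ≤ (Smc d n b (Y e (t + 1))).card :=
        Finset.card_le_card h2
      have h4 := Finset.card_le_card (Smc_mono (d := d) (b := b) (Y_mono e (show t + 1 ≤ M by omega)))
      omega

end Pool.Agent.Lib.P0fc
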