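import Mathlib
import Pool.Agent.Lib.P0fc.Mat

/-!
# Backward decay of the genuine elements

Induction on `k`.  Write `|nt (Y t) ∩ vcl (Y (t-k))| = ∑_g ind (g ∈ nt (Y t)) ind (g ∈ vcl (Y (t-k)))` and show
for every `g` and `k + 1 ≤ t`
`EE(ind A ind (g ∈ nt (Y t)) ind (g ∈ vcl (Y (t-k-1)))) ≤ (1-ε) EE(ind A ind (g ∈ nt (Y t)) ind (g ∈ vcl (Y (t-k))))`.
Let `s = t - k`, so `1 ≤ s ≤ t`.  By `back` at the position `s - 1` with
`h e x = ind A ind (g ∈ nt (Y t)) ind (g ∈ vcl ((Y s).erase x))` (`FutM s`: `A` is `FutM t` hence `FutM s`,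
`Y e t`, `Y e s` are unchanged by swaps of positions `< s`; `(Y s).erase (e (s-1)) = Y (s-1)`) the left
side is the expectation of `ind A ind (g ∈ nt (Y t)) #{x ∈ Y s | g ∈ vcl ((Y s).erase x)}/s`.  If
`g ∈ vcl (Y s)`, then by `m2g` and `not_sm` (`Y s ⊆ Y t`, `g ∉ Y t`, `g ∉ sm (Y t)`) at least
`β - |nc (Y s)| ≥ β - σ ≥ ε t ≥ ε s` elements `x` have `g ∉ vcl ((Y s).erase x)`; if `g ∉ vcl (Y s)` the
number is `0`.
-/

namespace Pool.Agent.Lib.P0fc

open Finset Pool.Agent.Lib.P0fb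

namespace DecayAux

variable {α : Type} [Fintype α] [DecidableEq α] {E : Type} [AddCommGroup E] [Module ℝ E]

theorem count (v : α → E) {β σ s t : ℕ} {ε : ℝ} (hε : 0 < ε) (hst : s ≤ t)
    (hβ : ε * t + σ ≤ β) {W W' : Finset α} (hW : W ⊆ W') (hc : W.card = s)
    (hOK : OK v β σ W') {g : α} (hg : g ∈ nt v β W') :
    ∑ x ∈ W, ind (g ∈ vcl v (W.erase x)) ≤ (1 - ε) * s * ind (g ∈ vcl v W) := by
  classical
  by_cases hgW : g ∈ vcl v W
  · rw [ind_of hgW, mul_one]
    obtain ⟨_, hg1, hg2⟩ := mem_nt.1 hg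
    have h1 := m2g hgW (not_sm hW hg1 hg2)
    have h2 : (nc v W).card ≤ σ := (OK_anti hW hOK).1
    have h3 : ∑ x ∈ W, ind (g ∈ vcl v (W.erase x)) =
        ∑ x ∈ W, ((1 : ℝ) - ind (g ∉ vcl v (W.erase x))) := by
      refine Finset.sum_congr rfl fun x _ => ?_
      have := ind_add_not (g ∈ vcl v (W.erase x))
      linarith
    have h4 : ∑ x ∈ W, ind (g ∉ vcl v (W.erase x)) =
        ((W.filter (fun h => g ∉ vcl v (W.erase h))).card : ℝ) := by
      rw [← Finset.sum_boole]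
      refine Finset.sum_congr rfl fun x _ => ?_
      by_cases hx : g ∉ vcl v (W.erase x)
      · rw [ind_of hx, if_pos hx]
      · rw [ind_not_of hx, if_neg hx]
    rw [h3, Finset.sum_sub_distrib, h4, Finset.sum_const, hc, nsmul_eq_mul, mul_one]
    have h5 : (β : ℝ) ≤ ((W.filter (fun h => g ∉ vcl v (W.erase h))).card : ℝ) +
        ((nc v W).card : ℝ) := by exact_mod_cast h1
    have h6 : ((nc v W).card : ℝ) ≤ σ := by exact_mod_cast h2
    have h7 : ε * (s : ℝ) ≤ ε * t := by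
      have : (s : ℝ) ≤ t := by exact_mod_cast hst
      exact mul_le_mul_of_nonneg_left this hε.le
    linarith
  · rw [ind_not_of hgW, mul_zero]
    refine le_of_eq (Finset.sum_eq_zero fun x _ => ?_)
    exact ind_not_of fun h => hgW (vcl_mono (Finset.erase_subset _ _) h)

theorem step (v : α → E) {N β σ : ℕ} {ε : ℝ} (hε : 0 < ε) {t s : ℕ} (hs : s + 1 ≤ t)
    (htN : t ≤ N) (hβ : ε * t + σ ≤ β) (A : (Fin N ≃ α) → Prop)
    (hA : FutM t (fun e => ind (A e))) (hOK : ∀ e, A e → OK v β σ (Y e t)) (g : α) :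
    EE (fun e => ind (A e) * (ind (g ∈ nt v β (Y e t)) * ind (g ∈ vcl v (Y e s)))) ≤
      (1 - ε) * EE (fun e => ind (A e) *
        (ind (g ∈ nt v β (Y e t)) * ind (g ∈ vcl v (Y e (s + 1))))) := by
  have hsN : s < N := by omega
  have h0 := back (⟨s, hsN⟩ : Fin N) (fun (e : Fin N ≃ α) x => ind (A e) *
    (ind (g ∈ nt v β (Y e t)) * ind (g ∈ vcl v ((Y e (s + 1)).erase x)))) (by
      intro x e i j hi hj
      have e1 : ind (A ((Equiv.swap i j).trans e)) = ind (A e) := (hA.mono hs) e i j hi hj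
      have e2 : Y ((Equiv.swap i j).trans e) t = Y e t := Y_swap_fut e hi hj hs
      have e3 : Y ((Equiv.swap i j).trans e) (s + 1) = Y e (s + 1) :=
        Y_swap_fut e hi hj le_rfl
      change ind (A ((Equiv.swap i j).trans e)) *
        (ind (g ∈ nt v β (Y ((Equiv.swap i j).trans e) t)) *
          ind (g ∈ vcl v ((Y ((Equiv.swap i j).trans e) (s + 1)).erase x))) = _
      rw [e1, e2, e3])
  have h1 : EE (fun e : Fin N ≃ α => ind (A e) * (ind (g ∈ nt v β (Y e t)) *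
      ind (g ∈ vcl v (Y e s)))) = EE (fun e : Fin N ≃ α => ind (A e) *
        (ind (g ∈ nt v β (Y e t)) *
          ind (g ∈ vcl v ((Y e (s + 1)).erase (e ⟨s, hsN⟩))))) := by
    refine EE_congr fun e => ?_
    have := Y_erase e (⟨s, hsN⟩ : Fin N)
    change (Y e (s + 1)).erase (e ⟨s, hsN⟩) = Y e s at this
    rw [this]
  rw [h1, h0, ← EE_mul_left]
  refine EE_mono fun e => ?_
  change (∑ x ∈ Y e (s + 1), ind (A e) * (ind (g ∈ nt v β (Y e t)) *
    ind (g ∈ vcl v ((Y e (s + 1)).erase x)))) / ((s : ℝ) + 1) ≤ _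
  have hs0 : (0 : ℝ) < (s : ℝ) + 1 := by positivity
  rw [div_le_iff₀ hs0]
  by_cases hAe : A e
  · by_cases hg : g ∈ nt v β (Y e t)
    · rw [ind_of hAe, ind_of hg]
      simp only [one_mul]
      have h2 := count v hε hs hβ (Y_mono e hs) (card_Y e (by omega)) (hOK e hAe) hg
      push_cast at h2
      linarith
    · rw [ind_not_of hg]
      simp
  · rw [ind_not_of hAe]
    simp

theorem card_eq (v : α → E) (β : ℕ) (W W' : Finset α) :
    ((nt v β W ∩ vcl v W').card : ℝ) = ∑ g, ind (g ∈ nt v β W) * ind (g ∈ vcl v W') := by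
  classical
  have h : (nt v β W ∩ vcl v W') = univ.filter (fun g => g ∈ nt v β W ∧ g ∈ vcl v W') := by
    ext g
    simp
  rw [h, ← Finset.sum_boole]
  refine Finset.sum_congr rfl fun g _ => ?_
  rw [← ind_and]
  by_cases hx : g ∈ nt v β W ∧ g ∈ vcl v W'
  · rw [ind_of hx, if_pos hx]
  · rw [ind_not_of hx, if_neg hx]

theorem card_EE (v : α → E) {N : ℕ} (β s t : ℕ) (A : (Fin N ≃ α) → Prop) :
    EE (fun e => ind (A e) * ((nt v β (Y e t) ∩ vcl v (Y e s)).card : ℝ)) =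
      ∑ g, EE (fun e => ind (A e) * (ind (g ∈ nt v β (Y e t)) * ind (g ∈ vcl v (Y e s)))) := by
  rw [← EE_sum]
  refine EE_congr fun e => ?_
  rw [card_eq, Finset.mul_sum]

end DecayAux

section

variable {α : Type} [Fintype α] [DecidableEq α] {E : Type} [AddCommGroup E] [Module ℝ E]

theorem decay (v : α → E) {N β σ : ℕ} {ε : ℝ} (hε : 0 < ε) (hε1 : ε ≤ 1) {t k : ℕ} (hk : k ≤ t)
    (htN : t ≤ N) (hβ : ε * t + σ ≤ β) (A : (Fin N ≃ α) → Prop)
    (hA : FutM t (fun e => ind (A e))) (hOK : ∀ e, A e → OK v β σ (Y e t)) :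
    EE (fun e => ind (A e) * ((nt v β (Y e t) ∩ vcl v (Y e (t - k))).card : ℝ)) ≤
      (1 - ε) ^ k * EE (fun e => ind (A e) * ((nt v β (Y e t)).card : ℝ)) := by
  induction k with
  | zero =>
    rw [pow_zero, one_mul]
    refine EE_mono fun e => mul_le_mul_of_nonneg_left ?_ (ind_nonneg _)
    exact_mod_cast Finset.card_le_card Finset.inter_subset_left
  | succ k ih =>
    have h1 := ih (by omega)
    have h2 : EE (fun e => ind (A e) * ((nt v β (Y e t) ∩ vcl v (Y e (t - (k + 1)))).card : ℝ)) ≤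
        (1 - ε) * EE (fun e => ind (A e) * ((nt v β (Y e t) ∩ vcl v (Y e (t - k))).card : ℝ)) := by
      rw [DecayAux.card_EE, DecayAux.card_EE, Finset.mul_sum]
      refine Finset.sum_le_sum fun g _ => ?_
      have h3 := DecayAux.step v hε (t := t) (s := t - (k + 1)) (by omega) htN hβ A hA hOK g
      have h4 : t - (k + 1) + 1 = t - k := by omega
      rw [h4] at h3
      exact h3
    refine h2.trans ?_
    rw [pow_succ, mul_comm ((1 - ε) ^ k) (1 - ε), mul_assoc]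
    exact mul_le_mul_of_nonneg_left h1 (by linarith)

end

end Pool.Agent.Lib.P0fc
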