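import Mathlib
import Pool.Agent.Lib.P0fc.Mass
import Pool.Agent.Lib.P0fc.LInc
import Pool.Agent.Lib.P0fc.LHit
import Pool.Agent.Lib.P0fc.LMB
import Pool.Agent.Lib.P0fc.LRk
import Pool.Agent.Lib.P0fc.DcT
import Pool.Agent.Lib.P0fc.GoodF

/-!
# Late steps are regular

Let `q l = min 1 (2 exp (- ε l/(8 (es+1))))`.  For `l ≥ 1` the event `MMe`, `e_(l-1) ≤ es`,
`¬ (Ie l ∧ ¬ He l)` is contained in the union of
(a) `MMe`, `¬ Ie l`: mass `≤ ξ` (`mass_not_I`, `mass_MM_le_one`);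
(b) `MMe`, `q l N ≤ |G_l|`, `e_l ≤ es + 1` (because `Ie l` gives `e_l ≤ e_(l-1) + 1`, `er_step`): mass `≤ (q l)^-(es+1) (2^(es+2) (1 - ε/2)^l/κ + 4 (es+2)² ν/κ)` by `MB` (`hP` from `p4`);
(c) `MMe`, `He l`, `|G_l| ≤ q l N` (light hit): mass `≤ 2 q l (2l+4)/κ` (`mass_hit_one`, `hC` from `dc`).
If `l` is so large that `2 exp (- ε l/(8(es+1))) ≤ 1` then the first part of (b) is
`≤ exp (ε l/8) * 2 * exp (- ε l/2)/κ` (up to the factor `2^(es+1)/2^(es+1)`: `(2/q l)^(es+1) = exp (ε l/8)`), and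
both it and (c) are summable in `l`: choose `l₂` such that their sums over `l ≥ l₂` are `≤ ρ/4` each;
then, for given `lm`, choose `ξ₀` with `lm ξ₀ ≤ ρ/4` and `ν₀` such that the remaining parts of (b)
sum to `≤ ρ/4` (`l₂ ≤ l ≤ lm`) and `ν₀ ≤ 1/(lm+1)` (so `lm < t` on `MMe`).
-/

namespace Pool.Agent.Lib.P0fc

open Finset Pool.Agent.Lib.P0fb

namespace StepBAux

/-- the decay rate -/
noncomputable def rr (ε : ℝ) (es : ℕ) : ℝ := Real.exp (-(ε / (8 * ((es : ℝ) + 1))))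

theorem rr_pos (ε : ℝ) (es : ℕ) : 0 < rr ε es := Real.exp_pos _

theorem rr_lt {ε : ℝ} (hε : 0 < ε) (es : ℕ) : rr ε es < 1 := by
  unfold rr
  rw [Real.exp_lt_one_iff]
  have : 0 < ε / (8 * ((es : ℝ) + 1)) := by positivity
  linarith

theorem rr_pow {ε : ℝ} (es l : ℕ) : (rr ε es ^ l) ^ (es + 1) = Real.exp (-(ε * l / 8)) := by
  unfold rr
  rw [← pow_mul, ← Real.exp_nat_mul]
  congr 1
  push_cast
  have : (es : ℝ) + 1 ≠ 0 := by positivity
  field_simp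

/-- the bound for a robust flat of small rank -/
theorem bb {ε κ : ℝ} (hε : 0 < ε) (hε1 : ε ≤ 1) (hκ : 0 < κ) {es l lm : ℕ} (hl : l ≤ lm) {ν : ℝ}
    (hν : 0 ≤ ν) :
    (1 / (2 * rr ε es ^ l)) ^ (es + 1) * ((2 : ℝ) ^ (es + 1 + 1) * (1 - ε / 2) ^ l / κ +
      4 * (((es + 1 : ℕ) : ℝ) + 1) ^ 2 * ν / κ) ≤
    2 * rr ε es ^ l / κ + 4 * ((es : ℝ) + 2) ^ 2 * ν * Real.exp (ε * lm / 8) / κ := by
  have hr := rr_pos ε es
  have hr1 := rr_lt hε es
  set w : ℝ := (rr ε es ^ l) ^ (es + 1) with hw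
  have hw0 : 0 < w := by positivity
  have hrl : 0 < rr ε es ^ l := by positivity
  have hrl1 : rr ε es ^ l ≤ 1 := pow_le_one₀ hr.le hr1.le
  have hwr : w ≤ rr ε es ^ l := by
    rw [hw, pow_succ]
    exact mul_le_of_le_one_left hrl.le (pow_le_one₀ hrl.le hrl1)
  have hw1 : w ≤ 1 := hwr.trans hrl1
  have hwe : w = Real.exp (-(ε * l / 8)) := rr_pow es l
  have hp : (1 - ε / 2) ^ l ≤ w ^ 4 := by
    have h1 : 1 - ε / 2 ≤ Real.exp (-(ε / 2)) := by
      have := Real.add_one_le_exp (-(ε / 2))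
      linarith
    have h2 : (1 - ε / 2) ^ l ≤ Real.exp (-(ε / 2)) ^ l := pow_le_pow_left₀ (by linarith) h1 l
    refine h2.trans (le_of_eq ?_)
    rw [hwe, ← Real.exp_nat_mul, ← Real.exp_nat_mul]
    congr 1
    push_cast
    ring
  have hinv : (1 / (2 * rr ε es ^ l)) ^ (es + 1) = 1 / ((2 : ℝ) ^ (es + 1) * w) := by
    rw [one_div, inv_pow, mul_pow, ← hw, one_div]
  have h2p : (1 : ℝ) ≤ 2 ^ (es + 1) := one_le_pow₀ (by norm_num)
  have e1 : 1 / ((2 : ℝ) ^ (es + 1) * w) * ((2 : ℝ) ^ (es + 1 + 1) * (1 - ε / 2) ^ l / κ) ≤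
      2 * rr ε es ^ l / κ := by
    have h3 : 1 / ((2 : ℝ) ^ (es + 1) * w) * ((2 : ℝ) ^ (es + 1 + 1) * (1 - ε / 2) ^ l / κ) =
        2 * ((1 - ε / 2) ^ l / w) / κ := by
      have h30 : (2 : ℝ) ^ (es + 1) ≠ 0 := by positivity
      rw [pow_succ (2 : ℝ) (es + 1)]
      field_simp
    rw [h3]
    refine div_le_div_of_nonneg_right ?_ hκ.le
    refine mul_le_mul_of_nonneg_left ?_ (by norm_num)
    rw [div_le_iff₀ hw0]
    refine hp.trans ?_
    have h4 : w ^ 3 ≤ w := by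
      have : w ^ 2 ≤ 1 := pow_le_one₀ hw0.le hw1
      nlinarith
    calc w ^ 4 = w ^ 3 * w := by ring
      _ ≤ w * w := mul_le_mul_of_nonneg_right h4 hw0.le
      _ ≤ rr ε es ^ l * w := mul_le_mul_of_nonneg_right hwr hw0.le
  have e2 : 1 / ((2 : ℝ) ^ (es + 1) * w) * (4 * (((es + 1 : ℕ) : ℝ) + 1) ^ 2 * ν / κ) ≤
      4 * ((es : ℝ) + 2) ^ 2 * ν * Real.exp (ε * lm / 8) / κ := by
    have h3 : 1 / ((2 : ℝ) ^ (es + 1) * w) ≤ Real.exp (ε * lm / 8) := by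
      have h4 : 1 / ((2 : ℝ) ^ (es + 1) * w) ≤ 1 / w := by
        apply one_div_le_one_div_of_le hw0
        exact le_mul_of_one_le_left hw0.le h2p
      refine h4.trans ?_
      rw [hwe, one_div, ← Real.exp_neg, neg_neg]
      apply Real.exp_le_exp.2
      have : (l : ℝ) ≤ lm := by exact_mod_cast hl
      have := mul_le_mul_of_nonneg_left this hε.le
      linarith
    have h5 : (((es + 1 : ℕ) : ℝ) + 1) = (es : ℝ) + 2 := by
      push_cast
      ring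
    rw [h5]
    have h6 : 0 ≤ 4 * ((es : ℝ) + 2) ^ 2 * ν / κ := by positivity
    calc 1 / ((2 : ℝ) ^ (es + 1) * w) * (4 * ((es : ℝ) + 2) ^ 2 * ν / κ) ≤
          Real.exp (ε * lm / 8) * (4 * ((es : ℝ) + 2) ^ 2 * ν / κ) :=
          mul_le_mul_of_nonneg_right h3 h6
      _ = _ := by ring
  rw [hinv, mul_add]
  exact add_le_add e1 e2

/-- the summable part -/
noncomputable def ff (ε κ : ℝ) (es l : ℕ) : ℝ :=
  2 * rr ε es ^ l / κ + 2 * (2 * rr ε es ^ l) * ((2 * l + 4) / κ)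

theorem summable_ff {ε : ℝ} (hε : 0 < ε) (κ : ℝ) (es : ℕ) : Summable (ff ε κ es) := by
  have hr := rr_pos ε es
  have hr1 := rr_lt hε es
  have h1 : Summable (fun l : ℕ => rr ε es ^ l) := summable_geometric_of_lt_one hr.le hr1
  have h2 : Summable (fun l : ℕ => ((l : ℝ) ^ 1 * rr ε es ^ l : ℝ)) :=
    summable_pow_mul_geometric_of_norm_lt_one 1 (by rwa [Real.norm_eq_abs, abs_of_pos hr])
  have h3 := (h1.mul_left (18 / κ)).add (h2.mul_left (8 / κ))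
  refine h3.congr fun l => ?_
  unfold ff
  ring

theorem tail {ε : ℝ} (hε : 0 < ε) (κ : ℝ) (es : ℕ) {ρ : ℝ} (hρ : 0 < ρ) :
    ∃ l₂ : ℕ, 1 ≤ l₂ ∧ (∀ l, l₂ ≤ l → 2 * rr ε es ^ l ≤ 1) ∧
      ∀ lm : ℕ, ∑ l ∈ Icc l₂ lm, ff ε κ es l ≤ ρ := by
  obtain ⟨s, hs⟩ := summable_iff_vanishing_norm.1 (summable_ff hε κ es) ρ hρ
  obtain ⟨n0, hn0⟩ := exists_nat_ge (8 * ((es : ℝ) + 1) / ε)
  refine ⟨s.sup id + 1 + n0, by omega, ?_, ?_⟩
  · intro l hl
    have h1 : (n0 : ℝ) ≤ l := by exact_mod_cast (by omega : n0 ≤ l)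
    have h2 : 8 * ((es : ℝ) + 1) ≤ l * ε := by
      rw [div_le_iff₀ hε] at hn0
      exact hn0.trans (mul_le_mul_of_nonneg_right h1 hε.le)
    have h3 : rr ε es ^ l = Real.exp (-(l * (ε / (8 * ((es : ℝ) + 1))))) := by
      unfold rr
      rw [← Real.exp_nat_mul]
      congr 1
      ring
    have h4 : 1 ≤ l * (ε / (8 * ((es : ℝ) + 1))) := by
      rw [mul_div_assoc', le_div_iff₀ (by positivity), one_mul]
      exact h2
    rw [h3, Real.exp_neg]
    have h5 : 2 ≤ Real.exp (l * (ε / (8 * ((es : ℝ) + 1)))) := by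
      have := Real.add_one_le_exp (l * (ε / (8 * ((es : ℝ) + 1))))
      linarith
    rw [← div_eq_mul_inv, div_le_one (Real.exp_pos _)]
    exact h5
  · intro lm
    have h1 : Disjoint (Icc (s.sup id + 1 + n0) lm) s := by
      rw [disjoint_left]
      intro l hl hls
      rw [mem_Icc] at hl
      have := Finset.le_sup (f := id) hls
      simp only [id] at this
      omega
    exact (le_abs_self _).trans (hs _ h1).le

end StepBAux

open StepBAux in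
theorem step_bound (ε κ ρ : ℝ) (hε : 0 < ε) (hε1 : ε ≤ 1) (hκ : 0 < κ) (hκ1 : κ ≤ 1) (hρ : 0 < ρ)
    (es : ℕ) : ∃ l₂ : ℕ, 1 ≤ l₂ ∧ ∀ lm : ℕ, ∃ ξ₀ ν₀ : ℝ, 0 < ξ₀ ∧ 0 < ν₀ ∧
    ∀ (α : Type) [Fintype α] [DecidableEq α] (E : Type) [AddCommGroup E] [Module ℝ E]
      (v : α → E) (p : Pm) (N M M₂ : ℕ) (ν : ℝ), p.κ = κ → 0 < p.ξ → p.ξ ≤ ξ₀ →
      ν ≤ ν₀ → Good v N M M₂ p.β p.σ ε ν →
      ∑ l ∈ Icc l₂ lm, mass M (fun t (e : Fin N ≃ α) z => MMe v p t e z ∧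
        er v p (l - 1) (Y e (t - l + 1)) z ≤ es ∧ ¬ (Ie v p l t e z ∧ ¬ He v p l t e z)) ≤ ρ := by
  obtain ⟨l₂, hl₂, hq1, htail⟩ := tail hε κ es (half_pos hρ)
  refine ⟨l₂, hl₂, fun lm => ?_⟩
  set K : ℝ := 4 * ((es : ℝ) + 2) ^ 2 * Real.exp (ε * lm / 8) / κ with hK
  have hK0 : 0 < K := by positivity
  have hlm : (0 : ℝ) < (lm : ℝ) + 1 := by positivity
  refine ⟨min (1 / 2) (ρ / (4 * ((lm : ℝ) + 1))),
    min (min (κ / 8) (1 / ((lm : ℝ) + 1))) (min (1 / (2 * ((es : ℝ) + 2))) (ρ / (4 * ((lm : ℝ) + 1) * K))),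
    by positivity, by positivity, ?_⟩
  intro α _ _ E _ _ v p N M M₂ ν hpκ hξ hξ₀ hν₀ hG
  have hν := hG.hν
  have hν1 : ν ≤ κ / 8 := hν₀.trans ((min_le_left _ _).trans (min_le_left _ _))
  have hν2 : ν ≤ 1 / ((lm : ℝ) + 1) := hν₀.trans ((min_le_left _ _).trans (min_le_right _ _))
  have hν3 : ν ≤ 1 / (2 * ((es : ℝ) + 2)) := hν₀.trans ((min_le_right _ _).trans (min_le_left _ _))
  have hν4 : ν ≤ ρ / (4 * ((lm : ℝ) + 1) * K) :=
    hν₀.trans ((min_le_right _ _).trans (min_le_right _ _))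
  have hξ2 : p.ξ ≤ 1 / 2 := hξ₀.trans (min_le_left _ _)
  have hξ3 : p.ξ ≤ ρ / (4 * ((lm : ℝ) + 1)) := hξ₀.trans (min_le_right _ _)
  have hlmβ : lm ≤ p.β := by
    apply hG.inv
    rw [le_div_iff₀ hlm] at hν2
    nlinarith
  have hMN : M < N := hG.M8.2
  have hσβ := hG.σβ
  have hMθ : (M : ℝ) + p.σ ≤ p.κ / 4 * N := hG.Mθ (by rw [hpκ]; exact hν1)
  have hκp : 0 < p.κ := by rw [hpκ]; exact hκ
  -- the bound for one `l`
  have hone : ∀ l ∈ Icc l₂ lm, mass M (fun t (e : Fin N ≃ α) z => MMe v p t e z ∧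
        er v p (l - 1) (Y e (t - l + 1)) z ≤ es ∧ ¬ (Ie v p l t e z ∧ ¬ He v p l t e z)) ≤
        p.ξ + ν * K + ff ε κ es l := by
    intro l hl
    rw [mem_Icc] at hl
    have hl1 : 1 ≤ l := hl₂.trans hl.1
    have hlβ : l ≤ p.β := hl.2.trans hlmβ
    have hr := rr_pos ε es
    have hq : 0 < 2 * rr ε es ^ l := by positivity
    have ha := mass_not_I v p hG.card hMN.le hξ hξ2 hl1 hlβ (M := M)
    have ha1 := mass_MM_le_one hG
    have hb := MB v p hG hκp (by rw [hpκ]; exact hκ1) (k := es + 1) (l := l)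
      (by
        rw [le_div_iff₀ (by positivity)] at hν3
        push_cast
        nlinarith) hlβ hq (by
        have h1 := p4 v (β := p.β) hG.card hσβ hMN hκp
        rw [hG.card]
        refine le_trans ?_ h1
        exact sum_le_sum_of_subset_of_nonneg (range_mono (Nat.le_succ M)) fun _ _ _ => PP_nonneg _)
    have hc := mass_hit_one v p hG.card (Good_M_le hG) (fun i => 2 * rr ε es ^ i)
      (fun i => by positivity) hl1 hlβ (M := M) (C := (2 * l + 4) / κ) (by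
        have h1 := dc v (β := p.β) hG.card hσβ hMN hκp hMθ l
        rw [hpκ] at h1
        rw [hpκ]
        refine le_trans ?_ h1
        exact sum_le_sum_of_subset_of_nonneg (range_mono (Nat.le_succ M)) fun _ _ _ => PP_nonneg _)
    rw [hpκ] at hb
    have hbb := bb hε hε1 hκ (es := es) hl.2 hν.le
    have hcover : mass M (fun t (e : Fin N ≃ α) z => MMe v p t e z ∧
        er v p (l - 1) (Y e (t - l + 1)) z ≤ es ∧ ¬ (Ie v p l t e z ∧ ¬ He v p l t e z)) ≤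
        mass M (fun t (e : Fin N ≃ α) z => MMe v p t e z ∧ ¬ Ie v p l t e z) +
        (mass M (fun t (e : Fin N ≃ α) z => MMe v p t e z ∧
          2 * rr ε es ^ l * (Fintype.card α : ℝ) ≤ ((Gf v p l (Y e (t - l)) z).card : ℝ) ∧
          er v p l (Y e (t - l)) z ≤ es + 1) +
        mass M (fun t (e : Fin N ≃ α) z => MMe v p t e z ∧
          LH v p (fun i => 2 * rr ε es ^ i) l t e z)) := by
      refine le_trans ?_ ((mass_or_le _ _).trans (add_le_add le_rfl (mass_or_le _ _)))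
      refine mass_mono fun t ht e z h => ?_
      obtain ⟨h1, h2, h3⟩ := h
      by_cases hI : Ie v p l t e z
      · right
        have hH : He v p l t e z := by
          by_contra hH
          exact h3 ⟨hI, hH⟩
        by_cases hcard : ((Gf v p l (Y e (t - l)) z).card : ℝ) ≤
            2 * rr ε es ^ l * (Fintype.card α : ℝ)
        · right
          exact ⟨h1, hH, hcard⟩
        · left
          refine ⟨h1, (not_le.1 hcard).le, ?_⟩
          have h4 := beta_le_of_MMe h1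
          have h5 := er_step (v := v) (p := p) hl1 (hlβ.trans h4) (by omega : t ≤ N) hI
          omega
      · exact Or.inl ⟨h1, hI⟩
    have hξb : p.ξ * mass M (fun t (e : Fin N ≃ α) z => MMe v p t e z) ≤ p.ξ * 1 :=
      mul_le_mul_of_nonneg_left ha1 hξ.le
    have hKν : 4 * ((es : ℝ) + 2) ^ 2 * ν * Real.exp (ε * lm / 8) / κ = ν * K := by
      rw [hK]
      ring
    rw [hKν] at hbb
    unfold ff
    linarith
  have hcard : ((Icc l₂ lm).card : ℝ) ≤ (lm : ℝ) + 1 := by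
    rw [Nat.card_Icc]
    have : lm + 1 - l₂ ≤ lm + 1 := Nat.sub_le _ _
    exact_mod_cast this
  refine (sum_le_sum hone).trans ?_
  rw [sum_add_distrib, sum_const, nsmul_eq_mul]
  have h1 := htail lm
  have h2 : ((Icc l₂ lm).card : ℝ) * (p.ξ + ν * K) ≤ ρ / 2 := by
    have h3 : p.ξ + ν * K ≤ ρ / (2 * ((lm : ℝ) + 1)) := by
      have h4 : ν * K ≤ ρ / (4 * ((lm : ℝ) + 1)) := by
        rw [le_div_iff₀ (by positivity)] at hν4
        rw [le_div_iff₀ (by positivity)]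
        calc ν * K * (4 * ((lm : ℝ) + 1)) = ν * (4 * ((lm : ℝ) + 1) * K) := by ring
          _ ≤ ρ := hν4
      have h5 : ρ / (2 * ((lm : ℝ) + 1)) = ρ / (4 * ((lm : ℝ) + 1)) + ρ / (4 * ((lm : ℝ) + 1)) := by
        field_simp
        ring
      linarith
    calc ((Icc l₂ lm).card : ℝ) * (p.ξ + ν * K) ≤ ((lm : ℝ) + 1) * (ρ / (2 * ((lm : ℝ) + 1))) :=
          mul_le_mul hcard h3 (by positivity) hlm.le
      _ = ρ / 2 := by
        field_simp
  linarith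

end Pool.Agent.Lib.P0fc
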