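import Mathlib
import Pool.Agent.Lib.P0fc.StepB

/-!
# A level without increments

Apply `step_bound` with `ρ' = min (ρ/8) (1/(es+1))` and get `l₂`; `l₁ = max (max l₂ l₂') 1`,
`lm = l₁ + 2 + K` with `K ≥ 32 (es+1)/ρ`.  Let `s l` be the mass in `step_bound` (`l₂ ≤ l ≤ lm`), so
`∑ s l ≤ ρ'`.  On `MMe` all times satisfy `lm < t` (`ν₀ ≤ 1/(lm+1)`, `β ≤ t`), hence `t - (l+1) + 1 = t - l`.
Write `e_l = er v p l (Y e (t-l)) z`, and `u_l = es + 1 - e_l` (natural subtraction),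
`Ψ_l = ∑_t (1/N) ∑_z EE (ind MMe * u_l) ∈ [0, es+1]` (mass of `MMe` at most `1`; equivalently
`Ψ_l = ∑_{j=1}^{es+1} mass (MMe ∧ j ≤ u_l)`).
If `e_l ≤ es` and `Ie (l+1) ∧ ¬ He (l+1)` then `e_(l+1) ≤ e_l` and
`u_(l+1) - u_l = e_l - e_(l+1) ≥ ind (e_(l+1) < e_l)`; if `e_l ≤ es` and not (..), then
`u_(l+1) ≥ u_l - (es+1)`; if `e_l > es` then `u_(l+1) ≥ 0 = u_l`.  So with
`D_l = mass (MMe, e_l ≤ es, Ie (l+1), ¬ He (l+1), e_(l+1) < e_l)`:
`Ψ_(l+1) ≥ Ψ_l + D_l - (es+1) s (l+1)`, hence `∑_{l₁ ≤ l < lm} D_l ≤ (es+1) + (es+1) ∑ s ≤ 2 (es+1)`.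
So some `l` with `l₁ ≤ l`, `l + 2 ≤ lm` has `D_l + D_(l+1) ≤ 4 (es+1)/K ≤ ρ/8`.
If `e_l ≤ es`, `Ie (l+1)`, `¬ He (l+1)`, `e_(l+1) = e_l`, then the element `h` at position `t-l-1` is
regular: `h ∉ G_(l+1)(Y (t-l-1))` and (`er_step_eq`) `G_l(Y (t-l)) = vcl (insert h (G_(l+1)))`;
`(Y e (t-l)).erase h = Y e (t-l-1)`.  So the first mass is at most `s (l+1) + D_l ≤ ρ`.
Second mass: `e_l ≤ es` and not regular at level `l+1`: either `¬ (Ie (l+1) ∧ ¬ He (l+1))`: `≤ s (l+1)`; or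
`e_(l+1) ≤ e_l ≤ es` and not (`Ie (l+2) ∧ ¬ He (l+2)`): `≤ s (l+2)`, or `e_(l+2) < e_(l+1)`: `≤ D_(l+1)`.
-/

namespace Pool.Agent.Lib.P0fc

open Finset Pool.Agent.Lib.P0fb

namespace PigeonAux

section

variable {α : Type} [Fintype α] [DecidableEq α] {E : Type} [AddCommGroup E] [Module ℝ E] {N : ℕ}

/-- functional version of `mass` -/
noncomputable def mF (M : ℕ) (f : ℕ → (Fin N ≃ α) → α → ℝ) : ℝ :=
  ∑ t ∈ range M, (∑ z : α, EE (fun e : Fin N ≃ α => f t e z)) / (Fintype.card α : ℝ)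

theorem mF_ind (M : ℕ) (Ev : ℕ → (Fin N ≃ α) → α → Prop) :
    mF M (fun t e z => ind (Ev t e z)) = mass M Ev := rfl

theorem mF_mono {M : ℕ} {f g : ℕ → (Fin N ≃ α) → α → ℝ}
    (h : ∀ t < M, ∀ e z, f t e z ≤ g t e z) : mF M f ≤ mF M g := by
  unfold mF
  refine sum_le_sum fun t ht => ?_
  refine div_le_div_of_nonneg_right (sum_le_sum fun z _ => ?_) (Nat.cast_nonneg _)
  exact EE_mono fun e => h t (mem_range.1 ht) e z

theorem mF_add {M : ℕ} (f g : ℕ → (Fin N ≃ α) → α → ℝ) :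
    mF M (fun t e z => f t e z + g t e z) = mF M f + mF M g := by
  unfold mF
  rw [← sum_add_distrib]
  refine sum_congr rfl fun t _ => ?_
  rw [← add_div, ← sum_add_distrib]
  congr 1
  refine sum_congr rfl fun z _ => ?_
  exact EE_add _ _

theorem mF_mul {M : ℕ} (c : ℝ) (f : ℕ → (Fin N ≃ α) → α → ℝ) :
    mF M (fun t e z => c * f t e z) = c * mF M f := by
  unfold mF
  rw [mul_sum]
  refine sum_congr rfl fun t _ => ?_
  rw [mul_div_assoc', mul_sum]
  congr 1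
  refine sum_congr rfl fun z _ => ?_
  exact EE_mul_left _ _

theorem mF_nonneg {M : ℕ} {f : ℕ → (Fin N ≃ α) → α → ℝ}
    (h : ∀ t e z, 0 ≤ f t e z) : 0 ≤ mF M f := by
  unfold mF
  exact sum_nonneg fun t _ => div_nonneg (sum_nonneg fun z _ => EE_nonneg fun e => h t e z)
    (Nat.cast_nonneg _)

/-- bad step -/
def Bv (v : α → E) (p : Pm) (es l t : ℕ) (e : Fin N ≃ α) (z : α) : Prop :=
  MMe v p t e z ∧ er v p (l - 1) (Y e (t - l + 1)) z ≤ es ∧
    ¬ (Ie v p l t e z ∧ ¬ He v p l t e z)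

/-- decrease -/
def Dv (v : α → E) (p : Pm) (es l t : ℕ) (e : Fin N ≃ α) (z : α) : Prop :=
  MMe v p t e z ∧ er v p l (Y e (t - l)) z ≤ es ∧
    (Ie v p (l + 1) t e z ∧ ¬ He v p (l + 1) t e z) ∧
    er v p (l + 1) (Y e (t - (l + 1))) z < er v p l (Y e (t - l)) z

/-- potential -/
noncomputable def uu (v : α → E) (p : Pm) (es l t : ℕ) (e : Fin N ≃ α) (z : α) : ℝ :=
  ((es + 1 - er v p l (Y e (t - l)) z : ℕ) : ℝ)

theorem Bv_iff {v : α → E} {p : Pm} {es l t : ℕ} {e : Fin N ≃ α} {z : α} (hl : l + 1 ≤ t) :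
    Bv v p es (l + 1) t e z ↔ MMe v p t e z ∧ er v p l (Y e (t - l)) z ≤ es ∧
      ¬ (Ie v p (l + 1) t e z ∧ ¬ He v p (l + 1) t e z) := by
  have h1 : t - (l + 1) + 1 = t - l := by omega
  unfold Bv
  rw [h1, Nat.add_sub_cancel]

theorem step_not {v : α → E} {p : Pm} {l t : ℕ} {e : Fin N ≃ α} {z : α} (hl : l + 1 ≤ t)
    (ht : t ≤ N) (hJ : Ie v p (l + 1) t e z ∧ ¬ He v p (l + 1) t e z) :
    er v p (l + 1) (Y e (t - (l + 1))) z ≤ er v p l (Y e (t - l)) z := by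
  have h1 : t - (l + 1) + 1 = t - l := by omega
  have h2 := er_step_not (l := l + 1) (by omega) hl ht hJ.1 hJ.2
  rw [h1, Nat.add_sub_cancel] at h2
  exact h2

theorem point {v : α → E} {p : Pm} {es l t : ℕ} {e : Fin N ≃ α} {z : α}
    (hl : MMe v p t e z → l + 1 ≤ t) (ht : t ≤ N) :
    ind (MMe v p t e z) * uu v p es l t e z + ind (Dv v p es l t e z) ≤
      ind (MMe v p t e z) * uu v p es (l + 1) t e z +
        ((es : ℝ) + 1) * ind (Bv v p es (l + 1) t e z) := by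
  have hes : (0 : ℝ) ≤ (es : ℝ) + 1 := by positivity
  by_cases hM : MMe v p t e z
  · have hlt := hl hM
    rw [ind_of hM, one_mul, one_mul]
    unfold uu
    set a := er v p l (Y e (t - l)) z with ha
    set b := er v p (l + 1) (Y e (t - (l + 1))) z with hb
    by_cases h1 : a ≤ es
    · by_cases hJ : Ie v p (l + 1) t e z ∧ ¬ He v p (l + 1) t e z
      · have h2 : b ≤ a := step_not hlt ht hJ
        have h3 : ind (Dv v p es l t e z) ≤ ((a - b : ℕ) : ℝ) := by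
          by_cases h4 : b < a
          · refine (ind_le_one _).trans ?_
            exact_mod_cast (by omega : 1 ≤ a - b)
          · rw [ind_not_of (fun h => h4 h.2.2.2)]
            exact Nat.cast_nonneg _
        have h5 : ((es + 1 - a : ℕ) : ℝ) + ((a - b : ℕ) : ℝ) = ((es + 1 - b : ℕ) : ℝ) := by
          exact_mod_cast (by omega : (es + 1 - a) + (a - b) = es + 1 - b)
        have h6 := mul_nonneg hes (ind_nonneg (Bv v p es (l + 1) t e z))
        linarith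
      · rw [ind_of (Bv_iff hlt |>.2 ⟨hM, h1, hJ⟩), ind_not_of (fun h => hJ h.2.2.1), mul_one,
          add_zero]
        have h5 : ((es + 1 - a : ℕ) : ℝ) ≤ (es : ℝ) + 1 := by
          exact_mod_cast (by omega : (es + 1 - a) ≤ es + 1)
        have h6 : (0 : ℝ) ≤ ((es + 1 - b : ℕ) : ℝ) := Nat.cast_nonneg _
        linarith
    · rw [ind_not_of (fun h : Dv v p es l t e z => h1 h.2.1)]
      have h5 : es + 1 - a = 0 := by omega
      rw [h5]
      have h6 : (0 : ℝ) ≤ ((es + 1 - b : ℕ) : ℝ) := Nat.cast_nonneg _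
      have h7 := mul_nonneg hes (ind_nonneg (Bv v p es (l + 1) t e z))
      push_cast
      linarith
  · rw [ind_not_of hM, ind_not_of (fun h : Dv v p es l t e z => hM h.1), zero_mul, zero_mul,
      zero_add, zero_add]
    exact mul_nonneg hes (ind_nonneg _)

theorem pot {v : α → E} {p : Pm} {M es l : ℕ} (hMN : M ≤ N)
    (hl : ∀ t < M, ∀ (e : Fin N ≃ α) (z : α), MMe v p t e z → l + 1 ≤ t) :
    mF M (fun t (e : Fin N ≃ α) z => ind (MMe v p t e z) * uu v p es l t e z) +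
        mass M (fun t (e : Fin N ≃ α) z => Dv v p es l t e z) ≤
      mF M (fun t (e : Fin N ≃ α) z => ind (MMe v p t e z) * uu v p es (l + 1) t e z) +
        ((es : ℝ) + 1) * mass M (fun t (e : Fin N ≃ α) z => Bv v p es (l + 1) t e z) := by
  rw [← mF_ind, ← mF_ind, ← mF_mul, ← mF_add, ← mF_add]
  refine mF_mono fun t ht e z => ?_
  exact point (hl t ht e z) (by omega)

theorem pot_nonneg {v : α → E} {p : Pm} {M es l : ℕ} :
    0 ≤ mF M (fun t (e : Fin N ≃ α) z => ind (MMe v p t e z) * uu v p es l t e z) :=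
  mF_nonneg fun _ _ _ => mul_nonneg (ind_nonneg _) (Nat.cast_nonneg _)

theorem pot_le {v : α → E} {p : Pm} {M es l : ℕ}
    (h1 : mass M (fun t (e : Fin N ≃ α) z => MMe v p t e z) ≤ 1) :
    mF M (fun t (e : Fin N ≃ α) z => ind (MMe v p t e z) * uu v p es l t e z) ≤ (es : ℝ) + 1 := by
  have hes : (0 : ℝ) ≤ (es : ℝ) + 1 := by positivity
  have h2 : mF M (fun t (e : Fin N ≃ α) z => ind (MMe v p t e z) * uu v p es l t e z) ≤
      mF M (fun t (e : Fin N ≃ α) z => ((es : ℝ) + 1) * ind (MMe v p t e z)) := by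
    refine mF_mono fun t _ e z => ?_
    rw [mul_comm]
    refine mul_le_mul_of_nonneg_right ?_ (ind_nonneg _)
    unfold uu
    exact_mod_cast (Nat.sub_le _ _)
  rw [mF_mul, mF_ind] at h2
  have h3 := mul_le_mul_of_nonneg_left h1 hes
  linarith

/-- telescoping -/
theorem tele {v : α → E} {p : Pm} {M es l₁ : ℕ} (hMN : M ≤ N) (K : ℕ)
    (hl : ∀ t < M, ∀ (e : Fin N ≃ α) (z : α), MMe v p t e z → l₁ + K + 1 ≤ t) :
    mF M (fun t (e : Fin N ≃ α) z => ind (MMe v p t e z) * uu v p es l₁ t e z) +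
        ∑ j ∈ range (K + 1), mass M (fun t (e : Fin N ≃ α) z => Dv v p es (l₁ + j) t e z) ≤
      mF M (fun t (e : Fin N ≃ α) z => ind (MMe v p t e z) * uu v p es (l₁ + (K + 1)) t e z) +
        ((es : ℝ) + 1) * ∑ j ∈ range (K + 1),
          mass M (fun t (e : Fin N ≃ α) z => Bv v p es (l₁ + j + 1) t e z) := by
  induction K with
  | zero =>
    have h := pot (v := v) (p := p) (es := es) (l := l₁) hMN (fun t ht e z hM => by
      have := hl t ht e z hM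
      omega)
    simpa using h
  | succ K ih =>
    have h1 := ih (fun t ht e z hM => by
      have := hl t ht e z hM
      omega)
    have h := pot (v := v) (p := p) (es := es) (l := l₁ + (K + 1)) hMN (fun t ht e z hM => by
      have := hl t ht e z hM
      omega)
    rw [sum_range_succ, sum_range_succ _ (K + 1), mul_add]
    have h2 : l₁ + (K + 1 + 1) = l₁ + (K + 1) + 1 := by omega
    rw [h2]
    linarith

theorem exists_small (D : ℕ → ℝ) (hD : ∀ j, 0 ≤ D j) (c : ℝ) (K : ℕ) (hK : 0 < K)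
    (h : ∑ j ∈ range (K + 1), D j ≤ c) : ∃ j < K, D j + D (j + 1) ≤ 2 * c / K := by
  by_contra hcon
  push Not at hcon
  have hK' : (0 : ℝ) < K := by exact_mod_cast hK
  have h1 : ∑ j ∈ range K, (2 * c / K) < ∑ j ∈ range K, (D j + D (j + 1)) := by
    refine sum_lt_sum_of_nonempty ⟨0, mem_range.2 hK⟩ fun j hj => ?_
    exact hcon j (mem_range.1 hj)
  rw [sum_const, card_range, nsmul_eq_mul, sum_add_distrib] at h1
  have h2 : ∑ j ∈ range K, D j ≤ c := by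
    refine le_trans ?_ h
    rw [sum_range_succ]
    linarith [hD K]
  have h3 : ∑ j ∈ range K, D (j + 1) ≤ c := by
    refine le_trans ?_ h
    rw [sum_range_succ']
    linarith [hD 0]
  have h4 : (K : ℝ) * (2 * c / K) = 2 * c := by field_simp
  linarith

theorem first_le {v : α → E} {p : Pm} {M es l : ℕ} (hMN : M ≤ N)
    (hl : ∀ t < M, ∀ (e : Fin N ≃ α) (z : α), MMe v p t e z → l + 1 ≤ t) :
    mass M (fun t (e : Fin N ≃ α) z => MMe v p t e z ∧ er v p l (Y e (t - l)) z ≤ es ∧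
        ∃ h, At e (t - l - 1) h ∧ ¬ RG v p l (Y e (t - l)) z h) ≤
      mass M (fun t (e : Fin N ≃ α) z => Bv v p es (l + 1) t e z) +
        mass M (fun t (e : Fin N ≃ α) z => Dv v p es l t e z) := by
  refine (mass_mono ?_).trans (mass_or_le _ _)
  rintro t ht e z ⟨hM, he, h, hA, hR⟩
  have hlt := hl t ht e z hM
  by_cases hJ : Ie v p (l + 1) t e z ∧ ¬ He v p (l + 1) t e z
  · right
    refine ⟨hM, he, hJ, ?_⟩
    by_contra hc
    apply hR
    refine RG_of_step hlt (by omega) hJ.1 hJ.2 (not_lt.1 hc) ?_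
    rwa [Nat.sub_sub] at hA
  · left
    exact (Bv_iff hlt).2 ⟨hM, he, hJ⟩

theorem second_le {v : α → E} {p : Pm} {M es l : ℕ} (hMN : M ≤ N)
    (hl : ∀ t < M, ∀ (e : Fin N ≃ α) (z : α), MMe v p t e z → l + 2 ≤ t) :
    mass M (fun t (e : Fin N ≃ α) z => MMe v p t e z ∧ er v p l (Y e (t - l)) z ≤ es ∧
        ∃ h, At e (t - l - 2) h ∧ ¬ RG v p (l + 1) (Y e (t - l - 1)) z h) ≤
      mass M (fun t (e : Fin N ≃ α) z => Bv v p es (l + 1) t e z) +
        (mass M (fun t (e : Fin N ≃ α) z => Bv v p es (l + 1 + 1) t e z) +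
        mass M (fun t (e : Fin N ≃ α) z => Dv v p es (l + 1) t e z)) := by
  refine (mass_mono ?_).trans ((mass_or_le _ _).trans
    (add_le_add_right (mass_or_le _ _) _))
  rintro t ht e z ⟨hM, he, h, hA, hR⟩
  have hlt := hl t ht e z hM
  by_cases hJ : Ie v p (l + 1) t e z ∧ ¬ He v p (l + 1) t e z
  · right
    have he' := (step_not (by omega) (by omega) hJ).trans he
    by_cases hJ' : Ie v p (l + 1 + 1) t e z ∧ ¬ He v p (l + 1 + 1) t e z
    · right
      refine ⟨hM, he', hJ', ?_⟩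
      by_contra hc
      apply hR
      rw [Nat.sub_sub t l 1]
      refine RG_of_step (l := l + 1) hlt (by omega) hJ'.1 hJ'.2 (not_lt.1 hc) ?_
      rwa [Nat.sub_sub] at hA
    · left
      exact (Bv_iff (by omega)).2 ⟨hM, he', hJ'⟩
  · left
    exact (Bv_iff (by omega)).2 ⟨hM, he, hJ⟩

end

end PigeonAux

theorem pigeon (ε κ ρ : ℝ) (hε : 0 < ε) (hε1 : ε ≤ 1) (hκ : 0 < κ) (hκ1 : κ ≤ 1) (hρ : 0 < ρ)
    (es l₂' : ℕ) : ∃ lm : ℕ, ∃ ξ₀ ν₀ : ℝ, 0 < ξ₀ ∧ 0 < ν₀ ∧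
    ∀ (α : Type) [Fintype α] [DecidableEq α] (E : Type) [AddCommGroup E] [Module ℝ E]
      (v : α → E) (p : Pm) (N M M₂ : ℕ) (ν : ℝ), p.κ = κ → 0 < p.ξ → p.ξ ≤ ξ₀ →
      ν ≤ ν₀ → Good v N M M₂ p.β p.σ ε ν → ∃ l, l₂' ≤ l ∧ l + 2 ≤ lm ∧
      mass M (fun t (e : Fin N ≃ α) z => MMe v p t e z ∧ er v p l (Y e (t - l)) z ≤ es ∧
        ∃ h, At e (t - l - 1) h ∧ ¬ RG v p l (Y e (t - l)) z h) ≤ ρ ∧
      mass M (fun t (e : Fin N ≃ α) z => MMe v p t e z ∧ er v p l (Y e (t - l)) z ≤ es ∧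
        ∃ h, At e (t - l - 2) h ∧ ¬ RG v p (l + 1) (Y e (t - l - 1)) z h) ≤ ρ := by
  have hes : (0 : ℝ) < (es : ℝ) + 1 := by positivity
  set ρ' : ℝ := min (ρ / 8) (1 / ((es : ℝ) + 1)) with hρ'def
  have hρ' : 0 < ρ' := lt_min (by positivity) (by positivity)
  have hρ1 : ρ' ≤ ρ / 8 := min_le_left _ _
  have hρ2 : ((es : ℝ) + 1) * ρ' ≤ 1 := by
    have h1 : ρ' ≤ 1 / ((es : ℝ) + 1) := min_le_right _ _
    have h2 := mul_le_mul_of_nonneg_left h1 hes.le
    rwa [mul_one_div_cancel hes.ne'] at h2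
  obtain ⟨l₂, hl₂, hstep⟩ := step_bound ε κ ρ' hε hε1 hκ hκ1 hρ' es
  obtain ⟨K, hK⟩ := exists_nat_ge (32 * ((es : ℝ) + 1) / ρ)
  have hK0 : (0 : ℝ) < K := lt_of_lt_of_le (by positivity) hK
  have hK1 : 0 < K := by exact_mod_cast hK0
  have hK2 : 2 * (2 * ((es : ℝ) + 1)) / K ≤ ρ / 8 := by
    rw [div_le_iff₀ hK0]
    rw [div_le_iff₀ hρ] at hK
    linarith
  set l₁ : ℕ := max (max l₂ l₂') 1 with hl₁
  have hl₁a : l₂ ≤ l₁ := (le_max_left _ _).trans (le_max_left _ _)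
  have hl₁b : l₂' ≤ l₁ := (le_max_right _ _).trans (le_max_left _ _)
  set lm : ℕ := l₁ + 2 + K with hlm
  obtain ⟨ξ₀, ν₀, hξ₀, hν₀, hmain⟩ := hstep lm
  refine ⟨lm, ξ₀, min ν₀ (1 / ((lm : ℝ) + 1)), hξ₀, lt_min hν₀ (by positivity), ?_⟩
  intro α _ _ E _ _ v p N M M₂ ν hpκ hξ hξ' hν hG
  have hsum := hmain α E v p N M M₂ ν hpκ hξ hξ' (hν.trans (min_le_left _ _)) hG
  have hMN : M ≤ N := hG.M8.2.le
  have hβ : lm + 1 ≤ p.β := by
    refine hG.inv ?_
    have h1 : ν ≤ 1 / ((lm : ℝ) + 1) := hν.trans (min_le_right _ _)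
    have h2 : (0 : ℝ) < (lm : ℝ) + 1 := by positivity
    have h3 := mul_le_mul_of_nonneg_left h1 h2.le
    rw [mul_one_div_cancel h2.ne'] at h3
    push_cast
    exact h3
  have hlt : ∀ t < M, ∀ (e : Fin N ≃ α) (z : α), MMe v p t e z → lm + 1 ≤ t := by
    intro t _ e z hM
    exact hβ.trans (beta_le_of_MMe hM)
  set B : ℕ → ℝ := fun l => mass M (fun t (e : Fin N ≃ α) z => PigeonAux.Bv v p es l t e z)
    with hBdef
  set D : ℕ → ℝ := fun l => mass M (fun t (e : Fin N ≃ α) z => PigeonAux.Dv v p es l t e z)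
    with hDdef
  have hB0 : ∀ l, 0 ≤ B l := fun l => mass_nonneg _
  have hD0 : ∀ l, 0 ≤ D l := fun l => mass_nonneg _
  have hBsum : ∑ l ∈ Icc l₂ lm, B l ≤ ρ' := hsum
  have hB1 : ∀ l, l₂ ≤ l → l ≤ lm → B l ≤ ρ' := by
    intro l h1 h2
    refine le_trans ?_ hBsum
    exact single_le_sum (f := B) (fun i _ => hB0 i) (mem_Icc.2 ⟨h1, h2⟩)
  have htele := PigeonAux.tele (v := v) (p := p) (es := es) (l₁ := l₁) hMN K
    (fun t ht e z hM => by
      have := hlt t ht e z hM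
      omega)
  have hB2 : ∑ j ∈ range (K + 1), B (l₁ + j + 1) ≤ ρ' := by
    refine le_trans ?_ hBsum
    have h1 : ∑ j ∈ range (K + 1), B (l₁ + j + 1) =
        ∑ l ∈ (range (K + 1)).image (fun j => l₁ + j + 1), B l := by
      rw [sum_image]
      intro a _ b _ hab
      simpa using hab
    rw [h1]
    refine sum_le_sum_of_subset_of_nonneg ?_ fun i _ _ => hB0 i
    intro l hl
    rw [mem_image] at hl
    obtain ⟨j, hj, rfl⟩ := hl
    rw [mem_range] at hj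
    rw [mem_Icc]
    omega
  have hDsum : ∑ j ∈ range (K + 1), D (l₁ + j) ≤ 2 * ((es : ℝ) + 1) := by
    have h1 := PigeonAux.pot_nonneg (v := v) (p := p) (M := M) (N := N) (es := es) (l := l₁)
    have h2 := PigeonAux.pot_le (v := v) (p := p) (M := M) (N := N) (es := es)
      (l := l₁ + (K + 1)) (mass_MM_le_one hG)
    have h3 := mul_le_mul_of_nonneg_left hB2 hes.le
    have h4 : ∑ j ∈ range (K + 1), D (l₁ + j) ≤ ((es : ℝ) + 1) + ((es : ℝ) + 1) * ρ' := by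
      have h5 : ∑ j ∈ range (K + 1), D (l₁ + j) = ∑ j ∈ range (K + 1),
        mass M (fun t (e : Fin N ≃ α) z => PigeonAux.Dv v p es (l₁ + j) t e z) := rfl
      have h6 : ∑ j ∈ range (K + 1), B (l₁ + j + 1) = ∑ j ∈ range (K + 1),
        mass M (fun t (e : Fin N ≃ α) z => PigeonAux.Bv v p es (l₁ + j + 1) t e z) := rfl
      rw [← h5, ← h6] at htele
      linarith
    linarith
  obtain ⟨j, hj, hDj⟩ := PigeonAux.exists_small (fun j => D (l₁ + j)) (fun j => hD0 _)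
    (2 * ((es : ℝ) + 1)) K hK1 hDsum
  have hDj' : D (l₁ + j) + D (l₁ + j + 1) ≤ ρ / 8 := hDj.trans hK2
  have hBa := hB1 (l₁ + j + 1) (by omega) (by omega)
  have hBb := hB1 (l₁ + j + 1 + 1) (by omega) (by omega)
  refine ⟨l₁ + j, by omega, by omega, ?_, ?_⟩
  · have h1 := PigeonAux.first_le (v := v) (p := p) (es := es) (l := l₁ + j) hMN
      (fun t ht e z hM => by
        have := hlt t ht e z hM
        omega)
    have h2 : B (l₁ + j + 1) + D (l₁ + j) ≤ ρ := by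
      linarith [hD0 (l₁ + j + 1)]
    exact h1.trans h2
  · have h1 := PigeonAux.second_le (v := v) (p := p) (es := es) (l := l₁ + j) hMN
      (fun t ht e z hM => by
        have := hlt t ht e z hM
        omega)
    have h2 : B (l₁ + j + 1) + (B (l₁ + j + 1 + 1) + D (l₁ + j + 1)) ≤ ρ := by
      linarith [hD0 (l₁ + j)]
    exact h1.trans h2

end Pool.Agent.Lib.P0fc
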