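import Mathlib
import Pool.Agent.Lib.P0fc.DefL

/-!
# Replicas

Let `O` be a family of sets `U ⊇ A` with `|A| + l` elements; `F U = vcl v U` is a flat with
`dm v U ≤ dm v A + l`.
`replica`: count the pairs `(w, j)`, `w : Fin (s+1) → O`, `j : Fin (s+1)`, with
`⋂_{i ≠ j} F (w i) ⊄ F (w j)`.  By symmetry (swap the coordinates `j` and `last`) the number is `s + 1`
times the number of the `w` with `⋂_{i ≠ last} F (w i) ⊄ F (w last)`.  For fixed `w` the set `J` of these
`j` has at most `l + 1` elements: enumerate `J = {j₁, ..., j_r}` and consider the intersections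
`Iₘ = ⋂_{i ∉ {j_{m+1}, ..., j_r}} F (w i)`; each step `I_{m} = I_{m-1} ∩ F (w j_m)` is strict (if
`I_{m-1} ⊆ F (w j_m)` then `⋂_{i ≠ j_m} F (w i) ⊆ I_{m-1} ⊆ F (w j_m)`), and from `m = 1` on all are flats
between `A` and `F (w j₁)`, so their ranks lie in `[dm v A, dm v A + l]` and decrease strictly
(`eq_of_dm`, `vcl_inter`): `r - 1 ≤ l`.
`replica_half`: for `w : Fin s → O` let `b w = #{U ∈ O | ¬ ⋂ F (w i) ⊆ F U}`;
`∑_w b w = #{(w, U)} ≤ (l+1)/(s+1) |O|^(s+1)`, so by Markov the number of the `w` with `b w > ζ |O|` is at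
most `(l+1)/((s+1) ζ) |O|^s ≤ |O|^s/2`.
-/

namespace Pool.Agent.Lib.P0fc

open Finset Pool.Agent.Lib.P0fb

open Classical in
/-- intersection of the closures -/
noncomputable def Inter {α : Type} [Fintype α] [DecidableEq α] {E : Type} [AddCommGroup E]
    [Module ℝ E] (v : α → E) {s : ℕ} (w : Fin s → Finset α) : Finset α :=
  univ.filter (fun g => ∀ i, g ∈ vcl v (w i))


namespace ReplicaAux

variable {α : Type} [Fintype α] [DecidableEq α] {E : Type} [AddCommGroup E] [Module ℝ E]

open Classical in
/-- the intersection of the closures over a set of indices -/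
noncomputable def II (v : α → E) {m : ℕ} (w : Fin m → Finset α) (T : Finset (Fin m)) : Finset α :=
  univ.filter (fun g => ∀ i ∈ T, g ∈ vcl v (w i))

theorem mem_II (v : α → E) {m : ℕ} (w : Fin m → Finset α) (T : Finset (Fin m)) (g : α) :
    g ∈ II v w T ↔ ∀ i ∈ T, g ∈ vcl v (w i) := by
  unfold II
  rw [Finset.mem_filter]
  exact ⟨fun h => h.2, fun h => ⟨Finset.mem_univ _, h⟩⟩

theorem II_flat (v : α → E) {m : ℕ} (w : Fin m → Finset α) (T : Finset (Fin m)) :
    vcl v (II v w T) = II v w T := by
  apply Finset.Subset.antisymm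
  · intro g hg
    rw [mem_II]
    intro i hi
    have h1 : II v w T ⊆ vcl v (w i) := by
      intro x hx
      exact (mem_II v w T x).1 hx i hi
    have h2 := vcl_mono (v := v) h1 hg
    rwa [vcl_vcl] at h2
  · exact subset_vcl v _

/-- `j` is bad for `w` -/
def Q (v : α → E) {m : ℕ} (w : Fin m → Finset α) (j : Fin m) : Prop :=
  ¬ ∀ g, (∀ i, i ≠ j → g ∈ vcl v (w i)) → g ∈ vcl v (w j)

open Classical in
theorem core (v : α → E) (A : Finset α) (l : ℕ) {m : ℕ} (w : Fin m → Finset α)
    (hw : ∀ i, A ⊆ w i ∧ (w i).card = A.card + l) :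
    (univ.filter (fun j => Q v w j)).card ≤ l + 1 := by
  set J : Finset (Fin m) := univ.filter (fun j => Q v w j) with hJ
  have hJm : ∀ j, j ∈ J ↔ Q v w j := by
    intro j
    rw [hJ, Finset.mem_filter]
    exact ⟨fun h => h.2, fun h => ⟨Finset.mem_univ _, h⟩⟩
  have hdm : ∀ i, dm v (vcl v (w i)) ≤ dm v A + l := by
    intro i
    rw [dm_vcl]
    have h1 : A ∪ (w i \ A) = w i := Finset.union_sdiff_of_subset (hw i).1
    have h2 : (w i \ A).card = l := by
      rw [Finset.card_sdiff_of_subset (hw i).1, (hw i).2]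
      omega
    have h3 := dm_union_le v A (w i \ A)
    rw [h1, h2] at h3
    exact h3
  have hA : ∀ T : Finset (Fin m), A ⊆ II v w T := by
    intro T x hx
    rw [mem_II]
    intro i _
    exact subset_vcl v (w i) ((hw i).1 hx)
  -- the chain
  have key : ∀ R : Finset (Fin m), R.Nonempty → R ⊆ J →
      dm v (II v w (Jᶜ ∪ R)) + R.card ≤ dm v A + l + 1 := by
    intro R hR
    induction hR using Finset.Nonempty.cons_induction with
    | singleton j =>
      intro _
      have h1 : II v w (Jᶜ ∪ {j}) ⊆ vcl v (w j) := by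
        intro x hx
        exact (mem_II v w _ x).1 hx j (Finset.mem_union_right _ (Finset.mem_singleton_self j))
      have h2 := dm_mono (v := v) h1
      have h3 := hdm j
      rw [Finset.card_singleton]
      omega
    | cons j R hj hR ih =>
      intro hsub
      have hRJ : R ⊆ J := fun x hx => hsub (Finset.mem_cons_of_mem hx)
      have hjJ : j ∈ J := hsub (Finset.mem_cons_self j R)
      have h1 := ih hRJ
      rw [Finset.card_cons]
      have hss : II v w (Jᶜ ∪ Finset.cons j R hj) ⊆ II v w (Jᶜ ∪ R) := by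
        intro x hx
        rw [mem_II] at hx ⊢
        intro i hi
        refine hx i ?_
        rcases Finset.mem_union.1 hi with hi | hi
        · exact Finset.mem_union_left _ hi
        · exact Finset.mem_union_right _ (Finset.mem_cons_of_mem hi)
      have hlt : dm v (II v w (Jᶜ ∪ Finset.cons j R hj)) < dm v (II v w (Jᶜ ∪ R)) := by
        by_contra hcon
        rw [not_lt] at hcon
        have heq := eq_of_dm (v := v) (II_flat v w _) (II_flat v w _) hss hcon
        have hQ := (hJm j).1 hjJ
        apply hQ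
        intro g hg
        have h5 : g ∈ II v w (Jᶜ ∪ R) := by
          rw [mem_II]
          intro i hi
          refine hg i ?_
          rintro rfl
          rcases Finset.mem_union.1 hi with hi | hi
          · exact (Finset.mem_compl.1 hi) hjJ
          · exact hj hi
        rw [heq] at h5
        exact (mem_II v w _ g).1 h5 j (Finset.mem_union_right _ (Finset.mem_cons_self j R))
      omega
  rcases Finset.eq_empty_or_nonempty J with h0 | hne
  · rw [h0, Finset.card_empty]
    omega
  · have h1 := key J hne (Finset.Subset.refl J)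
    have h2 := dm_mono (v := v) (hA (Jᶜ ∪ J))
    omega

theorem Q_swap (v : α → E) {m : ℕ} (w : Fin m → Finset α) (σ : Equiv.Perm (Fin m)) (j : Fin m) :
    Q v (fun i => w (σ i)) j ↔ Q v w (σ j) := by
  unfold Q
  rw [not_iff_not]
  constructor
  · intro h g hg
    refine h g ?_
    intro i hi
    exact hg (σ i) (fun h => hi (σ.injective h))
  · intro h g hg
    refine h g ?_
    intro i hi
    have h1 := hg (σ.symm i) (by
      intro h2
      apply hi
      rw [← h2, Equiv.apply_symm_apply])
    have h3 : σ (σ.symm i) = i := Equiv.apply_symm_apply σ i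
    simp only [h3] at h1
    exact h1

open Classical in
theorem count_eq (v : α → E) {m : ℕ} (O : Finset (Finset α)) (j k : Fin m) :
    ((Fintype.piFinset (fun _ : Fin m => O)).filter (fun w => Q v w j)).card =
      ((Fintype.piFinset (fun _ : Fin m => O)).filter (fun w => Q v w k)).card := by
  set σ := Equiv.swap j k with hσ
  have hσk : σ k = j := by rw [hσ]; exact Equiv.swap_apply_right j k
  have hσj : σ j = k := by rw [hσ]; exact Equiv.swap_apply_left j k
  refine Finset.card_nbij' (fun w i => w (σ i)) (fun w i => w (σ i)) ?_ ?_ ?_ ?_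
  · intro w hw
    rw [Finset.mem_coe, Finset.mem_filter, Fintype.mem_piFinset] at hw ⊢
    refine ⟨fun i => hw.1 (σ i), ?_⟩
    rw [Q_swap, hσk]
    exact hw.2
  · intro w hw
    rw [Finset.mem_coe, Finset.mem_filter, Fintype.mem_piFinset] at hw ⊢
    refine ⟨fun i => hw.1 (σ i), ?_⟩
    rw [Q_swap, hσj]
    exact hw.2
  · intro w _
    funext i
    show w (σ (σ i)) = w i
    rw [hσ, Equiv.swap_apply_self]
  · intro w _
    funext i
    show w (σ (σ i)) = w i
    rw [hσ, Equiv.swap_apply_self]

open Classical in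
theorem count_le (v : α → E) (A : Finset α) (l s : ℕ) (O : Finset (Finset α))
    (hO : ∀ U ∈ O, A ⊆ U ∧ U.card = A.card + l) :
    (s + 1) * ((Fintype.piFinset (fun _ : Fin (s + 1) => O)).filter
      (fun w => Q v w (Fin.last s))).card ≤ (l + 1) * O.card ^ (s + 1) := by
  have h1 : ∑ j : Fin (s + 1), ((Fintype.piFinset (fun _ : Fin (s + 1) => O)).filter
      (fun w => Q v w j)).card = (s + 1) * ((Fintype.piFinset (fun _ : Fin (s + 1) => O)).filter
      (fun w => Q v w (Fin.last s))).card := by
    rw [Finset.sum_congr rfl (fun j _ => count_eq v O j (Fin.last s)), Finset.sum_const,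
      Finset.card_univ, Fintype.card_fin, smul_eq_mul]
  rw [← h1]
  have h2 : ∑ j : Fin (s + 1), ((Fintype.piFinset (fun _ : Fin (s + 1) => O)).filter
      (fun w => Q v w j)).card = ∑ w ∈ Fintype.piFinset (fun _ : Fin (s + 1) => O),
        (univ.filter (fun j => Q v w j)).card := by
    simp only [Finset.card_filter]
    exact Finset.sum_comm
  rw [h2]
  calc ∑ w ∈ Fintype.piFinset (fun _ : Fin (s + 1) => O), (univ.filter (fun j => Q v w j)).card
      ≤ ∑ _w ∈ Fintype.piFinset (fun _ : Fin (s + 1) => O), (l + 1) := by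
        refine Finset.sum_le_sum ?_
        intro w hw
        rw [Fintype.mem_piFinset] at hw
        exact core v A l w (fun i => hO _ (hw i))
    _ = (l + 1) * O.card ^ (s + 1) := by
        rw [Finset.sum_const, smul_eq_mul, Fintype.card_piFinset_const, mul_comm]

theorem Q_last (v : α → E) {s : ℕ} (w : Fin (s + 1) → Finset α) :
    Q v w (Fin.last s) ↔
      ¬ Inter v (fun i : Fin s => w i.castSucc) ⊆ vcl v (w (Fin.last s)) := by
  unfold Q
  rw [not_iff_not]
  constructor
  · intro h g hg
    unfold Inter at hg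
    rw [Finset.mem_filter] at hg
    refine h g ?_
    intro i hi
    obtain ⟨i', rfl⟩ := Fin.exists_castSucc_eq.2 hi
    exact hg.2 i'
  · intro h g hg
    refine h ?_
    unfold Inter
    rw [Finset.mem_filter]
    exact ⟨Finset.mem_univ _, fun i => hg _ (Fin.castSucc_lt_last i).ne⟩

open Classical in
theorem fiber (v : α → E) (s : ℕ) (O : Finset (Finset α)) :
    ((Fintype.piFinset (fun _ : Fin (s + 1) => O)).filter (fun w =>
      ¬ Inter v (fun i : Fin s => w i.castSucc) ⊆ vcl v (w (Fin.last s)))).card =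
      ∑ w ∈ Fintype.piFinset (fun _ : Fin s => O),
        (O.filter (fun U => ¬ Inter v w ⊆ vcl v U)).card := by
  rw [Finset.card_eq_sum_card_fiberwise (f := fun (w : Fin (s + 1) → Finset α) (i : Fin s) =>
    w i.castSucc) (t := Fintype.piFinset (fun _ : Fin s => O))]
  · refine Finset.sum_congr rfl ?_
    intro w' hw'
    rw [Fintype.mem_piFinset] at hw'
    refine Finset.card_nbij' (fun w => w (Fin.last s))
      (fun U => Fin.snoc (α := fun _ => Finset α) w' U) ?_ ?_ ?_ ?_
    · intro w hw
      rw [Finset.mem_coe, Finset.mem_filter, Finset.mem_filter, Fintype.mem_piFinset] at hw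
      obtain ⟨⟨h1, h2⟩, h3⟩ := hw
      rw [Finset.mem_coe, Finset.mem_filter]
      refine ⟨h1 _, ?_⟩
      rw [← h3]
      exact h2
    · intro U hU
      rw [Finset.mem_coe, Finset.mem_filter] at hU
      have h4 : (fun i : Fin s => (Fin.snoc (α := fun _ => Finset α) w' U : Fin (s + 1) →
          Finset α) i.castSucc) = w' := by
        funext i
        exact Fin.snoc_castSucc (α := fun _ => Finset α) U w' i
      have h5 : (Fin.snoc (α := fun _ => Finset α) w' U : Fin (s + 1) → Finset α)
          (Fin.last s) = U := Fin.snoc_last (α := fun _ => Finset α) U w'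
      rw [Finset.mem_coe, Finset.mem_filter, Finset.mem_filter, Fintype.mem_piFinset]
      refine ⟨⟨?_, ?_⟩, h4⟩
      · intro i
        refine Fin.lastCases ?_ ?_ i
        · show (Fin.snoc (α := fun _ => Finset α) w' U : Fin (s + 1) → Finset α)
            (Fin.last s) ∈ O
          rw [h5]
          exact hU.1
        · intro i'
          have h6 := congrFun h4 i'
          show (Fin.snoc (α := fun _ => Finset α) w' U : Fin (s + 1) → Finset α)
            i'.castSucc ∈ O
          have h7 : (Fin.snoc (α := fun _ => Finset α) w' U : Fin (s + 1) → Finset α)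
            i'.castSucc = w' i' := h6
          rw [h7]
          exact hw' i'
      · show ¬ Inter v (fun i : Fin s => (Fin.snoc (α := fun _ => Finset α) w' U : Fin (s + 1) →
          Finset α) i.castSucc) ⊆ vcl v ((Fin.snoc (α := fun _ => Finset α) w' U : Fin (s + 1) →
          Finset α) (Fin.last s))
        rw [h4, h5]
        exact hU.2
    · intro w hw
      rw [Finset.mem_coe, Finset.mem_filter] at hw
      have h3 := hw.2
      funext i
      refine Fin.lastCases ?_ ?_ i
      · exact Fin.snoc_last (α := fun _ => Finset α) _ w'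
      · intro i'
        have h6 : w i'.castSucc = w' i' := congrFun h3 i'
        show (Fin.snoc (α := fun _ => Finset α) w' (w (Fin.last s)) : Fin (s + 1) →
          Finset α) i'.castSucc = w i'.castSucc
        rw [h6]
        exact Fin.snoc_castSucc (α := fun _ => Finset α) _ w' i'
    · intro U _
      exact Fin.snoc_last (α := fun _ => Finset α) U w'
  · intro w hw
    rw [Finset.mem_coe, Finset.mem_filter, Fintype.mem_piFinset] at hw
    rw [Finset.mem_coe, Fintype.mem_piFinset]
    intro i
    exact hw.1 _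

end ReplicaAux

open Classical in
theorem replica {α : Type} [Fintype α] [DecidableEq α] {E : Type} [AddCommGroup E] [Module ℝ E]
    (v : α → E) (A : Finset α) (l s : ℕ) (O : Finset (Finset α))
    (hO : ∀ U ∈ O, A ⊆ U ∧ U.card = A.card + l) :
    ((s : ℝ) + 1) * (((Fintype.piFinset (fun _ : Fin (s + 1) => O)).filter (fun w =>
      ¬ Inter v (fun i : Fin s => w i.castSucc) ⊆ vcl v (w (Fin.last s)))).card : ℝ) ≤
      ((l : ℝ) + 1) * (O.card : ℝ) ^ (s + 1) := by
  have h := ReplicaAux.count_le v A l s O hO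
  have h1 : (Fintype.piFinset (fun _ : Fin (s + 1) => O)).filter (fun w =>
      ¬ Inter v (fun i : Fin s => w i.castSucc) ⊆ vcl v (w (Fin.last s))) =
      (Fintype.piFinset (fun _ : Fin (s + 1) => O)).filter
        (fun w => ReplicaAux.Q v w (Fin.last s)) := by
    refine Finset.filter_congr ?_
    intro w _
    exact (ReplicaAux.Q_last v w).symm
  rw [h1]
  exact_mod_cast h

open Classical in
theorem replica_half {α : Type} [Fintype α] [DecidableEq α] {E : Type} [AddCommGroup E]
    [Module ℝ E] (v : α → E) (A : Finset α) (l s : ℕ) (O : Finset (Finset α))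
    (hO : ∀ U ∈ O, A ⊆ U ∧ U.card = A.card + l) (ζ : ℝ) (hζ : 0 < ζ)
    (hs : 2 * ((l : ℝ) + 1) ≤ ζ * ((s : ℝ) + 1)) :
    (O.card : ℝ) ^ s / 2 ≤ (((Fintype.piFinset (fun _ : Fin s => O)).filter (fun w =>
      ((O.filter (fun U => ¬ Inter v w ⊆ vcl v U)).card : ℝ) ≤ ζ * (O.card : ℝ))).card : ℝ) := by
  have hr := replica v A l s O hO
  rw [ReplicaAux.fiber] at hr
  set W := Fintype.piFinset (fun _ : Fin s => O) with hW
  set f : (Fin s → Finset α) → ℕ := fun w => (O.filter (fun U => ¬ Inter v w ⊆ vcl v U)).card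
    with hf
  have hWc : (W.card : ℝ) = (O.card : ℝ) ^ s := by
    rw [hW, Fintype.card_piFinset_const]
    push_cast
    rfl
  have hsplit : (W.filter (fun w => (f w : ℝ) ≤ ζ * (O.card : ℝ))).card +
      (W.filter (fun w => ¬ (f w : ℝ) ≤ ζ * (O.card : ℝ))).card = W.card :=
    Finset.card_filter_add_card_filter_not _
  have hsplit' : ((W.filter (fun w => (f w : ℝ) ≤ ζ * (O.card : ℝ))).card : ℝ) +
      ((W.filter (fun w => ¬ (f w : ℝ) ≤ ζ * (O.card : ℝ))).card : ℝ) = (O.card : ℝ) ^ s := by
    rw [← hWc]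
    exact_mod_cast hsplit
  show (O.card : ℝ) ^ s / 2 ≤ ((W.filter (fun w => (f w : ℝ) ≤ ζ * (O.card : ℝ))).card : ℝ)
  by_cases h0 : O.card = 0
  · have hall : W.filter (fun w => (f w : ℝ) ≤ ζ * (O.card : ℝ)) = W := by
      refine Finset.filter_true_of_mem ?_
      intro w _
      have h1 : f w ≤ O.card := Finset.card_filter_le _ _
      have h2 : f w = 0 := by omega
      rw [h2, h0]
      simp
    rw [hall, hWc]
    have : 0 ≤ (O.card : ℝ) ^ s := by positivity
    linarith
  · have hOpos : (0 : ℝ) < O.card := by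
      have : 0 < O.card := Nat.pos_of_ne_zero h0
      exact_mod_cast this
    set bad := W.filter (fun w => ¬ (f w : ℝ) ≤ ζ * (O.card : ℝ)) with hbad
    have hmarkov : (bad.card : ℝ) * (ζ * (O.card : ℝ)) ≤ ∑ w ∈ W, (f w : ℝ) := by
      calc (bad.card : ℝ) * (ζ * (O.card : ℝ)) = ∑ _w ∈ bad, (ζ * (O.card : ℝ)) := by
            rw [Finset.sum_const, nsmul_eq_mul]
        _ ≤ ∑ w ∈ bad, (f w : ℝ) := by
            refine Finset.sum_le_sum ?_
            intro w hw
            rw [hbad, Finset.mem_filter] at hw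
            exact (not_le.1 hw.2).le
        _ ≤ ∑ w ∈ W, (f w : ℝ) :=
            Finset.sum_le_sum_of_subset_of_nonneg (Finset.filter_subset _ _)
              (fun _ _ _ => Nat.cast_nonneg _)
    have hsum : ((s : ℝ) + 1) * ∑ w ∈ W, (f w : ℝ) ≤ ((l : ℝ) + 1) * (O.card : ℝ) ^ (s + 1) := by
      have h1 : ((∑ w ∈ W, f w : ℕ) : ℝ) = ∑ w ∈ W, (f w : ℝ) := by push_cast; rfl
      rw [← h1]
      exact hr
    have hs0 : (0 : ℝ) < (s : ℝ) + 1 := by positivity
    have h3 : ((s : ℝ) + 1) * ((bad.card : ℝ) * (ζ * (O.card : ℝ))) ≤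
        ((l : ℝ) + 1) * (O.card : ℝ) ^ (s + 1) :=
      (mul_le_mul_of_nonneg_left hmarkov hs0.le).trans hsum
    have h4 : (ζ * ((s : ℝ) + 1)) * (bad.card : ℝ) ≤ ((l : ℝ) + 1) * (O.card : ℝ) ^ s := by
      have h5 : ((ζ * ((s : ℝ) + 1)) * (bad.card : ℝ)) * (O.card : ℝ) ≤
          (((l : ℝ) + 1) * (O.card : ℝ) ^ s) * (O.card : ℝ) := by
        calc ((ζ * ((s : ℝ) + 1)) * (bad.card : ℝ)) * (O.card : ℝ) =
              ((s : ℝ) + 1) * ((bad.card : ℝ) * (ζ * (O.card : ℝ))) := by ring
          _ ≤ ((l : ℝ) + 1) * (O.card : ℝ) ^ (s + 1) := h3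
          _ = _ := by ring
      exact le_of_mul_le_mul_right h5 hOpos
    have h6 : (2 * ((l : ℝ) + 1)) * (bad.card : ℝ) ≤ ((l : ℝ) + 1) * (O.card : ℝ) ^ s :=
      (mul_le_mul_of_nonneg_right hs (Nat.cast_nonneg _)).trans h4
    have hl0 : (0 : ℝ) < (l : ℝ) + 1 := by positivity
    have h7 : 2 * (bad.card : ℝ) ≤ (O.card : ℝ) ^ s := by
      have h8 : ((l : ℝ) + 1) * (2 * (bad.card : ℝ)) ≤ ((l : ℝ) + 1) * (O.card : ℝ) ^ s := by
        calc ((l : ℝ) + 1) * (2 * (bad.card : ℝ)) = (2 * ((l : ℝ) + 1)) * (bad.card : ℝ) := by ring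
          _ ≤ _ := h6
      exact le_of_mul_le_mul_left h8 hl0
    linarith

end Pool.Agent.Lib.P0fc
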