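import Mathlib
import Pool.Agent.Lib.P0fc.AvCount
import Pool.Agent.Lib.P0fc.Replica
import Pool.Agent.Lib.P0fc.LLad

/-!
# The robust flats have positive mass, for one set `A`

Fix `A` with `|A| + l ≤ n = |α|`, `C = C(n - |A|, l) > 0`.  For `z` let
`O_z = {U ⊇ A : |U| = |A| + l, on U, z ∈ nt U}`; by `Av_iter` (the functions are indicators)
`ql l A z * C = |O_z|`, `rl l G A z * C = #{U ∈ O_z | ¬ G ⊆ vcl U}`.
(1) If `ql l A z ≥ q₀` and `|Gf l A z| < μ n`: `Gf` satisfies `IsG` (`Gf_spec`, `0 < ql`).  By `replica_half`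
(`ζ = zt ξ l 0 > 0`) for at least `|O_z|^s/2` tuples `w ∈ O_z^s` one has
`#{U ∈ O_z | ¬ Inter v w ⊆ vcl U} ≤ ζ |O_z|`, i.e. `rl l (Inter v w) A z ≤ ζ ql l A z`, so
`Inter v w ⊆ Gf l A z` and `|Inter v w| < μ n`; also `z ∈ Inter v w`.  Hence
`|O_z|^s/2 ≤ #{w ∈ 𝒰^s | z ∈ Inter v w ∧ |Inter v w| < μ n}`, `𝒰` = all `U ⊇ A` with `|U| = |A| + l`,
`|𝒰| = C` (`Av_iter` for `f = 1`, or count).  Sum over these `z` (exchange the sums: for each `w` with
`|Inter v w| < μ n` at most `μ n` elements `z`): `∑_z |O_z|^s/2 ≤ C^s μ n`, so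
`∑_z ql^s ≤ 2 μ n` and, since `ql^s ≥ q₀^(s-1) ql`, `∑_{z : q₀ ≤ ql, |Gf| < μ n} ql l A z ≤ 2 μ n/q₀^(s-1)`.
(2) `∑_{z : ql < q₀} ql ≤ q₀ n`.
(3) If `OK A ∧ Dle κ l A` fails then all `ql l A z = 0` (`ql_pos`, `ql_nonneg`), both sides are `0`.
-/

namespace Pool.Agent.Lib.P0fc

open Finset Pool.Agent.Lib.P0fb

namespace PosDetAux

variable {α : Type} [Fintype α] [DecidableEq α] {E : Type} [AddCommGroup E] [Module ℝ E]

open Classical in
/-- all completions -/
noncomputable def UU (A : Finset α) (l : ℕ) : Finset (Finset α) :=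
  univ.filter (fun U : Finset α => A ⊆ U ∧ U.card = A.card + l)

theorem card_UU (A : Finset α) (l : ℕ) :
    (UU A l).card = (Fintype.card α - A.card).choose l := by
  classical
  rw [← card_compl, ← card_powersetCard]
  refine Finset.card_nbij' (fun U => U \ A) (fun P => A ∪ P) ?_ ?_ ?_ ?_
  · intro U hU
    have hU' : A ⊆ U ∧ U.card = A.card + l := by
      have := hU
      unfold UU at this
      rw [mem_coe, mem_filter] at this
      exact this.2
    rw [mem_coe, mem_powersetCard]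
    refine ⟨?_, ?_⟩
    · intro x hx
      rw [mem_sdiff] at hx
      exact mem_compl.2 hx.2
    · rw [card_sdiff_of_subset hU'.1, hU'.2]
      omega
  · intro P hP
    rw [mem_coe, mem_powersetCard] at hP
    unfold UU
    rw [mem_coe, mem_filter]
    refine ⟨mem_univ _, subset_union_left, ?_⟩
    rw [card_union_of_disjoint, hP.2]
    rw [disjoint_left]
    intro x hx hx'
    exact (mem_compl.1 (hP.1 hx')) hx
  · intro U hU
    have hU' : A ⊆ U ∧ U.card = A.card + l := by
      have := hU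
      unfold UU at this
      rw [mem_coe, mem_filter] at this
      exact this.2
    exact union_sdiff_of_subset hU'.1
  · intro P hP
    rw [mem_coe, mem_powersetCard] at hP
    show (A ∪ P) \ A = P
    rw [union_sdiff_left]
    rw [Finset.sdiff_eq_self_iff_disjoint, disjoint_left]
    intro x hx hx'
    exact (mem_compl.1 (hP.1 hx)) hx'

open Classical in
/-- the good completions -/
noncomputable def OO (v : α → E) (p : Pm) (A : Finset α) (l : ℕ) (z : α) : Finset (Finset α) :=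
  (UU A l).filter (fun U => on v p U ∧ z ∈ nt v p.β U)

theorem sum_ind_card {β : Type} (S : Finset β) (P : β → Prop) [DecidablePred P] :
    ∑ U ∈ S, ind (P U) = ((S.filter P).card : ℝ) := by
  rw [card_filter]
  push_cast
  refine sum_congr rfl fun U _ => ?_
  by_cases h : P U
  · rw [ind_of h, if_pos h]
  · rw [ind_not_of h, if_neg h]

theorem ql_eq (v : α → E) (p : Pm) (l : ℕ) (A : Finset α) (z : α)
    (hA : A.card + l ≤ Fintype.card α) :
    ql v p l A z * (((Fintype.card α - A.card).choose l : ℕ) : ℝ) = ((OO v p A l z).card : ℝ) := by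
  classical
  unfold ql
  rw [Av_iter _ l A hA]
  unfold OO
  rw [← sum_ind_card]
  unfold UU
  refine sum_congr ?_ fun _ _ => rfl
  exact filter_congr fun _ _ => Iff.rfl

open Classical in
theorem rl_eq (v : α → E) (p : Pm) (l : ℕ) (G A : Finset α) (z : α)
    (hA : A.card + l ≤ Fintype.card α) :
    rl v p l G A z * (((Fintype.card α - A.card).choose l : ℕ) : ℝ) =
      (((OO v p A l z).filter (fun U => ¬ G ⊆ vcl v U)).card : ℝ) := by
  unfold rl
  rw [Av_iter _ l A hA]
  have h1 : (OO v p A l z).filter (fun U => ¬ G ⊆ vcl v U) =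
      (UU A l).filter (fun U => on v p U ∧ z ∈ nt v p.β U ∧ ¬ G ⊆ vcl v U) := by
    unfold OO
    rw [filter_filter]
    refine filter_congr fun U _ => ?_
    tauto
  rw [h1, ← sum_ind_card]
  unfold UU
  refine sum_congr ?_ fun _ _ => rfl
  exact filter_congr fun _ _ => Iff.rfl

open Classical in
theorem one (v : α → E) (p : Pm) (hξ : 0 < p.ξ) (hξ2 : p.ξ ≤ 1 / 2) (l s : ℕ) (hs1 : 1 ≤ s)
    (hs : 2 * ((l : ℝ) + 1) ≤ zt p.ξ l 0 * ((s : ℝ) + 1)) {μ : ℝ}
    (A : Finset α) (hA : A.card + l ≤ Fintype.card α) (z : α) (hq : 0 < ql v p l A z)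
    (hG : ((Gf v p l A z).card : ℝ) < μ * (Fintype.card α : ℝ)) :
    ((OO v p A l z).card : ℝ) ^ s / 2 ≤
      (((Fintype.piFinset (fun _ : Fin s => UU A l)).filter (fun w =>
        z ∈ Inter v w ∧ ((Inter v w).card : ℝ) < μ * (Fintype.card α : ℝ))).card : ℝ) := by
  have hC : 0 < (Fintype.card α - A.card).choose l := Nat.choose_pos (by omega)
  have hC' : (0 : ℝ) < (((Fintype.card α - A.card).choose l : ℕ) : ℝ) := by exact_mod_cast hC
  have hmem : ∀ U ∈ OO v p A l z, (A ⊆ U ∧ U.card = A.card + l) ∧ on v p U ∧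
      z ∈ nt v p.β U := by
    intro U hU
    unfold OO UU at hU
    rw [mem_filter, mem_filter] at hU
    exact ⟨hU.1.2, hU.2⟩
  refine (replica_half v A l s (OO v p A l z) (fun U hU => (hmem U hU).1) (zt p.ξ l 0)
    (zt_pos hξ l 0) hs).trans ?_
  have hsub : (Fintype.piFinset (fun _ : Fin s => OO v p A l z)).filter (fun w =>
      (((OO v p A l z).filter (fun U => ¬ Inter v w ⊆ vcl v U)).card : ℝ) ≤
        zt p.ξ l 0 * ((OO v p A l z).card : ℝ)) ⊆
      (Fintype.piFinset (fun _ : Fin s => UU A l)).filter (fun w =>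
        z ∈ Inter v w ∧ ((Inter v w).card : ℝ) < μ * (Fintype.card α : ℝ)) := by
    intro w hw
    rw [mem_filter, Fintype.mem_piFinset] at hw
    obtain ⟨h1, h2⟩ := hw
    rw [mem_filter, Fintype.mem_piFinset]
    have h3 : rl v p l (Inter v w) A z ≤ zt p.ξ l 0 * ql v p l A z := by
      have h4 := rl_eq v p l (Inter v w) A z hA
      have h5 := ql_eq v p l A z hA
      rw [← h4, ← h5, ← mul_assoc] at h2
      exact le_of_mul_le_mul_right h2 hC'
    have h6 := (Gf_spec v p hξ hξ2 hq).2.2.2 _ h3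
    refine ⟨fun i => ?_, ?_, ?_⟩
    · have := h1 i
      unfold OO at this
      exact (mem_filter.1 this).1
    · unfold Inter
      rw [mem_filter]
      refine ⟨mem_univ _, fun i => ?_⟩
      exact (mem_nt.1 (hmem _ (h1 i)).2.2).1
    · refine lt_of_le_of_lt ?_ hG
      exact_mod_cast card_le_card h6
  exact_mod_cast card_le_card hsub

open Classical in
theorem two (v : α → E) (l s : ℕ) {μ : ℝ} (A : Finset α) (Z : Finset α) :
    ∑ z ∈ Z, (((Fintype.piFinset (fun _ : Fin s => UU A l)).filter (fun w =>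
        z ∈ Inter v w ∧ ((Inter v w).card : ℝ) < μ * (Fintype.card α : ℝ))).card : ℝ) ≤
      (((Fintype.card α - A.card).choose l : ℕ) : ℝ) ^ s * (μ * (Fintype.card α : ℝ)) ∨ μ < 0 := by
  by_cases hμ : μ < 0
  · exact Or.inr hμ
  left
  rw [not_lt] at hμ
  have h1 : ∀ z, (((Fintype.piFinset (fun _ : Fin s => UU A l)).filter (fun w =>
        z ∈ Inter v w ∧ ((Inter v w).card : ℝ) < μ * (Fintype.card α : ℝ))).card : ℝ) =
      ∑ w ∈ Fintype.piFinset (fun _ : Fin s => UU A l),
        ind (z ∈ Inter v w ∧ ((Inter v w).card : ℝ) < μ * (Fintype.card α : ℝ)) := by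
    intro z
    rw [sum_ind_card]
  rw [sum_congr rfl (fun z _ => h1 z), sum_comm]
  have h2 : ∀ w ∈ Fintype.piFinset (fun _ : Fin s => UU A l),
      ∑ z ∈ Z, ind (z ∈ Inter v w ∧ ((Inter v w).card : ℝ) < μ * (Fintype.card α : ℝ)) ≤
        μ * (Fintype.card α : ℝ) := by
    intro w _
    by_cases hw : ((Inter v w).card : ℝ) < μ * (Fintype.card α : ℝ)
    · refine le_trans ?_ hw.le
      rw [sum_ind_card]
      have h3 : Z.filter (fun z => z ∈ Inter v w ∧
          ((Inter v w).card : ℝ) < μ * (Fintype.card α : ℝ)) ⊆ Inter v w := by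
        intro z hz
        exact (mem_filter.1 hz).2.1
      exact_mod_cast card_le_card h3
    · have h3 : ∀ z ∈ Z, ind (z ∈ Inter v w ∧
          ((Inter v w).card : ℝ) < μ * (Fintype.card α : ℝ)) = 0 := by
        intro z _
        exact ind_not_of fun h => hw h.2
      rw [sum_eq_zero h3]
      positivity
  refine (sum_le_sum h2).trans ?_
  rw [sum_const, nsmul_eq_mul, Fintype.card_piFinset_const, card_UU]
  push_cast
  exact le_rfl

end PosDetAux

open PosDetAux in
theorem pos_det {α : Type} [Fintype α] [DecidableEq α] {E : Type} [AddCommGroup E] [Module ℝ E]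
    (v : α → E) (p : Pm) (hξ : 0 < p.ξ) (hξ2 : p.ξ ≤ 1 / 2) (l s : ℕ) (hs1 : 1 ≤ s)
    (hs : 2 * ((l : ℝ) + 1) ≤ zt p.ξ l 0 * ((s : ℝ) + 1)) {q₀ μ : ℝ} (hq : 0 < q₀) (hq1 : q₀ ≤ 1)
    (hμ : 0 < μ) (A : Finset α) (hA : A.card + l ≤ Fintype.card α) :
    ∑ z, ind (((Gf v p l A z).card : ℝ) < μ * (Fintype.card α : ℝ)) * ql v p l A z ≤
      (q₀ + 2 * μ / q₀ ^ (s - 1)) * (Fintype.card α : ℝ) *
        ind (OK v p.β p.σ A ∧ Dle v p.κ l A) := by
  classical
  by_cases hev : OK v p.β p.σ A ∧ Dle v p.κ l A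
  swap
  · rw [ind_not_of hev, mul_zero]
    refine le_of_eq (sum_eq_zero fun z _ => ?_)
    have h0 : ql v p l A z = 0 := by
      by_contra hne
      exact hev (ql_pos v p (lt_of_le_of_ne (ql_nonneg v p l A z) (Ne.symm hne)))
    rw [h0, mul_zero]
  rw [ind_of hev, mul_one]
  set n : ℝ := (Fintype.card α : ℝ) with hn
  have hC : 0 < (Fintype.card α - A.card).choose l := Nat.choose_pos (by omega)
  set C : ℝ := (((Fintype.card α - A.card).choose l : ℕ) : ℝ) with hCdef
  have hC' : (0 : ℝ) < C := by rw [hCdef]; exact_mod_cast hC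
  set Z : Finset α := univ.filter (fun z => q₀ ≤ ql v p l A z ∧
    ((Gf v p l A z).card : ℝ) < μ * n) with hZ
  -- the big ones
  have hbig : ∑ z ∈ Z, ql v p l A z ≤ 2 * μ / q₀ ^ (s - 1) * n := by
    have h1 : ∀ z ∈ Z, (q₀ ^ (s - 1) * ql v p l A z) * (C ^ s / 2) ≤
        (((Fintype.piFinset (fun _ : Fin s => UU A l)).filter (fun w =>
        z ∈ Inter v w ∧ ((Inter v w).card : ℝ) < μ * (Fintype.card α : ℝ))).card : ℝ) := by
      intro z hz
      rw [hZ, mem_filter] at hz
      obtain ⟨_, hz1, hz2⟩ := hz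
      have hzpos : 0 < ql v p l A z := lt_of_lt_of_le hq hz1
      have h2 := one v p hξ hξ2 l s hs1 hs A hA z hzpos hz2
      refine le_trans ?_ h2
      rw [← ql_eq v p l A z hA, mul_pow]
      have h3 : q₀ ^ (s - 1) * ql v p l A z ≤ ql v p l A z ^ s := by
        obtain ⟨m, rfl⟩ : ∃ m, s = m + 1 := ⟨s - 1, by omega⟩
        rw [pow_succ]
        refine mul_le_mul_of_nonneg_right ?_ hzpos.le
        exact pow_le_pow_left₀ hq.le hz1 _
      have h4 : (0 : ℝ) ≤ C ^ s / 2 := by positivity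
      calc (q₀ ^ (s - 1) * ql v p l A z) * (C ^ s / 2)
          ≤ ql v p l A z ^ s * (C ^ s / 2) := mul_le_mul_of_nonneg_right h3 h4
        _ = ql v p l A z ^ s * C ^ s / 2 := by ring
    have h5 := (sum_le_sum h1).trans ((two v l s (μ := μ) A Z).resolve_right (not_lt.2 hμ.le))
    rw [← sum_mul, ← mul_sum] at h5
    have hCs : (0 : ℝ) < C ^ s := by positivity
    have hqs : (0 : ℝ) < q₀ ^ (s - 1) := by positivity
    have h6 : q₀ ^ (s - 1) * ∑ z ∈ Z, ql v p l A z ≤ 2 * μ * n := by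
      have h7 : (q₀ ^ (s - 1) * ∑ z ∈ Z, ql v p l A z) * C ^ s ≤ (2 * μ * n) * C ^ s := by
        have h8 : C ^ s * (μ * n) = (2 * μ * n) * C ^ s / 2 := by ring
        have h9 : (q₀ ^ (s - 1) * ∑ z ∈ Z, ql v p l A z) * (C ^ s / 2) =
          (q₀ ^ (s - 1) * ∑ z ∈ Z, ql v p l A z) * C ^ s / 2 := by ring
        rw [h9] at h5
        have h10 : (q₀ ^ (s - 1) * ∑ z ∈ Z, ql v p l A z) * C ^ s / 2 ≤
          (2 * μ * n) * C ^ s / 2 := h5.trans h8.le
        linarith
      exact le_of_mul_le_mul_right h7 hCs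
    rw [div_mul_eq_mul_div, le_div_iff₀ hqs]
    linarith
  -- all
  have hall : ∀ z, ind (((Gf v p l A z).card : ℝ) < μ * n) * ql v p l A z ≤
      ind (z ∈ Z) * ql v p l A z + q₀ := by
    intro z
    have h0 := ql_nonneg v p l A z
    by_cases h1 : ((Gf v p l A z).card : ℝ) < μ * n
    · by_cases h2 : q₀ ≤ ql v p l A z
      · have h3 : z ∈ Z := by
          rw [hZ, mem_filter]
          exact ⟨mem_univ _, h2, h1⟩
        rw [ind_of h1, ind_of h3]
        linarith
      · rw [ind_of h1, one_mul]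
        rw [not_le] at h2
        have h3 := mul_nonneg (ind_nonneg (z ∈ Z)) h0
        linarith
    · rw [ind_not_of h1, zero_mul]
      have h3 := mul_nonneg (ind_nonneg (z ∈ Z)) h0
      linarith
  refine (sum_le_sum fun z _ => hall z).trans ?_
  rw [sum_add_distrib, sum_const, nsmul_eq_mul, card_univ, add_mul]
  have h1 : ∑ z, ind (z ∈ Z) * ql v p l A z = ∑ z ∈ Z, ql v p l A z := by
    rw [← sum_filter_add_sum_filter_not univ (fun z => z ∈ Z)]
    have h2 : ∑ z ∈ univ.filter (fun z => ¬ z ∈ Z), ind (z ∈ Z) * ql v p l A z = 0 := by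
      refine sum_eq_zero fun z hz => ?_
      rw [ind_not_of (mem_filter.1 hz).2, zero_mul]
    rw [h2, add_zero]
    have h3 : univ.filter (fun z => z ∈ Z) = Z := by
      ext z
      simp
    rw [h3]
    refine sum_congr rfl fun z hz => ?_
    rw [ind_of hz, one_mul]
  rw [h1, ← hn]
  linarith

end Pool.Agent.Lib.P0fc
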