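import Mathlib
import Pool.Agent.Lib.P0fc.PosDet
import Pool.Agent.Lib.P0fc.LMass
import Pool.Agent.Lib.P0fc.DcT
import Pool.Agent.Lib.P0fc.GoodF

/-!
# The robust flats have positive mass

Choose `s ≥ 1` with `2 (l+1) ≤ zt ξ l 0 * (s+1)` (`zt ξ l 0 > 0`), `q₀ = min 1 (ρ κ/(2 (2l+4)))`,
`μ = ρ κ q₀^(s-1)/(4 (2l+4))`, `ν₀ = min (κ/8) (1/(l+1))`.
Fix `t < M` and `z`.  `MMe` at time `t` forces `β ≤ t` (`beta_le_of_MMe`), and `l ≤ β` (`1 ≤ ν β`), so for
`t < l` the event is empty.  For `l ≤ t`, `s' = t - l`: the forward lemma `fw` with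
`Φ e = ind (|Gf l (Y e s') z| < μ N)` (`PastM s'`, `Y_swap_past`) and `F = fz v p z` gives
`PP (event) = EE (Φ e * ql l (Y e s') z)` (`ind_and`).  Sum over `z` and divide by `N`: by `pos_det` for
`A = Y e s'` (`|A| = s'`) at most `(q₀ + 2 μ/q₀^(s-1)) PP (OK (Y e s') ∧ Dle κ l (Y e s'))`.  Sum over `t`
(`s' = t - l < M`) and use `dc` (`Good.Mθ`, `Good.M8`, `Good.σβ`): `≤ (q₀ + 2 μ/q₀^(s-1)) (2l+4)/κ ≤ ρ`.
-/

namespace Pool.Agent.Lib.P0fc

open Finset Pool.Agent.Lib.P0fb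

theorem pos_mass (κ ξ ρ : ℝ) (hκ : 0 < κ) (hκ1 : κ ≤ 1) (hξ : 0 < ξ) (hξ1 : ξ ≤ 1 / 2)
    (hρ : 0 < ρ) (l : ℕ) : ∃ μ ν₀ : ℝ, 0 < μ ∧ 0 < ν₀ ∧
    ∀ (α : Type) [Fintype α] [DecidableEq α] (E : Type) [AddCommGroup E] [Module ℝ E]
      (v : α → E) (p : Pm) (N M M₂ : ℕ) (ε ν : ℝ), p.κ = κ → p.ξ = ξ → ν ≤ ν₀ →
      Good v N M M₂ p.β p.σ ε ν →
      mass M (fun t (e : Fin N ≃ α) z => MMe v p t e z ∧
        ((Gf v p l (Y e (t - l)) z).card : ℝ) < μ * (Fintype.card α : ℝ)) ≤ ρ := by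
  have hzt : 0 < zt ξ l 0 := zt_pos hξ l 0
  obtain ⟨s₀, hs₀⟩ := exists_nat_ge (2 * ((l : ℝ) + 1) / zt ξ l 0)
  set s : ℕ := s₀ + 1 with hsdef
  have hs : 2 * ((l : ℝ) + 1) ≤ zt ξ l 0 * ((s : ℝ) + 1) := by
    rw [div_le_iff₀ hzt] at hs₀
    have : ((s : ℕ) : ℝ) = s₀ + 1 := by rw [hsdef]; push_cast; ring
    rw [this]
    nlinarith
  set q₀ : ℝ := min 1 (ρ * κ / (2 * (2 * l + 4))) with hq₀
  have hq : 0 < q₀ := by positivity
  have hq1 : q₀ ≤ 1 := min_le_left _ _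
  have hqpow : 0 < q₀ ^ (s - 1) := pow_pos hq _
  set μ : ℝ := ρ * κ * q₀ ^ (s - 1) / (4 * (2 * l + 4)) with hμdef
  have hμ : 0 < μ := by positivity
  have hcst : (q₀ + 2 * μ / q₀ ^ (s - 1)) * ((2 * l + 4) / κ) ≤ ρ := by
    have h1 : q₀ * ((2 * l + 4) / κ) ≤ ρ / 2 := by
      have h2 : q₀ ≤ ρ * κ / (2 * (2 * l + 4)) := min_le_right _ _
      calc q₀ * ((2 * l + 4) / κ) ≤ ρ * κ / (2 * (2 * l + 4)) * ((2 * l + 4) / κ) :=
            mul_le_mul_of_nonneg_right h2 (by positivity)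
        _ = ρ / 2 := by field_simp
    have h3 : 2 * μ / q₀ ^ (s - 1) * ((2 * l + 4) / κ) = ρ / 2 := by
      rw [hμdef]
      field_simp
      ring
    rw [add_mul, h3]
    linarith
  refine ⟨μ, min (κ / 8) (1 / ((l : ℝ) + 1)), hμ, by positivity, ?_⟩
  intro α _ _ E _ _ v p N M M₂ ε ν hpκ hpξ hν hG
  have hν1 : ν ≤ κ / 8 := hν.trans (min_le_left _ _)
  have hν2 : ν ≤ 1 / ((l : ℝ) + 1) := hν.trans (min_le_right _ _)
  have hN := hG.card
  have hσβ := hG.σβ
  obtain ⟨hM8, hMN⟩ := hG.M8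
  have hMκ := hG.Mθ hν1
  have hβl : l + 1 ≤ p.β := by
    apply hG.inv
    push_cast
    have : ((l : ℝ) + 1) * ν ≤ ((l : ℝ) + 1) * (1 / ((l : ℝ) + 1)) :=
      mul_le_mul_of_nonneg_left hν2 (by positivity)
    rwa [mul_one_div_cancel (by positivity)] at this
  have hcard0 : (0 : ℝ) < (Fintype.card α : ℝ) := by
    have : 0 < Fintype.card α := by omega
    exact_mod_cast this
  set c : ℝ := q₀ + 2 * μ / q₀ ^ (s - 1) with hc
  have hc0 : 0 ≤ c := by positivity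
  have key : ∀ t ∈ range M, (∑ z : α, PP (fun e : Fin N ≃ α => MMe v p t e z ∧
      ((Gf v p l (Y e (t - l)) z).card : ℝ) < μ * (Fintype.card α : ℝ))) / (Fintype.card α : ℝ) ≤
      if l ≤ t then c * PP (fun e : Fin N ≃ α => OK v p.β p.σ (Y e (t - l)) ∧
        Dle v κ l (Y e (t - l))) else 0 := by
    intro t ht
    rw [mem_range] at ht
    split_ifs with hlt
    · obtain ⟨s', rfl⟩ : ∃ s', t = s' + l := ⟨t - l, by omega⟩
      rw [Nat.add_sub_cancel]
      have h1 : ∀ z : α, PP (fun e : Fin N ≃ α => MMe v p (s' + l) e z ∧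
          ((Gf v p l (Y e s') z).card : ℝ) < μ * (Fintype.card α : ℝ)) =
          EE (fun e : Fin N ≃ α => ind (((Gf v p l (Y e s') z).card : ℝ) <
            μ * (Fintype.card α : ℝ)) * ql v p l (Y e s') z) := by
        intro z
        have h2 := fw (s := s') (l := l) (by omega) hN
          (Φ := fun e : Fin N ≃ α => ind (((Gf v p l (Y e s') z).card : ℝ) <
            μ * (Fintype.card α : ℝ)))
          (fun e i j hi hj => by
            dsimp only
            rw [Y_swap_past e hi hj le_rfl]) (fz v p z)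
        refine Eq.trans ?_ h2
        unfold PP
        refine EE_congr fun e => ?_
        rw [ind_and, mul_comm]
        rfl
      rw [sum_congr rfl fun z _ => h1 z, ← EE_sum, div_le_iff₀ hcard0]
      have h3 : ∀ e : Fin N ≃ α, ∑ z, ind (((Gf v p l (Y e s') z).card : ℝ) <
            μ * (Fintype.card α : ℝ)) * ql v p l (Y e s') z ≤
          c * (Fintype.card α : ℝ) * ind (OK v p.β p.σ (Y e s') ∧ Dle v κ l (Y e s')) := by
        intro e
        have h4 := pos_det v p (by rw [hpξ]; exact hξ) (by rw [hpξ]; exact hξ1) l s (by omega)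
          (by rw [hpξ]; exact hs) hq hq1 hμ (Y e s') (by
            rw [card_Y e (by omega)]
            omega)
        rw [hpκ] at h4
        exact h4
      refine (EE_mono h3).trans ?_
      rw [EE_mul_left]
      unfold PP
      exact le_of_eq (by ring)
    · have h0 : ∀ z : α, PP (fun e : Fin N ≃ α => MMe v p t e z ∧
          ((Gf v p l (Y e (t - l)) z).card : ℝ) < μ * (Fintype.card α : ℝ)) = 0 := by
        intro z
        have h5 : PP (fun e : Fin N ≃ α => MMe v p t e z ∧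
            ((Gf v p l (Y e (t - l)) z).card : ℝ) < μ * (Fintype.card α : ℝ)) =
            EE (fun _ : Fin N ≃ α => (0 : ℝ)) := by
          unfold PP
          refine EE_congr fun e => ind_not_of ?_
          rintro ⟨hMM, _⟩
          have := beta_le_of_MMe hMM
          omega
        rw [h5, EE_const hN]
      rw [sum_congr rfl fun z _ => h0 z, sum_const_zero, zero_div]
  unfold mass
  refine (sum_le_sum key).trans ?_
  rw [← sum_filter, ← mul_sum]
  have hdc := dc v hN hσβ hMN hκ hMκ l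
  have hinj : Set.InjOn (fun t : ℕ => t - l) (((range M).filter (fun t => l ≤ t) : Finset ℕ) : Set ℕ) := by
    intro a ha b hb hab
    rw [mem_coe, mem_filter] at ha hb
    dsimp only at hab
    omega
  have h9 : ∑ t ∈ (range M).filter (fun t => l ≤ t), PP (fun e : Fin N ≃ α =>
      OK v p.β p.σ (Y e (t - l)) ∧ Dle v κ l (Y e (t - l))) ≤
      ∑ t ∈ range (M + 1), PP (fun e : Fin N ≃ α => OK v p.β p.σ (Y e t) ∧ Dle v κ l (Y e t)) := by
    rw [← sum_image (f := fun t => PP (fun e : Fin N ≃ α =>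
      OK v p.β p.σ (Y e t) ∧ Dle v κ l (Y e t))) hinj]
    refine sum_le_sum_of_subset_of_nonneg ?_ (fun _ _ _ => PP_nonneg _)
    intro t ht
    rw [mem_image] at ht
    obtain ⟨a, ha, rfl⟩ := ht
    rw [mem_filter, mem_range] at ha
    rw [mem_range]
    omega
  calc c * ∑ t ∈ (range M).filter (fun t => l ≤ t), PP (fun e : Fin N ≃ α =>
      OK v p.β p.σ (Y e (t - l)) ∧ Dle v κ l (Y e (t - l))) ≤ c * ((2 * l + 4) / κ) :=
        mul_le_mul_of_nonneg_left (h9.trans hdc) hc0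
    _ ≤ ρ := hcst

end Pool.Agent.Lib.P0fc
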