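import Mathlib
import Pool.Agent.Lib.P0fc.Mass
import Pool.Agent.Lib.P0fc.LMass
import Pool.Agent.Lib.P0fc.Perm2

/-!
# Kill, part A: the share of the irregular elements, and uniform pairs

* `irr_mass`: fix `z` and `t < M` with `β ≤ t` (otherwise `MMe` is impossible), `s = t - l ≥ 1`,
  `W = Y e s`.  By `back` at the position `s - 1` with
  `h e x = ind (MMe t e z ∧ er l W z ≤ es ∧ ¬ RG l W z x)` (`FutM s`: `Y e t`, `Y e s` are unchanged by swaps
  of positions `< s`, `Y_swap_fut`)
  `PP (MMe ∧ er ≤ es ∧ ∃ h, At e (s-1) h ∧ ¬ RG l W z h) = EE (ind (MMe ∧ er ≤ es) * #{h ∈ W | ¬ RG}/s)`, and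
  `|W| = s` (`card_Y`); on the event on the left of the claim the quotient is `≥ ε/4`.
* `pair_mass`: for fixed `t < M`, `z`, `s = t - l`: `pairBack` with
  `F e x y = ind (A t e z ∧ (y, x) ∈ S (Y e s) z)` (position `s - 2` is `x`, position `s - 1` is `y`):
  `s (s-1) PP (A ∧ pair ∈ S) = EE (ind A * |S (Y e s) z|)` since `S W z` consists of pairs of distinct
  elements of `W`; on `A` `|S| ≥ c s² ≥ c s (s-1)`.  (If `s < 2` then `A` is impossible by `hA2`.)
-/

namespace Pool.Agent.Lib.P0fc

open Finset Pool.Agent.Lib.P0fb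

section

variable {α : Type} [Fintype α] [DecidableEq α] {E : Type} [AddCommGroup E] [Module ℝ E] {N : ℕ}

namespace KillAAux

theorem sum_ind_filter {α : Type} (W : Finset α) (P : α → Prop) [DecidablePred P] :
    ∑ x ∈ W, ind (P x) = ((W.filter P).card : ℝ) := by
  rw [← Finset.sum_boole]
  refine Finset.sum_congr rfl fun x _ => ?_
  by_cases h : P x
  · rw [ind_of h, if_pos h]
  · rw [ind_not_of h, if_neg h]

theorem mass_le_mul {α : Type} [Fintype α] [DecidableEq α] {N M : ℕ}
    (A B : ℕ → (Fin N ≃ α) → α → Prop) (a b : ℝ)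
    (h : ∀ t < M, ∀ z, a * PP (fun e : Fin N ≃ α => A t e z) ≤
      b * PP (fun e : Fin N ≃ α => B t e z)) : a * mass M A ≤ b * mass M B := by
  unfold mass
  rw [mul_sum, mul_sum]
  refine sum_le_sum fun t ht => ?_
  rw [mem_range] at ht
  rw [← mul_div_assoc, ← mul_div_assoc, mul_sum, mul_sum]
  exact div_le_div_of_nonneg_right (sum_le_sum fun z _ => h t ht z) (Nat.cast_nonneg _)

end KillAAux

open KillAAux Perm2Aux

open Classical in
theorem irr_mass (v : α → E) (p : Pm) {M : ℕ} (hN : Fintype.card α = N) (hMN : M ≤ N) {ε : ℝ}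
    (hε : 0 < ε) (l es : ℕ) (hl : l + 1 ≤ p.β) :
    mass M (fun t (e : Fin N ≃ α) z => MMe v p t e z ∧ er v p l (Y e (t - l)) z ≤ es ∧
      ε / 4 * ((Y e (t - l)).card : ℝ) <
        (((Y e (t - l)).filter (fun h => ¬ RG v p l (Y e (t - l)) z h)).card : ℝ)) ≤
    4 / ε * mass M (fun t (e : Fin N ≃ α) z => MMe v p t e z ∧ er v p l (Y e (t - l)) z ≤ es ∧
        ∃ h, At e (t - l - 1) h ∧ ¬ RG v p l (Y e (t - l)) z h) := by
  classical
  have h0 : ∀ t < M, ∀ z, 1 * PP (fun e : Fin N ≃ α => MMe v p t e z ∧ er v p l (Y e (t - l)) z ≤ es ∧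
      ε / 4 * ((Y e (t - l)).card : ℝ) <
        (((Y e (t - l)).filter (fun h => ¬ RG v p l (Y e (t - l)) z h)).card : ℝ)) ≤
      4 / ε * PP (fun e : Fin N ≃ α => MMe v p t e z ∧ er v p l (Y e (t - l)) z ≤ es ∧
        ∃ h, At e (t - l - 1) h ∧ ¬ RG v p l (Y e (t - l)) z h) := by
    intro t ht z
    rw [one_mul]
    by_cases hβt : p.β ≤ t
    · obtain ⟨s, hs⟩ : ∃ s, t - l = s + 1 := ⟨t - l - 1, by omega⟩
      rw [hs]
      have hsN : s < N := by omega
      set f : (Fin N ≃ α) → α → ℝ := fun e x => ind (MMe v p t e z ∧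
        er v p l (Y e (s + 1)) z ≤ es ∧ ¬ RG v p l (Y e (s + 1)) z x) with hf
      have hback := back ⟨s, hsN⟩ f (by
        intro x e i j hi hj
        have hi' : i.val < s + 1 := hi
        have hj' : j.val < s + 1 := hj
        rw [hf]
        simp only [MMe]
        rw [Y_swap_fut e hi' hj' (by omega : s + 1 ≤ t), Y_swap_fut e hi' hj' (le_refl (s + 1))])
      have e1 : PP (fun e : Fin N ≃ α => MMe v p t e z ∧ er v p l (Y e (s + 1)) z ≤ es ∧
        ∃ h, At e (s + 1 - 1) h ∧ ¬ RG v p l (Y e (s + 1)) z h) =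
          EE (fun e => f e (e ⟨s, hsN⟩)) := by
        unfold PP
        refine EE_congr fun e => ?_
        rw [hf]
        simp only
        congr 1
        apply propext
        refine and_congr_right fun _ => and_congr_right fun _ => ?_
        constructor
        · rintro ⟨h, h1, h2⟩
          have h3 : At e s h := h1
          rw [at_iff hsN] at h3
          rw [← h3]
          exact h2
        · intro h
          exact ⟨_, (at_iff hsN).2 rfl, h⟩
      rw [e1, hback, ← EE_mul_left]
      unfold PP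
      refine EE_mono fun e => ?_
      have hnn : 0 ≤ 4 / ε * ((∑ x ∈ Y e (s + 1), f e x) / ((s : ℝ) + 1)) := by
        refine mul_nonneg (by positivity) (div_nonneg (sum_nonneg fun x _ => ?_) (by positivity))
        rw [hf]
        exact ind_nonneg _
      by_cases hL : MMe v p t e z ∧ er v p l (Y e (s + 1)) z ≤ es ∧
          ε / 4 * ((Y e (s + 1)).card : ℝ) <
          (((Y e (s + 1)).filter (fun h => ¬ RG v p l (Y e (s + 1)) z h)).card : ℝ)
      · rw [ind_of hL]
        obtain ⟨h1, h2, h3⟩ := hL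
        have e2 : ∑ x ∈ Y e (s + 1), f e x =
            (((Y e (s + 1)).filter (fun h => ¬ RG v p l (Y e (s + 1)) z h)).card : ℝ) := by
          rw [← sum_ind_filter]
          refine sum_congr rfl fun x _ => ?_
          rw [hf]
          simp only
          rw [ind_and, ind_of h1, one_mul, ind_and, ind_of h2, one_mul]
        have e3 : ((Y e (s + 1)).card : ℝ) = (s : ℝ) + 1 := by
          rw [card_Y e (by omega)]
          push_cast
          ring
        rw [e3, ← e2] at h3
        show 1 ≤ 4 / ε * ((∑ x ∈ Y e (s + 1), f e x) / ((s : ℝ) + 1))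
        have hs1 : (0 : ℝ) < (s : ℝ) + 1 := by positivity
        rw [div_mul_div_comm, le_div_iff₀ (by positivity)]
        linarith
      · rw [ind_not_of hL]
        exact hnn
    · have e1 : PP (fun e : Fin N ≃ α => MMe v p t e z ∧ er v p l (Y e (t - l)) z ≤ es ∧
        ε / 4 * ((Y e (t - l)).card : ℝ) <
          (((Y e (t - l)).filter (fun h => ¬ RG v p l (Y e (t - l)) z h)).card : ℝ)) = 0 := by
        unfold PP
        rw [← EE_const (α := α) hN 0]
        refine EE_congr fun e => ?_
        exact ind_not_of (fun h => hβt (beta_le_of_MMe h.1))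
      rw [e1]
      exact mul_nonneg (by positivity) (PP_nonneg _)
  have h1 := mass_le_mul _ _ 1 (4 / ε) h0
  rw [one_mul] at h1
  exact h1

theorem pair_mass {M : ℕ} (hN : Fintype.card α = N) (hMN : M ≤ N) (l : ℕ) {c : ℝ}
    (A : ℕ → (Fin N ≃ α) → α → Prop)
    (hA : ∀ t < M, ∀ z, FutM (t - l) (fun e : Fin N ≃ α => ind (A t e z)))
    (hA2 : ∀ t < M, ∀ (e : Fin N ≃ α) z, A t e z → 2 ≤ t - l)
    (S : Finset α → α → Finset (α × α))
    (hS : ∀ W z, ∀ q ∈ S W z, q.1 ∈ W ∧ q.2 ∈ W ∧ q.1 ≠ q.2)
    (hSc : ∀ t < M, ∀ (e : Fin N ≃ α) z, A t e z →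
      c * ((Y e (t - l)).card : ℝ) ^ 2 ≤ ((S (Y e (t - l)) z).card : ℝ)) (hc : 0 ≤ c) :
    c * mass M A ≤ mass M (fun t (e : Fin N ≃ α) z => A t e z ∧
      ∃ h h', At e (t - l - 1) h ∧ At e (t - l - 2) h' ∧ (h, h') ∈ S (Y e (t - l)) z) := by
  classical
  have h0 : ∀ t < M, ∀ z, c * PP (fun e : Fin N ≃ α => A t e z) ≤
      1 * PP (fun e : Fin N ≃ α => A t e z ∧
      ∃ h h', At e (t - l - 1) h ∧ At e (t - l - 2) h' ∧ (h, h') ∈ S (Y e (t - l)) z) := by
    intro t ht z
    rw [one_mul]
    by_cases hs2 : 2 ≤ t - l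
    · have hFut := hA t ht z
      have hcard := fun e => hSc t ht e z
      clear hSc
      generalize hs : t - l = s at hs2 hFut hcard
      have hsN : s ≤ N := by omega
      set F : (Fin N ≃ α) → α → α → ℝ := fun e x y => ind (A t e z ∧ (y, x) ∈ S (Y e s) z) with hF
      have h1 := pairBack hs2 hsN F (by
        intro x y e i j hi hj
        rw [hF]
        simp only
        rw [ind_and, ind_and, Y_swap_fut e hi hj le_rfl]
        congr 1
        exact hFut e i j hi hj)
      have e1 : PP (fun e : Fin N ≃ α => A t e z ∧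
          ∃ h h', At e (s - 1) h ∧ At e (s - 2) h' ∧ (h, h') ∈ S (Y e s) z) =
          EE (fun e => F e (e ⟨s - 2, by omega⟩) (e ⟨s - 1, by omega⟩)) := by
        unfold PP
        refine EE_congr fun e => ?_
        rw [hF]
        simp only
        congr 1
        apply propext
        refine and_congr_right fun _ => ?_
        constructor
        · rintro ⟨h, h', h1, h2, h3⟩
          rw [at_iff (by omega)] at h1 h2
          rw [← h1, ← h2]
          exact h3
        · intro h
          exact ⟨_, _, (at_iff (by omega)).2 rfl, (at_iff (by omega)).2 rfl, h⟩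
      rw [e1]
      have hs2' : (2 : ℝ) ≤ (s : ℝ) := by exact_mod_cast hs2
      have hpos : 0 < (s : ℝ) * ((s : ℝ) - 1) := mul_pos (by linarith) (by linarith)
      refine le_of_mul_le_mul_left ?_ hpos
      rw [h1]
      unfold PP
      rw [← mul_assoc, ← EE_mul_left]
      refine EE_mono fun e => ?_
      by_cases hAe : A t e z
      · rw [ind_of hAe, mul_one]
        have e2 : ∑ x ∈ Y e s, ∑ y ∈ (Y e s).erase x, F e x y = ((S (Y e s) z).card : ℝ) := by
          have e3 : ∀ x ∈ Y e s, ∑ y ∈ (Y e s).erase x, F e x y =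
              (((S (Y e s) z).filter (fun q => q.2 = x)).card : ℝ) := by
            intro x hx
            have e4 : ∀ y ∈ (Y e s).erase x, F e x y = ind ((y, x) ∈ S (Y e s) z) := by
              intro y _
              rw [hF]
              simp only
              rw [ind_and, ind_of hAe, one_mul]
            rw [sum_congr rfl e4, sum_ind_filter]
            congr 1
            refine Finset.card_bij (fun y _ => (y, x)) ?_ ?_ ?_
            · intro y hy
              rw [Finset.mem_filter] at hy ⊢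
              exact ⟨hy.2, rfl⟩
            · intro y _ y' _ h
              exact (Prod.mk.inj h).1
            · rintro ⟨a, b⟩ h
              rw [Finset.mem_filter] at h
              obtain ⟨h2, h3⟩ := h
              simp only at h3
              subst h3
              have h4 := hS _ _ _ h2
              simp only at h4
              exact ⟨a, Finset.mem_filter.2 ⟨Finset.mem_erase.2 ⟨h4.2.2, h4.1⟩, h2⟩, rfl⟩
          rw [sum_congr rfl e3, ← Nat.cast_sum]
          congr 1
          exact (Finset.card_eq_sum_card_fiberwise (fun q hq => (hS _ _ q hq).2.1)).symm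
        rw [e2]
        refine le_trans ?_ (hcard e hAe)
        rw [card_Y e hsN]
        have h5 : c * ((s : ℝ) * ((s : ℝ) - 1)) ≤ c * (s : ℝ) ^ 2 :=
          mul_le_mul_of_nonneg_left (by nlinarith) hc
        linarith
      · rw [ind_not_of hAe, mul_zero]
        refine sum_nonneg fun x _ => sum_nonneg fun y _ => ?_
        rw [hF]
        exact ind_nonneg _
    · have e1 : PP (fun e : Fin N ≃ α => A t e z) = 0 := by
        unfold PP
        rw [← EE_const (α := α) hN 0]
        refine EE_congr fun e => ?_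
        exact ind_not_of (fun h => hs2 (hA2 t ht e z h))
      rw [e1, mul_zero]
      exact PP_nonneg _
  have h1 := mass_le_mul _ _ c 1 h0
  rw [one_mul] at h1
  exact h1

/-- swapping the last two positions before `t - l` does not change the mass -/
theorem swap_mass {M : ℕ} (hMN : M ≤ N) (l : ℕ) (A : ℕ → (Fin N ≃ α) → α → Prop)
    (hA : ∀ t < M, ∀ z, FutM (t - l) (fun e : Fin N ≃ α => ind (A t e z)))
    (R : Finset α → α → α → α → Prop) :
    mass M (fun t (e : Fin N ≃ α) z => A t e z ∧
      ∃ h h', At e (t - l - 1) h ∧ At e (t - l - 2) h' ∧ h ≠ h' ∧ R (Y e (t - l)) z h h') =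
    mass M (fun t (e : Fin N ≃ α) z => A t e z ∧
      ∃ h h', At e (t - l - 1) h ∧ At e (t - l - 2) h' ∧ h ≠ h' ∧ R (Y e (t - l)) z h' h) := by
  unfold mass
  refine sum_congr rfl fun t ht => ?_
  rw [mem_range] at ht
  congr 1
  refine sum_congr rfl fun z _ => ?_
  beta_reduce
  by_cases hs2 : 2 ≤ t - l
  · have hFut := hA t ht z
    generalize hs : t - l = s at hs2 hFut ⊢
    have h1 : s - 1 < N := by omega
    have h2 : s - 2 < N := by omega
    have e1 : ∀ (e : Fin N ≃ α) (Q : α → α → Prop), (∃ h h', At e (s - 1) h ∧ At e (s - 2) h' ∧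
        h ≠ h' ∧ Q h h') ↔ Q (e ⟨s - 1, h1⟩) (e ⟨s - 2, h2⟩) := by
      intro e Q
      constructor
      · rintro ⟨h, h', h3, h4, _, h5⟩
        rw [at_iff h1] at h3
        rw [at_iff h2] at h4
        rw [← h3, ← h4]
        exact h5
      · intro h
        refine ⟨_, _, (at_iff h1).2 rfl, (at_iff h2).2 rfl, ?_, h⟩
        intro h3
        have h4 := congrArg Fin.val (e.injective h3)
        simp only at h4
        omega
    unfold PP
    rw [← EE_swap ⟨s - 1, h1⟩ ⟨s - 2, h2⟩]
    refine EE_congr fun e => ?_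
    rw [ind_and, ind_and, Perm2Aux.ind_congr (e1 _ (fun h h' =>
        R (Y ((Equiv.swap ⟨s - 1, h1⟩ ⟨s - 2, h2⟩).trans e) s) z h h')),
      Perm2Aux.ind_congr (e1 e (fun h h' => R (Y e s) z h' h))]
    have hi : (⟨s - 1, h1⟩ : Fin N).val < s := by show s - 1 < s; omega
    have hj : (⟨s - 2, h2⟩ : Fin N).val < s := by show s - 2 < s; omega
    have h3 := hFut e ⟨s - 1, h1⟩ ⟨s - 2, h2⟩ hi hj
    simp only at h3
    rw [h3, Y_swap_fut e hi hj le_rfl, Equiv.trans_apply, Equiv.trans_apply,
      Equiv.swap_apply_left, Equiv.swap_apply_right]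
  · have e1 : ∀ (e : Fin N ≃ α) (Q : α → α → Prop), ¬ ∃ h h', At e (t - l - 1) h ∧
        At e (t - l - 2) h' ∧ h ≠ h' ∧ Q h h' := by
      rintro e Q ⟨h, h', h3, h4, h5, _⟩
      apply h5
      unfold At at h3 h4
      have h6 : (e.symm h).val = (e.symm h').val := by omega
      exact e.symm.injective (Fin.ext h6)
    unfold PP
    refine EE_congr fun e => ?_
    rw [ind_not_of (fun h => e1 e _ h.2), ind_not_of (fun h => e1 e _ h.2)]

end

end Pool.Agent.Lib.P0fc
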