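import Mathlib
import Pool.Agent.Lib.P0fc.Mass
import Pool.Agent.Lib.P0fc.LMass
import Pool.Agent.Lib.P0fc.LGa
import Pool.Agent.Lib.P0fc.LLad
import Pool.Agent.Lib.P0fc.Cnt
import Pool.Agent.Lib.P0fc.GoodF

/-!
# Kill, part B: most tuples of the robust flat have no small support

Let `n = |α|`.  If the event holds at `(t, e, z)`, then the number of the tuples `g : Fin (es+1) → α` with
`ssup v β es (Y e (t-l)) g` is at least `(μ n)^(es+1)/4`, and for these `ssup v β es (Y e t) g`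
(`Y e (t-l) ⊆ Y e t`).  So the indicator of the event is at most
`(4/(μ n)^(es+1)) * ∑_g ind (OK (Y e t) ∧ κ n ≤ |nt (Y e t)| ∧ ssup v β es (Y e t) g)`; sum over `t < M`,
average over `z` (nothing depends on `z` any more) and use `Ga` (`hP` from `p4`, `range M ⊆ range (M+1)`):
`(4/μ^(es+1)) * 4 (es+1)² ν/κ`.
-/

namespace Pool.Agent.Lib.P0fc

open Finset Pool.Agent.Lib.P0fb

theorem KillBAux.ssup_mono {α : Type} [Fintype α] [DecidableEq α] {E : Type} [AddCommGroup E]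
    [Module ℝ E] {v : α → E} {β k : ℕ} {A A' : Finset α} {g : Fin (k + 1) → α} (h : A ⊆ A')
    (hs : ssup v β k A g) : ssup v β k A' g := by
  obtain ⟨c, hc, T, hT, h1, h2⟩ := hs
  exact ⟨c, hc, T, hT.trans h, h1, h2⟩

open Classical in
theorem tuple_mass {α : Type} [Fintype α] [DecidableEq α] {E : Type} [AddCommGroup E] [Module ℝ E]
    {N : ℕ} (v : α → E) (p : Pm) {M M₂ : ℕ} {ε ν : ℝ} (hG : Good v N M M₂ p.β p.σ ε ν)
    (hκ : 0 < p.κ) (hκ1 : p.κ ≤ 1) (l es : ℕ) (hes : (es : ℝ) ≤ 1 / ν) {μ : ℝ} (hμ : 0 < μ) :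
    mass M (fun t (e : Fin N ≃ α) z => MMe v p t e z ∧
      μ * (Fintype.card α : ℝ) ≤ ((Gf v p l (Y e (t - l)) z).card : ℝ) ∧
      1 / 4 * ((Gf v p l (Y e (t - l)) z).card : ℝ) ^ (es + 1) <
        ((univ.filter (fun g : Fin (es + 1) → α => (∀ i, g i ∈ Gf v p l (Y e (t - l)) z) ∧
          ssup v p.β es (Y e (t - l)) g)).card : ℝ)) ≤
      16 * ((es : ℝ) + 1) ^ 2 * ν / (p.κ * μ ^ (es + 1)) := by
  have hN := hG.card
  have hKpos : 0 < 16 * ((es : ℝ) + 1) ^ 2 * ν / (p.κ * μ ^ (es + 1)) := by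
    have := hG.hν
    positivity
  rcases isEmpty_or_nonempty α with hemp | hne
  · unfold mass
    refine le_trans (le_of_eq ?_) hKpos.le
    refine sum_eq_zero fun t _ => ?_
    rw [Fintype.card_eq_zero, Nat.cast_zero, div_zero]
  have hn0 : (0 : ℝ) < (Fintype.card α : ℝ) := by
    exact_mod_cast Fintype.card_pos
  set n : ℝ := (Fintype.card α : ℝ) with hn
  have hμn : (0 : ℝ) < (μ * n) ^ (es + 1) := by positivity
  -- the hypothesis of `Ga`
  have hP : ∑ t ∈ range M, PP (fun e : Fin N ≃ α => OK v p.β p.σ (Y e t) ∧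
      p.κ * n ≤ ((nt v p.β (Y e t)).card : ℝ)) ≤ 1 / p.κ := by
    have h1 := p4 v (N := N) (β := p.β) (σ := p.σ) (M := M) hN hG.σβ hG.M8.2 hκ
    refine le_trans ?_ h1
    rw [sum_range_succ]
    have h2 : (0 : ℝ) ≤ PP (fun e : Fin N ≃ α =>
      OK v p.β p.σ (Y e M) ∧ p.κ * N ≤ ((nt v p.β (Y e M)).card : ℝ)) := PP_nonneg _
    have h3 : n = (N : ℝ) := by rw [hn, hN]
    rw [h3]
    linarith
  have hGa := Ga v hG hκ hκ1 hes hP
  rw [← hn] at hGa
  set B : ℝ := ∑ g : Fin (es + 1) → α, ∑ t ∈ range M, PP (fun e : Fin N ≃ α => OK v p.β p.σ (Y e t) ∧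
        p.κ * n ≤ ((nt v p.β (Y e t)).card : ℝ) ∧ ssup v p.β es (Y e t) g) with hB
  -- pointwise bound
  have hpt : ∀ (t : ℕ) (z : α), PP (fun e : Fin N ≃ α => MMe v p t e z ∧
      μ * n ≤ ((Gf v p l (Y e (t - l)) z).card : ℝ) ∧
      1 / 4 * ((Gf v p l (Y e (t - l)) z).card : ℝ) ^ (es + 1) <
        ((univ.filter (fun g : Fin (es + 1) → α => (∀ i, g i ∈ Gf v p l (Y e (t - l)) z) ∧
          ssup v p.β es (Y e (t - l)) g)).card : ℝ)) ≤
      4 / (μ * n) ^ (es + 1) * ∑ g : Fin (es + 1) → α, PP (fun e : Fin N ≃ α =>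
        OK v p.β p.σ (Y e t) ∧ p.κ * n ≤ ((nt v p.β (Y e t)).card : ℝ) ∧
          ssup v p.β es (Y e t) g) := by
    intro t z
    unfold PP
    rw [← EE_sum, ← EE_mul_left]
    refine EE_mono fun e => ?_
    have hpos : 0 ≤ 4 / (μ * n) ^ (es + 1) * ∑ g : Fin (es + 1) → α, ind (OK v p.β p.σ (Y e t) ∧
        p.κ * n ≤ ((nt v p.β (Y e t)).card : ℝ) ∧ ssup v p.β es (Y e t) g) :=
      mul_nonneg (by positivity) (sum_nonneg fun _ _ => ind_nonneg _)
    by_cases hev : MMe v p t e z ∧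
      μ * n ≤ ((Gf v p l (Y e (t - l)) z).card : ℝ) ∧
      1 / 4 * ((Gf v p l (Y e (t - l)) z).card : ℝ) ^ (es + 1) <
        ((univ.filter (fun g : Fin (es + 1) → α => (∀ i, g i ∈ Gf v p l (Y e (t - l)) z) ∧
          ssup v p.β es (Y e (t - l)) g)).card : ℝ)
    · rw [ind_of hev]
      obtain ⟨hM, hc, hlt⟩ := hev
      have h1 : (μ * n) ^ (es + 1) ≤ ((Gf v p l (Y e (t - l)) z).card : ℝ) ^ (es + 1) :=
        pow_le_pow_left₀ (by positivity) hc _
      have h2 : ((univ.filter (fun g : Fin (es + 1) → α => (∀ i, g i ∈ Gf v p l (Y e (t - l)) z) ∧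
          ssup v p.β es (Y e (t - l)) g)).card : ℝ) ≤ ∑ g : Fin (es + 1) → α,
          ind (OK v p.β p.σ (Y e t) ∧
            p.κ * n ≤ ((nt v p.β (Y e t)).card : ℝ) ∧ ssup v p.β es (Y e t) g) := by
        rw [card_filter]
        push_cast
        refine sum_le_sum fun g _ => ?_
        split_ifs with hg
        · rw [ind_of]
          exact ⟨hM.1.1, hM.1.2.1, KillBAux.ssup_mono (Y_mono e (Nat.sub_le t l)) hg.2⟩
        · exact ind_nonneg _
      rw [div_mul_eq_mul_div, le_div_iff₀ hμn, one_mul]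
      linarith
    · rw [ind_not_of hev]
      exact hpos
  -- summation
  have hsum : mass M (fun t (e : Fin N ≃ α) z => MMe v p t e z ∧
      μ * n ≤ ((Gf v p l (Y e (t - l)) z).card : ℝ) ∧
      1 / 4 * ((Gf v p l (Y e (t - l)) z).card : ℝ) ^ (es + 1) <
        ((univ.filter (fun g : Fin (es + 1) → α => (∀ i, g i ∈ Gf v p l (Y e (t - l)) z) ∧
          ssup v p.β es (Y e (t - l)) g)).card : ℝ)) ≤ 4 / (μ * n) ^ (es + 1) * B := by
    unfold mass
    rw [hB, sum_comm, mul_sum]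
    refine sum_le_sum fun t _ => ?_
    rw [div_le_iff₀ hn0]
    refine (sum_le_sum fun z _ => hpt t z).trans (le_of_eq ?_)
    rw [sum_const, card_univ, nsmul_eq_mul]
    ring
  refine hsum.trans ?_
  have h5 : 4 / (μ * n) ^ (es + 1) * B = 4 / μ ^ (es + 1) * (B / n ^ (es + 1)) := by
    rw [mul_pow]
    field_simp
  rw [h5]
  have h6 : 16 * ((es : ℝ) + 1) ^ 2 * ν / (p.κ * μ ^ (es + 1)) =
      4 / μ ^ (es + 1) * (4 * ((es : ℝ) + 1) ^ 2 * ν / p.κ) := by
    field_simp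
    ring
  rw [h6]
  exact mul_le_mul_of_nonneg_left hGa (by positivity)

end Pool.Agent.Lib.P0fc
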