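import Mathlib
import Pool.Agent.Lib.P0fc.LLad
import Pool.Agent.Lib.P0fc.SG

/-!
# Kill, part D: regular pairs are rich (deterministic)

`B = Gf (l+2) ((W.erase h).erase h') z` (the same set in both orders, `erase_right_comm`).
`RG (l+1) (W.erase h) z h'`: `h' ∉ B`, `L h := Gf (l+1) (W.erase h) z = vcl (insert h' B)`;
`RG (l+1) (W.erase h') z h`: `L h' := Gf (l+1) (W.erase h') z = vcl (insert h B)`;
`RG l W z h`: `h ∉ L h`, `G := Gf l W z = vcl (insert h (L h)) = vcl (insert h (insert h' B))`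
(`vcl_insert_vcl`).  `B` is a flat (`Gf_flat`).  So
`Tset v B h' h = {g ∈ G | g ∉ vcl (insert h' B) ∧ g ∉ vcl (insert h B)} = {g ∈ G | g ∉ L h ∧ g ∉ L h'}`
(`insert h' (insert h B)` and `insert h (insert h' B)` are the same set), it has at least `(c/2)|G| > 0`
elements and `|vcl (insert h' (insert h B)) \ vcl B| ≤ |G|`: `(h', h) ∈ rich v (c/2) B`.
Rank: `dm B + 1 = dm (L h)` (`dm_insert_of_notMem`, `vcl B = B`, `dm_vcl`), `dm (L h) + 1 = dm G`, and
`dm W ≤ dm ((W.erase h).erase h') + 2` (`dm_insert_le` twice), `er` is the difference of ranks.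
-/

namespace Pool.Agent.Lib.P0fc

open Finset Pool.Agent.Lib.P0fb

open Classical in
theorem rich_of_RG {α : Type} [Fintype α] [DecidableEq α] {E : Type} [AddCommGroup E] [Module ℝ E]
    (v : α → E) (p : Pm) {l : ℕ} {W : Finset α} {z h h' : α} {θ : ℝ} (hθ : 0 < θ)
    (hW : h ∈ W) (hW' : h' ∈ W) (hne : h ≠ h')
    (h1 : RG v p l W z h) (h2 : RG v p (l + 1) (W.erase h) z h')
    (h3 : RG v p (l + 1) (W.erase h') z h)
    (hc : θ * ((Gf v p l W z).card : ℝ) ≤ (((Gf v p l W z).filter (fun g =>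
      g ∉ Gf v p (l + 1) (W.erase h) z ∧ g ∉ Gf v p (l + 1) (W.erase h') z)).card : ℝ)) :
    (h', h) ∈ rich v θ (Gf v p (l + 2) ((W.erase h).erase h') z) ∧
      er v p (l + 2) ((W.erase h).erase h') z ≤ er v p l W z := by
  obtain ⟨a1, a2⟩ := h1
  obtain ⟨b1, b2⟩ := h2
  obtain ⟨c1, c2⟩ := h3
  rw [erase_right_comm] at c1 c2
  have hl : l + 1 + 1 = l + 2 := rfl
  rw [hl] at b1 b2 c1 c2
  set B := Gf v p (l + 2) ((W.erase h).erase h') z with hB
  have hBf : vcl v B = B := Gf_flat v p (l + 2) ((W.erase h).erase h') z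
  set Lh := Gf v p (l + 1) (W.erase h) z with hLh
  set Lh' := Gf v p (l + 1) (W.erase h') z with hLh'
  set G := Gf v p l W z with hG
  have hLf : vcl v Lh = Lh := Gf_flat v p (l + 1) (W.erase h) z
  have hGeq : G = vcl v (insert h' (insert h B)) := by
    rw [a2, b2, vcl_insert_vcl, insert_comm]
  have hT : Tset v B h' h = G.filter (fun g => g ∉ Lh ∧ g ∉ Lh') := by
    unfold Tset
    rw [← hGeq, ← b2, ← c2]
  have hGpos : 0 < (G.card : ℝ) := by
    have : h ∈ G := by
      rw [a2]
      exact subset_vcl v _ (mem_insert_self h Lh)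
    exact_mod_cast card_pos.2 ⟨h, this⟩
  have hcard : θ * (G.card : ℝ) ≤ ((Tset v B h' h).card : ℝ) := by
    rw [hT]
    exact hc
  refine ⟨?_, ?_⟩
  · unfold rich
    rw [mem_filter]
    refine ⟨mem_univ _, ?_, ?_⟩
    · have : 0 < ((Tset v B h' h).card : ℝ) := lt_of_lt_of_le (mul_pos hθ hGpos) hcard
      exact card_pos.1 (by exact_mod_cast this)
    · refine le_trans (mul_le_mul_of_nonneg_left ?_ hθ.le) hcard
      have : (vcl v (insert h' (insert h B)) \ vcl v B).card ≤ G.card := by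
        rw [← hGeq]
        exact card_le_card sdiff_subset
      exact_mod_cast this
  · have d1 : dm v Lh = dm v B + 1 := by
      rw [b2, dm_vcl]
      exact dm_insert_of_notMem (by rw [hBf]; exact b1)
    have d2 : dm v G = dm v Lh + 1 := by
      rw [a2, dm_vcl]
      exact dm_insert_of_notMem (by rw [hLf]; exact a1)
    have d3 : dm v W ≤ dm v (W.erase h) + 1 := by
      have := dm_insert_le v (W.erase h) h
      rwa [insert_erase hW] at this
    have d4 : dm v (W.erase h) ≤ dm v ((W.erase h).erase h') + 1 := by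
      have := dm_insert_le v ((W.erase h).erase h') h'
      rwa [insert_erase (mem_erase.2 ⟨hne.symm, hW'⟩)] at this
    show dm v B - dm v ((W.erase h).erase h') ≤ dm v G - dm v W
    omega

end Pool.Agent.Lib.P0fc
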