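import Mathlib
import Pool.Agent.Lib.P0fc.DefL

/-!
# The kill: double counting

`kill_det`.  Let `g : Fin (k+1) → α` have values in `G` and not small support.  The `k + 1` vectors
`v (g i)` lie in `span v(G)`, which has dimension at most `dm v W + k` and contains `span v(W)`: so
there is `c ≠ 0` with `∑ c i • v (g i) ∈ span v(W)` (the classes in the quotient of `span v(G)` by
`span v(W)`, of dimension at most `k`, are dependent).  Write it as `∑_{h ∈ T} a h • v h`, `T ⊆ W`, all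
`a h ≠ 0`; not small support gives `β ≤ T.card + k`.  For `h ∈ T ∩ Rg` some `g i ∉ L h`: otherwise
`a h • v h = ∑ c i • v (g i) - ∑_{h' ∈ T.erase h} a h' • v h' ∈ span v(L h)` and `h ∈ L h`.  So the number
of the pairs `(i, h)`, `h ∈ Rg`, `g i ∉ L h`, is at least `|T ∩ Rg| ≥ β - k - |W \ Rg|`.  Sum over the
tuples: with `A g = #{h ∈ Rg | g ∉ L h}` the left side is `∑_i ∑_g A (g i) = (k+1) |G|^k ∑_{g ∈ G} A g`
and there are at least `(1 - τ) |G|^(k+1)` tuples without small support (if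
`β - k - |W \ Rg| ≤ 0` the claim is trivial).  Divide by `|G|^k` (`G = ∅` is trivial).
`kill_pairs`.  With `X = (3/4) (β - k - |W \ Rg|)/(k+1) ≥ ε |W|/(k+1)` (`β ≥ 2 ε |W|`, `k ≤ β/8`,
`|W \ Rg| ≤ (ε/4) |W|`): `∑_g A g ≥ X |G|`, so `∑_g (A g)² ≥ X² |G|` (Cauchy-Schwarz), and
`∑_{h ≠ h' ∈ Rg} #{g ∈ G | g ∉ L h ∧ g ∉ L h'} = ∑_g ((A g)² - A g) ≥ (X² - |W|) |G|`.  Each pair of
`S` contributes at most `|G|`, every other pair at most `(c/2) |G|` (there are at most `|W|²`), so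
`|S| ≥ X² - |W| - (c/2)|W|² ≥ (c/4) |W|²` since `X² ≥ c |W|²` and `|W| ≤ (c/4) |W|²`.
-/

namespace Pool.Agent.Lib.P0fc

open Finset Pool.Agent.Lib.P0fb

namespace KillDetAux

theorem exists_dep {α : Type} [Fintype α] [DecidableEq α] {E : Type} [AddCommGroup E] [Module ℝ E]
    (v : α → E) (k : ℕ) (W G : Finset α) (hWG : W ⊆ G) (hr : dm v G ≤ dm v W + k)
    (g : Fin (k + 1) → α) (hg : ∀ i, g i ∈ G) :
    ∃ c : Fin (k + 1) → ℝ, c ≠ 0 ∧
      ∑ i, c i • v (g i) ∈ Submodule.span ℝ (v '' (W : Set α)) := by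
  have hfG := finrank_fin v G
  have hSV : Submodule.span ℝ (v '' (W : Set α)) ≤ Submodule.span ℝ (v '' (G : Set α)) :=
    Submodule.span_mono (Set.image_mono (coe_subset.2 hWG))
  unfold dm at hr
  generalize hV : Submodule.span ℝ (v '' (G : Set α)) = V at hfG hSV hr
  generalize hS : Submodule.span ℝ (v '' (W : Set α)) = S at hSV hr
  have hgV : ∀ i, v (g i) ∈ V := by
    intro i
    rw [← hV]
    exact Submodule.subset_span ⟨g i, mem_coe.2 (hg i), rfl⟩
  obtain ⟨φ, hφ⟩ : ∃ φ : V →ₗ[ℝ] E ⧸ S, ∀ x : V, φ x = S.mkQ (x : E) :=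
    ⟨S.mkQ.comp V.subtype, fun _ => rfl⟩
  have h1 := φ.finrank_range_add_finrank_ker
  have h2 : Module.finrank ℝ S ≤ Module.finrank ℝ (LinearMap.ker φ) := by
    have h3 : S ≤ (LinearMap.ker φ).map V.subtype := by
      intro x hx
      refine ⟨⟨x, hSV hx⟩, ?_, rfl⟩
      change φ ⟨x, hSV hx⟩ = 0
      rw [hφ]
      simpa using hx
    have h4 := Submodule.finrank_mono h3
    rwa [Submodule.finrank_map_subtype_eq] at h4
  have h3 : Module.finrank ℝ (LinearMap.range φ) ≤ k := by omega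
  have h4 : ¬ LinearIndependent ℝ
      (fun i : Fin (k + 1) => (⟨φ ⟨v (g i), hgV i⟩, ⟨_, rfl⟩⟩ : LinearMap.range φ)) := by
    intro h5
    have h6 := h5.fintype_card_le_finrank
    rw [Fintype.card_fin] at h6
    omega
  obtain ⟨c, hc, i, hi⟩ := Fintype.not_linearIndependent_iff.1 h4
  refine ⟨c, fun h0 => hi (by rw [h0]; rfl), ?_⟩
  have h5 := congrArg (fun x : LinearMap.range φ => (x : E ⧸ S)) hc
  simp only [Submodule.coe_sum, Submodule.coe_smul, Submodule.coe_zero, hφ] at h5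
  rw [← Submodule.ker_mkQ S, LinearMap.mem_ker, map_sum]
  rw [← h5]
  exact Finset.sum_congr rfl fun i _ => map_smul _ _ _

theorem tuple {α : Type} [Fintype α] [DecidableEq α] {E : Type} [AddCommGroup E] [Module ℝ E]
    (v : α → E) (β k : ℕ) (W G Rg : Finset α) (L : α → Finset α)
    (hWG : W ⊆ G) (hr : dm v G ≤ dm v W + k) (_hRg : Rg ⊆ W)
    (hL : ∀ h ∈ Rg, vcl v (L h) = L h ∧ W.erase h ⊆ L h ∧ h ∉ L h)
    (g : Fin (k + 1) → α) (hg : ∀ i, g i ∈ G) (hs : ¬ ssup v β k W g) :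
    β ≤ (∑ i, (Rg.filter (fun h => g i ∉ L h)).card) + k + (W \ Rg).card := by
  classical
  obtain ⟨c, hc0, hc⟩ := exists_dep v k W G hWG hr g hg
  obtain ⟨a, ha⟩ := (Submodule.mem_span_image_finset_iff_exists_fun' ℝ).1 hc
  obtain ⟨T, hT, hTa, hsum⟩ : ∃ T ⊆ W, (∀ h ∈ T, a h ≠ 0) ∧
      ∑ h ∈ T, a h • v h = ∑ i, c i • v (g i) := by
    refine ⟨W.filter (fun h => a h ≠ 0), filter_subset _ _, fun h hh => (mem_filter.1 hh).2, ?_⟩
    rw [← ha, sum_filter]
    refine sum_congr rfl fun h _ => ?_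
    by_cases h0 : a h = 0
    · simp [h0]
    · simp [h0]
  have h1 : β ≤ T.card + k := by
    by_contra hcon
    apply hs
    refine ⟨c, hc0, T, hT, by omega, ?_⟩
    rw [← hsum]
    exact Submodule.sum_mem _ fun h hh => Submodule.smul_mem _ _
      (Submodule.subset_span ⟨h, mem_coe.2 hh, rfl⟩)
  have h2 : ∀ h ∈ T ∩ Rg, ∃ i, g i ∉ L h := by
    intro h hh
    rw [mem_inter] at hh
    obtain ⟨hL1, hL2, hL3⟩ := hL h hh.2
    by_contra hcon
    push Not at hcon
    apply hL3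
    rw [← hL1, mem_vcl]
    have h3 : a h • v h = ∑ i, c i • v (g i) - ∑ h' ∈ T.erase h, a h' • v h' := by
      rw [← hsum, ← add_sum_erase T _ hh.1, add_sub_cancel_right]
    have h4 : a h • v h ∈ Submodule.span ℝ (v '' (L h : Set α)) := by
      rw [h3]
      refine Submodule.sub_mem _ ?_ ?_
      · exact Submodule.sum_mem _ fun i _ => Submodule.smul_mem _ _
          (Submodule.subset_span ⟨g i, mem_coe.2 (hcon i), rfl⟩)
      · exact Submodule.sum_mem _ fun h' hh' => Submodule.smul_mem _ _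
          (Submodule.subset_span ⟨h', mem_coe.2 (hL2 (erase_subset_erase h hT hh')), rfl⟩)
    have h5 := Submodule.smul_mem _ (a h)⁻¹ h4
    rwa [smul_smul, inv_mul_cancel₀ (hTa h hh.1), one_smul] at h5
  have h3 : T ∩ Rg ⊆ univ.biUnion (fun i => Rg.filter (fun h => g i ∉ L h)) := by
    intro h hh
    obtain ⟨i, hi⟩ := h2 h hh
    rw [mem_biUnion]
    exact ⟨i, mem_univ i, mem_filter.2 ⟨(mem_inter.1 hh).2, hi⟩⟩
  have h4 := (card_le_card h3).trans card_biUnion_le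
  have h5 : T.card ≤ (T ∩ Rg).card + (W \ Rg).card := by
    have h6 : T ⊆ (T ∩ Rg) ∪ (W \ Rg) := by
      intro h hh
      rw [mem_union, mem_inter, mem_sdiff]
      by_cases h7 : h ∈ Rg
      · exact Or.inl ⟨hh, h7⟩
      · exact Or.inr ⟨hT hh, h7⟩
    exact (card_le_card h6).trans (card_union_le _ _)
  omega

end KillDetAux

open KillDetAux

open Classical in
theorem kill_det {α : Type} [Fintype α] [DecidableEq α] {E : Type} [AddCommGroup E] [Module ℝ E]
    (v : α → E) (β k : ℕ) (W G Rg : Finset α) (L : α → Finset α) (τ : ℝ) (hτ1 : τ ≤ 1)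
    (hWG : W ⊆ G) (hr : dm v G ≤ dm v W + k) (hRg : Rg ⊆ W)
    (hL : ∀ h ∈ Rg, vcl v (L h) = L h ∧ W.erase h ⊆ L h ∧ h ∉ L h)
    (hτ : ((univ.filter (fun g : Fin (k + 1) → α => (∀ i, g i ∈ G) ∧ ssup v β k W g)).card : ℝ) ≤
      τ * (G.card : ℝ) ^ (k + 1)) :
    (1 - τ) * ((β : ℝ) - k - ((W \ Rg).card : ℝ)) * (G.card : ℝ) ≤
      ((k : ℝ) + 1) * ∑ g ∈ G, ((Rg.filter (fun h => g ∉ L h)).card : ℝ) := by
  have hRHS : 0 ≤ ((k : ℝ) + 1) * ∑ g ∈ G, ((Rg.filter (fun h => g ∉ L h)).card : ℝ) :=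
    mul_nonneg (by positivity) (sum_nonneg fun _ _ => Nat.cast_nonneg _)
  by_cases hD : (β : ℝ) - k - ((W \ Rg).card : ℝ) ≤ 0
  · refine le_trans ?_ hRHS
    exact mul_nonpos_of_nonpos_of_nonneg
      (mul_nonpos_of_nonneg_of_nonpos (by linarith) hD) (Nat.cast_nonneg _)
  push Not at hD
  rcases Nat.eq_zero_or_pos G.card with hG0 | hGpos
  · refine le_trans ?_ hRHS
    rw [hG0, Nat.cast_zero, mul_zero]
  have hGp : (0 : ℝ) < G.card := by exact_mod_cast hGpos
  generalize hDd : (β : ℝ) - k - ((W \ Rg).card : ℝ) = D at hD ⊢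
  -- the tuples
  have hbad : (univ.filter (fun g : Fin (k + 1) → α => (∀ i, g i ∈ G) ∧ ssup v β k W g))
      = (Fintype.piFinset fun _ : Fin (k + 1) => G).filter (fun g => ssup v β k W g) := by
    ext g
    rw [mem_filter, mem_filter, Fintype.mem_piFinset]
    exact ⟨fun h => h.2, fun h => ⟨mem_univ _, h⟩⟩
  have hcard : (Fintype.piFinset fun _ : Fin (k + 1) => G).card = G.card ^ (k + 1) := by
    rw [Fintype.card_piFinset, prod_const, card_univ, Fintype.card_fin]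
  have hgood : (1 - τ) * (G.card : ℝ) ^ (k + 1) ≤
      (((Fintype.piFinset fun _ : Fin (k + 1) => G).filter
        (fun g => ¬ ssup v β k W g)).card : ℝ) := by
    have h1 := card_filter_add_card_filter_not (s := Fintype.piFinset fun _ : Fin (k + 1) => G)
      (fun g => ssup v β k W g)
    rw [hcard] at h1
    have h2 : (((Fintype.piFinset fun _ : Fin (k + 1) => G).filter
        (fun g => ssup v β k W g)).card : ℝ) + (((Fintype.piFinset fun _ : Fin (k + 1) => G).filter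
        (fun g => ¬ ssup v β k W g)).card : ℝ) = (G.card : ℝ) ^ (k + 1) := by
      exact_mod_cast h1
    rw [hbad] at hτ
    linarith
  have hsum : ∑ g ∈ Fintype.piFinset fun _ : Fin (k + 1) => G,
      ∑ i, ((Rg.filter (fun h => g i ∉ L h)).card : ℝ)
      = ((k : ℝ) + 1) * ((G.card : ℝ) ^ k * ∑ g ∈ G, ((Rg.filter (fun h => g ∉ L h)).card : ℝ)) := by
    rw [sum_comm]
    have h1 : ∀ i ∈ (univ : Finset (Fin (k + 1))),
        ∑ g ∈ Fintype.piFinset fun _ : Fin (k + 1) => G,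
          ((Rg.filter (fun h => g i ∉ L h)).card : ℝ)
        = (G.card : ℝ) ^ k * ∑ g ∈ G, ((Rg.filter (fun h => g ∉ L h)).card : ℝ) := by
      intro i _
      have h2 := Fintype.sum_piFinset_apply (ι := Fin (k + 1))
        (fun x : α => ((Rg.filter (fun h => x ∉ L h)).card : ℝ)) G i
      rw [h2, Fintype.card_fin, Nat.add_sub_cancel, nsmul_eq_mul, Nat.cast_pow]
    rw [sum_congr rfl h1, sum_const, card_univ, Fintype.card_fin, nsmul_eq_mul]
    push_cast
    ring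
  have hlow : (1 - τ) * (G.card : ℝ) ^ (k + 1) * D ≤
      ∑ g ∈ Fintype.piFinset fun _ : Fin (k + 1) => G,
        ∑ i, ((Rg.filter (fun h => g i ∉ L h)).card : ℝ) := by
    calc (1 - τ) * (G.card : ℝ) ^ (k + 1) * D
        ≤ (((Fintype.piFinset fun _ : Fin (k + 1) => G).filter
          (fun g => ¬ ssup v β k W g)).card : ℝ) * D := mul_le_mul_of_nonneg_right hgood hD.le
      _ = ∑ g ∈ (Fintype.piFinset fun _ : Fin (k + 1) => G).filter
          (fun g => ¬ ssup v β k W g), D := by rw [sum_const, nsmul_eq_mul]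
      _ ≤ ∑ g ∈ (Fintype.piFinset fun _ : Fin (k + 1) => G).filter
          (fun g => ¬ ssup v β k W g), ∑ i, ((Rg.filter (fun h => g i ∉ L h)).card : ℝ) := by
          refine sum_le_sum fun g hg => ?_
          rw [mem_filter, Fintype.mem_piFinset] at hg
          have h1 := tuple v β k W G Rg L hWG hr hRg hL g hg.1 hg.2
          have h2 : (β : ℝ) ≤ (∑ i, ((Rg.filter (fun h => g i ∉ L h)).card : ℝ)) + k
              + ((W \ Rg).card : ℝ) := by
            have h3 : (β : ℝ) ≤ (((∑ i, (Rg.filter (fun h => g i ∉ L h)).card) + k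
              + (W \ Rg).card : ℕ) : ℝ) := Nat.cast_le.2 (by convert h1)
            push_cast at h3
            exact h3
          rw [← hDd]
          linarith
      _ ≤ _ := sum_le_sum_of_subset_of_nonneg (filter_subset _ _)
          fun g _ _ => sum_nonneg fun i _ => Nat.cast_nonneg _
  rw [hsum] at hlow
  have hpk : (0 : ℝ) < (G.card : ℝ) ^ k := pow_pos hGp k
  have h1 : (G.card : ℝ) ^ k * ((1 - τ) * D * (G.card : ℝ)) ≤
      (G.card : ℝ) ^ k * (((k : ℝ) + 1) *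
        ∑ g ∈ G, ((Rg.filter (fun h => g ∉ L h)).card : ℝ)) := by
    calc (G.card : ℝ) ^ k * ((1 - τ) * D * (G.card : ℝ))
        = (1 - τ) * (G.card : ℝ) ^ (k + 1) * D := by ring
      _ ≤ _ := hlow
      _ = _ := by ring
  exact le_of_mul_le_mul_left h1 hpk

open Classical in
theorem kill_pairs {α : Type} [Fintype α] [DecidableEq α] {E : Type} [AddCommGroup E] [Module ℝ E]
    (v : α → E) (β k : ℕ) (W G Rg : Finset α) (L : α → Finset α) (ε c : ℝ) (hε : 0 < ε)
    (hc : c = (ε / (k + 1)) ^ 2)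
    (hWG : W ⊆ G) (hr : dm v G ≤ dm v W + k) (hRg : Rg ⊆ W)
    (hL : ∀ h ∈ Rg, vcl v (L h) = L h ∧ W.erase h ⊆ L h ∧ h ∉ L h)
    (hτ : ((univ.filter (fun g : Fin (k + 1) → α => (∀ i, g i ∈ G) ∧ ssup v β k W g)).card : ℝ) ≤
      (1 / 4) * (G.card : ℝ) ^ (k + 1))
    (hβ : 2 * ε * (W.card : ℝ) ≤ β) (hk : 8 * (k : ℝ) ≤ β)
    (hirr : ((W \ Rg).card : ℝ) ≤ ε / 4 * (W.card : ℝ)) (hW : 4 ≤ c * (W.card : ℝ))
    (hG : G.Nonempty) :
    c / 4 * (W.card : ℝ) ^ 2 ≤ (((W ×ˢ W).filter (fun q : α × α => q.1 ≠ q.2 ∧ q.1 ∈ Rg ∧ q.2 ∈ Rg ∧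
      c / 2 * (G.card : ℝ) ≤ ((G.filter (fun g => g ∉ L q.1 ∧ g ∉ L q.2)).card : ℝ))).card : ℝ) := by
  have hGp : (0 : ℝ) < G.card := by exact_mod_cast hG.card_pos
  have hk1 : (0 : ℝ) < (k : ℝ) + 1 := by positivity
  have hc0 : 0 ≤ c := by rw [hc]; positivity
  have hdet := kill_det v β k W G Rg L (1 / 4) (by norm_num) hWG hr hRg hL hτ
  set w : ℝ := (W.card : ℝ) with hw
  have hw0 : 0 ≤ w := Nat.cast_nonneg _
  set S : Finset (α × α) := (W ×ˢ W).filter (fun q : α × α => q.1 ≠ q.2 ∧ q.1 ∈ Rg ∧ q.2 ∈ Rg ∧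
      c / 2 * (G.card : ℝ) ≤ ((G.filter (fun g => g ∉ L q.1 ∧ g ∉ L q.2)).card : ℝ)) with hS
  set A : α → ℝ := fun g => ((Rg.filter (fun h => g ∉ L h)).card : ℝ) with hA
  -- lower bound for the sum
  have hX : ε / (k + 1) * w * (G.card : ℝ) ≤ ∑ g ∈ G, A g := by
    have h1 : ε * w ≤ (1 - 1 / 4) * ((β : ℝ) - k - ((W \ Rg).card : ℝ)) := by
      have h2 : 0 ≤ ε * w := mul_nonneg hε.le hw0
      linarith
    have h2 : ε * w * (G.card : ℝ) ≤ ((k : ℝ) + 1) * ∑ g ∈ G, A g :=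
      (mul_le_mul_of_nonneg_right h1 hGp.le).trans hdet
    have h3 : ε / (k + 1) * w * (G.card : ℝ) = (ε * w * (G.card : ℝ)) / (k + 1) := by
      field_simp
    rw [h3, div_le_iff₀ hk1]
    linarith
  have hX0 : 0 ≤ ε / (k + 1) * w * (G.card : ℝ) := by positivity
  have hsq : c * w ^ 2 * (G.card : ℝ) ≤ ∑ g ∈ G, A g ^ 2 := by
    have h1 : (∑ g ∈ G, A g) ^ 2 ≤ (G.card : ℝ) * ∑ g ∈ G, A g ^ 2 := sq_sum_le_card_mul_sum_sq
    have h2 : (ε / (k + 1) * w * (G.card : ℝ)) ^ 2 ≤ (∑ g ∈ G, A g) ^ 2 :=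
      pow_le_pow_left₀ hX0 hX 2
    have h3 : (G.card : ℝ) * (c * w ^ 2 * (G.card : ℝ)) ≤ (G.card : ℝ) * ∑ g ∈ G, A g ^ 2 := by
      refine le_trans (le_of_eq ?_) (h2.trans h1)
      rw [hc]
      ring
    exact le_of_mul_le_mul_left h3 hGp
  -- double counting
  have hdc : ∑ g ∈ G, A g ^ 2
      = ∑ q ∈ Rg ×ˢ Rg, ((G.filter (fun g => g ∉ L q.1 ∧ g ∉ L q.2)).card : ℝ) := by
    have h1 : ∀ g ∈ G, A g ^ 2
        = ∑ q ∈ Rg ×ˢ Rg, (if g ∉ L q.1 ∧ g ∉ L q.2 then (1 : ℝ) else 0) := by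
      intro g _
      rw [hA]
      simp only
      rw [sq, ← Nat.cast_mul, ← card_product, ← filter_product, card_filter]
      push_cast
      rfl
    rw [sum_congr rfl h1, sum_comm]
    refine sum_congr rfl fun q _ => ?_
    rw [card_filter]
    push_cast
    rfl
  have hub : ∑ q ∈ Rg ×ˢ Rg, ((G.filter (fun g => g ∉ L q.1 ∧ g ∉ L q.2)).card : ℝ)
      ≤ w * (G.card : ℝ) + (S.card : ℝ) * (G.card : ℝ) + w ^ 2 * (c / 2 * (G.card : ℝ)) := by
    have h1 : ∀ q ∈ Rg ×ˢ Rg, ((G.filter (fun g => g ∉ L q.1 ∧ g ∉ L q.2)).card : ℝ)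
        ≤ (if q.1 = q.2 then (G.card : ℝ) else 0) + (if q ∈ S then (G.card : ℝ) else 0)
          + c / 2 * (G.card : ℝ) := by
      intro q hq
      rw [mem_product] at hq
      have h2 : ((G.filter (fun g => g ∉ L q.1 ∧ g ∉ L q.2)).card : ℝ) ≤ (G.card : ℝ) := by
        exact_mod_cast card_le_card (filter_subset _ _)
      have h3 : 0 ≤ c / 2 * (G.card : ℝ) := by positivity
      by_cases h4 : q.1 = q.2
      · rw [if_pos h4]
        have h5 : (0 : ℝ) ≤ if q ∈ S then (G.card : ℝ) else 0 := by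
          split_ifs <;> positivity
        linarith
      · rw [if_neg h4]
        by_cases h5 : q ∈ S
        · rw [if_pos h5]
          linarith
        · rw [if_neg h5]
          have h6 : ¬ c / 2 * (G.card : ℝ)
              ≤ ((G.filter (fun g => g ∉ L q.1 ∧ g ∉ L q.2)).card : ℝ) := by
            intro h7
            apply h5
            rw [hS, mem_filter, mem_product]
            exact ⟨⟨hRg hq.1, hRg hq.2⟩, h4, hq.1, hq.2, h7⟩
          push Not at h6
          linarith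
    refine (sum_le_sum h1).trans ?_
    rw [sum_add_distrib, sum_add_distrib]
    have hcR : (Rg.card : ℝ) ≤ w := by
      rw [hw]
      exact Nat.cast_le.2 (card_le_card hRg)
    have h2 : ∑ q ∈ Rg ×ˢ Rg, (if q.1 = q.2 then (G.card : ℝ) else 0) ≤ w * (G.card : ℝ) := by
      rw [← sum_filter, sum_const, nsmul_eq_mul]
      apply mul_le_mul_of_nonneg_right _ hGp.le
      refine le_trans ?_ hcR
      have h3 : ((Rg ×ˢ Rg).filter (fun q : α × α => q.1 = q.2)).card ≤ Rg.card := by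
        apply card_le_card_of_injOn (fun q => q.1)
        · intro q hq
          rw [mem_coe, mem_filter, mem_product] at hq
          exact hq.1.1
        · intro q hq q' hq' hqq
          rw [mem_coe, mem_filter] at hq hq'
          have h5 : q.1 = q'.1 := hqq
          exact Prod.ext h5 (by rw [← hq.2, ← hq'.2, h5])
      exact_mod_cast h3
    have h3 : ∑ q ∈ Rg ×ˢ Rg, (if q ∈ S then (G.card : ℝ) else 0) ≤ (S.card : ℝ) * (G.card : ℝ) := by
      rw [← sum_filter, sum_const, nsmul_eq_mul]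
      apply mul_le_mul_of_nonneg_right _ hGp.le
      have h4 : ((Rg ×ˢ Rg).filter (fun q : α × α => q ∈ S)).card ≤ S.card :=
        card_le_card fun q hq => (mem_filter.1 hq).2
      exact_mod_cast h4
    have h4 : ∑ _q ∈ Rg ×ˢ Rg, c / 2 * (G.card : ℝ) ≤ w ^ 2 * (c / 2 * (G.card : ℝ)) := by
      rw [sum_const, nsmul_eq_mul, card_product, Nat.cast_mul, sq]
      apply mul_le_mul_of_nonneg_right _ (by positivity)
      exact mul_le_mul hcR hcR (Nat.cast_nonneg _) hw0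
    linarith
  rw [hdc] at hsq
  have h1 : c * w ^ 2 * (G.card : ℝ) ≤ (w + (S.card : ℝ) + w ^ 2 * (c / 2)) * (G.card : ℝ) := by
    refine (hsq.trans hub).trans (le_of_eq ?_)
    ring
  have h2 := le_of_mul_le_mul_right h1 hGp
  have h3 : w ≤ c / 4 * w ^ 2 := by
    have h4 : w * 4 ≤ w * (c * w) := mul_le_mul_of_nonneg_left hW hw0
    have h5 : w * (c * w) = c * w ^ 2 := by ring
    linarith
  linarith

end Pool.Agent.Lib.P0fc
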