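import Mathlib
import Pool.Agent.Lib.P0fc.KillDet
import Pool.Agent.Lib.P0fc.KillA
import Pool.Agent.Lib.P0fc.KillB
import Pool.Agent.Lib.P0fc.KillD

/-!
# The kill: lower bound for the mass of the rich pairs

Write `W = Y e (t-l)`, `G = Gf l W z`, `L h = Gf (l+1) (W.erase h) z`, `Rg = W.filter (RG l W z)` (for
`h ∈ Rg`: `L h` is a flat, `W.erase h ⊆ L h`, `h ∉ L h`).  The indicators of `BBe` and `MMe` do not change
if two of the first `t` positions are swapped (`Y_swap_fut`, `Ex.swap`-like: `BBe` involves `Y e t`,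
`Y e (t+k)`, `Y e (t+k+1)`), `W` and all these objects depend only on the unordered set `W` and `z`.
On `MMe`: `β ≤ t`; by `hν'` and `1 ≤ ν β`: `l + 3 + 8 es + 8/c ≤ β`, so `l + 2 < t`,
`|W| = t - l ≥ 8/c`, `8 es ≤ β`.
`GoodW`: `er l W z ≤ es`, `|W \ Rg| ≤ (ε/4)|W|`, `μ |α| ≤ |G|`, and at most `|G|^(es+1)/4` of the tuples in
`G^(es+1)` have small support in `W` (`ssup v β es W`).
(1) `irr_mass`: `mass (MMe, er l W z ≤ es, |W \ Rg| > (ε/4)|W|) ≤ (4/ε) ρ₂ ≤ ρ₀/16`.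
(2) `tuple_mass`: `mass (MMe, μ |α| ≤ |G|, more than |G|^(es+1)/4 bad tuples) ≤ ρ₀/16` by `hν`.
So `mass (BBe, GoodW) ≥ ρ₀ - ρ₀/8 - ρ₀/16 - ρ₀/16 - ρ₀/16 ≥ ρ₀/2` (`mass_split`, `mass_or_le`).
(3) For `GoodW` let `S W z` be the set of the pairs `(h, h')` of `kill_pairs` (`k = es`,
`c = (ε/(es+1))²`; hypotheses: `2 ε |W| ≤ 2 ε M₂ ≤ β`, `8 es ≤ β`, `4 ≤ c |W|`, `G ≠ ∅` as `z ∈ G`,
`dm G ≤ dm W + es` from `er ≤ es`): `|S| ≥ (c/4)|W|²`.  By `pair_mass` (with `A = BBe ∧ GoodW`; `S W z := ∅`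
unless `GoodW` holds for `(W, z)`, which is a condition on `(W, z)` only)
`mass (BBe, GoodW, (h, h') ∈ S) ≥ (c/4)(ρ₀/2) = c ρ₀/8`, `h, h'` at the positions `t-l-1`, `t-l-2`.
(4) Remove the event `¬ RG (l+1) (W.erase h) z h'` (mass with `MMe ∧ er ≤ es` at most `ρ₂` by `h1'`, as
`W.erase h = Y e (t-l-1)`) and the event `¬ RG (l+1) (W.erase h') z h` (the same mass, `swap_mass`):
at least `c ρ₀/8 - 2 ρ₂ ≥ c ρ₀/16` remains.
(5) There `rich_of_RG` (with `θ = c/2`) gives `RichE v p (c/2) l es t e z` with `x = h'`, `y = h`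
(`Y e (t-l-2) = (W.erase h).erase h'`).
-/

namespace Pool.Agent.Lib.P0fc

open Finset Pool.Agent.Lib.P0fb

/-- the pair at the positions `t-l-2`, `t-l-1` is rich over the robust flat of level `l + 2` -/
def RichE {α : Type} [Fintype α] [DecidableEq α] {E : Type} [AddCommGroup E] [Module ℝ E] {N : ℕ}
    (v : α → E) (p : Pm) (θ : ℝ) (l es t : ℕ) (e : Fin N ≃ α) (z : α) : Prop :=
  ∃ x y, At e (t - l - 2) x ∧ At e (t - l - 1) y ∧
    (x, y) ∈ rich v θ (Gf v p (l + 2) (Y e (t - l - 2)) z) ∧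
    er v p (l + 2) (Y e (t - l - 2)) z ≤ es

namespace KillAvgAux

section

variable {α : Type} [Fintype α] [DecidableEq α] {E : Type} [AddCommGroup E] [Module ℝ E] {N : ℕ}

theorem erase_At {e : Fin N ≃ α} {i : ℕ} {x : α} (h : At e i x) : (Y e (i + 1)).erase x = Y e i := by
  have hi : (e.symm x).val = i := h
  have h1 := Y_erase e (e.symm x)
  rw [e.apply_symm_apply, hi] at h1
  exact h1

theorem futM_ind {m : ℕ} (P : (Fin N ≃ α) → Prop)
    (h : ∀ (e : Fin N ≃ α) (i j : Fin N), i.val < m → j.val < m →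
      (P ((Equiv.swap i j).trans e) ↔ P e)) : FutM m (fun e => ind (P e)) := by
  intro e i j hi hj
  show ind (P ((Equiv.swap i j).trans e)) = ind (P e)
  rw [propext (h e i j hi hj)]

open Classical in
/-- the good sets -/
def GW (v : α → E) (p : Pm) (l es : ℕ) (ε μ : ℝ) (W : Finset α) (z : α) : Prop :=
  er v p l W z ≤ es ∧
    ((W.filter (fun h => ¬ RG v p l W z h)).card : ℝ) ≤ ε / 4 * (W.card : ℝ) ∧
    μ * (Fintype.card α : ℝ) ≤ ((Gf v p l W z).card : ℝ) ∧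
    ((univ.filter (fun g : Fin (es + 1) → α => (∀ i, g i ∈ Gf v p l W z) ∧
      ssup v p.β es W g)).card : ℝ) ≤ 1 / 4 * ((Gf v p l W z).card : ℝ) ^ (es + 1)

open Classical in
/-- the pairs -/
noncomputable def SP (v : α → E) (p : Pm) (l es : ℕ) (ε μ c : ℝ) (W : Finset α) (z : α) :
    Finset (α × α) :=
  if GW v p l es ε μ W z then
    (W ×ˢ W).filter (fun q : α × α => q.1 ≠ q.2 ∧ RG v p l W z q.1 ∧ RG v p l W z q.2 ∧
      c / 2 * ((Gf v p l W z).card : ℝ) ≤ (((Gf v p l W z).filter (fun g =>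
        g ∉ Gf v p (l + 1) (W.erase q.1) z ∧ g ∉ Gf v p (l + 1) (W.erase q.2) z)).card : ℝ))
  else ∅

theorem mem_SP {v : α → E} {p : Pm} {l es : ℕ} {ε μ c : ℝ} {W : Finset α} {z : α} {q : α × α}
    (h : q ∈ SP v p l es ε μ c W z) :
    q.1 ∈ W ∧ q.2 ∈ W ∧ q.1 ≠ q.2 ∧ RG v p l W z q.1 ∧ RG v p l W z q.2 ∧
      c / 2 * ((Gf v p l W z).card : ℝ) ≤ (((Gf v p l W z).filter (fun g =>
        g ∉ Gf v p (l + 1) (W.erase q.1) z ∧ g ∉ Gf v p (l + 1) (W.erase q.2) z)).card : ℝ) := by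
  classical
  unfold SP at h
  split_ifs at h with h1
  · rw [mem_filter, mem_product] at h
    exact ⟨h.1.1, h.1.2, h.2⟩
  · exact absurd h (notMem_empty _)

theorem card_SP {v : α → E} {p : Pm} {l es : ℕ} {ε μ c : ℝ} {W : Finset α} {z : α}
    (hε : 0 < ε) (hc : c = (ε / (es + 1)) ^ 2) (h : GW v p l es ε μ W z)
    (hβ : 2 * ε * (W.card : ℝ) ≤ p.β) (hk : 8 * (es : ℝ) ≤ p.β) (hW : 4 ≤ c * (W.card : ℝ)) :
    c / 4 * (W.card : ℝ) ^ 2 ≤ ((SP v p l es ε μ c W z).card : ℝ) := by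
  classical
  obtain ⟨g1, g2, g3, g4⟩ := h
  have hsub : insert z W ⊆ Gf v p l W z := Gf_sub v p l W z
  have hWG : W ⊆ Gf v p l W z := (subset_insert z W).trans hsub
  have hr : dm v (Gf v p l W z) ≤ dm v W + es := by
    have : dm v (Gf v p l W z) - dm v W ≤ es := g1
    omega
  have hfl : W \ W.filter (fun h => RG v p l W z h) = W.filter (fun h => ¬ RG v p l W z h) := by
    ext x
    rw [mem_sdiff, mem_filter, mem_filter]
    tauto
  have h1 := kill_pairs v p.β es W (Gf v p l W z) (W.filter (fun h => RG v p l W z h))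
    (fun h => Gf v p (l + 1) (W.erase h) z) ε c hε hc hWG hr (filter_subset _ _)
    (fun h hh => ⟨Gf_flat v p (l + 1) (W.erase h) z,
      (subset_insert z _).trans (Gf_sub v p (l + 1) (W.erase h) z), (mem_filter.1 hh).2.1⟩)
    (by
      refine le_trans ?_ g4
      have : (univ.filter (fun g : Fin (es + 1) → α => (∀ i, g i ∈ Gf v p l W z) ∧
          ssup v p.β es W g)).card ≤ _ := le_rfl
      exact_mod_cast card_le_card fun g hg => by
        rw [mem_filter] at hg ⊢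
        exact hg)
    hβ hk (by
      rw [hfl]
      refine le_trans ?_ g2
      exact_mod_cast card_le_card fun g hg => by
        rw [mem_filter] at hg ⊢
        exact hg) hW ⟨z, hsub (mem_insert_self z W)⟩
  refine h1.trans ?_
  have hSP : SP v p l es ε μ c W z = (W ×ˢ W).filter (fun q : α × α => q.1 ≠ q.2 ∧
      RG v p l W z q.1 ∧ RG v p l W z q.2 ∧
      c / 2 * ((Gf v p l W z).card : ℝ) ≤ (((Gf v p l W z).filter (fun g =>
        g ∉ Gf v p (l + 1) (W.erase q.1) z ∧ g ∉ Gf v p (l + 1) (W.erase q.2) z)).card : ℝ)) := by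
    unfold SP
    rw [if_pos ⟨g1, g2, g3, g4⟩]
  rw [hSP]
  exact_mod_cast card_le_card fun q hq => by
    rw [mem_filter] at hq ⊢
    exact ⟨hq.1, hq.2.1, (mem_filter.1 hq.2.2.1).2, (mem_filter.1 hq.2.2.2.1).2, hq.2.2.2.2⟩

end

end KillAvgAux

open KillAvgAux

theorem kill_avg (ε κ ρ₀ ρ₂ μ c ν : ℝ) (hε : 0 < ε) (hε1 : ε ≤ 1) (hκ : 0 < κ) (hκ1 : κ ≤ 1)
    (hρ₀ : 0 < ρ₀) (hμ : 0 < μ) (es l k : ℕ) (hc : c = (ε / (es + 1)) ^ 2)
    (h2 : 64 * ρ₂ ≤ ε * ρ₀) (h2' : 32 * ρ₂ ≤ c * ρ₀)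
    (hν : 256 * ((es : ℝ) + 1) ^ 2 * ν ≤ ρ₀ * (κ * μ ^ (es + 1)))
    (hν' : ν * (l + 3 + 8 * es + 8 / c) ≤ 1)
    {α : Type} [Fintype α] [DecidableEq α] {E : Type} [AddCommGroup E] [Module ℝ E]
    (v : α → E) (p : Pm) (N M M₂ : ℕ) (hpκ : p.κ = κ) (hG : Good v N M M₂ p.β p.σ ε ν)
    (hB : ρ₀ ≤ mass M (fun t (e : Fin N ≃ α) z => BBe v p k t e z))
    (hr : mass M (fun t (e : Fin N ≃ α) z => MMe v p t e z ∧ es < er v p l (Y e (t - l)) z) ≤
      ρ₀ / 8)
    (h1 : mass M (fun t (e : Fin N ≃ α) z => MMe v p t e z ∧ er v p l (Y e (t - l)) z ≤ es ∧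
        ∃ h, At e (t - l - 1) h ∧ ¬ RG v p l (Y e (t - l)) z h) ≤ ρ₂)
    (h1' : mass M (fun t (e : Fin N ≃ α) z => MMe v p t e z ∧ er v p l (Y e (t - l)) z ≤ es ∧
        ∃ h, At e (t - l - 2) h ∧ ¬ RG v p (l + 1) (Y e (t - l - 1)) z h) ≤ ρ₂)
    (hm : mass M (fun t (e : Fin N ≃ α) z => MMe v p t e z ∧
        ((Gf v p l (Y e (t - l)) z).card : ℝ) < μ * (Fintype.card α : ℝ)) ≤ ρ₀ / 16) :
    c * ρ₀ / 16 ≤ mass M (fun t (e : Fin N ≃ α) z => BBe v p k t e z ∧
      RichE v p (c / 2) l es t e z) := by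
  classical
  have hcpos : 0 < c := by rw [hc]; positivity
  have hcard := hG.card
  have hν0 := hG.hν
  have h2M := Good_M_le hG
  have hMN : M ≤ N := by omega
  have hMM₂ : (M : ℝ) ≤ M₂ := by
    have h3 := hG.hM
    have h4 : (0 : ℝ) < 1 / ν := by positivity
    linarith
  -- `β` is large
  have hβl : (l : ℝ) + 3 + 8 * es + 8 / c ≤ p.β := by
    have h3 := hν'.trans hG.h1
    exact le_of_mul_le_mul_left h3 hν0
  have h8c : 0 < 8 / c := by positivity
  have hesβ : 8 * (es : ℝ) ≤ p.β := by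
    have : (0 : ℝ) ≤ l := Nat.cast_nonneg _
    linarith
  have hlβ : l + 3 ≤ p.β := by
    have h3 : ((l + 3 : ℕ) : ℝ) ≤ (p.β : ℝ) := by
      push_cast
      have : (0 : ℝ) ≤ es := Nat.cast_nonneg _
      linarith
    exact_mod_cast h3
  have hesν : (es : ℝ) ≤ 1 / ν := by
    rw [le_div_iff₀ hν0]
    have h3 : (es : ℝ) ≤ (l : ℝ) + 3 + 8 * es + 8 / c := by
      have : (0 : ℝ) ≤ l := Nat.cast_nonneg _
      have : (0 : ℝ) ≤ es := Nat.cast_nonneg _
      linarith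
    calc (es : ℝ) * ν = ν * es := mul_comm _ _
      _ ≤ ν * ((l : ℝ) + 3 + 8 * es + 8 / c) := mul_le_mul_of_nonneg_left h3 hν0.le
      _ ≤ 1 := hν'
  have hW8 : ∀ t < M, p.β ≤ t → ∀ e : Fin N ≃ α, 8 / c ≤ ((Y e (t - l)).card : ℝ) := by
    intro t ht hβt e
    rw [card_Y e (by omega), Nat.cast_sub (by omega)]
    have h3 : (p.β : ℝ) ≤ t := by exact_mod_cast hβt
    have : (0 : ℝ) ≤ es := Nat.cast_nonneg _
    linarith
  -- the good event
  set A : ℕ → (Fin N ≃ α) → α → Prop := fun t e z =>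
    BBe v p k t e z ∧ GW v p l es ε μ (Y e (t - l)) z with hA
  have hmA : ρ₀ / 2 ≤ mass M A := by
    have s1 := mass_split (M := M) (fun t (e : Fin N ≃ α) z => BBe v p k t e z)
      (fun t e z => GW v p l es ε μ (Y e (t - l)) z)
    have s2 : mass M (fun t (e : Fin N ≃ α) z => BBe v p k t e z ∧
        ¬ GW v p l es ε μ (Y e (t - l)) z) ≤
        mass M (fun t (e : Fin N ≃ α) z =>
          (MMe v p t e z ∧ es < er v p l (Y e (t - l)) z) ∨
          ((MMe v p t e z ∧ er v p l (Y e (t - l)) z ≤ es ∧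
            ε / 4 * ((Y e (t - l)).card : ℝ) <
            (((Y e (t - l)).filter (fun h => ¬ RG v p l (Y e (t - l)) z h)).card : ℝ)) ∨
          ((MMe v p t e z ∧
            ((Gf v p l (Y e (t - l)) z).card : ℝ) < μ * (Fintype.card α : ℝ)) ∨
          (MMe v p t e z ∧
            μ * (Fintype.card α : ℝ) ≤ ((Gf v p l (Y e (t - l)) z).card : ℝ) ∧
            1 / 4 * ((Gf v p l (Y e (t - l)) z).card : ℝ) ^ (es + 1) <
            ((univ.filter (fun g : Fin (es + 1) → α => (∀ i, g i ∈ Gf v p l (Y e (t - l)) z) ∧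
              ssup v p.β es (Y e (t - l)) g)).card : ℝ))))) := by
      refine mass_mono fun t _ e z h => ?_
      obtain ⟨hb, hn⟩ := h
      have hmm : MMe v p t e z := hb.2
      by_cases c1 : er v p l (Y e (t - l)) z ≤ es
      · right
        by_cases c2 : ε / 4 * ((Y e (t - l)).card : ℝ) <
            (((Y e (t - l)).filter (fun h => ¬ RG v p l (Y e (t - l)) z h)).card : ℝ)
        · exact Or.inl ⟨hmm, c1, c2⟩
        · right
          by_cases c3 : ((Gf v p l (Y e (t - l)) z).card : ℝ) < μ * (Fintype.card α : ℝ)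
          · exact Or.inl ⟨hmm, c3⟩
          · right
            refine ⟨hmm, not_lt.1 c3, ?_⟩
            by_contra c4
            exact hn ⟨c1, not_lt.1 c2, not_lt.1 c3, not_lt.1 c4⟩
      · exact Or.inl ⟨hmm, not_le.1 c1⟩
    have s3 := (s2.trans (mass_or_le _ _)).trans (add_le_add_right
      ((mass_or_le _ _).trans (add_le_add_right (mass_or_le _ _) _)) _)
    have e2 := irr_mass v p hcard hMN hε l es (by omega)
    have e4 := tuple_mass v p hG (by rw [hpκ]; exact hκ) (by rw [hpκ]; exact hκ1) l es hesν hμ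
    have e2' : 4 / ε * mass M (fun t (e : Fin N ≃ α) z => MMe v p t e z ∧
        er v p l (Y e (t - l)) z ≤ es ∧
        ∃ h, At e (t - l - 1) h ∧ ¬ RG v p l (Y e (t - l)) z h) ≤ ρ₀ / 16 := by
      have h3 : 4 / ε * mass M (fun t (e : Fin N ≃ α) z => MMe v p t e z ∧
        er v p l (Y e (t - l)) z ≤ es ∧
        ∃ h, At e (t - l - 1) h ∧ ¬ RG v p l (Y e (t - l)) z h) ≤ 4 / ε * ρ₂ :=
        mul_le_mul_of_nonneg_left h1 (by positivity)
      refine h3.trans ?_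
      rw [div_mul_eq_mul_div, div_le_iff₀ hε]
      linarith
    have e4' : 16 * ((es : ℝ) + 1) ^ 2 * ν / (p.κ * μ ^ (es + 1)) ≤ ρ₀ / 16 := by
      rw [hpκ, div_le_iff₀ (by positivity)]
      linarith
    have e2'' := e2.trans e2'
    have e4'' := e4.trans e4'
    linarith
  -- the pairs
  have hfutY : ∀ (m m' : ℕ), m ≤ m' → ∀ (e : Fin N ≃ α) (i j : Fin N), i.val < m → j.val < m →
      Y ((Equiv.swap i j).trans e) m' = Y e m' :=
    fun m m' hm e i j hi hj => Y_swap_fut e hi hj hm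
  have hAfut : ∀ t < M, ∀ z, FutM (t - l) (fun e : Fin N ≃ α => ind (A t e z)) := by
    intro t _ z
    refine futM_ind _ fun e i j hi hj => ?_
    simp only [hA, BBe, MMe, Ex]
    rw [hfutY (t - l) (t + k) (by omega) e i j hi hj,
      hfutY (t - l) (t + k + 1) (by omega) e i j hi hj,
      hfutY (t - l) t (by omega) e i j hi hj, hfutY (t - l) (t - l) le_rfl e i j hi hj]
  have hA2 : ∀ t < M, ∀ (e : Fin N ≃ α) z, A t e z → 2 ≤ t - l := by
    intro t _ e z h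
    have := beta_le_of_MMe h.1.2
    omega
  have hp := pair_mass (α := α) hcard hMN l (c := c / 4) A hAfut hA2
    (fun W z => SP v p l es ε μ c W z)
    (fun W z q hq => ⟨(mem_SP hq).1, (mem_SP hq).2.1, (mem_SP hq).2.2.1⟩)
    (fun t ht e z h => by
      have hβt := beta_le_of_MMe h.1.2
      refine card_SP hε hc h.2 ?_ hesβ ?_
      · refine le_trans ?_ hG.hβ
        refine mul_le_mul_of_nonneg_left ?_ (by positivity)
        refine le_trans ?_ hMM₂
        have h3 := (card_Y_le e (t - l))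
        exact_mod_cast (by omega : (Y e (t - l)).card ≤ M)
      · have h3 := hW8 t ht hβt e
        rw [div_le_iff₀ hcpos] at h3
        linarith)
    (by positivity)
  -- the bad pairs
  have hb1 : mass M (fun t (e : Fin N ≃ α) z => (MMe v p t e z ∧ er v p l (Y e (t - l)) z ≤ es) ∧
      ∃ h h', At e (t - l - 1) h ∧ At e (t - l - 2) h' ∧ h ≠ h' ∧
        ((Y e (t - l)).Nonempty ∧ ¬ RG v p (l + 1) ((Y e (t - l)).erase h) z h')) ≤ ρ₂ := by
    refine le_trans (mass_mono fun t _ e z h => ?_) h1'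
    obtain ⟨⟨hmm, her⟩, h, h', hh, hh', _, _, hR⟩ := h
    refine ⟨hmm, her, h', hh', ?_⟩
    have hβt := beta_le_of_MMe hmm
    have h3 := erase_At hh
    have h4 : t - l - 1 + 1 = t - l := by omega
    rw [h4] at h3
    rw [← h3]
    exact hR
  have hMfut : ∀ t < M, ∀ z, FutM (t - l) (fun e : Fin N ≃ α =>
      ind (MMe v p t e z ∧ er v p l (Y e (t - l)) z ≤ es)) := by
    intro t _ z
    refine futM_ind _ fun e i j hi hj => ?_
    simp only [MMe]
    rw [hfutY (t - l) t (by omega) e i j hi hj, hfutY (t - l) (t - l) le_rfl e i j hi hj]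
  have hb2 := swap_mass (α := α) hMN l (fun t (e : Fin N ≃ α) z =>
    MMe v p t e z ∧ er v p l (Y e (t - l)) z ≤ es) hMfut
    (fun W z h h' => W.Nonempty ∧ ¬ RG v p (l + 1) (W.erase h) z h')
  have hb2' := hb2.symm.le.trans hb1
  -- conclusion
  have hfin : mass M (fun t (e : Fin N ≃ α) z => A t e z ∧
      ∃ h h', At e (t - l - 1) h ∧ At e (t - l - 2) h' ∧
        (h, h') ∈ SP v p l es ε μ c (Y e (t - l)) z) ≤
      mass M (fun t (e : Fin N ≃ α) z =>
        (BBe v p k t e z ∧ RichE v p (c / 2) l es t e z) ∨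
        (((MMe v p t e z ∧ er v p l (Y e (t - l)) z ≤ es) ∧
          ∃ h h', At e (t - l - 1) h ∧ At e (t - l - 2) h' ∧ h ≠ h' ∧
            ((Y e (t - l)).Nonempty ∧ ¬ RG v p (l + 1) ((Y e (t - l)).erase h) z h')) ∨
        ((MMe v p t e z ∧ er v p l (Y e (t - l)) z ≤ es) ∧
          ∃ h h', At e (t - l - 1) h ∧ At e (t - l - 2) h' ∧ h ≠ h' ∧
            ((Y e (t - l)).Nonempty ∧ ¬ RG v p (l + 1) ((Y e (t - l)).erase h') z h)))) := by
    refine mass_mono fun t _ e z hev => ?_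
    obtain ⟨hAe, h, h', hh, hh', hS⟩ := hev
    obtain ⟨m1, m2, m3, m4, m5, m6⟩ := mem_SP hS
    have hmm : MMe v p t e z := hAe.1.2
    have her : er v p l (Y e (t - l)) z ≤ es := hAe.2.1
    have hβt := beta_le_of_MMe hmm
    by_cases c1 : RG v p (l + 1) ((Y e (t - l)).erase h) z h'
    · by_cases c2 : RG v p (l + 1) ((Y e (t - l)).erase h') z h
      · left
        refine ⟨hAe.1, h', h, hh', hh, ?_⟩
        obtain ⟨r1, r2⟩ := rich_of_RG v p (θ := c / 2) (by positivity) m1 m2 m3 m4 c1 c2 m6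
        have h3 := erase_At hh
        have h4 : t - l - 1 + 1 = t - l := by omega
        rw [h4] at h3
        have h5 := erase_At hh'
        have h6 : t - l - 2 + 1 = t - l - 1 := by omega
        rw [h6, ← h3] at h5
        rw [h5] at r1 r2
        exact ⟨r1, r2.trans her⟩
      · exact Or.inr (Or.inr ⟨⟨hmm, her⟩, h, h', hh, hh', m3, ⟨_, m1⟩, c2⟩)
    · exact Or.inr (Or.inl ⟨⟨hmm, her⟩, h, h', hh, hh', m3, ⟨_, m1⟩, c1⟩)
  have hfin' := (hfin.trans (mass_or_le _ _)).trans (add_le_add_right (mass_or_le _ _) _)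
  have hcm : c / 4 * (ρ₀ / 2) ≤ c / 4 * mass M A := mul_le_mul_of_nonneg_left hmA (by positivity)
  linarith

end Pool.Agent.Lib.P0fc
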