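import Mathlib
import Pool.Agent.Lib.P0fc.KillAvg
import Pool.Agent.Lib.P0fc.PxT
import Pool.Agent.Lib.P0fc.AvT

/-!
# Upper bound for the mass of the rich pairs

Let `(j, θ')` be from `sg (κ ρ/64) θ`, and `l₂` with `(2 (es+j) + 4)/(θ' (l₂+3)) ≤ ρ/2`, `ν₀` as needed for
`px_le` (`ν₀ ≤ κ/8`) and `avg_le` (`ν₀ ≤ θ'/8`) and `ν₀ ≤ 1/(l+3)`.
For `(A, z)` let `Bad A z = rich v θ (Gf (l+2) A z)` if `er (l+2) A z ≤ es` and `¬ Dle v θ' (es + j) A`, and
`∅` otherwise.  Then `|Bad A z| ≤ (κ ρ/64) N²`: let `B = Gf (l+2) A z` (a flat containing `A`); by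
`exists_over` there is `P₀ ⊆ B` with `|P₀| = er (l+2) A z ≤ es` and `vcl (A ∪ P₀) = B`; for `|P| ≤ j`:
`vcl (B ∪ P) = vcl (A ∪ (P₀ ∪ P))` has less than `θ' N` elements because `¬ Dle v θ' (es+j) A`; so `sg` applies.
The event `BBe ∧ RichE` is contained in
(a) `OK (Y e t)`, `κ N ≤ |vcl (Y e t)|`, pair at positions `(t-l-2, t-l-1)` in `Bad (Y e (t-l-2)) z`: for each
`z` the sum over the times is `≤ 16 (κ ρ/64)/κ = ρ/4` by `px_le` (with `θ = κ`);
(b) `Ex (t+k)`, `OK (Y e t)`, `Dle v θ' (es+j) (Y e (t-(l+2)))`: the events `D_t = Ex (t+k) ∧ OK (Y e t)` are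
disjoint, so by `avg_le` the sum over the times is `≤ (2(es+j)+4)/(θ' (l+3)) ≤ ρ/2`.
(`MMe` forces `β ≤ t`, so `l + 2 ≤ t`.)
-/

namespace Pool.Agent.Lib.P0fc

open Finset Pool.Agent.Lib.P0fb

theorem rich_up (κ ρ θ : ℝ) (hκ : 0 < κ) (hκ1 : κ ≤ 1) (hρ : 0 < ρ) (hθ : 0 < θ) (es : ℕ) :
    ∃ l₂ : ℕ, ∀ l, l₂ ≤ l → ∃ ν₀ : ℝ, 0 < ν₀ ∧
    ∀ (α : Type) [Fintype α] [DecidableEq α] (E : Type) [AddCommGroup E] [Module ℝ E]
      (v : α → E) (p : Pm) (N M M₂ k : ℕ) (ε ν : ℝ), p.κ = κ → ν ≤ ν₀ →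
      Good v N M M₂ p.β p.σ ε ν →
      mass M (fun t (e : Fin N ≃ α) z => BBe v p k t e z ∧ RichE v p θ l es t e z) ≤ ρ := by
  classical
  obtain ⟨j, θ', hθ', hsg⟩ := sg (κ * ρ / 64) θ (by positivity) hθ
  obtain ⟨l₂, hl₂⟩ := exists_nat_ge (2 * (2 * ((es : ℝ) + j) + 4) / (ρ * θ'))
  refine ⟨l₂, fun l hl => ⟨min (κ / 8) (min (θ' / 8) (1 / ((l : ℝ) + 3))), by positivity, ?_⟩⟩
  intro α _ _ E _ _ v p N M M₂ k ε ν hpκ hν hG
  have hν1 : ν ≤ κ / 8 := hν.trans (min_le_left _ _)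
  have hν2 : ν ≤ θ' / 8 := hν.trans ((min_le_right _ _).trans (min_le_left _ _))
  have hν3 : ν ≤ 1 / ((l : ℝ) + 3) := hν.trans ((min_le_right _ _).trans (min_le_right _ _))
  have hN := hG.card
  have hσβ := hG.σβ
  obtain ⟨hM8, hMN⟩ := hG.M8
  have hMκ := hG.Mθ hν1
  have hMθ' := hG.Mθ hν2
  have hNc : (Fintype.card α : ℝ) = N := by exact_mod_cast congrArg (fun n : ℕ => (n : ℝ)) hN
  have hβl : l + 3 ≤ p.β := by
    apply hG.inv
    push_cast
    have : ((l : ℝ) + 3) * ν ≤ ((l : ℝ) + 3) * (1 / ((l : ℝ) + 3)) :=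
      mul_le_mul_of_nonneg_left hν3 (by positivity)
    rwa [mul_one_div_cancel (by positivity)] at this
  have : Nonempty α := Fintype.card_pos_iff.1 (by omega)
  refine mass_le_of_forall fun z => ?_
  set Bad : Finset α → Finset (α × α) := fun A =>
    if er v p (l + 2) A z ≤ es ∧ ¬ Dle v θ' (es + j) A then rich v θ (Gf v p (l + 2) A z) else ∅
    with hBad
  have hBadc : ∀ A, ((Bad A).card : ℝ) ≤ κ * ρ / 64 * (N : ℝ) ^ 2 := by
    intro A
    by_cases hc : er v p (l + 2) A z ≤ es ∧ ¬ Dle v θ' (es + j) A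
    · have e1 : Bad A = rich v θ (Gf v p (l + 2) A z) := by
        rw [hBad]
        exact if_pos hc
      rw [e1, ← hNc]
      refine hsg α E v (Gf v p (l + 2) A z) fun P hP => ?_
      by_contra hcon
      rw [not_le] at hcon
      apply hc.2
      have hsub : A ⊆ Gf v p (l + 2) A z := (subset_insert z A).trans (Gf_sub v p (l + 2) A z)
      obtain ⟨P₀, _, hP₀c, hP₀v⟩ := exists_over v hsub
      have her : dm v (Gf v p (l + 2) A z) - dm v A ≤ es := hc.1
      refine ⟨P₀ ∪ P, ?_, hcon.le.trans ?_⟩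
      · have := card_union_le P₀ P
        omega
      · have h1 : vcl v (Gf v p (l + 2) A z ∪ P) ⊆ vcl v (A ∪ (P₀ ∪ P)) := by
          apply vcl_subset_of_subset
          apply union_subset
          · calc Gf v p (l + 2) A z ⊆ vcl v (Gf v p (l + 2) A z) := subset_vcl v _
              _ = vcl v (A ∪ P₀) := hP₀v.symm
              _ ⊆ vcl v (A ∪ (P₀ ∪ P)) := vcl_mono (union_subset_union_right subset_union_left)
          · exact (subset_union_right.trans subset_union_right).trans (subset_vcl v _)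
        exact_mod_cast card_le_card h1
    · have e1 : Bad A = ∅ := by
        rw [hBad]
        exact if_neg hc
      rw [e1, card_empty, Nat.cast_zero]
      positivity
  have hpx := px_le v hN hσβ hMN hM8 hκ hMκ (by positivity : 0 ≤ κ * ρ / 64) Bad hBadc l
  have hav := avg_le v hN hσβ hMN hθ' hMθ'
    (fun t e => Ex v p.β p.σ e (t + k) ∧ OK v p.β p.σ (Y e t)) (fun t e h => h.2)
    (fun t t' e h h' => by have := h.1.unique h'.1; omega) (es + j) (l + 2)
  have hkey : ∀ t ∈ range M, PP (fun e : Fin N ≃ α => BBe v p k t e z ∧ RichE v p θ l es t e z) ≤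
      if l + 2 ≤ t then
        PP (fun e : Fin N ≃ α => OK v p.β p.σ (Y e t) ∧ κ * N ≤ ((vcl v (Y e t)).card : ℝ) ∧
          ∃ x y, At e (t - l - 2) x ∧ At e (t - l - 1) y ∧ (x, y) ∈ Bad (Y e (t - l - 2))) +
        PP (fun e : Fin N ≃ α => (Ex v p.β p.σ e (t + k) ∧ OK v p.β p.σ (Y e t)) ∧
          Dle v θ' (es + j) (Y e (t - (l + 2)))) else 0 := by
    intro t _
    split_ifs with ht
    · refine (PP_mono ?_).trans (PP_or_le _ _)
      rintro e ⟨⟨hEx, hon, hz⟩, x, y, hx, hy, hxy, her⟩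
      by_cases hD : Dle v θ' (es + j) (Y e (t - (l + 2)))
      · exact Or.inr ⟨⟨hEx, hon.1⟩, hD⟩
      · left
        refine ⟨hon.1, ?_, x, y, hx, hy, ?_⟩
        · rw [← hNc, ← hpκ]
          refine hon.2.1.trans ?_
          have : nt v p.β (Y e t) ⊆ vcl v (Y e t) := fun g hg => (mem_nt.1 hg).1
          exact_mod_cast card_le_card this
        · have h2 : t - l - 2 = t - (l + 2) := by omega
          have e1 : Bad (Y e (t - l - 2)) = rich v θ (Gf v p (l + 2) (Y e (t - l - 2)) z) := by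
            rw [hBad]
            refine if_pos ⟨her, ?_⟩
            rw [h2]
            exact hD
          rw [e1]
          exact hxy
    · have h0 : PP (fun e : Fin N ≃ α => BBe v p k t e z ∧ RichE v p θ l es t e z) =
          EE (fun _ : Fin N ≃ α => (0 : ℝ)) := by
        unfold PP
        refine EE_congr fun e => ind_not_of ?_
        rintro ⟨⟨_, hMM⟩, _⟩
        have := beta_le_of_MMe hMM
        omega
      rw [h0, EE_const hN]
  refine (sum_le_sum hkey).trans ?_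
  rw [← sum_filter]
  have hsub : (range M).filter (fun t => l + 2 ≤ t) ⊆ Icc (l + 2) M := by
    intro t ht
    rw [mem_filter, mem_range] at ht
    rw [mem_Icc]
    omega
  refine (sum_le_sum_of_subset_of_nonneg hsub fun t _ _ => add_nonneg (PP_nonneg _) (PP_nonneg _)).trans ?_
  rw [sum_add_distrib]
  refine (add_le_add hpx hav).trans ?_
  have h5 : 16 * (κ * ρ / 64) / κ = ρ / 4 := by
    field_simp
    norm_num
  have h6 : (2 * ((es + j : ℕ) : ℝ) + 4) / (θ' * (((l + 2 : ℕ) : ℝ) + 1)) ≤ ρ / 2 := by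
    rw [div_le_iff₀ (by positivity)]
    rw [div_le_iff₀ (by positivity)] at hl₂
    have h7 : (l₂ : ℝ) ≤ l := by exact_mod_cast hl
    have h8 : (l₂ : ℝ) * (ρ * θ') ≤ l * (ρ * θ') := mul_le_mul_of_nonneg_right h7 (by positivity)
    have h9 : 0 < ρ * θ' := by positivity
    push_cast
    nlinarith
  linarith

end Pool.Agent.Lib.P0fc
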