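import Mathlib
import Pool.Agent.Lib.P0fc.Barrier
import Pool.Agent.Lib.P0fc.Pigeon
import Pool.Agent.Lib.P0fc.PosMass
import Pool.Agent.Lib.P0fc.RichUp

/-!
# Theorem II: no intermediate mass

`δ` from `barrier ε`.  Given `κ, η, k` put `ρ₀ = κ η`.
* `l₀, es` from `barrier` with `ρ = ρ₀/8`; `c = (ε/(es+1))²`, `θ = c/2`;
* `l₂` from `rich_up κ (c ρ₀/32) θ es`;
* `ρ₂ = min (ε ρ₀/64) (c ρ₀/32)`; `lm, ξ₁, ν₁` from `pigeon ε κ ρ₂ es (max l₀ l₂)`;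
* `ξ₂, ν₂` from `barrier` for this `lm`; `ξ = min (1/2) (min ξ₁ ξ₂)`;
* for every `l ≤ lm`: `μ_l, ν_l` from `pos_mass κ ξ (ρ₀/16) l`; `μ` = the minimum of the `μ_l` (the event
  is monotone in `μ`), and `ν_l'` from `rich_up` for `l₂ ≤ l ≤ lm`;
* `ν₀` = the minimum of all the `ν`'s and of the numbers required by `hν`, `hν'` of `kill_avg` for `l ≤ lm`.
Suppose the sum `Σ` is `> η` for some system.  With `p = ⟨β, σ, κ, δ, ξ⟩`:
`mass BBe = ∑_t EE (ind (Ex (t+k) ∧ on (Y e t)) |nt (Y e t)|/N) ≥ κ Σ > ρ₀` (`Ex (t+k)` implies `OK (Y e t)`).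
`pigeon` gives `l` with `max l₀ l₂ ≤ l ≤ lm`; `kill_avg` gives `c ρ₀/16 ≤ mass (BBe ∧ RichE)`, and `rich_up`
gives `≤ c ρ₀/32`: a contradiction.
-/

namespace Pool.Agent.Lib.P0fc

open Finset Pool.Agent.Lib.P0fb

/-- finitely many positive bounds have a positive common lower bound -/
private theorem TheoremIIAux_inf (f : ℕ → ℝ) (hf : ∀ l, 0 < f l) (n : ℕ) :
    ∃ ν : ℝ, 0 < ν ∧ ∀ l, l ≤ n → ν ≤ f l := by
  induction n with
  | zero =>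
    refine ⟨f 0, hf 0, fun l hl => ?_⟩
    have : l = 0 := by omega
    rw [this]
  | succ n ih =>
    obtain ⟨ν, hν, h⟩ := ih
    refine ⟨min ν (f (n + 1)), lt_min hν (hf _), fun l hl => ?_⟩
    rcases Nat.lt_or_ge n l with h1 | h1
    · have : l = n + 1 := by omega
      rw [this]
      exact min_le_right _ _
    · exact (min_le_left _ _).trans (h l h1)

/-- the mass of `BBe` -/
private theorem TheoremIIAux_mass {α : Type} [Fintype α] [DecidableEq α] {E : Type}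
    [AddCommGroup E] [Module ℝ E] (v : α → E) (p : Pm) (N M k : ℕ)
    (hα : 0 < Fintype.card α) :
    p.κ * ∑ t ∈ range M, PP (fun e : Fin N ≃ α => Ex v p.β p.σ e (t + k) ∧
        p.κ * (Fintype.card α : ℝ) ≤ ((nt v p.β (Y e t)).card : ℝ) ∧
        ((nt v p.β (Y e t)).card : ℝ) ≤ p.δ * (Fintype.card α : ℝ)) ≤
      mass M (fun t (e : Fin N ≃ α) z => BBe v p k t e z) := by
  unfold mass
  rw [mul_sum]
  refine sum_le_sum fun t _ => ?_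
  have hα' : (0 : ℝ) < Fintype.card α := by exact_mod_cast hα
  rw [le_div_iff₀ hα']
  have h1 : ∑ z : α, PP (fun e : Fin N ≃ α => BBe v p k t e z) =
      EE (fun e : Fin N ≃ α => ∑ z : α, ind (BBe v p k t e z)) := by
    rw [EE_sum]
    rfl
  rw [h1]
  have h2 : p.κ * PP (fun e : Fin N ≃ α => Ex v p.β p.σ e (t + k) ∧
        p.κ * (Fintype.card α : ℝ) ≤ ((nt v p.β (Y e t)).card : ℝ) ∧
        ((nt v p.β (Y e t)).card : ℝ) ≤ p.δ * (Fintype.card α : ℝ)) * (Fintype.card α : ℝ) =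
      EE (fun e : Fin N ≃ α => (p.κ * (Fintype.card α : ℝ)) * ind (Ex v p.β p.σ e (t + k) ∧
        p.κ * (Fintype.card α : ℝ) ≤ ((nt v p.β (Y e t)).card : ℝ) ∧
        ((nt v p.β (Y e t)).card : ℝ) ≤ p.δ * (Fintype.card α : ℝ))) := by
    rw [EE_mul_left]
    unfold PP
    ring
  rw [h2]
  refine EE_mono fun e => ?_
  by_cases h : Ex v p.β p.σ e (t + k) ∧
        p.κ * (Fintype.card α : ℝ) ≤ ((nt v p.β (Y e t)).card : ℝ) ∧
        ((nt v p.β (Y e t)).card : ℝ) ≤ p.δ * (Fintype.card α : ℝ)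
  · rw [ind_of h, mul_one]
    refine h.2.1.trans ?_
    have hOK : OK v p.β p.σ (Y e t) := OK_anti (Y_mono e (Nat.le_add_right t k)) h.1.1
    have h3 : ((nt v p.β (Y e t)).card : ℝ) =
        ∑ z ∈ nt v p.β (Y e t), ind (BBe v p k t e z) := by
      have h4 : ∀ z ∈ nt v p.β (Y e t), ind (BBe v p k t e z) = 1 := fun z hz =>
        ind_of ⟨h.1, ⟨hOK, h.2.1, h.2.2⟩, hz⟩
      rw [sum_congr rfl h4, sum_const, nsmul_eq_mul, mul_one]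
    rw [h3]
    exact sum_le_univ_sum_of_nonneg fun z => ind_nonneg _
  · rw [ind_not_of h, mul_zero]
    exact sum_nonneg fun z _ => ind_nonneg _

theorem theoremII (ε : ℝ) (hε : 0 < ε) (hε1 : ε ≤ 1) : ∃ δ : ℝ, 0 < δ ∧
    ∀ κ η : ℝ, 0 < κ → κ ≤ 1 → 0 < η → ∀ k : ℕ, ∃ ν₀ : ℝ, 0 < ν₀ ∧
    ∀ (α : Type) [Fintype α] [DecidableEq α] (E : Type) [AddCommGroup E] [Module ℝ E]
      (v : α → E) (N M M₂ β σ : ℕ) (ν : ℝ), ν ≤ ν₀ → Good v N M M₂ β σ ε ν →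
      ∑ t ∈ range M, PP (fun e : Fin N ≃ α => Ex v β σ e (t + k) ∧
        κ * (Fintype.card α : ℝ) ≤ ((nt v β (Y e t)).card : ℝ) ∧
        ((nt v β (Y e t)).card : ℝ) ≤ δ * (Fintype.card α : ℝ)) ≤ η := by
  obtain ⟨δ, hδ, _, hbar⟩ := barrier ε hε hε1
  refine ⟨δ, hδ, fun κ η hκ hκ1 hη k => ?_⟩
  obtain ⟨ρ₀, hρ₀e⟩ : ∃ ρ₀ : ℝ, ρ₀ = κ * η := ⟨_, rfl⟩
  have hρ₀ : 0 < ρ₀ := by rw [hρ₀e]; exact mul_pos hκ hη
  obtain ⟨l₀, es, hbar2⟩ := hbar κ (ρ₀ / 8) hκ hκ1 (by linarith)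
  obtain ⟨c, hc⟩ : ∃ c : ℝ, c = (ε / (es + 1)) ^ 2 := ⟨_, rfl⟩
  have hes : (0 : ℝ) < (es : ℝ) + 1 := by positivity
  have hc0 : 0 < c := by rw [hc]; positivity
  obtain ⟨l₂, hrich⟩ := rich_up κ (c * ρ₀ / 32) (c / 2) hκ hκ1 (by positivity) (by positivity) es
  obtain ⟨ρ₂, hρ₂, h2, h2'⟩ : ∃ ρ₂ : ℝ, 0 < ρ₂ ∧ 64 * ρ₂ ≤ ε * ρ₀ ∧ 32 * ρ₂ ≤ c * ρ₀ := by
    refine ⟨min (ε * ρ₀ / 64) (c * ρ₀ / 32), lt_min (by positivity) (by positivity), ?_, ?_⟩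
    · have := min_le_left (ε * ρ₀ / 64) (c * ρ₀ / 32)
      linarith
    · have := min_le_right (ε * ρ₀ / 64) (c * ρ₀ / 32)
      linarith
  obtain ⟨lm, ξ₁, ν₁, hξ₁, hν₁, hpig⟩ := pigeon ε κ ρ₂ hε hε1 hκ hκ1 hρ₂ es (max l₀ l₂)
  obtain ⟨ξ₂, ν₂, hξ₂, hν₂, hbar3⟩ := hbar2 lm
  obtain ⟨ξ, hξ, hξh, hξ1, hξ2⟩ : ∃ ξ : ℝ, 0 < ξ ∧ ξ ≤ 1 / 2 ∧ ξ ≤ ξ₁ ∧ ξ ≤ ξ₂ :=
    ⟨min (1 / 2) (min ξ₁ ξ₂), lt_min (by norm_num) (lt_min hξ₁ hξ₂), min_le_left _ _,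
      (min_le_right _ _).trans (min_le_left _ _), (min_le_right _ _).trans (min_le_right _ _)⟩
  have hpos := fun l : ℕ => pos_mass κ ξ (ρ₀ / 16) hκ hκ1 hξ hξh (by positivity) l
  choose μ νp hμ hνp hpos' using hpos
  have hr : ∀ l : ℕ, ∃ νr : ℝ, 0 < νr ∧ (l₂ ≤ l → ∀ (α : Type) [Fintype α] [DecidableEq α]
      (E : Type) [AddCommGroup E] [Module ℝ E]
      (v : α → E) (p : Pm) (N M M₂ k : ℕ) (ε ν : ℝ), p.κ = κ → ν ≤ νr →
      Good v N M M₂ p.β p.σ ε ν →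
      mass M (fun t (e : Fin N ≃ α) z => BBe v p k t e z ∧ RichE v p (c / 2) l es t e z) ≤
        c * ρ₀ / 32) := by
    intro l
    by_cases hl : l₂ ≤ l
    · obtain ⟨νr, h1, h2⟩ := hrich l hl
      exact ⟨νr, h1, fun _ => h2⟩
    · exact ⟨1, one_pos, fun h => absurd h hl⟩
  choose νr hνr hrich' using hr
  have hf : ∀ l : ℕ, ∃ x : ℝ, 0 < x ∧ x ≤ νp l ∧ x ≤ νr l ∧
      256 * ((es : ℝ) + 1) ^ 2 * x ≤ ρ₀ * (κ * μ l ^ (es + 1)) ∧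
      x * (l + 3 + 8 * es + 8 / c) ≤ 1 := by
    intro l
    have hμl := hμ l
    have hA : 0 < ρ₀ * (κ * μ l ^ (es + 1)) := by positivity
    have hB : (0 : ℝ) < 256 * ((es : ℝ) + 1) ^ 2 := by positivity
    have hC : (0 : ℝ) < l + 3 + 8 * es + 8 / c := by positivity
    refine ⟨min (min (νp l) (νr l)) (min (ρ₀ * (κ * μ l ^ (es + 1)) / (256 * ((es : ℝ) + 1) ^ 2))
      (1 / (l + 3 + 8 * es + 8 / c))), ?_, ?_, ?_, ?_, ?_⟩
    · exact lt_min (lt_min (hνp l) (hνr l)) (lt_min (div_pos hA hB) (one_div_pos.2 hC))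
    · exact (min_le_left _ _).trans (min_le_left _ _)
    · exact (min_le_left _ _).trans (min_le_right _ _)
    · rw [← le_div_iff₀' hB]
      exact (min_le_right _ _).trans (min_le_left _ _)
    · rw [← le_div_iff₀ hC]
      exact (min_le_right _ _).trans (min_le_right _ _)
  choose f hf0 hf1 hf2 hf3 hf4 using hf
  obtain ⟨ν₃, hν₃, hν₃'⟩ := TheoremIIAux_inf f hf0 lm
  refine ⟨min ν₃ (min ν₁ ν₂), lt_min hν₃ (lt_min hν₁ hν₂), ?_⟩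
  intro α _ _ E _ _ v N M M₂ β σ ν hν hG
  by_contra hcon
  rw [not_le] at hcon
  have hn3 : ν ≤ ν₃ := hν.trans (min_le_left _ _)
  have hn1 : ν ≤ ν₁ := hν.trans ((min_le_right _ _).trans (min_le_left _ _))
  have hn2 : ν ≤ ν₂ := hν.trans ((min_le_right _ _).trans (min_le_right _ _))
  have hα : 0 < Fintype.card α := by
    rw [hG.card]
    have := hG.M8.2
    omega
  obtain ⟨p, hp⟩ : ∃ p : Pm, p = ⟨β, σ, κ, δ, ξ⟩ := ⟨_, rfl⟩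
  have hpβ : p.β = β := by rw [hp]
  have hpσ : p.σ = σ := by rw [hp]
  have hpκ : p.κ = κ := by rw [hp]
  have hpδ : p.δ = δ := by rw [hp]
  have hpξ : p.ξ = ξ := by rw [hp]
  have hG' : Good v N M M₂ p.β p.σ ε ν := by rw [hpβ, hpσ]; exact hG
  have hB : ρ₀ ≤ mass M (fun t (e : Fin N ≃ α) z => BBe v p k t e z) := by
    have h := TheoremIIAux_mass v p N M k hα
    rw [hpβ, hpσ, hpκ, hpδ] at h
    refine le_trans ?_ h
    rw [hρ₀e]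
    exact mul_le_mul_of_nonneg_left hcon.le hκ.le
  obtain ⟨l, hl1, hl2, h1, h1'⟩ := hpig α E v p N M M₂ ν hpκ (by rw [hpξ]; exact hξ)
    (by rw [hpξ]; exact hξ1) hn1 hG'
  have hlm : l ≤ lm := by omega
  have hl0 : l₀ ≤ l := (le_max_left _ _).trans hl1
  have hl2' : l₂ ≤ l := (le_max_right _ _).trans hl1
  have hfl : ν ≤ f l := hn3.trans (hν₃' l hlm)
  have hrr := hbar3 α E v p N M M₂ ν hpκ hpδ (by rw [hpξ]; exact hξ)
    (by rw [hpξ]; exact hξ2) hn2 hG' l hl0 hlm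
  have hm := hpos' l α E v p N M M₂ ε ν hpκ hpξ (hfl.trans (hf1 l)) hG'
  have hu := hrich' l hl2' α E v p N M M₂ k ε ν hpκ (hfl.trans (hf2 l)) hG'
  have hlow := kill_avg ε κ ρ₀ ρ₂ (μ l) c ν hε hε1 hκ hκ1 hρ₀ (hμ l) es l k hc h2 h2'
    ((mul_le_mul_of_nonneg_left hfl (by positivity)).trans (hf3 l))
    ((mul_le_mul_of_nonneg_right hfl (by positivity)).trans (hf4 l))
    v p N M M₂ hpκ hG' hB hrr h1 h1' hm
  have hcρ : 0 < c * ρ₀ := mul_pos hc0 hρ₀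
  linarith

end Pool.Agent.Lib.P0fc
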