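import Mathlib
import Pool.Agent.Lib.P0fc.LineFam

/-!
# Few light lines split a ball

`N = |X|`.  (i) For `q, q' ∈ C`: `sep q q' ≤ 2 (η + κ) N²`: if a light line through `a, b` (`P a ≠ P b`,
`|Ln P a b| < D`) strictly separates `q` and `q'`, then it strictly separates `p₀` and `q`, or `p₀` and `q'`,
or `cr (P a) (P b) (P p₀) = 0`.  In the last case one of `a`, `b` is not in the position of `p₀`, say `a` (then
`Ln P a b = Ln P p₀ a` by `Ln_eq`): there are at most `N` such `a`, and less than `D` values of `b` for each; the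
same for `b`: at most `2 N D ≤ 2 κ N²` pairs in total.
(ii) A pair `(a, b)` in the set on the left strictly separates at least `2 (ρ |C|)²` ordered pairs
`(q, q') ∈ C × C`.  So `# * 2 ρ² |C|² ≤ ∑_{q,q' ∈ C} sep q q' ≤ |C|² * 2 (η + κ) N²`; divide by `2 |C|² > 0`.
-/

namespace Pool.Agent.Lib.P0fc

open Finset

open Classical in
/-- the pairs that span a light line with at least `ρ |C|` points of `C` strictly on each side -/
noncomputable def balP {X : Type} [Fintype X] (P : X → ℝ × ℝ) (D : ℕ) (C : Finset X) (ρ : ℝ) :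
    Finset (X × X) :=
  univ.filter (fun ab => P ab.1 ≠ P ab.2 ∧ (Ln P ab.1 ab.2).card < D ∧
    ρ * (C.card : ℝ) ≤ ((C.filter (fun q => 0 < cr (P ab.1) (P ab.2) (P q))).card : ℝ) ∧
    ρ * (C.card : ℝ) ≤ ((C.filter (fun q => cr (P ab.1) (P ab.2) (P q) < 0)).card : ℝ))


namespace PlaneAAux

open Classical in
theorem Zcard {X : Type} [Fintype X] (P : X → ℝ × ℝ) (D : ℕ) (p₀ : X) :
    ((univ : Finset (X × X)).filter (fun ab => P ab.1 ≠ P ab.2 ∧ (Ln P ab.1 ab.2).card < D ∧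
      cr (P ab.1) (P ab.2) (P p₀) = 0)).card ≤ 2 * (Fintype.card X * D) := by
  set A : Finset X := univ.filter (fun a => (Ln P p₀ a).card < D) with hA
  set Z1 : Finset (X × X) := A.biUnion (fun a => (Ln P p₀ a).image (fun b => (a, b))) with hZ1
  set Z2 : Finset (X × X) := A.biUnion (fun a => (Ln P p₀ a).image (fun b => (b, a))) with hZ2
  have hAc : A.card ≤ Fintype.card X := Finset.card_le_univ A
  have h1 : Z1.card ≤ Fintype.card X * D := by
    refine (Finset.card_biUnion_le_card_mul _ _ D ?_).trans (Nat.mul_le_mul_right _ hAc)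
    intro a ha
    rw [hA, Finset.mem_filter] at ha
    exact Finset.card_image_le.trans ha.2.le
  have h2 : Z2.card ≤ Fintype.card X * D := by
    refine (Finset.card_biUnion_le_card_mul _ _ D ?_).trans (Nat.mul_le_mul_right _ hAc)
    intro a ha
    rw [hA, Finset.mem_filter] at ha
    exact Finset.card_image_le.trans ha.2.le
  have hsub : (univ : Finset (X × X)).filter (fun ab => P ab.1 ≠ P ab.2 ∧
      (Ln P ab.1 ab.2).card < D ∧ cr (P ab.1) (P ab.2) (P p₀) = 0) ⊆ Z1 ∪ Z2 := by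
    rintro ⟨a, b⟩ hab
    rw [Finset.mem_filter] at hab
    obtain ⟨-, hne, hlt, hcr⟩ := hab
    have hne' : P a ≠ P b := hne
    have hlt' : (Ln P a b).card < D := hlt
    have hp : p₀ ∈ Ln P a b := by
      unfold Ln
      rw [Finset.mem_filter]
      exact ⟨Finset.mem_univ _, hcr⟩
    have hmem := left_mem_Ln P a b
    by_cases ha : P p₀ = P a
    · have hb : P p₀ ≠ P b := by rw [ha]; exact hne'
      have heq := Ln_eq hne' hp hmem.2 hb
      refine Finset.mem_union_right _ (Finset.mem_biUnion.2 ⟨b, ?_, ?_⟩)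
      · rw [hA, Finset.mem_filter, heq]
        exact ⟨Finset.mem_univ _, hlt'⟩
      · rw [heq]
        exact Finset.mem_image.2 ⟨a, hmem.1, rfl⟩
    · have heq := Ln_eq hne' hp hmem.1 ha
      refine Finset.mem_union_left _ (Finset.mem_biUnion.2 ⟨a, ?_, ?_⟩)
      · rw [hA, Finset.mem_filter, heq]
        exact ⟨Finset.mem_univ _, hlt'⟩
      · rw [heq]
        exact Finset.mem_image.2 ⟨b, hmem.2, rfl⟩
  calc _ ≤ (Z1 ∪ Z2).card := Finset.card_le_card hsub
    _ ≤ Z1.card + Z2.card := Finset.card_union_le _ _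
    _ ≤ Fintype.card X * D + Fintype.card X * D := Nat.add_le_add h1 h2
    _ = 2 * (Fintype.card X * D) := by ring

open Classical in
theorem sep_le {X : Type} [Fintype X] (P : X → ℝ × ℝ) (D : ℕ) (p₀ q q' : X) :
    sep P D q q' ≤ sep P D p₀ q + sep P D p₀ q' + 2 * (Fintype.card X * D) := by
  have hsub : (univ : Finset (X × X)).filter (fun ab => P ab.1 ≠ P ab.2 ∧
      (Ln P ab.1 ab.2).card < D ∧ cr (P ab.1) (P ab.2) (P q) * cr (P ab.1) (P ab.2) (P q') < 0) ⊆
      ((univ : Finset (X × X)).filter (fun ab => P ab.1 ≠ P ab.2 ∧ (Ln P ab.1 ab.2).card < D ∧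
        cr (P ab.1) (P ab.2) (P p₀) * cr (P ab.1) (P ab.2) (P q) < 0) ∪
      (univ : Finset (X × X)).filter (fun ab => P ab.1 ≠ P ab.2 ∧ (Ln P ab.1 ab.2).card < D ∧
        cr (P ab.1) (P ab.2) (P p₀) * cr (P ab.1) (P ab.2) (P q') < 0)) ∪
      (univ : Finset (X × X)).filter (fun ab => P ab.1 ≠ P ab.2 ∧ (Ln P ab.1 ab.2).card < D ∧
        cr (P ab.1) (P ab.2) (P p₀) = 0) := by
    intro ab hab
    rw [Finset.mem_filter] at hab
    obtain ⟨-, hne, hlt, hcr⟩ := hab
    by_cases h0 : cr (P ab.1) (P ab.2) (P p₀) = 0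
    · exact Finset.mem_union_right _ (Finset.mem_filter.2 ⟨Finset.mem_univ _, hne, hlt, h0⟩)
    · refine Finset.mem_union_left _ ?_
      by_cases h1 : cr (P ab.1) (P ab.2) (P p₀) * cr (P ab.1) (P ab.2) (P q) < 0
      · exact Finset.mem_union_left _ (Finset.mem_filter.2 ⟨Finset.mem_univ _, hne, hlt, h1⟩)
      · refine Finset.mem_union_right _ (Finset.mem_filter.2 ⟨Finset.mem_univ _, hne, hlt, ?_⟩)
        rw [not_lt] at h1
        set c := cr (P ab.1) (P ab.2) (P p₀)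
        set s := cr (P ab.1) (P ab.2) (P q)
        set t := cr (P ab.1) (P ab.2) (P q')
        have hs0 : s ≠ 0 := by
          intro hs
          rw [hs, zero_mul] at hcr
          exact lt_irrefl _ hcr
        have hcs : 0 < c * s := lt_of_le_of_ne h1 (mul_ne_zero h0 hs0).symm
        have hss : 0 < s ^ 2 := by positivity
        have h2 : (c * s) * (s * t) < 0 := mul_neg_of_pos_of_neg hcs hcr
        have h3 : (c * t) * s ^ 2 < 0 := by
          calc (c * t) * s ^ 2 = (c * s) * (s * t) := by ring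
            _ < 0 := h2
        by_contra h4
        rw [not_lt] at h4
        have := mul_nonneg h4 hss.le
        linarith
  calc sep P D q q' ≤ _ := Finset.card_le_card hsub
    _ ≤ _ := Finset.card_union_le _ _
    _ ≤ (sep P D p₀ q + sep P D p₀ q') + 2 * (Fintype.card X * D) :=
        Nat.add_le_add (Finset.card_union_le _ _) (Zcard P D p₀)

open Classical in
theorem pairs_ge {X : Type} (C : Finset X) (f : X → ℝ) :
    2 * ((C.filter (fun q => 0 < f q)).card * (C.filter (fun q => f q < 0)).card) ≤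
      ((C ×ˢ C).filter (fun qq => f qq.1 * f qq.2 < 0)).card := by
  set A := C.filter (fun q => 0 < f q) with hA
  set B := C.filter (fun q => f q < 0) with hB
  have hsub : (A ×ˢ B) ∪ (B ×ˢ A) ⊆ (C ×ˢ C).filter (fun qq => f qq.1 * f qq.2 < 0) := by
    intro x hx
    rcases Finset.mem_union.1 hx with hx | hx
    · obtain ⟨h1, h2⟩ := Finset.mem_product.1 hx
      rw [hA, Finset.mem_filter] at h1
      rw [hB, Finset.mem_filter] at h2
      exact Finset.mem_filter.2 ⟨Finset.mem_product.2 ⟨h1.1, h2.1⟩,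
        mul_neg_of_pos_of_neg h1.2 h2.2⟩
    · obtain ⟨h1, h2⟩ := Finset.mem_product.1 hx
      rw [hB, Finset.mem_filter] at h1
      rw [hA, Finset.mem_filter] at h2
      exact Finset.mem_filter.2 ⟨Finset.mem_product.2 ⟨h1.1, h2.1⟩,
        mul_neg_of_neg_of_pos h1.2 h2.2⟩
  have hdisj : Disjoint (A ×ˢ B) (B ×ˢ A) := by
    rw [Finset.disjoint_left]
    intro x hx hx'
    have h1 := (Finset.mem_product.1 hx).1
    have h2 := (Finset.mem_product.1 hx').1
    rw [hA, Finset.mem_filter] at h1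
    rw [hB, Finset.mem_filter] at h2
    exact lt_asymm h1.2 h2.2
  calc 2 * (A.card * B.card) = ((A ×ˢ B) ∪ (B ×ˢ A)).card := by
        rw [Finset.card_union_of_disjoint hdisj, Finset.card_product, Finset.card_product]
        ring
    _ ≤ _ := Finset.card_le_card hsub

open Classical in
theorem double {X : Type} [Fintype X] (P : X → ℝ × ℝ) (D : ℕ) (C : Finset X) (ρ : ℝ) :
    ∑ ab ∈ balP P D C ρ, ((C ×ˢ C).filter (fun qq =>
      cr (P ab.1) (P ab.2) (P qq.1) * cr (P ab.1) (P ab.2) (P qq.2) < 0)).card ≤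
      ∑ qq ∈ C ×ˢ C, sep P D qq.1 qq.2 := by
  have h1 : ∑ ab ∈ balP P D C ρ, ((C ×ˢ C).filter (fun qq =>
      cr (P ab.1) (P ab.2) (P qq.1) * cr (P ab.1) (P ab.2) (P qq.2) < 0)).card =
      ∑ qq ∈ C ×ˢ C, ((balP P D C ρ).filter (fun ab =>
        cr (P ab.1) (P ab.2) (P qq.1) * cr (P ab.1) (P ab.2) (P qq.2) < 0)).card := by
    simp only [Finset.card_filter]
    exact Finset.sum_comm
  rw [h1]
  refine Finset.sum_le_sum ?_
  intro qq _
  refine Finset.card_le_card ?_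
  intro ab hab
  rw [Finset.mem_filter] at hab
  obtain ⟨h2, h3⟩ := hab
  unfold balP at h2
  rw [Finset.mem_filter] at h2
  exact Finset.mem_filter.2 ⟨Finset.mem_univ _, h2.2.1, h2.2.2.1, h3⟩

end PlaneAAux

theorem planeA {X : Type} [Fintype X] (P : X → ℝ × ℝ) (D : ℕ) {C : Finset X} (hC0 : C.Nonempty)
    (p₀ : X) {η κ ρ : ℝ} (hρ : 0 ≤ ρ)
    (hC : ∀ q ∈ C, (sep P D p₀ q : ℝ) ≤ η * (Fintype.card X : ℝ) ^ 2)
    (hD : (D : ℝ) ≤ κ * (Fintype.card X : ℝ)) :
    ρ ^ 2 * ((balP P D C ρ).card : ℝ) ≤ (η + κ) * (Fintype.card X : ℝ) ^ 2 := by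
  set N : ℝ := (Fintype.card X : ℝ) with hN
  have hN0 : 0 ≤ N := Nat.cast_nonneg _
  have hCpos : (0 : ℝ) < C.card := by exact_mod_cast Finset.card_pos.2 hC0
  -- upper bound
  have hup : ∀ qq ∈ C ×ˢ C, (sep P D qq.1 qq.2 : ℝ) ≤ 2 * (η + κ) * N ^ 2 := by
    intro qq hqq
    obtain ⟨h1, h2⟩ := Finset.mem_product.1 hqq
    have h3 := PlaneAAux.sep_le P D p₀ qq.1 qq.2
    have h4 : (sep P D qq.1 qq.2 : ℝ) ≤
        (sep P D p₀ qq.1 : ℝ) + (sep P D p₀ qq.2 : ℝ) + 2 * (N * (D : ℝ)) := by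
      rw [hN]
      exact_mod_cast h3
    have h5 := hC _ h1
    have h6 := hC _ h2
    have h7 : N * (D : ℝ) ≤ N * (κ * N) := mul_le_mul_of_nonneg_left hD hN0
    calc (sep P D qq.1 qq.2 : ℝ) ≤ η * N ^ 2 + η * N ^ 2 + 2 * (N * (κ * N)) := by linarith
      _ = 2 * (η + κ) * N ^ 2 := by ring
  have hsum : ∑ qq ∈ C ×ˢ C, (sep P D qq.1 qq.2 : ℝ) ≤
      (C.card : ℝ) ^ 2 * (2 * (η + κ) * N ^ 2) := by
    calc ∑ qq ∈ C ×ˢ C, (sep P D qq.1 qq.2 : ℝ) ≤ ∑ _qq ∈ C ×ˢ C, (2 * (η + κ) * N ^ 2) :=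
          Finset.sum_le_sum hup
      _ = _ := by
          rw [Finset.sum_const, Finset.card_product, nsmul_eq_mul]
          push_cast
          ring
  -- lower bound
  have hlow : ∀ ab ∈ balP P D C ρ, 2 * (ρ * (C.card : ℝ)) ^ 2 ≤
      (((C ×ˢ C).filter (fun qq => cr (P ab.1) (P ab.2) (P qq.1) *
        cr (P ab.1) (P ab.2) (P qq.2) < 0)).card : ℝ) := by
    intro ab hab
    unfold balP at hab
    rw [Finset.mem_filter] at hab
    obtain ⟨-, -, -, h1, h2⟩ := hab
    have h3 := PlaneAAux.pairs_ge C (fun q => cr (P ab.1) (P ab.2) (P q))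
    have h4 : 2 * (((C.filter (fun q => 0 < cr (P ab.1) (P ab.2) (P q))).card : ℝ) *
        ((C.filter (fun q => cr (P ab.1) (P ab.2) (P q) < 0)).card : ℝ)) ≤
        (((C ×ˢ C).filter (fun qq => cr (P ab.1) (P ab.2) (P qq.1) *
          cr (P ab.1) (P ab.2) (P qq.2) < 0)).card : ℝ) := by exact_mod_cast h3
    have h5 : 0 ≤ ρ * (C.card : ℝ) := mul_nonneg hρ hCpos.le
    have h6 := mul_le_mul h1 h2 h5 (h5.trans h1)
    calc 2 * (ρ * (C.card : ℝ)) ^ 2 = 2 * ((ρ * (C.card : ℝ)) * (ρ * (C.card : ℝ))) := by ring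
      _ ≤ _ := by linarith
      _ ≤ _ := h4
  have hd := PlaneAAux.double P D C ρ
  have hd' : ∑ ab ∈ balP P D C ρ, (((C ×ˢ C).filter (fun qq =>
      cr (P ab.1) (P ab.2) (P qq.1) * cr (P ab.1) (P ab.2) (P qq.2) < 0)).card : ℝ) ≤
      ∑ qq ∈ C ×ˢ C, (sep P D qq.1 qq.2 : ℝ) := by exact_mod_cast hd
  have hl : ((balP P D C ρ).card : ℝ) * (2 * (ρ * (C.card : ℝ)) ^ 2) ≤
      ∑ ab ∈ balP P D C ρ, (((C ×ˢ C).filter (fun qq =>
      cr (P ab.1) (P ab.2) (P qq.1) * cr (P ab.1) (P ab.2) (P qq.2) < 0)).card : ℝ) := by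
    calc ((balP P D C ρ).card : ℝ) * (2 * (ρ * (C.card : ℝ)) ^ 2) =
          ∑ _ab ∈ balP P D C ρ, (2 * (ρ * (C.card : ℝ)) ^ 2) := by
          rw [Finset.sum_const, nsmul_eq_mul]
      _ ≤ _ := Finset.sum_le_sum hlow
  have htot := (hl.trans hd').trans hsum
  have hC2 : (0 : ℝ) < 2 * (C.card : ℝ) ^ 2 := by positivity
  have hfin : (2 * (C.card : ℝ) ^ 2) * (ρ ^ 2 * ((balP P D C ρ).card : ℝ)) ≤
      (2 * (C.card : ℝ) ^ 2) * ((η + κ) * N ^ 2) := by
    calc _ = ((balP P D C ρ).card : ℝ) * (2 * (ρ * (C.card : ℝ)) ^ 2) := by ring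
      _ ≤ _ := htot
      _ = _ := by ring
  exact le_of_mul_le_mul_left hfin hC2

end Pool.Agent.Lib.P0fc
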