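import Mathlib
import Pool.Agent.Lib.P0fc.PlDef

/-!
# Few lines through a point cut off less than `m` points

Let `T` be the set on the left.  Count the ordered pairs `(p, q) ∈ T × T`.  If `cr (P x) (P p) (P q) = 0` then
`q ∈ Ln P x p`, a set with less than `D` elements: at most `|T| D` pairs.  If it is not `0`, then exactly one of
`cr (P x) (P p) (P q)`, `cr (P x) (P q) (P p)` is positive (they are opposite), and for fixed `p ∈ T` less than
`m` points `q` have `cr (P x) (P p) (P q) > 0`: at most `2 m |T|` pairs.  So `|T|² ≤ |T| (2 m + D)`.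
The second statement is the same with the other sign.
-/

namespace Pool.Agent.Lib.P0fc

open Finset

namespace TournAux

theorem cr_swap (a b c : ℝ × ℝ) : cr a c b = - cr a b c := by
  unfold cr
  ring

theorem cr_refl (a b c : ℝ × ℝ) : cr (a.2, a.1) (b.2, b.1) (c.2, c.1) = - cr a b c := by
  unfold cr
  ring

open Classical in
theorem count {X : Type} (T : Finset X) (f : X → X → ℝ) (hf : ∀ p q, f q p = - f p q) {D m : ℝ}
    (h0 : ∀ p ∈ T, ((T.filter (fun q => f p q = 0)).card : ℝ) ≤ D)
    (h1 : ∀ p ∈ T, ((T.filter (fun q => 0 < f p q)).card : ℝ) ≤ m) :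
    (T.card : ℝ) * T.card ≤ T.card * (2 * m + D) := by
  have hneg : ∑ p ∈ T, ((T.filter (fun q => f p q < 0)).card : ℝ) =
      ∑ p ∈ T, ((T.filter (fun q => 0 < f p q)).card : ℝ) := by
    simp_rw [Finset.card_filter, Nat.cast_sum]
    rw [Finset.sum_comm]
    refine Finset.sum_congr rfl fun p _ => Finset.sum_congr rfl fun q _ => ?_
    rw [hf p q]
    simp only [Left.neg_neg_iff]
  have hsplit : ∀ p, (T.card : ℝ) ≤ (T.filter (fun q => f p q = 0)).card +
      (T.filter (fun q => 0 < f p q)).card + (T.filter (fun q => f p q < 0)).card := by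
    intro p
    have h : T ⊆ T.filter (fun q => f p q = 0) ∪ T.filter (fun q => 0 < f p q) ∪
        T.filter (fun q => f p q < 0) := by
      intro q hq
      simp only [Finset.mem_union, Finset.mem_filter]
      rcases lt_trichotomy (f p q) 0 with h | h | h
      · exact Or.inr ⟨hq, h⟩
      · exact Or.inl (Or.inl ⟨hq, h⟩)
      · exact Or.inl (Or.inr ⟨hq, h⟩)
    have h2 := (Finset.card_le_card h).trans ((Finset.card_union_le _ _).trans
      (Nat.add_le_add_right (Finset.card_union_le _ _) _))
    exact_mod_cast h2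
  calc (T.card : ℝ) * T.card = ∑ p ∈ T, (T.card : ℝ) := by
        rw [Finset.sum_const, nsmul_eq_mul]
    _ ≤ ∑ p ∈ T, (((T.filter (fun q => f p q = 0)).card : ℝ) +
          (T.filter (fun q => 0 < f p q)).card + (T.filter (fun q => f p q < 0)).card) :=
        Finset.sum_le_sum fun p _ => hsplit p
    _ = ∑ p ∈ T, (((T.filter (fun q => f p q = 0)).card : ℝ) +
          2 * (T.filter (fun q => 0 < f p q)).card) := by
        rw [Finset.sum_add_distrib, Finset.sum_add_distrib, hneg, Finset.sum_add_distrib,
          ← Finset.mul_sum]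
        ring
    _ ≤ ∑ p ∈ T, (D + 2 * m) := Finset.sum_le_sum fun p hp => by
        have := h0 p hp
        have := h1 p hp
        linarith
    _ = T.card * (2 * m + D) := by
        rw [Finset.sum_const, nsmul_eq_mul]
        ring

end TournAux

open Classical in
theorem tourn {X : Type} [Fintype X] (P : X → ℝ × ℝ) (D : ℕ) (C : Finset X) (x : X) {m : ℝ}
    (hm : 0 ≤ m) :
    ((C.filter (fun p => (Ln P x p).card < D ∧
      ((C.filter (fun q => 0 < cr (P x) (P p) (P q))).card : ℝ) < m)).card : ℝ) ≤ 2 * m + D := by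
  set T := C.filter (fun p => (Ln P x p).card < D ∧
      ((C.filter (fun q => 0 < cr (P x) (P p) (P q))).card : ℝ) < m) with hT
  have hTC : T ⊆ C := Finset.filter_subset _ _
  have key := TournAux.count T (fun p q => cr (P x) (P p) (P q))
    (fun p q => TournAux.cr_swap _ _ _) (D := D) (m := m) ?_ ?_
  · rcases Nat.eq_zero_or_pos T.card with h | h
    · rw [h, Nat.cast_zero]
      positivity
    · have h2 : (0 : ℝ) < T.card := by exact_mod_cast h
      exact le_of_mul_le_mul_left key h2
  · intro p hp
    have h1 := (Finset.mem_filter.1 hp).2.1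
    have h2 : T.filter (fun q => cr (P x) (P p) (P q) = 0) ⊆ Ln P x p := by
      intro q hq
      unfold Ln
      exact Finset.mem_filter.2 ⟨Finset.mem_univ _, (Finset.mem_filter.1 hq).2⟩
    exact_mod_cast (Finset.card_le_card h2).trans h1.le
  · intro p hp
    have h1 := (Finset.mem_filter.1 hp).2.2
    refine le_trans ?_ h1.le
    exact_mod_cast Finset.card_le_card (Finset.filter_subset_filter _ hTC)

open Classical in
theorem tourn' {X : Type} [Fintype X] (P : X → ℝ × ℝ) (D : ℕ) (C : Finset X) (x : X) {m : ℝ}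
    (hm : 0 ≤ m) :
    ((C.filter (fun p => (Ln P x p).card < D ∧
      ((C.filter (fun q => cr (P x) (P p) (P q) < 0)).card : ℝ) < m)).card : ℝ) ≤ 2 * m + D := by
  have h := tourn (fun y => ((P y).2, (P y).1)) D C x hm
  have hL : ∀ p, Ln (fun y => ((P y).2, (P y).1)) x p = Ln P x p := by
    intro p
    unfold Ln
    refine Finset.filter_congr fun q _ => ?_
    rw [TournAux.cr_refl, neg_eq_zero]
  have hc : ∀ p, C.filter (fun q => 0 < cr ((P x).2, (P x).1) ((P p).2, (P p).1)
      ((P q).2, (P q).1)) = C.filter (fun q => cr (P x) (P p) (P q) < 0) := by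
    intro p
    refine Finset.filter_congr fun q _ => ?_
    rw [TournAux.cr_refl, Left.neg_pos_iff]
  simp only [hL, hc] at h
  exact h

end Pool.Agent.Lib.P0fc
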