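import Mathlib
import Pool.Agent.Lib.P0fc.Ball
import Pool.Agent.Lib.P0fc.Tourn
import Pool.Agent.Lib.P0fc.PlaneA

/-!
# Few pairs span a rich light line

WLOG `w ≤ 1` (there are at most `N²` pairs, `N = |X|`).  `η = w^4/2^28`; `s` with
`(1-η)^s ≤ 1/(16(s+1))` (exists since `(s+1)(1-η)^s → 0`); `m₀ = w/(128(s+1))`;
`κ = min (w^4/2^28) (w m₀/64)`; `K` with `32(s+1) ≤ (w/16) K`, `128/(w m₀) ≤ K`, `2 ≤ K`.
Suppose more than `w N²` pairs with `RR`.  Take `p₀` from `ball` and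
`C = {q ∈ Xs P K D (w/8) | sep p₀ q ≤ η N²}`, `m₀ N ≤ |C|`, `N > 0`; `ρ = w/128`; `M₀ = balP P D C ρ`,
`ρ² |M₀| ≤ (η+κ) N²` by `planeA`.
(1) At least `(w/8) N |C|` pairs `(x, p)`, `p ∈ C`, have `RR x p`.  By `tourn`, `tourn'` (`m = ρ |C|`) for every
`x` at most `2 (2 ρ |C| + D) = (w/32) |C| + 2 D` of the `p ∈ C` with `RR x p` have `(x, p) ∉ M₀`, and
`2 D ≤ 2 κ N ≤ 2 (κ/m₀) |C| ≤ (w/32) |C|`.  So at least `(w/16) N |C|` pairs `(x, p) ∈ M₀`, `p ∈ C`, have `RR x p`.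
(2) Let `LB` be the set of the lines `l = Ln P a b`, `(a, b) ∈ M₀` (a subset of `LL P D`).  Being in `M₀` depends
only on the line: `(a, b) ∈ M₀`, `p, q ∈ Ln P a b`, `P p ≠ P q` imply `(p, q) ∈ M₀` (the function `cr (P p) (P q)`
is a nonzero multiple of `cr (P a) (P b)`).  Hence by `lineSum`
`∑_{l ∈ LB} #{(p,q) ∈ l × l | P p ≠ P q} ≤ |M₀|`, and by `Th_ps`
`∑_{l ∈ LB} |Th l| |l| ≤ 2 |M₀| ≤ 2 N²` and `∑_{l ∈ LB} |Th l|² ≤ 2 |M₀| ≤ 2 (η+κ) N²/ρ²`.
(3) `∑_{l ∈ LB} |Th l| |Th l ∩ C| ≥ (w/16) N |C|` by (1) and `RR_sum`.  The lines with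
`|Th l ∩ C| < (w/64) (|C|/N) |l|` contribute at most `(w/64) (|C|/N) * 2 N² = (w/32) N |C|`.  Let `LG` be the other
lines: `∑_{l ∈ LG} |Th l| |Th l ∩ C| ≥ (w/32) N |C|`.  For `l ∈ LG` and `p ∈ Th l ∩ C`:
`|Ps p| ≤ |l|/K ≤ (64 N/(w |C| K)) |Th l ∩ C| ≤ (64/(w m₀ K)) |Th l ∩ C| ≤ |Th l ∩ C|/2`.  So
`|Th l ∩ C|² ≤ 2 #{(p,q) ∈ (Th l ∩ C)² | P p ≠ P q}` and `∑_{l ∈ LG} |Th l ∩ C|² ≤ 2 |C|²` (`lineSum` with
`R p q = (p ∈ C ∧ q ∈ C)`).
(4) Cauchy-Schwarz: `((w/32) N |C|)² ≤ (2 (η+κ) N²/ρ²) (2 |C|²)`, so `(w/32)² (w/128)² ≤ 4 (η + κ) ≤ w^4/2^25`,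
but the left side is `w^4/2^24`: a contradiction.
-/

namespace Pool.Agent.Lib.P0fc

open Finset

namespace PlaneAux

open Classical in
/-- the indicator of a proposition -/
noncomputable def ind (p : Prop) : ℝ := if p then 1 else 0

theorem ind_pos {p : Prop} (h : p) : ind p = 1 := by
  unfold ind
  rw [if_pos h]

theorem ind_neg {p : Prop} (h : ¬ p) : ind p = 0 := by
  unfold ind
  rw [if_neg h]

theorem ind_nonneg (p : Prop) : 0 ≤ ind p := by
  by_cases h : p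
  · rw [ind_pos h]
    norm_num
  · rw [ind_neg h]

theorem ind_mono {p q : Prop} (h : p → q) : ind p ≤ ind q := by
  by_cases hp : p
  · rw [ind_pos hp, ind_pos (h hp)]
  · rw [ind_neg hp]
    exact ind_nonneg q

theorem ind_or {p q r : Prop} (h : p → q ∨ r) : ind p ≤ ind q + ind r := by
  have hq0 := ind_nonneg q
  have hr0 := ind_nonneg r
  by_cases hp : p
  · rcases h hp with hq | hr
    · rw [ind_pos hp, ind_pos hq]
      linarith
    · rw [ind_pos hp, ind_pos hr]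
      linarith
  · rw [ind_neg hp]
    linarith

theorem card_ind {α : Type*} (s : Finset α) (p : α → Prop) [DecidablePred p] :
    ((s.filter p).card : ℝ) = ∑ i ∈ s, ind (p i) := by
  rw [Finset.card_filter]
  push_cast
  refine Finset.sum_congr rfl (fun i _ => ?_)
  by_cases h : p i
  · rw [ind_pos h, if_pos h]
  · rw [ind_neg h, if_neg h]

theorem line_param {A B U : ℝ × ℝ} (hAB : A ≠ B) (hU : cr A B U = 0) :
    ∃ τ : ℝ, U.1 = A.1 + τ * (B.1 - A.1) ∧ U.2 = A.2 + τ * (B.2 - A.2) := by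
  unfold cr at hU
  by_cases h1 : B.1 - A.1 = 0
  · have h2 : B.2 - A.2 ≠ 0 := by
      intro h2
      apply hAB
      ext
      · linarith
      · linarith
    have h3 : U.1 - A.1 = 0 := by
      have h4 : (B.2 - A.2) * (U.1 - A.1) = 0 := by
        rw [h1] at hU
        linarith
      exact (mul_eq_zero.mp h4).resolve_left h2
    refine ⟨(U.2 - A.2) / (B.2 - A.2), ?_, ?_⟩
    · rw [h1]
      linarith
    · rw [div_mul_cancel₀ _ h2]
      ring
  · refine ⟨(U.1 - A.1) / (B.1 - A.1), ?_, ?_⟩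
    · rw [div_mul_cancel₀ _ h1]
      ring
    · have h4 : (U.1 - A.1) / (B.1 - A.1) * (B.2 - A.2) = U.2 - A.2 := by
        rw [div_mul_eq_mul_div, div_eq_iff h1]
        linarith
      rw [h4]
      ring

theorem cr_line {A B U V : ℝ × ℝ} (hAB : A ≠ B) (hU : cr A B U = 0) (hV : cr A B V = 0) :
    ∃ c : ℝ, (∀ Z, cr U V Z = c * cr A B Z) ∧ (U ≠ V → c ≠ 0) := by
  obtain ⟨τ, h1, h2⟩ := line_param hAB hU
  obtain ⟨σ, h3, h4⟩ := line_param hAB hV
  refine ⟨σ - τ, fun Z => ?_, fun hUV hc => hUV ?_⟩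
  · unfold cr
    rw [h1, h2, h3, h4]
    ring
  · have h5 : σ = τ := by linarith
    ext
    · rw [h1, h3, h5]
    · rw [h2, h4, h5]

variable {X : Type} [Fintype X]

theorem mem_Ln {P : X → ℝ × ℝ} {a b x : X} : x ∈ Ln P a b ↔ cr (P a) (P b) (P x) = 0 := by
  unfold Ln
  rw [mem_filter]
  simp

theorem bal_line {P : X → ℝ × ℝ} {D : ℕ} {C : Finset X} {ρ : ℝ} {a b p q : X}
    (h : (a, b) ∈ balP P D C ρ) (hp : p ∈ Ln P a b) (hq : q ∈ Ln P a b) (hpq : P p ≠ P q) :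
    (p, q) ∈ balP P D C ρ := by
  unfold balP at h ⊢
  rw [mem_filter] at h ⊢
  obtain ⟨-, h1, h2, h3, h4⟩ := h
  have hLn := Ln_eq h1 hp hq hpq
  obtain ⟨c, hc, hc0⟩ := cr_line h1 (mem_Ln.1 hp) (mem_Ln.1 hq)
  have hc1 := hc0 hpq
  refine ⟨mem_univ _, hpq, by rw [hLn]; exact h2, ?_, ?_⟩
  · rcases lt_or_gt_of_ne hc1 with hneg | hpos
    · refine h4.trans ?_
      have : (C.filter (fun x => cr (P a) (P b) (P x) < 0)).card ≤
          (C.filter (fun x => 0 < cr (P p) (P q) (P x))).card := by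
        refine card_le_card ?_
        intro x hx
        rw [mem_filter] at hx ⊢
        refine ⟨hx.1, ?_⟩
        rw [hc]
        exact mul_pos_of_neg_of_neg hneg hx.2
      exact_mod_cast this
    · refine h3.trans ?_
      have : (C.filter (fun x => 0 < cr (P a) (P b) (P x))).card ≤
          (C.filter (fun x => 0 < cr (P p) (P q) (P x))).card := by
        refine card_le_card ?_
        intro x hx
        rw [mem_filter] at hx ⊢
        refine ⟨hx.1, ?_⟩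
        rw [hc]
        exact mul_pos hpos hx.2
      exact_mod_cast this
  · rcases lt_or_gt_of_ne hc1 with hneg | hpos
    · refine h3.trans ?_
      have : (C.filter (fun x => 0 < cr (P a) (P b) (P x))).card ≤
          (C.filter (fun x => cr (P p) (P q) (P x) < 0)).card := by
        refine card_le_card ?_
        intro x hx
        rw [mem_filter] at hx ⊢
        refine ⟨hx.1, ?_⟩
        rw [hc]
        exact mul_neg_of_neg_of_pos hneg hx.2
      exact_mod_cast this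
    · refine h4.trans ?_
      have : (C.filter (fun x => cr (P a) (P b) (P x) < 0)).card ≤
          (C.filter (fun x => cr (P p) (P q) (P x) < 0)).card := by
        refine card_le_card ?_
        intro x hx
        rw [mem_filter] at hx ⊢
        refine ⟨hx.1, ?_⟩
        rw [hc]
        exact mul_neg_of_pos_of_neg hpos hx.2
      exact_mod_cast this

/-- step (1) -/
theorem stepA (P : X → ℝ × ℝ) {K D : ℕ} {w ρ κ m₀ : ℝ} {C : Finset X} (hw : 0 < w)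
    (hρ : ρ = w / 128) (hCX : ∀ q ∈ C, q ∈ Xs P K D (w / 8))
    (hC : m₀ * (Fintype.card X : ℝ) ≤ (C.card : ℝ))
    (hD : (D : ℝ) ≤ κ * (Fintype.card X : ℝ)) (hκ : κ ≤ w * m₀ / 64) :
    w / 16 * (Fintype.card X : ℝ) * (C.card : ℝ) ≤
      ∑ x : X, ∑ y : X, ind (RR P K D x y ∧ (y ∈ C ∧ (x, y) ∈ balP P D C ρ)) := by
  classical
  set N : ℝ := (Fintype.card X : ℝ) with hN
  have hN0 : 0 ≤ N := Nat.cast_nonneg _
  have hC0 : (0 : ℝ) ≤ (C.card : ℝ) := Nat.cast_nonneg _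
  -- all pairs
  have h1 : w / 8 * N * (C.card : ℝ) ≤ ∑ x : X, ∑ y : X, ind (RR P K D x y ∧ y ∈ C) := by
    rw [Finset.sum_comm]
    calc w / 8 * N * (C.card : ℝ) = ∑ y ∈ C, w / 8 * N := by
          rw [Finset.sum_const, nsmul_eq_mul]
          ring
      _ ≤ ∑ y ∈ C, ∑ x : X, ind (RR P K D x y ∧ y ∈ C) := by
          refine Finset.sum_le_sum (fun y hy => ?_)
          have h2 := hCX y hy
          unfold Xs at h2
          rw [mem_filter] at h2
          refine h2.2.trans ?_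
          rw [card_ind]
          exact Finset.sum_le_sum (fun x _ => ind_mono (fun h => ⟨h, hy⟩))
      _ ≤ ∑ y : X, ∑ x : X, ind (RR P K D x y ∧ y ∈ C) :=
          Finset.sum_le_sum_of_subset_of_nonneg (Finset.subset_univ _)
            (fun y _ _ => Finset.sum_nonneg (fun x _ => ind_nonneg _))
  -- bad pairs
  have h2 : ∀ x : X, ∑ y : X, ind (RR P K D x y ∧ y ∈ C ∧ (x, y) ∉ balP P D C ρ) ≤
      2 * (2 * (ρ * (C.card : ℝ)) + D) := by
    intro x
    have hm : 0 ≤ ρ * (C.card : ℝ) := by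
      rw [hρ]
      positivity
    have t1 := tourn P D C x hm
    have t2 := tourn' P D C x hm
    rw [card_ind] at t1 t2
    have h3 : ∀ A : X → Prop, ∑ y ∈ C, ind (A y) = ∑ y : X, ind (y ∈ C ∧ A y) := by
      intro A
      rw [← Finset.sum_subset (Finset.subset_univ C)]
      · refine Finset.sum_congr rfl (fun y hy => ?_)
        by_cases hA : A y
        · rw [ind_pos hA, ind_pos ⟨hy, hA⟩]
        · rw [ind_neg hA, ind_neg (fun h => hA h.2)]
      · intro y _ hy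
        exact ind_neg (fun h => hy h.1)
    rw [h3] at t1 t2
    have h4 : ∑ y : X, ind (RR P K D x y ∧ y ∈ C ∧ (x, y) ∉ balP P D C ρ) ≤
        ∑ y : X, (ind (y ∈ C ∧ (Ln P x y).card < D ∧
            ((C.filter (fun q => 0 < cr (P x) (P y) (P q))).card : ℝ) < ρ * (C.card : ℝ)) +
          ind (y ∈ C ∧ (Ln P x y).card < D ∧
            ((C.filter (fun q => cr (P x) (P y) (P q) < 0)).card : ℝ) < ρ * (C.card : ℝ))) := by
      refine Finset.sum_le_sum (fun y _ => ind_or ?_)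
      rintro ⟨hR, hyC, hnb⟩
      by_contra hcon
      push Not at hcon
      apply hnb
      unfold balP
      rw [mem_filter]
      exact ⟨mem_univ _, hR.1, hR.2.1, hcon.1 hyC hR.2.1, hcon.2 hyC hR.2.1⟩
    rw [Finset.sum_add_distrib] at h4
    linarith
  have h3 : ∑ x : X, ∑ y : X, ind (RR P K D x y ∧ y ∈ C ∧ (x, y) ∉ balP P D C ρ) ≤
      N * (2 * (2 * (ρ * (C.card : ℝ)) + D)) := by
    refine (Finset.sum_le_sum (fun x _ => h2 x)).trans ?_
    rw [Finset.sum_const, nsmul_eq_mul, Finset.card_univ]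
  have h4 : ∑ x : X, ∑ y : X, ind (RR P K D x y ∧ y ∈ C) ≤
      (∑ x : X, ∑ y : X, ind (RR P K D x y ∧ (y ∈ C ∧ (x, y) ∈ balP P D C ρ))) +
      ∑ x : X, ∑ y : X, ind (RR P K D x y ∧ y ∈ C ∧ (x, y) ∉ balP P D C ρ) := by
    rw [← Finset.sum_add_distrib]
    refine Finset.sum_le_sum (fun x _ => ?_)
    rw [← Finset.sum_add_distrib]
    refine Finset.sum_le_sum (fun y _ => ind_or ?_)
    rintro ⟨hR, hy⟩
    by_cases hb : (x, y) ∈ balP P D C ρ
    · exact Or.inl ⟨hR, hy, hb⟩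
    · exact Or.inr ⟨hR, hy, hb⟩
  have h5 : N * (2 * (2 * (ρ * (C.card : ℝ)) + D)) ≤ w / 16 * N * (C.card : ℝ) := by
    have h6 : (D : ℝ) ≤ w / 64 * (C.card : ℝ) := by
      calc (D : ℝ) ≤ κ * N := hD
        _ ≤ w * m₀ / 64 * N := mul_le_mul_of_nonneg_right hκ hN0
        _ = w / 64 * (m₀ * N) := by ring
        _ ≤ w / 64 * (C.card : ℝ) := mul_le_mul_of_nonneg_left hC (by positivity)
    have h7 : 2 * (2 * (ρ * (C.card : ℝ)) + D) ≤ w / 16 * (C.card : ℝ) := by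
      rw [hρ]
      linarith
    calc N * (2 * (2 * (ρ * (C.card : ℝ)) + D)) ≤ N * (w / 16 * (C.card : ℝ)) :=
          mul_le_mul_of_nonneg_left h7 hN0
      _ = w / 16 * N * (C.card : ℝ) := by ring
  linarith

open Classical in
/-- the lines of the balanced pairs -/
noncomputable def LB (P : X → ℝ × ℝ) (D : ℕ) (C : Finset X) (ρ : ℝ) : Finset (Finset X) :=
  (balP P D C ρ).image (fun p => Ln P p.1 p.2)

theorem LB_sub (P : X → ℝ × ℝ) (D : ℕ) (C : Finset X) (ρ : ℝ) : LB P D C ρ ⊆ LL P D := by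
  classical
  intro l hl
  unfold LB at hl
  rw [mem_image] at hl
  obtain ⟨p, hp, rfl⟩ := hl
  unfold balP at hp
  rw [mem_filter] at hp
  unfold LL
  rw [mem_image]
  exact ⟨p, mem_filter.2 ⟨mem_univ _, hp.2.1, hp.2.2.1⟩, rfl⟩

theorem LB_mem {P : X → ℝ × ℝ} {D : ℕ} {C : Finset X} {ρ : ℝ} {l : Finset X} :
    l ∈ LB P D C ρ ↔ ∃ a b, (a, b) ∈ balP P D C ρ ∧ Ln P a b = l := by
  classical
  unfold LB
  rw [mem_image]
  constructor
  · rintro ⟨⟨a, b⟩, h1, h2⟩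
    exact ⟨a, b, h1, h2⟩
  · rintro ⟨a, b, h1, h2⟩
    exact ⟨(a, b), h1, h2⟩

open Classical in
/-- step (3), first half -/
theorem stepB (P : X → ℝ × ℝ) (K D : ℕ) (C : Finset X) (ρ : ℝ) :
    ∑ x : X, ∑ y : X, ind (RR P K D x y ∧ (y ∈ C ∧ (x, y) ∈ balP P D C ρ)) ≤
      ∑ l ∈ LB P D C ρ, ((Th P K l).card : ℝ) * (((Th P K l).filter (fun p => p ∈ C)).card : ℝ) := by
  have h1 := RR_sum P K D (fun x y => y ∈ C ∧ (x, y) ∈ balP P D C ρ)
  have h2 : ∑ x : X, ∑ y : X, ind (RR P K D x y ∧ (y ∈ C ∧ (x, y) ∈ balP P D C ρ)) =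
      ((univ.filter (fun p : X × X => RR P K D p.1 p.2 ∧
        (fun x y => y ∈ C ∧ (x, y) ∈ balP P D C ρ) p.1 p.2)).card : ℝ) := by
    rw [card_ind, Fintype.sum_prod_type]
  rw [h2]
  have h3 : ((univ.filter (fun p : X × X => RR P K D p.1 p.2 ∧
        (fun x y => y ∈ C ∧ (x, y) ∈ balP P D C ρ) p.1 p.2)).card : ℝ) ≤
      ∑ l ∈ LL P D, (((Th P K l ×ˢ Th P K l).filter (fun p => P p.1 ≠ P p.2 ∧
        (fun x y => y ∈ C ∧ (x, y) ∈ balP P D C ρ) p.1 p.2)).card : ℝ) := by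
    have h5 := (Nat.cast_le (α := ℝ)).2 h1
    rw [Nat.cast_sum] at h5
    convert h5 <;> rfl
  refine h3.trans ?_
  rw [← Finset.sum_subset (LB_sub P D C ρ)]
  · refine Finset.sum_le_sum (fun l _ => ?_)
    rw [← Nat.cast_mul, ← card_product]
    have h4 : ((Th P K l ×ˢ Th P K l).filter (fun p => P p.1 ≠ P p.2 ∧
        (fun x y => y ∈ C ∧ (x, y) ∈ balP P D C ρ) p.1 p.2)).card ≤
        (Th P K l ×ˢ (Th P K l).filter (fun p => p ∈ C)).card := by
      refine card_le_card ?_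
      intro p hp
      rw [mem_filter, mem_product] at hp
      rw [mem_product, mem_filter]
      exact ⟨hp.1.1, hp.1.2, hp.2.2.1⟩
    exact_mod_cast h4
  · intro l hl hnl
    rw [Nat.cast_eq_zero, card_eq_zero, filter_eq_empty_iff]
    rintro ⟨x, y⟩ hxy ⟨hne, hy, hb⟩
    rw [mem_product] at hxy
    apply hnl
    rw [LB_mem]
    refine ⟨x, y, hb, ?_⟩
    have hx1 : x ∈ l := (mem_filter.1 hxy.1).1
    have hy1 : y ∈ l := (mem_filter.1 hxy.2).1
    exact LL_eq hl hx1 hy1 hne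

omit [Fintype X] in
theorem prod_count (s t : Finset X) (R : X → X → Prop) [DecidablePred (fun p : X × X => R p.1 p.2)] :
    (((s ×ˢ t).filter (fun p : X × X => R p.1 p.2)).card : ℝ) = ∑ x ∈ s, ∑ y ∈ t, ind (R x y) := by
  rw [card_ind, Finset.sum_product]

/-- step (2) -/
theorem stepC (P : X → ℝ × ℝ) {K : ℕ} (hK : 2 ≤ K) (D : ℕ) (C : Finset X) (ρ : ℝ) :
    ∑ l ∈ LB P D C ρ, ((Th P K l).card : ℝ) * (l.card : ℝ) ≤ 2 * ((balP P D C ρ).card : ℝ) := by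
  classical
  have h1 := lineSum P D (LB P D C ρ) (LB_sub P D C ρ) (fun x y => (x, y) ∈ balP P D C ρ)
  have h2 : ∑ l ∈ LB P D C ρ, (((l ×ˢ l).filter (fun p => P p.1 ≠ P p.2 ∧
      (fun x y => (x, y) ∈ balP P D C ρ) p.1 p.2)).card : ℝ) ≤
      ((univ.filter (fun p : X × X => P p.1 ≠ P p.2 ∧
        (fun x y => (x, y) ∈ balP P D C ρ) p.1 p.2)).card : ℝ) := by
    exact_mod_cast h1
  have h3 : ((univ.filter (fun p : X × X => P p.1 ≠ P p.2 ∧
        (fun x y => (x, y) ∈ balP P D C ρ) p.1 p.2)).card : ℝ) ≤ ((balP P D C ρ).card : ℝ) := by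
    have : (univ.filter (fun p : X × X => P p.1 ≠ P p.2 ∧
        (fun x y => (x, y) ∈ balP P D C ρ) p.1 p.2)).card ≤ (balP P D C ρ).card := by
      refine card_le_card ?_
      intro p hp
      rw [mem_filter] at hp
      exact hp.2.2
    exact_mod_cast this
  have h4 : ∀ l ∈ LB P D C ρ, ((Th P K l).card : ℝ) * (l.card : ℝ) ≤
      2 * (((l ×ˢ l).filter (fun p => P p.1 ≠ P p.2 ∧
      (fun x y => (x, y) ∈ balP P D C ρ) p.1 p.2)).card : ℝ) := by
    intro l hl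
    rw [prod_count l l (fun x y => P x ≠ P y ∧ (x, y) ∈ balP P D C ρ)]
    obtain ⟨a, b, hab, hLn⟩ := LB_mem.1 hl
    have h5 : ∀ p ∈ Th P K l, (l.card : ℝ) ≤
        2 * ∑ y ∈ l, ind (P p ≠ P y ∧ (p, y) ∈ balP P D C ρ) := by
      intro p hp
      have h6 := Th_ps hK hp
      have h7 : (l.card : ℝ) ≤ 2 * ((l.filter (fun q => P p ≠ P q)).card : ℝ) := by
        exact_mod_cast h6
      rw [card_ind] at h7
      have hpl : p ∈ l := (mem_filter.1 hp).1
      have h8 : ∑ y ∈ l, ind (P p ≠ P y) ≤ ∑ y ∈ l, ind (P p ≠ P y ∧ (p, y) ∈ balP P D C ρ) := by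
        refine Finset.sum_le_sum (fun y hy => ind_mono (fun hne => ⟨hne, ?_⟩))
        rw [← hLn] at hy hpl
        exact bal_line hab hpl hy hne
      linarith
    calc ((Th P K l).card : ℝ) * (l.card : ℝ) = ∑ p ∈ Th P K l, (l.card : ℝ) := by
          rw [Finset.sum_const, nsmul_eq_mul]
      _ ≤ ∑ p ∈ Th P K l, 2 * ∑ y ∈ l, ind (P p ≠ P y ∧ (p, y) ∈ balP P D C ρ) :=
          Finset.sum_le_sum h5
      _ ≤ ∑ p ∈ l, 2 * ∑ y ∈ l, ind (P p ≠ P y ∧ (p, y) ∈ balP P D C ρ) := by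
          refine Finset.sum_le_sum_of_subset_of_nonneg (filter_subset _ _) (fun p _ _ => ?_)
          have := Finset.sum_nonneg (s := l) (fun y _ =>
            ind_nonneg (P p ≠ P y ∧ (p, y) ∈ balP P D C ρ))
          linarith
      _ = 2 * ∑ p ∈ l, ∑ y ∈ l, ind (P p ≠ P y ∧ (p, y) ∈ balP P D C ρ) := by
          rw [Finset.mul_sum]
  have h5 := Finset.sum_le_sum h4
  rw [← Finset.mul_sum] at h5
  linarith

/-- step (3), second half -/
theorem stepD (P : X → ℝ × ℝ) (D : ℕ) (C : Finset X) (L : Finset (Finset X)) (hL : L ⊆ LL P D)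
    (q : Finset X → Finset X) (hql : ∀ l ∈ L, q l ⊆ l) (hqC : ∀ l ∈ L, q l ⊆ C)
    (hq : ∀ l ∈ L, ∀ p ∈ q l, 2 * ((Ps P p).card : ℝ) ≤ ((q l).card : ℝ)) :
    ∑ l ∈ L, ((q l).card : ℝ) ^ 2 ≤ 2 * (C.card : ℝ) ^ 2 := by
  classical
  have h1 := lineSum P D L hL (fun x y => x ∈ C ∧ y ∈ C)
  have h2 : ∑ l ∈ L, (((l ×ˢ l).filter (fun p => P p.1 ≠ P p.2 ∧
      (fun x y => x ∈ C ∧ y ∈ C) p.1 p.2)).card : ℝ) ≤
      ((univ.filter (fun p : X × X => P p.1 ≠ P p.2 ∧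
        (fun x y => x ∈ C ∧ y ∈ C) p.1 p.2)).card : ℝ) := by
    exact_mod_cast h1
  have h3 : ((univ.filter (fun p : X × X => P p.1 ≠ P p.2 ∧
        (fun x y => x ∈ C ∧ y ∈ C) p.1 p.2)).card : ℝ) ≤ (C.card : ℝ) ^ 2 := by
    have : (univ.filter (fun p : X × X => P p.1 ≠ P p.2 ∧
        (fun x y => x ∈ C ∧ y ∈ C) p.1 p.2)).card ≤ (C ×ˢ C).card := by
      refine card_le_card ?_
      intro p hp
      rw [mem_filter] at hp
      rw [mem_product]
      exact hp.2.2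
    rw [card_product] at this
    rw [sq]
    exact_mod_cast this
  have h4 : ∀ l ∈ L, ((q l).card : ℝ) ^ 2 ≤
      2 * (((l ×ˢ l).filter (fun p => P p.1 ≠ P p.2 ∧
      (fun x y => x ∈ C ∧ y ∈ C) p.1 p.2)).card : ℝ) := by
    intro l hl
    rw [prod_count l l (fun x y => P x ≠ P y ∧ (x ∈ C ∧ y ∈ C))]
    have h5 : ∀ p ∈ q l, ((q l).card : ℝ) ≤
        2 * ∑ y ∈ l, ind (P p ≠ P y ∧ (p ∈ C ∧ y ∈ C)) := by
      intro p hp
      have h6 := hq l hl p hp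
      have h7 : ((q l).card : ℝ) ≤ ∑ y ∈ q l, ind (P p ≠ P y) + ((Ps P p).card : ℝ) := by
        have h8 : ((q l).card : ℝ) ≤ ∑ y ∈ q l, (ind (P p ≠ P y) + ind (P y = P p)) := by
          calc ((q l).card : ℝ) = ∑ y ∈ q l, (1 : ℝ) := by
                rw [Finset.sum_const, nsmul_eq_mul, mul_one]
            _ ≤ _ := by
                refine Finset.sum_le_sum (fun y _ => ?_)
                have h9 := ind_or (p := True) (q := P p ≠ P y) (r := P y = P p) (fun _ => by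
                  by_cases h : P p = P y
                  · exact Or.inr h.symm
                  · exact Or.inl h)
                rwa [ind_pos trivial] at h9
        rw [Finset.sum_add_distrib] at h8
        have h9 : ∑ y ∈ q l, ind (P y = P p) ≤ ((Ps P p).card : ℝ) := by
          unfold Ps
          rw [card_ind]
          exact Finset.sum_le_sum_of_subset_of_nonneg (subset_univ _)
            (fun y _ _ => ind_nonneg _)
        linarith
      have h10 : ∑ y ∈ q l, ind (P p ≠ P y) ≤ ∑ y ∈ l, ind (P p ≠ P y ∧ (p ∈ C ∧ y ∈ C)) := by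
        calc ∑ y ∈ q l, ind (P p ≠ P y) ≤ ∑ y ∈ q l, ind (P p ≠ P y ∧ (p ∈ C ∧ y ∈ C)) :=
              Finset.sum_le_sum (fun y hy => ind_mono (fun h =>
                ⟨h, hqC l hl hp, hqC l hl hy⟩))
          _ ≤ _ := Finset.sum_le_sum_of_subset_of_nonneg (hql l hl)
              (fun y _ _ => ind_nonneg _)
      linarith
    calc ((q l).card : ℝ) ^ 2 = ∑ p ∈ q l, ((q l).card : ℝ) := by
          rw [Finset.sum_const, nsmul_eq_mul, sq]
      _ ≤ ∑ p ∈ q l, 2 * ∑ y ∈ l, ind (P p ≠ P y ∧ (p ∈ C ∧ y ∈ C)) :=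
          Finset.sum_le_sum h5
      _ ≤ ∑ p ∈ l, 2 * ∑ y ∈ l, ind (P p ≠ P y ∧ (p ∈ C ∧ y ∈ C)) := by
          refine Finset.sum_le_sum_of_subset_of_nonneg (hql l hl) (fun p _ _ => ?_)
          have := Finset.sum_nonneg (s := l) (fun y _ =>
            ind_nonneg (P p ≠ P y ∧ (p ∈ C ∧ y ∈ C)))
          linarith
      _ = 2 * ∑ p ∈ l, ∑ y ∈ l, ind (P p ≠ P y ∧ (p ∈ C ∧ y ∈ C)) := by
          rw [Finset.mul_sum]
  have h5 := Finset.sum_le_sum h4
  rw [← Finset.mul_sum] at h5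
  linarith

theorem core (P : X → ℝ × ℝ) {K D : ℕ} {w ρ κ m₀ η : ℝ} {C : Finset X} (hw : 0 < w)
    (hK : 2 ≤ K) (hN0 : 0 < (Fintype.card X : ℝ)) (hm₀ : 0 < m₀)
    (hρ : ρ = w / 128) (hCX : ∀ q ∈ C, q ∈ Xs P K D (w / 8))
    (hC : m₀ * (Fintype.card X : ℝ) ≤ (C.card : ℝ))
    (hD : (D : ℝ) ≤ κ * (Fintype.card X : ℝ)) (hκ : κ ≤ w * m₀ / 64)
    (hKm : 128 / (w * m₀) ≤ (K : ℝ))
    (hM : ρ ^ 2 * ((balP P D C ρ).card : ℝ) ≤ (η + κ) * (Fintype.card X : ℝ) ^ 2)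
    (hηκ : η + κ ≤ w ^ 4 / 2 ^ 27) : False := by
  classical
  have hA := stepA P hw hρ hCX hC hD hκ
  have hB := stepB P K D C ρ
  have hCc := stepC P hK D C ρ
  set N : ℝ := (Fintype.card X : ℝ) with hN
  have hCpos : 0 < (C.card : ℝ) := lt_of_lt_of_le (mul_pos hm₀ hN0) hC
  have hAB := hA.trans hB
  -- good lines
  set Q : Finset X → Finset X := fun l => (Th P K l).filter (fun p => p ∈ C) with hQ
  set LG : Finset (Finset X) := (LB P D C ρ).filter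
    (fun l => w / 64 * ((C.card : ℝ) / N) * (l.card : ℝ) ≤ ((Q l).card : ℝ)) with hLG
  have hMN : ((balP P D C ρ).card : ℝ) ≤ N ^ 2 := by
    have h1 : (balP P D C ρ).card ≤ (univ : Finset (X × X)).card := card_le_card (subset_univ _)
    rw [card_univ, Fintype.card_prod] at h1
    rw [hN, sq]
    exact_mod_cast h1
  have hbad : ∑ l ∈ (LB P D C ρ).filter
      (fun l => ¬ w / 64 * ((C.card : ℝ) / N) * (l.card : ℝ) ≤ ((Q l).card : ℝ)),
      ((Th P K l).card : ℝ) * ((Q l).card : ℝ) ≤ w / 32 * N * (C.card : ℝ) := by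
    calc ∑ l ∈ (LB P D C ρ).filter
          (fun l => ¬ w / 64 * ((C.card : ℝ) / N) * (l.card : ℝ) ≤ ((Q l).card : ℝ)),
          ((Th P K l).card : ℝ) * ((Q l).card : ℝ)
        ≤ ∑ l ∈ (LB P D C ρ).filter
          (fun l => ¬ w / 64 * ((C.card : ℝ) / N) * (l.card : ℝ) ≤ ((Q l).card : ℝ)),
          w / 64 * ((C.card : ℝ) / N) * (((Th P K l).card : ℝ) * (l.card : ℝ)) := by
          refine Finset.sum_le_sum (fun l hl => ?_)
          rw [mem_filter] at hl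
          have h1 := not_le.1 hl.2
          have h2 : (0 : ℝ) ≤ ((Th P K l).card : ℝ) := Nat.cast_nonneg _
          calc ((Th P K l).card : ℝ) * ((Q l).card : ℝ)
              ≤ ((Th P K l).card : ℝ) * (w / 64 * ((C.card : ℝ) / N) * (l.card : ℝ)) :=
                mul_le_mul_of_nonneg_left h1.le h2
            _ = _ := by ring
      _ ≤ ∑ l ∈ LB P D C ρ,
          w / 64 * ((C.card : ℝ) / N) * (((Th P K l).card : ℝ) * (l.card : ℝ)) := by
          refine Finset.sum_le_sum_of_subset_of_nonneg (filter_subset _ _) (fun l _ _ => ?_)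
          positivity
      _ = w / 64 * ((C.card : ℝ) / N) * ∑ l ∈ LB P D C ρ,
            ((Th P K l).card : ℝ) * (l.card : ℝ) := by rw [Finset.mul_sum]
      _ ≤ w / 64 * ((C.card : ℝ) / N) * (2 * N ^ 2) := by
          refine mul_le_mul_of_nonneg_left ?_ (by positivity)
          linarith
      _ = w / 32 * N * (C.card : ℝ) := by
          field_simp
          ring
  have hsplit : ∑ l ∈ LB P D C ρ, ((Th P K l).card : ℝ) * ((Q l).card : ℝ) =
      (∑ l ∈ LG, ((Th P K l).card : ℝ) * ((Q l).card : ℝ)) +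
      ∑ l ∈ (LB P D C ρ).filter
        (fun l => ¬ w / 64 * ((C.card : ℝ) / N) * (l.card : ℝ) ≤ ((Q l).card : ℝ)),
        ((Th P K l).card : ℝ) * ((Q l).card : ℝ) := by
    rw [hLG, Finset.sum_filter_add_sum_filter_not]
  have hgood : w / 32 * N * (C.card : ℝ) ≤
      ∑ l ∈ LG, ((Th P K l).card : ℝ) * ((Q l).card : ℝ) := by
    have h1 : w / 16 * N * (C.card : ℝ) ≤
        ∑ l ∈ LB P D C ρ, ((Th P K l).card : ℝ) * ((Q l).card : ℝ) := hAB
    have h2 : w / 16 * N * (C.card : ℝ) =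
        w / 32 * N * (C.card : ℝ) + w / 32 * N * (C.card : ℝ) := by ring
    linarith
  have hLGs : LG ⊆ LB P D C ρ := filter_subset _ _
  -- squares of Q
  have hQ2 : ∑ l ∈ LG, ((Q l).card : ℝ) ^ 2 ≤ 2 * (C.card : ℝ) ^ 2 := by
    refine stepD P D C LG (hLGs.trans (LB_sub P D C ρ)) Q ?_ ?_ ?_
    · intro l _ p hp
      exact (mem_filter.1 (mem_filter.1 hp).1).1
    · intro l _ p hp
      exact (mem_filter.1 hp).2
    · intro l hl p hp
      have h1 : K * (Ps P p).card ≤ l.card := (mem_filter.1 (mem_filter.1 hp).1).2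
      have h2 : (K : ℝ) * ((Ps P p).card : ℝ) ≤ (l.card : ℝ) := by exact_mod_cast h1
      have h3 : w / 64 * ((C.card : ℝ) / N) * (l.card : ℝ) ≤ ((Q l).card : ℝ) :=
        (mem_filter.1 hl).2
      have h4 : m₀ ≤ (C.card : ℝ) / N := by
        rw [le_div_iff₀ hN0]
        exact hC
      have h5 : 128 ≤ (K : ℝ) * (w * m₀) := by
        rwa [div_le_iff₀ (mul_pos hw hm₀)] at hKm
      have hps : (0 : ℝ) ≤ ((Ps P p).card : ℝ) := Nat.cast_nonneg _
      calc 2 * ((Ps P p).card : ℝ) = 1 / 64 * (128 * ((Ps P p).card : ℝ)) := by ring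
        _ ≤ 1 / 64 * (((K : ℝ) * (w * m₀)) * ((Ps P p).card : ℝ)) := by
            refine mul_le_mul_of_nonneg_left ?_ (by norm_num)
            exact mul_le_mul_of_nonneg_right h5 hps
        _ = w / 64 * m₀ * ((K : ℝ) * ((Ps P p).card : ℝ)) := by ring
        _ ≤ w / 64 * m₀ * (l.card : ℝ) := mul_le_mul_of_nonneg_left h2 (by positivity)
        _ ≤ w / 64 * ((C.card : ℝ) / N) * (l.card : ℝ) := by
            refine mul_le_mul_of_nonneg_right ?_ (Nat.cast_nonneg _)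
            exact mul_le_mul_of_nonneg_left h4 (by positivity)
        _ ≤ ((Q l).card : ℝ) := h3
  -- squares of Th
  have hT2 : ∑ l ∈ LG, ((Th P K l).card : ℝ) ^ 2 ≤ 2 * ((balP P D C ρ).card : ℝ) := by
    calc ∑ l ∈ LG, ((Th P K l).card : ℝ) ^ 2 ≤ ∑ l ∈ LB P D C ρ, ((Th P K l).card : ℝ) ^ 2 :=
          Finset.sum_le_sum_of_subset_of_nonneg hLGs (fun l _ _ => by positivity)
      _ ≤ ∑ l ∈ LB P D C ρ, ((Th P K l).card : ℝ) * (l.card : ℝ) := by
          refine Finset.sum_le_sum (fun l _ => ?_)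
          rw [sq]
          refine mul_le_mul_of_nonneg_left ?_ (Nat.cast_nonneg _)
          exact_mod_cast card_le_card (filter_subset _ l)
      _ ≤ _ := hCc
  have hCS := Finset.sum_mul_sq_le_sq_mul_sq LG (fun l => ((Th P K l).card : ℝ))
    (fun l => ((Q l).card : ℝ))
  have h1 : (w / 32 * N * (C.card : ℝ)) ^ 2 ≤
      (2 * ((balP P D C ρ).card : ℝ)) * (2 * (C.card : ℝ) ^ 2) := by
    calc (w / 32 * N * (C.card : ℝ)) ^ 2
        ≤ (∑ l ∈ LG, ((Th P K l).card : ℝ) * ((Q l).card : ℝ)) ^ 2 :=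
          pow_le_pow_left₀ (by positivity) hgood 2
      _ ≤ (∑ l ∈ LG, ((Th P K l).card : ℝ) ^ 2) * ∑ l ∈ LG, ((Q l).card : ℝ) ^ 2 := hCS
      _ ≤ _ := by
          refine mul_le_mul hT2 hQ2 (Finset.sum_nonneg (fun l _ => by positivity)) (by positivity)
  have hρ2 : 0 < ρ ^ 2 := by
    rw [hρ]
    positivity
  have h2 : ρ ^ 2 * (w / 32 * N * (C.card : ℝ)) ^ 2 ≤
      4 * ((w ^ 4 / 2 ^ 27) * N ^ 2) * (C.card : ℝ) ^ 2 := by
    have h3 : ρ ^ 2 * ((balP P D C ρ).card : ℝ) ≤ (w ^ 4 / 2 ^ 27) * N ^ 2 :=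
      hM.trans (mul_le_mul_of_nonneg_right hηκ (by positivity))
    calc ρ ^ 2 * (w / 32 * N * (C.card : ℝ)) ^ 2
        ≤ ρ ^ 2 * ((2 * ((balP P D C ρ).card : ℝ)) * (2 * (C.card : ℝ) ^ 2)) :=
          mul_le_mul_of_nonneg_left h1 hρ2.le
      _ = 4 * (ρ ^ 2 * ((balP P D C ρ).card : ℝ)) * (C.card : ℝ) ^ 2 := by ring
      _ ≤ _ := by
          refine mul_le_mul_of_nonneg_right ?_ (by positivity)
          linarith
  have h4 : 0 < w ^ 4 * N ^ 2 * (C.card : ℝ) ^ 2 := by positivity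
  rw [hρ] at h2
  have h5 : (w / 128) ^ 2 * (w / 32 * N * (C.card : ℝ)) ^ 2 =
      w ^ 4 * N ^ 2 * (C.card : ℝ) ^ 2 / 2 ^ 24 := by
    ring
  have h6 : 4 * ((w ^ 4 / 2 ^ 27) * N ^ 2) * (C.card : ℝ) ^ 2 =
      w ^ 4 * N ^ 2 * (C.card : ℝ) ^ 2 / 2 ^ 25 := by
    ring
  rw [h5, h6] at h2
  linarith

theorem exists_s {η : ℝ} (h0 : 0 < η) (h1 : η ≤ 1) :
    ∃ s : ℕ, (1 - η) ^ s ≤ 1 / (16 * ((s : ℝ) + 1)) := by
  have hr0 : 0 ≤ 1 - η := by linarith
  have hr1 : 1 - η < 1 := by linarith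
  have t1 := tendsto_self_mul_const_pow_of_lt_one hr0 hr1
  have t2 := tendsto_pow_atTop_nhds_zero_of_lt_one hr0 hr1
  have t3 := t1.add t2
  rw [add_zero] at t3
  have t4 := t3.eventually (gt_mem_nhds (show (0 : ℝ) < 1 / 16 by norm_num))
  obtain ⟨s, hs⟩ := t4.exists
  refine ⟨s, ?_⟩
  rw [le_div_iff₀ (by positivity)]
  have : (s : ℝ) * (1 - η) ^ s + (1 - η) ^ s < 1 / 16 := hs
  nlinarith

open Classical in
theorem main (w : ℝ) (hw : 0 < w) (hw1 : w ≤ 1) : ∃ (K : ℕ) (κ : ℝ), 1 ≤ K ∧ 0 < κ ∧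
    ∀ (X : Type) [Fintype X] (P : X → ℝ × ℝ) (D : ℕ),
      (D : ℝ) ≤ κ * (Fintype.card X : ℝ) →
      ((univ.filter (fun p : X × X => RR P K D p.1 p.2)).card : ℝ) ≤
        w * (Fintype.card X : ℝ) ^ 2 := by
  have hw4 : w ^ 4 ≤ 1 := pow_le_one₀ hw.le hw1
  have hη0 : 0 < w ^ 4 / 2 ^ 28 := by positivity
  have hη1 : w ^ 4 / 2 ^ 28 ≤ 1 := by
    rw [div_le_one (by norm_num)]
    linarith
  obtain ⟨s, hs⟩ := exists_s hη0 hη1
  have hm₀ : 0 < w / (128 * ((s : ℝ) + 1)) := by positivity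
  obtain ⟨K1, hK1⟩ := exists_nat_ge (32 * ((s : ℝ) + 1) / (w / 16))
  obtain ⟨K2, hK2⟩ := exists_nat_ge (128 / (w * (w / (128 * ((s : ℝ) + 1)))))
  have hKa : (K1 : ℝ) ≤ ((2 + K1 + K2 : ℕ) : ℝ) := by
    push_cast
    have : (0 : ℝ) ≤ K2 := Nat.cast_nonneg _
    linarith
  have hKb : (K2 : ℝ) ≤ ((2 + K1 + K2 : ℕ) : ℝ) := by
    push_cast
    have : (0 : ℝ) ≤ K1 := Nat.cast_nonneg _
    linarith
  refine ⟨2 + K1 + K2, min (w ^ 4 / 2 ^ 28) (w * (w / (128 * ((s : ℝ) + 1))) / 64), by omega,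
    by positivity, ?_⟩
  intro X _ P D hD
  by_contra hcon
  have hR := not_le.1 hcon
  have hKs : 32 * ((s : ℝ) + 1) ≤ w / 16 * ((2 + K1 + K2 : ℕ) : ℝ) := by
    have h1 := hK1.trans hKa
    rw [div_le_iff₀ (by positivity)] at h1
    linarith
  obtain ⟨p₀, hp₀⟩ := ball P (2 + K1 + K2) D hw hw1 hη0.le hη1 hs hKs hR
  have hN0 : 0 < (Fintype.card X : ℝ) := by
    have : Nonempty X := ⟨p₀⟩
    exact_mod_cast Fintype.card_pos
  have hCne : ((Xs P (2 + K1 + K2) D (w / 8)).filter (fun q => (sep P D p₀ q : ℝ) ≤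
        w ^ 4 / 2 ^ 28 * (Fintype.card X : ℝ) ^ 2)).Nonempty := by
    rw [← card_pos]
    have h1 := lt_of_lt_of_le (mul_pos hm₀ hN0) hp₀
    exact_mod_cast h1
  have hM := planeA P D hCne p₀ (η := w ^ 4 / 2 ^ 28) (ρ := w / 128) (by positivity)
    (fun q hq => (mem_filter.1 hq).2) hD
  refine core P (K := 2 + K1 + K2) (D := D) hw (by omega) hN0 hm₀ rfl
    (fun q hq => (mem_filter.1 hq).1) hp₀ hD (min_le_right _ _) (hK2.trans hKb) hM ?_
  have h1 := min_le_left (w ^ 4 / 2 ^ 28) (w * (w / (128 * ((s : ℝ) + 1))) / 64)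
  calc w ^ 4 / 2 ^ 28 + min (w ^ 4 / 2 ^ 28) (w * (w / (128 * ((s : ℝ) + 1))) / 64)
      ≤ w ^ 4 / 2 ^ 28 + w ^ 4 / 2 ^ 28 := by linarith
    _ = w ^ 4 / 2 ^ 27 := by ring

end PlaneAux

open Classical in
theorem plane (w : ℝ) (hw : 0 < w) : ∃ (K : ℕ) (κ : ℝ), 1 ≤ K ∧ 0 < κ ∧
    ∀ (X : Type) [Fintype X] (P : X → ℝ × ℝ) (D : ℕ),
      (D : ℝ) ≤ κ * (Fintype.card X : ℝ) →
      ((univ.filter (fun p : X × X => RR P K D p.1 p.2)).card : ℝ) ≤
        w * (Fintype.card X : ℝ) ^ 2 := by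
  obtain ⟨K, κ, h1, h2, h3⟩ := PlaneAux.main (min w 1) (lt_min hw one_pos) (min_le_right _ _)
  refine ⟨K, κ, h1, h2, fun X _ P D hD => (h3 X P D hD).trans ?_⟩
  exact mul_le_mul_of_nonneg_right (min_le_left _ _) (by positivity)

end Pool.Agent.Lib.P0fc
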