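import Mathlib
import Pool.Agent.Lib.P0fc.Quot
import Pool.Agent.Lib.P0fc.PlDef

/-!
# Generic projection to the plane

A vector space over the infinite field `ℝ` is not a finite union of proper subspaces
(`Subspace.biUnion_ne_univ_of_top_notMem` in `Mathlib/GroupTheory/CosetCover.lean`), and for `w ≠ 0` the set
`{f | f w = 0}` is a proper subspace of `Module.Dual ℝ E` (`Module.forall_dual_apply_eq_zero_iff`).
Choose `f₀` with `f₀ (u x) ≠ 0` for all `x ∈ X := {x | u x ≠ 0}`.  Choose `f₁` with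
`f₁ (f₀ (u x) • u y - f₀ (u y) • u x) ≠ 0` for all `x, y ∈ X` with `u x, u y` linearly independent.  For
`x, y, z ∈ X` the determinant of the matrix `(f_i (u x), f_i (u y), f_i (u z))_{i=0,1,2}` is `f₂ w` for a
combination `w` of `u x, u y, u z` whose coefficient at `u z` is
`± (f₀ (u x) f₁ (u y) - f₀ (u y) f₁ (u x))`; choose `f₂` with `f₂ w ≠ 0` for all triples with
`u x, u y, u z` linearly independent.  Put `P x = (f₁ (u x)/f₀ (u x), f₂ (u x)/f₀ (u x))`.
`P x = P y` if `u y` is a multiple of `u x`; if they are independent the first coordinates differ.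
`cr (P x) (P y) (P z)` is the determinant divided by `f₀ (u x) f₀ (u y) f₀ (u z)` (up to sign); it is not `0` if
the triple is independent and `0` if it is dependent.
The membership `u z ∈ span {u x, u y}` is `z ∈ vcl u {x, y}`, and `P y = P x` iff `y ∈ vcl u {x}`.
-/

namespace Pool.Agent.Lib.P0fc

open Finset

namespace ProjAux

theorem mem_vcl_empty {α : Type} [Fintype α] [DecidableEq α] {E : Type} [AddCommGroup E]
    [Module ℝ E] (u : α → E) (x : α) : x ∈ vcl u ∅ ↔ u x = 0 := by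
  rw [mem_vcl, coe_empty, Set.image_empty, Submodule.span_empty, Submodule.mem_bot]

theorem mem_vcl_one {α : Type} [Fintype α] [DecidableEq α] {E : Type} [AddCommGroup E]
    [Module ℝ E] (u : α → E) (x y : α) : y ∈ vcl u {x} ↔ ∃ t : ℝ, t • u x = u y := by
  rw [mem_vcl, coe_singleton, Set.image_singleton, Submodule.mem_span_singleton]

theorem mem_vcl_two {α : Type} [Fintype α] [DecidableEq α] {E : Type} [AddCommGroup E]
    [Module ℝ E] (u : α → E) (x y z : α) :
    z ∈ vcl u {x, y} ↔ ∃ s t : ℝ, s • u x + t • u y = u z := by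
  rw [mem_vcl, coe_insert, coe_singleton, Set.image_insert_eq, Set.image_singleton,
    Submodule.mem_span_pair]

end ProjAux

open ProjAux in
theorem exists_plane {α : Type} [Fintype α] [DecidableEq α] {E : Type} [AddCommGroup E]
    [Module ℝ E] (u : α → E) :
    ∃ P : {x : α // x ∉ vcl u ∅} → ℝ × ℝ,
      (∀ x y, P y = P x ↔ y.val ∈ vcl u {x.val}) ∧
      ∀ x y z, P x ≠ P y → (cr (P x) (P y) (P z) = 0 ↔ z.val ∈ vcl u {x.val, y.val}) := by
  classical
  obtain ⟨f0, hf0⟩ := Module.exists_dual_forall_apply_ne_zero (K := ℝ)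
    (fun x : {x : α // x ∉ vcl u ∅} => u x.val)
    (fun x h => x.2 ((mem_vcl_empty u x.val).2 h))
  obtain ⟨f1, hf1⟩ := Module.exists_dual_forall_apply_ne_zero (K := ℝ)
    (fun p : {p : {x : α // x ∉ vcl u ∅} × {x : α // x ∉ vcl u ∅} //
      f0 (u p.1.val) • u p.2.val - f0 (u p.2.val) • u p.1.val ≠ 0} =>
        f0 (u p.1.1.val) • u p.1.2.val - f0 (u p.1.2.val) • u p.1.1.val)
    (fun p => p.2)
  obtain ⟨f2, hf2⟩ := Module.exists_dual_forall_apply_ne_zero (K := ℝ)
    (fun p : {p : {x : α // x ∉ vcl u ∅} × {x : α // x ∉ vcl u ∅} × {x : α // x ∉ vcl u ∅} //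
      (f0 (u p.2.1.val) * f1 (u p.2.2.val) - f0 (u p.2.2.val) * f1 (u p.2.1.val)) • u p.1.val
        - (f0 (u p.1.val) * f1 (u p.2.2.val) - f0 (u p.2.2.val) * f1 (u p.1.val)) • u p.2.1.val
        + (f0 (u p.1.val) * f1 (u p.2.1.val) - f0 (u p.2.1.val) * f1 (u p.1.val)) • u p.2.2.val
          ≠ 0} =>
      (f0 (u p.1.2.1.val) * f1 (u p.1.2.2.val) - f0 (u p.1.2.2.val) * f1 (u p.1.2.1.val)) •
          u p.1.1.val
        - (f0 (u p.1.1.val) * f1 (u p.1.2.2.val) - f0 (u p.1.2.2.val) * f1 (u p.1.1.val)) •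
          u p.1.2.1.val
        + (f0 (u p.1.1.val) * f1 (u p.1.2.1.val) - f0 (u p.1.2.1.val) * f1 (u p.1.1.val)) •
          u p.1.2.2.val)
    (fun p => p.2)
  have h1 : ∀ x y : {x : α // x ∉ vcl u ∅},
      f0 (u x.val) * f1 (u y.val) - f0 (u y.val) * f1 (u x.val) = 0 →
      f0 (u x.val) • u y.val - f0 (u y.val) • u x.val = 0 := by
    intro x y h
    by_contra hne
    apply hf1 ⟨(x, y), hne⟩
    simp only [map_sub, map_smul, smul_eq_mul]
    exact h
  have h2 : ∀ x y z : {x : α // x ∉ vcl u ∅},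
      (f0 (u y.val) * f1 (u z.val) - f0 (u z.val) * f1 (u y.val)) * f2 (u x.val)
        - (f0 (u x.val) * f1 (u z.val) - f0 (u z.val) * f1 (u x.val)) * f2 (u y.val)
        + (f0 (u x.val) * f1 (u y.val) - f0 (u y.val) * f1 (u x.val)) * f2 (u z.val) = 0 →
      (f0 (u y.val) * f1 (u z.val) - f0 (u z.val) * f1 (u y.val)) • u x.val
        - (f0 (u x.val) * f1 (u z.val) - f0 (u z.val) * f1 (u x.val)) • u y.val
        + (f0 (u x.val) * f1 (u y.val) - f0 (u y.val) * f1 (u x.val)) • u z.val = 0 := by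
    intro x y z h
    by_contra hne
    apply hf2 ⟨(x, y, z), hne⟩
    simp only [map_add, map_sub, map_smul, smul_eq_mul]
    exact h
  have key : ∀ x y : {x : α // x ∉ vcl u ∅},
      f0 (u x.val) • u y.val - f0 (u y.val) • u x.val = 0 → y.val ∈ vcl u {x.val} := by
    intro x y h
    rw [mem_vcl_one]
    refine ⟨(f0 (u x.val))⁻¹ * f0 (u y.val), ?_⟩
    have h3 : f0 (u x.val) • u y.val = f0 (u y.val) • u x.val := sub_eq_zero.1 h
    rw [mul_smul, ← h3, smul_smul, inv_mul_cancel₀ (hf0 x), one_smul]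
  have c1 : ∀ x y : {x : α // x ∉ vcl u ∅},
      (f1 (u y.val) / f0 (u y.val), f2 (u y.val) / f0 (u y.val)) =
        (f1 (u x.val) / f0 (u x.val), f2 (u x.val) / f0 (u x.val)) ↔ y.val ∈ vcl u {x.val} := by
    intro x y
    have hx := hf0 x
    have hy := hf0 y
    constructor
    · intro h
      have h3 := congrArg Prod.fst h
      simp only at h3
      rw [div_eq_div_iff hy hx] at h3
      exact key x y (h1 x y (by linarith))
    · intro h
      obtain ⟨t, ht⟩ := (mem_vcl_one u _ _).1 h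
      have e0 : f0 (u y.val) = t * f0 (u x.val) := by rw [← ht, map_smul, smul_eq_mul]
      have e1 : f1 (u y.val) = t * f1 (u x.val) := by rw [← ht, map_smul, smul_eq_mul]
      have e2 : f2 (u y.val) = t * f2 (u x.val) := by rw [← ht, map_smul, smul_eq_mul]
      have ht0 : t ≠ 0 := by
        rintro rfl
        rw [zero_mul] at e0
        exact hy e0
      rw [e0, e1, e2, mul_div_mul_left _ _ ht0, mul_div_mul_left _ _ ht0]
  refine ⟨fun x => (f1 (u x.val) / f0 (u x.val), f2 (u x.val) / f0 (u x.val)), c1, ?_⟩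
  intro x y z hxy
  have hx := hf0 x
  have hy := hf0 y
  have hz := hf0 z
  have hcr : cr (f1 (u x.val) / f0 (u x.val), f2 (u x.val) / f0 (u x.val))
      (f1 (u y.val) / f0 (u y.val), f2 (u y.val) / f0 (u y.val))
      (f1 (u z.val) / f0 (u z.val), f2 (u z.val) / f0 (u z.val)) =
      ((f0 (u y.val) * f1 (u z.val) - f0 (u z.val) * f1 (u y.val)) * f2 (u x.val)
        - (f0 (u x.val) * f1 (u z.val) - f0 (u z.val) * f1 (u x.val)) * f2 (u y.val)
        + (f0 (u x.val) * f1 (u y.val) - f0 (u y.val) * f1 (u x.val)) * f2 (u z.val)) /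
      (f0 (u x.val) * f0 (u y.val) * f0 (u z.val)) := by
    unfold cr
    simp only
    field_simp
    ring
  have hden : f0 (u x.val) * f0 (u y.val) * f0 (u z.val) ≠ 0 := mul_ne_zero (mul_ne_zero hx hy) hz
  show cr (f1 (u x.val) / f0 (u x.val), f2 (u x.val) / f0 (u x.val))
      (f1 (u y.val) / f0 (u y.val), f2 (u y.val) / f0 (u y.val))
      (f1 (u z.val) / f0 (u z.val), f2 (u z.val) / f0 (u z.val)) = 0 ↔ _
  rw [hcr, div_eq_zero_iff, or_iff_left hden]
  constructor
  · intro h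
    have hW := h2 x y z h
    have hcoef : f0 (u x.val) * f1 (u y.val) - f0 (u y.val) * f1 (u x.val) ≠ 0 := by
      intro h0
      apply hxy
      exact ((c1 x y).2 (key x y (h1 x y h0))).symm
    rw [mem_vcl_two]
    refine ⟨-(f0 (u x.val) * f1 (u y.val) - f0 (u y.val) * f1 (u x.val))⁻¹ *
        (f0 (u y.val) * f1 (u z.val) - f0 (u z.val) * f1 (u y.val)),
      (f0 (u x.val) * f1 (u y.val) - f0 (u y.val) * f1 (u x.val))⁻¹ *
        (f0 (u x.val) * f1 (u z.val) - f0 (u z.val) * f1 (u x.val)), ?_⟩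
    have h3 := congrArg
      (fun w => (f0 (u x.val) * f1 (u y.val) - f0 (u y.val) * f1 (u x.val))⁻¹ • w) hW
    simp only [smul_zero, smul_add, smul_sub, smul_smul] at h3
    rw [inv_mul_cancel₀ hcoef, one_smul] at h3
    rw [← sub_eq_zero, ← neg_eq_zero, ← h3, neg_mul, neg_smul]
    abel
  · intro h
    obtain ⟨s, t, hst⟩ := (mem_vcl_two u _ _ _).1 h
    have e0 : f0 (u z.val) = s * f0 (u x.val) + t * f0 (u y.val) := by
      rw [← hst, map_add, map_smul, map_smul, smul_eq_mul, smul_eq_mul]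
    have e1 : f1 (u z.val) = s * f1 (u x.val) + t * f1 (u y.val) := by
      rw [← hst, map_add, map_smul, map_smul, smul_eq_mul, smul_eq_mul]
    have e2 : f2 (u z.val) = s * f2 (u x.val) + t * f2 (u y.val) := by
      rw [← hst, map_add, map_smul, map_smul, smul_eq_mul, smul_eq_mul]
    rw [e0, e1, e2]
    ring

end Pool.Agent.Lib.P0fc
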