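import Mathlib
import Pool.Agent.Lib.P0fc.Plane
import Pool.Agent.Lib.P0fc.LineFam
import Pool.Agent.Lib.P0fc.Proj
import Pool.Agent.Lib.P0fc.ClaimII

/-!
# The planar lemma

Let `K, κ` be from `plane` for `w = η`, `K₁ = K` and `κ₀ = κ √η / 2` (take `η ≤ 1` first if convenient).
Given `α, v, W, X'`, `N = |α|`: if `κ₀ N < 1` then there are no pairs, since a pair in `lpairs` has
`1 ≤ K₁ X' < |line| ≤ κ₀ N`.  So `1 ≤ κ₀ N`; `D = ⌊κ₀ N⌋ + 1 ≤ 2 κ₀ N = κ √η N`.
Take `Q`, `u` from `exists_quot v W`: `vcl u P = vcl v (W ∪ P)`, and `P : X → ℝ × ℝ`,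
`X = {x // x ∉ vcl v W}`, from `exists_plane u`.  For a pair `(x, y)` in `lpairs`: `x ∉ vcl v W` (otherwise the line
is `vcl (insert y W) \ vcl W`, with at most `X' ≤ K₁ X'` elements), `y ∉ vcl v W`, and `y ∉ vcl (insert x W)`
(otherwise the line is `vcl (insert x W) \ vcl W`).  So `P x ≠ P y`,
`|Ps P x| = |vcl (insert x W) \ vcl W| ≤ X'`, `|Ln P x y| = |vcl (insert x (insert y W)) \ vcl W|`,
hence `RR P K D x y`, and `(x, y) ↦ (⟨x,_⟩, ⟨y,_⟩)` is injective.
If `|X| < √η N` then there are at most `|X|² ≤ η N²` pairs; otherwise `D ≤ κ √η N ≤ κ |X|` and `plane` gives at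
most `η |X|² ≤ η N²` pairs.
-/

namespace Pool.Agent.Lib.P0fc

open Finset Pool.Agent.Lib.P0fb

theorem PlanarPAux_card {α : Type} [Fintype α] [DecidableEq α] (Z T : Finset α)
    (F : Finset {x : α // x ∉ Z}) (hF : ∀ z, z ∈ F ↔ z.val ∈ T) : F.card = (T \ Z).card := by
  rw [← card_image_of_injective F Subtype.val_injective]
  congr 1
  ext x
  rw [mem_image, mem_sdiff]
  constructor
  · rintro ⟨z, hz, rfl⟩
    exact ⟨(hF z).1 hz, z.2⟩
  · rintro ⟨h1, h2⟩
    exact ⟨⟨x, h2⟩, (hF _).2 h1, rfl⟩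

theorem planarP (η : ℝ) (hη : 0 < η) : ∃ (K₁ : ℕ) (κ₀ : ℝ), 0 < κ₀ ∧
    ∀ (α : Type) [Fintype α] [DecidableEq α] (E : Type) [AddCommGroup E] [Module ℝ E]
      (v : α → E) (X' : ℕ) (W : Finset α), 1 ≤ X' →
      ((lpairs v K₁ κ₀ X' W).card : ℝ) ≤ η * (Fintype.card α : ℝ) ^ 2 := by
  classical
  set w : ℝ := min η 1 with hw
  have hw0 : 0 < w := lt_min hη one_pos
  have hw1 : w ≤ 1 := min_le_right _ _
  have hwη : w ≤ η := min_le_left _ _
  obtain ⟨K, κ, hK, hκ, hpl⟩ := plane w hw0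
  have hs0 : 0 < Real.sqrt w := Real.sqrt_pos.2 hw0
  refine ⟨K, κ * Real.sqrt w / 2, by positivity, ?_⟩
  intro α _ _ E _ _ v X' W hX'
  set N : ℝ := (Fintype.card α : ℝ) with hN
  have hN0 : 0 ≤ N := Nat.cast_nonneg _
  suffices hmain : ((lpairs v K (κ * Real.sqrt w / 2) X' W).card : ℝ) ≤ w * N ^ 2 by
    exact hmain.trans (mul_le_mul_of_nonneg_right hwη (by positivity))
  rcases (lpairs v K (κ * Real.sqrt w / 2) X' W).eq_empty_or_nonempty with hemp | hne
  · rw [hemp, card_empty, Nat.cast_zero]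
    positivity
  -- the pairs
  have hmem : ∀ q, q ∈ lpairs v K (κ * Real.sqrt w / 2) X' W ↔
      (vcl v (insert q.1 W) \ vcl v W).card ≤ X' ∧
      (vcl v (insert q.2 W) \ vcl v W).card ≤ X' ∧
      K * X' < (vcl v (insert q.1 (insert q.2 W)) \ vcl v W).card ∧
      ((vcl v (insert q.1 (insert q.2 W)) \ vcl v W).card : ℝ) ≤
        κ * Real.sqrt w / 2 * (Fintype.card α : ℝ) := by
    intro q
    unfold lpairs
    rw [mem_filter]
    exact ⟨fun h => h.2, fun h => ⟨mem_univ _, h⟩⟩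
  have hκN : 1 ≤ κ * Real.sqrt w / 2 * N := by
    obtain ⟨q, hq⟩ := hne
    obtain ⟨_, _, h3, h4⟩ := (hmem q).1 hq
    have h5 : 1 ≤ K * X' := Nat.mul_pos hK hX'
    have h6 : 1 ≤ (vcl v (insert q.1 (insert q.2 W)) \ vcl v W).card := by omega
    have h7 : (1 : ℝ) ≤ ((vcl v (insert q.1 (insert q.2 W)) \ vcl v W).card : ℝ) := by
      exact_mod_cast h6
    exact h7.trans h4
  set D : ℕ := ⌊κ * Real.sqrt w / 2 * N⌋₊ + 1 with hD
  have hD1 : (D : ℝ) ≤ κ * Real.sqrt w * N := by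
    rw [hD]
    push_cast
    have := Nat.floor_le (a := κ * Real.sqrt w / 2 * N) (by positivity)
    linarith
  obtain ⟨Q, iQ, iM, u, hu⟩ := exists_quot v W
  obtain ⟨P, hP1, hP2⟩ := exists_plane u
  have hu0 : vcl u ∅ = vcl v W := by rw [hu, union_empty]
  have hu1 : ∀ x, vcl u {x} = vcl v (insert x W) := by
    intro x
    rw [hu, union_comm, ← insert_eq]
  have hu2 : ∀ x y, vcl u {x, y} = vcl v (insert x (insert y W)) := by
    intro x y
    rw [hu, union_comm, insert_union, ← insert_eq]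
  have hPs : ∀ a, (Ps P a).card = (vcl v (insert a.val W) \ vcl v W).card := by
    intro a
    rw [← hu0, ← hu1]
    refine PlanarPAux_card _ _ _ fun z => ?_
    rw [LineFamAux_memPs]
    exact hP1 a z
  have hLn : ∀ a b, P a ≠ P b →
      (Ln P a b).card = (vcl v (insert a.val (insert b.val W)) \ vcl v W).card := by
    intro a b hab
    rw [← hu0, ← hu2]
    refine PlanarPAux_card _ _ _ fun z => ?_
    rw [LineFamAux_mem]
    exact hP2 a b z hab
  have hsub : lpairs v K (κ * Real.sqrt w / 2) X' W ⊆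
      (univ.filter (fun p : {x : α // x ∉ vcl u ∅} × {x : α // x ∉ vcl u ∅} =>
        RR P K D p.1 p.2)).image (fun p => (p.1.val, p.2.val)) := by
    rintro ⟨x, y⟩ hq
    obtain ⟨h1, h2, h3, h4⟩ := (hmem _).1 hq
    dsimp only at h1 h2 h3 h4
    have hX'K : X' ≤ K * X' := Nat.le_mul_of_pos_left _ hK
    have hx : x ∉ vcl v W := by
      intro hc
      rw [vcl_insert_of_mem (vcl_mono (subset_insert y W) hc)] at h3
      omega
    have hyx : y ∉ vcl v (insert x W) := by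
      intro hc
      rw [insert_comm, vcl_insert_of_mem hc] at h3
      omega
    have hy : y ∉ vcl v W := fun hc => hyx (vcl_mono (subset_insert x W) hc)
    rw [mem_image]
    refine ⟨(⟨x, by rw [hu0]; exact hx⟩, ⟨y, by rw [hu0]; exact hy⟩), ?_, rfl⟩
    rw [mem_filter]
    refine ⟨mem_univ _, ?_⟩
    have hne : P ⟨x, by rw [hu0]; exact hx⟩ ≠ P ⟨y, by rw [hu0]; exact hy⟩ := by
      intro hc
      have := (hP1 ⟨x, by rw [hu0]; exact hx⟩ ⟨y, by rw [hu0]; exact hy⟩).1 hc.symm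
      rw [hu1] at this
      exact hyx this
    unfold RR
    dsimp only
    refine ⟨hne, ?_, ?_, ?_⟩
    · rw [hLn _ _ hne]
      dsimp only
      have h5 : (vcl v (insert x (insert y W)) \ vcl v W).card ≤ ⌊κ * Real.sqrt w / 2 * N⌋₊ :=
        Nat.le_floor h4
      omega
    · rw [hLn _ _ hne, hPs]
      dsimp only
      exact (Nat.mul_le_mul_left _ h1).trans h3.le
    · rw [hLn _ _ hne, hPs]
      dsimp only
      exact (Nat.mul_le_mul_left _ h2).trans h3.le
  have hcard : ((lpairs v K (κ * Real.sqrt w / 2) X' W).card : ℝ) ≤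
      ((univ.filter (fun p : {x : α // x ∉ vcl u ∅} × {x : α // x ∉ vcl u ∅} =>
        RR P K D p.1 p.2)).card : ℝ) := by
    exact_mod_cast (card_le_card hsub).trans card_image_le
  refine hcard.trans ?_
  set m : ℝ := (Fintype.card {x : α // x ∉ vcl u ∅} : ℝ) with hm
  have hm0 : 0 ≤ m := Nat.cast_nonneg _
  have hmN : m ≤ N := by
    rw [hm, hN]
    exact_mod_cast Fintype.card_subtype_le _
  rcases lt_or_ge m (Real.sqrt w * N) with hlt | hge
  · have h5 : ((univ.filter (fun p : {x : α // x ∉ vcl u ∅} × {x : α // x ∉ vcl u ∅} =>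
        RR P K D p.1 p.2)).card : ℝ) ≤ m ^ 2 := by
      have h6 := card_filter_le (univ : Finset ({x : α // x ∉ vcl u ∅} × {x : α // x ∉ vcl u ∅}))
        (fun p => RR P K D p.1 p.2)
      rw [card_univ, Fintype.card_prod] at h6
      rw [hm, sq]
      exact_mod_cast h6
    refine h5.trans ?_
    have h7 : m ^ 2 ≤ (Real.sqrt w * N) ^ 2 := pow_le_pow_left₀ hm0 hlt.le 2
    rwa [mul_pow, Real.sq_sqrt hw0.le] at h7
  · have h5 := hpl {x : α // x ∉ vcl u ∅} P D (by
      refine hD1.trans ?_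
      rw [mul_assoc]
      exact mul_le_mul_of_nonneg_left hge hκ.le)
    refine h5.trans ?_
    exact mul_le_mul_of_nonneg_left (pow_le_pow_left₀ hm0 hmN 2) hw0.le

end Pool.Agent.Lib.P0fc
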