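import Mathlib
import Pool.Agent.Lib.P0fc.Cnt
import Pool.Agent.Lib.P0fc.Decay
import Pool.Agent.Lib.P0fc.GoodF

/-!
# At the exit the genuine closure has positive density

Let `A t e = (OK (Y t) ∧ |nt (Y t)| < d N)` (depends only on the set `Y t`).  For `t < M`: `Ex e t` and
`|nt (Y t)| < d N` imply `A t e` and `e t ∈ nt (Y t)` (`Ex.mem_nt`); by `forw`
`PP(A ∧ e t ∈ nt (Y t)) = EE(ind A |nt (Y t)|)/(N - t) ≤ (2/N) EE(ind A |nt (Y t)|)` (`2 t ≤ N`).
For `t < k` (`k ≤ β`, `Good.inv`) `nt (Y t) = ∅` (`nt_empty`).  For `k ≤ t < M` split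
`|nt (Y t)| = |nt (Y t) ∩ vcl (Y (t-k))| + |nt (Y t) \ vcl (Y (t-k))|`.
First part: `decay` and `p1`: the sum over `t` of the expectations is at most `(1-ε)^k N`.
Second part: for every ordering `∑_{k ≤ t < M} ind (A t e) |nt (Y t) \ vcl (Y (t-k))| ≤ k (d N + σ)`: let
`t*` be the largest `t < M` with `A t e` (if there is none the sum is `0`).  If `t ≤ t*` and `A t e`, then
`nt (Y t) ⊆ nt (Y t*) ∪ sm (Y t*)` (`vcl_mono`, and `nt (Y t)` is disjoint from `Y t*` by `nt_disj`), a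
set with at most `d N + σ` elements, and every `g` is in `vcl (Y t) \ vcl (Y (t-k))` for at most `k`
values of `t` (they lie in `[s, s + k)` for the least `s` with `g ∈ vcl (Y s)`).
Total: `(2/N) ((1-ε)^k N + k (d N + σ))`, `σ ≤ ν N`.
-/

namespace Pool.Agent.Lib.P0fc

open Finset Pool.Agent.Lib.P0fb

namespace S31Aux

variable {α : Type} [Fintype α] [DecidableEq α] {E : Type} [AddCommGroup E] [Module ℝ E]

/-- no accident so far and a small genuine closure -/
def A (v : α → E) (N β σ : ℕ) (d : ℝ) (t : ℕ) (e : Fin N ≃ α) : Prop :=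
  OK v β σ (Y e t) ∧ ((nt v β (Y e t)).card : ℝ) < d * N

theorem A_fut (v : α → E) (N β σ : ℕ) (d : ℝ) (t : ℕ) :
    FutM t (fun e : Fin N ≃ α => ind (A v N β σ d t e)) := by
  intro e i j hi hj
  unfold A
  simp only
  rw [Y_swap_fut e hi hj le_rfl]

theorem sum_ind_le (S T : Finset α) : ∑ x ∈ S, ind (x ∈ T) ≤ (T.card : ℝ) := by
  have h : ∀ x ∈ S, ind (x ∈ T) = if x ∈ T then (1 : ℝ) else 0 := by
    intro x _
    by_cases hx : x ∈ T
    · rw [ind_of hx, if_pos hx]
    · rw [ind_not_of hx, if_neg hx]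
  rw [sum_congr rfl h, sum_boole]
  exact_mod_cast card_le_card (fun x hx => (mem_filter.1 hx).2)

theorem step1 {v : α → E} {N M M₂ β σ : ℕ} {ε ν : ℝ} (h : Good v N M M₂ β σ ε ν) {d : ℝ}
    {t : ℕ} (ht : t < M) :
    PP (fun e : Fin N ≃ α => Ex v β σ e t ∧ ((nt v β (Y e t)).card : ℝ) < d * N) ≤
      (2 / N) * EE (fun e : Fin N ≃ α =>
        ind (A v N β σ d t e) * ((nt v β (Y e t)).card : ℝ)) := by
  have hM := h.M8
  have htN : t < N := ht.trans hM.2
  have hN : (0 : ℝ) < N := by exact_mod_cast (Nat.zero_le t).trans_lt htN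
  have h2t : (2 : ℝ) * t ≤ N := by
    have : 2 * t ≤ N := by omega
    exact_mod_cast this
  obtain ⟨i, hi⟩ : ∃ i : Fin N, i.val = t := ⟨⟨t, htN⟩, rfl⟩
  have hf := forw i (fun (e : Fin N ≃ α) x => ind (A v N β σ d t e) * ind (x ∈ nt v β (Y e t))) (by
    intro x e a b ha hb
    rw [hi] at ha hb
    unfold A
    simp only
    rw [Y_swap_past e ha hb le_rfl])
  rw [hi] at hf
  rw [← EE_mul_left]
  calc PP (fun e : Fin N ≃ α => Ex v β σ e t ∧ ((nt v β (Y e t)).card : ℝ) < d * N)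
      ≤ EE (fun e : Fin N ≃ α => ind (A v N β σ d t e) * ind (e i ∈ nt v β (Y e t))) := by
        unfold PP
        refine EE_mono fun e => ?_
        rw [← ind_and]
        apply ind_mono
        rintro ⟨h1, h2⟩
        refine ⟨⟨h1.ok le_rfl, h2⟩, h1.mem_nt ?_⟩
        unfold At
        rw [Equiv.symm_apply_apply, hi]
    _ = _ := hf
    _ ≤ _ := by
        refine EE_mono fun e => ?_
        rw [← mul_sum]
        have h1 := sum_ind_le (Y e t)ᶜ (nt v β (Y e t))
        have h2 := ind_nonneg (A v N β σ d t e)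
        have h3 : ind (A v N β σ d t e) * ∑ x ∈ (Y e t)ᶜ, ind (x ∈ nt v β (Y e t)) ≤
            ind (A v N β σ d t e) * ((nt v β (Y e t)).card : ℝ) := mul_le_mul_of_nonneg_left h1 h2
        have h4 : 0 ≤ ind (A v N β σ d t e) * ((nt v β (Y e t)).card : ℝ) := by positivity
        have h5 : (0 : ℝ) < N - t := by linarith
        rw [div_le_iff₀ h5]
        refine h3.trans ?_
        have h6 : 1 ≤ 2 / (N : ℝ) * (N - t) := by
          rw [div_mul_eq_mul_div, le_div_iff₀ hN]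
          linarith
        calc ind (A v N β σ d t e) * ((nt v β (Y e t)).card : ℝ)
            = ind (A v N β σ d t e) * ((nt v β (Y e t)).card : ℝ) * 1 := (mul_one _).symm
          _ ≤ ind (A v N β σ d t e) * ((nt v β (Y e t)).card : ℝ) * (2 / (N : ℝ) * (N - t)) :=
            mul_le_mul_of_nonneg_left h6 h4
          _ = _ := by ring

theorem count_le (v : α → E) {N : ℕ} (e : Fin N ≃ α) (k : ℕ) (S : Finset ℕ) (g : α)
    [DecidablePred fun t => g ∈ vcl v (Y e t) ∧ g ∉ vcl v (Y e (t - k))] :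
    (S.filter (fun t => g ∈ vcl v (Y e t) ∧ g ∉ vcl v (Y e (t - k)))).card ≤ k := by
  set R := S.filter (fun t => g ∈ vcl v (Y e t) ∧ g ∉ vcl v (Y e (t - k))) with hR
  rcases R.eq_empty_or_nonempty with h | h
  · rw [h, card_empty]
    exact Nat.zero_le _
  · have hs := R.min'_mem h
    set s := R.min' h with hsdef
    have hsub : R ⊆ Ico s (s + k) := by
      intro t ht
      rw [mem_Ico]
      refine ⟨R.min'_le t ht, ?_⟩
      by_contra hc
      push Not at hc
      rw [hR, mem_filter] at ht hs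
      have h1 : s ≤ t - k := by omega
      exact ht.2.2 (vcl_mono (Y_mono e h1) hs.2.1)
    have := card_le_card hsub
    rwa [Nat.card_Ico, Nat.add_sub_cancel_left] at this

theorem ptw {v : α → E} {N M M₂ β σ : ℕ} {ε ν : ℝ} (h : Good v N M M₂ β σ ε ν) {d : ℝ}
    (hd : 0 ≤ d) (k : ℕ) (e : Fin N ≃ α) :
    ∑ t ∈ range M, (if k ≤ t then ind (A v N β σ d t e) *
      ((nt v β (Y e t) \ vcl v (Y e (t - k))).card : ℝ) else 0) ≤ k * (d * N + σ) := by
  classical
  set S := (range M).filter (fun t => k ≤ t ∧ A v N β σ d t e) with hSdef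
  have e1 : ∑ t ∈ range M, (if k ≤ t then ind (A v N β σ d t e) *
      ((nt v β (Y e t) \ vcl v (Y e (t - k))).card : ℝ) else 0) =
      ∑ t ∈ S, ((nt v β (Y e t) \ vcl v (Y e (t - k))).card : ℝ) := by
    rw [hSdef, sum_filter]
    refine sum_congr rfl fun t _ => ?_
    by_cases hk : k ≤ t
    · by_cases hA : A v N β σ d t e
      · rw [if_pos hk, if_pos ⟨hk, hA⟩, ind_of hA, one_mul]
      · rw [if_pos hk, if_neg (fun hc => hA hc.2), ind_not_of hA, zero_mul]
    · rw [if_neg hk, if_neg (fun hc => hk hc.1)]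
  rw [e1]
  rcases S.eq_empty_or_nonempty with hS | hS
  · rw [hS, sum_empty]
    positivity
  · have hT := S.max'_mem hS
    set T := S.max' hS with hTdef
    have hmax : ∀ t ∈ S, t ≤ T := fun t ht => S.le_max' t ht
    have hAT : A v N β σ d T e := by
      rw [hSdef, mem_filter] at hT
      exact hT.2.2
    set U := nt v β (Y e T) ∪ sm v β (Y e T) with hUdef
    have hU : (U.card : ℝ) ≤ d * N + σ := by
      have h1 : U.card ≤ (nt v β (Y e T)).card + (sm v β (Y e T)).card := card_union_le _ _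
      have h2 : (U.card : ℝ) ≤ ((nt v β (Y e T)).card : ℝ) + ((sm v β (Y e T)).card : ℝ) := by
        exact_mod_cast h1
      have h3 : ((sm v β (Y e T)).card : ℝ) ≤ σ := by exact_mod_cast hAT.1.2
      linarith [hAT.2]
    have hsub : ∀ t ∈ S, nt v β (Y e t) \ vcl v (Y e (t - k)) ⊆
        U.filter (fun g => g ∈ vcl v (Y e t) ∧ g ∉ vcl v (Y e (t - k))) := by
      intro t ht g hg
      rw [mem_sdiff] at hg
      have h1 := mem_nt.1 hg.1
      have hY : Y e t ⊆ Y e T := Y_mono e (hmax t ht)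
      have h2 : g ∈ vcl v (Y e T) := vcl_mono hY h1.1
      have h3 : g ∉ Y e T := nt_disj h.σβ hY hAT.1.1 hg.1
      rw [mem_filter]
      refine ⟨?_, h1.1, hg.2⟩
      rw [hUdef, mem_union]
      by_cases h4 : g ∈ sm v β (Y e T)
      · exact Or.inr h4
      · exact Or.inl (mem_nt.2 ⟨h2, h3, h4⟩)
    calc ∑ t ∈ S, ((nt v β (Y e t) \ vcl v (Y e (t - k))).card : ℝ)
        ≤ ∑ t ∈ S, ((U.filter (fun g => g ∈ vcl v (Y e t) ∧
            g ∉ vcl v (Y e (t - k)))).card : ℝ) :=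
          sum_le_sum fun t ht => by exact_mod_cast card_le_card (hsub t ht)
      _ = ∑ t ∈ S, ∑ g ∈ U, (if g ∈ vcl v (Y e t) ∧ g ∉ vcl v (Y e (t - k)) then (1 : ℝ) else 0) :=
          sum_congr rfl fun t _ => (sum_boole _ _).symm
      _ = ∑ g ∈ U, ∑ t ∈ S, (if g ∈ vcl v (Y e t) ∧ g ∉ vcl v (Y e (t - k)) then (1 : ℝ) else 0) :=
          sum_comm
      _ = ∑ g ∈ U, ((S.filter (fun t => g ∈ vcl v (Y e t) ∧
            g ∉ vcl v (Y e (t - k)))).card : ℝ) :=
          sum_congr rfl fun g _ => sum_boole _ _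
      _ ≤ ∑ _g ∈ U, (k : ℝ) :=
          sum_le_sum fun g _ => by exact_mod_cast count_le v e k S g
      _ = U.card * (k : ℝ) := by rw [sum_const, nsmul_eq_mul]
      _ ≤ (d * N + σ) * k := mul_le_mul_of_nonneg_right hU (Nat.cast_nonneg k)
      _ = k * (d * N + σ) := mul_comm _ _

theorem split {v : α → E} {N M M₂ β σ : ℕ} {ε ν : ℝ} (h : Good v N M M₂ β σ ε ν) (d : ℝ)
    {k : ℕ} (hk : (k : ℝ) * ν ≤ 1) {t : ℕ} (ht : t < M) :
    EE (fun e : Fin N ≃ α => ind (A v N β σ d t e) * ((nt v β (Y e t)).card : ℝ)) ≤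
      (1 - ε) ^ k * EE (fun e : Fin N ≃ α =>
        ind (OK v β σ (Y e t)) * ((nt v β (Y e t)).card : ℝ)) +
      EE (fun e : Fin N ≃ α => if k ≤ t then ind (A v N β σ d t e) *
        ((nt v β (Y e t) \ vcl v (Y e (t - k))).card : ℝ) else 0) := by
  have hε1 : 0 ≤ 1 - ε := by linarith [h.hε1]
  have hb : 0 ≤ (1 - ε) ^ k * EE (fun e : Fin N ≃ α =>
      ind (OK v β σ (Y e t)) * ((nt v β (Y e t)).card : ℝ)) := by
    apply mul_nonneg (pow_nonneg hε1 k)
    apply EE_nonneg
    intro e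
    exact mul_nonneg (ind_nonneg _) (Nat.cast_nonneg _)
  by_cases hkt : k ≤ t
  · have htN : t ≤ N := (ht.trans h.M8.2).le
    have hβ : ε * t + σ ≤ β := by linarith [h.εt ht.le]
    have hdec := decay v h.hε h.hε1 hkt htN hβ (A v N β σ d t) (A_fut v N β σ d t)
      (fun e he => he.1)
    have hmono : EE (fun e : Fin N ≃ α => ind (A v N β σ d t e) * ((nt v β (Y e t)).card : ℝ)) ≤
        EE (fun e : Fin N ≃ α => ind (OK v β σ (Y e t)) * ((nt v β (Y e t)).card : ℝ)) := by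
      refine EE_mono fun e => ?_
      exact mul_le_mul_of_nonneg_right (ind_mono fun he => he.1) (Nat.cast_nonneg _)
    have h1 : EE (fun e : Fin N ≃ α => ind (A v N β σ d t e) * ((nt v β (Y e t)).card : ℝ)) =
        EE (fun e : Fin N ≃ α => ind (A v N β σ d t e) *
          ((nt v β (Y e t) ∩ vcl v (Y e (t - k))).card : ℝ)) +
        EE (fun e : Fin N ≃ α => if k ≤ t then ind (A v N β σ d t e) *
          ((nt v β (Y e t) \ vcl v (Y e (t - k))).card : ℝ) else 0) := by
      rw [← EE_add]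
      refine EE_congr fun e => ?_
      rw [if_pos hkt, ← mul_add]
      congr 1
      rw [← card_inter_add_card_sdiff (nt v β (Y e t)) (vcl v (Y e (t - k)))]
      push_cast
      ring
    rw [h1]
    have h2 := mul_le_mul_of_nonneg_left hmono (pow_nonneg hε1 k)
    linarith
  · have h0 : EE (fun e : Fin N ≃ α =>
        ind (A v N β σ d t e) * ((nt v β (Y e t)).card : ℝ)) = EE (fun _ : Fin N ≃ α => 0) := by
      refine EE_congr fun e => ?_
      have h1 : (Y e t).card < β := by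
        have h2 := card_Y_le e t
        have h3 := h.inv hk
        omega
      rw [nt_empty h1, card_empty, Nat.cast_zero, mul_zero]
    rw [h0, EE_const h.card]
    refine add_nonneg hb (EE_nonneg fun e => ?_)
    split_ifs
    exact le_rfl

end S31Aux

section

variable {α : Type} [Fintype α] [DecidableEq α] {E : Type} [AddCommGroup E] [Module ℝ E]

theorem s31 {v : α → E} {N M M₂ β σ : ℕ} {ε ν : ℝ} (h : Good v N M M₂ β σ ε ν) {d : ℝ}
    (hd : 0 ≤ d) {k : ℕ} (hk : (k : ℝ) * ν ≤ 1) :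
    ∑ t ∈ range M, PP (fun e : Fin N ≃ α =>
      Ex v β σ e t ∧ ((nt v β (Y e t)).card : ℝ) < d * N) ≤
      2 * (k * (d + ν) + (1 - ε) ^ k) := by
  have hM := h.M8
  have hN : (0 : ℝ) < N := by
    have : 0 < N := (Nat.zero_le M).trans_lt hM.2
    exact_mod_cast this
  have hε1 : 0 ≤ 1 - ε := by linarith [h.hε1]
  have h1 : ∑ t ∈ range M, PP (fun e : Fin N ≃ α =>
      Ex v β σ e t ∧ ((nt v β (Y e t)).card : ℝ) < d * N) ≤
      ∑ t ∈ range M, (2 / (N : ℝ)) * ((1 - ε) ^ k * EE (fun e : Fin N ≃ α =>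
        ind (OK v β σ (Y e t)) * ((nt v β (Y e t)).card : ℝ)) +
      EE (fun e : Fin N ≃ α => if k ≤ t then ind (S31Aux.A v N β σ d t e) *
        ((nt v β (Y e t) \ vcl v (Y e (t - k))).card : ℝ) else 0)) := by
    refine sum_le_sum fun t ht => ?_
    refine (S31Aux.step1 h (mem_range.1 ht)).trans ?_
    exact mul_le_mul_of_nonneg_left (S31Aux.split h d hk (mem_range.1 ht)) (by positivity)
  have h2 : ∑ t ∈ range M, EE (fun e : Fin N ≃ α =>
      ind (OK v β σ (Y e t)) * ((nt v β (Y e t)).card : ℝ)) ≤ N := by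
    refine le_trans ?_ (p1 v h.card h.σβ hM.2)
    rw [sum_range_succ]
    have : 0 ≤ EE (fun e : Fin N ≃ α =>
        ind (OK v β σ (Y e M)) * ((nt v β (Y e M)).card : ℝ)) :=
      EE_nonneg fun e => mul_nonneg (ind_nonneg _) (Nat.cast_nonneg _)
    linarith
  have h3 : ∑ t ∈ range M, EE (fun e : Fin N ≃ α => if k ≤ t then ind (S31Aux.A v N β σ d t e) *
        ((nt v β (Y e t) \ vcl v (Y e (t - k))).card : ℝ) else 0) ≤ k * (d * N + σ) := by
    rw [← EE_sum, ← EE_const (α := α) h.card ((k : ℝ) * (d * N + σ))]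
    exact EE_mono fun e => S31Aux.ptw h hd k e
  rw [← mul_sum, sum_add_distrib, ← mul_sum] at h1
  have h4 := h.σN.2
  have h5 : (1 - ε) ^ k * ∑ t ∈ range M, EE (fun e : Fin N ≃ α =>
      ind (OK v β σ (Y e t)) * ((nt v β (Y e t)).card : ℝ)) ≤ (1 - ε) ^ k * N :=
    mul_le_mul_of_nonneg_left h2 (pow_nonneg hε1 k)
  have h6 : (k : ℝ) * (d * N + σ) ≤ k * (d * N + ν * N) := by
    apply mul_le_mul_of_nonneg_left _ (Nat.cast_nonneg k)
    linarith
  calc _ ≤ _ := h1
    _ ≤ (2 / (N : ℝ)) * ((1 - ε) ^ k * N + k * (d * N + ν * N)) := by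
      apply mul_le_mul_of_nonneg_left _ (by positivity)
      linarith
    _ = 2 * (k * (d + ν) + (1 - ε) ^ k) := by
      field_simp
      ring

end

end Pool.Agent.Lib.P0fc
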