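import Mathlib
import Pool.Agent.Lib.P0fc.ClaimI
import Pool.Agent.Lib.P0fc.PlanarP
import Pool.Agent.Lib.P0fc.S31

/-!
# Part (I)

Constants: `k₁` with `(1-ε)^k₁ ≤ η/32`; `d₀ = η/(32(k₁+1))`; `τ = (ε²/2)(η/16)`; `η_B = d₀ τ/48`; `j, θ'` from `sg`
for `η_B`, `ε²/6`; `K ≥ 1` with `(2j+4)/(θ'(K+3)) ≤ τ/3`; `J = 2K+2`; `η' = d₀ η/(1024 K²)`; `K₁, κ₀` from
`planarP η'`; `B = 2K₁+1`, `X i = B^(J-i)`; `κ = min (κ₀/2) d₀`; `A₁ = B^J`; then `ν₀`.
`e_i = |Es (Y t) (Y (t-i))|`, `b_k = ∑_{t<M} PP (FF t k)`, `c = 16 η'/d₀ + (J+1) ν`.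
(1) `s31`: `Ex` and `|nt (Y t)| < d₀ N`: at most `3η/16`.
(2) `claimI`: `ρ := ∑_{t<M} PP (Ex, d₀ N ≤ |nt (Y t)|, Es (Y t) (Y (t-K)) ≠ ∅) ≤ η/16`.
(3) `b_k ≤ b_(k+1) + c` for `k < 2K` (`claimII`).  For fixed `t, e` at most one `k` has `FF t k`
(`k` is the largest index `≤ J` with `e_k > X k`), and for `K ≤ k` it implies the event in (2); so
`∑_{K ≤ k < 2K} b_k ≤ ρ`, some `k*` has `b_(k*) ≤ ρ/K`, and `∑_{k<K} b_k ≤ ρ + 2K² c ≤ η/8`.
(4) `stabP`: at most `η/32`; no exit: at most `ν ≤ η/32`.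
Outside of these events: `e_0 = |nt (Y t)| ≥ d₀ N ≥ κ N`, `e_K = 0`; let `k` be the least index with
`e_k < κ N`, `1 ≤ k ≤ K`.  If `e_k > X k` let `k'` be the largest index `≤ J` with `e_(k') > X k'`; `k ≤ k' < K`
and `FF t k'`, a contradiction.  So `e_k ≤ X k ≤ B^J` and `e_(k-1) ≥ κ N`; `stab_nt` gives
`nt (Y (t-i)) = Es (Y t) (Y (t-i))` for `i ≤ J`.
-/

namespace Pool.Agent.Lib.P0fc

open Finset Pool.Agent.Lib.P0fb

section ThmIAux

variable {α : Type} [Fintype α] [DecidableEq α] {E : Type} [AddCommGroup E] [Module ℝ E]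

theorem ThmIAux.det {v : α → E} {N β σ : ℕ} {e : Fin N ≃ α} {t K J A₁ : ℕ} {X : ℕ → ℕ}
    {d₀ κ : ℝ} (hσ : σ ≤ β) (hEx : Ex v β σ e t) (hN : 0 < N) (hJ : J ≤ t) (hKJ : K ≤ J)
    (hκ : 0 < κ) (hκd : κ ≤ d₀) (h1 : d₀ * N ≤ ((nt v β (Y e t)).card : ℝ))
    (h2 : ¬ (Es v β (Y e t) (Y e (t - K))).Nonempty)
    (h3 : ∀ k < K, ¬ FF v β σ X J d₀ κ t k e)
    (h4 : ∀ x ∈ Bs v β (Y e t), x ∈ Y e (t - J)) (hX : ∀ i, X i ≤ A₁) :
    ∃ k, 1 ≤ k ∧ k ≤ K ∧ k ≤ t ∧ Ex v β σ e t ∧ (nt v β (Y e (t - k))).card ≤ A₁ ∧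
      κ * N ≤ ((nt v β (Y e (t - k + 1))).card : ℝ) := by
  classical
  have hN' : (0 : ℝ) < N := by exact_mod_cast hN
  have hnc : (nc v (Y e t)).card ≤ σ := hEx.1.1
  have hEs : ∀ i ≤ J, nt v β (Y e (t - i)) = Es v β (Y e t) (Y e (t - i)) := by
    intro i hi
    exact stab_nt hσ (Y_mono e (by omega : t - J ≤ t - i)) (Y_mono e (Nat.sub_le t i)) hnc h4
  set f : ℕ → ℕ := fun i => (Es v β (Y e t) (Y e (t - i))).card with hf
  have hanti : ∀ i j, i ≤ j → f j ≤ f i := by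
    intro i j hij
    exact card_le_card (Es_mono (Y_mono e (by omega : t - j ≤ t - i)))
  have hfK : f K = 0 := by
    rw [not_nonempty_iff_eq_empty] at h2
    simp only [hf, h2, card_empty]
  have hex : ∃ i, (f i : ℝ) < κ * N := ⟨K, by rw [hfK]; push_cast; positivity⟩
  set k := Nat.find hex with hk
  have hkK : k ≤ K := Nat.find_min' hex (by rw [hfK]; push_cast; positivity)
  have hkf : (f k : ℝ) < κ * N := Nat.find_spec hex
  have hf0 : κ * N ≤ (f 0 : ℝ) := by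
    refine le_trans (mul_le_mul_of_nonneg_right hκd hN'.le) (h1.trans ?_)
    simp only [hf, Nat.sub_zero]
    exact le_of_eq rfl
  have hk1 : 1 ≤ k := by
    by_contra hc
    have h0 : k = 0 := by omega
    rw [h0] at hkf
    linarith
  have hkm : κ * N ≤ (f (k - 1) : ℝ) := by
    have := Nat.find_min hex (m := k - 1) (by omega)
    exact not_lt.1 this
  have hfk : f k ≤ X k := by
    by_contra hc
    push Not at hc
    set k' := Nat.findGreatest (fun i => X i < f i) J with hk'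
    have hkk' : k ≤ k' := Nat.le_findGreatest (by omega) hc
    have hspec : X k' < f k' := Nat.findGreatest_spec (P := fun i => X i < f i)
      (by omega : k ≤ J) hc
    have hk'J : k' ≤ J := Nat.findGreatest_le J
    have hk'K : k' < K := by
      by_contra hc'
      have := hanti K k' (by omega)
      omega
    refine h3 k' hk'K ⟨hEx, h1, hspec, ?_, ?_⟩
    · have h5 : (f k' : ℝ) ≤ f k := by exact_mod_cast hanti k k' hkk'
      exact lt_of_le_of_lt h5 hkf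
    · intro i hi hiJ
      exact not_lt.1 (Nat.findGreatest_is_greatest (P := fun i => X i < f i) hi hiJ)
  refine ⟨k, hk1, hkK, by omega, hEx, ?_, ?_⟩
  · rw [hEs k (by omega)]
    exact hfk.trans (hX k)
  · have h6 : t - k + 1 = t - (k - 1) := by omega
    rw [h6, hEs (k - 1) (by omega)]
    exact hkm

theorem ThmIAux.sum_ind {ι : Type} (s : Finset ι) (P : ι → Prop) (Q : Prop)
    (h1 : ∀ i ∈ s, P i → Q) (h2 : ∀ i ∈ s, ∀ j ∈ s, P i → P j → i = j) :
    ∑ i ∈ s, ind (P i) ≤ ind Q := by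
  by_cases h : ∃ i ∈ s, P i
  · obtain ⟨i, hi, hP⟩ := h
    rw [Finset.sum_eq_single i]
    · exact ind_mono (h1 i hi)
    · intro j hj hji
      exact ind_not_of (fun hPj => hji (h2 j hj i hi hPj hP))
    · intro hni
      exact absurd hi hni
  · push Not at h
    rw [Finset.sum_eq_zero (fun i hi => ind_not_of (h i hi))]
    exact ind_nonneg _

theorem ThmIAux.pigeon {b : ℕ → ℝ} {c ρ : ℝ} {K : ℕ} (hK : 1 ≤ K) (hc : 0 ≤ c)
    (hb : ∀ k < 2 * K, b k ≤ b (k + 1) + c) (hρ : ∑ k ∈ Ico K (2 * K), b k ≤ ρ) :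
    ∑ k ∈ range K, b k ≤ ρ + 2 * (K : ℝ) ^ 2 * c := by
  have hK' : (0 : ℝ) < K := by exact_mod_cast (by omega : 0 < K)
  have h1 : ∀ k j, k ≤ j → j ≤ 2 * K → b k ≤ b j + ((j : ℝ) - k) * c := by
    intro k j hkj
    induction j, hkj using Nat.le_induction with
    | base => intro _; simp
    | succ j hkj ih =>
      intro hj
      have h2 := ih (by omega)
      have h3 := hb j (by omega)
      push_cast
      linarith
  have h4 : ∀ k ∈ range K, b k ≤ (ρ + 2 * (K : ℝ) ^ 2 * c) / K := by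
    intro k hk
    rw [mem_range] at hk
    rw [le_div_iff₀ hK']
    have h5 : ∀ j ∈ Ico K (2 * K), b k ≤ b j + 2 * K * c := by
      intro j hj
      rw [mem_Ico] at hj
      have h6 := h1 k j (by omega) (by omega)
      have h7 : ((j : ℝ) - k) * c ≤ 2 * K * c := by
        refine mul_le_mul_of_nonneg_right ?_ hc
        have h8 : (j : ℝ) ≤ 2 * K := by exact_mod_cast hj.2.le
        have h9 : (0 : ℝ) ≤ k := Nat.cast_nonneg _
        linarith
      linarith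
    have h10 := Finset.sum_le_sum h5
    rw [Finset.sum_const, Finset.sum_add_distrib, Finset.sum_const, Nat.card_Ico,
      nsmul_eq_mul, nsmul_eq_mul] at h10
    have h11 : ((2 * K - K : ℕ) : ℝ) = K := by
      rw [show 2 * K - K = K by omega]
    rw [h11] at h10
    nlinarith
  have h12 := Finset.sum_le_sum h4
  rw [Finset.sum_const, card_range, nsmul_eq_mul, mul_div_cancel₀ _ hK'.ne'] at h12
  exact h12

theorem ThmIAux.sumFF {v : α → E} {N M β σ : ℕ} {X : ℕ → ℕ} {J K : ℕ} {d₀ κ : ℝ}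
    (hJ : 2 * K ≤ J) :
    ∑ k ∈ Ico K (2 * K), ∑ t ∈ range M, PP (FF (N := N) v β σ X J d₀ κ t k) ≤
      ∑ t ∈ range M, PP (fun e : Fin N ≃ α => Ex v β σ e t ∧
        d₀ * N ≤ ((nt v β (Y e t)).card : ℝ) ∧
        (Es v β (Y e t) (Y e (t - K))).Nonempty) := by
  rw [Finset.sum_comm]
  refine Finset.sum_le_sum (fun t _ => ?_)
  unfold PP
  rw [← EE_sum]
  refine EE_mono (fun e => ?_)
  refine ThmIAux.sum_ind _ _ _ ?_ ?_
  · rintro k hk ⟨h1, h2, h3, _, _⟩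
    rw [mem_Ico] at hk
    refine ⟨h1, h2, ?_⟩
    have h4 : Es v β (Y e t) (Y e (t - k)) ⊆ Es v β (Y e t) (Y e (t - K)) :=
      Es_mono (Y_mono e (by omega))
    refine Nonempty.mono h4 (card_pos.1 (by omega))
  · intro i hi j hj h1 h2
    rw [mem_Ico] at hi hj
    rcases lt_trichotomy i j with h | h | h
    · exact absurd (h1.2.2.2.2 j h (by omega)) (not_le.2 h2.2.2.1)
    · exact h
    · exact absurd (h2.2.2.2.2 i h (by omega)) (not_le.2 h1.2.2.1)

end ThmIAux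

theorem theoremI (ε : ℝ) (hε : 0 < ε) (hε1 : ε ≤ 1) (η : ℝ) (hη : 0 < η) :
    ∃ κ : ℝ, 0 < κ ∧ ∃ K A₁ : ℕ, ∃ ν₀ : ℝ, 0 < ν₀ ∧ ∀ ν : ℝ, ν ≤ ν₀ →
      ∀ (α : Type) [Fintype α] [DecidableEq α] (E : Type) [AddCommGroup E] [Module ℝ E]
        (v : α → E) (N M M₂ β σ : ℕ), Good v N M M₂ β σ ε ν →
        1 - η ≤ PP (fun e : Fin N ≃ α => ∃ t < M, ∃ k, 1 ≤ k ∧ k ≤ K ∧ k ≤ t ∧
          Ex v β σ e t ∧ (nt v β (Y e (t - k))).card ≤ A₁ ∧
          κ * N ≤ ((nt v β (Y e (t - k + 1))).card : ℝ)) := by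
  obtain ⟨k₁, hk₁⟩ := exists_pow_lt_of_lt_one (show (0 : ℝ) < η / 32 by positivity)
    (show 1 - ε < 1 by linarith)
  set d₀ : ℝ := η / (32 * (k₁ + 1)) with hd₀
  have hd₀pos : 0 < d₀ := by positivity
  set τ : ℝ := ε ^ 2 / 2 * (η / 16) with hτ
  have hτpos : 0 < τ := by positivity
  set ηB : ℝ := d₀ * τ / 48 with hηB
  have hηBpos : 0 < ηB := by positivity
  obtain ⟨j, θ', hθ', hsg⟩ := sg ηB (ε ^ 2 / 6) hηBpos (by positivity)
  obtain ⟨K, hK⟩ := exists_nat_ge ((2 * (j : ℝ) + 4) / (θ' * (τ / 3)) + 1)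
  have hK1 : 1 ≤ K := by
    have h0 : (0 : ℝ) ≤ (2 * (j : ℝ) + 4) / (θ' * (τ / 3)) := by positivity
    have : (1 : ℝ) ≤ K := by linarith
    exact_mod_cast this
  have hK' : (0 : ℝ) < K := by exact_mod_cast (by omega : 0 < K)
  have hKb : (2 * (j : ℝ) + 4) / (θ' * (K + 3)) ≤ τ / 3 := by
    rw [div_le_iff₀ (by positivity)]
    have h1 : (2 * (j : ℝ) + 4) / (θ' * (τ / 3)) ≤ K := by linarith
    rw [div_le_iff₀ (by positivity)] at h1
    nlinarith [mul_pos hθ' hτpos]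
  set J : ℕ := 2 * K + 2 with hJ
  set η' : ℝ := d₀ * η / (1024 * (K : ℝ) ^ 2) with hη'
  have hη'pos : 0 < η' := by positivity
  obtain ⟨K₁, κ₀, hκ₀, hpl⟩ := planarP η' hη'pos
  set B : ℕ := 2 * K₁ + 1 with hB
  set κ : ℝ := min (κ₀ / 2) d₀ with hκ
  have hκpos : 0 < κ := lt_min (by positivity) hd₀pos
  set ν₀ : ℝ := min (min (min (η / (32 * (k₁ + 1))) (η / (1024 * (J + 1) * (K : ℝ) ^ 2)))
    (min (τ / (3 * (K + 3))) (d₀ / 8))) (min (min (θ' / 8) (κ₀ / 4)) (min (1 / (J + k₁ + 3)) 1)) with hν₀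
  have hν₀pos : 0 < ν₀ := by positivity
  refine ⟨κ, hκpos, K, B ^ J, ν₀, hν₀pos, ?_⟩
  intro ν hν α _ _ E _ _ v N M M₂ β σ hG
  have hνpos := hG.hν
  have e1 : ν ≤ η / (32 * (k₁ + 1)) :=
    hν.trans ((min_le_left _ _).trans ((min_le_left _ _).trans (min_le_left _ _)))
  have e2 : ν ≤ η / (1024 * (J + 1) * (K : ℝ) ^ 2) :=
    hν.trans ((min_le_left _ _).trans ((min_le_left _ _).trans (min_le_right _ _)))
  have e3 : ν ≤ τ / (3 * (K + 3)) :=
    hν.trans ((min_le_left _ _).trans ((min_le_right _ _).trans (min_le_left _ _)))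
  have e4 : ν ≤ d₀ / 8 :=
    hν.trans ((min_le_left _ _).trans ((min_le_right _ _).trans (min_le_right _ _)))
  have e5 : ν ≤ θ' / 8 :=
    hν.trans ((min_le_right _ _).trans ((min_le_left _ _).trans (min_le_left _ _)))
  have e6 : ν ≤ κ₀ / 4 :=
    hν.trans ((min_le_right _ _).trans ((min_le_left _ _).trans (min_le_right _ _)))
  have e7 : ν ≤ 1 / (J + k₁ + 3) :=
    hν.trans ((min_le_right _ _).trans ((min_le_right _ _).trans (min_le_left _ _)))
  have e8 : ν ≤ 1 :=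
    hν.trans ((min_le_right _ _).trans ((min_le_right _ _).trans (min_le_right _ _)))
  have hN : Fintype.card α = N := hG.card
  have hM8 := hG.M8
  have hNpos : 0 < N := by omega
  have hNR : (0 : ℝ) < N := by exact_mod_cast hNpos
  have hJν : (J : ℝ) * ν ≤ 1 := by
    rw [le_div_iff₀ (by positivity)] at e7
    nlinarith [mul_nonneg (Nat.cast_nonneg (α := ℝ) k₁) hνpos.le]
  have hk₁ν : (k₁ : ℝ) * ν ≤ 1 := by
    rw [le_div_iff₀ (by positivity)] at e7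
    nlinarith [mul_nonneg (Nat.cast_nonneg (α := ℝ) J) hνpos.le]
  have hJβ : J ≤ β := hG.inv hJν
  -- the step `s31`
  have b1 := s31 hG hd₀pos.le hk₁ν
  have b1' : 2 * ((k₁ : ℝ) * (d₀ + ν) + (1 - ε) ^ k₁) ≤ 3 * η / 16 := by
    have h1 : (k₁ : ℝ) * d₀ ≤ η / 32 := by
      rw [hd₀, mul_div_assoc', div_le_div_iff₀ (by positivity) (by positivity)]
      nlinarith [Nat.cast_nonneg (α := ℝ) k₁]
    have h2 : (k₁ : ℝ) * ν ≤ η / 32 := by
      have h3 : (k₁ : ℝ) * ν ≤ k₁ * (η / (32 * (k₁ + 1))) :=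
        mul_le_mul_of_nonneg_left e1 (Nat.cast_nonneg _)
      exact h3.trans h1
    nlinarith
  -- Claim I
  have b2 := claimI hG (η := ηB) (d₀ := d₀) (θ' := θ') (j := j) (k := K) hηBpos.le hd₀pos hθ'
    e4 e5 (by
      refine le_trans (mul_le_mul_of_nonneg_right ?_ hνpos.le) hJν
      have : K + 2 ≤ J := by omega
      exact_mod_cast this) (fun W hW => hsg α E v W hW)
  set ρ : ℝ := ∑ t ∈ range M, PP (fun e : Fin N ≃ α => Ex v β σ e t ∧
      d₀ * N ≤ ((nt v β (Y e t)).card : ℝ) ∧ (Es v β (Y e t) (Y e (t - K))).Nonempty) with hρ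
  have b2' : ρ ≤ η / 16 := by
    have h1 : ((K : ℝ) + 3) * ν ≤ τ / 3 := by
      rw [le_div_iff₀ (by positivity)] at e3
      linarith
    have h2 : 16 * ηB / d₀ = τ / 3 := by
      rw [hηB]
      field_simp
      ring
    rw [h2] at b2
    have h3 : ε ^ 2 / 2 * ρ ≤ ε ^ 2 / 2 * (η / 16) := by
      rw [← hτ]
      linarith
    exact le_of_mul_le_mul_left h3 (by positivity)
  -- Claim II
  set c : ℝ := 16 * η' / d₀ + (J + 1) * ν with hc
  have hcpos : 0 ≤ c := by positivity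
  have hX : ∀ k, k + 2 ≤ J →
      B ^ (J - (k + 2)) + K₁ * (2 * B ^ (J - (k + 1))) ≤ B ^ (J - k) := by
    intro k hk
    have hB1 : 1 ≤ B := by omega
    have h1 : J - (k + 1) = (J - (k + 2)) + 1 := by omega
    have h2 : J - k = (J - (k + 1)) + 1 := by omega
    have h3 : B ^ (J - (k + 2)) ≤ B ^ (J - (k + 1)) := by
      rw [h1]
      exact Nat.pow_le_pow_right hB1 (Nat.le_succ _)
    calc B ^ (J - (k + 2)) + K₁ * (2 * B ^ (J - (k + 1)))
        ≤ B ^ (J - (k + 1)) + K₁ * (2 * B ^ (J - (k + 1))) := Nat.add_le_add_right h3 _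
      _ = B ^ (J - (k + 1)) * B := by rw [hB]; ring
      _ = B ^ (J - k) := by rw [h2, pow_succ]
  have hκN : κ * N + 2 ≤ κ₀ * N := by
    have h1 : κ * N ≤ κ₀ / 2 * N := mul_le_mul_of_nonneg_right (min_le_left _ _) hNR.le
    have h2 := hG.νN
    have h3 : 2 ≤ κ₀ / 2 * N := by
      have h4 : ν ^ 2 ≤ κ₀ / 4 := by nlinarith
      nlinarith
    linarith
  have b3 := ThmIAux.pigeon (b := fun k => ∑ t ∈ range M,
      PP (FF (N := N) v β σ (fun i => B ^ (J - i)) J d₀ κ t k)) (c := c) (ρ := ρ) hK1 hcpos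
    (by
      intro k hk
      have h := claimII hG (X := fun i => B ^ (J - i)) (J := J) (k := k) (K₁ := K₁) (d₀ := d₀)
        (κ := κ) (κ₀ := κ₀) (η := η') hη'pos.le hd₀pos e4 hJν (by omega)
        (Nat.one_le_pow _ _ (by omega)) (hX k (by omega)) hκN
        (fun X' W hX' => hpl α E v X' W hX')
      rw [hc]
      linarith)
    (ThmIAux.sumFF (by omega))
  have b3' : ρ + 2 * (K : ℝ) ^ 2 * c ≤ η / 8 := by
    have h1 : 2 * (K : ℝ) ^ 2 * (16 * η' / d₀) = η / 32 := by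
      rw [hη']
      field_simp
      ring
    have h2 : 2 * (K : ℝ) ^ 2 * (((J : ℝ) + 1) * ν) ≤ η / 32 := by
      rw [le_div_iff₀ (by positivity)] at e2
      nlinarith
    rw [hc, mul_add]
    linarith
  -- stability
  have b4 := stabP hG J
  have b4' : ((J : ℝ) + 1) * ν ≤ η / 32 := by
    rw [le_div_iff₀ (by positivity)] at e2
    have h1 : (1 : ℝ) ≤ (K : ℝ) ^ 2 := one_le_pow₀ (by exact_mod_cast hK1)
    have h2 : 0 ≤ ((J : ℝ) + 1) * ν := by positivity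
    nlinarith [mul_nonneg h2 (sub_nonneg.2 h1)]
  have b0 : PP (fun e : Fin N ≃ α => ¬ ∃ t < M, Ex v β σ e t) ≤ ν := by
    have := PP_add_not hN (fun e : Fin N ≃ α => ∃ t < M, Ex v β σ e t)
    have h2 := hG.hE
    linarith
  have b0' : ν ≤ η / 32 := by
    refine e1.trans ?_
    rw [div_le_div_iff₀ (by positivity) (by positivity)]
    nlinarith [Nat.cast_nonneg (α := ℝ) k₁]
  set G : (Fin N ≃ α) → Prop := fun e => ∃ t < M, ∃ k, 1 ≤ k ∧ k ≤ K ∧ k ≤ t ∧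
          Ex v β σ e t ∧ (nt v β (Y e (t - k))).card ≤ B ^ J ∧
          κ * N ≤ ((nt v β (Y e (t - k + 1))).card : ℝ) with hGdef
  have hnot : PP (fun e : Fin N ≃ α => ¬ G e) ≤
      PP (fun e : Fin N ≃ α => ¬ ∃ t < M, Ex v β σ e t) +
      (∑ t ∈ range M, PP (fun e : Fin N ≃ α =>
        Ex v β σ e t ∧ ((nt v β (Y e t)).card : ℝ) < d₀ * N) + (ρ +
      (∑ k ∈ range K, ∑ t ∈ range M,
        PP (FF (N := N) v β σ (fun i => B ^ (J - i)) J d₀ κ t k) +
      ∑ t ∈ range M, PP (fun e : Fin N ≃ α =>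
        Ex v β σ e t ∧ ¬ ∀ x ∈ Bs v β (Y e t), x ∈ Y e (t - J))))) := by
    have s1 := PP_exists_le (range M) (fun t => fun e : Fin N ≃ α =>
        Ex v β σ e t ∧ ((nt v β (Y e t)).card : ℝ) < d₀ * N)
    have s2 := PP_exists_le (range M) (fun t => fun e : Fin N ≃ α => Ex v β σ e t ∧
      d₀ * N ≤ ((nt v β (Y e t)).card : ℝ) ∧ (Es v β (Y e t) (Y e (t - K))).Nonempty)
    have s3 : PP (fun e : Fin N ≃ α => ∃ k ∈ range K, ∃ t ∈ range M,
        FF (N := N) v β σ (fun i => B ^ (J - i)) J d₀ κ t k e) ≤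
        ∑ k ∈ range K, ∑ t ∈ range M,
        PP (FF (N := N) v β σ (fun i => B ^ (J - i)) J d₀ κ t k) :=
      (PP_exists_le (range K) (fun k => fun e : Fin N ≃ α => ∃ t ∈ range M,
        FF (N := N) v β σ (fun i => B ^ (J - i)) J d₀ κ t k e)).trans
        (Finset.sum_le_sum (fun k _ => PP_exists_le (range M) (fun t => fun e : Fin N ≃ α =>
        FF (N := N) v β σ (fun i => B ^ (J - i)) J d₀ κ t k e)))
    have s4 := PP_exists_le (range M) (fun t => fun e : Fin N ≃ α =>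
        Ex v β σ e t ∧ ¬ ∀ x ∈ Bs v β (Y e t), x ∈ Y e (t - J))
    refine le_trans (PP_mono (B := fun e => (¬ ∃ t < M, Ex v β σ e t) ∨
      (∃ t ∈ range M, Ex v β σ e t ∧ ((nt v β (Y e t)).card : ℝ) < d₀ * N) ∨
      (∃ t ∈ range M, Ex v β σ e t ∧
      d₀ * N ≤ ((nt v β (Y e t)).card : ℝ) ∧ (Es v β (Y e t) (Y e (t - K))).Nonempty) ∨
      (∃ k ∈ range K, ∃ t ∈ range M,
        FF (N := N) v β σ (fun i => B ^ (J - i)) J d₀ κ t k e) ∨
      (∃ t ∈ range M, Ex v β σ e t ∧ ¬ ∀ x ∈ Bs v β (Y e t), x ∈ Y e (t - J))) ?_) ?_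
    · intro e hne
      by_contra hcon
      simp only [not_or, not_not] at hcon
      obtain ⟨⟨t, htM, hEx⟩, c1, c2, c3, c4⟩ := hcon
      apply hne
      have htr : t ∈ range M := mem_range.2 htM
      have hβt := hEx.ge
      have h1 : d₀ * N ≤ ((nt v β (Y e t)).card : ℝ) := by
        by_contra hc1
        exact c1 ⟨t, htr, hEx, not_le.1 hc1⟩
      refine ⟨t, htM, ThmIAux.det (X := fun i => B ^ (J - i)) (J := J) (d₀ := d₀) hG.σβ hEx
        hNpos (by omega) (by omega) hκpos (min_le_right _ _) h1 ?_ ?_ ?_ ?_⟩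
      · intro hc2
        exact c2 ⟨t, htr, hEx, h1, hc2⟩
      · intro k hk hF
        exact c3 ⟨k, mem_range.2 hk, t, htr, hF⟩
      · by_contra hc4
        exact c4 ⟨t, htr, hEx, hc4⟩
      · intro i
        exact Nat.pow_le_pow_right (by omega) (Nat.sub_le _ _)
    · refine (PP_or_le _ _).trans (add_le_add_right ?_ _)
      refine (PP_or_le _ _).trans (add_le_add s1 ?_)
      refine (PP_or_le _ _).trans (add_le_add s2 ?_)
      exact (PP_or_le _ _).trans (add_le_add s3 s4)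
  have htot := PP_add_not hN G
  linarith

end Pool.Agent.Lib.P0fc
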