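import Mathlib
import Pool.Agent.Lib.P0fc.ThmI
import Pool.Agent.Lib.P0fc.TheoremII

/-!
# One-step emergence, abstract form

`δ` from `theoremII ε`.  Given `η` take `κ', K, A₁, ν₁` from `theoremI ε (η/2)`; `κ = min κ' 1`; for every
`k < K` take `ν_k` from `theoremII` with `κ`, `η/(2 (K+1))`, `k`; `ν₀` = the minimum.
The event of `theoremI`: `Ex e t`, `t < M`, `1 ≤ k ≤ K`, `k ≤ t`, `|nt (Y (t-k))| ≤ A₁`,
`κ N ≤ |nt (Y (t-k+1))|`.  Put `m = t - k < M`, so `m + 1 = t - k + 1 ≤ t < M`; `OK (Y e m)` (`Ex.ok`) gives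
`|sm (Y e m)| ≤ σ`.  If not `δ N ≤ |nt (Y (m+1))|`, then the event of `theoremII` holds at the time `m + 1`
with `k - 1 < K` in place of `k` (`(m + 1) + (k - 1) = t`); the sum over `k < K` and over the times of these
probabilities is at most `K η/(2(K+1)) ≤ η/2` (union bound).
-/

namespace Pool.Agent.Lib.P0fc

open Finset Pool.Agent.Lib.P0fb

private theorem exists_low (f : ℕ → ℝ) (hf : ∀ k, 0 < f k) (K : ℕ) :
    ∃ c : ℝ, 0 < c ∧ ∀ k < K, c ≤ f k := by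
  induction K with
  | zero => exact ⟨1, one_pos, fun k hk => absurd hk (Nat.not_lt_zero k)⟩
  | succ K ih =>
    obtain ⟨c, hc, h⟩ := ih
    refine ⟨min c (f K), lt_min hc (hf K), fun k hk => ?_⟩
    rcases Nat.lt_succ_iff_lt_or_eq.1 hk with h1 | h1
    · exact (min_le_left _ _).trans (h k h1)
    · rw [h1]
      exact min_le_right _ _

theorem one_step (ε : ℝ) (hε : 0 < ε) (hε1 : ε ≤ 1) : ∃ δ : ℝ, 0 < δ ∧
    ∀ η : ℝ, 0 < η → ∃ (A₁ : ℕ) (ν₀ : ℝ), 0 < ν₀ ∧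
    ∀ (α : Type) [Fintype α] [DecidableEq α] (E : Type) [AddCommGroup E] [Module ℝ E]
      (v : α → E) (N M M₂ β σ : ℕ) (ν : ℝ), ν ≤ ν₀ → Good v N M M₂ β σ ε ν →
      1 - η ≤ PP (fun e : Fin N ≃ α => ∃ m < M, (nt v β (Y e m)).card ≤ A₁ ∧
        (sm v β (Y e m)).card ≤ σ ∧ δ * (N : ℝ) ≤ ((nt v β (Y e (m + 1))).card : ℝ)) := by
  obtain ⟨δ, hδ, h2⟩ := theoremII ε hε hε1
  refine ⟨δ, hδ, fun η hη => ?_⟩
  obtain ⟨κ', hκ', K, A₁, ν₁, hν₁, h1⟩ := theoremI ε hε hε1 (η / 2) (by positivity)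
  have hK : (0 : ℝ) < 2 * ((K : ℝ) + 1) := by positivity
  have h3 := fun k => h2 (min κ' 1) (η / (2 * ((K : ℝ) + 1))) (lt_min hκ' one_pos)
    (min_le_right _ _) (div_pos hη hK) k
  choose νf hνf h4 using h3
  obtain ⟨c, hc, hcf⟩ := exists_low νf hνf K
  refine ⟨A₁, min ν₁ c, lt_min hν₁ hc, ?_⟩
  intro α _ _ E _ _ v N M M₂ β σ ν hν hG
  have h5 := h1 ν (hν.trans (min_le_left _ _)) α E v N M M₂ β σ hG
  have h6 : ∀ k ∈ range K, PP (fun e : Fin N ≃ α => ∃ t ∈ range M, Ex v β σ e (t + k) ∧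
      min κ' 1 * (Fintype.card α : ℝ) ≤ ((nt v β (Y e t)).card : ℝ) ∧
      ((nt v β (Y e t)).card : ℝ) ≤ δ * (Fintype.card α : ℝ)) ≤ η / (2 * ((K : ℝ) + 1)) := by
    intro k hk
    refine (PP_exists_le _ _).trans ?_
    exact h4 k α E v N M M₂ β σ ν ((hν.trans (min_le_right _ _)).trans
      (hcf k (mem_range.1 hk))) hG
  have h7 : PP (fun e : Fin N ≃ α => ∃ k ∈ range K, ∃ t ∈ range M, Ex v β σ e (t + k) ∧
      min κ' 1 * (Fintype.card α : ℝ) ≤ ((nt v β (Y e t)).card : ℝ) ∧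
      ((nt v β (Y e t)).card : ℝ) ≤ δ * (Fintype.card α : ℝ)) ≤ η / 2 := by
    refine (PP_exists_le _ _).trans ((sum_le_sum h6).trans ?_)
    rw [sum_const, card_range, nsmul_eq_mul, mul_div_assoc', div_le_div_iff₀ hK two_pos]
    nlinarith
  have h8 := PP_or_le (N := N) (α := α) (fun e => ∃ m < M, (nt v β (Y e m)).card ≤ A₁ ∧
        (sm v β (Y e m)).card ≤ σ ∧ δ * (N : ℝ) ≤ ((nt v β (Y e (m + 1))).card : ℝ))
      (fun e => ∃ k ∈ range K, ∃ t ∈ range M, Ex v β σ e (t + k) ∧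
      min κ' 1 * (Fintype.card α : ℝ) ≤ ((nt v β (Y e t)).card : ℝ) ∧
      ((nt v β (Y e t)).card : ℝ) ≤ δ * (Fintype.card α : ℝ))
  have h9 : PP (fun e : Fin N ≃ α => ∃ t < M, ∃ k, 1 ≤ k ∧ k ≤ K ∧ k ≤ t ∧
          Ex v β σ e t ∧ (nt v β (Y e (t - k))).card ≤ A₁ ∧
          κ' * N ≤ ((nt v β (Y e (t - k + 1))).card : ℝ)) ≤
      PP (fun e : Fin N ≃ α => (∃ m < M, (nt v β (Y e m)).card ≤ A₁ ∧
        (sm v β (Y e m)).card ≤ σ ∧ δ * (N : ℝ) ≤ ((nt v β (Y e (m + 1))).card : ℝ)) ∨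
        ∃ k ∈ range K, ∃ t ∈ range M, Ex v β σ e (t + k) ∧
      min κ' 1 * (Fintype.card α : ℝ) ≤ ((nt v β (Y e t)).card : ℝ) ∧
      ((nt v β (Y e t)).card : ℝ) ≤ δ * (Fintype.card α : ℝ)) := by
    refine PP_mono ?_
    rintro e ⟨t, ht, k, hk1, hkK, hkt, hEx, hA, hκN⟩
    by_cases hb : δ * (N : ℝ) ≤ ((nt v β (Y e (t - k + 1))).card : ℝ)
    · left
      exact ⟨t - k, by omega, hA, (hEx.ok (by omega : t - k ≤ t)).2, hb⟩
    · right
      refine ⟨k - 1, mem_range.2 (by omega), t - k + 1, mem_range.2 (by omega), ?_, ?_, ?_⟩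
      · have : t - k + 1 + (k - 1) = t := by omega
        rw [this]
        exact hEx
      · rw [hG.card]
        refine le_trans ?_ hκN
        exact mul_le_mul_of_nonneg_right (min_le_left _ _) (Nat.cast_nonneg _)
      · rw [hG.card]
        exact (not_le.1 hb).le
  linarith

end Pool.Agent.Lib.P0fc
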