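import Mathlib
import Pool.Agent.Lib.P0fc.Conc
import Pool.Agent.Lib.P0fb.Params

/-!
# The assumptions hold

Let `c = 6 (d+1)`; `(ε₁, C₁)` from `small_shadow d hd c`, `(ε₂, C₂)` from `small_B d hd c`;
`ε' = min (min ε₁ ε₂) (1/(2 * 2^d * d!))`, `C₀ = max C₁ C₂`, `b n = ⌈ε' n^d⌉₊`, `σ n = ⌊C₀ n⌋₊`,
`β n = b n - σ n - 1`, `ε = min 1 (ε'/12)`.  (Compare `P0fb/Params.lean`, whose auxiliary lemmas
`choose_ge`, `Mn_le`, `Smc_mono` can be used.)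
`Smc`, `Bsc` are monotone in `b`, so for `M₂ = 3 C(n,d)` (`M₂ n ≤ c C(n,d+1)` for `n ≥ 2d`, `Mn_le`) with
probability tending to `1`: `|Smc (b n) (Y M₂)| ≤ C₀ n`, `|Bsc (b n) (Y M₂)| ≤ C₀ n`, i.e. `≤ σ n`.
Fix `ν ∈ (0, 1/8]`.  For large `n`: `β n + σ n + 1 = b n`, `b n ≤ C(n,d)` (as in `params`), and
* `hM`: `2 C(n,d) + 1/ν ≤ 3 C(n,d)`; `hN`: `3 C(n,d) ≤ ν C(n,d+1)` (`C(n,d+1) (d+1) = C(n,d) (n-d)`);
* `hβ`: `2 ε * 3 C(n,d) ≤ ε'/2 * n^d ≤ β n` since `C(n,d) ≤ n^d` and `C₀ n + 1 ≤ ε'/2 * n^d` (`d ≥ 2`);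
* `hσ`, `h1`: `C₀ n ≤ ν β n`, `1 ≤ ν β n` as `β n ≥ (ε'/2) n^d ≥ (ε'/2) n²`;
* `hS`: `sm_β ⊆ Smc_b`, `Bs_β ⊆ Bsc_b` (`Conc`) and the two probabilities are eventually `≥ 1 - ν/2`;
* `hE`: `exit_exists` (with `M = 3 C(n,d)` there) on the event `|Smc_b (Y M₂)| ≤ σ`.
-/

namespace Pool.Agent.Lib.P0fc

open Finset Pool.Agent.Lib.P0fb Filter

namespace Params3Aux

theorem Bsc_mono {d n b b' : ℕ} (h : b ≤ b') (W : Finset (Fc n d)) :
    Bsc d n b W ⊆ Bsc d n b' W := by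
  classical
  intro g hg
  unfold Bsc at hg ⊢
  rw [Finset.mem_filter] at hg ⊢
  obtain ⟨h1, K, g', h2, h3, h4, h5⟩ := hg
  exact ⟨h1, K, g', h2, h3, h4, h5.trans_le h⟩

theorem card_Fc (n d : ℕ) : Fintype.card (Fc n d) = n.choose (d + 1) := by
  unfold Fc
  simp

theorem PP_and_ge {N : ℕ} {α : Type*} [Fintype α] [DecidableEq α] (hN : Fintype.card α = N)
    (A B : (Fin N ≃ α) → Prop) : PP A + PP B - 1 ≤ PP (fun e => A e ∧ B e) := by
  have h1 := PP_add_not hN (fun e => A e ∧ B e)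
  have h2 := PP_add_not hN A
  have h3 := PP_add_not hN B
  have h4 : PP (fun e => ¬ (A e ∧ B e)) ≤ PP (fun e => ¬ A e) + PP (fun e => ¬ B e) := by
    refine le_trans (PP_mono fun e he => ?_) (PP_or_le (fun e => ¬ A e) (fun e => ¬ B e))
    exact not_and_or.1 he
  linarith

theorem num1 {C ε x P σ : ℝ} (hε : 0 < ε) (hx : 1 ≤ x) (hP : x ^ 2 ≤ P) (h : 2 * (C + 1) ≤ x * ε)
    (hσ : σ ≤ C * x) : σ + 1 ≤ ε * P / 2 := by
  have h1 : (C + 1) * x ≤ ε * x ^ 2 / 2 := by nlinarith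
  have h2 := mul_le_mul_of_nonneg_left hP hε.le
  linarith

theorem num2 {C ε x P ν β : ℝ} (hε : 0 < ε) (hν : 0 < ν) (hx : 1 ≤ x) (hP : x ^ 2 ≤ P)
    (h : 2 * (C + 1) ≤ x * (ν * ε)) (hβ : ε * P / 2 ≤ β) : (C + 1) * x ≤ ν * β := by
  have h1 : (C + 1) * x ≤ ν * (ε * x ^ 2 / 2) := by nlinarith
  have h2 := mul_le_mul_of_nonneg_left hP hε.le
  have h3 : ν * (ε * x ^ 2 / 2) ≤ ν * β := mul_le_mul_of_nonneg_left (by linarith) hν.le
  linarith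

theorem num3 {x P K ν : ℝ} (h : K ≤ x * ν) (hP : x ≤ P) (hν : 0 < ν) : 1 * K ≤ P * ν := by nlinarith

theorem num4 {C x s t : ℝ} (hs : s ≤ C * x) (h : (C + 1) * x ≤ t) (hx : 1 ≤ x) : s ≤ t := by nlinarith

theorem num5 {C x t : ℝ} (hC : 0 < C) (h : (C + 1) * x ≤ t) (hx : 1 ≤ x) : 1 ≤ t := by nlinarith

end Params3Aux

open Params3Aux

theorem params3 (d : ℕ) (hd : 2 ≤ d) : ∃ (ε C₀ : ℝ) (β : ℕ → ℕ), 0 < ε ∧ ε ≤ 1 ∧ 0 < C₀ ∧
    ∀ ν : ℝ, 0 < ν → ν ≤ 1 / 8 → ∀ᶠ n : ℕ in atTop,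
      Good (vb n d) (n.choose (d + 1)) (2 * n.choose d) (3 * n.choose d) (β n) ⌊C₀ * n⌋₊ ε ν := by
  obtain ⟨ε₁, C₁, hε₁, hC₁, hS₁⟩ := small_shadow d hd (6 * ((d : ℝ) + 1)) (by positivity)
  obtain ⟨ε₂, C₂, hε₂, hC₂, hS₂⟩ := small_B d hd (6 * ((d : ℝ) + 1)) (by positivity)
  obtain ⟨ε', hε'⟩ : ∃ ε' : ℝ, ε' = min (min ε₁ ε₂) (1 / (2 * (2 ^ d * d.factorial))) := ⟨_, rfl⟩
  have hfac : (0 : ℝ) < (d.factorial : ℝ) := by exact_mod_cast d.factorial_pos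
  have hε'0 : 0 < ε' := by
    rw [hε']
    exact lt_min (lt_min hε₁ hε₂) (by positivity)
  have hε'1 : ε' ≤ ε₁ := by
    rw [hε']
    exact (min_le_left _ _).trans (min_le_left _ _)
  have hε'2 : ε' ≤ ε₂ := by
    rw [hε']
    exact (min_le_left _ _).trans (min_le_right _ _)
  have hε'3 : ε' ≤ 1 / (2 * (2 ^ d * d.factorial)) := by
    rw [hε']
    exact min_le_right _ _
  obtain ⟨C₀, hC₀⟩ : ∃ C₀ : ℝ, C₀ = max C₁ C₂ := ⟨_, rfl⟩
  have hC₀1 : C₁ ≤ C₀ := by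
    rw [hC₀]
    exact le_max_left _ _
  have hC₀2 : C₂ ≤ C₀ := by
    rw [hC₀]
    exact le_max_right _ _
  have hC₀0 : 0 < C₀ := hC₁.trans_le hC₀1
  refine ⟨min 1 (ε' / 12), C₀, fun n => ⌈ε' * (n : ℝ) ^ d⌉₊ - ⌊C₀ * n⌋₊ - 1,
    lt_min one_pos (by positivity), min_le_left _ _, hC₀0, ?_⟩
  intro ν hν hν1
  have hMev : ∀ᶠ n : ℕ in atTop, ((3 * n.choose d : ℕ) : ℝ) * n ≤ (6 * ((d : ℝ) + 1)) * (n.choose (d + 1) : ℝ) := by
    filter_upwards [eventually_ge_atTop (2 * d)] with n hn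
    exact ParamsAux.Mn_le hn
  have hP1 := (hS₁ (fun n => 3 * n.choose d) hMev).eventually (lt_mem_nhds (show 1 - ν / 2 < 1 by linarith))
  have hP2 := (hS₂ (fun n => 3 * n.choose d) hMev).eventually (lt_mem_nhds (show 1 - ν / 2 < 1 by linarith))
  have hl : ∀ K : ℝ, ∀ᶠ n : ℕ in atTop, K ≤ (n : ℝ) := fun K =>
    tendsto_natCast_atTop_atTop.eventually_ge_atTop K
  filter_upwards [hP1, hP2, hMev, eventually_ge_atTop (2 * d), hl (2 * (C₀ + 1) / ε'),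
    hl ((2 ^ d * d.factorial) / ν), hl (6 * ((d : ℝ) + 1) / ν), hl (2 * (C₀ + 1) / (ν * ε'))]
    with n hP1 hP2 hMn hnd hn1 hn2 hn3 hn4
  have hn0 : (1 : ℝ) ≤ n := by
    have : 1 ≤ n := by omega
    exact_mod_cast this
  have hn00 : (0 : ℝ) < n := by linarith
  have hpow2 : (n : ℝ) ^ 2 ≤ (n : ℝ) ^ d := pow_le_pow_right₀ hn0 hd
  have hpow1 : (n : ℝ) ≤ (n : ℝ) ^ d := le_self_pow₀ hn0 (by omega)
  have hchle : (n.choose d : ℝ) ≤ (n : ℝ) ^ d := by exact_mod_cast Nat.choose_le_pow n d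
  have hchge := ParamsAux.choose_ge hnd
  have hσle : (⌊C₀ * n⌋₊ : ℝ) ≤ C₀ * n := Nat.floor_le (by positivity)
  set σ : ℕ := ⌊C₀ * n⌋₊ with hσ
  set b : ℕ := ⌈ε' * (n : ℝ) ^ d⌉₊ with hb
  have hbge : ε' * (n : ℝ) ^ d ≤ (b : ℝ) := Nat.le_ceil _
  have hσ1 : (σ : ℝ) + 1 ≤ ε' * (n : ℝ) ^ d / 2 :=
    num1 hε'0 hn0 hpow2 ((div_le_iff₀ hε'0).1 hn1) hσle
  have hbσ : σ + 1 ≤ b := by
    have : ((σ + 1 : ℕ) : ℝ) ≤ b := by
      push_cast
      have : 0 < ε' * (n : ℝ) ^ d := by positivity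
      linarith
    exact_mod_cast this
  set β : ℕ := b - σ - 1 with hβ
  have hbeq : b = β + σ + 1 := by omega
  have hβb : β < b := by omega
  have hβr : (β : ℝ) = b - σ - 1 := by
    have : (b : ℝ) = β + σ + 1 := by exact_mod_cast hbeq
    linarith
  have hβge : ε' * (n : ℝ) ^ d / 2 ≤ β := by
    rw [hβr]
    linarith
  have hνβ : (C₀ + 1) * n ≤ ν * β :=
    num2 hε'0 hν hn0 hpow2 ((div_le_iff₀ (by positivity)).1 hn4) hβge
  have hbn : b ≤ n.choose d := by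
    rw [hb, Nat.ceil_le]
    refine le_trans ?_ hchge
    have h1 : ε' ≤ 1 / (2 ^ d * d.factorial) := by
      refine hε'3.trans ?_
      apply one_div_le_one_div_of_le (by positivity)
      have : (0 : ℝ) < 2 ^ d * d.factorial := by positivity
      linarith
    calc ε' * (n : ℝ) ^ d ≤ 1 / (2 ^ d * d.factorial) * (n : ℝ) ^ d :=
          mul_le_mul_of_nonneg_right h1 (by positivity)
      _ = _ := by ring
  have hN3 : ((3 * n.choose d : ℕ) : ℝ) ≤ ν * (n.choose (d + 1) : ℝ) := by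
    rw [div_le_iff₀ hν] at hn3
    have h1 : 6 * ((d : ℝ) + 1) * (n.choose (d + 1) : ℝ) ≤ (n : ℝ) * ν * (n.choose (d + 1) : ℝ) :=
      mul_le_mul_of_nonneg_right hn3 (Nat.cast_nonneg _)
    have h2 := hMn.trans h1
    have h3 : ((3 * n.choose d : ℕ) : ℝ) * n ≤ (ν * (n.choose (d + 1) : ℝ)) * n := h2.trans (le_of_eq (by ring))
    exact le_of_mul_le_mul_right h3 hn00
  have hN4 : 3 * n.choose d ≤ n.choose (d + 1) := by
    have h1 : ν * (n.choose (d + 1) : ℝ) ≤ 1 * (n.choose (d + 1) : ℝ) :=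
      mul_le_mul_of_nonneg_right (by linarith) (Nat.cast_nonneg _)
    have h2 : ((3 * n.choose d : ℕ) : ℝ) ≤ (n.choose (d + 1) : ℝ) := by linarith
    exact_mod_cast h2
  have hcard := card_Fc n d
  have hA : 1 - ν / 2 ≤ PP (fun e : Fin (n.choose (d + 1)) ≃ Fc n d =>
      (Smc d n b (Y e (3 * n.choose d))).card ≤ σ) := by
    refine le_trans hP1.le (PP_mono fun e he => ?_)
    refine Nat.le_floor ?_
    refine le_trans ?_ (le_trans he (mul_le_mul_of_nonneg_right hC₀1 hn00.le))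
    have h1 : b ≤ ⌈ε₁ * (n : ℝ) ^ d⌉₊ :=
      Nat.ceil_le_ceil (mul_le_mul_of_nonneg_right hε'1 (by positivity))
    exact_mod_cast Finset.card_le_card (ParamsAux.Smc_mono h1 (Y e (3 * n.choose d)))
  have hB : 1 - ν / 2 ≤ PP (fun e : Fin (n.choose (d + 1)) ≃ Fc n d =>
      (Bsc d n b (Y e (3 * n.choose d))).card ≤ σ) := by
    refine le_trans hP2.le (PP_mono fun e he => ?_)
    refine Nat.le_floor ?_
    refine le_trans ?_ (le_trans he (mul_le_mul_of_nonneg_right hC₀2 hn00.le))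
    have h1 : b ≤ ⌈ε₂ * (n : ℝ) ^ d⌉₊ :=
      Nat.ceil_le_ceil (mul_le_mul_of_nonneg_right hε'2 (by positivity))
    exact_mod_cast Finset.card_le_card (Bsc_mono h1 (Y e (3 * n.choose d)))
  refine ⟨hcard, lt_min one_pos (by positivity), min_le_left _ _, hν, hν1, ?_, hN3, ?_, ?_, ?_, ?_, ?_⟩
  · have h1 : 1 / ν ≤ (n.choose d : ℝ) := by
      refine le_trans ?_ hchge
      rw [div_le_div_iff₀ hν (by positivity)]
      exact num3 ((div_le_iff₀ hν).1 hn2) hpow1 hν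
    push_cast
    linarith
  · calc 2 * min 1 (ε' / 12) * ((3 * n.choose d : ℕ) : ℝ) ≤ 2 * (ε' / 12) * ((3 * n.choose d : ℕ) : ℝ) := by
          apply mul_le_mul_of_nonneg_right _ (Nat.cast_nonneg _)
          have := min_le_right 1 (ε' / 12)
          linarith
      _ = ε' * (n.choose d : ℝ) / 2 := by push_cast; ring
      _ ≤ ε' * (n : ℝ) ^ d / 2 := by
          have := mul_le_mul_of_nonneg_left hchle hε'0.le
          linarith
      _ ≤ β := hβge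
  · exact num4 hσle hνβ hn0
  · exact num5 hC₀0 hνβ hn0
  · refine le_trans ?_ (PP_and_ge hcard _ _)
    have h1 : 1 - ν / 2 ≤ PP (fun e : Fin (n.choose (d + 1)) ≃ Fc n d =>
        (sm (vb n d) β (Y e (3 * n.choose d))).card ≤ σ) :=
      hA.trans (PP_mono fun e he => (Finset.card_le_card (sm_sub hβb _)).trans he)
    have h2 : 1 - ν / 2 ≤ PP (fun e : Fin (n.choose (d + 1)) ≃ Fc n d =>
        (Bs (vb n d) β (Y e (3 * n.choose d))).card ≤ σ) :=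
      hB.trans (PP_mono fun e he => (Finset.card_le_card (Bs_sub hβb _)).trans he)
    linarith
  · refine le_trans (by linarith) (hA.trans (PP_mono fun e he => ?_))
    exact exit_exists hbeq hbn (by omega) hN4 e he

end Pool.Agent.Lib.P0fc
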