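import Mathlib
import Pool.Agent.Lib.P0fc.OneStep
import Pool.Agent.Lib.P0fc.Params3

/-!
# One-step emergence of the giant shadow

`(ε, C₀, β)` from `params3`, `δ` from `one_step ε`.  `C = C₀ + 1`, `c = δ/(2^(d+1) (d+1)!)`
(`C(n,d+1) ≥ (n/2)^(d+1)/(d+1)!` for `n ≥ 2 (d+1)`, `choose_ge` in `P0fb/Params.lean`).
Given `η > 0` (`ε`-`N` form of the limit; the probabilities are `≤ 1`): `(A₁, ν₀)` from `one_step`,
`ν = min ν₀ (1/8)`; for large `n` `Good` holds, `A₁ ≤ n`, and `2 C(n,d) ≤ C(n,d+1)`.  On the event of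
`one_step`, `m < 2 C(n,d) ≤ C(n,d+1)`:
`|vcl (Y m) \ Y m| ≤ |nt (Y m)| + |sm (Y m)| ≤ A₁ + C₀ n ≤ C n` and
`|vcl (Y (m+1)) \ Y (m+1)| ≥ |nt (Y (m+1))| ≥ δ C(n,d+1) ≥ c n^(d+1)`; `vcl_vb`.
-/

namespace Pool.Agent.Lib.P0fc

open Finset Pool.Agent.Lib.P0fb Filter

theorem final_c (d : ℕ) (hd : 2 ≤ d) : ∃ C c : ℝ, 0 < C ∧ 0 < c ∧
    Tendsto (fun n : ℕ => PP (fun e : Fin (n.choose (d + 1)) ≃ Fc n d =>
      ∃ m < n.choose (d + 1), ((clF ℝ n d (Y e m) \ Y e m).card : ℝ) ≤ C * n ∧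
        c * (n : ℝ) ^ (d + 1) ≤ ((clF ℝ n d (Y e (m + 1)) \ Y e (m + 1)).card : ℝ)))
      atTop (nhds 1) := by
  obtain ⟨ε, C₀, β, hε, hε1, hC₀, hP⟩ := params3 d hd
  obtain ⟨δ, hδ, h1⟩ := one_step ε hε hε1
  have hfac : (0 : ℝ) < 2 ^ (d + 1) * (d + 1).factorial := by
    have : (0 : ℝ) < ((d + 1).factorial : ℝ) := by exact_mod_cast (d + 1).factorial_pos
    positivity
  refine ⟨C₀ + 1, δ / (2 ^ (d + 1) * (d + 1).factorial), by positivity, div_pos hδ hfac, ?_⟩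
  rw [Metric.tendsto_atTop]
  intro η hη
  obtain ⟨A₁, ν₀, hν₀, h2⟩ := h1 (η / 2) (by positivity)
  have h3 := hP (min ν₀ (1 / 8)) (lt_min hν₀ (by norm_num)) (min_le_right _ _)
  have h4 : ∀ᶠ n : ℕ in atTop, 1 - η / 2 ≤ PP (fun e : Fin (n.choose (d + 1)) ≃ Fc n d =>
      ∃ m < n.choose (d + 1), ((clF ℝ n d (Y e m) \ Y e m).card : ℝ) ≤ (C₀ + 1) * n ∧
        δ / (2 ^ (d + 1) * (d + 1).factorial) * (n : ℝ) ^ (d + 1) ≤
          ((clF ℝ n d (Y e (m + 1)) \ Y e (m + 1)).card : ℝ)) := by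
    filter_upwards [h3, eventually_ge_atTop A₁, eventually_ge_atTop (2 * (d + 1))] with n hG hA hn
    have h5 := h2 (Fc n d) (Finset (Fin n) → ℝ) (vb n d) (n.choose (d + 1)) (2 * n.choose d)
      (3 * n.choose d) (β n) ⌊C₀ * n⌋₊ (min ν₀ (1 / 8)) (min_le_left _ _) hG
    refine h5.trans (PP_mono ?_)
    rintro e ⟨m, hm, hm1, hm2, hm3⟩
    have hMN : 2 * n.choose d < n.choose (d + 1) := hG.M8.2
    refine ⟨m, hm.trans hMN, ?_, ?_⟩
    · rw [← vcl_vb]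
      have h6 : vcl (vb n d) (Y e m) \ Y e m ⊆
          nt (vb n d) (β n) (Y e m) ∪ sm (vb n d) (β n) (Y e m) := by
        intro x hx
        rw [Finset.mem_sdiff] at hx
        rw [mem_union]
        by_cases hs : x ∈ sm (vb n d) (β n) (Y e m)
        · exact Or.inr hs
        · exact Or.inl (mem_nt.2 ⟨hx.1, hx.2, hs⟩)
      have h7 : ((vcl (vb n d) (Y e m) \ Y e m).card : ℝ) ≤
          ((nt (vb n d) (β n) (Y e m)).card : ℝ) + ((sm (vb n d) (β n) (Y e m)).card : ℝ) := by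
        exact_mod_cast (card_le_card h6).trans (card_union_le _ _)
      have h8 : ((nt (vb n d) (β n) (Y e m)).card : ℝ) ≤ n := by
        exact_mod_cast hm1.trans hA
      have h9 : ((sm (vb n d) (β n) (Y e m)).card : ℝ) ≤ C₀ * n := by
        refine le_trans (by exact_mod_cast hm2) (Nat.floor_le (by positivity))
      linarith
    · rw [← vcl_vb]
      have h6 : nt (vb n d) (β n) (Y e (m + 1)) ⊆ vcl (vb n d) (Y e (m + 1)) \ Y e (m + 1) := by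
        intro x hx
        rw [mem_nt] at hx
        exact Finset.mem_sdiff.2 ⟨hx.1, hx.2.1⟩
      have h7 : ((nt (vb n d) (β n) (Y e (m + 1))).card : ℝ) ≤
          ((vcl (vb n d) (Y e (m + 1)) \ Y e (m + 1)).card : ℝ) := by
        exact_mod_cast card_le_card h6
      have h8 := ParamsAux.choose_ge (n := n) (d := d + 1) hn
      have h9 : δ * ((n : ℝ) ^ (d + 1) / (2 ^ (d + 1) * (d + 1).factorial)) ≤
          δ * (n.choose (d + 1) : ℝ) := mul_le_mul_of_nonneg_left h8 hδ.le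
      calc δ / (2 ^ (d + 1) * (d + 1).factorial) * (n : ℝ) ^ (d + 1)
          = δ * ((n : ℝ) ^ (d + 1) / (2 ^ (d + 1) * (d + 1).factorial)) := by ring
        _ ≤ δ * (n.choose (d + 1) : ℝ) := h9
        _ ≤ _ := hm3
        _ ≤ _ := h7
  obtain ⟨n₀, hn₀⟩ := eventually_atTop.1 h4
  refine ⟨n₀, fun n hn => ?_⟩
  have h5 := hn₀ n hn
  have h6 := PP_le_one (fun e : Fin (n.choose (d + 1)) ≃ Fc n d =>
      ∃ m < n.choose (d + 1), ((clF ℝ n d (Y e m) \ Y e m).card : ℝ) ≤ (C₀ + 1) * n ∧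
        δ / (2 ^ (d + 1) * (d + 1).factorial) * (n : ℝ) ^ (d + 1) ≤
          ((clF ℝ n d (Y e (m + 1)) \ Y e (m + 1)).card : ℝ))
  rw [Real.dist_eq, abs_lt]
  constructor <;> linarith

end Pool.Agent.Lib.P0fc
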